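import Mathlib

/-! The Hill equation with squared Duffing coefficient: definitions used in the statement. -/

namespace Pool.Agent.HillD
open Real Set

/-- `ξ'' + q ξ = 0` on `ℝ`, with `ξ'` the derivative of `ξ`. -/
def IsSol (q ξ ξ' : ℝ → ℝ) : Prop :=
  ∀ t, HasDerivAt ξ (ξ' t) t ∧ HasDerivAt ξ' (-(q t * ξ t)) t

/-- `Θ'' + Θ / ω + Θ ^ 3 / ω = 0` on `ℝ`, `Θ 0 = δ`, `Θ' 0 = 0`. -/
def IsDuffing (δ ω : ℝ) (Θ : ℝ → ℝ) : Prop :=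
  ∃ Θ' : ℝ → ℝ, Θ 0 = δ ∧ Θ' 0 = 0 ∧
    ∀ t, HasDerivAt Θ (Θ' t) t ∧ HasDerivAt Θ' (-(Θ t / ω + Θ t ^ 3 / ω)) t

/-- The complete elliptic integral of the first kind, modulus `k`. -/
noncomputable def ellK (k : ℝ) : ℝ := ∫ φ in (0 : ℝ)..π / 2, 1 / √(1 - k ^ 2 * sin φ ^ 2)

/-- The period `T_ω(δ)` of the Duffing solution. -/
noncomputable def period (δ ω : ℝ) : ℝ :=
  4 * √(ω / (1 + δ ^ 2)) * ellK (δ / √(2 * (1 + δ ^ 2)))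

/-- `M` is the monodromy matrix of `ξ'' + (ω + Θ ^ 2) ξ = 0` over `T_ω(δ) / 2`. -/
def IsMonodromy (δ ω : ℝ) (M : Matrix (Fin 2) (Fin 2) ℝ) : Prop :=
  ∃ Θ c c' s s' : ℝ → ℝ, IsDuffing δ ω Θ ∧
    IsSol (fun t => ω + Θ t ^ 2) c c' ∧ c 0 = 1 ∧ c' 0 = 0 ∧
    IsSol (fun t => ω + Θ t ^ 2) s s' ∧ s 0 = 0 ∧ s' 0 = 1 ∧
    M = !![c (period δ ω / 2), s (period δ ω / 2); c' (period δ ω / 2), s' (period δ ω / 2)]

/-- At `x`, `f` switches between strictly convex and strictly concave, inside `(0, ∞)`. -/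
def IsInflection (f : ℝ → ℝ) (x : ℝ) : Prop :=
  ∃ ε, 0 < ε ∧ ε < x ∧
    ((StrictConvexOn ℝ (Icc (x - ε) x) f ∧ StrictConcaveOn ℝ (Icc x (x + ε)) f) ∨
      (StrictConcaveOn ℝ (Icc (x - ε) x) f ∧ StrictConvexOn ℝ (Icc x (x + ε)) f))

/-- On `(0, ∞)`, `f` is real-analytic and strictly increasing, tends to `l` at `0`, and has at
least one inflection point. -/
def IsLine (l : ℕ) (f : ℝ → ℝ) : Prop :=
  AnalyticOnNhd ℝ f (Ioi 0) ∧ Filter.Tendsto f (nhdsWithin 0 (Ioi 0)) (nhds (l : ℝ)) ∧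
    StrictMonoOn f (Ioi 0) ∧ ∃ x, IsInflection f x

end Pool.Agent.HillD
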