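import Pool.Agent.P.MP_ae2765_an.Link

/-! Analytic dependence of the solutions on the parameters, and analyticity of the curves. -/

namespace Pool.Agent.HillD
open Real Set Filter Topology

abbrev CI : Type := C(Icc (0 : ℝ) π, ℝ)

noncomputable def ext (f : CI) (s : ℝ) : ℝ := f (projIcc 0 π pi_pos.le s)

theorem ext_cont (f : CI) : Continuous (ext f) := f.continuous.comp continuous_projIcc

theorem Jint_cont (lam : ℝ) (f : CI) : Continuous fun s => exp (lam * s) * ext f s := by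
  have := ext_cont f
  fun_prop

/-- The weighted integration operator. -/
noncomputable def Jlin (lam : ℝ) : CI →ₗ[ℝ] CI where
  toFun f := ⟨fun t => exp (-(lam * t)) * ∫ s in (0 : ℝ)..t, exp (lam * s) * ext f s, by
    have : Continuous fun u : ℝ => ∫ s in (0 : ℝ)..u, exp (lam * s) * ext f s :=
      continuous_iff_continuousAt.2 fun x => (hasDerivAt_int (Jint_cont lam f) x).continuousAt
    fun_prop⟩
  map_add' f g := by
    ext t
    simp only [ContinuousMap.coe_mk, ContinuousMap.add_apply]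
    rw [← mul_add, ← intervalIntegral.integral_add ((Jint_cont lam f).intervalIntegrable _ _)
      ((Jint_cont lam g).intervalIntegrable _ _)]
    simp [ext, mul_add]
  map_smul' c f := by
    ext t
    simp only [ContinuousMap.coe_mk, ContinuousMap.smul_apply, RingHom.id_apply, smul_eq_mul]
    rw [mul_left_comm c, ← intervalIntegral.integral_const_mul c]
    simp [ext, mul_left_comm]

theorem Jlin_apply (lam : ℝ) (f : CI) (t : Icc (0 : ℝ) π) :
    Jlin lam f t = exp (-(lam * t)) * ∫ s in (0 : ℝ)..t, exp (lam * s) * ext f s := rfl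

theorem Jlin_bound {lam : ℝ} (h : 0 < lam) (f : CI) : ‖Jlin lam f‖ ≤ lam⁻¹ * ‖f‖ := by
  refine (ContinuousMap.norm_le _ (by positivity)).2 fun t => ?_
  rw [Jlin_apply, norm_mul, Real.norm_eq_abs, abs_of_pos (exp_pos _)]
  have i1 : ∫ s in (0 : ℝ)..t, exp (lam * s) * ‖f‖ = (exp (lam * t) - 1) * (lam⁻¹ * ‖f‖) := by
    have := intervalIntegral.integral_eq_sub_of_hasDerivAt (a := 0) (b := t)
      (f := fun s => exp (lam * s) * (lam⁻¹ * ‖f‖)) (f' := fun s => exp (lam * s) * ‖f‖)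
      (fun s _ => ((((hasDerivAt_id s).const_mul lam).exp).mul_const _).congr_deriv (by
        simp only [id]; field_simp)) (by apply Continuous.intervalIntegrable; fun_prop)
    rw [this]; simp; ring
  have i2 : ‖∫ s in (0 : ℝ)..t, exp (lam * s) * ext f s‖ ≤ ∫ s in (0 : ℝ)..t, exp (lam * s) * ‖f‖ :=
    intervalIntegral.norm_integral_le_of_norm_le t.2.1 (Eventually.of_forall fun s _ => by
      rw [norm_mul, Real.norm_eq_abs, abs_of_pos (exp_pos _)]
      exact mul_le_mul_of_nonneg_left (f.norm_coe_le_norm _) (exp_pos _).le)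
      (by apply Continuous.intervalIntegrable; fun_prop)
  rw [i1] at i2
  have e : exp (-(lam * t)) * exp (lam * t) = 1 := by rw [← exp_add]; simp
  have p : 0 ≤ exp (-(lam * t)) * (lam⁻¹ * ‖f‖) := by positivity
  calc _ ≤ exp (-(lam * t)) * ((exp (lam * t) - 1) * (lam⁻¹ * ‖f‖)) :=
        mul_le_mul_of_nonneg_left i2 (exp_pos _).le
    _ = exp (-(lam * t)) * exp (lam * t) * (lam⁻¹ * ‖f‖) - exp (-(lam * t)) * (lam⁻¹ * ‖f‖) := by
        ring
    _ ≤ _ := by rw [e]; linarith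

noncomputable def J {lam : ℝ} (h : 0 < lam) : CI →L[ℝ] CI :=
  (Jlin lam).mkContinuous lam⁻¹ (Jlin_bound h)

theorem J_norm {lam : ℝ} (h : 0 < lam) : ‖J h‖ ≤ lam⁻¹ :=
  LinearMap.mkContinuous_norm_le _ (by positivity) _

/-- A continuous function, restricted to `[0, π]`. -/
def res (g : ℝ → ℝ) (hg : Continuous g) : CI := ⟨fun t => g t, hg.comp continuous_subtype_val⟩

noncomputable def wt (lam : ℝ) : CI := res (fun t => exp (-(lam * t))) (by fun_prop)

theorem ftc {lam : ℝ} (h : 0 < lam) {g g' : ℝ → ℝ} (hg : Continuous g) (hg' : Continuous g')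
    (hd : ∀ t, HasDerivAt g (g' t) t) :
    wt lam * res g hg = g 0 • wt lam + J h (wt lam * res g' hg') := by
  ext t
  have e1 : J h (wt lam * res g' hg') t =
      exp (-(lam * t)) * ∫ s in (0 : ℝ)..t, exp (lam * s) * ext (wt lam * res g' hg') s := rfl
  have e2 : ∫ s in (0 : ℝ)..t, exp (lam * s) * ext (wt lam * res g' hg') s
      = ∫ s in (0 : ℝ)..t, g' s := by
    refine intervalIntegral.integral_congr fun s hs => ?_
    rw [uIcc_of_le t.2.1] at hs
    have hs' : s ∈ Icc 0 π := ⟨hs.1, hs.2.trans t.2.2⟩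
    simp only [ext, projIcc_of_mem _ hs', wt, res, ContinuousMap.mul_apply, ContinuousMap.coe_mk]
    rw [← mul_assoc, ← exp_add]; simp
  rw [ContinuousMap.add_apply, e1, e2, intervalIntegral.integral_eq_sub_of_hasDerivAt
    (fun s _ => hd s) (hg'.intervalIntegrable _ _)]
  simp only [wt, res, ContinuousMap.mul_apply, ContinuousMap.coe_mk, ContinuousMap.smul_apply,
    smul_eq_mul]
  ring

noncomputable def Sq : CI := res (fun t => sin t ^ 2) (by fun_prop)
noncomputable def SC : CI := res (fun t => sin t * cos t) (by fun_prop)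
noncomputable def UU (m : ℝ) : CI := m • Ring.inverse (1 - m • Sq)
noncomputable def BB (z : ℝ × ℝ) : CI :=
  z.2 • 1 + UU z.1 * (z.2 • (Sq - (2 : ℝ) • 1) + (2 : ℝ) • (1 - Sq))
noncomputable def GG (z : ℝ × ℝ) : CI := SC * UU z.1

theorem unit_D {m : ℝ} (hm : m < 1) : IsUnit (1 - m • Sq) := by
  rw [ContinuousMap.isUnit_iff_forall_ne_zero]
  intro t
  exact (Dm_pos hm t).ne'

theorem UU_apply {m : ℝ} (hm : m < 1) (t : Icc (0 : ℝ) π) : UU m t = um m t := by
  have e : Ring.inverse (1 - m • Sq) t * Dm m t = 1 :=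
    congrArg (fun f : CI => f t) (Ring.inverse_mul_cancel _ (unit_D hm))
  have := Dm_pos hm t
  show m * Ring.inverse (1 - m • Sq) t = m / Dm m t
  rw [eq_div_iff this.ne', mul_assoc, e, mul_one]

theorem UU_ana {z : ℝ × ℝ} (hm : z.1 < 1) : AnalyticAt ℝ (fun w : ℝ × ℝ => UU w.1) z := by
  obtain ⟨u, hu⟩ := unit_D hm
  have a1 : AnalyticAt ℝ (fun w : ℝ × ℝ => 1 - w.1 • Sq) z :=
    analyticAt_const.sub (analyticAt_fst.smul analyticAt_const)
  exact analyticAt_fst.smul ((analyticAt_inverse (𝕜 := ℝ) u).comp_of_eq a1 hu.symm)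

theorem BB_ana {z : ℝ × ℝ} (hm : z.1 < 1) : AnalyticAt ℝ BB z :=
  (analyticAt_snd.smul analyticAt_const).add ((UU_ana hm).mul
    ((analyticAt_snd.smul analyticAt_const).add analyticAt_const))

theorem GG_ana {z : ℝ × ℝ} (hm : z.1 < 1) : AnalyticAt ℝ GG z :=
  analyticAt_const.mul (UU_ana hm)

theorem abs_ana {A : Type*} [NormedRing A] [NormedAlgebra ℝ A] [CompleteSpace A]
    (J : A →L[ℝ] A) {B G R : ℝ × ℝ → A} {z : ℝ × ℝ} (hB : AnalyticAt ℝ B z) (hG : AnalyticAt ℝ G z)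
    (hR : AnalyticAt ℝ R z) (j : ‖J‖ ≤ (1 + |z.2| * ‖B z‖ + ‖G z‖)⁻¹) :
    ∃ Z : ℝ × ℝ → A, AnalyticAt ℝ Z z ∧
      ∀ᶠ w in 𝓝 z, ∀ Y, Y = R w + J (G w * Y - w.2 • (B w * J Y)) → Z w = Y := by
  set lam := 1 + |z.2| * ‖B z‖ + ‖G z‖ with hlam
  have l1 : 1 ≤ lam := by
    have : 0 ≤ |z.2| * ‖B z‖ := by positivity
    linarith [norm_nonneg (G z)]
  have l0 : 0 < lam := by linarith
  set Mu := ContinuousLinearMap.mul ℝ A with hMu
  set K : ℝ × ℝ → A →L[ℝ] A := fun w => J * (Mu (G w) - w.2 • (Mu (B w) * J)) with hK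
  have aB : AnalyticAt ℝ (fun w => Mu (B w)) z := (Mu.analyticAt _).comp hB
  have aG : AnalyticAt ℝ (fun w => Mu (G w)) z := (Mu.analyticAt _).comp hG
  have aK : AnalyticAt ℝ K z :=
    analyticAt_const.mul (aG.sub (analyticAt_snd.smul (aB.mul analyticAt_const)))
  have nK : ‖K z‖ < 1 := by
    have j1 : ‖J‖ ≤ 1 := j.trans (inv_le_one_of_one_le₀ l1)
    have m1 : ∀ f : A, ‖Mu f‖ ≤ ‖f‖ := fun f => ContinuousLinearMap.opNorm_mul_apply_le ℝ A f
    have e1 : ‖z.2 • (Mu (B z) * J)‖ ≤ |z.2| * ‖B z‖ := by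
      rw [norm_smul, Real.norm_eq_abs]
      refine mul_le_mul_of_nonneg_left ((norm_mul_le _ _).trans ?_) (abs_nonneg _)
      calc _ ≤ ‖B z‖ * 1 := mul_le_mul (m1 _) j1 (norm_nonneg _) (norm_nonneg _)
        _ = _ := mul_one _
    have e2 := (norm_sub_le (Mu (G z)) (z.2 • (Mu (B z) * J))).trans (add_le_add (m1 _) e1)
    calc _ ≤ ‖J‖ * ‖Mu (G z) - z.2 • (Mu (B z) * J)‖ := norm_mul_le _ _
      _ ≤ lam⁻¹ * (lam - 1) :=
          mul_le_mul j (by linarith) (norm_nonneg _) (by positivity)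
      _ < 1 := by rw [inv_mul_lt_iff₀ l0]; linarith
  obtain ⟨u, hu⟩ := isUnit_one_sub_of_norm_lt_one nK
  have aI : AnalyticAt ℝ (fun w => Ring.inverse (1 - K w)) z :=
    (analyticAt_inverse (𝕜 := ℝ) u).comp_of_eq (analyticAt_const.sub aK) hu.symm
  refine ⟨fun w => Ring.inverse (1 - K w) (R w),
    ((ContinuousLinearMap.apply ℝ A).flip.analyticAt_bilinear _).comp₂ aI hR, ?_⟩
  filter_upwards [aK.continuousAt.norm.eventually_lt continuousAt_const nK] with w h1 Y hY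
  have g3 : (1 - K w) Y = R w := by
    have : K w Y = J (G w * Y - w.2 • (B w * J Y)) := rfl
    rw [sub_apply, one_apply_eq_self, this, sub_eq_iff_eq_add]
    exact hY
  rw [← g3, ← mul_apply_eq_comp,
    Ring.inverse_mul_cancel _ (isUnit_one_sub_of_norm_lt_one h1), one_apply_eq_self]

theorem s_ana {z : ℝ × ℝ} (hm : z.1 < 1) (θ0 : ℝ) :
    AnalyticAt ℝ (fun w : ℝ × ℝ => sx w.1 w.2 θ0 π) z ∧
      AnalyticAt ℝ (fun w : ℝ × ℝ => sy w.1 w.2 θ0 π) z := by
  set lam := 1 + |z.2| * ‖BB z‖ + ‖GG z‖ with hlam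
  have l0 : 0 < lam := by positivity
  set R : ℝ × ℝ → CI := fun w => cos θ0 • wt lam - sin θ0 • J l0 (BB w * wt lam) with hR
  have aR0 : AnalyticAt ℝ (fun w => BB w * wt lam) z := (BB_ana hm).mul analyticAt_const
  have aR1 : AnalyticAt ℝ (fun w => J l0 (BB w * wt lam)) z :=
    ((J l0).analyticAt _).comp (f := fun w => BB w * wt lam) aR0
  have aR : AnalyticAt ℝ R z := analyticAt_const.sub ((analyticAt_const (v := sin θ0)).smul aR1)
  obtain ⟨Z, aZ, hev1⟩ := abs_ana (J l0) (BB_ana hm) (GG_ana hm) aR (J_norm l0)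
  set X : ℝ × ℝ → CI := fun w => sin θ0 • wt lam + w.2 • J l0 (Z w) with hX
  have aX : AnalyticAt ℝ X z :=
    analyticAt_const.add (analyticAt_snd.smul (((J l0).analyticAt _).comp aZ))
  set P : Icc (0 : ℝ) π := ⟨π, pi_pos.le, le_rfl⟩ with hP
  let evP : CI →L[ℝ] ℝ := LinearMap.mkContinuous
    { toFun := fun f => f P, map_add' := fun _ _ => rfl, map_smul' := fun _ _ => rfl } 1
    fun f => by simpa using f.norm_coe_le_norm P
  have ev : ∀ {F : ℝ × ℝ → CI}, AnalyticAt ℝ F z →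
      AnalyticAt ℝ (fun w => exp (lam * π) * F w P) z := fun hF =>
    analyticAt_const.mul ((evP.analyticAt _).comp hF)
  have hev2 : ∀ᶠ w : ℝ × ℝ in 𝓝 z, w.1 < 1 := continuousAt_fst.eventually_lt continuousAt_const hm
  have key : ∀ᶠ w in 𝓝 z, exp (lam * π) * X w P = sx w.1 w.2 θ0 π ∧
      exp (lam * π) * Z w P = sy w.1 w.2 θ0 π := by
    filter_upwards [hev1, hev2] with w h1 h2
    have l := s_lin h2 w.2 θ0
    have cx := l.cont1
    have cu : Continuous (um w.1) :=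
      continuous_iff_continuousAt.2 fun t => (um_deriv h2 t).continuousAt
    set x := sx w.1 w.2 θ0 with hx
    set y := fun t => sy w.1 w.2 θ0 t / pm w.1 t with hy
    have cy : Continuous y := l.cont2.div (pm_cont _) fun t => (pm_pos h2 t).ne'
    have dx : ∀ t, HasDerivAt x (w.2 * y t) t := fun t =>
      (l t).1.congr_deriv (by simp only [hy, cA]; ring)
    have dy : ∀ t, HasDerivAt y (sin t * cos t * um w.1 t * y t -
        (w.2 + um w.1 t * (w.2 * (sin t ^ 2 - 2) + 2 * (1 - sin t ^ 2))) * x t) t := fun t => by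
      have p := pm_pos h2 t
      refine ((l t).2.fun_div (pm_deriv h2 t) p.ne').congr_deriv ?_
      rw [cB_eq h2]
      simp only [hy]
      field_simp
      ring
    have f1 := ftc l0 cx (by fun_prop) dx
    have f2 := ftc l0 cy (by fun_prop) dy
    have x0 : x 0 = sin θ0 := sx_zero h2 _ _
    have y0 : y 0 = cos θ0 := by simp [hy, sy_zero h2, pm_of_sin sin_zero]
    set Xw := wt lam * res x cx with hXw
    set Yw := wt lam * res y cy with hYw
    have g1 : Xw = sin θ0 • wt lam + w.2 • J l0 Yw := by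
      rw [f1, x0, ← map_smul]
      congr 2
      ext t
      simp [hYw, res]; ring
    have g2 : Yw = cos θ0 • wt lam + J l0 (GG w * Yw - BB w * Xw) := by
      refine f2.trans ?_
      rw [y0]
      congr 2
      ext t
      simp [hYw, hXw, res, GG, BB, SC, Sq, UU_apply h2]; ring
    have g4 : Z w = Yw := by
      refine h1 Yw ?_
      have : Yw = cos θ0 • wt lam + J l0 (GG w * Yw - BB w * (sin θ0 • wt lam + w.2 • J l0 Yw)) := by
        rw [← g1]; exact g2
      refine this.trans ?_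
      simp only [hR, mul_add, mul_smul_comm, map_sub, map_add, map_smul]
      abel
    have g5 : X w = Xw := by simp only [hX]; rw [g4, ← g1]
    have e : exp (lam * π) * exp (-(lam * π)) = 1 := by rw [← exp_add]; simp
    rw [g4, g5]
    constructor
    · show exp (lam * π) * (exp (-(lam * π)) * x π) = _
      rw [← mul_assoc, e, one_mul]
    · show exp (lam * π) * (exp (-(lam * π)) * y π) = _
      rw [← mul_assoc, e, one_mul, hy]
      simp [pm_of_sin sin_pi]
  exact ⟨(ev aX).congr (key.mono fun w h => h.1), (ev aZ).congr (key.mono fun w h => h.2)⟩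

theorem cmp_ge {a1 b1 θ1 a2 b2 θ2 : ℝ → ℝ} {T ε K : ℝ} (ha : Continuous a2) (hb : Continuous b2)
    (h1 : IsAng a1 b1 θ1) (h2 : IsAng a2 b2 θ2) (hT : 0 ≤ T) (hε : 0 ≤ ε)
    (hA : ∀ x ∈ Icc 0 T, ε ≤ a1 x - a2 x) (hB : ∀ x ∈ Icc 0 T, ε ≤ b1 x - b2 x)
    (hK : ∀ x ∈ Icc 0 T, |b2 x - a2 x| ≤ K) (h0 : θ1 0 = θ2 0) :
    exp (-(K * T)) * ε * T * exp (-(K * T)) ≤ θ1 T - θ2 T := by
  obtain ⟨H, H0, hd, hH⟩ := cmp ha hb h1 h2
  have hH := hH T K hK
  have := (convex_Icc (0 : ℝ) T).mul_sub_le_image_sub_of_le_deriv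
    (f := fun x => (θ1 x - θ2 x) * exp (-H x)) (C := exp (-(K * T)) * ε)
    (fun x _ => (hd x).continuousAt.continuousWithinAt)
    (fun x _ => (hd x).differentiableAt.differentiableWithinAt) (fun x hx => by
      have hx := interior_subset hx
      rw [(hd x).deriv]
      have k1 : exp (-(K * T)) ≤ exp (-H x) := exp_le_exp.2 (by linarith [(abs_le.1 (hH x hx)).2])
      have k2 : ε ≤ (a1 x - a2 x) * cos (θ1 x) ^ 2 + (b1 x - b2 x) * sin (θ1 x) ^ 2 := by
        have := sin_sq_add_cos_sq (θ1 x)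
        have e1 := mul_le_mul_of_nonneg_right (hA x hx) (sq_nonneg (cos (θ1 x)))
        have e2 := mul_le_mul_of_nonneg_right (hB x hx) (sq_nonneg (sin (θ1 x)))
        nlinarith
      gcongr) 0 ⟨le_rfl, hT⟩ T ⟨hT, le_rfl⟩ hT
  simp only [h0, sub_self, zero_mul, sub_zero] at this
  have k1 : exp (-(K * T)) ≤ exp (H T) := exp_le_exp.2 (abs_le.1 (hH T ⟨hT, le_rfl⟩)).1
  have e : θ1 T - θ2 T = (θ1 T - θ2 T) * exp (-H T) * exp (H T) := by
    rw [mul_assoc, ← exp_add]; simp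
  rw [e]
  exact mul_le_mul this k1 (exp_pos _).le (le_trans (by positivity) this)

theorem th_rate {m ω0 : ℝ} (h0 : 0 ≤ m) (hm : m < 1 / 2) (θ0 : ℝ) :
    ∃ c > 0, ∀ ω ≥ ω0, c * (ω - ω0) ≤ th m ω θ0 π - th m ω0 θ0 π := by
  have k : m < 1 := by linarith
  obtain ⟨K, hK⟩ := exists_bound (cA_cont k ω0) (cB_cont k ω0) π
  have hK' : ∀ x ∈ Icc 0 π, |cB m ω0 x - cA m ω0 x| ≤ K := fun x hx => by
    have := hK x ⟨by linarith [hx.1, pi_pos], hx.2⟩
    have h2 := abs_sub (cB m ω0 x) (cA m ω0 x)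
    linarith
  have hp := pi_pos
  have h2 : 0 < 1 - 2 * m := by linarith
  refine ⟨exp (-(K * π)) * (1 - 2 * m) * π * exp (-(K * π)), by positivity, fun ω hω => ?_⟩
  have s1 := th_spec k ω θ0
  have s2 := th_spec k ω0 θ0
  have d : 0 ≤ ω - ω0 := sub_nonneg.2 hω
  have := cmp_ge (ε := (ω - ω0) * (1 - 2 * m)) (cA_cont k ω0) (cB_cont k ω0) s1.1 s2.1 hp.le
    (by positivity) (fun x _ => by
      unfold cA
      rw [← sub_div, le_div_iff₀ (pm_pos k x)]
      refine (mul_le_of_le_one_right (by positivity) (pm_le_one h0 x)).trans ?_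
      nlinarith) (fun x _ => by
      unfold cB
      rw [← sub_div, le_div_iff₀ (pm_pos k x)]
      refine (mul_le_of_le_one_right (by positivity) (pm_le_one h0 x)).trans ?_
      linarith) hK' (by rw [s1.2, s2.2])
  linarith

theorem cur_ana {θ0 m : ℝ} {l : ℕ} (hθ : θ0 = 0 ∨ θ0 = π / 2) (hl : 1 ≤ l) (h0 : 0 < m)
    (hm : m < 1 / 2) : AnalyticAt ℝ (cur θ0 l) m := by
  have k : m < 1 := by linarith
  obtain ⟨c0, c1⟩ := cur_spec hθ hl h0.le hm
  set ω0 := cur θ0 l m with hω0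
  set τ := θ0 + l * π with hτ
  obtain ⟨ax, ay⟩ := s_ana (z := (m, ω0)) k θ0
  set G : ℝ × ℝ → ℝ := fun w => sx w.1 w.2 θ0 π * cos τ - sy w.1 w.2 θ0 π * sin τ with hG
  set H : ℝ × ℝ → ℝ := fun w => sx w.1 w.2 θ0 π * sin τ + sy w.1 w.2 θ0 π * cos τ with hH
  have aG : AnalyticAt ℝ G (m, ω0) := (ax.mul analyticAt_const).sub (ay.mul analyticAt_const)
  have aH : AnalyticAt ℝ H (m, ω0) := (ax.mul analyticAt_const).add (ay.mul analyticAt_const)
  have eG : ∀ w : ℝ × ℝ, G w = rad (cA w.1 w.2) (cB w.1 w.2) (th w.1 w.2 θ0) π *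
      sin (th w.1 w.2 θ0 π - τ) := fun w => by simp only [hG, sx, sy, sin_sub]; ring
  have eH : ∀ w : ℝ × ℝ, H w = rad (cA w.1 w.2) (cB w.1 w.2) (th w.1 w.2 θ0) π *
      cos (th w.1 w.2 θ0 π - τ) := fun w => by simp only [hH, sx, sy, cos_sub]; ring
  have G0 : G (m, ω0) = 0 := by rw [eG]; simp [c1]
  have H0 : 0 < H (m, ω0) := by rw [eH]; simpa [c1] using rad_pos _ _ _ _
  have cd : ContDiffAt ℝ ⊤ G (m, ω0) := aG.contDiffAt
  have dG : HasDerivAt (fun ω => G (m, ω)) (fderiv ℝ G (m, ω0) (0, 1)) ω0 :=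
    aG.differentiableAt.hasFDerivAt.comp_hasDerivAt ω0
      ((hasDerivAt_const ω0 m).prodMk (hasDerivAt_id ω0))
  obtain ⟨c, hc, hrate⟩ := th_rate (ω0 := ω0) h0.le hm θ0
  have pos : c * (H (m, ω0) / 2) ≤ fderiv ℝ G (m, ω0) (0, 1) := by
    have t1 := (hasDerivAt_iff_tendsto_slope_left_right.1 dG).2
    refine ge_of_tendsto t1 ?_
    have e1 : ∀ᶠ ω in 𝓝 ω0, H (m, ω0) / 2 < H (m, ω) :=
      continuousAt_const.eventually_lt
        (aH.continuousAt.comp (f := fun ω => (m, ω)) (by fun_prop)) (by linarith)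
    have e2 : ∀ᶠ ω in 𝓝 ω0, th m ω θ0 π < τ + π / 2 :=
      ((th_cont (ω := ω0) k θ0).comp (f := fun ω => (m, ω)) (by fun_prop)).eventually_lt
        continuousAt_const (by simp only [Function.comp, c1]; linarith [pi_pos])
    filter_upwards [self_mem_nhdsWithin, nhdsWithin_le_nhds e1, nhdsWithin_le_nhds e2]
      with ω h1 h2 h3
    have h1 : 0 < ω - ω0 := sub_pos.2 h1
    have r := hrate ω (by linarith)
    rw [c1] at r
    have d0 : 0 < th m ω θ0 π - τ := lt_of_lt_of_le (by positivity) r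
    have cpos : 0 < cos (th m ω θ0 π - τ) := cos_pos_of_mem_Ioo ⟨by linarith [pi_pos], by linarith⟩
    have lt := lt_tan d0 (by linarith)
    rw [tan_eq_sin_div_cos, lt_div_iff₀ cpos] at lt
    have rp := rad_pos (cA m ω) (cB m ω) (th m ω θ0) π
    have gh : (th m ω θ0 π - τ) * H (m, ω) ≤ G (m, ω) := by
      rw [eG, eH]
      nlinarith [mul_le_mul_of_nonneg_left lt.le rp.le]
    rw [slope_def_field, G0, sub_zero, le_div_iff₀ h1]
    calc c * (H (m, ω0) / 2) * (ω - ω0) = c * (ω - ω0) * (H (m, ω0) / 2) := by ring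
      _ ≤ (th m ω θ0 π - τ) * H (m, ω) := mul_le_mul r h2.le (by linarith) d0.le
      _ ≤ _ := gh
  have ne : fderiv ℝ G (m, ω0) (0, 1) ≠ 0 := (lt_of_lt_of_le (by positivity) pos).ne'
  have inv : (fderiv ℝ G (m, ω0) ∘L .inr ℝ ℝ ℝ).IsInvertible :=
    ⟨ContinuousLinearEquiv.unitsEquivAut ℝ (Units.mk0 _ ne), by ext; simp⟩
  have a1 : AnalyticAt ℝ (cd.implicitFunction (by simp) inv) m :=
    (cd.contDiffAt_implicitFunction (by simp) inv).analyticAt
  refine a1.congr ?_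
  have t : Tendsto (fun x => (x, cur θ0 l x)) (𝓝 m) (𝓝 (m, ω0)) :=
    continuousAt_id.prodMk (cur_cont hθ hl h0 hm)
  filter_upwards [t.eventually (cd.eventually_apply_eq_iff_implicitFunction (by simp) inv),
    Ioo_mem_nhds h0 hm] with x hx hx'
  refine hx.1 ?_
  rw [G0, eG]
  simp [(cur_spec hθ hl hx'.1.le hx'.2).2, hτ]

end Pool.Agent.HillD
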