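import Mathlib

/-! Prüfer angle toolkit for the linear system `x' = a y`, `y' = -b x`. -/

namespace Pool.Agent.HillD
open Real Set

/-- `θ` solves the Prüfer equation. -/
def IsAng (a b θ : ℝ → ℝ) : Prop :=
  ∀ x, HasDerivAt θ (a x * cos (θ x) ^ 2 + b x * sin (θ x) ^ 2) x

/-- `(x, y)` solves `x' = a y`, `y' = -b x`. -/
def IsLin (a b x y : ℝ → ℝ) : Prop :=
  ∀ t, HasDerivAt x (a t * y t) t ∧ HasDerivAt y (-(b t * x t)) t

theorem IsAng.cont {a b θ : ℝ → ℝ} (h : IsAng a b θ) : Continuous θ :=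
  continuous_iff_continuousAt.2 fun x => (h x).continuousAt

theorem IsLin.cont1 {a b x y : ℝ → ℝ} (h : IsLin a b x y) : Continuous x :=
  continuous_iff_continuousAt.2 fun t => (h t).1.continuousAt

theorem IsLin.cont2 {a b x y : ℝ → ℝ} (h : IsLin a b x y) : Continuous y :=
  continuous_iff_continuousAt.2 fun t => (h t).2.continuousAt

theorem rhs_sub (a b u v : ℝ) :
    a * cos u ^ 2 + b * sin u ^ 2 - (a * cos v ^ 2 + b * sin v ^ 2)
      = (b - a) * sin (u + v) * sin (u - v) := by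
  rw [sin_add, sin_sub]
  have h1 := sin_sq_add_cos_sq u
  have h2 := sin_sq_add_cos_sq v
  have e1 : cos u ^ 2 = 1 - sin u ^ 2 := by linarith
  have e2 : cos v ^ 2 = 1 - sin v ^ 2 := by linarith
  have : (sin u * cos v + cos u * sin v) * (sin u * cos v - cos u * sin v)
      = sin u ^ 2 * cos v ^ 2 - cos u ^ 2 * sin v ^ 2 := by ring
  rw [mul_assoc, this, e1, e2]; ring

theorem rhs_lip (a b : ℝ) (K : NNReal) (h : |b - a| ≤ K) :
    LipschitzWith K (fun u => a * cos u ^ 2 + b * sin u ^ 2) := by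
  refine LipschitzWith.of_dist_le_mul fun u v => ?_
  rw [Real.dist_eq, Real.dist_eq, rhs_sub, abs_mul, abs_mul]
  have h1 : |sin (u + v)| ≤ 1 := abs_sin_le_one _
  have h2 : |sin (u - v)| ≤ |u - v| := abs_sin_le_abs
  calc |b - a| * |sin (u + v)| * |sin (u - v)| ≤ K * 1 * |u - v| := by gcongr
    _ = K * |u - v| := by ring

theorem exists_bound {a b : ℝ → ℝ} (ha : Continuous a) (hb : Continuous b) (T : ℝ) :
    ∃ K : NNReal, ∀ t ∈ Icc (-T) T, |a t| + |b t| ≤ K := by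
  obtain ⟨C, hC⟩ := (isCompact_Icc (a := -T) (b := T)).exists_bound_of_continuousOn
    (f := fun t => |a t| + |b t|) (by fun_prop)
  refine ⟨⟨max C 0, le_max_right _ _⟩, fun t ht => ?_⟩
  have := hC t ht
  rw [Real.norm_eq_abs] at this
  exact (le_abs_self _).trans (this.trans (le_max_left _ _))

theorem exists_ang_loc {a b : ℝ → ℝ} (ha : Continuous a) (hb : Continuous b) (θ0 : ℝ) (T : ℝ)
    (hT : 0 < T) : ∃ θ : ℝ → ℝ, θ 0 = θ0 ∧
      ∀ x ∈ Ioo (-T) T, HasDerivAt θ (a x * cos (θ x) ^ 2 + b x * sin (θ x) ^ 2) x := by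
  obtain ⟨K, hK⟩ := exists_bound ha hb T
  have h0 : (0 : ℝ) ∈ Icc (-T) T := ⟨by linarith, hT.le⟩
  have hpl : IsPicardLindelof (fun t u => a t * cos u ^ 2 + b t * sin u ^ 2) (⟨0, h0⟩ : Icc (-T) T)
      θ0 (K * ⟨T, hT.le⟩) 0 K K := by
    refine ⟨fun t ht => (rhs_lip _ _ K ?_).lipschitzOnWith, fun u _ => by fun_prop,
      fun t ht u _ => ?_, ?_⟩
    · have := hK t ht
      have h2 := abs_sub (b t) (a t)
      linarith
    · rw [Real.norm_eq_abs]
      have h1 : |a t * cos u ^ 2| ≤ |a t| := by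
        rw [abs_mul, abs_of_nonneg (sq_nonneg (cos u))]
        exact mul_le_of_le_one_right (abs_nonneg _) (cos_sq_le_one u)
      have h2 : |b t * sin u ^ 2| ≤ |b t| := by
        rw [abs_mul, abs_of_nonneg (sq_nonneg (sin u))]
        exact mul_le_of_le_one_right (abs_nonneg _) (sin_sq_le_one u)
      have := hK t ht
      have h3 := abs_add_le (a t * cos u ^ 2) (b t * sin u ^ 2)
      linarith
    · simp
      exact le_of_eq rfl
  obtain ⟨α, h1, h2⟩ := hpl.exists_eq_forall_mem_Icc_hasDerivWithinAt₀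
  exact ⟨α, h1, fun x hx => (h2 x (Ioo_subset_Icc_self hx)).hasDerivAt (Icc_mem_nhds hx.1 hx.2)⟩

theorem exists_ang {a b : ℝ → ℝ} (ha : Continuous a) (hb : Continuous b) (θ0 : ℝ) :
    ∃ θ, IsAng a b θ ∧ θ 0 = θ0 := by
  have H : ∀ n : ℕ, ∃ θ : ℝ → ℝ, θ 0 = θ0 ∧ ∀ x ∈ Ioo (-((n : ℝ) + 1)) ((n : ℝ) + 1),
      HasDerivAt θ (a x * cos (θ x) ^ 2 + b x * sin (θ x) ^ 2) x :=
    fun n => exists_ang_loc ha hb θ0 _ (by positivity)
  choose f hf0 hf using H
  have agree : ∀ n k : ℕ, n ≤ k → EqOn (f n) (f k) (Ioo (-((n : ℝ) + 1)) ((n : ℝ) + 1)) := by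
    intro n k hnk
    obtain ⟨K, hK⟩ := exists_bound ha hb ((n : ℝ) + 1)
    have hc : (n : ℝ) ≤ k := by exact_mod_cast hnk
    have hn : (0 : ℝ) ≤ n := Nat.cast_nonneg n
    refine ODE_solution_unique_of_mem_Ioo (v := fun t u => a t * cos u ^ 2 + b t * sin u ^ 2)
      (s := fun _ => univ) (K := K) (t₀ := 0) (fun t ht => (rhs_lip _ _ K ?_).lipschitzOnWith)
      ⟨by linarith, by linarith⟩ (fun t ht => ⟨hf n t ht, trivial⟩)
      (fun t ht => ⟨hf k t ⟨by linarith [ht.1], by linarith [ht.2]⟩, trivial⟩)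
      (by rw [hf0, hf0])
    have := hK t (Ioo_subset_Icc_self ht)
    have h2 := abs_sub (b t) (a t)
    linarith
  have mem : ∀ y : ℝ, y ∈ Ioo (-((⌈|y|⌉₊ : ℝ) + 1)) ((⌈|y|⌉₊ : ℝ) + 1) := by
    intro y
    have := Nat.le_ceil |y|
    have h1 := le_abs_self y
    have h2 := neg_abs_le y
    constructor <;> linarith
  refine ⟨fun y => f ⌈|y|⌉₊ y, fun x => ?_, hf0 _⟩
  set N := ⌈|x|⌉₊ + 1 with hN
  have hev : (fun y => f ⌈|y|⌉₊ y) =ᶠ[nhds x] f N := by
    filter_upwards [Ioo_mem_nhds (show x - 1 < x by linarith) (show x < x + 1 by linarith)]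
      with y hy
    refine agree _ _ ?_ (mem y)
    rw [hN, Nat.ceil_le]
    push_cast
    have := Nat.le_ceil |x|
    have h1 := le_abs_self x
    have h2 := neg_abs_le x
    rw [abs_le]
    constructor <;> linarith [hy.1, hy.2]
  have hx : f ⌈|x|⌉₊ x = f N x := hev.eq_of_nhds
  have hm : x ∈ Ioo (-((N : ℝ) + 1)) ((N : ℝ) + 1) := by
    have := mem x
    rw [hN]; push_cast
    constructor <;> linarith [this.1, this.2]
  show HasDerivAt _ (a x * cos (f ⌈|x|⌉₊ x) ^ 2 + b x * sin (f ⌈|x|⌉₊ x) ^ 2) x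
  rw [hx]
  exact (hf N x hm).congr_of_eventuallyEq hev

theorem hasDerivAt_int {h : ℝ → ℝ} (hh : Continuous h) (x : ℝ) :
    HasDerivAt (fun u => ∫ s in (0 : ℝ)..u, h s) (h x) x :=
  (hh.integral_hasStrictDerivAt 0 x).hasDerivAt

/-- The comparison formula. -/
theorem cmp {a1 b1 θ1 a2 b2 θ2 : ℝ → ℝ} (ha : Continuous a2) (hb : Continuous b2)
    (h1 : IsAng a1 b1 θ1) (h2 : IsAng a2 b2 θ2) :
    ∃ H : ℝ → ℝ, H 0 = 0 ∧
      (∀ x, HasDerivAt (fun x => (θ1 x - θ2 x) * exp (-H x))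
        (exp (-H x) * ((a1 x - a2 x) * cos (θ1 x) ^ 2 + (b1 x - b2 x) * sin (θ1 x) ^ 2)) x) ∧
      ∀ T K, (∀ x ∈ Icc 0 T, |b2 x - a2 x| ≤ K) → ∀ x ∈ Icc 0 T, |H x| ≤ K * T := by
  have c1 := h1.cont
  have c2 := h2.cont
  set h : ℝ → ℝ := fun x => (b2 x - a2 x) * sin (θ1 x + θ2 x) * sinc (θ1 x - θ2 x) with hh
  have hc : Continuous h := by
    have := Real.continuous_sinc
    rw [hh]; fun_prop
  refine ⟨fun u => ∫ s in (0 : ℝ)..u, h s, by simp, fun x => ?_, fun T K hK x hx => ?_⟩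
  · have d := ((h1 x).fun_sub (h2 x)).fun_mul (hasDerivAt_int hc x).fun_neg.exp
    refine d.congr_deriv ?_
    have e : sin (θ1 x - θ2 x) = (θ1 x - θ2 x) * sinc (θ1 x - θ2 x) := by
      by_cases h0 : θ1 x - θ2 x = 0
      · simp [h0]
      · rw [sinc_of_ne_zero h0]; field_simp
    have e2 := rhs_sub (a2 x) (b2 x) (θ1 x) (θ2 x)
    rw [e] at e2
    have e3 : h x = (b2 x - a2 x) * sin (θ1 x + θ2 x) * sinc (θ1 x - θ2 x) := rfl
    rw [e3]
    linear_combination (exp (-∫ s in (0 : ℝ)..x, h s)) * e2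
  · have hK0 : 0 ≤ K := (abs_nonneg _).trans (hK x hx)
    have := intervalIntegral.norm_integral_le_of_norm_le_const (a := 0) (b := x) (C := K) (f := h)
      (fun s hs => by
        rw [uIoc_of_le hx.1] at hs
        rw [Real.norm_eq_abs, hh]
        simp only [abs_mul]
        have k1 := hK s ⟨hs.1.le, hs.2.trans hx.2⟩
        have k2 : |sin (θ1 s + θ2 s)| ≤ 1 := abs_sin_le_one _
        have k3 : |sinc (θ1 s - θ2 s)| ≤ 1 := abs_sinc_le_one _
        calc _ ≤ K * 1 * 1 := by gcongr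
          _ = K := by ring)
    rw [Real.norm_eq_abs, sub_zero, abs_of_nonneg hx.1] at this
    exact this.trans (mul_le_mul_of_nonneg_left hx.2 hK0)

theorem cmp_mono {a1 b1 θ1 a2 b2 θ2 H : ℝ → ℝ} {T : ℝ}
    (hd : ∀ x, HasDerivAt (fun x => (θ1 x - θ2 x) * exp (-H x))
        (exp (-H x) * ((a1 x - a2 x) * cos (θ1 x) ^ 2 + (b1 x - b2 x) * sin (θ1 x) ^ 2)) x)
    (hA : ∀ x ∈ Icc 0 T, a2 x ≤ a1 x) (hB : ∀ x ∈ Icc 0 T, b2 x ≤ b1 x) :
    MonotoneOn (fun x => (θ1 x - θ2 x) * exp (-H x)) (Icc 0 T) := by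
  refine monotoneOn_of_deriv_nonneg (convex_Icc _ _)
    (fun x _ => (hd x).continuousAt.continuousWithinAt)
    (fun x _ => (hd x).differentiableAt.differentiableWithinAt) fun x hx => ?_
  rw [(hd x).deriv]
  have hx' := interior_subset hx
  have := hA x hx'
  have := hB x hx'
  have e1 : 0 ≤ a1 x - a2 x := by linarith
  have e2 : 0 ≤ b1 x - b2 x := by linarith
  positivity

theorem cmp_le {a1 b1 θ1 a2 b2 θ2 : ℝ → ℝ} {T : ℝ} (ha : Continuous a2) (hb : Continuous b2)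
    (h1 : IsAng a1 b1 θ1) (h2 : IsAng a2 b2 θ2) (hT : 0 ≤ T)
    (hA : ∀ x ∈ Icc 0 T, a2 x ≤ a1 x) (hB : ∀ x ∈ Icc 0 T, b2 x ≤ b1 x) (h0 : θ2 0 ≤ θ1 0) :
    θ2 T ≤ θ1 T := by
  obtain ⟨H, H0, hd, -⟩ := cmp ha hb h1 h2
  have := cmp_mono hd hA hB ⟨le_rfl, hT⟩ ⟨hT, le_rfl⟩ hT
  simp only [H0, neg_zero, exp_zero, mul_one] at this
  have hp := exp_pos (-H T)
  by_contra hc
  push Not at hc
  have : (θ1 T - θ2 T) * exp (-H T) < 0 := mul_neg_of_neg_of_pos (by linarith) hp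
  linarith

theorem cmp_lt0 {a1 b1 θ1 a2 b2 θ2 : ℝ → ℝ} {T : ℝ} (ha : Continuous a2) (hb : Continuous b2)
    (h1 : IsAng a1 b1 θ1) (h2 : IsAng a2 b2 θ2) (hT : 0 ≤ T)
    (hA : ∀ x ∈ Icc 0 T, a2 x ≤ a1 x) (hB : ∀ x ∈ Icc 0 T, b2 x ≤ b1 x) (h0 : θ2 0 < θ1 0) :
    θ2 T < θ1 T := by
  obtain ⟨H, H0, hd, -⟩ := cmp ha hb h1 h2
  have := cmp_mono hd hA hB ⟨le_rfl, hT⟩ ⟨hT, le_rfl⟩ hT
  simp only [H0, neg_zero, exp_zero, mul_one] at this
  have hp := exp_pos (-H T)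
  by_contra hc
  push Not at hc
  have : (θ1 T - θ2 T) * exp (-H T) ≤ 0 := mul_nonpos_of_nonpos_of_nonneg (by linarith) hp.le
  linarith

theorem cmp_lt {a1 b1 θ1 a2 b2 θ2 : ℝ → ℝ} {T : ℝ} (ha : Continuous a2) (hb : Continuous b2)
    (h1 : IsAng a1 b1 θ1) (h2 : IsAng a2 b2 θ2) (hT : 0 < T)
    (hA : ∀ x ∈ Icc 0 T, a2 x ≤ a1 x) (hB : ∀ x ∈ Icc 0 T, b2 x < b1 x)
    (hpos : ∀ x ∈ Icc 0 T, 0 < a1 x) (h0 : θ2 0 ≤ θ1 0) :
    θ2 T < θ1 T := by
  obtain ⟨H, H0, hd, -⟩ := cmp ha hb h1 h2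
  have hm := cmp_mono hd hA (fun x hx => (hB x hx).le)
  by_contra hc
  push Not at hc
  set g := fun x => (θ1 x - θ2 x) * exp (-H x) with hg
  have gT : g T ≤ 0 := mul_nonpos_of_nonpos_of_nonneg (by linarith) (exp_pos _).le
  have g0 : 0 ≤ g 0 := mul_nonneg (by linarith) (exp_pos _).le
  have gz : ∀ x ∈ Icc 0 T, g x = 0 := fun x hx =>
    le_antisymm ((hm hx ⟨hT.le, le_rfl⟩ hx.2).trans gT) (g0.trans (hm ⟨le_rfl, hT.le⟩ hx hx.1))
  have sz : ∀ x ∈ Ioo 0 T, sin (θ1 x) = 0 := by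
    intro x hx
    have hev : g =ᶠ[nhds x] fun _ => 0 := by
      filter_upwards [Icc_mem_nhds hx.1 hx.2] with y hy using gz y hy
    have e := (hd x).unique ((hasDerivAt_const x (0 : ℝ)).congr_of_eventuallyEq hev)
    have hx' := Ioo_subset_Icc_self hx
    have e1 : 0 ≤ a1 x - a2 x := by linarith [hA x hx']
    have e2 : 0 < b1 x - b2 x := by linarith [hB x hx']
    rcases mul_eq_zero.1 e with e | e
    · exact absurd e (exp_pos _).ne'
    · have : (b1 x - b2 x) * sin (θ1 x) ^ 2 = 0 := by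
        have := mul_nonneg e1 (sq_nonneg (cos (θ1 x)))
        have := mul_nonneg e2.le (sq_nonneg (sin (θ1 x)))
        linarith
      rcases mul_eq_zero.1 this with h | h
      · exact absurd h e2.ne'
      · exact pow_eq_zero_iff (two_ne_zero) |>.1 h
  have hx : T / 2 ∈ Ioo 0 T := ⟨by linarith, by linarith⟩
  have hev : (fun x => sin (θ1 x)) =ᶠ[nhds (T / 2)] fun _ => 0 := by
    filter_upwards [Ioo_mem_nhds hx.1 hx.2] with y hy using sz y hy
  have e := ((h1 (T / 2)).sin).unique ((hasDerivAt_const _ (0 : ℝ)).congr_of_eventuallyEq hev)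
  have s0 := sz _ hx
  have c1 : cos (θ1 (T / 2)) ^ 2 = 1 := by
    have := sin_sq_add_cos_sq (θ1 (T / 2)); rw [s0] at this; linarith
  rw [s0, c1] at e
  have hp := hpos _ (Ioo_subset_Icc_self hx)
  have : cos (θ1 (T / 2)) = 0 := by
    rcases mul_eq_zero.1 e with h | h
    · exact h
    · exfalso; nlinarith
  rw [this] at c1; norm_num at c1

theorem cmp_near {a1 b1 θ1 a2 b2 θ2 : ℝ → ℝ} {T ε K : ℝ} (ha : Continuous a2) (hb : Continuous b2)
    (h1 : IsAng a1 b1 θ1) (h2 : IsAng a2 b2 θ2) (hT : 0 ≤ T)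
    (hA : ∀ x ∈ Icc 0 T, |a1 x - a2 x| ≤ ε) (hB : ∀ x ∈ Icc 0 T, |b1 x - b2 x| ≤ ε)
    (hK : ∀ x ∈ Icc 0 T, |b2 x - a2 x| ≤ K) (h0 : θ1 0 = θ2 0) :
    |θ1 T - θ2 T| ≤ exp (K * T) * ε * T * exp (K * T) := by
  obtain ⟨H, H0, hd, hH⟩ := cmp ha hb h1 h2
  have hH := hH T K hK
  have hε : 0 ≤ ε := (abs_nonneg _).trans (hA 0 ⟨le_rfl, hT⟩)
  have := (convex_Icc (0 : ℝ) T).norm_image_sub_le_of_norm_hasDerivWithin_le
    (C := exp (K * T) * ε) (fun x _ => (hd x).hasDerivWithinAt) (fun x hx => by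
      rw [Real.norm_eq_abs, abs_mul, abs_of_pos (exp_pos _)]
      have k1 : exp (-H x) ≤ exp (K * T) := exp_le_exp.2 (by linarith [(abs_le.1 (hH x hx)).1])
      have k2 : |(a1 x - a2 x) * cos (θ1 x) ^ 2 + (b1 x - b2 x) * sin (θ1 x) ^ 2| ≤ ε := by
        refine (abs_add_le _ _).trans ?_
        rw [abs_mul, abs_mul, abs_of_nonneg (sq_nonneg (cos _)), abs_of_nonneg (sq_nonneg (sin _))]
        have := sin_sq_add_cos_sq (θ1 x)
        have e1 := mul_le_mul_of_nonneg_right (hA x hx) (sq_nonneg (cos (θ1 x)))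
        have e2 := mul_le_mul_of_nonneg_right (hB x hx) (sq_nonneg (sin (θ1 x)))
        nlinarith
      gcongr) ⟨le_rfl, hT⟩ ⟨hT, le_rfl⟩
  simp only [h0, sub_self, zero_mul, sub_zero, Real.norm_eq_abs, abs_of_nonneg hT, abs_mul,
    abs_of_pos (exp_pos _)] at this
  have k1 : exp (H T) ≤ exp (K * T) := exp_le_exp.2 (abs_le.1 (hH T ⟨hT, le_rfl⟩)).2
  have e : |θ1 T - θ2 T| = |θ1 T - θ2 T| * exp (-H T) * exp (H T) := by
    rw [mul_assoc, ← exp_add]; simp
  rw [e]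
  gcongr

/-- The Prüfer radius. -/
noncomputable def rad (a b θ : ℝ → ℝ) (t : ℝ) : ℝ :=
  exp (∫ s in (0 : ℝ)..t, (a s - b s) * sin (θ s) * cos (θ s))

theorem rad_pos (a b θ : ℝ → ℝ) (t : ℝ) : 0 < rad a b θ t := exp_pos _

theorem rad_zero (a b θ : ℝ → ℝ) : rad a b θ 0 = 1 := by simp [rad]

theorem rad_deriv {a b θ : ℝ → ℝ} (ha : Continuous a) (hb : Continuous b) (h : IsAng a b θ)
    (t : ℝ) : HasDerivAt (rad a b θ) (rad a b θ t * ((a t - b t) * sin (θ t) * cos (θ t))) t := by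
  have := h.cont
  exact (hasDerivAt_int (h := fun s => (a s - b s) * sin (θ s) * cos (θ s)) (by fun_prop) t).exp

theorem lin_of_ang {a b θ : ℝ → ℝ} (ha : Continuous a) (hb : Continuous b) (h : IsAng a b θ) :
    IsLin a b (fun t => rad a b θ t * sin (θ t)) (fun t => rad a b θ t * cos (θ t)) := by
  intro t
  have hs := sin_sq_add_cos_sq (θ t)
  constructor
  · refine ((rad_deriv ha hb h t).fun_mul (h t).sin).congr_deriv ?_
    linear_combination (rad a b θ t * a t * cos (θ t)) * hs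
  · refine ((rad_deriv ha hb h t).fun_mul (h t).cos).congr_deriv ?_
    linear_combination (-(rad a b θ t * b t * sin (θ t))) * hs

theorem const_of_deriv {f : ℝ → ℝ} (h : ∀ t, HasDerivAt f 0 t) (s t : ℝ) : f s = f t :=
  is_const_of_deriv_eq_zero (fun t => (h t).differentiableAt) (fun t => (h t).deriv) s t

theorem wronski {a b x1 y1 x2 y2 : ℝ → ℝ} (h1 : IsLin a b x1 y1) (h2 : IsLin a b x2 y2) (t : ℝ) :
    x1 t * y2 t - y1 t * x2 t = x1 0 * y2 0 - y1 0 * x2 0 := by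
  refine const_of_deriv (f := fun t => x1 t * y2 t - y1 t * x2 t) (fun t => ?_) t 0
  refine (((h1 t).1.fun_mul (h2 t).2).fun_sub ((h1 t).2.fun_mul (h2 t).1)).congr_deriv ?_
  ring

theorem wronski_refl {a b x1 y1 x2 y2 : ℝ → ℝ} (h1 : IsLin a b x1 y1) (h2 : IsLin a b x2 y2)
    (sa : ∀ t, a (π - t) = a t) (sb : ∀ t, b (π - t) = b t) (t : ℝ) :
    x1 t * y2 (π - t) + y1 t * x2 (π - t) = x1 0 * y2 π + y1 0 * x2 π := by
  have := const_of_deriv (f := fun t => x1 t * y2 (π - t) + y1 t * x2 (π - t)) (fun t => by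
    have d : HasDerivAt (fun t : ℝ => π - t) (-1) t := by
      simpa using (hasDerivAt_id t).const_sub π
    have e1 := (h2 (π - t)).1.comp t d
    have e2 := (h2 (π - t)).2.comp t d
    refine (((h1 t).1.fun_mul e2).fun_add ((h1 t).2.fun_mul e1)).congr_deriv ?_
    simp only [Function.comp, sa, sb]
    ring) t 0
  simpa using this

theorem lin_zero {a b x y : ℝ → ℝ} (ha : Continuous a) (hb : Continuous b)
    (hl : IsLin a b x y) (hx : x 0 = 0) (hy : y 0 = 0) (t : ℝ) : x t = 0 ∧ y t = 0 := by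
  obtain ⟨u, hu, u0⟩ := exists_ang ha hb 0
  obtain ⟨v, hv, v0⟩ := exists_ang ha hb (π / 2)
  have l1 := lin_of_ang ha hb hu
  have l2 := lin_of_ang ha hb hv
  have w1 := wronski hl l1 t
  have w2 := wronski hl l2 t
  have w3 := wronski l2 l1 t
  simp only [hx, hy, rad_zero, u0, v0, sin_zero, cos_zero, sin_pi_div_two, cos_pi_div_two]
    at w1 w2 w3
  constructor
  · linear_combination (-(x t)) * w3 + (rad a b v t * sin (v t)) * w1
      - (rad a b u t * sin (u t)) * w2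
  · linear_combination (-(y t)) * w3 + (rad a b v t * cos (v t)) * w1
      - (rad a b u t * cos (u t)) * w2

/-- Uniqueness for the linear system, in Prüfer form. -/
theorem repr {a b θ x y : ℝ → ℝ} (ha : Continuous a) (hb : Continuous b) (h : IsAng a b θ)
    (hl : IsLin a b x y) {ρ : ℝ} (hx : x 0 = ρ * sin (θ 0)) (hy : y 0 = ρ * cos (θ 0)) (t : ℝ) :
    x t = ρ * (rad a b θ t * sin (θ t)) ∧ y t = ρ * (rad a b θ t * cos (θ t)) := by
  have l := lin_of_ang ha hb h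
  have := lin_zero ha hb (x := fun t => x t - ρ * (rad a b θ t * sin (θ t)))
    (y := fun t => y t - ρ * (rad a b θ t * cos (θ t))) (fun t =>
      ⟨((hl t).1.fun_sub ((l t).1.const_mul ρ)).congr_deriv (by ring),
       ((hl t).2.fun_sub ((l t).2.const_mul ρ)).congr_deriv (by ring)⟩)
    (by simp [hx, rad_zero]) (by simp [hy, rad_zero]) t
  constructor <;> linarith [this.1, this.2]

/-- Two continuous angles related by a triangular matrix with positive diagonal stay within `π`. -/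
theorem gauge {u v : ℝ → ℝ} (hu : Continuous u) (hv : Continuous v) (h0 : u 0 = v 0)
    (h : ∀ t, ∃ α > 0, ∃ γ > 0, ∃ β : ℝ, sin (u t) = α * sin (v t) ∧
      cos (u t) = β * sin (v t) + γ * cos (v t)) (t : ℝ) : |u t - v t| < π := by
  by_contra hc
  push Not at hc
  have hcont : Continuous fun t => |u t - v t| := by fun_prop
  obtain ⟨s, hs⟩ : π ∈ range fun t => |u t - v t| :=
    intermediate_value_univ 0 t hcont ⟨by simp [h0, pi_pos.le], hc⟩
  obtain ⟨α, hα, γ, hγ, β, e1, e2⟩ := h s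
  have k : sin (u s) = -sin (v s) ∧ cos (u s) = -cos (v s) := by
    rcases (abs_eq pi_pos.le).1 hs with e | e
    · have : u s = v s + π := by linarith
      rw [this, sin_add_pi, cos_add_pi]; exact ⟨rfl, rfl⟩
    · have : u s = v s - π := by linarith
      rw [this, sin_sub_pi, cos_sub_pi]; exact ⟨rfl, rfl⟩
  have s0 : sin (v s) = 0 := by
    have : (α + 1) * sin (v s) = 0 := by linarith [k.1]
    exact (mul_eq_zero.1 this).resolve_left (by positivity)
  have c0 : cos (v s) = 0 := by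
    have : (γ + 1) * cos (v s) = 0 := by rw [s0] at e2; linarith [k.2]
    exact (mul_eq_zero.1 this).resolve_left (by positivity)
  have := sin_sq_add_cos_sq (v s)
  rw [s0, c0] at this; norm_num at this

theorem gauge_end {u τ α γ : ℝ} (h : |u - τ| < π) (e1 : sin u = α * sin τ) (e2 : cos u = γ * cos τ)
    (hτ : sin τ = 0 ∨ cos τ = 0) : u = τ := by
  have : sin (u - τ) = 0 := by
    rw [sin_sub, e1, e2]
    rcases hτ with h | h <;> simp [h]
  have := (sin_eq_zero_iff_of_lt_of_lt (abs_lt.1 h).1 (abs_lt.1 h).2).1 this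
  linarith

/-- If a solution of the linear system is given through an angle `v` in another gauge, the Prüfer
angle stays within `π` of `v`. -/
theorem gauge_lin {a b θ x y v : ℝ → ℝ} (ha : Continuous a) (hb : Continuous b) (h : IsAng a b θ)
    (hl : IsLin a b x y) (hv : Continuous v) (h0 : θ 0 = v 0) {ρ : ℝ} (hρ : 0 < ρ)
    (hx : x 0 = ρ * sin (θ 0)) (hy : y 0 = ρ * cos (θ 0))
    (hr : ∀ t, ∃ α > 0, ∃ γ > 0, ∃ β : ℝ, x t = α * sin (v t) ∧
      y t = β * sin (v t) + γ * cos (v t)) (t : ℝ) : |θ t - v t| < π := by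
  refine gauge h.cont hv h0 (fun t => ?_) t
  obtain ⟨α, hα, γ, hγ, β, e1, e2⟩ := hr t
  obtain ⟨r1, r2⟩ := repr ha hb h hl hx hy t
  have hp := rad_pos a b θ t
  refine ⟨α / (ρ * rad a b θ t), by positivity, γ / (ρ * rad a b θ t), by positivity,
    β / (ρ * rad a b θ t), ?_, ?_⟩
  · field_simp; linarith
  · field_simp; linarith

end Pool.Agent.HillD
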