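import Pool.Agent.P.MP_ae2765_an.Ang

/-! The Hill equation in the amplitude variable `φ`; the Prüfer angle at `φ = π`. -/

namespace Pool.Agent.HillD
open Real Set Filter Topology

noncomputable def Dm (m t : ℝ) : ℝ := 1 - m * sin t ^ 2
noncomputable def pm (m t : ℝ) : ℝ := √(Dm m t)
noncomputable def um (m t : ℝ) : ℝ := m / Dm m t
noncomputable def cA (m ω t : ℝ) : ℝ := ω / pm m t
noncomputable def cB (m ω t : ℝ) : ℝ := (ω * (1 - 2 * m) + 2 * m * cos t ^ 2) / pm m t

theorem Dm_pos {m : ℝ} (hm : m < 1) (t : ℝ) : 0 < Dm m t := by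
  unfold Dm
  have h1 := sq_nonneg (sin t)
  have h2 := sin_sq_le_one t
  rcases le_total m 0 with h | h <;> nlinarith

theorem pm_pos {m : ℝ} (hm : m < 1) (t : ℝ) : 0 < pm m t := sqrt_pos.2 (Dm_pos hm t)

theorem pm_sq {m : ℝ} (hm : m < 1) (t : ℝ) : pm m t ^ 2 = Dm m t := sq_sqrt (Dm_pos hm t).le

theorem pm_le_one {m : ℝ} (hm : 0 ≤ m) (t : ℝ) : pm m t ≤ 1 := by
  unfold pm Dm
  have := mul_nonneg hm (sq_nonneg (sin t))
  exact sqrt_le_one.2 (by linarith)

theorem pm_of_sin {m t : ℝ} (h : sin t = 0) : pm m t = 1 := by simp [pm, Dm, h]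

theorem pm_cont (m : ℝ) : Continuous (pm m) := by unfold pm Dm; fun_prop

theorem cA_cont {m : ℝ} (hm : m < 1) (ω : ℝ) : Continuous (cA m ω) :=
  continuous_const.div (pm_cont m) fun t => (pm_pos hm t).ne'

theorem cB_cont {m : ℝ} (hm : m < 1) (ω : ℝ) : Continuous (cB m ω) :=
  Continuous.div (by fun_prop) (pm_cont m) fun t => (pm_pos hm t).ne'

theorem cA_symm (m ω t : ℝ) : cA m ω (π - t) = cA m ω t := by simp [cA, pm, Dm]

theorem cB_symm (m ω t : ℝ) : cB m ω (π - t) = cB m ω t := by simp [cB, pm, Dm]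

theorem Dm_deriv {m : ℝ} (t : ℝ) : HasDerivAt (Dm m) (-(2 * m * sin t * cos t)) t := by
  have := (((hasDerivAt_sin t).fun_pow 2).const_mul m).const_sub 1
  exact this.congr_deriv (by simp; ring)

theorem pm_deriv {m : ℝ} (hm : m < 1) (t : ℝ) :
    HasDerivAt (pm m) (-(sin t * cos t * um m t * pm m t)) t := by
  refine ((Dm_deriv (m := m) t).sqrt (Dm_pos hm t).ne').congr_deriv ?_
  have h1 := pm_pos hm t
  have h2 := pm_sq hm t
  show _ / (2 * pm m t) = _
  unfold um
  rw [← h2]; field_simp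

theorem um_deriv {m : ℝ} (hm : m < 1) (t : ℝ) :
    HasDerivAt (um m) (2 * sin t * cos t * um m t ^ 2) t := by
  refine ((hasDerivAt_const t m).fun_div (Dm_deriv (m := m) t) (Dm_pos hm t).ne').congr_deriv ?_
  have h1 := Dm_pos hm t
  unfold um
  field_simp
  ring

theorem um_nonneg {m : ℝ} (h0 : 0 ≤ m) (hm : m < 1) (t : ℝ) : 0 ≤ um m t :=
  div_nonneg h0 (Dm_pos hm t).le

theorem um_lt {m1 m2 : ℝ} (h : m1 < m2) (hm : m2 < 1) (t : ℝ) : um m1 t < um m2 t := by
  unfold um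
  rw [div_lt_div_iff₀ (Dm_pos (h.trans hm) t) (Dm_pos hm t)]
  unfold Dm
  nlinarith

theorem um_le_one {m : ℝ} (hm : m < 1 / 2) (t : ℝ) : um m t ≤ 1 := by
  unfold um
  rw [div_le_one (Dm_pos (by linarith) t)]
  unfold Dm
  have h1 := sq_nonneg (sin t)
  have h2 := sin_sq_le_one t
  rcases le_total m 0 with h | h <;> nlinarith

/-- `cB = p (ω + u (-(2 - S) ω + 2 (1 - S)))`. -/
theorem cB_eq {m : ℝ} (hm : m < 1) (ω t : ℝ) :
    cB m ω t = pm m t * (ω + um m t * (-(2 - sin t ^ 2) * ω + 2 * (1 - sin t ^ 2))) := by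
  have h1 := pm_pos hm t
  have h2 := pm_sq hm t
  have h3 := Dm_pos hm t
  unfold cB um
  rw [div_eq_iff h1.ne', cos_sq']
  have : pm m t * (ω + m / Dm m t * (-(2 - sin t ^ 2) * ω + 2 * (1 - sin t ^ 2))) * pm m t
      = pm m t ^ 2 * (ω + m / Dm m t * (-(2 - sin t ^ 2) * ω + 2 * (1 - sin t ^ 2))) := by ring
  rw [this, h2]
  field_simp
  unfold Dm
  ring

/-- The Prüfer angle with initial value `θ0`. -/
noncomputable def th (m ω θ0 : ℝ) : ℝ → ℝ :=
  Classical.epsilon fun θ => IsAng (cA m ω) (cB m ω) θ ∧ θ 0 = θ0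

theorem th_spec {m : ℝ} (hm : m < 1) (ω θ0 : ℝ) :
    IsAng (cA m ω) (cB m ω) (th m ω θ0) ∧ th m ω θ0 0 = θ0 :=
  Classical.epsilon_spec (exists_ang (cA_cont hm ω) (cB_cont hm ω) θ0)

theorem cA_ge {m ω : ℝ} (h0 : 0 ≤ m) (hm : m < 1) (hω : 0 ≤ ω) (t : ℝ) : ω ≤ cA m ω t := by
  unfold cA
  rw [le_div_iff₀ (pm_pos hm t)]
  exact mul_le_of_le_one_right hω (pm_le_one h0 t)

theorem cB_ge {m ω : ℝ} (h0 : 0 ≤ m) (hm : m < 1 / 2) (hω : 0 ≤ ω) (t : ℝ) :
    ω * (1 - 2 * m) + 2 * m * cos t ^ 2 ≤ cB m ω t := by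
  unfold cB
  rw [le_div_iff₀ (pm_pos (by linarith) t)]
  refine mul_le_of_le_one_right ?_ (pm_le_one h0 t)
  have : 0 ≤ 1 - 2 * m := by linarith
  positivity

theorem th_strictMono {m ω : ℝ} (h0 : 0 ≤ m) (hm : m < 1 / 2) (hω : 0 < ω) (θ0 : ℝ) :
    StrictMono (th m ω θ0) := by
  have h := (th_spec (m := m) (by linarith) ω θ0).1
  refine strictMono_of_deriv_pos fun x => ?_
  rw [(h x).deriv]
  have h1 := cA_ge h0 (by linarith) hω.le x
  have h2 := cB_ge h0 hm hω.le x
  have h3 : 0 < ω * (1 - 2 * m) := mul_pos hω (by linarith)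
  have h4 : 0 ≤ 2 * m * cos x ^ 2 := by positivity
  have h5 : ω * (1 - 2 * m) ≤ ω := by nlinarith
  have := sin_sq_add_cos_sq (th m ω θ0 x)
  have e1 := mul_le_mul_of_nonneg_right (h5.trans h1) (sq_nonneg (cos (th m ω θ0 x)))
  have e2 := mul_le_mul_of_nonneg_right (show ω * (1 - 2 * m) ≤ cB m ω x by linarith)
    (sq_nonneg (sin (th m ω θ0 x)))
  nlinarith

theorem th_mono_omega {m ω1 ω2 : ℝ} (hm : m < 1 / 2) (h1 : 0 ≤ ω1) (h : ω1 < ω2) (θ0 : ℝ) :
    th m ω1 θ0 π < th m ω2 θ0 π := by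
  have hm1 : m < 1 := by linarith
  have s1 := th_spec hm1 ω1 θ0
  have s2 := th_spec hm1 ω2 θ0
  refine cmp_lt (cA_cont hm1 ω1) (cB_cont hm1 ω1) s2.1 s1.1 pi_pos (fun x _ => ?_) (fun x _ => ?_)
    (fun x _ => div_pos (by linarith) (pm_pos hm1 x)) (by rw [s1.2, s2.2])
  · exact div_le_div_of_nonneg_right h.le (pm_pos hm1 x).le
  · refine div_lt_div_of_pos_right ?_ (pm_pos hm1 x)
    nlinarith

theorem isAng_lin (c θ0 : ℝ) : IsAng (fun _ => c) (fun _ => c) fun t => θ0 + c * t := by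
  intro x
  refine (((hasDerivAt_id x).const_mul c).const_add θ0).congr_deriv ?_
  have := sin_sq_add_cos_sq (θ0 + c * x)
  linear_combination (-c) * this

theorem th_ge {m ω : ℝ} (h0 : 0 ≤ m) (hm : m < 1 / 2) (hω : 0 ≤ ω) (θ0 : ℝ) :
    θ0 + ω * (1 - 2 * m) * π ≤ th m ω θ0 π := by
  have s := th_spec (m := m) (by linarith) ω θ0
  refine cmp_le continuous_const continuous_const s.1 (isAng_lin (ω * (1 - 2 * m)) θ0) pi_pos.le
    (fun x _ => ?_) (fun x _ => ?_) (by simp [s.2])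
  · have := cA_ge h0 (by linarith) hω x
    nlinarith
  · have := cB_ge h0 hm hω x
    have h4 : 0 ≤ 2 * m * cos x ^ 2 := by positivity
    linarith

theorem th_zero (ω θ0 : ℝ) : th 0 ω θ0 π = θ0 + ω * π := by
  have s := th_spec (m := 0) (by norm_num) ω θ0
  have eA : cA 0 ω = fun _ => ω := by ext t; simp [cA, pm, Dm]
  have eB : cB 0 ω = fun _ => ω := by ext t; simp [cB, pm, Dm]
  rw [eA, eB] at s
  apply le_antisymm
  · exact cmp_le continuous_const continuous_const (isAng_lin ω θ0) s.1 pi_pos.le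
      (fun _ _ => le_rfl) (fun _ _ => le_rfl) (by simp [s.2])
  · exact cmp_le continuous_const continuous_const s.1 (isAng_lin ω θ0) pi_pos.le
      (fun _ _ => le_rfl) (fun _ _ => le_rfl) (by simp [s.2])

theorem th_omega_zero {m θ0 : ℝ} (hm : m < 1) (h : θ0 < π) : th m 0 θ0 π < π := by
  have s := th_spec hm 0 θ0
  have c : IsAng (cA m 0) (cB m 0) fun _ => π := by
    intro x
    exact (hasDerivAt_const x π).congr_deriv (by simp [cA])
  exact cmp_lt0 (cA_cont hm 0) (cB_cont hm 0) c s.1 pi_pos.le (fun _ _ => le_rfl)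
    (fun _ _ => le_rfl) (by simpa [s.2] using h)

theorem th_DN {m : ℝ} (hm : m < 1) (ω : ℝ) :
    th m ω 0 π < th m ω (π / 2) π ∧ th m ω (π / 2) π < th m ω 0 π + π := by
  have s1 := th_spec hm ω 0
  have s2 := th_spec hm ω (π / 2)
  have s3 : IsAng (cA m ω) (cB m ω) fun t => th m ω 0 t + π := by
    intro x
    exact ((s1.1 x).add_const π).congr_deriv (by simp)
  have hp := pi_pos
  constructor
  · exact cmp_lt0 (cA_cont hm ω) (cB_cont hm ω) s2.1 s1.1 pi_pos.le (fun _ _ => le_rfl)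
      (fun _ _ => le_rfl) (by rw [s1.2, s2.2]; linarith)
  · have := cmp_lt0 (cA_cont hm ω) (cB_cont hm ω) s3 s2.1 pi_pos.le (fun _ _ => le_rfl)
      (fun _ _ => le_rfl) (by simp only [s1.2, s2.2]; linarith)
    exact this

theorem th_cont {m ω : ℝ} (hm : m < 1) (θ0 : ℝ) :
    ContinuousAt (fun z : ℝ × ℝ => th z.1 z.2 θ0 π) (m, ω) := by
  obtain ⟨K, hK⟩ := exists_bound (cA_cont hm ω) (cB_cont hm ω) π
  have hK' : ∀ x ∈ Icc 0 π, |cB m ω x - cA m ω x| ≤ K := fun x hx => by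
    have := hK x ⟨by linarith [hx.1, pi_pos], hx.2⟩
    have h2 := abs_sub (cB m ω x) (cA m ω x)
    linarith
  rw [ContinuousAt, Metric.tendsto_nhds]
  intro ε hε
  set C := exp (K * π) * π * exp (K * π) with hC
  have hC0 : 0 < C := by have := pi_pos; positivity
  set η := ε / (2 * C) with hη
  have hη0 : 0 < η := by positivity
  have cp : Continuous fun w : (ℝ × ℝ) × ℝ => pm w.1.1 w.2 := by unfold pm Dm; fun_prop
  have key : ∀ᶠ z : ℝ × ℝ in 𝓝 (m, ω), ∀ t ∈ Icc 0 π,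
      |cA z.1 z.2 t - cA m ω t| < η ∧ |cB z.1 z.2 t - cB m ω t| < η := by
    refine isCompact_Icc.eventually_forall_of_forall_eventually fun t _ => ?_
    have hp := (pm_pos hm t).ne'
    have a1 : ContinuousAt (fun w : (ℝ × ℝ) × ℝ => cA w.1.1 w.1.2 w.2) ((m, ω), t) :=
      ContinuousAt.div (by fun_prop) cp.continuousAt hp
    have b1 : ContinuousAt (fun w : (ℝ × ℝ) × ℝ => cB w.1.1 w.1.2 w.2) ((m, ω), t) :=
      ContinuousAt.div (by fun_prop) cp.continuousAt hp
    have a2 : ContinuousAt (fun w : (ℝ × ℝ) × ℝ => cA m ω w.2) ((m, ω), t) :=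
      ((cA_cont hm ω).comp continuous_snd).continuousAt
    have b2 : ContinuousAt (fun w : (ℝ × ℝ) × ℝ => cB m ω w.2) ((m, ω), t) :=
      ((cB_cont hm ω).comp continuous_snd).continuousAt
    have a3 := (a1.sub a2).abs.eventually_lt (continuousAt_const (y := η)) (by simpa using hη0)
    have b3 := (b1.sub b2).abs.eventually_lt (continuousAt_const (y := η)) (by simpa using hη0)
    exact a3.and b3
  have hlt : ∀ᶠ z : ℝ × ℝ in 𝓝 (m, ω), z.1 < 1 :=
    continuousAt_fst.eventually_lt continuousAt_const hm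
  filter_upwards [key, hlt] with z hz hz1
  have s1 := th_spec hz1 z.2 θ0
  have s2 := th_spec hm ω θ0
  have := cmp_near (cA_cont hm ω) (cB_cont hm ω) s1.1 s2.1 pi_pos.le (fun x hx => (hz x hx).1.le)
    (fun x hx => (hz x hx).2.le) hK' (by rw [s1.2, s2.2])
  rw [Real.dist_eq]
  have e : exp (K * π) * η * π * exp (K * π) = ε / 2 := by
    have : exp (K * π) * η * π * exp (K * π) = η * C := by rw [hC]; ring
    rw [this, hη]; field_simp
  linarith

theorem th_N1 {m : ℝ} (hm : m < 1) : th m 1 (π / 2) π = π / 2 + π := by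
  have s := th_spec hm 1 (π / 2)
  have hl : IsLin (cA m 1) (cB m 1) cos fun t => -(pm m t * sin t) := by
    intro t
    have hp := pm_pos hm t
    constructor
    · refine (hasDerivAt_cos t).congr_deriv ?_
      unfold cA; field_simp
    · refine ((pm_deriv hm t).fun_mul (hasDerivAt_sin t)).fun_neg.congr_deriv ?_
      rw [cB_eq hm]
      ring
  have hx : cos 0 = 1 * sin (th m 1 (π / 2) 0) := by simp [s.2]
  have hy : -(pm m 0 * sin 0) = 1 * cos (th m 1 (π / 2) 0) := by simp [s.2]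
  have g := gauge_lin (v := fun t => π / 2 + t) (cA_cont hm 1) (cB_cont hm 1) s.1 hl (by fun_prop)
    (by simp [s.2]) one_pos hx hy (fun t => ⟨1, one_pos, pm m t, pm_pos hm t, 0, by
      simp [add_comm, sin_add_pi_div_two], by simp [add_comm, cos_add_pi_div_two]⟩) π
  obtain ⟨r1, r2⟩ := repr (cA_cont hm 1) (cB_cont hm 1) s.1 hl hx hy π
  have hr := rad_pos (cA m 1) (cB m 1) (th m 1 (π / 2)) π
  have c0 : cos (π / 2 + π) = 0 := by simp [cos_add_pi]
  refine gauge_end (α := sin (th m 1 (π / 2) π) / sin (π / 2 + π)) (γ := 0) g ?_ ?_ (Or.inr c0)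
  · simp [sin_add_pi, div_neg]
  · simp only [sin_pi, mul_zero, neg_zero, one_mul] at r2
    rw [zero_mul]
    exact (mul_eq_zero.1 r2.symm).resolve_left hr.ne'

theorem th_big {m θ0 : ℝ} (h0 : 0 ≤ m) (hm : m < 1 / 2) (hθ : θ0 = 0 ∨ θ0 = π / 2) (l : ℕ) :
    θ0 + l * π < th m (36 * (l + 1) ^ 2) θ0 π := by
  set ω : ℝ := 36 * (l + 1) ^ 2 with hω
  set lam : ℝ := 3 * (l + 1) with hlam
  have hl : (0 : ℝ) ≤ l := Nat.cast_nonneg l
  have hω1 : 1 ≤ ω := by rw [hω]; nlinarith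
  have hlam0 : 0 < lam := by positivity
  have hω0 : 0 < ω := by linarith
  obtain ⟨u, hu, u0⟩ := exists_ang (a := fun _ => ω) (b := fun _ => 1 / 4) continuous_const
    continuous_const θ0
  have hlin : IsLin (fun _ => ω) (fun _ => 1 / 4) (fun t => sin (θ0 + lam * t))
      fun t => lam / ω * cos (θ0 + lam * t) := by
    intro t
    have d := ((hasDerivAt_id t).const_mul lam).const_add θ0
    constructor
    · refine d.sin.congr_deriv ?_
      simp only [id]; field_simp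
    · refine (d.cos.const_mul (lam / ω)).congr_deriv ?_
      simp only [id]
      have : lam * lam = ω / 4 := by rw [hω, hlam]; ring
      have e : lam / ω * (-sin (θ0 + lam * t) * (lam * 1))
          = -(lam * lam / ω * sin (θ0 + lam * t)) := by ring
      rw [e, this]; field_simp
  have g : |u (π / 3) - (θ0 + lam * (π / 3))| < π := by
    rcases hθ with h | h
    · exact gauge_lin (v := fun t => θ0 + lam * t) (ρ := lam / ω) continuous_const
        continuous_const hu hlin (by fun_prop) (by simp [u0]) (by positivity) (by simp [u0, h])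
        (by simp [u0, h]) (fun t => ⟨1, one_pos, lam / ω, by positivity, 0, by simp, by simp⟩) _
    · exact gauge_lin (v := fun t => θ0 + lam * t) (ρ := 1) continuous_const
        continuous_const hu hlin (by fun_prop) (by simp [u0]) one_pos (by simp [u0, h])
        (by simp [u0, h]) (fun t => ⟨1, one_pos, lam / ω, by positivity, 0, by simp, by simp⟩) _
  have s := th_spec (m := m) (by linarith) ω θ0
  have hp := pi_pos
  have c := cmp_le (T := π / 3) continuous_const continuous_const s.1 hu (by positivity)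
    (fun x _ => cA_ge h0 (by linarith) hω0.le x) (fun x hx => by
      have h1 := cB_ge h0 hm hω0.le x
      have h2 : 1 / 2 ≤ cos x := by
        rw [← cos_pi_div_three]
        exact cos_le_cos_of_nonneg_of_le_pi hx.1 (by linarith) hx.2
      have h3 := cos_sq_le_one x
      have h4 : 1 / 4 ≤ cos x ^ 2 := by nlinarith
      have h5 : 1 - 2 * m ≤ ω * (1 - 2 * m) := by nlinarith
      nlinarith) (by rw [u0, s.2])
  have m1 := th_strictMono h0 hm hω0 θ0 (show π / 3 < π by linarith)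
  have := (abs_lt.1 g).1
  have e : lam * (π / 3) = l * π + π := by rw [hlam]; ring
  linarith

/-- Monotonicity in `m` for `ω ≥ 2`, by the Liouville gauge. -/
theorem th_anti {m1 m2 ω θ0 τ : ℝ} (h0 : 0 ≤ m1) (h12 : m1 < m2) (hm : m2 < 1 / 2) (hω : 2 ≤ ω)
    (hτ : sin τ = 0 ∨ cos τ = 0) (h : th m1 ω θ0 π = τ) :
    th m2 ω θ0 π < τ := by
  have k1 : m1 < 1 := by linarith
  have k2 : m2 < 1 := by linarith
  have hω0 : 0 < ω := by linarith
  have s1 := th_spec k1 ω θ0
  have s2 := th_spec k2 ω θ0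
  set θ1 := th m1 ω θ0 with hθ1
  have l1 := lin_of_ang (cA_cont k1 ω) (cB_cont k1 ω) s1.1
  set r := rad (cA m1 ω) (cB m1 ω) θ1 with hr
  -- the gauge factor
  set γ : ℝ → ℝ := fun t => √(pm m1 t / pm m2 t) with hγ
  have γpos : ∀ t, 0 < γ t := fun t => sqrt_pos.2 (div_pos (pm_pos k1 t) (pm_pos k2 t))
  have γsq : ∀ t, γ t ^ 2 * pm m2 t = pm m1 t := fun t => by
    rw [hγ]
    simp only
    rw [sq_sqrt (div_pos (pm_pos k1 t) (pm_pos k2 t)).le]
    field_simp [(pm_pos k2 t).ne']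
  set L : ℝ → ℝ := fun t => sin t * cos t * (um m2 t - um m1 t) / 2 with hL
  have dγ : ∀ t, HasDerivAt γ (γ t * L t) t := fun t => by
    have p1 := pm_pos k1 t
    have p2 := pm_pos k2 t
    refine (((pm_deriv k1 t).fun_div (pm_deriv k2 t) p2.ne').sqrt (div_pos p1 p2).ne').congr_deriv ?_
    have g0 := γpos t
    have g2 := γsq t
    show _ / (2 * γ t) = γ t * (sin t * cos t * (um m2 t - um m1 t) / 2)
    rw [← g2]
    field_simp
    ring
  set L' : ℝ → ℝ := fun t => (um m2 t - um m1 t) *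
    ((1 - 2 * sin t ^ 2) / 2 + sin t ^ 2 * (1 - sin t ^ 2) * (um m1 t + um m2 t)) with hL'
  have dL : ∀ t, HasDerivAt L (L' t) t := fun t => by
    refine ((((hasDerivAt_sin t).fun_mul (hasDerivAt_cos t)).fun_mul
      ((um_deriv k2 t).fun_sub (um_deriv k1 t))).div_const 2).congr_deriv ?_
    have := sin_sq_add_cos_sq t
    show _ = (um m2 t - um m1 t) *
      ((1 - 2 * sin t ^ 2) / 2 + sin t ^ 2 * (1 - sin t ^ 2) * (um m1 t + um m2 t))
    linear_combination ((um m2 t - um m1 t) / 2 + sin t ^ 2 * (um m2 t ^ 2 - um m1 t ^ 2)) * this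
  set bt : ℝ → ℝ := fun t => cB m1 ω t / γ t ^ 2 -
    pm m2 t * ((L t - sin t * cos t * um m2 t) * L t + L' t) / ω with hbt
  have ucont : ∀ {m : ℝ}, m < 1 → Continuous (um m) := fun hm =>
    continuous_iff_continuousAt.2 fun t => (um_deriv hm t).continuousAt
  have γcont : Continuous γ := continuous_iff_continuousAt.2 fun t => (dγ t).continuousAt
  have btc : Continuous bt := by
    have u1 := ucont k1
    have u2 := ucont k2
    have c1 := pm_cont m2
    refine Continuous.sub ((cB_cont k1 ω).div (by fun_prop) fun t => (pow_pos (γpos t) 2).ne') ?_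
    rw [hL, hL']
    fun_prop
  have hlin : IsLin (cA m2 ω) bt (fun t => γ t * (r t * sin (θ1 t)))
      fun t => pm m2 t * (γ t * L t) / ω * (r t * sin (θ1 t)) + r t * cos (θ1 t) / γ t := by
    intro t
    have p1 := pm_pos k1 t
    have p2 := pm_pos k2 t
    have g0 := γpos t
    have g2 := γsq t
    constructor
    · refine ((dγ t).fun_mul (l1 t).1).congr_deriv ?_
      unfold cA
      rw [← g2]
      field_simp
    · refine (((((pm_deriv k2 t).fun_mul ((dγ t).fun_mul (dL t))).div_const ω).fun_mul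
        (l1 t).1).fun_add ((l1 t).2.fun_div (dγ t) g0.ne')).congr_deriv ?_
      rw [hbt]
      unfold cA
      simp only
      rw [← g2]
      field_simp
      ring
  obtain ⟨u, hu, u0⟩ := exists_ang (cA_cont k2 ω) btc θ0
  have γ1 : ∀ t, sin t = 0 → γ t = 1 := fun t ht => by
    rw [hγ]; simp [pm_of_sin ht]
  have hx : γ 0 * (r 0 * sin (θ1 0)) = 1 * sin (u 0) := by
    rw [γ1 0 sin_zero, hr, rad_zero, s1.2, u0]; ring
  have hy : pm m2 0 * (γ 0 * L 0) / ω * (r 0 * sin (θ1 0)) + r 0 * cos (θ1 0) / γ 0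
      = 1 * cos (u 0) := by
    rw [γ1 0 sin_zero, hr, rad_zero, s1.2, u0, hL]; simp
  have rpos : ∀ t, 0 < r t := rad_pos _ _ _
  have g := gauge_lin (cA_cont k2 ω) btc hu hlin s1.1.cont (by rw [u0, s1.2]) one_pos hx hy
    (fun t => ⟨γ t * r t, mul_pos (γpos t) (rpos t), r t / γ t, div_pos (rpos t) (γpos t),
      pm m2 t * (γ t * L t) / ω * r t, by ring, by ring⟩) π
  obtain ⟨r1, r2⟩ := repr (cA_cont k2 ω) btc hu hlin hx hy π
  have hr2 := rad_pos (cA m2 ω) bt u π
  have L0 : L π = 0 := by rw [hL]; simp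
  simp only [γ1 π sin_pi, L0, h, mul_zero, zero_div, zero_mul, zero_add, div_one, one_mul] at r1 r2
  rw [h] at g
  have eu : u π = τ := by
    refine gauge_end (α := r π / rad (cA m2 ω) bt u π) (γ := r π / rad (cA m2 ω) bt u π) g ?_ ?_ hτ
    · field_simp; linarith
    · field_simp; linarith
  rw [← eu]
  refine cmp_lt (cA_cont k2 ω) (cB_cont k2 ω) hu s2.1 pi_pos (fun _ _ => le_rfl) (fun t _ => ?_)
    (fun t _ => div_pos hω0 (pm_pos k2 t)) (by rw [u0, s2.2])
  have p1 := pm_pos k1 t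
  have p2 := pm_pos k2 t
  have g0 := γpos t
  have g2 := γsq t
  have a0 := um_nonneg h0 k1 t
  have a1 := um_lt h12 k2 t
  have a2 := um_le_one hm t
  have hs := sin_sq_add_cos_sq t
  have S0 := sq_nonneg (sin t)
  have S1 := sin_sq_le_one t
  have key : bt t - cB m2 ω t = pm m2 t / ω * (um m2 t - um m1 t) *
      ((2 - sin t ^ 2) * ω ^ 2 - 2 * ω * (1 - sin t ^ 2) - (1 - 2 * sin t ^ 2) / 2
        - 3 / 4 * (sin t ^ 2 * (1 - sin t ^ 2)) * (um m1 t + um m2 t)) := by
    rw [hbt]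
    simp only
    rw [cB_eq k1, cB_eq k2, ← g2, hL, hL']
    simp only
    field_simp
    linear_combination (sin t ^ 2 * (um m2 t - um m1 t) * (um m1 t + um m2 t) * 4) * hs
  have pos : 0 < (2 - sin t ^ 2) * ω ^ 2 - 2 * ω * (1 - sin t ^ 2) - (1 - 2 * sin t ^ 2) / 2
        - 3 / 4 * (sin t ^ 2 * (1 - sin t ^ 2)) * (um m1 t + um m2 t) := by
    have b1 : sin t ^ 2 * (1 - sin t ^ 2) ≤ 1 := by nlinarith
    have b2 : 0 ≤ sin t ^ 2 * (1 - sin t ^ 2) := mul_nonneg S0 (by linarith)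
    have b3 : sin t ^ 2 * (1 - sin t ^ 2) * (um m1 t + um m2 t) ≤ 1 * 2 :=
      mul_le_mul b1 (by linarith) (by linarith) zero_le_one
    have b4 : (2 - sin t ^ 2) * (2 * ω) ≤ (2 - sin t ^ 2) * ω ^ 2 :=
      mul_le_mul_of_nonneg_left (by nlinarith) (by linarith)
    nlinarith
  have : 0 < bt t - cB m2 ω t := by
    rw [key]
    exact mul_pos (mul_pos (div_pos p2 hω0) (by linarith)) pos
  linarith

/-- Monotonicity in `m` of the first Dirichlet line. -/
theorem th_anti_one {m1 m2 ω : ℝ} (h0 : 0 ≤ m1) (h12 : m1 < m2) (hm : m2 < 1 / 2) (hω : 1 ≤ ω)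
    (h : th m1 ω 0 π = π) : th m2 ω 0 π < π := by
  have k1 : m1 < 1 := by linarith
  have k2 : m2 < 1 := by linarith
  have hω0 : 0 < ω := by linarith
  have hp := pi_pos
  have s1 := th_spec k1 ω 0
  have s2 := th_spec k2 ω 0
  have n1 := th_strictMono h0 (by linarith) hω0 0
  have n2 := th_strictMono (m := m2) (by linarith) hm hω0 0
  set θ1 := th m1 ω 0 with hθ1
  set θ2 := th m2 ω 0 with hθ2
  have l1 := lin_of_ang (cA_cont k1 ω) (cB_cont k1 ω) s1.1
  have l2 := lin_of_ang (cA_cont k2 ω) (cB_cont k2 ω) s2.1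
  set x1 := fun t => rad (cA m1 ω) (cB m1 ω) θ1 t * sin (θ1 t) with hx1
  set y1 := fun t => rad (cA m1 ω) (cB m1 ω) θ1 t * cos (θ1 t) with hy1
  set x2 := fun t => rad (cA m2 ω) (cB m2 ω) θ2 t * sin (θ2 t) with hx2
  set y2 := fun t => rad (cA m2 ω) (cB m2 ω) θ2 t * cos (θ2 t) with hy2
  by_contra hc
  push Not at hc
  obtain ⟨z, hz, ez⟩ : ∃ z ∈ Icc 0 π, θ2 z = π :=
    intermediate_value_Icc hp.le s2.1.cont.continuousOn ⟨by rw [s2.2]; exact hp.le, hc⟩
  have z0 : 0 < z := by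
    rcases hz.1.lt_or_eq with h | h
    · exact h
    · rw [← h, s2.2] at ez; linarith
  have x1pos : ∀ t ∈ Ioo 0 π, 0 < x1 t := fun t ht =>
    mul_pos (rad_pos _ _ _ _) (sin_pos_of_pos_of_lt_pi (by simpa [s1.2] using n1 ht.1)
      (by simpa [h] using n1 ht.2))
  have x2pos : ∀ t ∈ Ioo 0 z, 0 < x2 t := fun t ht =>
    mul_pos (rad_pos _ _ _ _) (sin_pos_of_pos_of_lt_pi (by simpa [s2.2] using n2 ht.1)
      (by simpa [ez] using n2 ht.2))
  have x10 : x1 0 = 0 := by simp [hx1, s1.2]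
  have x20 : x2 0 = 0 := by simp [hx2, s2.2]
  have x1π : x1 π = 0 := by simp [hx1, h]
  have hhalf : π / 2 ∈ Ioo 0 π := ⟨by linarith, by linarith⟩
  have y1h : y1 (π / 2) = 0 := by
    have w := wronski_refl l1 l1 (cA_symm m1 ω) (cB_symm m1 ω) (π / 2)
    rw [show π - π / 2 = π / 2 by ring, x10, x1π] at w
    have := x1pos _ hhalf
    have e : x1 (π / 2) * y1 (π / 2) = 0 := by linarith
    exact (mul_eq_zero.1 e).resolve_left this.ne'
  have y1anti : AntitoneOn y1 (Icc 0 π) := by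
    refine antitoneOn_of_deriv_nonpos (convex_Icc _ _) l1.cont2.continuousOn
      (fun x _ => (l1 x).2.differentiableAt.differentiableWithinAt) fun x hx => ?_
    rw [interior_Icc] at hx
    rw [(l1 x).2.deriv]
    have b1 := cB_ge h0 (by linarith) hω0.le x
    have b2 : 0 ≤ ω * (1 - 2 * m1) := mul_nonneg hω0.le (by linarith)
    have b3 : 0 ≤ 2 * m1 * cos x ^ 2 := by positivity
    have := mul_nonneg (show 0 ≤ cB m1 ω x by linarith) (x1pos x hx).le
    linarith
  have sgn : ∀ t ∈ Icc 0 π, 0 ≤ cos t * y1 t := fun t ht => by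
    rcases le_total t (π / 2) with h | h
    · refine mul_nonneg (cos_nonneg_of_mem_Icc ⟨by linarith [ht.1], h⟩) ?_
      rw [← y1h]; exact y1anti ht (Ioo_subset_Icc_self hhalf) h
    · refine mul_nonneg_of_nonpos_of_nonpos
        (cos_nonpos_of_pi_div_two_le_of_le h (by linarith [ht.2])) ?_
      rw [← y1h]; exact y1anti (Ioo_subset_Icc_self hhalf) ht h
  set Z := fun t => pm m2 t / pm m1 t * (y1 t * x2 t) - x1 t * y2 t with hZ
  have dZ : ∀ t, HasDerivAt Z (-(pm m2 t * (um m2 t - um m1 t) *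
      (sin t * (cos t * y1 t) * x2 t / pm m1 t +
        ((2 - sin t ^ 2) * ω - 2 * (1 - sin t ^ 2)) * (x1 t * x2 t)))) t := fun t => by
    have p1 := pm_pos k1 t
    have p2 := pm_pos k2 t
    refine ((((pm_deriv k2 t).fun_div (pm_deriv k1 t) p1.ne').fun_mul
      ((l1 t).2.fun_mul (l2 t).1)).fun_sub ((l1 t).1.fun_mul (l2 t).2)).congr_deriv ?_
    rw [cB_eq k1, cB_eq k2]
    unfold cA
    field_simp
    ring
  have anti : StrictAntiOn Z (Icc 0 z) := by
    refine strictAntiOn_of_deriv_neg (convex_Icc _ _)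
      (fun x _ => (dZ x).continuousAt.continuousWithinAt) fun t ht => ?_
    rw [interior_Icc] at ht
    rw [(dZ t).deriv]
    have ht' : t ∈ Ioo 0 π := ⟨ht.1, ht.2.trans_le hz.2⟩
    have p1 := pm_pos k1 t
    have p2 := pm_pos k2 t
    have a1 := um_lt h12 k2 t
    have b1 := x1pos t ht'
    have b2 := x2pos t ht
    have b3 := sin_pos_of_pos_of_lt_pi ht'.1 ht'.2
    have b4 := sgn t (Ioo_subset_Icc_self ht')
    have S1 := sin_sq_le_one t
    have b5 : 0 < (2 - sin t ^ 2) * ω - 2 * (1 - sin t ^ 2) := by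
      have := pow_pos b3 2
      nlinarith
    have b6 : 0 < um m2 t - um m1 t := by linarith
    rw [neg_lt_zero]
    positivity
  have fin := anti ⟨le_rfl, z0.le⟩ ⟨z0.le, le_rfl⟩ z0
  have x2z : x2 z = 0 := by simp [hx2, ez]
  have y2z : y2 z ≤ 0 := by
    have := rad_pos (cA m2 ω) (cB m2 ω) θ2 z
    simp only [hy2, ez, cos_pi]; linarith
  have x1z : 0 ≤ x1 z := by
    rcases hz.2.lt_or_eq with h | h
    · exact (x1pos z ⟨z0, h⟩).le
    · rw [h, x1π]
  simp only [hZ, x10, x20, x2z] at fin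
  nlinarith [mul_nonneg x1z (neg_nonneg.2 y2z)]

end Pool.Agent.HillD
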