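import Pool.Agent.P.MP_ae2765_an.Chk1
import Pool.Agent.P.MP_ae2765_an.Chk2
import Pool.Agent.P.MP_ae2765_an.Chk3
import Pool.Agent.P.MP_ae2765_an.Chk4

/-! The checked statements. -/

namespace Pool.Agent.HillD.Num
open Pool.Agent.P.MP_4c4e6e_co.Eng

theorem Ang_cov : Cov pAng 0 549755813888 0 549755813888 0 5426089883075 :=
  Ang_c0

theorem Sup_cov : Cov pSup 0 549755813888 0 714682558055 0 549755813888 :=
  (cov1 (g1 := 549755813888) Sup_c0 (cov2 (g2 := 714682558055) (cov3 (g3 := 549755813888) Sup_c1 Sup_c2 (by norm_num) (by norm_num)) (cov3 (g3 := 549755813888) (cov2 (g2 := 357341279028) Sup_c3 (cov1 (g1 := 274877906944) Sup_c4 Sup_c5 (by norm_num) (by norm_num)) (by norm_num) (by norm_num)) (cov2 (g2 := 357341279028) Sup_c6 (cov1 (g1 := 274877906944) Sup_c7 (cov3 (g3 := 274877906944) (cov2 (g2 := 178670639514) Sup_c8 Sup_c9 (by norm_num) (by norm_num)) Sup_c10 (by norm_num) (by norm_num)) (by norm_num) (by norm_num)) (by norm_num) (by norm_num)) (by norm_num) (by norm_num)) (by norm_num)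 (by norm_num)) (by norm_num) (by norm_num))

theorem C2_cov : Cov pC2 0 549755813888 0 549755813888 0 549755813888 :=
  C2_c0

theorem E1_cov : Cov pE1 0 108851651150 0 549755813888 0 5426089883075 :=
  (cov1 (g1 := 108851651150) E1_c0 (cov2 (g2 := 549755813888) E1_c1 E1_c2 (by norm_num) (by norm_num)) (by norm_num) (by norm_num))

theorem E2_cov : Cov pE2 0 115448720917 0 25508669765 0 5426089883075 :=
  (cov1 (g1 := 115448720917) E2_c0 (cov2 (g2 := 25508669765) E2_c1 E2_c2 (by norm_num) (by norm_num)) (by norm_num) (by norm_num))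

theorem E3_cov : Cov pE3 230897441832 434307092972 0 25508669765 0 5426089883075 :=
  (cov1 (g1 := 434307092972) (cov2 (g2 := 25508669765) (cov3 (g3 := 5426089883075) E3_c0 E3_c1 (by norm_num) (by norm_num)) (cov3 (g3 := 5426089883075) E3_c2 E3_c3 (by norm_num) (by norm_num)) (by norm_num) (by norm_num)) (cov2 (g2 := 25508669765) (cov3 (g3 := 5426089883075) E3_c4 E3_c5 (by norm_num) (by norm_num)) (cov3 (g3 := 5426089883075) E3_c6 E3_c7 (by norm_num) (by norm_num)) (by norm_num) (by norm_num)) (by norm_num) (by norm_num))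

theorem RA_cov : Cov pRA 0 1429365116109 0 549755813888 0 1099511627776 :=
  RA_c0

theorem RB_cov : Cov pRA 2858730232217 1099511627777 0 35184372089 0 1099511627776 :=
  RB_c0

theorem RC_cov : Cov pRC 0 549755813888 0 125344325567 0 1099511627776 :=
  RC_c0

theorem P0_cov : Cov2 p3Pre0 pPA 0 329853488333 pPB 0 549755813888 0 869273892920 0 549755813888 :=
  (cov2_1 (g1 := 869273892920) (cov2_1 (g1 := 434636946460) P0_c0 P0_c1 (by norm_num) (by norm_num)) (cov2_1 (g1 := 434636946460) (cov2_1 (g1 := 217318473230) P0_c2 (cov2_1 (g1 := 108659236615) P0_c3 P0_c4 (by norm_num) (by norm_num)) (by norm_num) (by norm_num)) (cov2_1 (g1 := 217318473230) (cov2_1 (g1 := 108659236615) P0_c5 P0_c6 (by norm_num) (by norm_num)) (cov2_1 (g1 := 108659236615) P0_c7 P0_c8 (by norm_num) (by norm_num)) (by norm_num) (by norm_num)) (by norm_num) (by norm_num)) (by norm_num) (by norm_num))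

theorem P1_cov : Cov2 p3Pre1 pPA 0 329853488333 pPB 0 549755813888 0 869273892920 0 549755813888 :=
  (cov2_1 (g1 := 869273892920) P1_c0 (cov2_1 (g1 := 434636946460) (cov2_1 (g1 := 217318473230) P1_c1 P1_c2 (by norm_num) (by norm_num)) (cov2_1 (g1 := 217318473230) P1_c3 P1_c4 (by norm_num) (by norm_num)) (by norm_num) (by norm_num)) (by norm_num) (by norm_num))

end Pool.Agent.HillD.Num
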