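import Pool.Agent.P.MP_ae2765_an.Core

/-! The curves `ω = cur θ0 l m` on which the Prüfer angle has turned by `l π`. -/

namespace Pool.Agent.HillD
open Real Set Filter Topology

noncomputable def cur (θ0 : ℝ) (l : ℕ) (m : ℝ) : ℝ :=
  Classical.epsilon fun ω => 0 < ω ∧ th m ω θ0 π = θ0 + l * π

variable {θ0 m ω : ℝ} {l : ℕ}

theorem cur_spec (hθ : θ0 = 0 ∨ θ0 = π / 2) (hl : 1 ≤ l) (h0 : 0 ≤ m) (hm : m < 1 / 2) :
    0 < cur θ0 l m ∧ th m (cur θ0 l m) θ0 π = θ0 + l * π := by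
  refine Classical.epsilon_spec (p := fun ω => 0 < ω ∧ th m ω θ0 π = θ0 + l * π) ?_
  have hp := pi_pos
  have hl' : (1 : ℝ) ≤ l := by exact_mod_cast hl
  have c : Continuous fun ω => th m ω θ0 π := continuous_iff_continuousAt.2 fun ω =>
    (th_cont (m := m) (ω := ω) (by linarith) θ0).comp (f := fun ω => (m, ω)) (by fun_prop)
  have a : th m 0 θ0 π < θ0 + l * π := by
    have := th_omega_zero (m := m) (θ0 := θ0) (by linarith) (by rcases hθ with h | h <;> linarith)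
    have : π ≤ l * π := by nlinarith
    rcases hθ with h | h <;> linarith
  obtain ⟨ω, hω, e⟩ := intermediate_value_Icc (show (0 : ℝ) ≤ 36 * (l + 1) ^ 2 by positivity)
    c.continuousOn ⟨a.le, (th_big h0 hm hθ l).le⟩
  refine ⟨ω, hω.1.lt_of_ne fun h => ?_, e⟩
  rw [← h] at e
  exact a.ne e

theorem cur_lt_iff (hθ : θ0 = 0 ∨ θ0 = π / 2) (hl : 1 ≤ l) (h0 : 0 ≤ m) (hm : m < 1 / 2)
    (hω : 0 ≤ ω) : cur θ0 l m < ω ↔ θ0 + l * π < th m ω θ0 π := by
  obtain ⟨c0, c1⟩ := cur_spec hθ hl h0 hm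
  constructor
  · intro h
    rw [← c1]; exact th_mono_omega hm c0.le h θ0
  · intro h
    by_contra hc
    push Not at hc
    rcases hc.lt_or_eq with k | k
    · have := th_mono_omega hm hω k θ0
      linarith
    · rw [k] at h; linarith

theorem lt_cur_iff (hθ : θ0 = 0 ∨ θ0 = π / 2) (hl : 1 ≤ l) (h0 : 0 ≤ m) (hm : m < 1 / 2)
    (hω : 0 ≤ ω) : ω < cur θ0 l m ↔ th m ω θ0 π < θ0 + l * π := by
  obtain ⟨c0, c1⟩ := cur_spec hθ hl h0 hm
  constructor
  · intro h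
    rw [← c1]; exact th_mono_omega hm hω h θ0
  · intro h
    by_contra hc
    push Not at hc
    rcases hc.lt_or_eq with k | k
    · have := th_mono_omega hm c0.le k θ0
      linarith
    · rw [← k] at h; linarith

theorem eq_cur_iff (hθ : θ0 = 0 ∨ θ0 = π / 2) (hl : 1 ≤ l) (h0 : 0 ≤ m) (hm : m < 1 / 2)
    (hω : 0 ≤ ω) : ω = cur θ0 l m ↔ th m ω θ0 π = θ0 + l * π := by
  constructor
  · intro h
    rw [h]; exact (cur_spec hθ hl h0 hm).2
  · intro h
    rcases lt_trichotomy ω (cur θ0 l m) with k | k | k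
    · exact absurd h ((lt_cur_iff hθ hl h0 hm hω).1 k).ne
    · exact k
    · exact absurd h ((cur_lt_iff hθ hl h0 hm hω).1 k).ne'

theorem cur_zero (hθ : θ0 = 0 ∨ θ0 = π / 2) (hl : 1 ≤ l) : cur θ0 l 0 = l :=
  ((eq_cur_iff hθ hl le_rfl (by norm_num) (Nat.cast_nonneg l)).2 (th_zero _ _)).symm

theorem cur_mul_le (hθ : θ0 = 0 ∨ θ0 = π / 2) (hl : 1 ≤ l) (h0 : 0 ≤ m) (hm : m < 1 / 2) :
    cur θ0 l m * (1 - 2 * m) ≤ l := by
  obtain ⟨c0, c1⟩ := cur_spec hθ hl h0 hm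
  have := th_ge h0 hm c0.le θ0
  rw [c1] at this
  exact le_of_mul_le_mul_right (by linarith) pi_pos

theorem cur_lt_big (hθ : θ0 = 0 ∨ θ0 = π / 2) (hl : 1 ≤ l) (h0 : 0 ≤ m) (hm : m < 1 / 2) :
    cur θ0 l m < 36 * (l + 1) ^ 2 :=
  (cur_lt_iff hθ hl h0 hm (by positivity)).2 (th_big h0 hm hθ l)

theorem cur_N1 (h0 : 0 ≤ m) (hm : m < 1 / 2) : cur (π / 2) 1 m = 1 :=
  ((eq_cur_iff (Or.inr rfl) le_rfl h0 hm zero_le_one).2
    (by rw [th_N1 (by linarith)]; simp)).symm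

theorem cur_strictMono (hθ : θ0 = 0 ∨ θ0 = π / 2) (hl : 2 ≤ l ∨ (l = 1 ∧ θ0 = 0)) :
    StrictMonoOn (cur θ0 l) (Ico 0 (1 / 2)) := by
  have hl1 : 1 ≤ l := by omega
  have step : ∀ m1 m2 : ℝ, 0 ≤ m1 → m1 < m2 → m2 < 1 / 2 → l ≤ cur θ0 l m1 →
      cur θ0 l m1 < cur θ0 l m2 := by
    intro m1 m2 h0 h12 hm hc
    obtain ⟨c0, c1⟩ := cur_spec hθ hl1 h0 (h12.trans hm)
    rw [lt_cur_iff hθ hl1 (h0.trans h12.le) hm c0.le]
    rcases hl with h | ⟨h, h'⟩
    · have : (2 : ℝ) ≤ l := by exact_mod_cast h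
      refine th_anti h0 h12 hm (by linarith) ?_ c1
      rcases hθ with k | k
      · left; simp [k]
      · right; simp [k, cos_add]
    · subst h h'
      simp only [Nat.cast_one, zero_add, one_mul] at hc c1 ⊢
      exact th_anti_one h0 h12 hm hc c1
  intro m1 h1 m2 h2 h12
  refine step m1 m2 h1.1 h12 h2.2 ?_
  rcases h1.1.lt_or_eq with h | h
  · have := step 0 m1 le_rfl h h1.2 (cur_zero hθ hl1).ge
    rw [cur_zero hθ hl1] at this
    exact this.le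
  · rw [← h, cur_zero hθ hl1]

theorem cur_cont (hθ : θ0 = 0 ∨ θ0 = π / 2) (hl : 1 ≤ l) (h0 : 0 < m) (hm : m < 1 / 2) :
    ContinuousAt (cur θ0 l) m := by
  have c : ∀ ω, ContinuousAt (fun m => th m ω θ0 π) m := fun ω =>
    (th_cont (m := m) (ω := ω) (by linarith) θ0).comp (f := fun m => (m, ω)) (by fun_prop)
  have hev : ∀ᶠ x in 𝓝 m, x ∈ Ioo 0 (1 / 2) := Ioo_mem_nhds h0 hm
  refine tendsto_order.2 ⟨fun a ha => ?_, fun a ha => ?_⟩
  · rcases lt_or_ge a 0 with h | h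
    · filter_upwards [hev] with x hx using h.trans (cur_spec hθ hl hx.1.le hx.2).1
    · have := (c a).eventually_lt continuousAt_const ((lt_cur_iff hθ hl h0.le hm h).1 ha)
      filter_upwards [hev, this] with x hx hx' using (lt_cur_iff hθ hl hx.1.le hx.2 h).2 hx'
  · have h : 0 ≤ a := ((cur_spec hθ hl h0.le hm).1.trans ha).le
    have := continuousAt_const.eventually_lt (c a) ((cur_lt_iff hθ hl h0.le hm h).1 ha)
    filter_upwards [hev, this] with x hx hx' using (cur_lt_iff hθ hl hx.1.le hx.2 h).2 hx'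

theorem cur_interlace (hl : 1 ≤ l) (h0 : 0 ≤ m) (hm : m < 1 / 2) :
    max (cur (π / 2) l m) (cur 0 l m) < min (cur (π / 2) (l + 1) m) (cur 0 (l + 1) m) := by
  have hp := pi_pos
  obtain ⟨a0, a1⟩ := cur_spec (Or.inr rfl) hl h0 hm
  obtain ⟨b0, b1⟩ := cur_spec (Or.inl rfl) hl h0 hm
  have d1 := th_DN (m := m) (by linarith) (cur (π / 2) l m)
  have d2 := th_DN (m := m) (by linarith) (cur 0 l m)
  have hl' : 1 ≤ l + 1 := by omega
  rw [max_lt_iff, lt_min_iff, lt_min_iff, lt_cur_iff (Or.inr rfl) hl' h0 hm a0.le,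
    lt_cur_iff (Or.inl rfl) hl' h0 hm a0.le, lt_cur_iff (Or.inr rfl) hl' h0 hm b0.le,
    lt_cur_iff (Or.inl rfl) hl' h0 hm b0.le]
  push_cast
  refine ⟨⟨?_, ?_⟩, ?_, ?_⟩ <;> linarith [d1.1, d2.2]

theorem sin_zero_pos {A : ℝ} (hA : 0 < A) : sin A = 0 ↔ ∃ l : ℕ, 1 ≤ l ∧ A = l * π := by
  constructor
  · intro h
    obtain ⟨n, hn⟩ := sin_eq_zero_iff.1 h
    have : (0 : ℝ) < n := (mul_pos_iff_of_pos_right pi_pos).1 (by rwa [hn])
    have h2 : 0 < n := by exact_mod_cast this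
    refine ⟨n.toNat, by omega, ?_⟩
    rw [← hn]
    congr 1
    exact_mod_cast (Int.toNat_of_nonneg h2.le).symm
  · rintro ⟨l, -, rfl⟩
    exact sin_nat_mul_pi l

theorem sin_mul_neg {A B : ℝ} (hB : 0 < B) (h : B < A) (h' : A < B + π) :
    sin A * sin B < 0 ↔ ∃ l : ℕ, 1 ≤ l ∧ B < l * π ∧ l * π < A := by
  constructor
  · intro hs
    have : ∃ z ∈ Ioo B A, sin z = 0 := by
      rcases mul_neg_iff.1 hs with ⟨k1, k2⟩ | ⟨k1, k2⟩
      · exact intermediate_value_Ioo h.le continuous_sin.continuousOn ⟨k2, k1⟩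
      · exact intermediate_value_Ioo' h.le continuous_sin.continuousOn ⟨k1, k2⟩
    obtain ⟨z, hz, e⟩ := this
    obtain ⟨l, hl, rfl⟩ := (sin_zero_pos (hB.trans hz.1)).1 e
    exact ⟨l, hl, hz.1, hz.2⟩
  · rintro ⟨l, -, k1, k2⟩
    have e1 := sin_pos_of_pos_of_lt_pi (x := A - l * π) (by linarith) (by linarith)
    have e2 := sin_neg_of_neg_of_neg_pi_lt (x := B - l * π) (by linarith) (by linarith)
    have e3 := mul_neg_of_pos_of_neg e1 e2
    rw [sin_sub_nat_mul_pi, sin_sub_nat_mul_pi] at e3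
    have : ((-1 : ℝ) ^ l) * (-1) ^ l = 1 := by rw [← mul_pow]; simp
    calc sin A * sin B = (-1) ^ l * (-1) ^ l * (sin A * sin B) := by rw [this, one_mul]
      _ = _ := by ring
      _ < 0 := e3

theorem th_pos (h0 : 0 ≤ m) (hm : m < 1 / 2) (hω : 0 < ω) (θ0 : ℝ) : θ0 < th m ω θ0 π := by
  have := th_strictMono h0 hm hω θ0 pi_pos
  rwa [(th_spec (by linarith) ω θ0).2] at this

theorem sin_D_zero (h0 : 0 ≤ m) (hm : m < 1 / 2) (hω : 0 < ω) :
    sin (th m ω 0 π) = 0 ↔ ∃ l, 1 ≤ l ∧ ω = cur 0 l m := by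
  rw [sin_zero_pos (th_pos h0 hm hω 0)]
  refine exists_congr fun l => and_congr_right fun hl => ?_
  rw [eq_cur_iff (Or.inl rfl) hl h0 hm hω.le, zero_add]

theorem cos_N_zero (h0 : 0 ≤ m) (hm : m < 1 / 2) (hω : 0 < ω) :
    cos (th m ω (π / 2) π) = 0 ↔ ∃ l, 1 ≤ l ∧ ω = cur (π / 2) l m := by
  rw [← sin_sub_pi_div_two_eq_zero_aux, sin_zero_pos (sub_pos.2 (th_pos h0 hm hω _))]
  refine exists_congr fun l => and_congr_right fun hl => ?_
  rw [eq_cur_iff (Or.inr rfl) hl h0 hm hω.le]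
  constructor <;> intro h <;> linarith
where
  sin_sub_pi_div_two_eq_zero_aux {x : ℝ} : sin (x - π / 2) = 0 ↔ cos x = 0 := by
    rw [sin_sub_pi_div_two, neg_eq_zero]

theorem prod_pos_iff (h0 : 0 ≤ m) (hm : m < 1 / 2) (hω : 0 < ω) :
    0 < cos (th m ω (π / 2) π) * sin (th m ω 0 π) ↔ ∃ l, 1 ≤ l ∧
      min (cur (π / 2) l m) (cur 0 l m) < ω ∧ ω < max (cur (π / 2) l m) (cur 0 l m) := by
  have hp := pi_pos
  set A := th m ω 0 π with hA
  set B := th m ω (π / 2) π - π / 2 with hB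
  have A0 : 0 < A := th_pos h0 hm hω 0
  have B0 : 0 < B := sub_pos.2 (th_pos h0 hm hω _)
  have d := th_DN (m := m) (by linarith) ω
  have e : cos (th m ω (π / 2) π) = -sin B := by rw [hB, sin_sub_pi_div_two, neg_neg]
  have key : ∀ l : ℕ, 1 ≤ l → ((min (cur (π / 2) l m) (cur 0 l m) < ω ∧
      ω < max (cur (π / 2) l m) (cur 0 l m)) ↔
      (B < l * π ∧ l * π < A) ∨ (A < l * π ∧ l * π < B)) := by
    intro l hl
    rw [min_lt_iff, lt_max_iff, cur_lt_iff (Or.inr rfl) hl h0 hm hω.le,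
      cur_lt_iff (Or.inl rfl) hl h0 hm hω.le, lt_cur_iff (Or.inr rfl) hl h0 hm hω.le,
      lt_cur_iff (Or.inl rfl) hl h0 hm hω.le]
    constructor
    · rintro ⟨k1 | k1, k2 | k2⟩
      · linarith
      · right; constructor <;> linarith
      · left; constructor <;> linarith
      · linarith
    · rintro (⟨k1, k2⟩ | ⟨k1, k2⟩)
      · exact ⟨Or.inr (by linarith), Or.inl (by linarith)⟩
      · exact ⟨Or.inl (by linarith), Or.inr (by linarith)⟩
  rw [e]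
  constructor
  · intro h
    rcases lt_trichotomy A B with k | k | k
    · obtain ⟨l, hl, k⟩ := (sin_mul_neg A0 k (by linarith [d.2])).1 (by linarith)
      exact ⟨l, hl, (key l hl).2 (Or.inr k)⟩
    · rw [k] at h; nlinarith [mul_self_nonneg (sin B)]
    · obtain ⟨l, hl, k⟩ := (sin_mul_neg B0 k (by linarith [d.1])).1 (by linarith)
      exact ⟨l, hl, (key l hl).2 (Or.inl k)⟩
  · rintro ⟨l, hl, k⟩
    rcases (key l hl).1 k with k | k
    · have := (sin_mul_neg B0 (k.1.trans k.2) (by linarith [d.1])).2 ⟨l, hl, k⟩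
      linarith
    · have := (sin_mul_neg A0 (k.1.trans k.2) (by linarith [d.2])).2 ⟨l, hl, k⟩
      linarith

end Pool.Agent.HillD
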