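import Pool.Agent.P.MP_4c4e6e_co.EngRun

/-! A two level branch and bound on top of the affine arithmetic checker: a common initial
program is evaluated once for each box in the first two variables, and the third variable is
subdivided afterwards. -/

namespace Pool.Agent.P.MP_4c4e6e_co.Eng

/-- straight line programs -/
inductive Pre where
  | nil
  | lt (e : E) (p : Pre)
  | rng (lo hi m : Nat) (p : Pre)
  | keep (l : List Nat) (p : Pre)

/-- meaning of a straight line program followed by the property `Φ` of the final environment -/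
def Pre.holds : Pre → (List ℝ → Prop) → List ℝ → Prop
  | .nil, Φ, env => Φ env
  | .lt e p, Φ, env => ∀ v : ℝ, v = e.val env → p.holds Φ (v :: env)
  | .rng lo hi m p, Φ, env =>
      ∀ v : ℝ, (lo : ℝ) / (m : ℝ) ≤ v → v ≤ (hi : ℝ) / (m : ℝ) → p.holds Φ (v :: env)
  | .keep l p, Φ, env => p.holds Φ (l.map fun i => env.getD i 0)

theorem Pre.holds_mono {Φ Ψ : List ℝ → Prop} (h : ∀ r, Φ r → Ψ r) (p : Pre) :
    ∀ env, p.holds Φ env → p.holds Ψ env := by
  induction p with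
  | nil => exact h
  | lt e p ih => exact fun env H v hv => ih _ (H v hv)
  | rng lo hi m p ih => exact fun env H v h1 h2 => ih _ (H v h1 h2)
  | keep l p ih => exact fun env H => ih _ H

/-- evaluate the nine numbers of an affine form -/
noncomputable def frc (x : AF) (k : AF → Bool) : Bool :=
  AF.rec (fun cp cn ap an bp bn dp dn r =>
    fN cp fun cp => fN cn fun cn => fN ap fun ap => fN an fun an => fN bp fun bp =>
    fN bn fun bn => fN dp fun dp => fN dn fun dn => fN r fun r =>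
      k ⟨cp, cn, ap, an, bp, bn, dp, dn, r⟩) x

theorem frc_eq (x : AF) (k : AF → Bool) : frc x k = k x := by
  cases x
  simp only [frc, fN_eq]

noncomputable def keepK (env : List AF) (l : List Nat) : (List AF → Bool) → Bool :=
  List.rec (fun k => k [])
    (fun i _ ih k => getK env i fun x => frc x fun y => ih fun xs => k (y :: xs)) l

noncomputable def runPre (p : Pre) : List AF → (List AF → Bool) → Bool :=
  Pre.rec (motive := fun _ => List AF → (List AF → Bool) → Bool)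
    (fun env k => k env)
    (fun e _ f env k => evK env e fun x => f (x :: env) k)
    (fun lo hi m _ f env k =>
      f (⟨Nat.div (Nat.mul (Nat.add lo hi) 549755813888) m, 0, 0, 0, 0, 0, 0, 0,
        Nat.add (Nat.div (Nat.mul (Nat.sub hi lo) 549755813888) m) 2⟩ :: env) k)
    (fun l _ f env k => keepK env l fun env' => f env' k) p

variable {e1 e2 e3 : ℝ}

theorem keepK_ok {l : List AF} {r : List ℝ} (H : List.Forall₂ (Rep e1 e2 e3) l r)
    (is : List Nat) : ∀ k : List AF → Bool, keepK l is k = true →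
      ∃ l', List.Forall₂ (Rep e1 e2 e3) l' (is.map fun i => r.getD i 0) ∧ k l' = true := by
  induction is with
  | nil => exact fun k h => ⟨[], List.Forall₂.nil, h⟩
  | cons i is ih =>
    intro k h
    obtain ⟨z, hz, h⟩ := getK_ok H i _ h
    rw [frc_eq] at h
    obtain ⟨l', hl, h⟩ := ih _ h
    exact ⟨z :: l', List.Forall₂.cons hz hl, h⟩

theorem runPre_ok (h1 : |e1| ≤ 1) (h2 : |e2| ≤ 1) (h3 : |e3| ≤ 1) (p : Pre)
    (k : List AF → Bool) : ∀ {l : List AF} {r : List ℝ}, List.Forall₂ (Rep e1 e2 e3) l r →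
      runPre p l k = true →
      p.holds (fun r' => ∃ l', List.Forall₂ (Rep e1 e2 e3) l' r' ∧ k l' = true) r := by
  induction p with
  | nil => exact fun H h => ⟨_, H, h⟩
  | lt e p ih =>
    intro l r H h v hv
    obtain ⟨a, ha, h⟩ := evK_ok h1 h2 h3 H e _ h
    exact ih (List.Forall₂.cons (hv ▸ ha) H) h
  | rng lo hi m p ih =>
    intro l r H h v hv1 hv2
    exact ih (List.Forall₂.cons (rng_ok hv1 hv2) H) h
  | keep is p ih =>
    intro l r H h
    obtain ⟨l', hl, h⟩ := keepK_ok H is _ h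
    exact ih hl h

/-- subdivision of the third variable along a binary certificate -/
noncomputable def bb3 (q : Pg) (env : List AF) (fuel : Nat) :
    Nat → Nat → Nat → (Nat → Bool) → Bool :=
  Nat.rec (fun _ _ _ _ => false)
    (fun _ ih w l g k =>
      fN (Nat.div w 2) fun w' =>
      Nat.rec
        (Bool.rec false (k w') (run q (⟨Nat.add l g, 0, 0, 0, 0, 0, g, 0, 0⟩ :: env)))
        (fun _ _ => fN (Nat.div (Nat.succ g) 2) fun g' => fN (Nat.add l g) fun hi =>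
          ih w' l g' fun w'' => ih w'' hi g' k)
        (Nat.mod w 2)) fuel

/-- the certificate left after one tree -/
noncomputable def skip3 (fuel : Nat) : Nat → Nat :=
  Nat.rec (fun w => w)
    (fun _ ih w => Nat.rec (Nat.div w 2) (fun _ _ => ih (ih (Nat.div w 2))) (Nat.mod w 2)) fuel

theorem bb3_succ (q : Pg) (env : List AF) (f w l g : ℕ) (k : ℕ → Bool) :
    bb3 q env (f + 1) w l g k =
      fN (Nat.div w 2) fun w' =>
      Nat.rec
        (Bool.rec false (k w') (run q (⟨Nat.add l g, 0, 0, 0, 0, 0, g, 0, 0⟩ :: env)))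
        (fun _ _ => fN (Nat.div (Nat.succ g) 2) fun g' => fN (Nat.add l g) fun hi =>
          bb3 q env f w' l g' fun w'' => bb3 q env f w'' hi g' k)
        (Nat.mod w 2) := rfl

theorem skip3_succ (f w : ℕ) : skip3 (f + 1) w =
    Nat.rec (Nat.div w 2) (fun _ _ => skip3 f (skip3 f (Nat.div w 2))) (Nat.mod w 2) := rfl

theorem bb3_skip (q : Pg) (env : List AF) (fuel : ℕ) : ∀ (w l g : ℕ) (k : ℕ → Bool),
    bb3 q env fuel w l g k = true → k (skip3 fuel w) = true := by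
  induction fuel with
  | zero => intro w l g k h; exact absurd h (by simp [bb3])
  | succ f ih =>
    intro w l g k h
    rw [bb3_succ, fN_eq] at h
    rw [skip3_succ]
    generalize Nat.mod w 2 = j at h ⊢
    rcases j with _ | j
    · exact (andB h).2
    · have h' := h
      simp only [fN_eq] at h'
      exact ih _ _ _ _ (ih _ _ _ _ h')

theorem bb3_leaf (q : Pg) (x : ℝ) (fuel : ℕ) : ∀ (w l g : ℕ), (l : ℝ) ≤ x * 2 ^ 40 →
    x * 2 ^ 40 ≤ l + 2 * g → ∃ l' g' : ℕ, (l' : ℝ) ≤ x * 2 ^ 40 ∧ x * 2 ^ 40 ≤ l' + 2 * g' ∧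
      ∀ (env : List AF) (k : ℕ → Bool), bb3 q env fuel w l g k = true →
        run q (⟨Nat.add l' g', 0, 0, 0, 0, 0, g', 0, 0⟩ :: env) = true := by
  induction fuel with
  | zero => exact fun w l g a b => ⟨l, g, a, b, fun env k h => absurd h (by simp [bb3])⟩
  | succ f ih =>
    intro w l g a b
    have hd : Nat.div (Nat.succ g) 2 = (g + 1) / 2 := rfl
    have ha : Nat.add l g = l + g := rfl
    rcases hj : Nat.mod w 2 with _ | j
    · refine ⟨l, g, a, b, fun env k h => ?_⟩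
      rw [bb3_succ, fN_eq, hj] at h
      exact (andB h).1
    · have hg : (g : ℝ) ≤ 2 * (((g + 1) / 2 : ℕ) : ℝ) := by
        exact_mod_cast (by omega : g ≤ 2 * ((g + 1) / 2))
      rcases le_total (x * 2 ^ 40) ((l + g : ℕ) : ℝ) with c | c
      · obtain ⟨l', g', a', b', H⟩ := ih (Nat.div w 2) l ((g + 1) / 2) a
          (by push_cast at c; linarith)
        refine ⟨l', g', a', b', fun env k h => ?_⟩
        rw [bb3_succ, fN_eq, hj] at h
        simp only [fN_eq] at h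
        exact H env _ h
      · obtain ⟨l', g', a', b', H⟩ := ih (skip3 f (Nat.div w 2)) (l + g) ((g + 1) / 2) c
          (by push_cast; linarith)
        refine ⟨l', g', a', b', fun env k h => ?_⟩
        rw [bb3_succ, fN_eq, hj] at h
        simp only [fN_eq] at h
        exact H env _ (bb3_skip _ _ _ _ _ _ _ h)

/-- Both final programs hold after the common first part, on the box in the first two variables and
the given ranges of the third. -/
def Cov2 (p : Pre) (q : Pg) (l3 g3 : ℕ) (q' : Pg) (l4 g4 : ℕ) (l1 g1 l2 g2 : ℕ) : Prop :=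
  ∀ x1 x2 : ℝ, (l1 : ℝ) ≤ x1 * 2 ^ 40 → x1 * 2 ^ 40 ≤ l1 + 2 * g1 →
    (l2 : ℝ) ≤ x2 * 2 ^ 40 → x2 * 2 ^ 40 ≤ l2 + 2 * g2 →
    (∀ x3 : ℝ, (l3 : ℝ) ≤ x3 * 2 ^ 40 → x3 * 2 ^ 40 ≤ l3 + 2 * g3 →
      p.holds (fun r => q.holds (x3 :: r)) [x2, x1]) ∧
    (∀ x3 : ℝ, (l4 : ℝ) ≤ x3 * 2 ^ 40 → x3 * 2 ^ 40 ≤ l4 + 2 * g4 →
      p.holds (fun r => q'.holds (x3 :: r)) [x2, x1])

noncomputable def leaf2 (p : Pre) (q : Pg) (l3 g3 : Nat) (q' : Pg) (l4 g4 : Nat)
    (w l1 g1 l2 g2 : Nat) : Bool :=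
  runPre p [⟨Nat.add l2 g2, 0, 0, 0, g2, 0, 0, 0, 0⟩, ⟨Nat.add l1 g1, 0, g1, 0, 0, 0, 0, 0, 0⟩]
    fun env => bb3 q env 12 w l3 g3 fun w' => bb3 q' env 12 w' l4 g4 fun _ => true

theorem leaf_aux {p : Pre} {q : Pg} {l3 g3 w l1 g1 l2 g2 : ℕ} {k : List AF → Bool}
    (hk : ∀ env, k env = true → ∃ k', bb3 q env 12 w l3 g3 k' = true)
    (h : runPre p [⟨Nat.add l2 g2, 0, 0, 0, g2, 0, 0, 0, 0⟩,
      ⟨Nat.add l1 g1, 0, g1, 0, 0, 0, 0, 0, 0⟩] k = true) {x1 x2 x3 : ℝ}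
    (a1 : (l1 : ℝ) ≤ x1 * 2 ^ 40) (b1 : x1 * 2 ^ 40 ≤ l1 + 2 * g1)
    (a2 : (l2 : ℝ) ≤ x2 * 2 ^ 40) (b2 : x2 * 2 ^ 40 ≤ l2 + 2 * g2)
    (a3 : (l3 : ℝ) ≤ x3 * 2 ^ 40) (b3 : x3 * 2 ^ 40 ≤ l3 + 2 * g3) :
    p.holds (fun r => q.holds (x3 :: r)) [x2, x1] := by
  obtain ⟨l', g', a', b', H⟩ := bb3_leaf q x3 12 w l3 g3 a3 b3
  obtain ⟨e1, h1, k1⟩ := noise a1 b1
  obtain ⟨e2, h2, k2⟩ := noise a2 b2
  obtain ⟨e3, h3, k3⟩ := noise a' b'
  refine Pre.holds_mono ?_ p _ (runPre_ok h1 h2 h3 p k (r := [x2, x1]) ?_ h)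
  · rintro r ⟨env, he, hk'⟩
    obtain ⟨k', hb⟩ := hk env hk'
    refine run_ok h1 h2 h3 q (List.Forall₂.cons ?_ he) (H env k' hb)
    simp [Rep, k3]
  · refine List.Forall₂.cons ?_ (List.Forall₂.cons ?_ List.Forall₂.nil)
    · simp [Rep, k2]
    · simp [Rep, k1]

theorem leaf2_ok {p : Pre} {q q' : Pg} {l3 g3 l4 g4 w l1 g1 l2 g2 : ℕ}
    (h : leaf2 p q l3 g3 q' l4 g4 w l1 g1 l2 g2 = true) : Cov2 p q l3 g3 q' l4 g4 l1 g1 l2 g2 :=
  fun _ _ a1 b1 a2 b2 =>
    ⟨fun _ a3 b3 => leaf_aux (fun _ hk => ⟨_, hk⟩) h a1 b1 a2 b2 a3 b3,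
      fun _ a3 b3 => leaf_aux (w := skip3 12 w) (fun _ hk => ⟨_, bb3_skip _ _ _ _ _ _ _ hk⟩)
        h a1 b1 a2 b2 a3 b3⟩

/-- Outer branch and bound. The certificate is read in base `2 ^ 64`: digit 0 splits the first
variable, digit 1 the second, and a digit `d + 2` is a leaf with inner certificate `d`. -/
noncomputable def bb2 (p : Pre) (q : Pg) (l3 g3 : Nat) (q' : Pg) (l4 g4 : Nat) (fuel : Nat) :
    Nat → Nat → Nat → Nat → Nat → (Nat → Bool) → Bool :=
  Nat.rec (fun _ _ _ _ _ _ => false)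
    (fun _ ih w l1 g1 l2 g2 k =>
      fN (Nat.div w 18446744073709551616) fun w' =>
      fN (Nat.mod w 18446744073709551616) fun d =>
      Bool.rec
        (Bool.rec
          (Bool.rec false (k w') (leaf2 p q l3 g3 q' l4 g4 (Nat.sub d 2) l1 g1 l2 g2))
          (fN (Nat.div (Nat.succ g2) 2) fun g => fN (Nat.add l2 g2) fun hi =>
            ih w' l1 g1 l2 g fun w'' => ih w'' l1 g1 hi g k)
          (Nat.beq d 1))
        (fN (Nat.div (Nat.succ g1) 2) fun g => fN (Nat.add l1 g1) fun hi =>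
          ih w' l1 g l2 g2 fun w'' => ih w'' hi g l2 g2 k)
        (Nat.beq d 0)) fuel

theorem cov2_1 {p : Pre} {q q' : Pg} {l3 g3 l4 g4 l1 g1 l2 g2 g m : ℕ}
    (h1 : Cov2 p q l3 g3 q' l4 g4 l1 g l2 g2) (h2 : Cov2 p q l3 g3 q' l4 g4 m g l2 g2)
    (hm : m ≤ l1 + 2 * g) (hg : l1 + 2 * g1 ≤ m + 2 * g) :
    Cov2 p q l3 g3 q' l4 g4 l1 g1 l2 g2 := by
  intro x1 x2 a1 b1 a2 b2
  have hm' : (m : ℝ) ≤ l1 + 2 * g := by exact_mod_cast hm
  have hg' : (l1 : ℝ) + 2 * g1 ≤ m + 2 * g := by exact_mod_cast hg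
  rcases le_total (x1 * 2 ^ 40) (m : ℝ) with h | h
  · exact h1 x1 x2 a1 (by linarith) a2 b2
  · exact h2 x1 x2 h (by linarith) a2 b2

theorem cov2_2 {p : Pre} {q q' : Pg} {l3 g3 l4 g4 l1 g1 l2 g2 g m : ℕ}
    (h1 : Cov2 p q l3 g3 q' l4 g4 l1 g1 l2 g) (h2 : Cov2 p q l3 g3 q' l4 g4 l1 g1 m g)
    (hm : m ≤ l2 + 2 * g) (hg : l2 + 2 * g2 ≤ m + 2 * g) :
    Cov2 p q l3 g3 q' l4 g4 l1 g1 l2 g2 := by
  intro x1 x2 a1 b1 a2 b2
  have hm' : (m : ℝ) ≤ l2 + 2 * g := by exact_mod_cast hm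
  have hg' : (l2 : ℝ) + 2 * g2 ≤ m + 2 * g := by exact_mod_cast hg
  rcases le_total (x2 * 2 ^ 40) (m : ℝ) with h | h
  · exact h1 x1 x2 a1 b1 a2 (by linarith)
  · exact h2 x1 x2 a1 b1 h (by linarith)

theorem bb2_aux (p : Pre) (q : Pg) (l3 g3 : ℕ) (q' : Pg) (l4 g4 : ℕ) (fuel : ℕ) :
    ∀ (w l1 g1 l2 g2 : ℕ) (k : ℕ → Bool), bb2 p q l3 g3 q' l4 g4 fuel w l1 g1 l2 g2 k = true →
      Cov2 p q l3 g3 q' l4 g4 l1 g1 l2 g2 ∧ ∃ w', k w' = true := by
  induction fuel with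
  | zero => intro w l1 g1 l2 g2 k h; exact absurd h (by simp [bb2])
  | succ f ih =>
    intro w l1 g1 l2 g2 k h
    have hs : bb2 p q l3 g3 q' l4 g4 (f + 1) w l1 g1 l2 g2 k =
      fN (Nat.div w 18446744073709551616) fun w' =>
      fN (Nat.mod w 18446744073709551616) fun d =>
      Bool.rec
        (Bool.rec
          (Bool.rec false (k w') (leaf2 p q l3 g3 q' l4 g4 (Nat.sub d 2) l1 g1 l2 g2))
          (fN (Nat.div (Nat.succ g2) 2) fun g => fN (Nat.add l2 g2) fun hi =>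
            bb2 p q l3 g3 q' l4 g4 f w' l1 g1 l2 g fun w'' =>
              bb2 p q l3 g3 q' l4 g4 f w'' l1 g1 hi g k)
          (Nat.beq d 1))
        (fN (Nat.div (Nat.succ g1) 2) fun g => fN (Nat.add l1 g1) fun hi =>
          bb2 p q l3 g3 q' l4 g4 f w' l1 g l2 g2 fun w'' =>
            bb2 p q l3 g3 q' l4 g4 f w'' hi g l2 g2 k)
        (Nat.beq d 0) := rfl
    rw [hs, fN_eq, fN_eq] at h
    have hd : ∀ g : ℕ, Nat.div (Nat.succ g) 2 = (g + 1) / 2 := fun _ => rfl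
    have ha : ∀ a b : ℕ, Nat.add a b = a + b := fun _ _ => rfl
    generalize Nat.beq (Nat.mod w 18446744073709551616) 0 = c0 at h
    generalize Nat.beq (Nat.mod w 18446744073709551616) 1 = c1 at h
    cases c0
    · cases c1
      · obtain ⟨h1, h2⟩ := andB h
        exact ⟨leaf2_ok h1, _, h2⟩
      · have h' := h
        simp only [fN_eq] at h'
        obtain ⟨c1, w1, h'⟩ := ih _ _ _ _ _ _ h'
        obtain ⟨c2, w2, h'⟩ := ih _ _ _ _ _ _ h'
        exact ⟨cov2_2 c1 c2 (by rw [hd, ha]; omega) (by rw [hd, ha]; omega), _, h'⟩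
    · have h' := h
      simp only [fN_eq] at h'
      obtain ⟨c1, w1, h'⟩ := ih _ _ _ _ _ _ h'
      obtain ⟨c2, w2, h'⟩ := ih _ _ _ _ _ _ h'
      exact ⟨cov2_1 c1 c2 (by rw [hd, ha]; omega) (by rw [hd, ha]; omega), _, h'⟩

theorem bb2_ok {p : Pre} {q q' : Pg} {l3 g3 l4 g4 fuel w l1 g1 l2 g2 : ℕ}
    (h : bb2 p q l3 g3 q' l4 g4 fuel w l1 g1 l2 g2 (fun _ => true) = true) :
    Cov2 p q l3 g3 q' l4 g4 l1 g1 l2 g2 :=
  (bb2_aux p q l3 g3 q' l4 g4 fuel w l1 g1 l2 g2 _ h).1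

end Pool.Agent.P.MP_4c4e6e_co.Eng
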