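import Pool.Agent.P.MP_ae2765_an.Curves
import Pool.Agent.P.MP_ae2765_an.Defs

/-! The monodromy matrix of the Hill equation in terms of the Prüfer angles. -/

namespace Pool.Agent.HillD
open Real Set Filter Topology

noncomputable def mm (δ : ℝ) : ℝ := δ ^ 2 / (2 * (1 + δ ^ 2))
noncomputable def kap (δ ω : ℝ) : ℝ := √((1 + δ ^ 2) / ω)
noncomputable def tau (δ ω φ : ℝ) : ℝ := (∫ s in (0 : ℝ)..φ, 1 / pm (mm δ) s) / kap δ ω

theorem mm_nonneg (δ : ℝ) : 0 ≤ mm δ := by unfold mm; positivity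

theorem mm_lt (δ : ℝ) : mm δ < 1 / 2 := by
  unfold mm
  rw [div_lt_div_iff₀ (by positivity) (by norm_num)]
  nlinarith

theorem mm_lt_one (δ : ℝ) : mm δ < 1 := by linarith [mm_lt δ]

theorem mm_pos {δ : ℝ} (h : 0 < δ) : 0 < mm δ := by unfold mm; positivity

theorem mm_eq (δ : ℝ) : (1 - 2 * mm δ) * (1 + δ ^ 2) = 1 := by unfold mm; field_simp; ring

theorem mm_strictMono {a b : ℝ} (ha : 0 ≤ a) (h : a < b) : mm a < mm b := by
  unfold mm
  rw [div_lt_div_iff₀ (by positivity) (by positivity)]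
  nlinarith

variable {δ ω : ℝ}

theorem kap_pos (hω : 0 < ω) : 0 < kap δ ω := by unfold kap; positivity

theorem kap_sq (hω : 0 < ω) : kap δ ω ^ 2 * ω = 1 + δ ^ 2 := by
  unfold kap
  rw [sq_sqrt (by positivity)]
  field_simp

theorem inv_pm_cont (δ : ℝ) : Continuous fun s => 1 / pm (mm δ) s :=
  continuous_const.div (pm_cont _) fun t => (pm_pos (mm_lt_one δ) t).ne'

theorem tau_deriv (δ ω φ : ℝ) : HasDerivAt (tau δ ω) (1 / pm (mm δ) φ / kap δ ω) φ :=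
  (hasDerivAt_int (inv_pm_cont δ) φ).div_const _

theorem tau_zero (δ ω : ℝ) : tau δ ω 0 = 0 := by simp [tau]

theorem tau_pi (δ ω : ℝ) : tau δ ω π = period δ ω / 2 := by
  have hc := inv_pm_cont δ
  have e1 : ∫ s in (0 : ℝ)..π, 1 / pm (mm δ) s = 2 * ∫ s in (0 : ℝ)..π / 2, 1 / pm (mm δ) s := by
    rw [← intervalIntegral.integral_add_adjacent_intervals (b := π / 2)
      (hc.intervalIntegrable _ _) (hc.intervalIntegrable _ _), two_mul]
    congr 1
    have := intervalIntegral.integral_comp_sub_left (a := 0) (b := π / 2)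
      (fun s => 1 / pm (mm δ) s) π
    rw [show π - π / 2 = π / 2 by ring, sub_zero] at this
    rw [← this]
    simp [pm, Dm]
  have e2 : ellK (δ / √(2 * (1 + δ ^ 2))) = ∫ s in (0 : ℝ)..π / 2, 1 / pm (mm δ) s := by
    unfold ellK pm Dm mm
    rw [div_pow, sq_sqrt (by positivity)]
  have e3 : √(ω / (1 + δ ^ 2)) = 1 / kap δ ω := by
    unfold kap
    rw [one_div, ← sqrt_inv, inv_div]
  unfold tau period
  rw [e1, e2, e3]
  ring

theorem tau_strictMono (hω : 0 < ω) : StrictMono (tau δ ω) :=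
  strictMono_of_deriv_pos fun x => by
    rw [(tau_deriv δ ω x).deriv]
    have := pm_pos (mm_lt_one δ) x
    have := kap_pos (δ := δ) hω
    positivity

theorem tau_surj (hω : 0 < ω) : Function.Surjective (tau δ ω) := by
  have hk := kap_pos (δ := δ) hω
  have hc : Continuous (tau δ ω) :=
    continuous_iff_continuousAt.2 fun x => (tau_deriv δ ω x).continuousAt
  have hm : Monotone fun x => tau δ ω x - x / kap δ ω := by
    have d : ∀ x, HasDerivAt (fun x => tau δ ω x - x / kap δ ω)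
        (1 / pm (mm δ) x / kap δ ω - 1 / kap δ ω) x :=
      fun x => (tau_deriv δ ω x).fun_sub ((hasDerivAt_id x).div_const _)
    refine monotone_of_deriv_nonneg (fun x => (d x).differentiableAt) fun x => ?_
    rw [(d x).deriv, sub_nonneg]
    refine div_le_div_of_nonneg_right ?_ hk.le
    rw [le_div_iff₀ (pm_pos (mm_lt_one δ) x), one_mul]
    exact pm_le_one (mm_nonneg δ) x
  intro t
  have h1 := hm (show -(|t| * kap δ ω) ≤ 0 by have := abs_nonneg t; nlinarith)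
  have h2 := hm (show 0 ≤ |t| * kap δ ω by positivity)
  simp only [tau_zero, zero_div, sub_zero, neg_div, mul_div_cancel_right₀ _ hk.ne'] at h1 h2
  exact intermediate_value_univ (-(|t| * kap δ ω)) (|t| * kap δ ω) hc
    ⟨by linarith [neg_abs_le t], by linarith [le_abs_self t]⟩

/-- The amplitude: the inverse of `tau`. -/
theorem exists_am (hω : 0 < ω) : ∃ φ : ℝ → ℝ, (∀ x, φ (tau δ ω x) = x) ∧
    ∀ t, HasDerivAt φ (kap δ ω * pm (mm δ) (φ t)) t := by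
  let e := (tau_strictMono (δ := δ) hω).orderIsoOfSurjective _ (tau_surj hω)
  refine ⟨e.symm, fun x => e.symm_apply_apply x, fun t => ?_⟩
  have hk := kap_pos (δ := δ) hω
  have hp := pm_pos (mm_lt_one δ) (e.symm t)
  refine (HasDerivAt.of_local_left_inverse e.symm.continuous.continuousAt
    (tau_deriv δ ω (e.symm t)) (by positivity)
    (Eventually.of_forall fun y => e.apply_symm_apply y)).congr_deriv ?_
  field_simp

theorem duff_of_am (hω : 0 < ω) {φ : ℝ → ℝ}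
    (h : ∀ t, HasDerivAt φ (kap δ ω * pm (mm δ) (φ t)) t) (t : ℝ) :
    HasDerivAt (fun t => δ * cos (φ t)) (-(δ * kap δ ω * (pm (mm δ) (φ t) * sin (φ t)))) t ∧
    HasDerivAt (fun t => -(δ * kap δ ω * (pm (mm δ) (φ t) * sin (φ t))))
      (-(δ * cos (φ t) / ω + (δ * cos (φ t)) ^ 3 / ω)) t := by
  refine ⟨((h t).cos.const_mul δ).congr_deriv (by ring), ?_⟩
  refine (((((pm_deriv (mm_lt_one δ) (φ t)).comp t (h t)).fun_mul (h t).sin).const_mul
    (δ * kap δ ω)).fun_neg).congr_deriv ?_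
  have p2 := pm_sq (mm_lt_one δ) (φ t)
  have k2 := kap_sq (δ := δ) hω
  have d0 := Dm_pos (mm_lt_one δ) (φ t)
  have u : um (mm δ) (φ t) * Dm (mm δ) (φ t) = mm δ := by unfold um; field_simp
  have m2 := mm_eq δ
  have hs := sin_sq_add_cos_sq (φ t)
  have dd : Dm (mm δ) (φ t) = 1 - mm δ * sin (φ t) ^ 2 := rfl
  simp only [Function.comp]
  have : δ * kap δ ω * (-(sin (φ t) * cos (φ t) * um (mm δ) (φ t) * pm (mm δ) (φ t)) *
        (kap δ ω * pm (mm δ) (φ t)) * sin (φ t) +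
        pm (mm δ) (φ t) * (cos (φ t) * (kap δ ω * pm (mm δ) (φ t)))) * ω =
      δ * cos (φ t) + (δ * cos (φ t)) ^ 3 := by
    calc _ = δ * cos (φ t) * (kap δ ω ^ 2 * ω) * (pm (mm δ) (φ t) ^ 2 -
          sin (φ t) ^ 2 * (um (mm δ) (φ t) * pm (mm δ) (φ t) ^ 2)) := by ring
      _ = δ * cos (φ t) * (1 + δ ^ 2) * (1 - 2 * mm δ * sin (φ t) ^ 2) := by
          rw [p2, k2, u, dd]; ring
      _ = _ := by
          linear_combination (δ * cos (φ t) * sin (φ t) ^ 2) * m2 - δ ^ 3 * cos (φ t) * hs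
  rw [← add_div, ← this]
  field_simp

theorem duff_unique {Θ1 Θ2 : ℝ → ℝ} (h1 : IsDuffing δ ω Θ1) (h2 : IsDuffing δ ω Θ2) (t : ℝ) :
    Θ1 t = Θ2 t := by
  obtain ⟨a, a0, a1, ha⟩ := h1
  obtain ⟨b, b0, b1, hb⟩ := h2
  have c1 : Continuous Θ1 := continuous_iff_continuousAt.2 fun t => (ha t).1.continuousAt
  have c2 : Continuous Θ2 := continuous_iff_continuousAt.2 fun t => (hb t).1.continuousAt
  have := lin_zero (a := fun _ => 1) (b := fun t => (1 + Θ1 t ^ 2 + Θ1 t * Θ2 t + Θ2 t ^ 2) / ω)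
    (x := fun t => Θ1 t - Θ2 t) (y := fun t => a t - b t) continuous_const (by fun_prop)
    (fun t => ⟨((ha t).1.fun_sub (hb t).1).congr_deriv (by ring),
      ((ha t).2.fun_sub (hb t).2).congr_deriv (by ring)⟩) (by simp [a0, b0]) (by simp [a1, b1]) t
  linarith [this.1]

theorem cB_mm (hω : 0 < ω) (x : ℝ) :
    kap δ ω ^ 2 * ω * pm (mm δ) x * cB (mm δ) ω x = ω + (δ * cos x) ^ 2 := by
  have hp := pm_pos (mm_lt_one δ) x
  have m2 := mm_eq δ
  rw [kap_sq hω]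
  unfold cB
  field_simp
  linear_combination (ω - cos x ^ 2) * m2

noncomputable def sx (m ω θ0 t : ℝ) : ℝ :=
  rad (cA m ω) (cB m ω) (th m ω θ0) t * sin (th m ω θ0 t)
noncomputable def sy (m ω θ0 t : ℝ) : ℝ :=
  rad (cA m ω) (cB m ω) (th m ω θ0) t * cos (th m ω θ0 t)

theorem s_lin {m : ℝ} (hm : m < 1) (ω θ0 : ℝ) :
    IsLin (cA m ω) (cB m ω) (sx m ω θ0) (sy m ω θ0) :=
  lin_of_ang (cA_cont hm ω) (cB_cont hm ω) (th_spec hm ω θ0).1

theorem sx_zero {m : ℝ} (hm : m < 1) (ω θ0 : ℝ) : sx m ω θ0 0 = sin θ0 := by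
  simp [sx, rad_zero, (th_spec hm ω θ0).2]

theorem sy_zero {m : ℝ} (hm : m < 1) (ω θ0 : ℝ) : sy m ω θ0 0 = cos θ0 := by
  simp [sy, rad_zero, (th_spec hm ω θ0).2]

/-- The monodromy matrix. -/
noncomputable def mono (δ ω : ℝ) : Matrix (Fin 2) (Fin 2) ℝ :=
  !![sx (mm δ) ω (π / 2) π, sx (mm δ) ω 0 π / (kap δ ω * ω);
    kap δ ω * ω * sy (mm δ) ω (π / 2) π, sy (mm δ) ω 0 π]

theorem isMonodromy_iff (hω : 0 < ω) (X : Matrix (Fin 2) (Fin 2) ℝ) :
    IsMonodromy δ ω X ↔ X = mono δ ω := by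
  obtain ⟨φ, φ1, φ2⟩ := exists_am (δ := δ) hω
  have φ0 : φ 0 = 0 := by simpa [tau_zero] using φ1 0
  have φL : φ (period δ ω / 2) = π := by rw [← tau_pi, φ1]
  have hk := kap_pos (δ := δ) hω
  have hm := mm_lt_one δ
  have duff : IsDuffing δ ω fun t => δ * cos (φ t) :=
    ⟨_, by simp [φ0], by simp [φ0], duff_of_am hω φ2⟩
  have sol : ∀ θ0 ρ : ℝ, IsSol (fun t => ω + (δ * cos (φ t)) ^ 2)
      (fun t => ρ * sx (mm δ) ω θ0 (φ t)) fun t => ρ * (kap δ ω * ω * sy (mm δ) ω θ0 (φ t)) := by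
    intro θ0 ρ t
    have l := s_lin hm ω θ0 (φ t)
    have hp := pm_pos hm (φ t)
    constructor
    · refine ((l.1.comp t (φ2 t)).const_mul ρ).congr_deriv ?_
      unfold cA; field_simp
    · refine (((l.2.comp t (φ2 t)).const_mul (kap δ ω * ω)).const_mul ρ).congr_deriv ?_
      simp only
      rw [← cB_mm hω]; ring
  have uniq : ∀ {q ξ ξ' η η' : ℝ → ℝ}, Continuous q → IsSol q ξ ξ' → IsSol q η η' → ξ 0 = η 0 →
      ξ' 0 = η' 0 → ∀ t, ξ t = η t ∧ ξ' t = η' t := by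
    intro q ξ ξ' η η' hq h1 h2 e1 e2 t
    have := lin_zero (a := fun _ => 1) (b := q) (x := fun t => ξ t - η t)
      (y := fun t => ξ' t - η' t) continuous_const hq
      (fun t => ⟨((h1 t).1.fun_sub (h2 t).1).congr_deriv (by ring),
        ((h1 t).2.fun_sub (h2 t).2).congr_deriv (by ring)⟩) (by simp [e1]) (by simp [e2]) t
    constructor <;> linarith [this.1, this.2]
  have i1 : 1 * sx (mm δ) ω (π / 2) (φ 0) = 1 := by simp [φ0, sx_zero hm]
  have i2 : 1 * (kap δ ω * ω * sy (mm δ) ω (π / 2) (φ 0)) = 0 := by simp [φ0, sy_zero hm]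
  have i3 : 1 / (kap δ ω * ω) * sx (mm δ) ω 0 (φ 0) = 0 := by simp [φ0, sx_zero hm]
  have i4 : 1 / (kap δ ω * ω) * (kap δ ω * ω * sy (mm δ) ω 0 (φ 0)) = 1 := by
    rw [φ0, sy_zero hm, cos_zero]; field_simp
  have fin : mono δ ω = !![1 * sx (mm δ) ω (π / 2) (φ (period δ ω / 2)),
      1 / (kap δ ω * ω) * sx (mm δ) ω 0 (φ (period δ ω / 2));
      1 * (kap δ ω * ω * sy (mm δ) ω (π / 2) (φ (period δ ω / 2))),
      1 / (kap δ ω * ω) * (kap δ ω * ω * sy (mm δ) ω 0 (φ (period δ ω / 2)))] := by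
    have e : 1 / (kap δ ω * ω) * (kap δ ω * ω * sy (mm δ) ω 0 π) = sy (mm δ) ω 0 π := by
      field_simp
    rw [φL, e, one_mul, one_mul, mono, div_eq_inv_mul (sx _ _ _ _), one_div]
  constructor
  · rintro ⟨Θ, c, c', s, s', hΘ, hc, c0, c1, hs, s0, s1, rfl⟩
    have eΘ : Θ = fun t => δ * cos (φ t) := funext (duff_unique hΘ duff)
    subst eΘ
    have φc : Continuous φ := continuous_iff_continuousAt.2 fun t => (φ2 t).continuousAt
    have u1 := uniq (by fun_prop) hc (sol (π / 2) 1) (by rw [c0, i1]) (by rw [c1, i2])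
      (period δ ω / 2)
    have u2 := uniq (by fun_prop) hs (sol 0 (1 / (kap δ ω * ω))) (by rw [s0, i3]) (by rw [s1, i4])
      (period δ ω / 2)
    rw [fin, u1.1, u1.2, u2.1, u2.2]
  · rintro rfl
    exact ⟨_, _, _, _, _, duff, sol (π / 2) 1, i1, i2, sol 0 (1 / (kap δ ω * ω)), i3, i4, fin⟩

theorem trace_sq (δ ω : ℝ) :
    (mono δ ω).trace ^ 2 - 4 = 4 * (sy (mm δ) ω (π / 2) π * sx (mm δ) ω 0 π) := by
  have hm := mm_lt_one δ
  have w1 := wronski (s_lin hm ω (π / 2)) (s_lin hm ω 0) π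
  have w2 := wronski_refl (s_lin hm ω (π / 2)) (s_lin hm ω 0) (cA_symm _ _) (cB_symm _ _) π
  simp only [sub_self, sx_zero hm, sy_zero hm, sin_zero, cos_zero, sin_pi_div_two,
    cos_pi_div_two] at w1 w2
  rw [mono, Matrix.trace_fin_two_of]
  have e : sx (mm δ) ω (π / 2) π = sy (mm δ) ω 0 π := by linarith
  rw [e] at w1 ⊢
  linear_combination 4 * w1

theorem mono_10 (hω : 0 < ω) : mono δ ω 1 0 = 0 ↔ ∃ l, 1 ≤ l ∧ ω = cur (π / 2) l (mm δ) := by
  rw [← cos_N_zero (mm_nonneg δ) (mm_lt δ) hω]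
  simp [mono, sy, (kap_pos (δ := δ) hω).ne', hω.ne', (rad_pos _ _ _ _).ne']

theorem mono_01 (hω : 0 < ω) : mono δ ω 0 1 = 0 ↔ ∃ l, 1 ≤ l ∧ ω = cur 0 l (mm δ) := by
  rw [← sin_D_zero (mm_nonneg δ) (mm_lt δ) hω]
  simp [mono, sx, (kap_pos (δ := δ) hω).ne', hω.ne', (rad_pos _ _ _ _).ne']

theorem trace_eq_two (hω : 0 < ω) : |(mono δ ω).trace| = 2 ↔
    ∃ l, 1 ≤ l ∧ (ω = cur (π / 2) l (mm δ) ∨ ω = cur 0 l (mm δ)) := by
  have e := trace_sq δ ω
  have : |(mono δ ω).trace| = 2 ↔ sy (mm δ) ω (π / 2) π * sx (mm δ) ω 0 π = 0 := by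
    rw [← sq_eq_sq₀ (abs_nonneg _) zero_le_two, sq_abs]
    constructor <;> intro h <;> linarith
  rw [this]
  simp only [and_or_left, exists_or, ← cos_N_zero (mm_nonneg δ) (mm_lt δ) hω,
    ← sin_D_zero (mm_nonneg δ) (mm_lt δ) hω]
  simp [sx, sy, (rad_pos _ _ _ _).ne']

theorem two_lt_trace (hω : 0 < ω) : 2 < |(mono δ ω).trace| ↔ ∃ l, 1 ≤ l ∧
    min (cur (π / 2) l (mm δ)) (cur 0 l (mm δ)) < ω ∧
      ω < max (cur (π / 2) l (mm δ)) (cur 0 l (mm δ)) := by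
  have e := trace_sq δ ω
  have : 2 < |(mono δ ω).trace| ↔ 0 < sy (mm δ) ω (π / 2) π * sx (mm δ) ω 0 π := by
    rw [← sq_lt_sq₀ zero_le_two (abs_nonneg _), sq_abs]
    constructor <;> intro h <;> linarith
  rw [this, ← prod_pos_iff (mm_nonneg δ) (mm_lt δ) hω]
  unfold sx sy
  rw [mul_mul_mul_comm, mul_pos_iff_of_pos_left (mul_pos (rad_pos _ _ _ _) (rad_pos _ _ _ _))]

end Pool.Agent.HillD
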