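import Pool.Agent.P.MP_ae2765_an.Eng2

/-! The programs to be checked. -/

namespace Pool.Agent.HillD.Num
open Pool.Agent.P.MP_4c4e6e_co.Eng

def pAng : Pg :=
  (.lt (.sub (.c 1 1) (.v 1))
  (.lt (.sq (.v 1))
  (.rng 0 1 5000
  (.rng 0 1 5000
  (.rng 0 1 5000
  (.lt (.sub (.add (.mul (.v 3) (.sub (.c 1 12) (.mul (.v 3) (.sub (.c 1 5040) (.mul (.v 3) (.sub (.c 1 14968800) (.sm 1 163459296000 (.v 3)))))))) (.v 2)) (.c 1 10000))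
  (.lt (.sub (.add (.mul (.v 6) (.sub (.c 1 2) (.mul (.v 4) (.sub (.c 1 180) (.mul (.v 4) (.sub (.c 1 226800) (.mul (.v 4) (.sub (.c 1 1362160800) (.sm 1 25009272288000 (.v 4)))))))))) (.v 2)) (.c 1 10000))
  (.lt (.sub (.add (.mul (.v 7) (.add (.c 1 2) (.mul (.v 5) (.add (.c 1 720) (.mul (.v 5) (.add (.c 1 3628800) (.sm 1 87178291200 (.v 5)))))))) (.v 2)) (.c 1 10000))
  (.lt (.mul (.v 10) (.v 0))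
  (.lt (.mul (.v 11) (.v 3))
  (.lt (.sqrt (.add (.add (.c 1 1) (.sm 2 1 (.v 0))) (.sq (.v 1))))
  (.lt (.add (.add (.c 1 1) (.v 12)) (.mul (.v 10) (.v 5)))
  (.lt (.mul (.v 11) (.v 5))
  (.lt (.sqrt (.add (.sq (.v 1)) (.sq (.v 0))))
  (.lt (.add (.mul (.add (.c 1 1) (.v 4)) (.v 2)) (.mul (.mul (.v 16) (.v 7)) (.v 1)))
  (.lt (.sub (.mul (.add (.c 1 1) (.v 5)) (.v 2)) (.mul (.mul (.v 17) (.v 8)) (.v 3)))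
  (.lt (.sub (.sub (.sm 231 281 (.v 1)) (.sm 160 281 (.v 0))) (.sm 2769 10000 (.mul (.v 7) (.v 2))))
  (.ite (.sub (.v 0) (.mul (.v 6) (.add (.sm 13 50 (.v 3)) (.sm 803 1250 (.v 18)))))
  .tru
  (.ite (.sub (.v 0) (.mul (.v 6) (.mul (.v 16) (.add (.sm 13 50 (.v 3)) (.sm 2769 10000 (.sqrt (.add (.add (.c 1 1) (.sm 2 1 (.v 11))) (.sq (.v 9)))))))))
  .tru
  .fls)))))))))))))))))))

def pSup : Pg :=
  (.lt (.sq (.v 2))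
  (.lt (.sub (.c 1 1) (.v 0))
  (.lt (.sq (.v 1))
  (.lt (.sq (.v 1))
  (.lt (.mul (.mul (.v 3) (.v 2)) (.sub (.v 5) (.c 3 10)))
  (.lt (.sub (.c 1 1) (.v 5))
  (.lt (.mul (.sm 37 100 (.v 0)) (.v 5))
  (.lt (.mul (.sq (.v 1)) (.v 1))
  (.lt (.add (.add (.v 5) (.sm 2 1 (.v 3))) (.v 4))
  (.lt (.sqrt (.v 0))
  (.lt (.mul (.v 1) (.v 0))
  (.lt (.sub (.c 3 1) (.sm 5 1 (.v 11)))
  (.lt (.add (.sqrt (.add (.add (.add (.mul (.sq (.v 0)) (.v 9)) (.sm 6 1 (.mul (.v 0) (.v 7)))) (.sm 9 1 (.v 8))) (.c 1 50))) (.sm 5 1 (.v 5)))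
  (.lt (.add (.sqrt (.add (.add (.add (.mul (.sq (.v 7)) (.v 10)) (.sm 2 1 (.mul (.v 7) (.v 8)))) (.v 9)) (.c 1 50))) (.v 6))
  (.lt (.add (.c 1 1) (.sm 5 1 (.v 14)))
  (.lt (.add (.sqrt (.add (.add (.add (.mul (.sq (.v 0)) (.v 12)) (.sm 2 1 (.mul (.v 0) (.v 10)))) (.v 11)) (.c 1 50))) (.sm 5 1 (.v 8)))
  (.lt (.sub (.c 1 1) (.sm 5 1 (.v 16)))
  (.lt (.add (.sqrt (.add (.add (.add (.mul (.sq (.v 0)) (.v 14)) (.sm 2 1 (.mul (.v 0) (.v 12)))) (.v 13)) (.c 1 50))) (.sm 5 1 (.v 10)))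
  (.ite (.sub (.mul (.add (.c 16 5) (.sm 5 2 (.v 10))) (.v 7)) (.mul (.v 15) (.v 5)))
  (.ite (.sub (.mul (.mul (.sm 707 500 (.add (.c 33 2) (.sm 23 1 (.v 10)))) (.mul (.v 7) (.v 9))) (.sqrt (.v 8))) (.mul (.mul (.mul (.v 15) (.v 20)) (.sq (.v 5))) (.add (.v 17) (.sm 2 1 (.v 16)))))
  (.ite (.sub (.sm 13 2 (.v 7)) (.mul (.sq (.v 4)) (.v 2)))
  (.ite (.sub (.sm 4 1 (.v 7)) (.mul (.mul (.add (.mul (.v 18) (.v 17)) (.v 11)) (.v 4)) (.v 0)))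
  .tru
  .fls)
  .fls)
  .fls)
  .fls)))))))))))))))))))

def pC2 : Pg :=
  (.lt (.sq (.v 2))
  (.lt (.sq (.v 2))
  (.ite (.sub (.mul (.sm 311 5 (.v 1)) (.sq (.v 0))) (.c 25 4))
  .tru
  (.ite (.sub (.mul (.sm 153 10 (.v 1)) (.v 0)) (.c 5 2))
  .tru
  (.lt (.sm 133 250 (.v 0))
  (.lt (.sm 25 26 (.add (.sm 1 5 (.sq (.v 0))) (.c 21 10000)))
  (.lt (.sm 625 1352 (.sq (.add (.sm 22 125 (.mul (.v 2) (.v 5))) (.c 9 500))))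
  (.lt (.add (.add (.add (.sm 11 500 (.v 2)) (.v 0)) (.sm 1 2 (.v 1))) (.sq (.v 1)))
  (.lt (.sqrt (.add (.c 1 1) (.v 5)))
  (.ite (.sub (.sm 1767 1000 (.sub (.v 7) (.mul (.sm 2 1 (.v 9)) (.inv (.add (.v 0) (.v 9)))))) (.sm 20 3 (.mul (.mul (.v 6) (.v 5)) (.v 1))))
  .tru
  (.lt (.mul (.v 9) (.inv (.add (.c 1 1) (.v 0))))
  (.lt (.mul (.sm 6 1 (.sub (.c 1 1) (.sq (.v 0)))) (.inv (.add (.add (.c 1 1) (.sm 4 1 (.v 0))) (.sq (.v 0)))))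
  (.lt (.sub (.sm 1 2 (.mul (.sub (.c 1 1) (.v 9)) (.sub (.c 4 1) (.v 9)))) (.c 11 500))
  (.ite (.v 0)
  (.ite (.sub (.sm 5 2 (.mul (.v 0) (.v 1))) (.mul (.mul (.v 8) (.v 4)) (.add (.sm 10 3 (.v 10)) (.c 800 9))))
  .tru
  .fls)
  .fls))))))))))))))

def errBody : Pg :=
  (.lt (.sq (.v 0))
  (.rng 0 1 5000
  (.rng 0 1 5000
  (.rng 0 1 5000
  (.lt (.sub (.add (.mul (.v 3) (.sub (.c 1 12) (.mul (.v 3) (.sub (.c 1 5040) (.mul (.v 3) (.sub (.c 1 14968800) (.sm 1 163459296000 (.v 3)))))))) (.v 2)) (.c 1 10000))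
  (.lt (.sub (.add (.mul (.v 5) (.sub (.c 1 2) (.mul (.v 4) (.sub (.c 1 180) (.mul (.v 4) (.sub (.c 1 226800) (.mul (.v 4) (.sub (.c 1 1362160800) (.sm 1 25009272288000 (.v 4)))))))))) (.v 2)) (.c 1 10000))
  (.lt (.sub (.add (.mul (.v 6) (.add (.c 1 2) (.mul (.v 5) (.add (.c 1 720) (.mul (.v 5) (.add (.c 1 3628800) (.sm 1 87178291200 (.v 5)))))))) (.v 2)) (.c 1 10000))
  (.lt (.mul (.v 10) (.v 0))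
  (.lt (.mul (.v 11) (.v 3))
  (.lt (.sq (.v 1))
  (.lt (.sm 2769 10000 (.v 2))
  (.lt (.sq (.v 4))
  (.lt (.sqrt (.add (.add (.c 1 1) (.sm 2 1 (.v 3))) (.v 2)))
  (.lt (.sub (.v 0) (.v 2))
  (.lt (.inv (.v 0))
  (.lt (.add (.sqrt (.add (.sub (.c 17 4) (.sm 12 1 (.v 6))) (.sm 9 1 (.v 5)))) (.sm 3 1 (.v 4)))
  (.lt (.sm 12769 10000 (.add (.mul (.v 4) (.add (.sqrt (.add (.add (.c 36 1) (.sm 12 1 (.v 7))) (.v 6))) (.v 5))) (.v 0)))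
  (.lt (.sm 23 10 (.add (.mul (.v 10) (.add (.sqrt (.add (.sub (.c 65 4) (.sm 8 1 (.v 8))) (.v 7))) (.v 6))) (.v 1)))
  (.lt (.mul (.sm 367 2000 (.mul (.sq (.v 3)) (.v 3))) (.add (.mul (.v 22) (.v 1)) (.mul (.v 23) (.v 0))))
  (.lt (.mul (.sm 2769 10000 (.v 20)) (.sqrt (.add (.add (.c 1 1) (.sm 2 1 (.v 14))) (.v 7))))
  (.lt (.sqrt (.add (.sq (.add (.add (.c 1 1) (.v 22)) (.mul (.v 21) (.v 15)))) (.sq (.mul (.v 21) (.v 14)))))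
  (.ite (.v 7)
  (.ite (.sub (.v 0) (.v 1))
  (.ite (.sub (.mul (.mul (.sqrt (.mul (.v 7) (.inv (.add (.v 0) (.v 1))))) (.v 29)) (.sub (.add (.v 30) (.mul (.v 31) (.v 21))) (.mul (.v 27) (.v 2)))) (.add (.v 32) (.mul (.v 33) (.v 21))))
  (.ite (.sub (.add (.v 34) (.mul (.v 35) (.v 20))) (.mul (.mul (.v 28) (.sq (.v 2))) (.sqrt (.mul (.add (.v 8) (.v 10)) (.inv (.sub (.v 0) (.v 1)))))))
  .tru
  .fls)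
  .fls)
  .fls)
  .fls))))))))))))))))))))))

def r1Body : Pg :=
  (.lt (.mul (.v 5) (.inv (.add (.c 2 1) (.v 5))))
  (.lt (.mul (.v 4) (.inv (.add (.c 3 1) (.v 3))))
  (.lt (.add (.v 1) (.v 0))
  (.lt (.mul (.v 2) (.v 1))
  (.lt (.add (.sm 3 2 (.v 3)) (.sm 5 2 (.v 2)))
  (.lt (.neg (.v 0))
  (.lt (.neg (.sm 1 2 (.add (.mul (.add (.v 3) (.v 1)) (.v 0)) (.sm 4 1 (.v 2)))))
  (.lt (.neg (.sm 1 3 (.add (.mul (.add (.sm 2 1 (.v 4)) (.v 2)) (.v 0)) (.sm 5 1 (.mul (.v 3) (.v 1))))))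
  (.lt (.neg (.sm 1 4 (.add (.mul (.add (.sm 3 1 (.v 5)) (.v 3)) (.v 0)) (.sm 6 1 (.mul (.v 4) (.v 1))))))
  (.lt (.neg (.sm 1 5 (.add (.mul (.add (.sm 4 1 (.v 6)) (.v 4)) (.v 0)) (.sm 7 1 (.mul (.v 5) (.v 1))))))
  (.lt (.neg (.sm 1 6 (.add (.mul (.add (.sm 5 1 (.v 7)) (.v 5)) (.v 0)) (.sm 8 1 (.mul (.v 6) (.v 1))))))
  (.lt (.neg (.sm 1 7 (.add (.mul (.add (.sm 6 1 (.v 8)) (.v 6)) (.v 0)) (.sm 9 1 (.mul (.v 7) (.v 1))))))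
  (.lt (.neg (.sm 1 8 (.add (.mul (.add (.sm 7 1 (.v 9)) (.v 7)) (.v 0)) (.sm 10 1 (.mul (.v 8) (.v 1))))))
  (.lt (.neg (.sm 1 9 (.add (.mul (.add (.sm 8 1 (.v 10)) (.v 8)) (.v 0)) (.sm 11 1 (.mul (.v 9) (.v 1))))))
  (.lt (.neg (.sm 1 10 (.add (.mul (.add (.sm 9 1 (.v 11)) (.v 9)) (.v 0)) (.sm 12 1 (.mul (.v 10) (.v 1))))))
  (.lt (.neg (.sm 1 11 (.add (.mul (.add (.sm 10 1 (.v 12)) (.v 10)) (.v 0)) (.sm 13 1 (.mul (.v 11) (.v 1))))))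
  (.lt (.neg (.sm 1 12 (.add (.mul (.add (.sm 11 1 (.v 13)) (.v 11)) (.v 0)) (.sm 14 1 (.mul (.v 12) (.v 1))))))
  (.lt (.neg (.sm 1 13 (.add (.mul (.add (.sm 12 1 (.v 14)) (.v 12)) (.v 0)) (.sm 15 1 (.mul (.v 13) (.v 1))))))
  (.ite (.sub (.c 1 1000000) (.sq (.v 1)))
  (.ite (.sub (.c 1 1000000) (.sq (.v 0)))
  (.lt (.add (.add (.add (.add (.add (.add (.c 1 1) (.sm 1 2 (.v 11))) (.sm 3 8 (.v 9))) (.sm 5 16 (.v 7))) (.sm 35 128 (.v 5))) (.sm 63 256 (.v 3))) (.sm 231 1024 (.v 1)))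
  (.lt (.add (.add (.add (.add (.add (.sm 1 2 (.v 13)) (.sm 3 8 (.v 11))) (.sm 5 16 (.v 9))) (.sm 35 128 (.v 7))) (.sm 63 256 (.v 5))) (.sm 231 1024 (.v 3)))
  (.lt (.add (.add (.add (.add (.add (.add (.c 1 2) (.sm 3 8 (.v 13))) (.sm 5 16 (.v 11))) (.sm 35 128 (.v 9))) (.sm 63 256 (.v 7))) (.sm 231 1024 (.v 5))) (.sm 429 2048 (.v 3)))
  (.lt (.add (.add (.add (.add (.add (.sm 3 8 (.v 15)) (.sm 5 16 (.v 13))) (.sm 35 128 (.v 11))) (.sm 63 256 (.v 9))) (.sm 231 1024 (.v 7))) (.sm 429 2048 (.v 5)))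
  (.lt (.add (.add (.add (.add (.add (.add (.c 3 8) (.sm 5 16 (.v 15))) (.sm 35 128 (.v 13))) (.sm 63 256 (.v 11))) (.sm 231 1024 (.v 9))) (.sm 429 2048 (.v 7))) (.sm 6435 32768 (.v 5)))
  (.lt (.add (.v 4) (.mul (.v 22) (.v 3)))
  (.lt (.add (.v 4) (.mul (.v 23) (.v 3)))
  (.lt (.add (.v 4) (.mul (.v 24) (.v 3)))
  (.lt (.add (.v 4) (.mul (.v 25) (.v 3)))
  (.lt (.add (.v 3) (.mul (.v 26) (.v 2)))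
  (.lt (.add (.v 3) (.mul (.v 27) (.v 2)))
  (.lt (.add (.v 3) (.mul (.v 28) (.v 2)))
  (.lt (.sm 1 2 (.add (.v 6) (.v 5)))
  (.lt (.sm 1 2 (.add (.v 6) (.v 5)))
  (.lt (.sm 1 2 (.add (.v 6) (.v 5)))
  (.lt (.sm 1 2 (.add (.v 14) (.v 13)))
  (.lt (.sm 1 2 (.add (.v 14) (.v 13)))
  (.lt (.sm 1 2 (.add (.v 14) (.v 13)))
  (.lt (.sm 1 2 (.add (.v 14) (.v 13)))
  (.lt (.sm 1 2 (.add (.v 3) (.v 2)))
  (.lt (.sm 1 2 (.add (.v 3) (.v 2)))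
  (.lt (.sm 1 2 (.add (.v 3) (.v 2)))
  (.lt (.mul (.v 47) (.sm 2 1 (.inv (.add (.c 2 1) (.v 45)))))
  (.lt (.mul (.v 47) (.sm 2 1 (.inv (.add (.c 3 1) (.v 43)))))
  (.lt (.add (.v 14) (.mul (.v 40) (.v 13)))
  (.lt (.add (.v 14) (.mul (.v 41) (.v 13)))
  (.lt (.add (.v 1) (.mul (.v 42) (.v 0)))
  (.lt (.sm 1 2 (.sub (.v 2) (.v 1)))
  (.lt (.sm 1 2 (.sub (.v 18) (.v 17)))
  (.lt (.sm 1 2 (.sub (.v 18) (.v 17)))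
  (.lt (.sm 1 2 (.sub (.v 1) (.v 0)))
  (.lt (.add (.v 18) (.mul (.v 47) (.v 17)))
  (.lt (.add (.v 18) (.mul (.v 48) (.v 17)))
  (.lt (.add (.v 1) (.mul (.v 49) (.v 0)))
  (.lt (.sm 1 2 (.sub (.v 2) (.v 1)))
  (.lt (.add (.v 15) (.mul (.v 51) (.v 14)))
  (.lt (.add (.v 15) (.mul (.v 52) (.v 14)))
  (.lt (.add (.v 1) (.mul (.v 53) (.v 0)))
  (.rng 4989 5011 5000
  (.lt (.mul (.v 12) (.v 0))
  (.rng 4989 5011 5000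
  (.lt (.mul (.mul (.v 17) (.v 13)) (.v 0))
  (.rng 4989 5011 5000
  (.lt (.mul (.mul (.sq (.v 19)) (.v 12)) (.v 0))
  (.rng 4989 5011 5000
  (.lt (.mul (.mul (.v 22) (.v 11)) (.v 0))
  (.rng 4989 5011 5000
  (.lt (.mul (.mul (.mul (.v 24) (.v 23)) (.v 12)) (.v 0))
  (.rng 4989 5011 5000
  (.lt (.mul (.mul (.sq (.v 26)) (.v 11)) (.v 0))
  (.lt (.sm 6367 10000 (.mul (.v 69) (.sqrt (.mul (.add (.c 3 1) (.v 70)) (.inv (.add (.c 2 1) (.v 73)))))))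
  (.lt (.mul (.add (.add (.v 9) (.sm 1 2 (.mul (.add (.c 1 1) (.v 71)) (.v 5)))) (.sm 100 13 (.mul (.sub (.v 69) (.c 1 1)) (.v 0)))) (.inv (.sub (.v 11) (.sm 1 2 (.mul (.v 73) (.v 5))))))
  (.lt (.sub (.v 73) (.mul (.v 74) (.v 0)))
  (.lt (.sub (.c 2 1) (.v 0))
  (.lt (.sub (.c 1 1) (.mul (.v 1) (.v 0)))
  (.lt (.add (.add (.add (.mul (.sub (.sm 2 1 (.mul (.v 76) (.v 3))) (.v 79)) (.v 15)) (.mul (.sub (.c 1 1) (.sm 4 1 (.v 76))) (.v 13))) (.mul (.v 0) (.v 9))) (.mul (.v 77) (.sub (.add (.sub (.sub (.sm 3 1 (.v 11)) (.sm 1 4 (.mul (.sq (.v 1)) (.v 5)))) (.sm 2 1 (.mul (.v 3) (.v 13)))) (.mul (.v 1) (.v 7))) (.mul (.mul (.v 1) (.v 3)) (.v 9)))))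
  (.lt (.sm 20000 169 (.v 5))
  (.ite (.sub (.v 1) (.v 0))
  .tru
  (.ite (.sub (.neg (.v 1)) (.v 0))
  .tru
  (.rng 0 1 1
  (.rng 0 1 1
  (.rng 0 1 1
  (.rng 0 1 1
  (.lt (.mul (.mul (.v 3) (.v 11)) (.v 86))
  (.lt (.mul (.mul (.v 3) (.v 14)) (.v 87))
  (.lt (.mul (.mul (.v 3) (.v 15)) (.v 87))
  (.lt (.mul (.mul (.v 3) (.v 20)) (.v 88))
  (.lt (.sm 1 2 (.v 11))
  (.lt (.add (.add (.sub (.add (.mul (.sub (.sm 6 1 (.mul (.v 87) (.v 90))) (.sm 6 1 (.mul (.sq (.v 87)) (.v 14)))) (.v 26)) (.mul (.sm 12 1 (.mul (.v 87) (.sub (.sm 2 1 (.v 87)) (.c 1 1)))) (.v 24))) (.mul (.sm 3 1 (.mul (.v 13) (.v 11))) (.v 20))) (.mul (.v 88) (.sub (.add (.mul (.sm 6 1 (.mul (.v 87) (.sq (.v 14)))) (.v 26)) (.mul (.sub (.c 6 1) (.sm 24 1 (.v 87))) (.v 22))) (.mul (.sm 3 1 (.mul (.v 12) (.v 11))) (.v 16))))) (.mul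 (.sq (.v 88)) (.add (.sub (.sm 8 1 (.v 1)) (.mul (.sm 2 1 (.mul (.sq (.v 14)) (.v 14))) (.v 26))) (.mul (.mul (.sq (.v 12)) (.v 12)) (.v 4)))))
  (.lt (.sub (.sub (.sm 2 1 (.mul (.v 88) (.v 15))) (.v 91)) (.mul (.v 89) (.sq (.v 15))))
  (.lt (.add (.add (.add (.mul (.v 0) (.add (.sub (.v 26) (.mul (.v 16) (.v 28))) (.mul (.v 2) (.v 22)))) (.mul (.sub (.c 1 1) (.sm 4 1 (.v 89))) (.add (.sub (.v 24) (.mul (.v 16) (.v 26))) (.mul (.v 2) (.v 20))))) (.mul (.v 13) (.add (.sub (.v 20) (.mul (.v 16) (.v 22))) (.mul (.v 2) (.v 18))))) (.mul (.v 90) (.sub (.sm 2 1 (.add (.sub (.v 3) (.mul (.v 16) (.v 24))) (.mul (.v 2) (.v 4)))) (.mul (.sm 2 1 (.sq (.v 2))) (.add (.sub (.v 5) (.mul (.v 16) (.v 18))) (.mul (.v 2) (.v 6)))))))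
  (.lt (.sub (.add (.sub (.add (.add (.add (.v 4) (.sm 3 1 (.mul (.v 3) (.v 5)))) (.sm 3 1 (.mul (.sq (.v 3)) (.v 6)))) (.mul (.mul (.sq (.v 3)) (.v 3)) (.v 7))) (.sm 3 1 (.mul (.v 17) (.add (.add (.v 25) (.sm 2 1 (.mul (.v 3) (.v 21)))) (.mul (.sq (.v 3)) (.v 19)))))) (.sm 3 1 (.mul (.sq (.v 17)) (.add (.v 27) (.mul (.v 3) (.v 23)))))) (.mul (.mul (.sq (.v 17)) (.v 17)) (.v 29)))
  (.ite (.sub (.add (.add (.v 3) (.sm 3 1 (.mul (.v 92) (.v 1)))) (.mul (.sq (.v 92)) (.v 0))) (.sm 6000000 2197 (.v 19)))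
  .tru
  .fls)))))))))))))))))))))))))))))))))))))))))))))))))))))))))))))))))))))))))
  .fls)
  .fls)))))))))))))))))))

def pE1 : Pg :=
  (.lt (.c 1 231945)
  (.lt (.c 21 2500000)
  (.lt (.c 380 9869)
  (.lt (.c 19 200)
  (.lt (.c 171 16450)
  (.lt (.c 621 50000)
  (.lt (.c 13332663 200000)
  (.lt (.c 19 10000)
  (.lt (.v 10)
  (.lt (.mul (.sq (.v 11)) (.v 10))
  (.lt (.mul (.sq (.v 12)) (.sub (.c 1 1) (.v 11)))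
  (.lt (.mul (.sub (.c 1 1) (.v 12)) (.v 13))
  (.lt (.v 13)
  (.lt (.sub (.c 1 1) (.v 14))
  (.lt (.v 14)
  errBody)))))))))))))))

def pE2 : Pg :=
  (.lt (.c 1 649446)
  (.lt (.c 3 250000)
  (.lt (.c 110 9869)
  (.lt (.c 11 400)
  (.lt (.c 583 197400)
  (.lt (.c 53 12500)
  (.lt (.c 14878479 250000)
  (.lt (.sm 113 100 (.v 9))
  (.lt (.c 1 1)
  (.lt (.sm 143 2500 (.sq (.sq (.v 11))))
  (.lt (.sm 2391 10000 (.mul (.sq (.v 12)) (.v 12)))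
  (.lt (.v 13)
  (.lt (.v 13)
  (.lt (.sub (.c 1 1) (.v 14))
  (.lt (.v 14)
  errBody)))))))))))))))

def pE3 : Pg :=
  (.lt (.c 1 649446)
  (.lt (.c 3 250000)
  (.lt (.c 110 9869)
  (.lt (.c 11 400)
  (.lt (.c 583 197400)
  (.lt (.c 53 12500)
  (.lt (.c 14878479 250000)
  (.lt (.sm 113 100 (.v 9))
  (.lt (.c 1 1)
  (.lt (.c 49 500000)
  (.lt (.c 211 100000)
  (.lt (.v 13)
  (.lt (.v 13)
  (.lt (.sub (.c 1 1) (.v 14))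
  (.lt (.v 14)
  errBody)))))))))))))))

def pRA : Pg :=
  (.ite (.sub (.sm 4761 4 (.mul (.mul (.sq (.v 2)) (.sq (.v 1))) (.v 1))) (.c 2 1)) .tru
  (.lt (.mul (.sub (.c 1 1) (.v 1)) (.v 1))
  (.lt (.v 3)
  (.lt (.c 1 1)
  (.lt (.mul (.v 2) (.v 5))
  (.lt (.v 3)
  (.lt (.sub (.c 1 1) (.v 6))
  (.lt (.v 7)
  (.lt (.add (.c 7 10000) (.sm 31 500000 (.mul (.v 5) (.v 3))))
  (.lt (.v 8)
  r1Body))))))))))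

def pRC : Pg :=
  (.ite (.sub (.sm 23716 25 (.mul (.mul (.v 1) (.v 2)) (.sq (.v 2)))) (.sm 2 1 (.sq (.sub (.c 1 1) (.mul (.v 1) (.v 2)))))) .tru
  (.lt (.c 1 1)
  (.lt (.mul (.sub (.c 1 1) (.mul (.v 2) (.v 3))) (.v 2))
  (.lt (.v 4)
  (.lt (.v 5)
  (.lt (.sub (.c 1 1) (.mul (.v 5) (.v 6)))
  (.lt (.mul (.v 6) (.v 7))
  (.lt (.add (.c 31 100000) (.sm 39 500000 (.v 8)))
  (.lt (.v 7)
  r1Body)))))))))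

def p3Step (k : Nat) (p : Pre) : Pre :=
  (.lt (.sub (.sm (Nat.mul k k) 1 (.v 27)) (.c 1 1))
  (.lt (.sub (.sm (Nat.mul (Nat.sub k 1) (Nat.sub k 2)) 1 (.v 27)) (.v 26))
  (.lt (.mul (.v 26) (.v 2))
  (.lt (.add (.mul (.v 27) (.v 4)) (.v 3))
  (.lt (.mul (.v 28) (.v 6))
  (.lt (.mul (.v 3) (.v 11))
  (.lt (.mul (.v 4) (.v 13))
  (.lt (.sub (.mul (.v 5) (.v 15)) (.mul (.v 32) (.v 13)))
  (.lt (.sm 1 (Nat.mul (Nat.add k 1) (Nat.add k 2)) (.add (.mul (.v 7) (.v 5)) (.v 2)))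
  (.lt (.sm 1 (Nat.mul (Nat.add k 1) (Nat.add k 2)) (.add (.mul (.v 8) (.v 5)) (.sub (.v 2) (.mul (.v 37) (.v 3)))))
  (.lt (.sm 1 (Nat.mul (Nat.add k 1) (Nat.add k 2)) (.add (.sub (.mul (.v 9) (.v 5)) (.sm 2 1 (.v 7))) (.v 2)))
  (.lt (.sm 1 (Nat.mul (Nat.add k 1) (Nat.add k 2)) (.add (.mul (.v 10) (.add (.mul (.v 35) (.v 14)) (.v 12))) (.sub (.mul (.v 9) (.v 20)) (.mul (.v 39) (.v 4)))))
  (.lt (.sm 1 (Nat.mul (Nat.add k 1) (Nat.add k 2)) (.add (.sub (.mul (.v 11) (.add (.mul (.v 36) (.v 16)) (.v 14))) (.sm 2 1 (.v 8))) (.sub (.sub (.mul (.v 10) (.v 22)) (.mul (.v 37) (.v 19))) (.mul (.v 40) (.v 4)))))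
  (.lt (.sm 1 (Nat.mul (Nat.add k 1) (Nat.add k 2)) (.add (.sub (.sub (.mul (.v 12) (.mul (.v 37) (.v 18))) (.sm 2 1 (.v 8))) (.v 10)) (.sub (.mul (.v 11) (.v 24)) (.mul (.v 38) (.v 21)))))
  (.lt (.add (.v 26) (.v 5))
  (.lt (.add (.v 28) (.v 5))
  (.lt (.add (.v 30) (.v 5))
  (.lt (.add (.v 32) (.v 5))
  (.lt (.add (.v 34) (.v 5))
  (.lt (.add (.v 36) (.v 5))
  (.lt (.add (.v 38) (.sm (Nat.add k 2) 1 (.v 11)))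
  (.lt (.add (.v 40) (.sm (Nat.add k 2) 1 (.v 11)))
  (.lt (.add (.v 42) (.sm (Nat.add k 2) 1 (.v 11)))
  (.lt (.add (.v 44) (.sm (Nat.add k 2) 1 (.v 11)))
  (.lt (.add (.v 46) (.sm (Nat.add k 2) 1 (.v 11)))
  (.lt (.add (.v 48) (.sm (Nat.add k 2) 1 (.v 11)))
  (.keep [17, 16, 15, 14, 13, 12, 26, 27, 28, 29, 30, 31, 11, 10, 9, 8, 7, 6, 5, 4, 3, 2, 1, 0, 50, 51, 52, 53, 54, 55, 56, 57]
  p)))))))))))))))))))))))))))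

noncomputable def p3Loop (n : Nat) : Nat → Pre :=
  Nat.rec (fun _ => Pre.nil) (fun _ ih k => p3Step k (ih (Nat.add k 2))) n

noncomputable def p3Pre0 : Pre :=
  (.lt (.sq (.v 1))
  (.lt (.sub (.c 10 1) (.sm 2 1 (.v 0)))
  (.lt (.sq (.sm 10 999 (.mul (.v 2) (.v 0))))
  (.lt (.mul (.v 1) (.v 2))
  (.lt (.sm 1 4 (.sq (.v 2)))
  (.rng 0 13 20000000
  (.rng 0 13 1000000
  (.lt (.c 0 1)
  (.lt (.c 1 1)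
  (.keep [0, 1, 1, 1, 1, 1, 1, 1, 1, 1, 1, 1, 0, 1, 1, 1, 1, 1, 1, 1, 1, 1, 1, 1, 5, 4, 6, 3, 2, 10, 8, 7]
  (p3Loop 15 0)))))))))))

noncomputable def p3Pre1 : Pre :=
  (.lt (.sq (.v 1))
  (.lt (.sub (.c 10 1) (.sm 2 1 (.v 0)))
  (.lt (.sq (.sm 10 999 (.mul (.v 2) (.v 0))))
  (.lt (.mul (.v 1) (.v 2))
  (.lt (.sm 1 4 (.sq (.v 2)))
  (.rng 0 13 20000000
  (.rng 0 13 1000000
  (.lt (.c 0 1)
  (.lt (.c 1 1)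
  (.keep [0, 1, 1, 1, 1, 1, 1, 1, 1, 1, 1, 1, 0, 1, 1, 1, 1, 1, 0, 1, 1, 1, 1, 1, 5, 4, 6, 3, 2, 10, 8, 7]
  (p3Loop 15 1)))))))))))

def pPA : Pg :=
  (.rng 4999 5000 5000
  (.lt (.v 1)
  (.lt (.neg (.sm 2 1 (.mul (.mul (.v 34) (.v 1)) (.v 32))))
  (.lt (.mul (.v 35) (.sub (.sm 4 1 (.sq (.v 2))) (.v 2)))
  (.lt (.sq (.v 1))
  (.lt (.mul (.v 2) (.v 3))
  (.lt (.sq (.v 4))
  (.rng 0 2 1
  (.rng 0 2 1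
  (.rng 0 2 1
  (.lt (.add (.v 23) (.sm 3 50000 (.sub (.v 2) (.c 1 1))))
  (.lt (.add (.add (.mul (.v 25) (.v 8)) (.mul (.v 26) (.v 9))) (.sm 3 12500 (.sub (.v 2) (.c 1 1))))
  (.lt (.add (.add (.add (.add (.mul (.v 26) (.v 8)) (.mul (.v 28) (.v 7))) (.mul (.v 29) (.v 6))) (.mul (.v 30) (.v 5))) (.sm 3 3125 (.sub (.v 2) (.c 1 1))))
  (.rng 0 2 1
  (.rng 0 2 1
  (.rng 0 2 1
  (.lt (.add (.v 35) (.sm 1 500 (.sub (.v 2) (.c 1 1))))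
  (.lt (.add (.add (.mul (.v 37) (.v 14)) (.mul (.v 38) (.v 15))) (.sm 1 125 (.sub (.v 2) (.c 1 1))))
  (.lt (.add (.add (.add (.add (.mul (.v 38) (.v 14)) (.mul (.v 40) (.v 13))) (.mul (.v 41) (.v 12))) (.mul (.v 42) (.v 11))) (.sm 4 125 (.sub (.v 2) (.c 1 1))))
  (.lt (.mul (.v 45) (.sub (.v 17) (.mul (.v 48) (.v 16))))
  (.lt (.add (.v 45) (.v 46))
  (.lt (.add (.add (.v 18) (.sm 2 1 (.mul (.v 46) (.v 19)))) (.v 1))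
  (.lt (.sub (.sub (.c 1 1) (.mul (.v 50) (.v 47))) (.v 49))
  (.lt (.mul (.sub (.mul (.v 50) (.v 52)) (.v 51)) (.v 20))
  (.lt (.neg (.mul (.v 50) (.mul (.v 53) (.add (.v 20) (.v 18)))))
  (.lt (.add (.add (.add (.v 21) (.sm 2 1 (.v 19))) (.mul (.v 50) (.v 18))) (.v 0))
  (.lt (.mul (.sub (.mul (.v 53) (.v 55)) (.v 54)) (.v 22))
  (.lt (.inv (.v 6))
  (.lt (.neg (.mul (.v 6) (.sq (.v 0))))
  (.lt (.neg (.mul (.add (.mul (.v 7) (.v 0)) (.mul (.v 3) (.v 1))) (.v 1)))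
  (.lt (.mul (.v 56) (.v 2))
  (.lt (.add (.mul (.v 57) (.v 2)) (.mul (.v 11) (.v 3)))
  (.lt (.add (.add (.mul (.v 58) (.v 2)) (.mul (.v 12) (.v 3))) (.mul (.v 7) (.v 4)))
  (.lt (.inv (.v 10))
  (.lt (.neg (.mul (.v 10) (.sq (.v 0))))
  (.lt (.neg (.mul (.add (.mul (.v 11) (.v 0)) (.mul (.v 8) (.v 1))) (.v 1)))
  (.lt (.mul (.v 15) (.v 2))
  (.lt (.add (.mul (.v 16) (.v 2)) (.mul (.v 15) (.v 3)))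
  (.lt (.add (.add (.mul (.v 17) (.v 2)) (.mul (.v 16) (.v 3))) (.mul (.v 12) (.v 4)))
  (.lt (.sqrt (.v 2))
  (.lt (.inv (.v 0))
  (.lt (.sm 1 2 (.mul (.v 3) (.v 0)))
  (.lt (.sm 1 2 (.mul (.sub (.v 3) (.sq (.v 0))) (.v 1)))
  (.lt (.mul (.v 3) (.v 32))
  (.lt (.add (.mul (.v 4) (.v 32)) (.mul (.v 2) (.v 33)))
  (.lt (.add (.add (.mul (.v 5) (.v 32)) (.mul (.v 3) (.v 33))) (.mul (.v 2) (.v 34)))
  (.lt (.mul (.v 15) (.v 35))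
  (.lt (.add (.mul (.v 16) (.v 35)) (.mul (.v 15) (.v 36)))
  (.lt (.add (.add (.mul (.v 17) (.v 35)) (.mul (.v 16) (.v 36))) (.mul (.v 15) (.v 37)))
  (.lt (.add (.v 32) (.sm 1 2 (.v 2)))
  (.lt (.add (.v 32) (.sm 1 2 (.v 2)))
  (.lt (.add (.v 32) (.sm 1 2 (.v 2)))
  (.lt (.add (.sq (.v 2)) (.sq (.v 8)))
  (.lt (.inv (.v 0))
  (.lt (.mul (.sub (.mul (.v 9) (.v 4)) (.mul (.v 3) (.v 10))) (.v 0))
  (.lt (.mul (.add (.mul (.v 4) (.v 5)) (.mul (.v 10) (.v 11))) (.v 1))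
  (.lt (.sub (.mul (.sub (.mul (.v 10) (.v 6)) (.mul (.v 4) (.v 12))) (.v 2)) (.mul (.v 0) (.v 1)))
  (.lt (.neg (.mul (.v 15) (.sq (.v 16))))
  (.lt (.neg (.mul (.add (.mul (.v 16) (.v 0)) (.mul (.v 15) (.v 17))) (.v 17)))
  (.lt (.mul (.v 28) (.v 18))
  (.lt (.add (.mul (.v 29) (.v 2)) (.mul (.v 28) (.v 19)))
  (.lt (.add (.add (.mul (.v 30) (.v 2)) (.mul (.v 29) (.v 3))) (.mul (.v 28) (.v 20)))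
  (.lt (.inv (.sm 23 25 (.add (.sub (.sm 1 2 (.v 93)) (.sm 1 2 (.v 92))) (.c 57 25))))
  (.lt (.mul (.sq (.v 32)) (.v 32))
  (.lt (.sm 50 49 (.add (.sm 1 16 (.mul (.sq (.v 1)) (.add (.c 16 5) (.sm 5 2 (.v 0))))) (.c 1 1250)))
  (.lt (.sm 1250 2401 (.sq (.add (.sqrt (.sm 31 2500 (.mul (.mul (.sq (.v 2)) (.v 2)) (.add (.c 33 2) (.sm 23 1 (.v 1)))))) (.c 9 1000))))
  (.lt (.add (.v 0) (.sm 11 500 (.mul (.v 3) (.add (.c 1 1) (.sqrt (.sm 137 100 (.v 35)))))))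
  (.lt (.sm 1 2 (.add (.sq (.v 12)) (.c 1 1)))
  (.lt (.add (.add (.sm 4 1 (.v 1)) (.mul (.v 3) (.add (.c 2 1) (.v 0)))) (.sm 11 10 (.mul (.sq (.v 3)) (.add (.c 4 1) (.v 0)))))
  (.lt (.add (.v 14) (.sm 1 4 (.v 8)))
  (.lt (.sm 1001 2500 (.inv (.add (.sqrt (.add (.c 1 1) (.sm 40 999 (.v 101)))) (.sm 1001 5000 (.v 100)))))
  (.lt (.sub (.v 69) (.v 0))
  (.ite (.v 19)
  (.ite (.sub (.c 9 100) (.v 7))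
  (.ite (.v 0)
  (.ite (.sub (.add (.sm 32967 1000 (.v 0)) (.sm 2 1 (.v 2))) (.sm 2 1 (.v 3)))
  .tru
  .fls)
  (.rng 0 2 1
  (.lt (.add (.add (.sm 16 1 (.v 6)) (.mul (.v 8) (.add (.add (.c 8 1) (.sm 4 1 (.v 5))) (.sq (.v 18))))) (.mul (.sq (.v 8)) (.add (.sm 11 10 (.add (.add (.c 16 1) (.sm 4 1 (.v 5))) (.sq (.v 18)))) (.sm 61 100 (.sq (.add (.c 4 1) (.v 5)))))))
  (.lt (.add (.mul (.v 17) (.add (.c 1 1) (.sm 11 10 (.mul (.sub (.v 1) (.c 1 1)) (.v 9))))) (.sm 1 4 (.v 12)))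
  (.lt (.mul (.v 73) (.v 105))
  (.lt (.sm 1001 20000 (.add (.sqrt (.v 108)) (.sqrt (.add (.v 108) (.sm 4 1 (.v 107))))))
  (.lt (.mul (.sm 6 1 (.sub (.c 1 1) (.sq (.v 0)))) (.inv (.add (.add (.c 1 1) (.sm 4 1 (.v 0))) (.sq (.v 0)))))
  (.lt (.sub (.add (.sub (.c 2991 1000) (.sm 7 2 (.v 2))) (.sm 3 4 (.sq (.v 2)))) (.sm 1 4 (.mul (.sq (.sub (.c 2 1) (.v 2))) (.sub (.c 1 1) (.v 47)))))
  (.ite (.v 0)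
  (.ite (.add (.add (.mul (.v 0) (.v 1)) (.mul (.sm 1 2 (.v 77)) (.sub (.v 9) (.v 10)))) (.sm 2 1 (.sub (.v 4) (.v 5))))
  .tru
  .fls)
  .fls)))))))))
  .fls)
  .fls)))))))))))))))))))))))))))))))))))))))))))))))))))))))))))))))))))))))))

def pPB : Pg :=
  (.rng 4999 5000 5000
  (.lt (.c 3 5)
  (.lt (.neg (.sm 2 1 (.mul (.mul (.mul (.v 34) (.v 1)) (.v 32)) (.v 2))))
  (.rng 0 2 1
  (.rng 0 2 1
  (.lt (.add (.v 18) (.sm 3 50000 (.sub (.v 1) (.c 1 1))))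
  (.lt (.add (.add (.mul (.v 20) (.v 3)) (.mul (.v 21) (.v 4))) (.sm 3 12500 (.sub (.v 1) (.c 1 1))))
  (.rng 0 2 1
  (.rng 0 2 1
  (.lt (.add (.v 28) (.sm 1 500 (.sub (.v 1) (.c 1 1))))
  (.lt (.add (.add (.mul (.v 30) (.v 7)) (.mul (.v 31) (.v 8))) (.sm 1 125 (.sub (.v 1) (.c 1 1))))
  (.lt (.mul (.v 37) (.sub (.v 9) (.mul (.v 40) (.v 8))))
  (.lt (.add (.v 37) (.v 38))
  (.lt (.add (.add (.v 10) (.sm 2 1 (.mul (.v 38) (.v 11)))) (.v 1))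
  (.lt (.sub (.sub (.c 1 1) (.mul (.v 42) (.v 39))) (.v 41))
  (.lt (.mul (.sub (.mul (.v 42) (.v 44)) (.v 43)) (.v 12))
  (.lt (.inv (.v 3))
  (.lt (.neg (.mul (.v 3) (.sq (.v 0))))
  (.lt (.mul (.v 44) (.v 1))
  (.lt (.add (.mul (.v 45) (.v 1)) (.mul (.v 7) (.v 2)))
  (.lt (.inv (.v 5))
  (.lt (.neg (.mul (.v 5) (.sq (.v 0))))
  (.lt (.mul (.v 9) (.v 1))
  (.lt (.add (.mul (.v 10) (.v 1)) (.mul (.v 9) (.v 2)))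
  (.lt (.sqrt (.v 1))
  (.lt (.inv (.v 0))
  (.lt (.sm 1 2 (.mul (.v 2) (.v 0)))
  (.lt (.mul (.v 2) (.v 21))
  (.lt (.add (.mul (.v 3) (.v 21)) (.mul (.v 1) (.v 22)))
  (.lt (.mul (.v 10) (.v 23))
  (.lt (.add (.mul (.v 11) (.v 23)) (.mul (.v 10) (.v 24)))
  (.lt (.add (.v 21) (.sm 1 2 (.v 1)))
  (.lt (.add (.v 21) (.sm 1 2 (.v 1)))
  (.lt (.add (.sq (.v 1)) (.sq (.v 5)))
  (.lt (.inv (.v 0))
  (.lt (.mul (.sub (.mul (.v 6) (.v 3)) (.mul (.v 2) (.v 7))) (.v 0))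
  (.lt (.neg (.mul (.v 9) (.sq (.v 10))))
  (.lt (.mul (.v 18) (.v 11))
  (.lt (.add (.mul (.v 19) (.v 1)) (.mul (.v 18) (.v 12)))
  (.lt (.inv (.sm 23 25 (.add (.sub (.sm 1 2 (.v 70)) (.sm 1 2 (.v 69))) (.c 57 25))))
  (.lt (.mul (.sq (.v 21)) (.v 21))
  (.lt (.sm 50 49 (.add (.sm 1 16 (.mul (.sq (.v 1)) (.add (.c 16 5) (.sm 5 2 (.v 0))))) (.c 1 1250)))
  (.lt (.sm 1250 2401 (.sq (.add (.sqrt (.sm 31 2500 (.mul (.mul (.sq (.v 2)) (.v 2)) (.add (.c 33 2) (.sm 23 1 (.v 1)))))) (.c 9 1000))))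
  (.lt (.add (.v 0) (.sm 11 500 (.mul (.v 3) (.add (.c 1 1) (.sqrt (.sm 137 100 (.v 24)))))))
  (.lt (.sm 1 2 (.add (.sq (.v 8)) (.c 1 1)))
  (.lt (.add (.add (.sm 4 1 (.v 1)) (.mul (.v 3) (.add (.c 2 1) (.v 0)))) (.sm 11 10 (.mul (.sq (.v 3)) (.add (.c 4 1) (.v 0)))))
  (.lt (.add (.v 10) (.sm 1 4 (.v 7)))
  (.lt (.sm 1001 2500 (.inv (.add (.sqrt (.add (.c 1 1) (.sm 40 999 (.v 78)))) (.sm 1001 5000 (.v 77)))))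
  (.lt (.sub (.v 46) (.mul (.v 48) (.v 0)))
  (.ite (.v 15)
  (.ite (.sub (.c 9 100) (.v 7))
  (.ite (.v 0)
  (.ite (.sub (.add (.sm 32967 1000 (.v 0)) (.sm 2 1 (.v 2))) (.sm 2 1 (.v 3)))
  .tru
  .fls)
  .fls)
  .fls)
  .fls))))))))))))))))))))))))))))))))))))))))))))))))))

end Pool.Agent.HillD.Num
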