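import Pool.Agent.P.MP_ae2765_an.Cov

/-! The checked statements in terms of real numbers. -/

set_option linter.unusedSimpArgs false
set_option maxRecDepth 4000

namespace Pool.Agent.HillD.Num
open Pool.Agent.P.MP_4c4e6e_co.Eng

theorem Ang_real (t ep z : ℝ) (ht0 : 0 ≤ t) (ht1 : t ≤ 1) (hep0 : 0 ≤ ep) (hep1 : ep ≤ 1) (hz0 : 0 ≤ z) (hz1 : z ≤ 987 / 100) :
    ∀ e : ℝ, e = 1 - ep →
    ∀ zz : ℝ, zz = z ^ 2 →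
    ∀ r0 : ℝ, 0 ≤ r0 → r0 ≤ 1 / 5000 →
    ∀ r1 : ℝ, 0 ≤ r1 → r1 ≤ 1 / 5000 →
    ∀ r2 : ℝ, 0 ≤ r2 → r2 ≤ 1 / 5000 →
    ∀ Xr : ℝ, Xr = zz * (1 / 12 - zz * (1 / 5040 - zz * (1 / 14968800 - 1 / 163459296000 * zz))) + r0 - 1 / 10000 →
    ∀ Xi : ℝ, Xi = z * (1 / 2 - zz * (1 / 180 - zz * (1 / 226800 - zz * (1 / 1362160800 - 1 / 25009272288000 * zz)))) + r1 - 1 / 10000 →
    ∀ Xn : ℝ, Xn = z * (1 / 2 + zz * (1 / 720 + zz * (1 / 3628800 + 1 / 87178291200 * zz))) + r2 - 1 / 10000 →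
    ∀ T : ℝ, T = t * Xn →
    ∀ R : ℝ, R = t * Xr →
    ∀ d : ℝ, d = √(1 + 2 * R + T ^ 2) →
    ∀ Qr : ℝ, Qr = 1 + ep + e * Xr →
    ∀ Qi : ℝ, Qi = e * Xi →
    ∀ Q0 : ℝ, Q0 = √(Qr ^ 2 + Qi ^ 2) →
    ∀ Gr : ℝ, Gr = (1 + R) * Qr + t * Xi * Qi →
    ∀ Gi : ℝ, Gi = (1 + R) * Qi - t * Xi * Qr →
    ∀ yy : ℝ, yy = 231 / 281 * Gr - 160 / 281 * Gi - 2769 / 10000 * (T * Q0) →
    (0 < yy - d * (13 / 50 * Q0 + 803 / 1250 * ep)) ∨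
    0 < yy - d * (e * (13 / 50 * Q0 + 2769 / 10000 * √(1 + 2 * Xr + Xn ^ 2))) := by
  have hc := Ang_cov t ep z (by push_cast; linarith) (by push_cast; linarith) (by push_cast; linarith) (by push_cast; linarith) (by push_cast; linarith) (by push_cast; linarith)
  simp only [pAng, Pg.holds, E.val, List.getD_cons_succ, List.getD_cons_zero, Nat.cast_ofNat, Nat.cast_one,
    Nat.cast_zero, div_one, zero_div, and_true, or_false] at hc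
  exact hc

theorem Sup_real (x y A0 : ℝ) (hx0 : 0 ≤ x) (hx1 : x ≤ 1) (hy0 : 0 ≤ y) (hy1 : y ≤ 13 / 10) (hA00 : 0 ≤ A0) (hA01 : A0 ≤ 1) :
    ∀ p : ℝ, p = x ^ 2 →
    ∀ q : ℝ, q = 1 - p →
    ∀ pp : ℝ, pp = p ^ 2 →
    ∀ qq : ℝ, qq = q ^ 2 →
    ∀ r : ℝ, r = p * q * (y - 3 / 10) →
    ∀ B : ℝ, B = 1 - A0 →
    ∀ mp : ℝ, mp = 37 / 100 * B * p →
    ∀ B3 : ℝ, B3 = B ^ 2 * B →
    ∀ d2 : ℝ, d2 = pp + 2 * r + qq →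
    ∀ d : ℝ, d = √d2 →
    ∀ d3 : ℝ, d3 = d2 * d →
    ∀ a3 : ℝ, a3 = 3 - 5 * A0 →
    ∀ n3 : ℝ, n3 = √(a3 ^ 2 * pp + 6 * (a3 * r) + 9 * qq + 1 / 50) + 5 * mp →
    ∀ yy : ℝ, yy = √(B ^ 2 * pp + 2 * (B * r) + qq + 1 / 50) + mp →
    ∀ a6 : ℝ, a6 = 1 + 5 * A0 →
    ∀ n16 : ℝ, n16 = √(a6 ^ 2 * pp + 2 * (a6 * r) + qq + 1 / 50) + 5 * mp →
    ∀ a5 : ℝ, a5 = 1 - 5 * A0 →
    ∀ n15 : ℝ, n15 = √(a5 ^ 2 * pp + 2 * (a5 * r) + qq + 1 / 50) + 5 * mp →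
    0 < (16 / 5 + 5 / 2 * B3) * d3 - pp * n3 ∧
      0 < 707 / 500 * (33 / 2 + 23 * B3) * (d3 * d2) * √d - pp * x * n3 ^ 2 * (p + 2 * q) ∧
        0 < 13 / 2 * d3 - yy ^ 2 * n16 ∧
          0 < 4 * d3 - (A0 * p + mp) * yy * n15 := by
  have hc := Sup_cov x y A0 (by push_cast; linarith) (by push_cast; linarith) (by push_cast; linarith) (by push_cast; linarith) (by push_cast; linarith) (by push_cast; linarith)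
  simp only [pSup, Pg.holds, E.val, List.getD_cons_succ, List.getD_cons_zero, Nat.cast_ofNat, Nat.cast_one,
    Nat.cast_zero, div_one, zero_div, and_true, or_false] at hc
  exact hc

theorem C2_real (be x s : ℝ) (hbe0 : 0 ≤ be) (hbe1 : be ≤ 1) (hx0 : 0 ≤ x) (hx1 : x ≤ 1) (hs0 : 0 ≤ s) (hs1 : s ≤ 1) :
    ∀ b : ℝ, b = be ^ 2 →
    ∀ io : ℝ, io = x ^ 2 →
    (0 < 311 / 5 * b * io ^ 2 - 25 / 4) ∨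
    (0 < 153 / 10 * b * io - 5 / 2) ∨
    ∀ v : ℝ, v = 133 / 250 * io →
    ∀ bbar : ℝ, bbar = 25 / 26 * (1 / 5 * v ^ 2 + 21 / 10000) →
    ∀ hN : ℝ, hN = 625 / 1352 * (22 / 125 * (io * x) + 9 / 500) ^ 2 →
    ∀ E : ℝ, E = 11 / 500 * v + hN + 1 / 2 * bbar + bbar ^ 2 →
    ∀ rt : ℝ, rt = √(1 + b) →
    (0 < 1767 / 1000 * (s - 2 * be * (rt + be)⁻¹) - 20 / 3 * (b * io * E)) ∨
    ∀ yy : ℝ, yy = be * (1 + rt)⁻¹ →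
    ∀ K : ℝ, K = 6 * (1 - yy ^ 2) * (1 + 4 * yy + yy ^ 2)⁻¹ →
    ∀ cc : ℝ, cc = 1 / 2 * ((1 - s) * (4 - s)) - 11 / 500 →
    0 < cc ∧
      0 < 5 / 2 * (cc * K) - io * E * (10 / 3 * s + 800 / 9) := by
  have hc := C2_cov be x s (by push_cast; linarith) (by push_cast; linarith) (by push_cast; linarith) (by push_cast; linarith) (by push_cast; linarith) (by push_cast; linarith)
  simp only [pC2, Pg.holds, E.val, List.getD_cons_succ, List.getD_cons_zero, Nat.cast_ofNat, Nat.cast_one,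
    Nat.cast_zero, div_one, zero_div, and_true, or_false] at hc
  exact hc

theorem errBody_real {z e ep t k1 k2 f1 f2 cS u0 u1 v0 v1 w0 w1 : ℝ} {tl : List ℝ}
    (hc : errBody.holds (z :: e :: ep :: t :: k1 :: k2 :: f1 :: f2 :: cS :: u0 :: u1 :: v0 :: v1 :: w0 :: w1 :: tl)) :
    ∀ zz : ℝ, zz = z ^ 2 →
    ∀ r0 : ℝ, 0 ≤ r0 → r0 ≤ 1 / 5000 →
    ∀ r1 : ℝ, 0 ≤ r1 → r1 ≤ 1 / 5000 →
    ∀ r2 : ℝ, 0 ≤ r2 → r2 ≤ 1 / 5000 →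
    ∀ Xr : ℝ, Xr = zz * (1 / 12 - zz * (1 / 5040 - zz * (1 / 14968800 - 1 / 163459296000 * zz))) + r0 - 1 / 10000 →
    ∀ Xi : ℝ, Xi = z * (1 / 2 - zz * (1 / 180 - zz * (1 / 226800 - zz * (1 / 1362160800 - 1 / 25009272288000 * zz)))) + r1 - 1 / 10000 →
    ∀ Xn : ℝ, Xn = z * (1 / 2 + zz * (1 / 720 + zz * (1 / 3628800 + 1 / 87178291200 * zz))) + r2 - 1 / 10000 →
    ∀ T : ℝ, T = t * Xn →
    ∀ R : ℝ, R = t * Xr →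
    ∀ T2 : ℝ, T2 = T ^ 2 →
    ∀ TW : ℝ, TW = 2769 / 10000 * T →
    ∀ X2 : ℝ, X2 = Xn ^ 2 →
    ∀ d : ℝ, d = √(1 + 2 * R + T2) →
    ∀ dm : ℝ, dm = d - TW →
    ∀ wb : ℝ, wb = dm⁻¹ →
    ∀ f35 : ℝ, f35 = √(17 / 4 - 12 * R + 9 * T2) + 3 * TW →
    ∀ G1 : ℝ, G1 = 12769 / 10000 * (X2 * (√(36 + 12 * R + T2) + TW) + f35) →
    ∀ G2 : ℝ, G2 = 23 / 10 * (Xn * (√(65 / 4 - 8 * R + T2) + TW) + f35) →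
    ∀ g : ℝ, g = 367 / 2000 * (wb ^ 2 * wb) * (k1 * G1 + k2 * G2) →
    ∀ exW : ℝ, exW = 2769 / 10000 * e * √(1 + 2 * Xr + X2) →
    ∀ Q0 : ℝ, Q0 = √((1 + ep + e * Xr) ^ 2 + (e * Xi) ^ 2) →
    0 < dm ∧
      0 < Q0 - exW ∧
        0 < √(dm * (Q0 + exW)⁻¹) * cS * (u0 + u1 * z - f1 * g) - (v0 + v1 * z) ∧
          0 < w0 + w1 * zz - f2 * g ^ 2 * √((d + TW) * (Q0 - exW)⁻¹) := by
  simp only [errBody, Pg.holds, E.val, List.getD_cons_succ, List.getD_cons_zero, Nat.cast_ofNat, Nat.cast_one,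
    Nat.cast_zero, div_one, zero_div, and_true, or_false] at hc
  exact hc

theorem r1Body_real {w E0 ep e n t ae av : ℝ} {tl : List ℝ}
    (hc : r1Body.holds (w :: E0 :: ep :: e :: n :: t :: ae :: av :: tl)) :
    ∀ ka : ℝ, ka = t * (2 + t)⁻¹ →
    ∀ mu : ℝ, mu = e * (3 + ep)⁻¹ →
    ∀ S : ℝ, S = ka + mu →
    ∀ P : ℝ, P = ka * mu →
    ∀ C : ℝ, C = 3 / 2 * ka + 5 / 2 * mu →
    ∀ g1 : ℝ, g1 = -C →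
    ∀ g2 : ℝ, g2 = -(1 / 2 * ((S + C) * g1 + 4 * P)) →
    ∀ g3 : ℝ, g3 = -(1 / 3 * ((2 * S + C) * g2 + 5 * (P * g1))) →
    ∀ g4 : ℝ, g4 = -(1 / 4 * ((3 * S + C) * g3 + 6 * (P * g2))) →
    ∀ g5 : ℝ, g5 = -(1 / 5 * ((4 * S + C) * g4 + 7 * (P * g3))) →
    ∀ g6 : ℝ, g6 = -(1 / 6 * ((5 * S + C) * g5 + 8 * (P * g4))) →
    ∀ g7 : ℝ, g7 = -(1 / 7 * ((6 * S + C) * g6 + 9 * (P * g5))) →
    ∀ g8 : ℝ, g8 = -(1 / 8 * ((7 * S + C) * g7 + 10 * (P * g6))) →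
    ∀ g9 : ℝ, g9 = -(1 / 9 * ((8 * S + C) * g8 + 11 * (P * g7))) →
    ∀ g10 : ℝ, g10 = -(1 / 10 * ((9 * S + C) * g9 + 12 * (P * g8))) →
    ∀ g11 : ℝ, g11 = -(1 / 11 * ((10 * S + C) * g10 + 13 * (P * g9))) →
    ∀ g12 : ℝ, g12 = -(1 / 12 * ((11 * S + C) * g11 + 14 * (P * g10))) →
    ∀ g13 : ℝ, g13 = -(1 / 13 * ((12 * S + C) * g12 + 15 * (P * g11))) →
    0 < 1 / 1000000 - g12 ^ 2 ∧
      0 < 1 / 1000000 - g13 ^ 2 ∧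
        (∀ nu0 : ℝ, nu0 = 1 + 1 / 2 * g2 + 3 / 8 * g4 + 5 / 16 * g6 + 35 / 128 * g8 + 63 / 256 * g10 + 231 / 1024 * g12 →
        ∀ nu1 : ℝ, nu1 = 1 / 2 * g1 + 3 / 8 * g3 + 5 / 16 * g5 + 35 / 128 * g7 + 63 / 256 * g9 + 231 / 1024 * g11 →
        ∀ nu2 : ℝ, nu2 = 1 / 2 + 3 / 8 * g2 + 5 / 16 * g4 + 35 / 128 * g6 + 63 / 256 * g8 + 231 / 1024 * g10 + 429 / 2048 * g12 →
        ∀ nu3 : ℝ, nu3 = 3 / 8 * g1 + 5 / 16 * g3 + 35 / 128 * g5 + 63 / 256 * g7 + 231 / 1024 * g9 + 429 / 2048 * g11 →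
        ∀ nu4 : ℝ, nu4 = 3 / 8 + 5 / 16 * g2 + 35 / 128 * g4 + 63 / 256 * g6 + 231 / 1024 * g8 + 429 / 2048 * g10 + 6435 / 32768 * g12 →
        ∀ u0 : ℝ, u0 = nu0 + ka * nu1 →
        ∀ u1 : ℝ, u1 = nu1 + ka * nu2 →
        ∀ u2 : ℝ, u2 = nu2 + ka * nu3 →
        ∀ u3 : ℝ, u3 = nu3 + ka * nu4 →
        ∀ uu0 : ℝ, uu0 = u0 + ka * u1 →
        ∀ uu1 : ℝ, uu1 = u1 + ka * u2 →
        ∀ uu2 : ℝ, uu2 = u2 + ka * u3 →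
        ∀ xu0 : ℝ, xu0 = 1 / 2 * (u0 + u1) →
        ∀ xu1 : ℝ, xu1 = 1 / 2 * (u1 + u2) →
        ∀ xu2 : ℝ, xu2 = 1 / 2 * (u2 + u3) →
        ∀ xa0 : ℝ, xa0 = 1 / 2 * (nu0 + nu1) →
        ∀ xa1 : ℝ, xa1 = 1 / 2 * (nu1 + nu2) →
        ∀ xa2 : ℝ, xa2 = 1 / 2 * (nu2 + nu3) →
        ∀ xa3 : ℝ, xa3 = 1 / 2 * (nu3 + nu4) →
        ∀ xx0 : ℝ, xx0 = 1 / 2 * (xa0 + xa1) →
        ∀ xx1 : ℝ, xx1 = 1 / 2 * (xa1 + xa2) →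
        ∀ xx2 : ℝ, xx2 = 1 / 2 * (xa2 + xa3) →
        ∀ a0 : ℝ, a0 = av * (2 * (2 + t)⁻¹) →
        ∀ b0 : ℝ, b0 = ae * (2 * (3 + ep)⁻¹) →
        ∀ uuv0 : ℝ, uuv0 = uu0 + mu * uu1 →
        ∀ uuv1 : ℝ, uuv1 = uu1 + mu * uu2 →
        ∀ N00_0 : ℝ, N00_0 = uuv0 + mu * uuv1 →
        ∀ N01_0 : ℝ, N01_0 = 1 / 2 * (uuv0 - uuv1) →
        ∀ uuy0 : ℝ, uuy0 = 1 / 2 * (uu0 - uu1) →
        ∀ uuy1 : ℝ, uuy1 = 1 / 2 * (uu1 - uu2) →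
        ∀ N02_0 : ℝ, N02_0 = 1 / 2 * (uuy0 - uuy1) →
        ∀ xuv0 : ℝ, xuv0 = xu0 + mu * xu1 →
        ∀ xuv1 : ℝ, xuv1 = xu1 + mu * xu2 →
        ∀ N10_0 : ℝ, N10_0 = xuv0 + mu * xuv1 →
        ∀ N11_0 : ℝ, N11_0 = 1 / 2 * (xuv0 - xuv1) →
        ∀ xxv0 : ℝ, xxv0 = xx0 + mu * xx1 →
        ∀ xxv1 : ℝ, xxv1 = xx1 + mu * xx2 →
        ∀ N20_0 : ℝ, N20_0 = xxv0 + mu * xxv1 →
        ∀ thM0 : ℝ, 4989 / 5000 ≤ thM0 → thM0 ≤ 5011 / 5000 →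
        ∀ M0 : ℝ, M0 = N00_0 * thM0 →
        ∀ theM : ℝ, 4989 / 5000 ≤ theM → theM ≤ 5011 / 5000 →
        ∀ eM : ℝ, eM = b0 * N01_0 * theM →
        ∀ the2 : ℝ, 4989 / 5000 ≤ the2 → the2 ≤ 5011 / 5000 →
        ∀ e2 : ℝ, e2 = b0 ^ 2 * N02_0 * the2 →
        ∀ thaM : ℝ, 4989 / 5000 ≤ thaM → thaM ≤ 5011 / 5000 →
        ∀ aM : ℝ, aM = a0 * N10_0 * thaM →
        ∀ thea : ℝ, 4989 / 5000 ≤ thea → thea ≤ 5011 / 5000 →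
        ∀ ea : ℝ, ea = a0 * b0 * N11_0 * thea →
        ∀ tha2 : ℝ, 4989 / 5000 ≤ tha2 → tha2 ≤ 5011 / 5000 →
        ∀ a2 : ℝ, a2 = a0 ^ 2 * N20_0 * tha2 →
        ∀ pk : ℝ, pk = 6367 / 10000 * (E0 * √((3 + ep) * (2 + t)⁻¹)) →
        ∀ sg : ℝ, sg = (eM + 1 / 2 * ((1 + ep) * aM) + 100 / 13 * ((w - 1) * pk)) * (M0 - 1 / 2 * (n * aM))⁻¹ →
        ∀ s : ℝ, s = e - n * sg →
        ∀ k : ℝ, k = 2 - s →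
        ∀ sk : ℝ, sk = 1 - s * k →
        ∀ F2 : ℝ, F2 = (2 * (e * sg) - ae) * M0 + (1 - 4 * e) * eM + sk * aM + n * (3 * e2 - 1 / 4 * (k ^ 2 * a2) - 2 * (sg * eM) + k * ea - k * sg * aM) →
        ∀ q2 : ℝ, q2 = 20000 / 169 * pk →
        (0 < F2 - q2) ∨
        (0 < -F2 - q2) ∨
        ∀ r0 : ℝ, 0 ≤ r0 → r0 ≤ 1 →
        ∀ r1 : ℝ, 0 ≤ r1 → r1 ≤ 1 →
        ∀ r2 : ℝ, 0 ≤ r2 → r2 ≤ 1 →
        ∀ r3 : ℝ, 0 ≤ r3 → r3 ≤ 1 →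
        ∀ a3 : ℝ, a3 = r0 * a2 * av →
        ∀ a2e : ℝ, a2e = r1 * ea * av →
        ∀ ae2 : ℝ, ae2 = r2 * ea * ae →
        ∀ e3 : ℝ, e3 = r3 * e2 * ae →
        ∀ h : ℝ, h = 1 / 2 * k →
        ∀ l3 : ℝ, l3 = (6 * (e * ae) - 6 * (e ^ 2 * sg)) * M0 + 12 * (e * (2 * e - 1)) * eM - 3 * (s * sk) * aM + n * (6 * (e * sg ^ 2) * M0 + (6 - 24 * e) * e2 - 3 * (k * sk) * a2) + n ^ 2 * (8 * e3 - 2 * (sg ^ 2 * sg) * M0 + k ^ 2 * k * a3) →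
        ∀ c0 : ℝ, c0 = 2 * (e * sg) - ae - n * sg ^ 2 →
        ∀ l12 : ℝ, l12 = c0 * (eM - sg * M0 + h * aM) + (1 - 4 * e) * (e2 - sg * eM + h * ea) + sk * (ea - sg * aM + h * a2) + n * (2 * (e3 - sg * e2 + h * ae2) - 2 * h ^ 2 * (a2e - sg * a2 + h * a3)) →
        ∀ l111 : ℝ, l111 = e3 + 3 * (h * ae2) + 3 * (h ^ 2 * a2e) + h ^ 2 * h * a3 - 3 * (sg * (e2 + 2 * (h * ea) + h ^ 2 * a2)) + 3 * (sg ^ 2 * (eM + h * aM)) - sg ^ 2 * sg * M0 →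
        0 < l3 + 3 * (n * l12) + n ^ 2 * l111 - 6000000 / 2197 * pk) := by
  simp only [r1Body, Pg.holds, E.val, List.getD_cons_succ, List.getD_cons_zero, Nat.cast_ofNat, Nat.cast_one,
    Nat.cast_zero, div_one, zero_div, and_true, or_false] at hc
  exact hc

theorem pPA_real {w t0 t1 t2 t3 t4 t5 m0 m1 m2 m3 m4 m5 y0 y1 y2 y3 y4 y5 h0 h1 h2 h3 h4 h5 A0 B0 Z nu jk al a s1 : ℝ} {tl : List ℝ}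
    (hc : pPA.holds (w :: t0 :: t1 :: t2 :: t3 :: t4 :: t5 :: m0 :: m1 :: m2 :: m3 :: m4 :: m5 :: y0 :: y1 :: y2 :: y3 :: y4 :: y5 :: h0 :: h1 :: h2 :: h3 :: h4 :: h5 :: A0 :: B0 :: Z :: nu :: jk :: al :: a :: s1 :: tl)) :
    ∀ ka : ℝ, 4999 / 5000 ≤ ka → ka ≤ 5000 / 5000 →
    ∀ sg : ℝ, sg = w →
    ∀ d1 : ℝ, d1 = -(2 * (s1 * ka * al)) →
    ∀ d2 : ℝ, d2 = s1 * (4 * ka ^ 2 - ka) →
    ∀ dd : ℝ, dd = d1 ^ 2 →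
    ∀ du : ℝ, du = d1 * sg →
    ∀ uu : ℝ, uu = sg ^ 2 →
    ∀ Ye0 : ℝ, 0 ≤ Ye0 → Ye0 ≤ 2 →
    ∀ Ye1 : ℝ, 0 ≤ Ye1 → Ye1 ≤ 2 →
    ∀ Ye2 : ℝ, 0 ≤ Ye2 → Ye2 ≤ 2 →
    ∀ Y0 : ℝ, Y0 = y0 + 3 / 50000 * (Ye0 - 1) →
    ∀ Y1 : ℝ, Y1 = y1 * d1 + y2 * sg + 3 / 12500 * (Ye1 - 1) →
    ∀ Y2 : ℝ, Y2 = y1 * d2 + y3 * dd + y4 * du + y5 * uu + 3 / 3125 * (Ye2 - 1) →
    ∀ He0 : ℝ, 0 ≤ He0 → He0 ≤ 2 →
    ∀ He1 : ℝ, 0 ≤ He1 → He1 ≤ 2 →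
    ∀ He2 : ℝ, 0 ≤ He2 → He2 ≤ 2 →
    ∀ H0 : ℝ, H0 = h0 + 1 / 500 * (He0 - 1) →
    ∀ H1 : ℝ, H1 = h1 * d1 + h2 * sg + 1 / 125 * (He1 - 1) →
    ∀ H2 : ℝ, H2 = h1 * d2 + h3 * dd + h4 * du + h5 * uu + 4 / 125 * (He2 - 1) →
    ∀ B1 : ℝ, B1 = B0 * (sg - jk * d1) →
    ∀ S0 : ℝ, S0 = A0 + B0 →
    ∀ S1 : ℝ, S1 = d1 + 2 * (A0 * sg) + B1 →
    ∀ dn0 : ℝ, dn0 = 1 - nu * A0 - Z →
    ∀ dn1 : ℝ, dn1 = (Z * jk - nu) * d1 →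
    ∀ B2 : ℝ, B2 = -(B0 * (jk * (d2 + du))) →
    ∀ S2 : ℝ, S2 = d2 + 2 * du + A0 * uu + B2 →
    ∀ dn2 : ℝ, dn2 = (Z * jk - nu) * d2 →
    ∀ iS0 : ℝ, iS0 = S0⁻¹ →
    ∀ iS1 : ℝ, iS1 = -(S1 * iS0 ^ 2) →
    ∀ iS2 : ℝ, iS2 = -((S1 * iS1 + S2 * iS0) * iS0) →
    ∀ AA0 : ℝ, AA0 = B0 * iS0 →
    ∀ AA1 : ℝ, AA1 = B0 * iS1 + B1 * iS0 →
    ∀ AA2 : ℝ, AA2 = B0 * iS2 + B1 * iS1 + B2 * iS0 →
    ∀ idn0 : ℝ, idn0 = dn0⁻¹ →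
    ∀ idn1 : ℝ, idn1 = -(dn1 * idn0 ^ 2) →
    ∀ idn2 : ℝ, idn2 = -((dn1 * idn1 + dn2 * idn0) * idn0) →
    ∀ qq0 : ℝ, qq0 = S0 * idn0 →
    ∀ qq1 : ℝ, qq1 = S0 * idn1 + S1 * idn0 →
    ∀ qq2 : ℝ, qq2 = S0 * idn2 + S1 * idn1 + S2 * idn0 →
    ∀ r0 : ℝ, r0 = √qq0 →
    ∀ ir : ℝ, ir = r0⁻¹ →
    ∀ r1 : ℝ, r1 = 1 / 2 * (qq1 * ir) →
    ∀ r2 : ℝ, r2 = 1 / 2 * ((qq2 - r1 ^ 2) * ir) →
    ∀ Mi0 : ℝ, Mi0 = r0 * Y0 →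
    ∀ Mi1 : ℝ, Mi1 = r0 * Y1 + r1 * Y0 →
    ∀ Mi2 : ℝ, Mi2 = r0 * Y2 + r1 * Y1 + r2 * Y0 →
    ∀ ay0 : ℝ, ay0 = AA0 * Y0 →
    ∀ ay1 : ℝ, ay1 = AA0 * Y1 + AA1 * Y0 →
    ∀ ay2 : ℝ, ay2 = AA0 * Y2 + AA1 * Y1 + AA2 * Y0 →
    ∀ Mr0 : ℝ, Mr0 = H0 + 1 / 2 * ay0 →
    ∀ Mr1 : ℝ, Mr1 = H1 + 1 / 2 * ay1 →
    ∀ Mr2 : ℝ, Mr2 = H2 + 1 / 2 * ay2 →
    ∀ n0 : ℝ, n0 = Mr0 ^ 2 + Mi0 ^ 2 →
    ∀ inn : ℝ, inn = n0⁻¹ →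
    ∀ l1i : ℝ, l1i = (Mi1 * Mr0 - Mr1 * Mi0) * inn →
    ∀ l1r : ℝ, l1r = (Mr1 * Mr0 + Mi1 * Mi0) * inn →
    ∀ l2i : ℝ, l2i = (Mi2 * Mr0 - Mr2 * Mi0) * inn - l1r * l1i →
    ∀ iq1 : ℝ, iq1 = -(r1 * ir ^ 2) →
    ∀ iq2 : ℝ, iq2 = -((r1 * iq1 + r2 * ir) * ir) →
    ∀ Tb0 : ℝ, Tb0 = AA0 * ir →
    ∀ Tb1 : ℝ, Tb1 = AA0 * iq1 + AA1 * ir →
    ∀ Tb2 : ℝ, Tb2 = AA0 * iq2 + AA1 * iq1 + AA2 * ir →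
    ∀ v : ℝ, v = (23 / 25 * (1 / 2 * a - 1 / 2 * al + 57 / 25))⁻¹ →
    ∀ A13 : ℝ, A13 = AA0 ^ 2 * AA0 →
    ∀ bb0 : ℝ, bb0 = 50 / 49 * (1 / 16 * (v ^ 2 * (16 / 5 + 5 / 2 * A13)) + 1 / 1250) →
    ∀ hN : ℝ, hN = 1250 / 2401 * (√(31 / 2500 * (v ^ 2 * v * (33 / 2 + 23 * A13))) + 9 / 1000) ^ 2 →
    ∀ EE : ℝ, EE = hN + 11 / 500 * (v * (1 + √(137 / 100 * AA0))) →
    ∀ at1 : ℝ, at1 = 1 / 2 * (l1i ^ 2 + 1) →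
    ∀ E1 : ℝ, E1 = 4 * EE + bb0 * (2 + at1) + 11 / 10 * (bb0 ^ 2 * (4 + at1)) →
    ∀ I1 : ℝ, I1 = l1i + 1 / 4 * Tb1 →
    ∀ rho : ℝ, rho = 1001 / 2500 * (√(1 + 40 / 999 * a) + 1001 / 5000 * al)⁻¹ →
    ∀ ex : ℝ, ex = sg - rho →
    0 < n0 ∧
      0 < 9 / 100 - bb0 ∧
        ((0 < ex ∧
          0 < 32967 / 1000 * ex + 2 * I1 - 2 * E1) ∨
        ∀ dl : ℝ, 0 ≤ dl → dl ≤ 2 →
        ∀ E2 : ℝ, E2 = 16 * EE + bb0 * (8 + 4 * at1 + l1i ^ 2) + bb0 ^ 2 * (11 / 10 * (16 + 4 * at1 + l1i ^ 2) + 61 / 100 * (4 + at1) ^ 2) →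
        ∀ I2 : ℝ, I2 = l2i * (1 + 11 / 10 * ((dl - 1) * bb0)) + 1 / 4 * Tb2 →
        ∀ s : ℝ, s = sg * al →
        ∀ yy : ℝ, yy = 1001 / 20000 * (√s1 + √(s1 + 4 * a)) →
        ∀ K : ℝ, K = 6 * (1 - yy ^ 2) * (1 + 4 * yy + yy ^ 2)⁻¹ →
        ∀ cc : ℝ, cc = 2991 / 1000 - 7 / 2 * s + 3 / 4 * s ^ 2 - 1 / 4 * ((2 - s) ^ 2 * (1 - AA0)) →
        0 < cc ∧
          0 < cc * K + 1 / 2 * sg * (I1 - E1) + 2 * (I2 - E2)) := by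
  simp only [pPA, Pg.holds, E.val, List.getD_cons_succ, List.getD_cons_zero, Nat.cast_ofNat, Nat.cast_one,
    Nat.cast_zero, div_one, zero_div, and_true, or_false] at hc
  exact hc

theorem pPB_real {w t0 t1 t2 t3 t4 t5 m0 m1 m2 m3 m4 m5 y0 y1 y2 y3 y4 y5 h0 h1 h2 h3 h4 h5 A0 B0 Z nu jk al a s1 : ℝ} {tl : List ℝ}
    (hc : pPB.holds (w :: t0 :: t1 :: t2 :: t3 :: t4 :: t5 :: m0 :: m1 :: m2 :: m3 :: m4 :: m5 :: y0 :: y1 :: y2 :: y3 :: y4 :: y5 :: h0 :: h1 :: h2 :: h3 :: h4 :: h5 :: A0 :: B0 :: Z :: nu :: jk :: al :: a :: s1 :: tl)) :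
    ∀ ka : ℝ, 4999 / 5000 ≤ ka → ka ≤ 5000 / 5000 →
    ∀ sg : ℝ, sg = 3 / 5 →
    ∀ d1 : ℝ, d1 = -(2 * (s1 * ka * al * w)) →
    ∀ Ye0 : ℝ, 0 ≤ Ye0 → Ye0 ≤ 2 →
    ∀ Ye1 : ℝ, 0 ≤ Ye1 → Ye1 ≤ 2 →
    ∀ Y0 : ℝ, Y0 = y0 + 3 / 50000 * (Ye0 - 1) →
    ∀ Y1 : ℝ, Y1 = y1 * d1 + y2 * sg + 3 / 12500 * (Ye1 - 1) →
    ∀ He0 : ℝ, 0 ≤ He0 → He0 ≤ 2 →
    ∀ He1 : ℝ, 0 ≤ He1 → He1 ≤ 2 →
    ∀ H0 : ℝ, H0 = h0 + 1 / 500 * (He0 - 1) →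
    ∀ H1 : ℝ, H1 = h1 * d1 + h2 * sg + 1 / 125 * (He1 - 1) →
    ∀ B1 : ℝ, B1 = B0 * (sg - jk * d1) →
    ∀ S0 : ℝ, S0 = A0 + B0 →
    ∀ S1 : ℝ, S1 = d1 + 2 * (A0 * sg) + B1 →
    ∀ dn0 : ℝ, dn0 = 1 - nu * A0 - Z →
    ∀ dn1 : ℝ, dn1 = (Z * jk - nu) * d1 →
    ∀ iS0 : ℝ, iS0 = S0⁻¹ →
    ∀ iS1 : ℝ, iS1 = -(S1 * iS0 ^ 2) →
    ∀ AA0 : ℝ, AA0 = B0 * iS0 →
    ∀ AA1 : ℝ, AA1 = B0 * iS1 + B1 * iS0 →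
    ∀ idn0 : ℝ, idn0 = dn0⁻¹ →
    ∀ idn1 : ℝ, idn1 = -(dn1 * idn0 ^ 2) →
    ∀ qq0 : ℝ, qq0 = S0 * idn0 →
    ∀ qq1 : ℝ, qq1 = S0 * idn1 + S1 * idn0 →
    ∀ r0 : ℝ, r0 = √qq0 →
    ∀ ir : ℝ, ir = r0⁻¹ →
    ∀ r1 : ℝ, r1 = 1 / 2 * (qq1 * ir) →
    ∀ Mi0 : ℝ, Mi0 = r0 * Y0 →
    ∀ Mi1 : ℝ, Mi1 = r0 * Y1 + r1 * Y0 →
    ∀ ay0 : ℝ, ay0 = AA0 * Y0 →
    ∀ ay1 : ℝ, ay1 = AA0 * Y1 + AA1 * Y0 →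
    ∀ Mr0 : ℝ, Mr0 = H0 + 1 / 2 * ay0 →
    ∀ Mr1 : ℝ, Mr1 = H1 + 1 / 2 * ay1 →
    ∀ n0 : ℝ, n0 = Mr0 ^ 2 + Mi0 ^ 2 →
    ∀ inn : ℝ, inn = n0⁻¹ →
    ∀ l1i : ℝ, l1i = (Mi1 * Mr0 - Mr1 * Mi0) * inn →
    ∀ iq1 : ℝ, iq1 = -(r1 * ir ^ 2) →
    ∀ Tb0 : ℝ, Tb0 = AA0 * ir →
    ∀ Tb1 : ℝ, Tb1 = AA0 * iq1 + AA1 * ir →
    ∀ v : ℝ, v = (23 / 25 * (1 / 2 * a - 1 / 2 * al + 57 / 25))⁻¹ →
    ∀ A13 : ℝ, A13 = AA0 ^ 2 * AA0 →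
    ∀ bb0 : ℝ, bb0 = 50 / 49 * (1 / 16 * (v ^ 2 * (16 / 5 + 5 / 2 * A13)) + 1 / 1250) →
    ∀ hN : ℝ, hN = 1250 / 2401 * (√(31 / 2500 * (v ^ 2 * v * (33 / 2 + 23 * A13))) + 9 / 1000) ^ 2 →
    ∀ EE : ℝ, EE = hN + 11 / 500 * (v * (1 + √(137 / 100 * AA0))) →
    ∀ at1 : ℝ, at1 = 1 / 2 * (l1i ^ 2 + 1) →
    ∀ E1 : ℝ, E1 = 4 * EE + bb0 * (2 + at1) + 11 / 10 * (bb0 ^ 2 * (4 + at1)) →
    ∀ I1 : ℝ, I1 = l1i + 1 / 4 * Tb1 →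
    ∀ rho : ℝ, rho = 1001 / 2500 * (√(1 + 40 / 999 * a) + 1001 / 5000 * al)⁻¹ →
    ∀ ex : ℝ, ex = sg - w * rho →
    0 < n0 ∧
      0 < 9 / 100 - bb0 ∧
        0 < ex ∧
          0 < 32967 / 1000 * ex + 2 * I1 - 2 * E1 := by
  simp only [pPB, Pg.holds, E.val, List.getD_cons_succ, List.getD_cons_zero, Nat.cast_ofNat, Nat.cast_one,
    Nat.cast_zero, div_one, zero_div, and_true, or_false] at hc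
  exact hc

theorem E1_real (x y z0 : ℝ) (hx0 : 0 ≤ x) (hx1 : x ≤ 99 / 500) (hy0 : 0 ≤ y) (hy1 : y ≤ 1) (hz00 : 0 ≤ z0) (hz01 : z0 ≤ 987 / 100) :
    ∃ tl : List ℝ, errBody.holds (z0 :: (1 - y) :: y :: (1 - y) * x :: x ^ 2 * (1 - y) :: x ^ 2 * y :: x :: 19 / 10000 :: 13332663 / 200000 :: 621 / 50000 :: 171 / 16450 :: 19 / 200 :: 380 / 9869 :: 21 / 2500000 :: 1 / 231945 :: tl) := by
  have hc := E1_cov x y z0 (by push_cast; linarith) (by push_cast; linarith) (by push_cast; linarith) (by push_cast; linarith) (by push_cast; linarith) (by push_cast; linarith)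
  simp only [pE1, Pg.holds, E.val, List.getD_cons_succ, List.getD_cons_zero, Nat.cast_ofNat, Nat.cast_one,
    Nat.cast_zero, div_one, zero_div, and_true, or_false] at hc
  exact ⟨_, hc _ rfl _ rfl _ rfl _ rfl _ rfl _ rfl _ rfl _ rfl _ rfl _ rfl _ rfl _ rfl _ rfl _ rfl _ rfl⟩

theorem E2_real (x y z0 : ℝ) (hx0 : 0 ≤ x) (hx1 : x ≤ 21 / 100) (hy0 : 0 ≤ y) (hy1 : y ≤ 29 / 625) (hz00 : 0 ≤ z0) (hz01 : z0 ≤ 987 / 100) :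
    ∃ tl : List ℝ, errBody.holds (z0 :: (1 - y) :: y :: x :: 2391 / 10000 * (x ^ 2 * x) :: 143 / 2500 * (x ^ 2) ^ 2 :: 1 :: 113 / 100 * x :: 14878479 / 250000 :: 53 / 12500 :: 583 / 197400 :: 11 / 400 :: 110 / 9869 :: 3 / 250000 :: 1 / 649446 :: tl) := by
  have hc := E2_cov x y z0 (by push_cast; linarith) (by push_cast; linarith) (by push_cast; linarith) (by push_cast; linarith) (by push_cast; linarith) (by push_cast; linarith)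
  simp only [pE2, Pg.holds, E.val, List.getD_cons_succ, List.getD_cons_zero, Nat.cast_ofNat, Nat.cast_one,
    Nat.cast_zero, div_one, zero_div, and_true, or_false] at hc
  exact ⟨_, hc _ rfl _ rfl _ rfl _ rfl _ rfl _ rfl _ rfl _ rfl _ rfl _ rfl _ rfl _ rfl _ rfl _ rfl _ rfl⟩

theorem E3_real (x y z0 : ℝ) (hx0 : 21 / 100 ≤ x) (hx1 : x ≤ 1) (hy0 : 0 ≤ y) (hy1 : y ≤ 29 / 625) (hz00 : 0 ≤ z0) (hz01 : z0 ≤ 987 / 100) :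
    ∃ tl : List ℝ, errBody.holds (z0 :: (1 - y) :: y :: x :: 211 / 100000 :: 49 / 500000 :: 1 :: 113 / 100 * x :: 14878479 / 250000 :: 53 / 12500 :: 583 / 197400 :: 11 / 400 :: 110 / 9869 :: 3 / 250000 :: 1 / 649446 :: tl) := by
  have hc := E3_cov x y z0 (by push_cast; linarith) (by push_cast; linarith) (by push_cast; linarith) (by push_cast; linarith) (by push_cast; linarith) (by push_cast; linarith)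
  simp only [pE3, Pg.holds, E.val, List.getD_cons_succ, List.getD_cons_zero, Nat.cast_ofNat, Nat.cast_one,
    Nat.cast_zero, div_one, zero_div, and_true, or_false] at hc
  exact ⟨_, hc _ rfl _ rfl _ rfl _ rfl _ rfl _ rfl _ rfl _ rfl _ rfl _ rfl _ rfl _ rfl _ rfl _ rfl _ rfl⟩

theorem RA_real (x y z0 : ℝ) (hx0 : 0 ≤ x) (hx1 : x ≤ 13 / 5) (hy0 : 0 ≤ y) (hy1 : y ≤ 1) (hz00 : 0 ≤ z0) (hz01 : z0 ≤ 2)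
    (hv : 4761 / 4 * (x ^ 2 * y ^ 2 * y) - 2 ≤ 0) :
    ∃ tl : List ℝ, r1Body.holds (z0 :: (7 / 10000 + 31 / 500000 * (x * ((1 - y) * y * x))) :: y :: (1 - y) :: (1 - y) * y :: (1 - y) * y * x :: 1 :: x :: tl) := by
  have hc := RA_cov x y z0 (by push_cast; linarith) (by push_cast; linarith) (by push_cast; linarith) (by push_cast; linarith) (by push_cast; linarith) (by push_cast; linarith)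
  simp only [pRA, Pg.holds, E.val, List.getD_cons_succ, List.getD_cons_zero, Nat.cast_ofNat, Nat.cast_one,
    Nat.cast_zero, div_one, zero_div, and_true, or_false] at hc
  rcases hc with hc | hc
  · exact absurd hc (not_lt.2 hv)
  · exact ⟨_, hc _ rfl _ rfl _ rfl _ rfl _ rfl _ rfl _ rfl _ rfl _ rfl⟩

theorem RB_real (x y z0 : ℝ) (hx0 : 13 / 5 ≤ x) (hx1 : x ≤ 23 / 5) (hy0 : 0 ≤ y) (hy1 : y ≤ 8 / 125) (hz00 : 0 ≤ z0) (hz01 : z0 ≤ 2)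
    (hv : 4761 / 4 * (x ^ 2 * y ^ 2 * y) - 2 ≤ 0) :
    ∃ tl : List ℝ, r1Body.holds (z0 :: (7 / 10000 + 31 / 500000 * (x * ((1 - y) * y * x))) :: y :: (1 - y) :: (1 - y) * y :: (1 - y) * y * x :: 1 :: x :: tl) := by
  have hc := RB_cov x y z0 (by push_cast; linarith) (by push_cast; linarith) (by push_cast; linarith) (by push_cast; linarith) (by push_cast; linarith) (by push_cast; linarith)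
  simp only [pRA, Pg.holds, E.val, List.getD_cons_succ, List.getD_cons_zero, Nat.cast_ofNat, Nat.cast_one,
    Nat.cast_zero, div_one, zero_div, and_true, or_false] at hc
  rcases hc with hc | hc
  · exact absurd hc (not_lt.2 hv)
  · exact ⟨_, hc _ rfl _ rfl _ rfl _ rfl _ rfl _ rfl _ rfl _ rfl _ rfl⟩

theorem RC_real (x y z0 : ℝ) (hx0 : 0 ≤ x) (hx1 : x ≤ 1) (hy0 : 0 ≤ y) (hy1 : y ≤ 57 / 250) (hz00 : 0 ≤ z0) (hz01 : z0 ≤ 2)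
    (hv : 23716 / 25 * (y * x * x ^ 2) - 2 * (1 - y * x) ^ 2 ≤ 0) :
    ∃ tl : List ℝ, r1Body.holds (z0 :: (31 / 100000 + 39 / 500000 * x) :: y * x :: (1 - y * x) :: x :: x :: (1 - y * x) * y :: 1 :: tl) := by
  have hc := RC_cov x y z0 (by push_cast; linarith) (by push_cast; linarith) (by push_cast; linarith) (by push_cast; linarith) (by push_cast; linarith) (by push_cast; linarith)
  simp only [pRC, Pg.holds, E.val, List.getD_cons_succ, List.getD_cons_zero, Nat.cast_ofNat, Nat.cast_one,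
    Nat.cast_zero, div_one, zero_div, and_true, or_false] at hc
  rcases hc with hc | hc
  · exact absurd hc (not_lt.2 hv)
  · exact ⟨_, hc _ rfl _ rfl _ rfl _ rfl _ rfl _ rfl _ rfl _ rfl⟩

theorem P0_real (al xx : ℝ) (h0 : 0 ≤ al) (h1 : al ≤ 3953 / 2500) (h2 : 0 ≤ xx) (h3 : xx ≤ 1) :
    (∀ w : ℝ, 0 ≤ w → w ≤ 3 / 5 → p3Pre0.holds (fun r => pPA.holds (w :: r)) [xx, al]) ∧
    (∀ w : ℝ, 0 ≤ w → w ≤ 1 → p3Pre0.holds (fun r => pPB.holds (w :: r)) [xx, al]) := by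
  have hc := P0_cov al xx (by push_cast; linarith) (by push_cast; linarith) (by push_cast; linarith) (by push_cast; linarith)
  exact ⟨fun w a b => hc.1 w (by push_cast; linarith) (by push_cast; linarith),
    fun w a b => hc.2 w (by push_cast; linarith) (by push_cast; linarith)⟩

theorem P1_real (al xx : ℝ) (h0 : 0 ≤ al) (h1 : al ≤ 3953 / 2500) (h2 : 0 ≤ xx) (h3 : xx ≤ 1) :
    (∀ w : ℝ, 0 ≤ w → w ≤ 3 / 5 → p3Pre1.holds (fun r => pPA.holds (w :: r)) [xx, al]) ∧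
    (∀ w : ℝ, 0 ≤ w → w ≤ 1 → p3Pre1.holds (fun r => pPB.holds (w :: r)) [xx, al]) := by
  have hc := P1_cov al xx (by push_cast; linarith) (by push_cast; linarith) (by push_cast; linarith) (by push_cast; linarith)
  exact ⟨fun w a b => hc.1 w (by push_cast; linarith) (by push_cast; linarith),
    fun w a b => hc.2 w (by push_cast; linarith) (by push_cast; linarith)⟩

end Pool.Agent.HillD.Num
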