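import Mathlib

/-! The checker for one disc and for one branch; only operations on natural numbers and short
lists of integers. -/

namespace Pool.Agent.HillD.S

/-- Evaluate a natural number before continuing. -/
noncomputable def fN {α : Type} (n : ℕ) (k : ℕ → α) : α :=
  Nat.rec (k 0) (fun m _ => k (Nat.succ m)) n

noncomputable def H0 : ℕ := Nat.pow 2 255
noncomputable def M0 : ℕ := Nat.sub (Nat.pow 2 256) 1

/-- Absolute difference. -/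
noncomputable def ad (a b : ℕ) : ℕ := Nat.add (Nat.sub a b) (Nat.sub b a)

noncomputable def tri (n : ℕ) : ℕ := Nat.div (Nat.mul n (Nat.sub n 1)) 2

/-- Value of a list at `2 ^ B`, modulo `Mm + 1`. -/
noncomputable def pk (Mm B : ℕ) (l : List ℤ) : ℕ :=
  List.rec 0 (fun c _ r => Nat.land (Nat.add (Int.rec (fun n => n)
    (fun n => Nat.mul Mm (Nat.succ n)) c) (Nat.shiftLeft r B)) Mm) l

/-- Weighted norm of a list. -/
noncomputable def nl (r : ℕ) (l : List ℤ) : ℕ :=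
  List.rec 0 (fun c _ a => Nat.add (Int.rec (fun n => n) (fun n => Nat.succ n) c) (Nat.mul r a)) l

noncomputable def dl (l : List ℤ) : ℕ → List ℤ :=
  List.rec (fun _ => []) (fun c _ r k => Int.mul (Int.ofNat k) c :: r (Nat.succ k)) l

/-- Derivative of a list. -/
noncomputable def der (l : List ℤ) : List ℤ := List.rec [] (fun _ t _ => dl t 1) l

noncomputable def len (l : List ℤ) : ℕ := List.rec 0 (fun _ _ r => Nat.succ r) l

/-- Approximate value at `a / 32`. -/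
noncomputable def fl (a : ℤ) (l : List ℤ) : ℤ :=
  List.rec 0 (fun c _ r => Int.add c (Int.shiftRight (Int.mul a r) 5)) l

/-- Opposite modulo `Mm + 1`. -/
noncomputable def ng (Mm x : ℕ) : ℕ := Nat.sub (Nat.succ Mm) (Nat.land x Mm)

/-- Weighted sum of the moduli of the first `n` signed digits. -/
noncomputable def nrm (B H Mb r n : ℕ) : ℕ → ℕ :=
  Nat.rec (fun _ => 0) (fun _ ih X => fN (Nat.add X H) fun Y =>
    Nat.add (ad (Nat.land Y Mb) H) (Nat.mul r (ih (Nat.shiftRight Y B)))) n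

/-- The first signed digit, if it is positive. -/
noncomputable def d0 (H Mb X : ℕ) : ℕ := Nat.sub (Nat.land (Nat.add X H) Mb) H

/-- `2 (S - 2 μ) V ^ 2 + 2 μ V T`. -/
noncomputable def uU (Mm S T μ V : ℕ) : ℕ :=
  Nat.land (Nat.mul (Nat.mul 2 V) (Nat.add (Nat.land (Nat.mul (Nat.add S (ng Mm (Nat.mul 2 μ))) V) Mm)
    (Nat.mul μ T))) Mm

/-- The recurrence, with the derivative in the second variable. -/
noncomputable def loop (Mm U0 U1 nV nZ2 Z1 nZ0 nY1 Y0 : ℕ) (k : ℕ → ℕ → ℕ → ℕ → Bool) (J : ℕ) :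
    ℕ → ℕ → ℕ → ℕ → ℕ → Bool :=
  Nat.rec (fun _ P Q P1 Q1 => k P Q P1 Q1) (fun _ ih n P Q P1 Q1 =>
    fN (Nat.add n 2) fun n' => fN (tri (Nat.add n 1)) fun al => fN (tri n') fun be =>
    fN (Nat.add U0 (Nat.mul (Nat.mul n' n') nV)) fun d =>
    fN (Nat.add (Nat.add nZ2 (Nat.mul (Nat.add al be) Z1)) (Nat.mul (Nat.mul al be) nZ0)) fun ab =>
    fN (Nat.land (Nat.add (Nat.mul d P) (Nat.mul ab Q)) Mm) fun P' =>
    fN (Nat.land (Nat.add (Nat.add (Nat.mul d P1) (Nat.mul U1 P))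
      (Nat.add (Nat.mul ab Q1) (Nat.mul (Nat.add nY1 (Nat.mul (Nat.add al be) Y0)) Q))) Mm) fun P1' =>
    ih n' P' P P1' P1) J

/-- Majorant of the diagonal coefficient. -/
noncomputable def dn (C dev v0 v1 vr n : ℕ) : ℕ :=
  Nat.add (Nat.add (ad (Nat.add C (Nat.mul (Nat.mul n n) v1)) (Nat.mul (Nat.mul n n) v0)) dev)
    (Nat.mul (Nat.mul n n) vr)

/-- The majorant recurrence. -/
noncomputable def mj (C dev v0 v1 vr T V0 dW c : ℕ) (k : ℕ → ℕ → Bool) (J : ℕ) :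
    ℕ → ℕ → ℕ → Bool :=
  Nat.rec (fun _ P Q => k P Q) (fun _ ih n P Q =>
    fN (Nat.add n 2) fun n' =>
    fN (Nat.add (Nat.mul (dn C dev v0 v1 vr n') P) (Nat.mul (Nat.mul c
      (Nat.mul (Nat.add (ad V0 (Nat.mul (tri (Nat.add n 1)) T)) dW)
        (Nat.add (ad V0 (Nat.mul (tri n') T)) dW))) Q)) fun P' => ih n' P' P) J

/-- Majorant of `a S - b μ` on the disc of radius `r`. -/
noncomputable def lb (a b S μ0 μ1 r : ℕ) : ℕ :=
  Nat.add (ad (Nat.mul a S) (Nat.mul b μ0)) (Nat.mul (Nat.mul b μ1) r)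

/-- Majorant of the variation of `U` for a perturbation of size `E`. -/
noncomputable def dv (S T μ0 μ1 r Vb dU E : ℕ) : ℕ :=
  Nat.add dU (Nat.mul E (Nat.add (Nat.add (Nat.mul (Nat.mul 4 (lb 1 2 S μ0 μ1 r)) Vb)
    (Nat.mul (Nat.mul 2 (lb 0 1 S μ0 μ1 r)) T)) (Nat.mul (Nat.mul 2 (lb 1 2 S μ0 μ1 r)) E)))

/-- The majorants on the disc of radius `r`. -/
noncomputable def maj (n0 sg ff S T E μ0 μ1 J V0 C dU dV wn r : ℕ) (k : ℕ → ℕ → Bool) : Bool :=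
  fN (dv S T μ0 μ1 r (Nat.add V0 dV) dU E) fun dev => fN (lb 0 1 S μ0 μ1 r) fun mb =>
  fN (Nat.mul T T) fun T2 => fN (Nat.mul (Nat.mul 2 S) T2) fun v0 => fN (Nat.mul μ0 T2) fun v1 =>
  fN (Nat.mul (Nat.mul μ1 r) T2) fun vr => fN (Nat.add dV E) fun dW =>
  mj C dev v0 v1 vr T V0 dW (Nat.mul (Nat.mul mb mb) T2) k J n0
    (Nat.mul wn (Nat.add (dn C dev v0 v1 vr n0)
      (Nat.mul (Nat.mul sg mb) (Nat.mul (Nat.add V0 dW) T)))) (Nat.mul ff wn)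

/-- The packed recurrence. -/
noncomputable def big (n0 sp sn ff S T μ0 μ1 J B Mm : ℕ) (V w : List ℤ)
    (k : ℕ → ℕ → ℕ → ℕ → Bool) : Bool :=
  fN (pk Mm B V) fun v => fN (pk Mm B w) fun ww => fN (Nat.add μ0 (Nat.shiftLeft μ1 B)) fun μ =>
  fN (uU Mm S T μ v) fun U0 =>
  fN (Nat.land (Nat.add (Nat.mul (Nat.mul 4 (Nat.add S (ng Mm (Nat.mul 2 μ)))) v)
    (Nat.mul (Nat.mul 2 μ) T)) Mm) fun U1 =>
  fN (Nat.mul (Nat.add μ (ng Mm (Nat.mul 2 S))) (Nat.mul T T)) fun nV =>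
  fN (Nat.mul (Nat.mul μ T) (Nat.mul μ T)) fun z =>
  fN (Nat.land (Nat.mul z v) Mm) fun Y1 => fN (Nat.mul z T) fun Y0 =>
  fN (Nat.mul (Nat.add sp (Nat.mul sn Mm)) (Nat.mul μ T)) fun s =>
  fN (Nat.land (Nat.mul ww (Nat.add (Nat.add U0 (Nat.mul (Nat.mul n0 n0) nV))
    (Nat.land (Nat.mul s v) Mm))) Mm) fun P =>
  fN (Nat.land (Nat.mul ww (Nat.add U1 s)) Mm) fun P1 =>
  fN (ng Mm (Nat.mul Y1 v)) fun nZ2 => fN (Nat.mul Y1 T) fun Z1 =>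
  fN (ng Mm (Nat.mul Y0 T)) fun nZ0 => fN (ng Mm (Nat.mul 2 Y1)) fun nY1 =>
  loop Mm U0 U1 nV nZ2 Z1 nZ0 nY1 Y0 k J n0 P (Nat.mul ff ww) P1 0

/-- The polynomial packed in `X`, of crude size `cr`, stays above `err` on the unit disc. -/
noncomputable def pos (Mm n X cr err : ℕ) : Bool :=
  fN (d0 H0 M0 X) fun C =>
  and (Nat.blt (Nat.add cr C) H0)
    (Nat.blt (Nat.add (nrm 256 H0 M0 1 n (Nat.add X (ng Mm C))) err) C)

/-- The sign test. -/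
noncomputable def sgn (S μ0 μ1 κ kind Mm n μ : ℕ) (V1 : List ℤ) : Bool :=
  fN (Nat.mul (Nat.mul 2 μ) (Nat.add S (ng Mm (Nat.mul 2 μ)))) fun c =>
  fN (Nat.mul (Nat.mul 2 (lb 0 1 S μ0 μ1 1)) (lb 1 2 S μ0 μ1 1)) fun cb =>
  Bool.rec
    (fN (Nat.mul (lb 3 16 S μ0 μ1 1) μ1) fun b =>
      pos Mm n (Nat.add (Nat.mul (Nat.mul 8 (Nat.mul μ1 μ1)) (pk Mm 256 V1))
        (ng Mm (Nat.add (Nat.mul (Nat.mul (Nat.add (Nat.mul 3 S) (ng Mm (Nat.mul 16 μ))) μ1)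
          (pk Mm 256 (der V1))) (Nat.mul c (pk Mm 256 (der (der V1)))))))
        (Nat.add (Nat.add (Nat.mul (Nat.mul 8 (Nat.mul μ1 μ1)) (nl 1 V1))
          (Nat.mul b (nl 1 (der V1)))) (Nat.mul cb (nl 1 (der (der V1)))))
        (Nat.mul κ (Nat.add (Nat.add (Nat.mul (Nat.mul μ1 μ1) 640) (Nat.mul b 6400))
          (Nat.mul cb 768000))))
    (fN (Nat.mul (lb 1 8 S μ0 μ1 1) μ1) fun b =>
      fN (Nat.add (Nat.mul (Nat.mul (Nat.add S (ng Mm (Nat.mul 8 μ))) μ1) (pk Mm 256 V1))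
        (Nat.mul c (pk Mm 256 (der V1)))) fun X =>
      pos Mm n (Bool.rec (ng Mm X) X (Nat.beq kind 0))
        (Nat.add (Nat.mul b (nl 1 V1)) (Nat.mul cb (nl 1 (der V1))))
        (Nat.mul κ (Nat.add (Nat.mul b 80) (Nat.mul cb 6400))))
    (Nat.ble kind 1)

/-- The final inequalities. -/
noncomputable def fin (E κ B n q Mm bb MP MQ MP1 MQ1 G0 Q0 G1 Q1 : ℕ) : Bool :=
  fN (Nat.pow 2 (Nat.sub B 1)) fun H => fN (Nat.sub (Nat.pow 2 B) 1) fun Mb =>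
  fN (d0 H Mb G1) fun Cn => fN (Nat.pow q n) fun qn =>
  fN (Nat.succ (Nat.div (Nat.mul 2 MP) qn)) fun tP =>
  fN (Nat.succ (Nat.div (Nat.mul 2 MQ) qn)) fun tQ =>
  and (and (Nat.blt (Nat.add MP Cn) H) (Nat.blt MQ H)) (and
    (Nat.ble (Nat.add (Nat.mul 3 (Nat.add (nrm B H Mb 1 n G0) tP))
      (Nat.mul bb (Nat.add (nrm B H Mb 1 n Q0) tQ))) (Nat.mul (Nat.mul 3 κ) Cn))
    (Nat.ble (Nat.mul 16 (Nat.add (Nat.mul E (Nat.add
        (Nat.mul 3 (Nat.add (Nat.mul E (nrm B H Mb 1 n (Nat.add G1 (ng Mm Cn)))) tP))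
        (Nat.mul bb (Nat.add (Nat.mul E (nrm B H Mb 1 n Q1)) tQ))))
      (Nat.mul (Nat.mul 32 κ) (Nat.add (Nat.mul 3 MP1) (Nat.mul bb MQ1)))))
      (Nat.mul (Nat.mul 9 Cn) (Nat.mul E E))))

/-- The check of one disc, centre `μ0 / S`, radius `μ1 / S`. -/
noncomputable def disc (n0 sp sn ff S T μ0 μ1 κ E J n q B kind V0 : ℕ) (Vr w : List ℤ) : Bool :=
  fN (Nat.mul 2 (Nat.add (len Vr) 2)) fun ns => fN (Nat.sub (Nat.pow 2 (Nat.mul 256 ns)) 1) fun Ms =>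
  fN (Nat.add μ0 (Nat.shiftLeft μ1 256)) fun μ =>
  fN (uU Ms S T μ (pk Ms 256 (Int.ofNat V0 :: Vr))) fun U =>
  fN (d0 H0 M0 U) fun C => fN (Nat.add U (ng Ms C)) fun U' =>
  fN (nrm 256 H0 M0 1 ns U') fun dU => fN (nl 1 Vr) fun dV =>
  fN (Nat.add (Nat.add n0 (Nat.mul 2 J)) 2) fun n1 => fN (Nat.add μ0 μ1) fun mb =>
  fN (Nat.add dV (Nat.mul 16 κ)) fun dW =>
  and (and (and (and (Nat.ble 2 q) (Nat.ble 10 n1)) (and (Nat.ble 1 n) (Nat.ble 1 B)))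
    (and (Nat.ble (Nat.mul 32 κ) E) (Nat.ble 1 κ)))
  (and (and (Nat.ble dW V0) (Nat.ble (Nat.mul 2 (Nat.add V0 dW)) (Nat.mul (Nat.mul n1 n1) T)))
  (and (Nat.blt (Nat.add (Nat.mul (Nat.mul 2 (Nat.add V0 dV)) (Nat.add
      (Nat.mul (lb 1 2 S μ0 μ1 1) (Nat.add V0 dV)) (Nat.mul mb T))) C) H0)
  (and (Nat.ble (Nat.add (Nat.mul 4 (Nat.add C (dv S T μ0 μ1 1 (Nat.add V0 dV) dU (Nat.mul 16 κ))))
      (Nat.mul (Nat.mul (Nat.mul 11 mb) (Nat.mul n1 n1)) (Nat.mul T T)))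
      (Nat.mul (Nat.mul (Nat.mul 8 S) (Nat.mul n1 n1)) (Nat.mul T T)))
  (and (sgn S μ0 μ1 κ kind Ms ns μ (dl Vr 1))
  (maj n0 (Nat.add sp sn) ff S T E μ0 μ1 J V0 C (nrm 256 H0 M0 q ns U')
      (Nat.mul q (nl q Vr)) (nl q w) q fun MP MQ =>
    maj n0 (Nat.add sp sn) ff S T E μ0 μ1 J V0 C dU dV (nl 1 w) 1 fun MP1 MQ1 =>
    fN (Nat.sub (Nat.pow 2 (Nat.mul B n)) 1) fun Mm =>
    big n0 sp sn ff S T μ0 μ1 J B Mm (Int.ofNat V0 :: Vr) w
      (fin E κ B n q Mm (Nat.mul (Nat.mul mb T) (Nat.add (ad V0 (Nat.mul (tri n1) T)) dW))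
        MP MQ MP1 MQ1))))))

/-- The data of one disc. -/
structure Dc where
  j : ℕ
  κ : ℕ
  E : ℕ
  J : ℕ
  n : ℕ
  q : ℕ
  B : ℕ
  kind : ℕ
  V0 : ℕ
  Vr : List ℤ
  w : List ℤ

/-- The check of a chain of discs, from the point `y / S` where the branch is within `err` of
`val`. -/
noncomputable def chain (n0 sp sn ff S T : ℕ) (l : List Dc) : ℕ → ℤ → ℕ → Bool :=
  List.rec (fun y _ _ => Nat.ble S (Nat.mul 2 y)) (fun D _ ih y val err =>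
    Dc.rec (fun j κ E J n q B kind V0 Vr w =>
      fN (Nat.add y (Nat.mul 31 j)) fun μ0 => fN (Nat.mul 32 j) fun μ1 =>
      and (and (Nat.ble 1 j) (Nat.ble (Nat.add (Nat.add (Int.natAbs
        (Int.sub val (fl (Int.negSucc 30) (Int.ofNat V0 :: Vr)))) err) 32) (Nat.mul 5 κ)))
      (and (disc n0 sp sn ff S T μ0 μ1 κ E J n q B kind V0 Vr w)
        (fN (Nat.add y (Nat.mul 62 j)) fun y' =>
          ih y' (fl (Int.ofNat 31) (Int.ofNat V0 :: Vr)) (Nat.add (Nat.mul 2 κ) 32)))) D) l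

/-- The check of the branch from `(0, l)`; `fam` is `true` for the even solutions. -/
noncomputable def top (l : ℕ) (fam : Bool) (S T : ℕ) (L : List Dc) : Bool :=
  and (and (Nat.ble 1 S) (Nat.ble 1 T))
    (Bool.rec (chain 1 (Bool.rec 0 1 fam) (Bool.rec 1 0 fam) 1 S T L 0 (Int.ofNat (Nat.mul l T)) 0)
      (chain (Bool.rec 2 0 fam) 0 0 (Bool.rec 1 2 fam) S T L 0 (Int.ofNat (Nat.mul l T)) 0)
      (Nat.beq (Nat.mod l 2) 0))

/-- Decoding of a list of signed numbers of decreasing width. -/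
noncomputable def dec (n : ℕ) : ℕ → ℕ → List ℤ :=
  Nat.rec (fun _ _ => []) (fun _ ih b Z => fN b fun b => fN Z fun Z =>
    Int.subNatNat (Nat.land Z (Nat.sub (Nat.pow 2 b) 1)) (Nat.pow 2 (Nat.sub b 1)) ::
      ih (Nat.sub b 2) (Nat.shiftRight Z b)) n

/-- Decoding of a disc. -/
noncomputable def dc (j κ E J n q B kind V0 a b Z a' b' Z' : ℕ) : Dc :=
  ⟨j, κ, E, J, n, q, B, kind, V0, dec a b Z, dec a' b' Z'⟩

end Pool.Agent.HillD.S
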