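import Pool.Agent.P.MP_ae2765_an.Shape
import Pool.Agent.P.MP_ae2765_an.SEng

/-! Continuants of the three term recurrence of the Fourier coefficients. -/

namespace Pool.Agent.HillD.S
open Real Set Filter Topology Polynomial

section Ring
variable {R : Type} [CommRing R]

/-- The value of the polynomial with coefficient list `l`. -/
def ev (l : List ℤ) (x : R) : R := l.foldr (fun (c : ℤ) (a : R) => (c : R) + x * a) 0

/-- `S T ^ 2 (2 (1 - 2 m) ω ^ 2 + 2 m ω)` for `m = μ / S`, `ω = W / T`. -/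
def gU (S T : ℕ) (μ W : R) : R := 2 * W * ((S - 2 * μ) * W + μ * T)

/-- The diagonal coefficient of row `n`. -/
def gD (S T : ℕ) (μ W : R) (n : ℕ) : R := gU S T μ W - (n : R) ^ 2 * ((2 * S - μ) * (T : R) ^ 2)

/-- The off diagonal coefficients `S T ^ 2 m (ω - c)`. -/
def gA (T : ℕ) (μ W : R) (c : ℕ) : R := μ * T * (W - c * T)

/-- The derivative of `gU` in `W`. -/
def gU1 (S T : ℕ) (μ W : R) : R := 4 * (S - 2 * μ) * W + 2 * μ * T

/-- `J` steps of the recurrence of continuants, from row `n`. -/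
noncomputable def cont (S T : ℕ) (μ W : R) : ℕ → ℕ → R × R → R × R
  | 0, _, p => p
  | J + 1, n, p => cont S T μ W J (n + 2) (gD S T μ W (n + 2) * p.1 -
      gA T μ W (tri (n + 1)) * gA T μ W (tri (n + 2)) * p.2, p.1)

theorem cont_realize : True := by have := @cont.eq_def; trivial

/-- The same recurrence with the derivatives in `W`. -/
noncomputable def cont2 (S T : ℕ) (μ W : R) : ℕ → ℕ → (R × R) × R × R → (R × R) × R × R
  | 0, _, p => p
  | J + 1, n, p => cont2 S T μ W J (n + 2) ((gD S T μ W (n + 2) * p.1.1 -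
      gA T μ W (tri (n + 1)) * gA T μ W (tri (n + 2)) * p.1.2, p.1.1),
      gD S T μ W (n + 2) * p.2.1 + gU1 S T μ W * p.1.1 -
        gA T μ W (tri (n + 1)) * gA T μ W (tri (n + 2)) * p.2.2 -
        μ * T * (gA T μ W (tri (n + 1)) + gA T μ W (tri (n + 2))) * p.1.2, p.2.1)

theorem cont2_realize : True := by have := @cont2.eq_def; trivial

/-- The last two continuants, multiplied by `w`. -/
noncomputable def PQ (n0 sp sn ff S T J : ℕ) (μ W w : R) : R × R :=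
  cont S T μ W J n0 (w * (gD S T μ W n0 + (sp - sn) * (μ * T) * W), ff * w)

/-- The last two continuants and their derivatives in `W`. -/
noncomputable def PQ2 (n0 sp sn ff S T J : ℕ) (μ W w : R) : (R × R) × R × R :=
  cont2 S T μ W J n0 ((w * (gD S T μ W n0 + (sp - sn) * (μ * T) * W), ff * w),
    w * (gU1 S T μ W + (sp - sn) * (μ * T)), 0)

/-- The affine function `μ0 + μ1 x`. -/
def mu (μ0 μ1 : ℕ) (x : R) : R := μ0 + μ1 * x

end Ring

/-- Finite continued fractions. -/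
noncomputable def cf (A B D : ℕ → ℂ) : ℕ → ℕ → ℂ
  | 0, _ => 0
  | k + 1, i => -A i / (D i + B i * cf A B D k (i + 1))

theorem cf_realize : True := by have := @cf.eq_def; trivial

/-- The infinite continued fraction. -/
noncomputable def rho (A B D : ℕ → ℂ) : ℂ := limUnder atTop fun k => cf A B D k 0

/-- Diagonal dominance. -/
def TD (A B D : ℕ → ℂ) : Prop :=
  ∀ i, ∃ γ : ℝ, 0 < γ ∧ ‖A i‖ ≤ γ ∧ ‖B i‖ ≤ 4 / 3 * γ ∧ 7 / 2 * γ ≤ ‖D i‖

noncomputable def tA (T n1 : ℕ) (μ W : ℂ) (i : ℕ) : ℂ := gA T μ W (tri (n1 + 2 * i - 1))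
noncomputable def tB (T n1 : ℕ) (μ W : ℂ) (i : ℕ) : ℂ := gA T μ W (tri (n1 + 2 * i + 2))
noncomputable def tD (S T n1 : ℕ) (μ W : ℂ) (i : ℕ) : ℂ := gD S T μ W (n1 + 2 * i)

/-- Diagonal dominance of the rows `n1, n1 + 2, ...`. -/
def Dom (S T n1 : ℕ) (μ W : ℂ) : Prop := TD (tA T n1 μ W) (tB T n1 μ W) (tD S T n1 μ W)

/-- The coefficient of the tail term. -/
noncomputable def tl (S T n1 : ℕ) (μ W : ℂ) : ℂ :=
  gA T μ W (tri n1) * rho (tA T n1 μ W) (tB T n1 μ W) (tD S T n1 μ W)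

/-- The function which vanishes on the branch. -/
noncomputable def FF (n0 sp sn ff S T J : ℕ) (μ W w : ℂ) : ℂ :=
  (PQ n0 sp sn ff S T J μ W w).1 + tl S T (n0 + 2 * J + 2) μ W * (PQ n0 sp sn ff S T J μ W w).2

/-- The four symmetry types. -/
def Ty (θ0 : ℝ) (l n0 sp sn ff : ℕ) : Prop :=
  (θ0 = π / 2 ∧ l % 2 = 0 ∧ n0 = 0 ∧ sp = 0 ∧ sn = 0 ∧ ff = 2) ∨
  (θ0 = π / 2 ∧ l % 2 = 1 ∧ n0 = 1 ∧ sp = 1 ∧ sn = 0 ∧ ff = 1) ∨
  (θ0 = 0 ∧ l % 2 = 1 ∧ n0 = 1 ∧ sp = 0 ∧ sn = 1 ∧ ff = 1) ∨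
  (θ0 = 0 ∧ l % 2 = 0 ∧ n0 = 2 ∧ sp = 0 ∧ sn = 0 ∧ ff = 1)

/-- The number `X` is the value of `p` at `2 ^ B`, modulo `2 ^ L`. -/
def Rep (L B X : ℕ) (p : ℤ[X]) : Prop := (X : ZMod (2 ^ L)) = aeval ((2 : ZMod (2 ^ L)) ^ B) p

/-- `gU` is within `dU` of `C` on the disc of radius `r`. -/
def UB (S T μ0 μ1 : ℕ) (V : List ℤ) (C r dU : ℕ) : Prop :=
  ∀ x : ℂ, ‖x‖ ≤ r → ‖gU S T (mu μ0 μ1 x) (ev V x) - C‖ ≤ dU

/-- Bounds for the continuants on a product of discs. -/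
def MB (n0 sp sn ff S T J μ0 μ1 : ℕ) (V w : List ℤ) (E r MP MQ : ℕ) : Prop :=
  ∀ x e : ℂ, ‖x‖ ≤ r → ‖e‖ ≤ E →
    ‖(PQ n0 sp sn ff S T J (mu μ0 μ1 x) (ev V x + e) (ev w x)).1‖ ≤ MP ∧
    ‖(PQ n0 sp sn ff S T J (mu μ0 μ1 x) (ev V x + e) (ev w x)).2‖ ≤ MQ

/-- At a zero of the second derivative in `δ` the third one is negative, in terms of `m`. -/
def Good (g : ℝ → ℝ) (m : ℝ) : Prop :=
  (1 - 8 * m) * deriv g m + 2 * m * (1 - 2 * m) * deriv^[2] g m = 0 →
    -8 * deriv g m + (3 - 16 * m) * deriv^[2] g m + 2 * m * (1 - 2 * m) * deriv^[3] g m < 0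

end Pool.Agent.HillD.S

/-! Cauchy estimates for polynomials. -/

namespace Pool.Agent.HillD.S
open Real Set Filter Topology Polynomial Metric

theorem spolya_iter (p : ℂ[X]) (k : ℕ) :
    iteratedDeriv k (fun z => p.eval z) = fun z => (derivative^[k] p).eval z := by
  induction k with
  | zero => simp
  | succ k ih =>
    rw [iteratedDeriv_succ, ih, Function.iterate_succ_apply']
    funext z
    exact Polynomial.deriv _

theorem coeff_le (p : ℂ[X]) {r M : ℝ} (hr : 0 < r) (h : ∀ z, ‖z‖ ≤ r → ‖p.eval z‖ ≤ M) (k : ℕ) :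
    ‖p.coeff k‖ * r ^ k ≤ M := by
  have h1 := Complex.norm_iteratedDeriv_le_of_forall_mem_sphere_norm_le (c := 0)
    (f := fun z => p.eval z) (C := M) k hr p.differentiable.diffContOnCl
    fun z hz => h z (by simpa using (mem_sphere_iff_norm.1 hz).le)
  rw [spolya_iter] at h1
  simp only [← coeff_zero_eq_eval_zero, coeff_iterate_derivative, zero_add,
    Nat.descFactorial_self, nsmul_eq_mul, norm_mul, Complex.norm_natCast] at h1
  rw [le_div_iff₀ (pow_pos hr k), mul_assoc] at h1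
  exact le_of_mul_le_mul_left h1 (Nat.cast_pos.2 k.factorial_pos)

theorem spolya_tail (p : ℂ[X]) (z : ℂ) (n : ℕ) {B t : ℝ} (hB : 0 ≤ B) (h0 : 0 ≤ t)
    (h1 : t ≤ 1 / 2) (h : ∀ i, ‖p.coeff (n + i)‖ * ‖z‖ ^ (n + i) ≤ B * t ^ i) :
    ‖p.eval z - ∑ k ∈ Finset.range n, p.coeff k * z ^ k‖ ≤ 2 * B := by
  rw [eval_eq_sum_range' (n := n + (p.natDegree + 1)) (by omega), Finset.sum_range_add,
    add_sub_cancel_left]
  refine (norm_sum_le _ _).trans ?_
  calc ∑ i ∈ Finset.range (p.natDegree + 1), ‖p.coeff (n + i) * z ^ (n + i)‖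
      ≤ ∑ i ∈ Finset.range (p.natDegree + 1), B * (1 / 2 : ℝ) ^ i := by
        refine Finset.sum_le_sum fun i _ => ?_
        rw [norm_mul, norm_pow]
        exact (h i).trans (mul_le_mul_of_nonneg_left (pow_le_pow_left₀ h0 h1 i) hB)
    _ ≤ 2 * B := by
        rw [← Finset.mul_sum, mul_comm]
        exact mul_le_mul_of_nonneg_right (sum_geometric_two_le _) hB

theorem eval_le_tail (p : ℂ[X]) {q M : ℝ} (hq : 2 ≤ q) (hM : 0 ≤ M) (n : ℕ)
    (h : ∀ k, n ≤ k → ‖p.coeff k‖ * q ^ k ≤ M) {z : ℂ} (hz : ‖z‖ ≤ 1) :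
    ‖p.eval z‖ ≤ ∑ k ∈ Finset.range n, ‖p.coeff k‖ + 2 * M / q ^ n := by
  have hq0 : 0 < q := by linarith
  have h1 := spolya_tail p z n (B := M / q ^ n) (t := 1 / q) (by positivity) (by positivity)
    (one_div_le_one_div_of_le two_pos hq) fun i => by
      refine (mul_le_of_le_one_right (norm_nonneg _) (pow_le_one₀ (norm_nonneg _) hz)).trans ?_
      rw [one_div_pow, div_mul_div_comm, mul_one, ← pow_add, le_div_iff₀ (pow_pos hq0 _)]
      exact h _ (by omega)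
  have h2 : ‖∑ k ∈ Finset.range n, p.coeff k * z ^ k‖ ≤ ∑ k ∈ Finset.range n, ‖p.coeff k‖ := by
    refine (norm_sum_le _ _).trans (Finset.sum_le_sum fun k _ => ?_)
    rw [norm_mul, norm_pow]
    exact mul_le_of_le_one_right (norm_nonneg _) (pow_le_one₀ (norm_nonneg _) hz)
  have h3 := norm_le_insert' (p.eval z) (∑ k ∈ Finset.range n, p.coeff k * z ^ k)
  rw [mul_div_assoc]
  linarith

theorem eval_second (p : ℂ[X]) {E M : ℝ} (hE : 0 < E) (h : ∀ z, ‖z‖ ≤ E → ‖p.eval z‖ ≤ M) {e : ℂ}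
    (he : ‖e‖ ≤ E / 2) : ‖p.eval e - p.coeff 0 - p.coeff 1 * e‖ ≤ 2 * M * (‖e‖ / E) ^ 2 := by
  have hM : 0 ≤ M := (norm_nonneg _).trans (h 0 (by simpa using hE.le))
  have h1 := spolya_tail p e 2 (B := M * (‖e‖ / E) ^ 2) (t := ‖e‖ / E) (by positivity)
    (by positivity) (by rw [div_le_iff₀ hE]; linarith) fun i => by
      have h2 := mul_le_mul_of_nonneg_right (coeff_le p hE h (2 + i))
        (show 0 ≤ (‖e‖ / E) ^ (2 + i) by positivity)
      rw [mul_assoc, ← mul_pow, mul_div_cancel₀ _ hE.ne'] at h2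
      rwa [mul_assoc, ← pow_add]
  simp only [Finset.sum_range_succ, Finset.sum_range_zero, zero_add, pow_zero, mul_one,
    pow_one] at h1
  rwa [sub_sub, mul_assoc]

theorem spolya_aeval (p : ℤ[X]) (z : ℂ) : aeval z p = (p.map (Int.castRingHom ℂ)).eval z := by
  rw [aeval_def, eval_map]
  rfl

theorem spolya_coeff (p : ℤ[X]) (k : ℕ) :
    ‖(p.map (Int.castRingHom ℂ)).coeff k‖ = ((p.coeff k).natAbs : ℝ) := by
  rw [coeff_map, eq_intCast, Complex.norm_intCast, Nat.cast_natAbs, Int.cast_abs]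

theorem aeval_le_deg (p : ℤ[X]) {n r : ℕ} (hn : p.natDegree < n) {z : ℂ} (hz : ‖z‖ ≤ r) :
    ‖aeval z p‖ ≤ ((∑ k ∈ Finset.range n, (p.coeff k).natAbs * r ^ k : ℕ) : ℝ) := by
  rw [spolya_aeval, eval_eq_sum_range' (natDegree_map_le.trans_lt hn)]
  simp only [Nat.cast_sum, Nat.cast_mul, Nat.cast_pow]
  refine (norm_sum_le _ _).trans (Finset.sum_le_sum fun k _ => ?_)
  rw [norm_mul, norm_pow, spolya_coeff]
  exact mul_le_mul_of_nonneg_left (pow_le_pow_left₀ (norm_nonneg _) hz k) (Nat.cast_nonneg _)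

theorem icoeff_le (p : ℤ[X]) {r M : ℝ} (hr : 0 < r) (h : ∀ z : ℂ, ‖z‖ ≤ r → ‖aeval z p‖ ≤ M)
    (k : ℕ) : ((p.coeff k).natAbs : ℝ) * r ^ k ≤ M := by
  rw [← spolya_coeff]
  exact coeff_le _ hr (fun z hz => spolya_aeval p z ▸ h z hz) k

theorem aeval_le_tail (p : ℤ[X]) {q M : ℝ} (hq : 2 ≤ q) (hM : 0 ≤ M) (n : ℕ)
    (h : ∀ k, n ≤ k → ((p.coeff k).natAbs : ℝ) * q ^ k ≤ M) {z : ℂ} (hz : ‖z‖ ≤ 1) :
    ‖aeval z p‖ ≤ ((∑ k ∈ Finset.range n, (p.coeff k).natAbs * 1 ^ k : ℕ) : ℝ) + 2 * M / q ^ n := by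
  have h1 := eval_le_tail (p.map (Int.castRingHom ℂ)) hq hM n
    (fun k hk => by rw [spolya_coeff]; exact h k hk) hz
  rw [spolya_aeval]
  simp only [spolya_coeff] at h1
  simpa only [one_pow, mul_one, Nat.cast_sum] using h1

end Pool.Agent.HillD.S

/-! Ring morphisms and continuants. -/

namespace Pool.Agent.HillD.S
open Real Set Filter Topology Polynomial Metric

section
variable {R R' : Type} [CommRing R] [CommRing R'] (φ : R →+* R')

theorem map_ev (l : List ℤ) (x : R) : φ (ev l x) = ev l (φ x) := by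
  induction l with
  | nil => simp [ev]
  | cons c l ih =>
    simp only [ev, List.foldr_cons, map_add, map_mul, map_intCast] at ih ⊢
    rw [ih]

theorem map_mu (μ0 μ1 : ℕ) (x : R) : φ (mu μ0 μ1 x) = mu μ0 μ1 (φ x) := by
  simp [mu]

theorem map_gU (S T : ℕ) (μ W : R) : φ (gU S T μ W) = gU S T (φ μ) (φ W) := by
  simp [gU, map_ofNat]

theorem spoly_gD (S T n : ℕ) (μ W : R) : φ (gD S T μ W n) = gD S T (φ μ) (φ W) n := by
  simp [gD, map_gU, map_ofNat]

theorem spoly_gA (T c : ℕ) (μ W : R) : φ (gA T μ W c) = gA T (φ μ) (φ W) c := by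
  simp [gA]

theorem spoly_gU1 (S T : ℕ) (μ W : R) : φ (gU1 S T μ W) = gU1 S T (φ μ) (φ W) := by
  simp [gU1, map_ofNat]

theorem spoly_cont (S T J n : ℕ) (μ W : R) (p : R × R) :
    Prod.map φ φ (cont S T μ W J n p) = cont S T (φ μ) (φ W) J n (Prod.map φ φ p) := by
  induction J generalizing n p with
  | zero => rfl
  | succ J ih =>
    rw [cont, cont, ih]
    simp [spoly_gD, spoly_gA]

theorem spoly_cont2 (S T J n : ℕ) (μ W : R) (p : (R × R) × R × R) :
    Prod.map (Prod.map φ φ) (Prod.map φ φ) (cont2 S T μ W J n p) =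
      cont2 S T (φ μ) (φ W) J n (Prod.map (Prod.map φ φ) (Prod.map φ φ) p) := by
  induction J generalizing n p with
  | zero => rfl
  | succ J ih =>
    rw [cont2, cont2, ih]
    simp [spoly_gD, spoly_gA, spoly_gU1]

theorem map_PQ (n0 sp sn ff S T J : ℕ) (μ W w : R) :
    Prod.map φ φ (PQ n0 sp sn ff S T J μ W w) = PQ n0 sp sn ff S T J (φ μ) (φ W) (φ w) := by
  rw [PQ, PQ, spoly_cont]
  simp [spoly_gD]

theorem map_PQ2 (n0 sp sn ff S T J : ℕ) (μ W w : R) :
    Prod.map (Prod.map φ φ) (Prod.map φ φ) (PQ2 n0 sp sn ff S T J μ W w) =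
      PQ2 n0 sp sn ff S T J (φ μ) (φ W) (φ w) := by
  rw [PQ2, PQ2, spoly_cont2]
  simp [spoly_gD, spoly_gU1]

theorem spoly_D (S T n : ℕ) (μ W : R) : gD S T (C μ) (C W + X) n =
    C (gD S T μ W n) + C (gU1 S T μ W) * X + C (2 * (S - 2 * μ)) * X ^ 2 := by
  simp only [gD, gU, gU1, map_add, map_sub, map_mul, map_pow, map_natCast, map_ofNat]
  ring

theorem spoly_A (T c : ℕ) (μ W : R) :
    gA T (C μ) (C W + X) c = C (gA T μ W c) + C (μ * T) * X := by
  simp only [gA, map_sub, map_mul, map_natCast]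
  ring

theorem spoly_D0 (S T n : ℕ) (μ W : R) : (gD S T (C μ) (C W + X) n).coeff 0 = gD S T μ W n := by
  rw [spoly_D, coeff_add, coeff_add, coeff_C_mul, coeff_C_mul, coeff_C_zero]
  simp

theorem spoly_D1 (S T n : ℕ) (μ W : R) : (gD S T (C μ) (C W + X) n).coeff 1 = gU1 S T μ W := by
  rw [spoly_D, coeff_add, coeff_add, coeff_C_mul, coeff_C_mul, coeff_C_succ]
  simp [coeff_X_pow]

theorem spoly_A0 (T c : ℕ) (μ W : R) : (gA T (C μ) (C W + X) c).coeff 0 = gA T μ W c := by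
  rw [spoly_A, coeff_add, coeff_C_mul, coeff_C_zero]
  simp

theorem spoly_A1 (T c : ℕ) (μ W : R) : (gA T (C μ) (C W + X) c).coeff 1 = μ * T := by
  rw [spoly_A, coeff_add, coeff_C_mul, coeff_C_succ]
  simp

theorem spoly_coeff (S T J n : ℕ) (μ W : R) (p : R[X] × R[X]) :
    cont2 S T μ W J n ((p.1.coeff 0, p.2.coeff 0), p.1.coeff 1, p.2.coeff 1) =
      (((cont S T (C μ) (C W + X) J n p).1.coeff 0, (cont S T (C μ) (C W + X) J n p).2.coeff 0),
        (cont S T (C μ) (C W + X) J n p).1.coeff 1,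
        (cont S T (C μ) (C W + X) J n p).2.coeff 1) := by
  induction J generalizing n p with
  | zero => rfl
  | succ J ih =>
    rw [cont2, cont, ← ih]
    simp only [coeff_sub, mul_coeff_zero, mul_coeff_one, spoly_D0, spoly_D1, spoly_A0, spoly_A1]
    congr 3
    ring

/-- The first two coefficients in the perturbation. -/
theorem PQ2_coeff (n0 sp sn ff S T J : ℕ) (μ W w : R) :
    PQ2 n0 sp sn ff S T J μ W w =
      (((PQ n0 sp sn ff S T J (C μ) (C W + X) (C w)).1.coeff 0,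
        (PQ n0 sp sn ff S T J (C μ) (C W + X) (C w)).2.coeff 0),
       (PQ n0 sp sn ff S T J (C μ) (C W + X) (C w)).1.coeff 1,
        (PQ n0 sp sn ff S T J (C μ) (C W + X) (C w)).2.coeff 1) := by
  have e1 : ((sp : R[X]) - (sn : R[X])) * (C μ * (T : R[X])) * (C W + X) =
      C (((sp : R) - sn) * (μ * T) * W) + C (((sp : R) - sn) * (μ * T)) * X := by
    simp only [map_sub, map_mul, map_natCast]
    ring
  have e2 : (ff : R[X]) * C w = C (ff * w) := by simp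
  rw [PQ2, PQ, ← spoly_coeff, e1, e2]
  simp only [coeff_C_mul, coeff_add, spoly_D0, spoly_D1, coeff_C_zero, coeff_X_zero, coeff_X_one,
    mul_zero, add_zero, mul_one, coeff_C_succ (n := 0), zero_add]

end

theorem natDegree_ev (l : List ℤ) : (ev l (X : ℤ[X])).natDegree ≤ l.length - 1 := by
  induction l with
  | nil => simp [ev]
  | cons c l ih =>
    change ((c : ℤ[X]) + X * ev l X).natDegree ≤ _
    refine natDegree_add_le_of_degree_le (by simp) ?_
    cases l with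
    | nil => simp [ev]
    | cons d l =>
      refine natDegree_mul_le.trans ?_
      simp only [natDegree_X, List.length_cons] at ih ⊢
      omega

theorem natDegree_mu (μ0 μ1 : ℕ) : (mu μ0 μ1 (X : ℤ[X])).natDegree ≤ 1 := by
  rw [mu]
  refine natDegree_add_le_of_degree_le (by simp) (natDegree_mul_le.trans ?_)
  simp

end Pool.Agent.HillD.S

/-! The elementary operations of the checker. -/

namespace Pool.Agent.HillD.S
open Real Set Filter Topology Polynomial Metric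

@[simp] theorem fN_eq {α : Type} (n : ℕ) (k : ℕ → α) : fN n k = k n := by
  cases n <;> rfl

theorem H0_eq : H0 = 2 ^ (256 - 1) := rfl

theorem M0_eq : M0 = 2 ^ 256 - 1 := rfl

theorem ad_eq (a b : ℕ) : (ad a b : ℝ) = |(a : ℝ) - b| := by
  show ((a - b + (b - a) : ℕ) : ℝ) = _
  rcases le_total a b with h | h
  · have h' : (a : ℝ) ≤ b := by exact_mod_cast h
    rw [Nat.sub_eq_zero_of_le h, zero_add, Nat.cast_sub h, abs_sub_comm, abs_of_nonneg (by linarith)]
  · have h' : (b : ℝ) ≤ a := by exact_mod_cast h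
    rw [Nat.sub_eq_zero_of_le h, add_zero, Nat.cast_sub h, abs_of_nonneg (by linarith)]

theorem tri_eq (n : ℕ) : (tri n : ℝ) = n * (n - 1) / 2 := by
  show ((n * (n - 1) / 2 : ℕ) : ℝ) = _
  rw [← Nat.choose_two_right, Nat.cast_choose_two]

theorem len_eq (l : List ℤ) : len l = l.length := by
  induction l with
  | nil => rfl
  | cons c t ih => exact congrArg Nat.succ ih

theorem cast_land (L x : ℕ) : ((Nat.land x (2 ^ L - 1) : ℕ) : ZMod (2 ^ L)) = x := by
  show ((x &&& (2 ^ L - 1) : ℕ) : ZMod (2 ^ L)) = x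
  rw [Nat.and_two_pow_sub_one_eq_mod, ZMod.natCast_mod]

theorem cast_mask (L : ℕ) : ((2 ^ L - 1 : ℕ) : ZMod (2 ^ L)) = -1 := by
  rw [Nat.cast_sub Nat.one_le_two_pow, ZMod.natCast_self, Nat.cast_one, zero_sub]

theorem cast_ng (L x : ℕ) : ((ng (2 ^ L - 1) x : ℕ) : ZMod (2 ^ L)) = -x := by
  have h : x &&& (2 ^ L - 1) ≤ 2 ^ L - 1 + 1 := Nat.and_le_right.trans (Nat.le_succ _)
  show ((2 ^ L - 1 + 1 - (x &&& (2 ^ L - 1)) : ℕ) : ZMod (2 ^ L)) = -x
  rw [Nat.cast_sub h, Nat.cast_add, cast_mask, Nat.cast_one, neg_add_cancel, zero_sub,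
    Nat.and_two_pow_sub_one_eq_mod, ZMod.natCast_mod]

theorem skera_ev {R : Type} [CommRing R] (c : ℤ) (t : List ℤ) (x : R) :
    ev (c :: t) x = c + x * ev t x := rfl

theorem cast_pk (L B : ℕ) (l : List ℤ) :
    ((pk (2 ^ L - 1) B l : ℕ) : ZMod (2 ^ L)) = ev l ((2 : ZMod (2 ^ L)) ^ B) := by
  induction l with
  | nil => exact Nat.cast_zero
  | cons c t ih =>
    rw [skera_ev, ← ih]
    cases c with
    | ofNat n =>
      show ((Nat.land (n + pk (2 ^ L - 1) B t <<< B) (2 ^ L - 1) : ℕ) : ZMod (2 ^ L)) = _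
      rw [cast_land, Nat.shiftLeft_eq]
      push_cast
      simp only [Int.ofNat_eq_natCast, Int.cast_natCast]
      ring
    | negSucc n =>
      show ((Nat.land ((2 ^ L - 1) * (n + 1) + pk (2 ^ L - 1) B t <<< B) (2 ^ L - 1) : ℕ) :
        ZMod (2 ^ L)) = _
      rw [cast_land, Nat.shiftLeft_eq, Nat.cast_add, Nat.cast_mul, cast_mask, Int.cast_negSucc]
      push_cast
      ring

theorem cast_mu (L B μ0 μ1 : ℕ) : ((Nat.add μ0 (Nat.shiftLeft μ1 B) : ℕ) : ZMod (2 ^ L)) =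
    mu μ0 μ1 ((2 : ZMod (2 ^ L)) ^ B) := by
  show ((μ0 + μ1 <<< B : ℕ) : ZMod (2 ^ L)) = _
  rw [Nat.shiftLeft_eq, mu]
  push_cast
  ring

theorem cast_uU (L S T μ V : ℕ) : ((uU (2 ^ L - 1) S T μ V : ℕ) : ZMod (2 ^ L)) =
    gU S T (μ : ZMod (2 ^ L)) V := by
  rw [uU, cast_land, gU]
  simp only [Nat.add_eq, Nat.mul_eq, Nat.cast_add, Nat.cast_mul, cast_land, cast_ng, Nat.cast_ofNat]
  ring

theorem norm_ev_le (r : ℕ) (l : List ℤ) {x : ℂ} (hx : ‖x‖ ≤ r) : ‖ev l x‖ ≤ nl r l := by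
  induction l with
  | nil => simp [ev]
  | cons c t ih =>
    have h : nl r (c :: t) = c.natAbs + r * nl r t := by cases c <;> rfl
    rw [skera_ev, h]
    push_cast
    refine (norm_add_le _ _).trans (add_le_add ?_ ?_)
    · rw [Complex.norm_intCast, Nat.cast_natAbs, Int.cast_abs]
    · rw [norm_mul]
      exact mul_le_mul hx ih (norm_nonneg _) (Nat.cast_nonneg _)

theorem norm_ev_sub (r V0 : ℕ) (l : List ℤ) {x : ℂ} (hx : ‖x‖ ≤ r) :
    ‖ev (Int.ofNat V0 :: l) x - V0‖ ≤ (r * nl r l : ℕ) := by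
  rw [skera_ev, Int.ofNat_eq_natCast, Int.cast_natCast, add_sub_cancel_left, norm_mul, Nat.cast_mul]
  exact mul_le_mul hx (norm_ev_le r l hx) (norm_nonneg _) (Nat.cast_nonneg _)

theorem norm_lb (a b S μ0 μ1 r : ℕ) {x : ℂ} (hx : ‖x‖ ≤ r) :
    ‖(a * S : ℂ) - b * mu μ0 μ1 x‖ ≤ lb a b S μ0 μ1 r := by
  have e : (a * S : ℂ) - b * mu μ0 μ1 x =
      ((((a * S : ℕ) : ℝ) - (b * μ0 : ℕ) : ℝ) : ℂ) - ((b * μ1 : ℕ) : ℂ) * x := by
    rw [mu]
    push_cast
    ring
  show _ ≤ ((ad (a * S) (b * μ0) + b * μ1 * r : ℕ) : ℝ)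
  rw [e, Nat.cast_add, ad_eq, Nat.cast_mul (b * μ1)]
  refine (norm_sub_le _ _).trans (add_le_add (Complex.norm_real _).le ?_)
  rw [norm_mul, Complex.norm_natCast]
  exact mul_le_mul_of_nonneg_left hx (Nat.cast_nonneg _)

theorem der_cons (c : ℤ) (t : List ℤ) : der (c :: t) = dl t 1 := rfl

theorem length_dl (l : List ℤ) (k : ℕ) : (dl l k).length = l.length := by
  induction l generalizing k with
  | nil => rfl
  | cons c t ih => exact congrArg Nat.succ (ih (k + 1))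

theorem length_der (l : List ℤ) : (der l).length = l.length - 1 := by
  cases l with
  | nil => rfl
  | cons c t => exact length_dl t 1

theorem skera_dl1 (c : ℤ) (t : List ℤ) (k : ℕ) (x : ℂ) :
    ev (dl (c :: t) k) x = k * c + x * ev (dl t (k + 1)) x := by
  show ((k * c : ℤ) : ℂ) + x * ev (dl t (k + 1)) x = _
  push_cast
  rfl

theorem skera_dl (l : List ℤ) (k : ℕ) (x : ℂ) :
    ev (dl l (k + 1)) x = ev (dl l k) x + ev l x := by
  induction l generalizing k with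
  | nil => exact (add_zero _).symm
  | cons c t ih =>
    rw [skera_dl1, skera_dl1, ih (k + 1), skera_ev]
    push_cast
    ring

theorem hasDerivAt_ev (l : List ℤ) (x : ℂ) : HasDerivAt (fun z : ℂ => ev l z) (ev (der l) x) x := by
  induction l with
  | nil => exact hasDerivAt_const x (0 : ℂ)
  | cons c t ih =>
    have h := ((hasDerivAt_id x).mul ih).const_add (c : ℂ)
    have e : ev (der (c :: t)) x = 1 * ev t x + x * ev (der t) x := by
      rw [der_cons]
      cases t with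
      | nil => simp [ev, dl, der]
      | cons d u =>
        rw [der_cons, skera_dl1, skera_dl, skera_ev]
        push_cast
        ring
    rw [e]
    exact h

theorem fl_le (a : ℤ) (ha : |a| ≤ 31) (l : List ℤ) :
    |ev l ((a : ℝ) / 32) - fl a l| ≤ 32 := by
  have ha' : |(a : ℝ)| ≤ 31 := by exact_mod_cast ha
  induction l with
  | nil => simp [ev, fl]
  | cons c t ih =>
    have h : fl a (c :: t) = c + a * fl a t / 32 := by
      show c + (a * fl a t) >>> (5 : ℕ) = _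
      rw [Int.shiftRight_eq_div_pow]
      norm_num
    have h1 : ((a * fl a t / 32 : ℤ) : ℝ) * 32 ≤ a * fl a t := by
      exact_mod_cast Int.ediv_mul_le (a * fl a t) (by norm_num : (32 : ℤ) ≠ 0)
    have h2 : (a * fl a t : ℝ) < (((a * fl a t / 32 : ℤ) : ℝ) + 1) * 32 := by
      exact_mod_cast Int.lt_ediv_add_one_mul_self (a * fl a t) (by norm_num : (0 : ℤ) < 32)
    have h3 : |(a : ℝ) * (ev t ((a : ℝ) / 32) - fl a t)| ≤ 31 * 32 := by
      rw [abs_mul]
      exact mul_le_mul ha' ih (abs_nonneg _) (by norm_num)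
    rw [skera_ev, h, Int.cast_add]
    rw [abs_le] at h3 ⊢
    constructor <;> nlinarith [h3.1, h3.2]

end Pool.Agent.HillD.S

/-! Signed digits. -/

namespace Pool.Agent.HillD.S
open Real Set Filter Topology Polynomial Metric

theorem sker_nrm {B : ℕ} (hB : 1 ≤ B) (r n : ℕ) : ∀ (L X : ℕ) (p : ℤ[X]), B * n ≤ L →
    (2 ^ L : ℤ) ∣ p.eval (2 ^ B) - X → (∀ k, (p.coeff k).natAbs < 2 ^ (B - 1)) →
    nrm B (2 ^ (B - 1)) (2 ^ B - 1) r n X =
      ∑ k ∈ Finset.range n, (p.coeff k).natAbs * r ^ k := by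
  induction n with
  | zero => intros; rfl
  | succ n ih =>
    rintro L X p hn ⟨m, hm⟩ hc
    have e : nrm B (2 ^ (B - 1)) (2 ^ B - 1) r (n + 1) X = fN (X + 2 ^ (B - 1)) fun Y =>
      ad (Y &&& (2 ^ B - 1)) (2 ^ (B - 1)) +
        r * nrm B (2 ^ (B - 1)) (2 ^ B - 1) r n (Y >>> B) := rfl
    have h2 : (2 : ℕ) ^ B = 2 * 2 ^ (B - 1) := by
      rw [← pow_succ']; congr 1; omega
    have hL : (2 : ℤ) ^ L = 2 ^ B * 2 ^ (L - B) := by
      rw [← pow_add]; congr 1; rw [Nat.mul_succ] at hn; omega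
    have hp : p.eval (2 ^ B) = p.coeff 0 + 2 ^ B * p.divX.eval (2 ^ B) := by
      conv_lhs => rw [← X_mul_divX_add p]
      simp [add_comm]
    have h0 := hc 0
    have key := (Int.ediv_emod_unique (a := ((X + 2 ^ (B - 1) : ℕ) : ℤ)) (b := ((2 ^ B : ℕ) : ℤ))
      (r := p.coeff 0 + (2 ^ (B - 1) : ℕ)) (q := p.divX.eval (2 ^ B) - 2 ^ (L - B) * m)
      (by positivity)).2 ⟨by
        rw [hL, hp] at hm
        push_cast
        linear_combination hm, by omega, by rw [h2]; omega⟩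
    rw [← Int.natCast_div, ← Int.natCast_mod] at key
    rw [e, fN_eq, Nat.and_two_pow_sub_one_eq_mod, Nat.shiftRight_eq_div_pow,
      ih (L - B) _ p.divX (by rw [Nat.mul_succ] at hn; omega) ⟨m, by rw [key.1]; ring⟩
        fun k => by rw [coeff_divX]; exact hc _, Finset.sum_range_succ', Finset.mul_sum, add_comm]
    congr 1
    · exact Finset.sum_congr rfl fun k _ => by rw [coeff_divX]; ring
    · have := key.2
      simp only [ad, Nat.add_eq, Nat.sub_eq, pow_zero, mul_one]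
      omega

/-- Signed digits are the coefficients. -/
theorem nrm_eq {L B X n : ℕ} {p : ℤ[X]} (hB : 1 ≤ B) (hn : B * n ≤ L) (h : Rep L B X p)
    (hc : ∀ k, (p.coeff k).natAbs < 2 ^ (B - 1)) (r : ℕ) :
    nrm B (2 ^ (B - 1)) (2 ^ B - 1) r n X =
      ∑ k ∈ Finset.range n, (p.coeff k).natAbs * r ^ k := by
  refine sker_nrm hB r n L X p hn ?_ hc
  have e := aeval_algebraMap_apply_eq_algebraMap_eval (A := ZMod (2 ^ L)) ((2 : ℤ) ^ B) p
  simp only [algebraMap_int_eq, eq_intCast, Int.cast_pow, Int.cast_ofNat] at e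
  have := (ZMod.intCast_eq_intCast_iff_dvd_sub X (p.eval (2 ^ B)) (2 ^ L)).1 (by
    rw [← e, ← h]; simp)
  exact_mod_cast this

theorem Rep.sub_const {L B X : ℕ} {p : ℤ[X]} (h : Rep L B X p) (c : ℕ) :
    Rep L B (Nat.add X (ng (2 ^ L - 1) c)) (p - C (c : ℤ)) := by
  unfold Rep at *
  rw [Nat.add_eq, Nat.cast_add, cast_ng, h]
  simp [sub_eq_add_neg]

theorem sker_main {n X M r : ℕ} {p : ℤ[X]} (c : ℕ) (hr : Rep (256 * n) 256 X p)
    (hn : p.natDegree < n) (hc : ∀ z : ℂ, ‖z‖ ≤ 1 → ‖aeval z p‖ ≤ M) (hM : M + c < H0) {z : ℂ}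
    (hz : ‖z‖ ≤ r) :
    ‖aeval z p - c‖ ≤ nrm 256 H0 M0 r n (Nat.add X (ng (2 ^ (256 * n) - 1) c)) := by
  have e : ∀ z : ℂ, aeval z (p - C (c : ℤ)) = aeval z p - c := fun z => by simp
  rw [H0_eq] at *
  rw [M0_eq, nrm_eq (by norm_num) le_rfl (hr.sub_const c) fun k => ?_, ← e]
  · exact aeval_le_deg _ (by rwa [natDegree_sub_C]) hz
  · have := icoeff_le (p - C (c : ℤ)) (M := ((M + c : ℕ) : ℝ)) one_pos (fun z hz => by
      rw [e]
      refine (norm_sub_le _ _).trans ?_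
      have := hc z hz
      rw [Complex.norm_natCast]
      push_cast
      linarith) k
    rw [one_pow, mul_one, Nat.cast_le] at this
    exact this.trans_lt hM

theorem pos_sound {n X cr err : ℕ} {p : ℤ[X]} (h : pos (2 ^ (256 * n) - 1) n X cr err = true)
    (hr : Rep (256 * n) 256 X p) (hn : p.natDegree < n)
    (hc : ∀ z : ℂ, ‖z‖ ≤ 1 → ‖aeval z p‖ ≤ cr) {z : ℂ} (hz : ‖z‖ ≤ 1) :
    (err : ℝ) < (aeval z p).re := by
  rw [pos, fN_eq, Bool.and_eq_true, Nat.blt_eq, Nat.blt_eq] at h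
  generalize d0 H0 M0 X = c at h
  have h1 := sker_main (r := 1) c hr hn hc h.1 (z := z) (by simpa using hz)
  have h2 := h.2
  generalize nrm 256 H0 M0 1 n _ = N at h1 h2
  have h3 : (N : ℝ) + err < c := by exact_mod_cast h2
  have h4 := (abs_le.1 ((Complex.abs_re_le_norm _).trans h1)).1
  simp only [Complex.sub_re, Complex.natCast_re] at h4
  linarith

theorem UB_sound {S T μ0 μ1 V0 C ns : ℕ} {Vr : List ℤ} (hns : 2 * (Vr.length + 2) ≤ ns)
    (h : 2 * (V0 + nl 1 Vr) * (lb 1 2 S μ0 μ1 1 * (V0 + nl 1 Vr) + (μ0 + μ1) * T) + C < H0)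
    (r : ℕ) : UB S T μ0 μ1 (Int.ofNat V0 :: Vr) C r (nrm 256 H0 M0 r ns
      (Nat.add (uU (2 ^ (256 * ns) - 1) S T (Nat.add μ0 (Nat.shiftLeft μ1 256))
        (pk (2 ^ (256 * ns) - 1) 256 (Int.ofNat V0 :: Vr))) (ng (2 ^ (256 * ns) - 1) C))) := by
  intro x hx
  have e : ∀ {R : Type} [CommRing R] (z : R), aeval z (gU S T (mu μ0 μ1 (X : ℤ[X]))
      (ev (Int.ofNat V0 :: Vr) X)) = gU S T (mu μ0 μ1 z) (ev (Int.ofNat V0 :: Vr) z) := by
    intro R _ z
    have := map_gU (aeval z : ℤ[X] →ₐ[ℤ] R).toRingHom S T (mu μ0 μ1 X) (ev (Int.ofNat V0 :: Vr) X)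
    rw [map_mu, map_ev] at this
    simpa using this
  rw [← e]
  refine sker_main C ?_ ?_ (fun z hz => ?_) h hx
  · rw [Rep, e, cast_uU, cast_mu, cast_pk]
  · have h1 : (ev (Int.ofNat V0 :: Vr) (X : ℤ[X])).natDegree ≤ Vr.length := natDegree_ev _
    have h2 := natDegree_mu μ0 μ1
    generalize ev (Int.ofNat V0 :: Vr) (X : ℤ[X]) = W at h1
    generalize mu μ0 μ1 (X : ℤ[X]) = m at h2
    have h3 : ((S : ℤ[X]) - 2 * m).natDegree ≤ 1 :=
      (natDegree_sub_le _ _).trans (max_le (by simp) (natDegree_mul_le.trans (by simpa)))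
    have h4 : (((S : ℤ[X]) - 2 * m) * W + m * T).natDegree ≤ 1 + Vr.length :=
      (natDegree_add_le _ _).trans (max_le (natDegree_mul_le.trans (by omega))
        (natDegree_mul_le.trans (by rw [natDegree_natCast]; omega)))
    have h5 : (2 * W).natDegree ≤ Vr.length := natDegree_mul_le.trans (by simpa)
    exact natDegree_mul_le.trans_lt (by omega)
  · rw [e]
    have hz' : ‖z‖ ≤ (1 : ℕ) := by simpa using hz
    have h1 := norm_ev_sub 1 V0 Vr hz'
    have h2 := norm_lb 1 2 S μ0 μ1 1 hz'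
    have h3 : ‖mu μ0 μ1 z‖ ≤ μ0 + μ1 := by
      refine (norm_add_le _ _).trans ?_
      rw [norm_mul, Complex.norm_natCast, Complex.norm_natCast]
      nlinarith [Nat.cast_nonneg (α := ℝ) μ1]
    have h4 : ‖ev (Int.ofNat V0 :: Vr) z‖ ≤ V0 + nl 1 Vr := by
      have := norm_le_insert' (ev (Int.ofNat V0 :: Vr) z) V0
      rw [Complex.norm_natCast] at this
      push_cast at h1
      linarith
    simp only [Nat.cast_one, one_mul, Nat.cast_ofNat] at h2
    rw [gU, norm_mul, norm_mul, Complex.norm_ofNat]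
    push_cast
    gcongr
    refine (norm_add_le _ _).trans ?_
    rw [norm_mul, norm_mul, Complex.norm_natCast]
    gcongr

end Pool.Agent.HillD.S
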