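import Pool.Agent.P.MP_ae2765_an.SA

/-! Completeness of the cosines and of the sines. -/

namespace Pool.Agent.HillD.S
open Real Set Filter Topology Polynomial Metric

theorem scos_pow {f : ℝ → ℝ} (hf : Continuous f)
    (h : ∀ n : ℕ, ∫ t in (0 : ℝ)..π, f t * cos (n * t) = 0) (k : ℕ) :
    ∀ n : ℤ, ∫ t in (0 : ℝ)..π, f t * cos t ^ k * cos (n * t) = 0 := by
  induction k with
  | zero =>
    intro n
    obtain ⟨m, rfl | rfl⟩ := n.eq_nat_or_neg
    · simpa using h m
    · simpa using h m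
  | succ k ih =>
    intro n
    have e : ∀ t, f t * cos t ^ (k + 1) * cos (n * t) =
        1 / 2 * (f t * cos t ^ k * cos ((n + 1 : ℤ) * t) +
          f t * cos t ^ k * cos ((n - 1 : ℤ) * t)) := fun t => by
      push_cast
      rw [add_mul, sub_mul, one_mul, cos_add, cos_sub]
      ring
    simp only [e]
    rw [intervalIntegral.integral_const_mul, intervalIntegral.integral_add
      (Continuous.intervalIntegrable (by fun_prop) _ _)
      (Continuous.intervalIntegrable (by fun_prop) _ _), ih, ih, add_zero, mul_zero]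

theorem scos_poly {f : ℝ → ℝ} (hf : Continuous f)
    (h : ∀ n : ℕ, ∫ t in (0 : ℝ)..π, f t * cos (n * t) = 0) (p : ℝ[X]) :
    ∫ t in (0 : ℝ)..π, f t * p.eval (cos t) = 0 := by
  simp only [eval_eq_sum_range, Finset.mul_sum]
  rw [intervalIntegral.integral_finsetSum fun i _ =>
    Continuous.intervalIntegrable (by fun_prop) _ _]
  refine Finset.sum_eq_zero fun i _ => ?_
  have h1 := scos_pow hf h i 0
  simp only [Int.cast_zero, zero_mul, cos_zero, mul_one] at h1
  simp only [mul_left_comm (f _)]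
  rw [intervalIntegral.integral_const_mul, h1, mul_zero]

theorem cos_complete {f : ℝ → ℝ} (hf : Continuous f)
    (h : ∀ n : ℕ, ∫ t in (0 : ℝ)..π, f t * cos (n * t) = 0) : ∀ t ∈ Icc 0 π, f t = 0 := by
  have hI : ∫ t in (0 : ℝ)..π, f t * f t ≤ 0 := by
    refine le_of_forall_pos_le_add fun ε hε => ?_
    have hM : 0 ≤ ∫ t in (0 : ℝ)..π, |f t| :=
      intervalIntegral.integral_nonneg pi_pos.le fun t _ => abs_nonneg _
    obtain ⟨p, hp⟩ := exists_polynomial_near_of_continuousOn (-1) 1 (fun s => f (arccos s))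
      (hf.comp continuous_arccos).continuousOn (ε / ((∫ t in (0 : ℝ)..π, |f t|) + 1))
      (by positivity)
    have h1 : ∫ t in (0 : ℝ)..π, f t * f t ≤ ∫ t in (0 : ℝ)..π, (f t * p.eval (cos t) +
        ε / ((∫ t in (0 : ℝ)..π, |f t|) + 1) * |f t|) := by
      refine intervalIntegral.integral_mono_on pi_pos.le
        (Continuous.intervalIntegrable (by fun_prop) _ _)
        (Continuous.intervalIntegrable (by fun_prop) _ _) fun t ht => ?_
      have h2 := hp (cos t) ⟨neg_one_le_cos t, cos_le_one t⟩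
      simp only [arccos_cos ht.1 ht.2] at h2
      have h3 := neg_abs_le (f t * (p.eval (cos t) - f t))
      rw [abs_mul] at h3
      nlinarith [mul_le_mul_of_nonneg_left h2.le (abs_nonneg (f t))]
    rw [intervalIntegral.integral_add (Continuous.intervalIntegrable (by fun_prop) _ _)
      (Continuous.intervalIntegrable (by fun_prop) _ _), scos_poly hf h,
      intervalIntegral.integral_const_mul] at h1
    refine h1.trans (add_le_add le_rfl ?_)
    rw [div_mul_eq_mul_div, div_le_iff₀ (by positivity)]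
    nlinarith
  intro t ht
  by_contra h0
  exact absurd (intervalIntegral.integral_pos pi_pos (f := fun t => f t * f t)
    (by fun_prop) (fun t _ => mul_self_nonneg _) ⟨t, ht, mul_self_pos.2 h0⟩) (not_lt.2 hI)

theorem sin_complete {f : ℝ → ℝ} (hf : Continuous f)
    (h : ∀ n : ℕ, ∫ t in (0 : ℝ)..π, f t * sin (n * t) = 0) : ∀ t ∈ Icc 0 π, f t = 0 := by
  have hz : ∀ n : ℤ, ∫ t in (0 : ℝ)..π, f t * sin (n * t) = 0 := fun n => by
    obtain ⟨m, rfl | rfl⟩ := n.eq_nat_or_neg
    · simpa using h m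
    · simpa using h m
  have h1 := cos_complete (f := fun t => f t * sin t) (by fun_prop) fun n => by
    have e : ∀ t, f t * sin t * cos (n * t) = 1 / 2 * (f t * sin (((n : ℤ) + 1 : ℤ) * t) -
        f t * sin (((n : ℤ) - 1 : ℤ) * t)) := fun t => by
      push_cast
      rw [add_mul, sub_mul, one_mul, sin_add, sin_sub]
      ring
    simp only [e]
    rw [intervalIntegral.integral_const_mul, intervalIntegral.integral_sub
      (Continuous.intervalIntegrable (by fun_prop) _ _)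
      (Continuous.intervalIntegrable (by fun_prop) _ _), hz, hz, sub_zero, mul_zero]
  have h2 : Ioo 0 π ⊆ {t | f t = 0} := fun t ht =>
    (mul_eq_zero.1 (h1 t (Ioo_subset_Icc_self ht))).resolve_right
      (sin_pos_of_pos_of_lt_pi ht.1 ht.2).ne'
  have h3 := closure_minimal h2 (isClosed_eq hf continuous_const)
  rw [closure_Ioo pi_pos.ne] at h3
  exact h3

end Pool.Agent.HillD.S

/-! The Fourier coefficients of the periodic solution on a branch. -/

namespace Pool.Agent.HillD.S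
open Real Set Filter Topology Polynomial Metric

theorem sfour_ftc {m ω : ℝ} {x y : ℝ → ℝ} (hm : m < 1) (hl : IsLin (cA m ω) (cB m ω) x y)
    (θ n : ℝ) : m * (ω - (n - 1) * (n - 2) / 2) * (∫ t in (0 : ℝ)..π, x t * sin ((n - 2) * t + θ)) +
      (2 * (1 - 2 * m) * ω ^ 2 + 2 * m * ω - (2 - m) * n ^ 2) *
        (∫ t in (0 : ℝ)..π, x t * sin (n * t + θ)) +
      m * (ω - (n + 1) * (n + 2) / 2) * (∫ t in (0 : ℝ)..π, x t * sin ((n + 2) * t + θ)) =
      2 * ω * (sin θ * y 0 - sin (n * π + θ) * y π) -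
        2 * n * (cos θ * x 0 - cos (n * π + θ) * x π) := by
  have cx := hl.cont1
  have key := intervalIntegral.integral_eq_sub_of_hasDerivAt (a := 0) (b := π)
    (f := fun t => 2 * (Dm m t * cos (n * t + θ) * x t) * n -
      2 * ω * (pm m t * sin (n * t + θ) * y t) - 2 * m * (sin t * cos t * sin (n * t + θ) * x t))
    (f' := fun t => m * (ω - (n - 1) * (n - 2) / 2) * (x t * sin ((n - 2) * t + θ)) +
      (2 * (1 - 2 * m) * ω ^ 2 + 2 * m * ω - (2 - m) * n ^ 2) * (x t * sin (n * t + θ)) +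
      m * (ω - (n + 1) * (n + 2) / 2) * (x t * sin ((n + 2) * t + θ))) (fun t _ => by
      have d : HasDerivAt (fun t => n * t + θ) n t := by
        simpa using ((hasDerivAt_id t).const_mul n).add_const θ
      refine ((((((Dm_deriv t).fun_mul d.cos).fun_mul (hl t).1).const_mul 2).mul_const n).fun_sub
        ((((pm_deriv hm t).fun_mul d.sin).fun_mul (hl t).2).const_mul (2 * ω))).fun_sub
        (((((hasDerivAt_sin t).fun_mul (hasDerivAt_cos t)).fun_mul d.sin).fun_mul
          (hl t).1).const_mul (2 * m)) |>.congr_deriv ?_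
      have p0 := (pm_pos hm t).ne'
      have p2 := pm_sq hm t
      have d0 := (Dm_pos hm t).ne'
      have g1 : ω * pm m t = Dm m t * cA m ω t := by
        rw [← p2, cA]; field_simp
      have g2 : ω * um m t * pm m t = m * cA m ω t := by
        rw [um, ← p2, cA]; field_simp
      have g3 : pm m t * cB m ω t = ω * (1 - 2 * m) + 2 * m * cos t ^ 2 := by
        rw [cB]; field_simp
      have g4 : Dm m t = 1 - m * sin t ^ 2 := rfl
      have g5 := sin_sq_add_cos_sq t
      rw [show (n - 2) * t + θ = n * t + θ - 2 * t by ring,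
        show (n + 2) * t + θ = n * t + θ + 2 * t by ring, sin_sub (n * t + θ),
        sin_add (n * t + θ), sin_two_mul, cos_two_mul]
      linear_combination (-2 * n * cos (n * t + θ) * y t) * g1 +
        (2 * sin t * cos t * sin (n * t + θ) * y t) * g2 + (2 * ω * sin (n * t + θ) * x t) * g3 -
        (2 * n ^ 2 * sin (n * t + θ) * x t) * g4 +
        (2 * m * (n ^ 2 + 1) * sin (n * t + θ) * x t) * g5)
    (by apply Continuous.intervalIntegrable; fun_prop)
  rw [intervalIntegral.integral_add, intervalIntegral.integral_add] at key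
  · simp only [intervalIntegral.integral_const_mul] at key
    rw [key]
    simp only [Dm, pm_of_sin sin_pi, pm_of_sin sin_zero, sin_pi, sin_zero, mul_zero, zero_add]
    ring
  all_goals apply Continuous.intervalIntegrable; fun_prop

theorem sfour_refl {a b x y : ℝ → ℝ} (ha : Continuous a) (hb : Continuous b) (hl : IsLin a b x y)
    (sa : ∀ t, a (π - t) = a t) (sb : ∀ t, b (π - t) = b t) {s : ℝ} (h1 : x π = s * x 0)
    (h2 : -y π = s * y 0) (t : ℝ) : x (π - t) = s * x t := by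
  have := lin_zero ha hb (x := fun t => x (π - t) - s * x t) (y := fun t => -y (π - t) - s * y t)
    (fun t => by
      have d : HasDerivAt (fun t : ℝ => π - t) (-1) t := by
        simpa using (hasDerivAt_id t).const_sub π
      exact ⟨(((hl (π - t)).1.comp t d).fun_sub ((hl t).1.const_mul s)).congr_deriv
        (by rw [sa]; ring), (((hl (π - t)).2.comp t d).fun_neg.fun_sub
          ((hl t).2.const_mul s)).congr_deriv (by rw [sb]; ring)⟩) (by simp [h1]) (by simp [h2]) t
  linarith [this.1]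

theorem exists_seq {θ0 m : ℝ} {l : ℕ} (hθ : θ0 = 0 ∨ θ0 = π / 2) (hl : 1 ≤ l) (h0 : 0 ≤ m)
    (hm : m < 1 / 2) : ∃ c : ℤ → ℝ,
      (∀ n : ℤ, m * (cur θ0 l m - (n - 1) * (n - 2) / 2) * c (n - 2) +
        (2 * (1 - 2 * m) * cur θ0 l m ^ 2 + 2 * m * cur θ0 l m - (2 - m) * n ^ 2) * c n +
        m * (cur θ0 l m - (n + 1) * (n + 2) / 2) * c (n + 2) = 0) ∧
      (θ0 = 0 → ∀ n, c (-n) = -c n) ∧ (θ0 = π / 2 → ∀ n, c (-n) = c n) ∧
      (∃ C, ∀ n, |c n| ≤ C) ∧ ∃ n : ℕ, n % 2 = l % 2 ∧ c n ≠ 0 := by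
  have k : m < 1 := by linarith
  obtain ⟨c0, c1⟩ := cur_spec hθ hl h0 hm
  set ω := cur θ0 l m
  have hL := s_lin k ω θ0
  have cx := hL.cont1
  have x0 := sx_zero k ω θ0
  have y0 := sy_zero k ω θ0
  have hρ := rad_pos (cA m ω) (cB m ω) (th m ω θ0)
  set ρ := rad (cA m ω) (cB m ω) (th m ω θ0)
  have x1 : sx m ω θ0 π = ρ π * (-1) ^ l * sin θ0 := by
    rw [sx, c1, sin_add_nat_mul_pi, mul_assoc]
  have y1 : sy m ω θ0 π = ρ π * (-1) ^ l * cos θ0 := by
    rw [sy, c1, cos_add_nat_mul_pi, mul_assoc]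
  have xy : sx m ω θ0 1 ^ 2 + sy m ω θ0 1 ^ 2 = ρ 1 ^ 2 := by
    simp only [sx, sy]
    linear_combination ρ 1 ^ 2 * sin_sq_add_cos_sq (th m ω θ0 1)
  set x := sx m ω θ0
  set y := sy m ω θ0
  obtain ⟨σ, σ1, σ2, σ3, σ4⟩ : ∃ σ : ℝ, σ * σ = 1 ∧ (∀ u, sin (θ0 - u) = σ * sin (u + θ0)) ∧
      (θ0 = 0 → σ = -1) ∧ (θ0 = π / 2 → σ = 1) := by
    have hp := pi_pos
    rcases hθ with h | h
    · exact ⟨-1, by norm_num, fun u => by simp [h], fun _ => rfl, fun _ => by linarith⟩
    · exact ⟨1, by norm_num, fun u => by rw [h, sin_add_pi_div_two, sin_pi_div_two_sub, one_mul],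
        fun _ => by linarith,
        fun _ => rfl⟩
  have sc : sin θ0 * cos θ0 = 0 := by rcases hθ with h | h <;> simp [h]
  have s1 : sin θ0 = σ * sin θ0 := by simpa using σ2 0
  have s2 : -cos θ0 = σ * cos θ0 := by
    simpa [sin_sub_pi_div_two, add_comm, sin_add_pi_div_two] using σ2 (π / 2)
  have hr := sfour_refl (cA_cont k ω) (cB_cont k ω) hL (cA_symm m ω) (cB_symm m ω)
    (s := ρ π * (-1) ^ l * σ) (by rw [x1, x0, mul_assoc _ σ, ← s1])
    (by rw [y1, y0, mul_assoc _ σ, ← s2, mul_neg])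
  set c : ℤ → ℝ := fun n => ∫ t in (0 : ℝ)..π, x t * sin (n * t + θ0) with hc
  have neg : ∀ n, c (-n) = σ * c n := fun n => by
    simp only [hc, ← intervalIntegral.integral_const_mul, mul_left_comm σ, ← σ2]
    push_cast
    simp only [neg_mul, neg_add_eq_sub]
  refine ⟨c, fun n => ?_, fun h n => by rw [neg, σ3 h, neg_one_mul],
    fun h n => by rw [neg, σ4 h, one_mul], ⟨∫ t in (0 : ℝ)..π, |x t|, fun n => ?_⟩, ?_⟩
  · have := sfour_ftc k hL θ0 n
    rw [add_comm (n * π), sin_add_int_mul_pi, cos_add_int_mul_pi, x0, y0, x1, y1] at this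
    simp only [hc]
    push_cast
    linear_combination this + (2 * (ω - n) * (1 - (-1) ^ n * (ρ π * (-1) ^ l))) * sc
  · rw [← Real.norm_eq_abs]
    refine intervalIntegral.norm_integral_le_of_norm_le pi_pos.le
      (Eventually.of_forall fun t _ => ?_) (cx.abs.intervalIntegrable _ _)
    rw [Real.norm_eq_abs, abs_mul]
    exact mul_le_of_le_one_right (abs_nonneg _) (abs_sin_le_one _)
  · by_contra hz
    push Not at hz
    have all : ∀ n : ℕ, c n = 0 := fun n => by
      by_cases hn : n % 2 = l % 2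
      · exact hz n hn
      have e : (-1 : ℝ) ^ l * (-1) ^ n = -1 := by
        rw [← pow_add]
        exact Odd.neg_one_pow (Nat.odd_iff.2 (by omega))
      have : c n = -ρ π * c n := by
        have h := intervalIntegral.integral_comp_sub_left (a := 0) (b := π)
          (fun t => x t * sin (n * t + θ0)) π
        simp only [sub_self, sub_zero] at h
        simp only [hc, Int.cast_natCast]
        rw [← intervalIntegral.integral_const_mul, ← h]
        refine intervalIntegral.integral_congr fun t _ => ?_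
        rw [hr, show n * (π - t) + θ0 = θ0 - n * t + n * π by ring, sin_add_nat_mul_pi, σ2]
        linear_combination (ρ π * x t * sin (n * t + θ0)) * (σ * σ * e - σ1)
      have := hρ π
      exact (mul_eq_zero.1 (show (1 + ρ π) * c n = 0 by linarith)).resolve_left (by positivity)
    have hx : ∀ t ∈ Icc 0 π, x t = 0 := by
      rcases hθ with h | h
      · exact sin_complete cx fun n => by simpa [hc, h] using all n
      · exact cos_complete cx fun n => by simpa [hc, h, sin_add_pi_div_two] using all n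
    have i1 : Icc 0 π ∈ 𝓝 (1 : ℝ) := Icc_mem_nhds one_pos (by linarith [pi_gt_three])
    have d := ((hL 1).1.congr_of_eventuallyEq (f₁ := fun _ => 0)
      (Eventually.mono i1 fun t ht => (hx t ht).symm)).unique (hasDerivAt_const _ _)
    have a0 : cA m ω 1 ≠ 0 := (div_pos c0 (pm_pos k 1)).ne'
    rw [hx 1 (mem_of_mem_nhds i1), (mul_eq_zero.1 d).resolve_left a0] at xy
    have := hρ 1
    nlinarith

end Pool.Agent.HillD.S

/-! The continued fraction of the tail. -/

namespace Pool.Agent.HillD.S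
open Real Set Filter Topology Polynomial Metric

theorem geoLim {V : Set ℂ} (hV : IsOpen V) {f : ℕ → ℂ → ℂ} (hf : ∀ k, DifferentiableOn ℂ (f k) V)
    {C θ : ℝ} (hθ : θ < 1) (h : ∀ k, ∀ z ∈ V, ‖f (k + 1) z - f k z‖ ≤ C * θ ^ k) (h0 : 0 ≤ θ) :
    DifferentiableOn ℂ (fun z => limUnder atTop fun k => f k z) V ∧
      ∀ z ∈ V, Tendsto (fun k => f k z) atTop (𝓝 (limUnder atTop fun k => f k z)) := by
  have hd : ∀ z ∈ V, ∀ k, dist (f k z) (f (k + 1) z) ≤ C * θ ^ k := fun z hz k => by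
    rw [dist_comm, dist_eq_norm]; exact h k z hz
  have ht : ∀ z ∈ V, Tendsto (fun k => f k z) atTop (𝓝 (limUnder atTop fun k => f k z)) :=
    fun z hz => (cauchySeq_of_le_geometric θ C hθ (hd z hz)).tendsto_limUnder
  refine ⟨TendstoLocallyUniformlyOn.differentiableOn (φ := atTop) (F := f)
    (TendstoUniformlyOn.tendstoLocallyUniformlyOn ?_) (Eventually.of_forall hf) hV, ht⟩
  rw [Metric.tendstoUniformlyOn_iff]
  intro ε hε
  have h1 : Tendsto (fun k : ℕ => C * θ ^ k / (1 - θ)) atTop (𝓝 (C * 0 / (1 - θ))) :=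
    ((tendsto_pow_atTop_nhds_zero_of_lt_one h0 hθ).const_mul C).div_const _
  rw [mul_zero, zero_div] at h1
  filter_upwards [h1.eventually (gt_mem_nhds hε)] with k hk z hz
  rw [dist_comm]
  exact (dist_le_of_le_geometric_of_tendsto θ C hθ (hd z hz) (ht z hz) k).trans_lt hk

theorem stail_den {b d r : ℂ} {γ : ℝ} (hγ : 0 < γ) (hb : ‖b‖ ≤ 4 / 3 * γ) (hd : 7 / 2 * γ ≤ ‖d‖)
    (hr : ‖r‖ ≤ 1 / 3) : 3 * γ ≤ ‖d + b * r‖ := by
  have h1 : ‖d‖ ≤ ‖d + b * r‖ + ‖b * r‖ := by
    simpa using norm_sub_le (d + b * r) (b * r)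
  have h2 : ‖b * r‖ ≤ 4 / 3 * γ * (1 / 3) := by
    rw [norm_mul]; exact mul_le_mul hb hr (norm_nonneg _) (by positivity)
  linarith

variable {A B D : ℕ → ℂ}

theorem stail_norm (h : TD A B D) : ∀ k i, ‖cf A B D k i‖ ≤ 1 / 3
  | 0, _ => by simp [cf]
  | k + 1, i => by
    obtain ⟨γ, hγ, ha, hb, hd⟩ := h i
    have := stail_den hγ hb hd (stail_norm h k (i + 1))
    rw [cf, norm_div, norm_neg, div_le_iff₀ (by linarith)]
    linarith

theorem stail_ne (h : TD A B D) (k i : ℕ) : D i + B i * cf A B D k (i + 1) ≠ 0 := by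
  obtain ⟨γ, hγ, -, hb, hd⟩ := h i
  have := stail_den hγ hb hd (stail_norm h k (i + 1))
  exact norm_pos_iff.1 (by linarith)

theorem stail_step (h : TD A B D) :
    ∀ k i, ‖cf A B D (k + 1) i - cf A B D k i‖ ≤ 1 / 3 * (4 / 27) ^ k
  | 0, i => by simpa [cf] using stail_norm h 1 i
  | k + 1, i => by
    obtain ⟨γ, hγ, ha, hb, hd⟩ := h i
    have h1 := stail_den hγ hb hd (stail_norm h k (i + 1))
    have h2 := stail_den hγ hb hd (stail_norm h (k + 1) (i + 1))
    have h3 := stail_step h k (i + 1)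
    have n1 := stail_ne h k i
    have n2 := stail_ne h (k + 1) i
    rw [cf, cf.eq_2 A B D i k]
    generalize cf A B D (k + 1) (i + 1) = s at *
    generalize cf A B D k (i + 1) = r at *
    have e : -A i / (D i + B i * s) - -A i / (D i + B i * r) =
        A i * (B i * (s - r)) / ((D i + B i * s) * (D i + B i * r)) := by
      field_simp; ring
    have h4 : 3 * γ * (3 * γ) ≤ ‖D i + B i * s‖ * ‖D i + B i * r‖ :=
      mul_le_mul h2 h1 (by positivity) (norm_nonneg _)
    rw [e, norm_div, norm_mul, norm_mul, norm_mul,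
      div_le_iff₀ (lt_of_lt_of_le (by positivity) h4)]
    calc _ ≤ γ * (4 / 3 * γ * (1 / 3 * (4 / 27) ^ k)) := by gcongr
      _ = 1 / 3 * (4 / 27) ^ (k + 1) * (3 * γ * (3 * γ)) := by ring
      _ ≤ _ := by gcongr

theorem stail_lim (h : TD A B D) : Tendsto (fun k => cf A B D k 0) atTop (𝓝 (rho A B D)) :=
  (geoLim isOpen_univ (f := fun k _ => cf A B D k 0) (fun _ => differentiableOn_const _)
    (by norm_num) (fun k _ _ => stail_step h k 0) (by norm_num)).2 0 trivial

theorem rho_norm (h : TD A B D) : ‖rho A B D‖ ≤ 1 / 3 :=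
  le_of_tendsto' (stail_lim h).norm fun k => stail_norm h k 0

theorem rho_seq (h : TD A B D) {c : ℕ → ℂ} {C : ℝ} (hC : ∀ i, ‖c i‖ ≤ C)
    (hc : ∀ i, A i * c i + D i * c (i + 1) + B i * c (i + 2) = 0) :
    c 1 = rho A B D * c 0 ∧ (c 0 = 0 → ∀ i, c i = 0) := by
  have key : ∀ k i, ‖c (i + 1) - cf A B D k i * c i‖ ≤ C * (4 / 9) ^ k := by
    intro k
    induction k with
    | zero => intro i; simpa [cf] using hC (i + 1)
    | succ k ih =>
      intro i
      obtain ⟨γ, hγ, -, hb, hd⟩ := h i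
      have h1 := stail_den hγ hb hd (stail_norm h k (i + 1))
      have n1 := stail_ne h k i
      have h3 := ih (i + 1)
      have hC0 : 0 ≤ C := (norm_nonneg _).trans (hC 0)
      rw [cf]
      generalize cf A B D k (i + 1) = r at *
      have e : c (i + 1) - -A i / (D i + B i * r) * c i =
          -(B i * (c (i + 1 + 1) - r * c (i + 1))) / (D i + B i * r) := by
        field_simp; linear_combination hc i
      rw [e, norm_div, norm_neg, norm_mul, div_le_iff₀ (by linarith)]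
      calc _ ≤ 4 / 3 * γ * (C * (4 / 9) ^ k) := by gcongr
        _ = C * (4 / 9) ^ (k + 1) * (3 * γ) := by ring
        _ ≤ _ := by gcongr
  have h0 : Tendsto (fun k : ℕ => C * (4 / 9 : ℝ) ^ k) atTop (𝓝 0) := by
    simpa using (tendsto_pow_atTop_nhds_zero_of_lt_one (r := (4 / 9 : ℝ)) (by norm_num)
      (by norm_num)).const_mul C
  refine ⟨sub_eq_zero.1 (norm_le_zero_iff.1 (le_of_tendsto_of_tendsto'
    (((stail_lim h).mul_const (c 0)).const_sub (c 1)).norm h0 fun k => key k 0)), fun hz i => ?_⟩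
  induction i with
  | zero => exact hz
  | succ i ih =>
    exact norm_le_zero_iff.1 (ge_of_tendsto' h0 fun k => by simpa [ih] using key k i)

theorem rho_diff {V : Set ℂ} (hV : IsOpen V) {A B D : ℂ → ℕ → ℂ}
    (hA : ∀ i, DifferentiableOn ℂ (fun z => A z i) V)
    (hB : ∀ i, DifferentiableOn ℂ (fun z => B z i) V)
    (hD : ∀ i, DifferentiableOn ℂ (fun z => D z i) V) (h : ∀ z ∈ V, TD (A z) (B z) (D z)) :
    DifferentiableOn ℂ (fun z => rho (A z) (B z) (D z)) V := by
  have key : ∀ k i, DifferentiableOn ℂ (fun z => cf (A z) (B z) (D z) k i) V := by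
    intro k
    induction k with
    | zero => intro i; simp only [cf]; exact differentiableOn_const _
    | succ k ih =>
      intro i
      simp only [cf]
      exact (hA i).neg.div ((hD i).add ((hB i).mul (ih _))) fun z hz => stail_ne (h z hz) k i
  exact (geoLim hV (fun k => key k 0) (by norm_num) (fun k z hz => stail_step (h z hz) k 0)
    (by norm_num)).1

end Pool.Agent.HillD.S

/-! A holomorphic fixed point. -/

namespace Pool.Agent.HillD.S
open Real Set Filter Topology Polynomial Metric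

theorem fixp {Φ : ℂ → ℂ → ℂ} {κ : ℝ} (hκ : 0 < κ)
    (hd : ∀ (V : Set ℂ) (t u : ℂ → ℂ), IsOpen V → DifferentiableOn ℂ t V →
      DifferentiableOn ℂ u V → (∀ z ∈ V, ‖t z‖ < 1 ∧ ‖u z‖ < 16 * κ) →
      DifferentiableOn ℂ (fun z => Φ (t z) (u z)) V)
    (hb : ∀ x e, ‖x‖ < 1 → ‖e‖ < 16 * κ → ‖Φ x e‖ ≤ κ + 3 / 16 * ‖e‖) :
    ∃ u : ℂ → ℂ, DifferentiableOn ℂ u (ball 0 1) ∧ (∀ x ∈ ball (0 : ℂ) 1, ‖u x‖ ≤ 2 * κ) ∧
      ∀ x ∈ ball (0 : ℂ) 1, ∀ e, ‖e‖ ≤ 5 * κ → Φ x e = e → e = u x := by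
  have lip : ∀ x ∈ ball (0 : ℂ) 1, ∀ z c : ℂ, ‖z‖ ≤ 5 * κ → ‖c‖ ≤ 5 * κ →
      ‖Φ x z - Φ x c‖ ≤ 8 / 11 * ‖z - c‖ := by
    intro x hx z c hz hc
    rw [mem_ball_zero_iff] at hx
    have hs : ∀ w ∈ ball c (11 * κ), ‖w‖ < 16 * κ := fun w hw => by
      linarith [norm_sub_norm_le w c, mem_ball_iff_norm.1 hw]
    have h4 : ∀ w ∈ ball c (11 * κ), ‖Φ x w‖ ≤ 4 * κ := fun w hw => by
      linarith [hb x w hx (hs w hw), hs w hw]
    have h := Complex.dist_le_div_mul_dist_of_mapsTo_ball (f := fun w => Φ x w) (R₂ := 8 * κ)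
      (z := z) (hd _ (fun _ => x) id isOpen_ball (differentiableOn_const x) differentiableOn_id
        fun w hw => ⟨hx, hs w hw⟩)
      (fun w hw => mem_closedBall_iff_norm.2 (by
        linarith [norm_sub_le (Φ x w) (Φ x c), h4 w hw, h4 c (mem_ball_self (by positivity))]))
      (mem_ball_iff_norm.2 (by linarith [norm_sub_le z c]))
    rwa [dist_eq_norm, dist_eq_norm, mul_div_mul_right _ _ hκ.ne'] at h
  obtain ⟨f, f0, fs⟩ : ∃ f : ℕ → ℂ → ℂ, (∀ x, f 0 x = 0) ∧ ∀ k x, f (k + 1) x = Φ x (f k x) :=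
    ⟨fun k x => (Φ x)^[k] 0, fun _ => rfl, fun k x => Function.iterate_succ_apply' _ _ _⟩
  have b2 : ∀ k, ∀ x ∈ ball (0 : ℂ) 1, ‖f k x‖ ≤ 2 * κ := fun k x hx => by
    induction k with
    | zero => rw [f0, norm_zero]; positivity
    | succ k ih =>
      rw [fs]
      linarith [hb x _ (mem_ball_zero_iff.1 hx) (show ‖f k x‖ < 16 * κ by linarith)]
  have b5 : ∀ k, ∀ x ∈ ball (0 : ℂ) 1, ‖f k x‖ ≤ 5 * κ := fun k x hx => by linarith [b2 k x hx]
  have df : ∀ k, DifferentiableOn ℂ (f k) (ball 0 1) := fun k => by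
    induction k with
    | zero => exact (differentiableOn_const 0).congr fun x _ => f0 x
    | succ k ih =>
      exact (hd _ id _ isOpen_ball differentiableOn_id ih fun z hz =>
        ⟨mem_ball_zero_iff.1 hz, by linarith [b2 k z hz]⟩).congr fun x _ => fs k x
  have geo : ∀ x ∈ ball (0 : ℂ) 1, ∀ g : ℕ → ℂ, (∀ k, g (k + 1) = Φ x (g k)) →
      (∀ k, ‖g k‖ ≤ 5 * κ) → ∀ k, ‖g k - f k x‖ ≤ 5 * κ * (8 / 11) ^ k := fun x hx g hg h5 k => by
    induction k with
    | zero => simpa [f0] using h5 0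
    | succ k ih =>
      rw [hg, fs, pow_succ]
      linarith [lip x hx _ _ (h5 k) (b5 k x hx)]
  obtain ⟨h1, h2⟩ := geoLim isOpen_ball df (C := 5 * κ) (θ := 8 / 11) (by norm_num)
    (fun k z hz => geo z hz (fun k => f (k + 1) z) (fun k => fs _ _) (fun k => b5 _ z hz) k)
    (by norm_num)
  refine ⟨_, h1, fun x hx => le_of_tendsto' (h2 x hx).norm fun k => b2 k x hx,
    fun x hx e he hf => ?_⟩
  have h3 := ((tendsto_pow_atTop_nhds_zero_of_lt_one (r := (8 / 11 : ℝ)) (by norm_num)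
    (by norm_num)).const_mul (5 * κ))
  have h4 := le_of_tendsto_of_tendsto' ((h2 x hx).const_sub e).norm h3
    (geo x hx (fun _ => e) (fun _ => hf.symm) fun _ => he)
  rwa [mul_zero, norm_le_zero_iff, sub_eq_zero] at h4

end Pool.Agent.HillD.S

/-! The continuant equation holds on the branch. -/

namespace Pool.Agent.HillD.S
open Real Set Filter Topology Polynomial Metric

section
variable {S T : ℕ} {μ W : ℂ} {u : ℕ → ℂ}

theorem szero_cont_zero (J n : ℕ) : cont S T μ W J n 0 = 0 := by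
  induction J generalizing n with
  | zero => rfl
  | succ J ih =>
    have := ih (n + 2)
    simp only [cont, Prod.fst_zero, Prod.snd_zero, mul_zero, sub_zero]
    exact this

theorem szero_inv (hu : ∀ n, gA T μ W (tri (n + 1)) * u n + gD S T μ W (n + 2) * u (n + 2) +
      gA T μ W (tri (n + 4)) * u (n + 4) = 0) (J n : ℕ) (p : ℂ × ℂ)
    (hp : p.1 * u n + gA T μ W (tri (n + 2)) * p.2 * u (n + 2) = 0) :
    ((cont S T μ W J n p).1 * u (n + 2 * J) +
      gA T μ W (tri (n + 2 * J + 2)) * (cont S T μ W J n p).2 * u (n + 2 * J + 2) = 0) ∧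
    ((∀ i, u (n + 2 * J + 2 * i) = 0) → (∃ i, u (n + 2 * i) ≠ 0) → cont S T μ W J n p = 0) := by
  induction J generalizing n p with
  | zero => exact ⟨hp, fun h ⟨i, hi⟩ => (hi (h i)).elim⟩
  | succ J ih =>
    have e : n + 2 * (J + 1) = n + 2 + 2 * J := by ring
    obtain ⟨h1, h2⟩ := ih (n + 2) (gD S T μ W (n + 2) * p.1 -
      gA T μ W (tri (n + 1)) * gA T μ W (tri (n + 2)) * p.2, p.1) (by
        show _ + gA T μ W (tri (n + 4)) * p.1 * u (n + 4) = 0
        linear_combination p.1 * hu n - gA T μ W (tri (n + 1)) * hp)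
    rw [e]
    refine ⟨h1, fun h ⟨i, hi⟩ => ?_⟩
    by_cases h3 : ∃ i, u (n + 2 + 2 * i) ≠ 0
    · exact h2 h h3
    push Not at h3
    have h4 : u n ≠ 0 := by
      rcases i with _ | i
      · exact hi
      · exact (hi (by rw [← h3 i]; congr 1; ring)).elim
    have h5 : u (n + 2) = 0 := h3 0
    have h6 : u (n + 4) = 0 := h3 1
    have h7 := hu n
    rw [h5, mul_zero, add_zero] at hp
    rw [h5, h6, mul_zero, mul_zero, add_zero, add_zero] at h7
    have h8 := (mul_eq_zero.1 hp).resolve_right h4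
    have h9 := (mul_eq_zero.1 h7).resolve_right h4
    simp only [cont, h8, h9, mul_zero, zero_mul, sub_zero]
    exact szero_cont_zero J (n + 2)

end

theorem szero_tri (n : ℕ) : (tri n : ℂ) = n * (n - 1) / 2 := by
  have := congrArg (fun x : ℝ => (x : ℂ)) (tri_eq n)
  simpa using this

theorem FF_zero {θ0 : ℝ} {l n0 sp sn ff S T : ℕ} (hty : Ty θ0 l n0 sp sn ff) (hl : 1 ≤ l)
    (hS : 0 < S) (hT : 0 < T) (J : ℕ) {μ : ℝ} (h0 : 0 ≤ μ) (hμ : 2 * μ < S)
    (hd : Dom S T (n0 + 2 * J + 2) μ ((T * cur θ0 l (μ / S) : ℝ) : ℂ)) (w : ℂ) :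
    FF n0 sp sn ff S T J μ ((T * cur θ0 l (μ / S) : ℝ) : ℂ) w = 0 := by
  have hS' : (0 : ℝ) < S := by exact_mod_cast hS
  have hθ : θ0 = 0 ∨ θ0 = π / 2 := by
    rcases hty with h | h | h | h <;> simp [h.1]
  obtain ⟨c, hc, hs, hk, ⟨C, hC⟩, n, hn, hn0⟩ := exists_seq hθ hl (div_nonneg h0 hS'.le)
    (by rw [div_lt_iff₀ hS']; linarith)
  obtain ⟨m, hm⟩ : ∃ m, m = μ / S := ⟨_, rfl⟩
  rw [← hm] at hc hd ⊢
  have hm' : (μ : ℂ) = S * m := by
    rw [hm]; exact_mod_cast (mul_div_cancel₀ μ hS'.ne').symm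
  generalize cur θ0 l m = ω at hc hd ⊢
  generalize (μ : ℂ) = ν at hm' hd ⊢
  obtain ⟨W, hW⟩ : ∃ W : ℂ, W = ((T * ω : ℝ) : ℂ) := ⟨_, rfl⟩
  rw [← hW] at hd ⊢
  push_cast at hW
  have hr : ∀ n : ℤ, ν * T * (W - (n - 1) * (n - 2) / 2 * T) * c (n - 2) +
      (gU S T ν W - (n : ℂ) ^ 2 * ((2 * S - ν) * (T : ℂ) ^ 2)) * c n +
      ν * T * (W - (n + 1) * (n + 2) / 2 * T) * c (n + 2) = 0 := fun n => by
    have := congrArg (fun x : ℝ => (x : ℂ)) (hc n)
    push_cast at this
    rw [gU, hm', hW]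
    linear_combination (S * T ^ 2 : ℂ) * this
  have hu : ∀ n : ℕ, gA T ν W (tri (n + 1)) * (c n : ℂ) +
      gD S T ν W (n + 2) * c (n + 2 : ℕ) + gA T ν W (tri (n + 4)) * c (n + 4 : ℕ) = 0 := fun n => by
    have := hr (n + 2)
    rw [add_sub_cancel_right, show (n : ℤ) + 2 + 2 = n + 4 by ring] at this
    simp only [gA, gD, szero_tri]
    push_cast at this ⊢
    linear_combination this
  have h1 : (gD S T ν W n0 + (sp - sn) * (ν * T) * W) * (c n0 : ℂ) +
      gA T ν W (tri (n0 + 2)) * ff * c (n0 + 2 : ℕ) = 0 := by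
    have := hr n0
    simp only [gA, gD, szero_tri]
    rcases hty with ⟨h, -, rfl, rfl, rfl, rfl⟩ | ⟨h, -, rfl, rfl, rfl, rfl⟩ |
      ⟨h, -, rfl, rfl, rfl, rfl⟩ | ⟨h, -, rfl, rfl, rfl, rfl⟩
    · have e := hk h 2
      norm_num [e] at this ⊢
      linear_combination this
    · have e := hk h 1
      norm_num [e] at this ⊢
      linear_combination this
    · have e := hs h 1
      norm_num [e] at this ⊢
      linear_combination this
    · have e : c 0 = 0 := by have := hs h 0; rw [neg_zero] at this; linarith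
      norm_num [e] at this ⊢
      linear_combination this
  have h2 : ∃ i : ℕ, (c (n0 + 2 * i : ℕ) : ℂ) ≠ 0 := by
    refine ⟨(n - n0) / 2, ?_⟩
    rw [show n0 + 2 * ((n - n0) / 2) = n from ?_]
    · exact_mod_cast hn0
    rcases hty with ⟨h, h', rfl, -⟩ | ⟨h, h', rfl, -⟩ | ⟨h, h', rfl, -⟩ | ⟨h, h', rfl, -⟩
    · omega
    · omega
    · omega
    · have : n ≠ 0 := by
        rintro rfl
        have := hs h 0
        rw [neg_zero] at this
        exact hn0 (by push_cast; linarith)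
      omega
  obtain ⟨h3, h4⟩ := szero_inv (u := fun n => (c n : ℂ)) hu J n0
    (w * (gD S T ν W n0 + (sp - sn) * (ν * T) * W), ff * w) (by linear_combination w * h1)
  obtain ⟨h5, h6⟩ := rho_seq hd (c := fun i => (c (n0 + 2 * J + 2 * i : ℕ) : ℂ)) (C := C)
    (fun i => by simpa using hC _) (fun i => by
      have := hu (n0 + 2 * J + 2 * i)
      simp only [tA, tB, tD]
      rw [show n0 + 2 * J + 2 + 2 * i - 1 = n0 + 2 * J + 2 * i + 1 by omega,
        show n0 + 2 * J + 2 + 2 * i = n0 + 2 * J + 2 * i + 2 by omega,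
        show n0 + 2 * J + 2 * (i + 1) = n0 + 2 * J + 2 * i + 2 by omega,
        show n0 + 2 * J + 2 * (i + 2) = n0 + 2 * J + 2 * i + 4 by omega]
      exact this)
  simp only [mul_zero, add_zero, mul_one] at h5 h6
  by_cases h7 : (c (n0 + 2 * J : ℕ) : ℂ) = 0
  · simp only [FF, PQ, h4 (h6 h7) h2, Prod.fst_zero, Prod.snd_zero, mul_zero, add_zero]
  · refine (mul_eq_zero.1 ?_).resolve_right h7
    simp only [FF, PQ, tl]
    rw [h5] at h3
    linear_combination h3

theorem szero_cont_diff {V : Set ℂ} (S T J n : ℕ) {μ W : ℂ → ℂ} {p : ℂ → ℂ × ℂ}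
    (hμ : DifferentiableOn ℂ μ V) (hW : DifferentiableOn ℂ W V) (hp : DifferentiableOn ℂ p V) :
    DifferentiableOn ℂ (fun z => cont S T (μ z) (W z) J n (p z)) V := by
  induction J generalizing n p with
  | zero => exact hp
  | succ J ih =>
    simp only [cont]
    refine ih (n + 2) ?_
    simp only [gA, gD, gU]
    fun_prop

theorem FF_diff {V : Set ℂ} (hV : IsOpen V) (n0 sp sn ff S T J : ℕ) {μ W w : ℂ → ℂ}
    (hμ : DifferentiableOn ℂ μ V) (hW : DifferentiableOn ℂ W V) (hw : DifferentiableOn ℂ w V)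
    (hd : ∀ z ∈ V, Dom S T (n0 + 2 * J + 2) (μ z) (W z)) :
    DifferentiableOn ℂ (fun z => FF n0 sp sn ff S T J (μ z) (W z) (w z)) V := by
  have h1 : DifferentiableOn ℂ (fun z => PQ n0 sp sn ff S T J (μ z) (W z) (w z)) V :=
    szero_cont_diff S T J n0 hμ hW (by simp only [gD, gU]; fun_prop)
  have h2 := rho_diff hV (A := fun z => tA T (n0 + 2 * J + 2) (μ z) (W z))
    (B := fun z => tB T (n0 + 2 * J + 2) (μ z) (W z))
    (D := fun z => tD S T (n0 + 2 * J + 2) (μ z) (W z))
    (fun i => by simp only [tA, gA]; fun_prop) (fun i => by simp only [tB, gA]; fun_prop)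
    (fun i => by simp only [tD, gD, gU]; fun_prop) hd
  have h3 : DifferentiableOn ℂ (fun z => gA T (μ z) (W z) (tri (n0 + 2 * J + 2))) V := by
    simp only [gA]; fun_prop
  exact h1.fst.add ((h3.mul h2).mul h1.snd)

end Pool.Agent.HillD.S
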