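import Pool.Agent.P.MP_ae2765_an.SA

/-! The packed recurrence computes the continuants. -/

namespace Pool.Agent.HillD.S
open Real Set Filter Topology Polynomial Metric

theorem sbig_loop {L U0 U1 nV nZ2 Z1 nZ0 nY1 Y0 S T : ℕ} {k : ℕ → ℕ → ℕ → ℕ → Bool}
    {μ v : ZMod (2 ^ L)} (h0 : (U0 : ZMod (2 ^ L)) = gU S T μ v)
    (h1 : (U1 : ZMod (2 ^ L)) = gU1 S T μ v)
    (h2 : (nV : ZMod (2 ^ L)) = (μ - 2 * S) * (T : ZMod (2 ^ L)) ^ 2)
    (h3 : (nZ2 : ZMod (2 ^ L)) = -((μ * T) ^ 2 * v ^ 2))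
    (h4 : (Z1 : ZMod (2 ^ L)) = (μ * T) ^ 2 * v * T)
    (h5 : (nZ0 : ZMod (2 ^ L)) = -((μ * T) ^ 2 * (T : ZMod (2 ^ L)) ^ 2))
    (h6 : (nY1 : ZMod (2 ^ L)) = -(2 * ((μ * T) ^ 2 * v)))
    (h7 : (Y0 : ZMod (2 ^ L)) = (μ * T) ^ 2 * T) (J : ℕ) :
    ∀ n P Q P1 Q1 : ℕ, loop (2 ^ L - 1) U0 U1 nV nZ2 Z1 nZ0 nY1 Y0 k J n P Q P1 Q1 = true →
      ∃ G0 Q0 G1 R1 : ℕ, k G0 Q0 G1 R1 = true ∧
        (((G0 : ZMod (2 ^ L)), (Q0 : ZMod (2 ^ L))), (G1 : ZMod (2 ^ L)), (R1 : ZMod (2 ^ L))) =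
          cont2 S T μ v J n (((P : ZMod (2 ^ L)), (Q : ZMod (2 ^ L))), (P1 : ZMod (2 ^ L)),
            (Q1 : ZMod (2 ^ L))) := by
  induction J with
  | zero => exact fun n P Q P1 Q1 h => ⟨P, Q, P1, Q1, h, rfl⟩
  | succ J ih =>
    intro n P Q P1 Q1 h
    have h' : (fN (Nat.add n 2) fun n' => fN (tri (Nat.add n 1)) fun al => fN (tri n') fun be =>
      fN (Nat.add U0 (Nat.mul (Nat.mul n' n') nV)) fun d =>
      fN (Nat.add (Nat.add nZ2 (Nat.mul (Nat.add al be) Z1)) (Nat.mul (Nat.mul al be) nZ0))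
        fun ab =>
      fN (Nat.land (Nat.add (Nat.mul d P) (Nat.mul ab Q)) (2 ^ L - 1)) fun P' =>
      fN (Nat.land (Nat.add (Nat.add (Nat.mul d P1) (Nat.mul U1 P))
        (Nat.add (Nat.mul ab Q1) (Nat.mul (Nat.add nY1 (Nat.mul (Nat.add al be) Y0)) Q)))
        (2 ^ L - 1)) fun P1' =>
      loop (2 ^ L - 1) U0 U1 nV nZ2 Z1 nZ0 nY1 Y0 k J n' P' P P1' P1) = true := h
    simp only [fN_eq] at h'
    obtain ⟨G0, Q0, G1, R1, hk, he⟩ := ih _ _ _ _ _ h'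
    refine ⟨G0, Q0, G1, R1, hk, ?_⟩
    rw [he, cont2, cast_land, cast_land]
    simp only [Nat.add_eq, Nat.mul_eq]
    congr 2
    · congr 1
      push_cast
      simp only [h0, h2, h3, h4, h5, gD, gA]
      push_cast
      ring
    · congr 1
      push_cast
      simp only [h0, h1, h2, h3, h4, h5, h6, h7, gD, gA]
      push_cast
      ring

theorem big_sound {n0 sp sn ff S T μ0 μ1 J B L : ℕ} {V w : List ℤ} {k : ℕ → ℕ → ℕ → ℕ → Bool}
    (h : big n0 sp sn ff S T μ0 μ1 J B (2 ^ L - 1) V w k = true) :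
    ∃ G0 Q0 G1 Q1, k G0 Q0 G1 Q1 = true ∧
      Rep L B G0 (PQ2 n0 sp sn ff S T J (mu μ0 μ1 X) (ev V X) (ev w X)).1.1 ∧
      Rep L B Q0 (PQ2 n0 sp sn ff S T J (mu μ0 μ1 X) (ev V X) (ev w X)).1.2 ∧
      Rep L B G1 (PQ2 n0 sp sn ff S T J (mu μ0 μ1 X) (ev V X) (ev w X)).2.1 ∧
      Rep L B Q1 (PQ2 n0 sp sn ff S T J (mu μ0 μ1 X) (ev V X) (ev w X)).2.2 := by
  unfold big at h
  simp only [fN_eq] at h
  have hm := cast_mu L B μ0 μ1
  have hv := cast_pk L B V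
  have hw := cast_pk L B w
  have hU := cast_uU L S T (Nat.add μ0 (Nat.shiftLeft μ1 B)) (pk (2 ^ L - 1) B V)
  have hφ := map_PQ2 (aeval ((2 : ZMod (2 ^ L)) ^ B) : ℤ[X] →ₐ[ℤ] ZMod (2 ^ L)).toRingHom
    n0 sp sn ff S T J (mu μ0 μ1 X) (ev V X) (ev w X)
  rw [map_mu, map_ev, map_ev] at hφ
  have hX : (aeval ((2 : ZMod (2 ^ L)) ^ B) : ℤ[X] →ₐ[ℤ] ZMod (2 ^ L)).toRingHom X =
      (2 : ZMod (2 ^ L)) ^ B := aeval_X _
  rw [hX, ← hm, ← hv, ← hw] at hφ
  generalize Nat.add μ0 (Nat.shiftLeft μ1 B) = m at h hU hφ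
  generalize pk (2 ^ L - 1) B V = v at h hU hφ
  generalize pk (2 ^ L - 1) B w = ww at h hφ
  obtain ⟨G0, Q0, G1, R1, hk, he⟩ := sbig_loop (μ := (m : ZMod (2 ^ L))) (v := (v : ZMod (2 ^ L)))
    (S := S) (T := T) hU
    (by rw [cast_land]; simp only [Nat.add_eq, Nat.mul_eq]; push_cast [cast_ng]; unfold gU1; ring)
    (by simp only [Nat.add_eq, Nat.mul_eq]; push_cast [cast_ng]; ring)
    (by rw [cast_ng]; simp only [Nat.mul_eq]; push_cast [cast_land]; ring)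
    (by simp only [Nat.mul_eq]; push_cast [cast_land]; ring)
    (by rw [cast_ng]; simp only [Nat.mul_eq]; push_cast; ring)
    (by rw [cast_ng]; simp only [Nat.mul_eq]; push_cast [cast_land]; ring)
    (by simp only [Nat.mul_eq]; push_cast; ring) J _ _ _ _ _ h
  have hs : PQ2 n0 sp sn ff S T J (m : ZMod (2 ^ L)) (v : ZMod (2 ^ L)) (ww : ZMod (2 ^ L)) =
      (((G0 : ZMod (2 ^ L)), (Q0 : ZMod (2 ^ L))), (G1 : ZMod (2 ^ L)), (R1 : ZMod (2 ^ L))) := by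
    rw [he, PQ2, cast_land, cast_land]
    simp only [Nat.add_eq, Nat.mul_eq]
    congr 2
    · congr 1
      · push_cast [cast_land, cast_ng, cast_mask, hU]
        unfold gD
        ring
      · push_cast
        ring
    · congr 1
      · push_cast [cast_land, cast_ng, cast_mask]
        unfold gU1
        ring
      · simp
  rw [hs] at hφ
  have e1 := congrArg Prod.fst hφ
  have e2 := congrArg Prod.snd hφ
  exact ⟨G0, Q0, G1, R1, hk, (congrArg Prod.fst e1).symm, (congrArg Prod.snd e1).symm,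
    (congrArg Prod.fst e2).symm, (congrArg Prod.snd e2).symm⟩

end Pool.Agent.HillD.S

/-! The final inequalities. -/

namespace Pool.Agent.HillD.S
open Real Set Filter Topology Polynomial Metric

theorem sfin_one {B n q E M M1 X0 X1 c : ℕ} {g0 g1 : ℤ[X]} {F : ℂ → ℂ[X]} (hq : 2 ≤ q)
    (hn : 1 ≤ n) (hB : 1 ≤ B) (hE : 1 ≤ E) (h0 : ∀ x, (F x).coeff 0 = aeval x g0)
    (h1 : ∀ x, (F x).coeff 1 = aeval x g1)
    (m1 : ∀ x e : ℂ, ‖x‖ ≤ q → ‖e‖ ≤ E → ‖(F x).eval e‖ ≤ M)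
    (m2 : ∀ x e : ℂ, ‖x‖ ≤ 1 → ‖e‖ ≤ E → ‖(F x).eval e‖ ≤ M1)
    (r0 : Rep (B * n) B X0 g0) (r1 : Rep (B * n) B X1 (g1 - C (c : ℤ))) (hc : M + c < 2 ^ (B - 1))
    {x e : ℂ} (hx : ‖x‖ ≤ 1) (he : ‖e‖ ≤ E / 2) :
    ‖(F x).eval e - c * e‖ ≤ (nrm B (2 ^ (B - 1)) (2 ^ B - 1) 1 n X0 + (2 * M / q ^ n + 1 : ℕ)) +
      (nrm B (2 ^ (B - 1)) (2 ^ B - 1) 1 n X1 + (2 * M / q ^ n + 1 : ℕ) / E) * ‖e‖ +
        2 * M1 * (‖e‖ / E) ^ 2 := by
  have hE1 : (1 : ℝ) ≤ E := by exact_mod_cast hE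
  have hE0 : (0 : ℝ) < E := by linarith
  have hq2 : (2 : ℝ) ≤ q := by exact_mod_cast hq
  have hq0 : (0 : ℝ) < q := by linarith
  have b0 := icoeff_le g0 hq0 (M := M) fun z hz => by
    simpa [h0] using coeff_le (F z) hE0 (fun e => m1 z e hz) 0
  have a1 : ∀ z : ℂ, ‖z‖ ≤ q → ‖aeval z g1‖ ≤ M / E := fun z hz => by
    rw [le_div_iff₀ hE0]
    simpa [h1] using coeff_le (F z) hE0 (fun e => m1 z e hz) 1
  have b1 := icoeff_le g1 hq0 a1
  have b2 := icoeff_le (g1 - C (c : ℤ)) hq0 (M := M + c) fun z hz => by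
    rw [map_sub]
    refine (norm_sub_le _ _).trans
      (add_le_add ((a1 z hz).trans (div_le_self (by positivity) hE1)) ?_)
    simp
  have dg : ∀ (a m : ℕ) (k : ℕ), (a : ℝ) * q ^ k ≤ m → m < 2 ^ (B - 1) → a < 2 ^ (B - 1) :=
    fun a m k h h' => by
      have : (a : ℝ) ≤ m :=
        (le_mul_of_one_le_right (by positivity) (one_le_pow₀ (by linarith))).trans h
      exact lt_of_le_of_lt (by exact_mod_cast this) h'
  have ht : 2 * (M : ℝ) / q ^ n ≤ (2 * M / q ^ n + 1 : ℕ) := by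
    rw [div_le_iff₀' (by positivity)]
    exact_mod_cast (Nat.lt_mul_div_succ (2 * M) (pow_pos (by omega : 0 < q) n)).le
  have t0 := aeval_le_tail g0 hq2 (by positivity) n (fun k _ => b0 k) hx
  have t1 := aeval_le_tail (g1 - C (c : ℤ)) hq2 (M := M / E) (by positivity) n (fun k hk => by
    rw [coeff_sub, coeff_C, if_neg (by omega), sub_zero]; exact b1 k) hx
  rw [← nrm_eq hB le_rfl r0 fun k => dg _ M k (b0 k) (by omega)] at t0
  rw [← nrm_eq hB le_rfl r1 fun k => dg _ (M + c) k (by exact_mod_cast b2 k) hc] at t1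
  have t2 := eval_second (F x) hE0 (fun e => m2 x e hx) he
  have e1 : (F x).eval e - c * e = aeval x g0 + aeval x (g1 - C (c : ℤ)) * e +
      ((F x).eval e - (F x).coeff 0 - (F x).coeff 1 * e) := by
    rw [h0, h1, map_sub]; simp; ring
  rw [e1]
  refine (norm_add₃_le ..).trans (add_le_add (add_le_add (t0.trans (by linarith)) ?_) t2)
  rw [norm_mul]
  refine mul_le_mul_of_nonneg_right (t1.trans (add_le_add le_rfl ?_)) (norm_nonneg _)
  rw [show 2 * ((M : ℝ) / E) / q ^ n = 2 * M / q ^ n / E by ring]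
  exact div_le_div_of_nonneg_right ht hE0.le

theorem fin_sound {n0 sp sn ff S T μ0 μ1 J E κ B n q bb MP MQ MP1 MQ1 G0 Q0 G1 Q1 : ℕ}
    {V w : List ℤ} (h : fin E κ B n q (2 ^ (B * n) - 1) bb MP MQ MP1 MQ1 G0 Q0 G1 Q1 = true)
    (hq : 2 ≤ q) (hn : 1 ≤ n) (hB : 1 ≤ B) (hE : 32 * κ ≤ E) (hκ : 1 ≤ κ)
    (r1 : Rep (B * n) B G0 (PQ2 n0 sp sn ff S T J (mu μ0 μ1 X) (ev V X) (ev w X)).1.1)
    (r2 : Rep (B * n) B Q0 (PQ2 n0 sp sn ff S T J (mu μ0 μ1 X) (ev V X) (ev w X)).1.2)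
    (r3 : Rep (B * n) B G1 (PQ2 n0 sp sn ff S T J (mu μ0 μ1 X) (ev V X) (ev w X)).2.1)
    (r4 : Rep (B * n) B Q1 (PQ2 n0 sp sn ff S T J (mu μ0 μ1 X) (ev V X) (ev w X)).2.2)
    (m1 : MB n0 sp sn ff S T J μ0 μ1 V w E q MP MQ)
    (m2 : MB n0 sp sn ff S T J μ0 μ1 V w E 1 MP1 MQ1) :
    ∃ Cn : ℕ, 0 < Cn ∧ ∀ x e b : ℂ, ‖x‖ ≤ 1 → ‖e‖ ≤ 16 * κ → ‖b‖ ≤ bb / 3 →
      ‖e - ((PQ n0 sp sn ff S T J (mu μ0 μ1 x) (ev V x + e) (ev w x)).1 +
        b * (PQ n0 sp sn ff S T J (mu μ0 μ1 x) (ev V x + e) (ev w x)).2) / Cn‖ ≤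
        κ + 3 / 16 * ‖e‖ := by
  simp only [fin, fN_eq, Bool.and_eq_true, Nat.ble_eq, Nat.blt_eq, Nat.mul_eq, Nat.sub_eq,
    Nat.pow_eq] at h
  set Cn := d0 (2 ^ (B - 1)) (2 ^ B - 1) G1
  have r5 := r3.sub_const Cn
  generalize Nat.add G1 _ = G2 at h r5
  obtain ⟨⟨c1, c2⟩, c3, c4⟩ := h
  simp only [Nat.add_eq, Nat.succ_eq_add_one, show ∀ a b : ℕ, a.div b = a / b from fun _ _ => rfl]
    at c1 c3 c4
  have hC : 0 < Cn := Nat.pos_of_ne_zero fun h => by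
    rw [h] at c3
    generalize 2 * MP / q ^ n = t at c3
    omega
  refine ⟨Cn, hC, fun x e b hx he hb => ?_⟩
  set p := fun x : ℂ => PQ n0 sp sn ff S T J (C (mu μ0 μ1 x)) (C (ev V x) + X) (C (ev w x))
  set g := PQ2 n0 sp sn ff S T J (mu μ0 μ1 (X : ℤ[X])) (ev V X) (ev w X)
  have ee : ∀ x e : ℂ, PQ n0 sp sn ff S T J (mu μ0 μ1 x) (ev V x + e) (ev w x) =
      ((p x).1.eval e, (p x).2.eval e) := fun x e => by
    have := map_PQ (evalRingHom e) n0 sp sn ff S T J (C (mu μ0 μ1 x)) (C (ev V x) + X) (C (ev w x))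
    simp only [coe_evalRingHom, eval_C, eval_add, eval_X] at this
    exact this.symm
  have ec : ∀ x : ℂ, ((aeval x g.1.1, aeval x g.1.2), aeval x g.2.1, aeval x g.2.2) =
      (((p x).1.coeff 0, (p x).2.coeff 0), (p x).1.coeff 1, (p x).2.coeff 1) := fun x => by
    have := map_PQ2 (aeval x : ℤ[X] →ₐ[ℤ] ℂ).toRingHom n0 sp sn ff S T J (mu μ0 μ1 X) (ev V X)
      (ev w X)
    rw [map_mu, map_ev, map_ev, PQ2_coeff _ _ _ _ _ _ _ (mu μ0 μ1 (_ : ℂ))] at this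
    simp only [AlgHom.toRingHom_eq_coe, RingHom.coe_coe, aeval_X] at this
    exact this
  simp only [MB, ee, Nat.cast_one] at m1 m2
  simp only [Prod.mk.injEq] at ec
  have hE' : 32 * (κ : ℝ) ≤ E := by exact_mod_cast hE
  have hκ' : (1 : ℝ) ≤ κ := by exact_mod_cast hκ
  have hE0 : (0 : ℝ) < E := by linarith
  have hC0 : (0 : ℝ) < Cn := by exact_mod_cast hC
  have a1 := sfin_one hq hn hB (by omega) (fun x => (ec x).1.1.symm) (fun x => (ec x).2.1.symm)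
    (fun x e h h' => (m1 x e h h').1) (fun x e h h' => (m2 x e h h').1) r1 r5 c1 hx
    (e := e) (by linarith)
  have a2 := sfin_one (c := 0) hq hn hB (by omega) (fun x => (ec x).1.2.symm)
    (fun x => (ec x).2.2.symm) (fun x e h h' => (m1 x e h h').2) (fun x e h h' => (m2 x e h h').2)
    r2 (by simpa using r4) c2 hx (e := e) (by linarith)
  generalize 2 * MP / q ^ n + 1 = tP at *
  generalize 2 * MQ / q ^ n + 1 = tQ at *
  generalize nrm B (2 ^ (B - 1)) (2 ^ B - 1) 1 n = N at *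
  have hC1 : (Cn : ℂ) ≠ 0 := by exact_mod_cast hC.ne'
  rw [ee, show e - ((p x).1.eval e + b * (p x).2.eval e) / Cn =
    -(((p x).1.eval e - Cn * e) + b * ((p x).2.eval e - (0 : ℕ) * e)) / Cn by
      field_simp; simp; ring,
    norm_div, norm_neg, Complex.norm_natCast, div_le_iff₀ hC0]
  refine (norm_add_le _ _).trans ?_
  rw [norm_mul]
  refine (add_le_add a1 (mul_le_mul hb a2 (norm_nonneg _) (by positivity))).trans ?_
  have d3 : (3 * (N G0 + tP) + bb * (N Q0 + tQ) : ℝ) ≤ 3 * κ * Cn := by exact_mod_cast c3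
  have d4 : (16 * (E * (3 * (E * N G2 + tP) + bb * (E * N Q1 + tQ)) +
      32 * κ * (3 * MP1 + bb * MQ1)) : ℝ) ≤ 9 * Cn * (E * E) := by exact_mod_cast c4
  have d5 : (N G2 + tP / E + bb / 3 * (N Q1 + tQ / E) + 32 * κ * (MP1 + bb / 3 * MQ1) / E ^ 2 : ℝ)
      ≤ 3 / 16 * Cn := by
    refine le_of_mul_le_mul_right ?_ (show (0 : ℝ) < 48 * E ^ 2 by positivity)
    refine le_trans (le_of_eq ?_) (d4.trans (le_of_eq (by ring)))
    field_simp
    ring
  have d6 := mul_le_mul_of_nonneg_right d5 (norm_nonneg e)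
  have d7 := mul_le_mul_of_nonneg_right he
    (show 0 ≤ 2 * (MP1 + bb / 3 * MQ1) / E ^ 2 * ‖e‖ by positivity)
  have d8 : ∀ M : ℝ, 2 * M * (‖e‖ / E) ^ 2 = 2 * M / E ^ 2 * ‖e‖ * ‖e‖ := fun M => by ring
  rw [d8, d8]
  linear_combination d6 + d7 + 1 / 3 * d3

end Pool.Agent.HillD.S

/-! Majorants. -/

namespace Pool.Agent.HillD.S
open Real Set Filter Topology Polynomial Metric

theorem smaj_mu (S μ0 μ1 r : ℕ) {x : ℂ} (hx : ‖x‖ ≤ r) : ‖mu μ0 μ1 x‖ ≤ lb 0 1 S μ0 μ1 r := by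
  simpa using norm_lb 0 1 S μ0 μ1 r hx

theorem dv_sound {S T μ0 μ1 C r dU Vb E : ℕ} {V : List ℤ} (hU : UB S T μ0 μ1 V C r dU) {x e : ℂ}
    (hx : ‖x‖ ≤ r) (hV : ‖ev V x‖ ≤ Vb) (he : ‖e‖ ≤ E) :
    ‖gU S T (mu μ0 μ1 x) (ev V x + e) - C‖ ≤ dv S T μ0 μ1 r Vb dU E := by
  have h0 := smaj_mu S μ0 μ1 r hx
  have h1 : ‖(S : ℂ) - 2 * mu μ0 μ1 x‖ ≤ lb 1 2 S μ0 μ1 r := by
    simpa using norm_lb 1 2 S μ0 μ1 r hx
  have h2 := hU x hx
  have h3 : gU S T (mu μ0 μ1 x) (ev V x + e) - C = (gU S T (mu μ0 μ1 x) (ev V x) - C) +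
      e * (4 * (S - 2 * mu μ0 μ1 x) * ev V x + 2 * mu μ0 μ1 x * T +
        2 * (S - 2 * mu μ0 μ1 x) * e) := by
    unfold gU; ring
  rw [h3]
  simp only [dv, Nat.add_eq, Nat.mul_eq]
  push_cast
  refine (norm_add_le _ _).trans (add_le_add h2 ?_)
  rw [norm_mul]
  refine mul_le_mul he (norm_add₃_le.trans ?_) (norm_nonneg _) (by positivity)
  simp only [norm_mul, Complex.norm_ofNat, Complex.norm_natCast]
  gcongr

theorem smaj_ad (a b : ℕ) : ‖(a : ℂ) - b‖ = ad a b := by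
  rw [ad_eq, ← Complex.ofReal_natCast, ← Complex.ofReal_natCast, ← Complex.ofReal_sub,
    Complex.norm_real, Real.norm_eq_abs]

theorem smaj_D {S T μ0 μ1 C r dev : ℕ} {x W : ℂ} (hx : ‖x‖ ≤ r)
    (h : ‖gU S T (mu μ0 μ1 x) W - C‖ ≤ dev) (n : ℕ) :
    ‖gD S T (mu μ0 μ1 x) W n‖ ≤ dn C dev (2 * S * (T * T)) (μ0 * (T * T)) (μ1 * r * (T * T)) n := by
  have h3 : gD S T (mu μ0 μ1 x) W n = (((C + n * n * (μ0 * (T * T)) : ℕ) : ℂ) -
      ((n * n * (2 * S * (T * T)) : ℕ) : ℂ)) + (gU S T (mu μ0 μ1 x) W - C) +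
      n * n * (μ1 * x * (T * T)) := by
    unfold gD mu; push_cast; ring
  rw [h3]
  refine norm_add₃_le.trans ?_
  rw [smaj_ad]
  simp only [dn, Nat.add_eq, Nat.mul_eq, norm_mul, Complex.norm_natCast]
  push_cast
  gcongr

theorem smaj_A {T V0 dW mb : ℕ} {μ W : ℂ} (hμ : ‖μ‖ ≤ mb) (hW : ‖W - V0‖ ≤ dW) (a : ℕ) :
    ‖gA T μ W a‖ ≤ mb * T * (ad V0 (a * T) + dW) := by
  have h3 : gA T μ W a = μ * T * (((V0 : ℂ) - ((a * T : ℕ) : ℂ)) + (W - V0)) := by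
    unfold gA; push_cast; ring
  rw [h3, norm_mul, norm_mul, Complex.norm_natCast, ← smaj_ad]
  have := norm_add_le ((V0 : ℂ) - ((a * T : ℕ) : ℂ)) (W - V0)
  gcongr
  linarith

theorem smaj_mj {C dev v0 v1 vr T V0 dW mb S : ℕ} {k : ℕ → ℕ → Bool} (J : ℕ) :
    ∀ n P Q : ℕ, mj C dev v0 v1 vr T V0 dW (mb * mb * (T * T)) k J n P Q = true →
      ∃ MP MQ, k MP MQ = true ∧ ∀ (μ W : ℂ) (p : ℂ × ℂ),
        (∀ n, ‖gD S T μ W n‖ ≤ dn C dev v0 v1 vr n) →
        (∀ a, ‖gA T μ W a‖ ≤ mb * T * (ad V0 (a * T) + dW)) → ‖p.1‖ ≤ P → ‖p.2‖ ≤ Q →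
        ‖(cont S T μ W J n p).1‖ ≤ MP ∧ ‖(cont S T μ W J n p).2‖ ≤ MQ := by
  induction J with
  | zero => exact fun n P Q h => ⟨P, Q, h, fun _ _ _ _ _ h1 h2 => ⟨h1, h2⟩⟩
  | succ J ih =>
    intro n P Q h
    have h' : mj C dev v0 v1 vr T V0 dW (mb * mb * (T * T)) k J (n + 2)
        (dn C dev v0 v1 vr (n + 2) * P + mb * mb * (T * T) * ((ad V0 (tri (n + 1) * T) + dW) *
          (ad V0 (tri (n + 2) * T) + dW)) * Q) P = true := by
      rw [← h]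
      simp only [mj, fN_eq, Nat.add_eq, Nat.mul_eq]
    obtain ⟨MP, MQ, hk, hb⟩ := ih _ _ _ h'
    refine ⟨MP, MQ, hk, fun μ W p hD hA h1 h2 => ?_⟩
    rw [cont]
    refine hb μ W _ hD hA ((norm_sub_le _ _).trans ?_) h1
    have a1 := hA (tri (n + 1))
    have a2 := hA (tri (n + 2))
    have a3 := hD (n + 2)
    simp only [norm_mul]
    push_cast
    calc _ ≤ (dn C dev v0 v1 vr (n + 2) : ℝ) * P + (mb * T * (ad V0 (tri (n + 1) * T) + dW)) *
          (mb * T * (ad V0 (tri (n + 2) * T) + dW)) * Q := by gcongr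
      _ = _ := by ring

theorem maj_sound {n0 sp sn ff S T E μ0 μ1 J V0 C dU dV wn r : ℕ} {V w : List ℤ}
    {k : ℕ → ℕ → Bool} (h : maj n0 (Nat.add sp sn) ff S T E μ0 μ1 J V0 C dU dV wn r k = true)
    (hU : UB S T μ0 μ1 V C r dU) (hV : ∀ x : ℂ, ‖x‖ ≤ r → ‖ev V x - V0‖ ≤ dV)
    (hw : ∀ x : ℂ, ‖x‖ ≤ r → ‖ev w x‖ ≤ wn) :
    ∃ MP MQ, k MP MQ = true ∧ MB n0 sp sn ff S T J μ0 μ1 V w E r MP MQ := by
  simp only [maj, fN_eq, Nat.add_eq, Nat.mul_eq] at h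
  obtain ⟨MP, MQ, hk, hb⟩ := smaj_mj (S := S) J _ _ _ h
  refine ⟨MP, MQ, hk, fun x e hx he => ?_⟩
  have h0 := smaj_mu S μ0 μ1 r hx
  have h1 := hV x hx
  have h2 := hw x hx
  have h3 : ‖ev V x‖ ≤ (V0 + dV : ℕ) := by
    have := norm_add_le (V0 : ℂ) (ev V x - V0)
    rw [add_sub_cancel, Complex.norm_natCast] at this
    push_cast; linarith
  have h4 : ‖ev V x + e - V0‖ ≤ (dV + E : ℕ) := by
    have := norm_add_le (ev V x - V0) e
    rw [sub_add_eq_add_sub] at this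
    push_cast; linarith
  have h5 : ‖ev V x + e‖ ≤ V0 + (dV + E) := by
    have := norm_add_le (ev V x) e
    push_cast at h3; linarith
  have hD := smaj_D hx (dv_sound hU hx h3 he)
  have h6 : ‖(sp : ℂ) - sn‖ ≤ sp + sn := by simpa using norm_sub_le (sp : ℂ) sn
  refine hb _ _ _ hD (smaj_A h0 h4) ?_ ?_
  · have a := hD n0
    rw [norm_mul]
    push_cast
    refine mul_le_mul h2 ((norm_add_le _ _).trans (add_le_add a ?_)) (norm_nonneg _) (by positivity)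
    simp only [norm_mul, Complex.norm_natCast]
    calc _ ≤ ((sp : ℝ) + sn) * (lb 0 1 S μ0 μ1 r * T) * (V0 + (dV + E)) := by gcongr
      _ = _ := by ring
  · rw [norm_mul, Complex.norm_natCast]
    push_cast
    gcongr

end Pool.Agent.HillD.S

/-! Diagonal dominance. -/

namespace Pool.Agent.HillD.S
open Real Set Filter Topology Polynomial Metric

theorem sdom_mu (μ0 μ1 : ℕ) {x : ℂ} (hx : ‖x‖ ≤ 1) : ‖mu μ0 μ1 x‖ ≤ (μ0 : ℝ) + μ1 := by
  refine (norm_add_le _ _).trans ?_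
  rw [norm_mul, Complex.norm_natCast, Complex.norm_natCast]
  exact add_le_add le_rfl (mul_le_of_le_one_right (Nat.cast_nonneg _) hx)

theorem sdom_gA (T V0 c : ℕ) {μ W : ℂ} {M d : ℝ} (hμ : ‖μ‖ ≤ M) (hW : ‖W - V0‖ ≤ d) :
    ‖gA T μ W c‖ ≤ M * T * (|(V0 : ℝ) - c * T| + d) := by
  have h1 : ‖W - c * T‖ ≤ |(V0 : ℝ) - c * T| + d := by
    have h2 : W - c * T = (((V0 : ℝ) - c * T : ℝ) : ℂ) + (W - V0) := by push_cast; ring
    rw [h2]
    refine (norm_add_le _ _).trans ?_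
    rw [Complex.norm_real, Real.norm_eq_abs]
    exact add_le_add le_rfl hW
  rw [gA, norm_mul, norm_mul, Complex.norm_natCast]
  exact mul_le_mul (mul_le_mul_of_nonneg_right hμ (Nat.cast_nonneg _)) h1 (norm_nonneg _)
    (mul_nonneg ((norm_nonneg _).trans hμ) (Nat.cast_nonneg _))

theorem dom_sound {S T μ0 μ1 V0 C dU dV η n1 : ℕ} {V : List ℤ} (hU : UB S T μ0 μ1 V C 1 dU)
    (hT : 0 < T) (hμ : 0 < μ1) (hn : 10 ≤ n1) (h1 : dV + η ≤ V0)
    (h2 : 2 * (V0 + (dV + η)) ≤ n1 * n1 * T)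
    (h3 : 4 * (C + dv S T μ0 μ1 1 (V0 + dV) dU η) + 11 * (μ0 + μ1) * (n1 * n1) * (T * T) ≤
      8 * S * (n1 * n1) * (T * T)) {x e : ℂ} (hx : ‖x‖ ≤ 1) (hV : ‖ev V x - V0‖ ≤ dV)
    (he : ‖e‖ ≤ η) : Dom S T n1 (mu μ0 μ1 x) (ev V x + e) ∧
      ‖gA T (mu μ0 μ1 x) (ev V x + e) (tri n1)‖ ≤
        ((μ0 + μ1) * T * (ad V0 (tri n1 * T) + (dV + η)) : ℕ) := by
  have hm := sdom_mu μ0 μ1 hx
  have hW : ‖ev V x + e - V0‖ ≤ (dV : ℝ) + η := by
    rw [add_sub_right_comm]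
    exact (norm_add_le _ _).trans (add_le_add hV he)
  have hA := fun c => sdom_gA T V0 c hm hW
  refine ⟨fun i => ?_, (hA _).trans (le_of_eq ?_)⟩
  swap
  · push_cast
    rw [ad_eq]
    push_cast
    rfl
  have hVb : ‖ev V x‖ ≤ ((V0 + dV : ℕ) : ℝ) := by
    have h := norm_add_le (V0 : ℂ) (ev V x - V0)
    rw [add_sub_cancel, Complex.norm_natCast] at h
    push_cast
    linarith
  have hG := dv_sound hU (by simpa using hx) hVb he
  generalize dv S T μ0 μ1 1 (V0 + dV) dU η = D at h3 hG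
  obtain ⟨n, hn'⟩ : ∃ n, n = n1 + 2 * i := ⟨_, rfl⟩
  have hT' : (0 : ℝ) < T := Nat.cast_pos.2 hT
  have hM : (0 : ℝ) < μ0 + μ1 := add_pos_of_nonneg_of_pos (Nat.cast_nonneg _) (Nat.cast_pos.2 hμ)
  have hn1 : (10 : ℝ) ≤ n1 := by exact_mod_cast hn
  have hn2 : (n1 : ℝ) ≤ n := by exact_mod_cast (by omega : n1 ≤ n)
  have hn3 : (n1 : ℝ) * n1 ≤ n * n := mul_self_le_mul_self (by linarith) hn2
  have h1' : (dV : ℝ) + η ≤ V0 := by exact_mod_cast h1
  have h2' : 2 * ((V0 : ℝ) + (dV + η)) ≤ n1 * n1 * T := by exact_mod_cast h2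
  have h3' : 4 * ((C : ℝ) + D) + 11 * (μ0 + μ1) * (n1 * n1) * (T * T) ≤
      8 * S * (n1 * n1) * (T * T) := by exact_mod_cast h3
  have h4 : 2 * ((V0 : ℝ) + (dV + η)) ≤ n * n * T :=
    h2'.trans (mul_le_mul_of_nonneg_right hn3 hT'.le)
  have hB : ∀ (c : ℕ) (k : ℝ), 1 ≤ k → (c : ℝ) ≤ k * (n * n / 2) →
      ‖gA T (mu μ0 μ1 x) (ev V x + e) c‖ ≤ k * ((μ0 + μ1) * (n * n) * (T * T) / 2) := by
    intro c k hk hc
    have h5 : (c : ℝ) * T ≤ k * (n * n / 2) * T := mul_le_mul_of_nonneg_right hc hT'.le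
    have h6 : (0 : ℝ) ≤ c * T := by positivity
    have h7 : 1 * ((n : ℝ) * n / 2 * T) ≤ k * (n * n / 2 * T) :=
      mul_le_mul_of_nonneg_right hk (by positivity)
    have h8 : |(V0 : ℝ) - c * T| + (dV + η) ≤ k * (n * n / 2) * T := by
      rcases abs_cases ((V0 : ℝ) - c * T) with h | h <;> linarith [h.1]
    refine (hA c).trans ((mul_le_mul_of_nonneg_left h8 (by positivity)).trans (le_of_eq ?_))
    ring
  refine ⟨(μ0 + μ1) * (n * n) * (T * T) / 2, ?_, ?_, ?_, ?_⟩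
  · have : (0 : ℝ) < n := by linarith
    positivity
  · rw [tA, ← hn', ← one_mul (_ / 2 : ℝ)]
    refine hB _ 1 le_rfl ?_
    rw [tri_eq, Nat.cast_sub (by omega)]
    push_cast
    nlinarith
  · rw [tB, ← hn']
    refine hB _ _ (by norm_num) ?_
    rw [tri_eq]
    push_cast
    nlinarith
  · rw [tD, ← hn', gD]
    have h5 : ‖gU S T (mu μ0 μ1 x) (ev V x + e)‖ ≤ (C : ℝ) + D := by
      have h := norm_add_le (C : ℂ) (gU S T (mu μ0 μ1 x) (ev V x + e) - C)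
      rw [add_sub_cancel, Complex.norm_natCast] at h
      linarith
    have h6 : 2 * (S : ℝ) - (μ0 + μ1) ≤ ‖2 * (S : ℂ) - mu μ0 μ1 x‖ := by
      have h := norm_sub_norm_le (2 * (S : ℂ)) (mu μ0 μ1 x)
      rw [norm_mul, Complex.norm_natCast, Complex.norm_ofNat] at h
      linarith
    have h7 := norm_sub_norm_le ((n : ℂ) ^ 2 * ((2 * S - mu μ0 μ1 x) * (T : ℂ) ^ 2))
      (gU S T (mu μ0 μ1 x) (ev V x + e))
    rw [norm_sub_rev, norm_mul, norm_mul, norm_pow, norm_pow, Complex.norm_natCast,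
      Complex.norm_natCast] at h7
    have h8 : (n : ℝ) ^ 2 * ((2 * (S : ℝ) - (μ0 + μ1)) * (T : ℝ) ^ 2) ≤
        (n : ℝ) ^ 2 * (‖2 * (S : ℂ) - mu μ0 μ1 x‖ * (T : ℝ) ^ 2) := by gcongr
    have h9 : (0 : ℝ) ≤ (8 * S - 11 * (μ0 + μ1)) * (T * T) := by
      refine nonneg_of_mul_nonneg_left (b := (n1 : ℝ) * n1) ?_ (by positivity)
      have : (0 : ℝ) ≤ C + D := by positivity
      linarith
    have h10 := mul_le_mul_of_nonneg_left hn3 h9
    linarith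

end Pool.Agent.HillD.S

/-! Real and complex derivatives. -/

namespace Pool.Agent.HillD.S
open Real Set Filter Topology Polynomial Metric

/-- Derivatives of a real function which is the restriction of a holomorphic one. -/
theorem transfer {H : ℂ → ℂ} (hH : DifferentiableOn ℂ H (ball 0 1)) {g : ℝ → ℝ} {a b t x : ℝ}
    (hb : b ≠ 0) (ht : t ≠ 0) (hx : |x| < 1)
    (hg : ∀ᶠ y : ℝ in 𝓝 x, ((t * g (a + b * y) : ℝ) : ℂ) = H y) (k : ℕ) :
    ((t * b ^ k * deriv^[k] g (a + b * x) : ℝ) : ℂ) = deriv^[k] H x := by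
  have hA : AnalyticOnNhd ℂ H (ball 0 1) := hH.analyticOnNhd isOpen_ball
  have hball : ∀ᶠ y : ℝ in 𝓝 x, |y| < 1 :=
    (continuous_abs.tendsto x).eventually (gt_mem_nhds hx)
  have key : ∀ n : ℕ, ∀ᶠ y : ℝ in 𝓝 x,
      ((t * b ^ n * deriv^[n] g (a + b * y) : ℝ) : ℂ) = deriv^[n] H y := by
    intro n
    induction n with
    | zero => simpa using hg
    | succ n ih =>
      filter_upwards [eventually_eventually_nhds.2 ih, hball] with y hy hy1
      have hyb : (y : ℂ) ∈ ball (0 : ℂ) 1 := by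
        rw [mem_ball_zero_iff, Complex.norm_real, Real.norm_eq_abs]; exact hy1
      have hG : HasDerivAt (deriv^[n] H) (deriv (deriv^[n] H) y) (y : ℂ) :=
        ((hA.iterated_deriv n) y hyb).differentiableAt.hasDerivAt
      have hc : t * b ^ n ≠ 0 := mul_ne_zero ht (pow_ne_zero n hb)
      have hre : HasDerivAt (fun z : ℝ => (deriv^[n] H z).re) (deriv (deriv^[n] H) y).re y :=
        hG.real_of_complex
      have hF : HasDerivAt (fun z : ℝ => t * b ^ n * deriv^[n] g (a + b * z))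
          (deriv (deriv^[n] H) y).re y := by
        refine hre.congr_of_eventuallyEq ?_
        filter_upwards [hy] with z hz
        rw [← hz, Complex.ofReal_re]
      have hcx : (((deriv (deriv^[n] H) y).re : ℝ) : ℂ) = deriv (deriv^[n] H) y := by
        have h1 := hF.ofReal_comp
        have h2 : HasDerivAt (fun z : ℝ => deriv^[n] H z) (deriv (deriv^[n] H) y) y :=
          hG.comp_ofReal
        exact h1.unique (h2.congr_of_eventuallyEq hy)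
      have hlin : HasDerivAt (fun s : ℝ => (s - a) / b) (1 / b) (a + b * y) :=
        ((hasDerivAt_id (a + b * y)).sub_const a).div_const b
      have hval : (a + b * y - a) / b = y := by field_simp; ring
      have hF' : HasDerivAt (fun z : ℝ => t * b ^ n * deriv^[n] g (a + b * z))
          (deriv (deriv^[n] H) y).re ((a + b * y - a) / b) := by rw [hval]; exact hF
      have hcomp := (hF'.comp (a + b * y) hlin).div_const (t * b ^ n)
      have hfun : (fun s : ℝ => ((fun z : ℝ => t * b ^ n * deriv^[n] g (a + b * z)) ∘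
          fun s : ℝ => (s - a) / b) s / (t * b ^ n)) = deriv^[n] g := by
        funext s
        have hs : a + b * ((s - a) / b) = s := by field_simp; ring
        simp only [Function.comp_apply, hs]
        field_simp
      rw [hfun] at hcomp
      rw [Function.iterate_succ_apply', Function.iterate_succ_apply', hcomp.deriv, ← hcx]
      congr 1
      rw [Complex.ofReal_re]
      field_simp
      ring
  exact (key k).self_of_nhds

end Pool.Agent.HillD.S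

/-! The sign test. -/

namespace Pool.Agent.HillD.S
open Real Set Filter Topology Polynomial Metric

theorem ssign_diff {u : ℂ → ℂ} (hu : DifferentiableOn ℂ u (ball 0 1)) (k : ℕ) :
    DifferentiableOn ℂ (deriv^[k] u) (ball 0 1) := by
  induction k with
  | zero => exact hu
  | succ k ih => rw [Function.iterate_succ_apply']; exact ih.deriv isOpen_ball

theorem ssign_der (l : List ℤ) {u : ℂ → ℂ} (hu : DifferentiableOn ℂ u (ball 0 1)) (k : ℕ) :
    ∀ y ∈ ball (0 : ℂ) 1,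
      deriv^[k] (fun z => ev l z + u z) y = ev (der^[k] l) y + deriv^[k] u y := by
  induction k with
  | zero => exact fun _ _ => rfl
  | succ k ih =>
    intro y hy
    have h := isOpen_ball.mem_nhds hy
    simp only [Function.iterate_succ_apply']
    rw [EventuallyEq.deriv_eq (mem_of_superset h ih)]
    exact ((hasDerivAt_ev _ y).add ((ssign_diff hu k).differentiableAt h).hasDerivAt).deriv

theorem ssign_cauchy {u : ℂ → ℂ} (hu : DifferentiableOn ℂ u (ball 0 1)) {M : ℝ}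
    (hb : ∀ x ∈ ball (0 : ℂ) 1, ‖u x‖ ≤ M) {x : ℂ} (hx : ‖x‖ ≤ 31 / 32) (k : ℕ) :
    ‖deriv^[k] u x‖ ≤ k.factorial * M / (1 / 40) ^ k := by
  have h : closedBall x (1 / 40) ⊆ ball 0 1 :=
    closedBall_subset_ball' (by rw [dist_zero_right]; linarith)
  rw [← iteratedDeriv_eq_iterate]
  exact Complex.norm_iteratedDeriv_le_of_forall_mem_sphere_norm_le k (by norm_num)
    (hu.diffContOnCl_ball h) fun z hz => hb z (h (sphere_subset_closedBall hz))

theorem ssign_ev {R : Type} [CommRing R] (l : List ℤ) (z : R) :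
    aeval z (ev l (X : ℤ[X])) = ev l z := by
  simpa using map_ev (aeval z : ℤ[X] →ₐ[ℤ] R).toRingHom l X

theorem ssign_mu {R : Type} [CommRing R] (a b : ℕ) (z : R) :
    aeval z (mu a b (X : ℤ[X])) = mu a b z := by
  simp [mu]

theorem ssign_key {α β γ : ℤ[X]} {a b c n Y cr err κ : ℕ} {V : List ℤ}
    (hp : pos (2 ^ (256 * n) - 1) n Y cr err = true) (hn : V.length + 2 < n)
    (hα : α.natDegree ≤ 2) (hβ : β.natDegree ≤ 2) (hγ : γ.natDegree ≤ 2)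
    (hb : ∀ z : ℂ, ‖z‖ ≤ 1 → ‖aeval z α‖ ≤ a ∧ ‖aeval z β‖ ≤ b ∧ ‖aeval z γ‖ ≤ c)
    (hr : Rep (256 * n) 256 Y (α * ev V X + β * ev (der V) X + γ * ev (der (der V)) X))
    (hc : a * nl 1 V + b * nl 1 (der V) + c * nl 1 (der (der V)) ≤ cr)
    (he : κ * (a * 80 + b * 6400 + c * 768000) ≤ err) {x u1 u2 u3 : ℂ} (hx : ‖x‖ ≤ 1)
    (h1 : ‖u1‖ ≤ 80 * κ) (h2 : ‖u2‖ ≤ 6400 * κ) (h3 : ‖u3‖ ≤ 768000 * κ) :
    0 < (aeval x α * (ev V x + u1) + aeval x β * (ev (der V) x + u2) +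
      aeval x γ * (ev (der (der V)) x + u3)).re := by
  have h4 : ∀ {z A B C : ℂ} {p q r : ℝ}, ‖z‖ ≤ 1 → ‖A‖ ≤ p → ‖B‖ ≤ q → ‖C‖ ≤ r →
      ‖aeval z α * A + aeval z β * B + aeval z γ * C‖ ≤ a * p + b * q + c * r :=
    fun hz hA hB hC => norm_add₃_le.trans (by
      obtain ⟨i1, i2, i3⟩ := hb _ hz
      simp only [norm_mul]
      gcongr)
  have h5 : ∀ {p : ℤ[X]} (l : List ℤ), p.natDegree ≤ 2 → l.length ≤ V.length →
      (p * ev l X).natDegree ≤ V.length + 2 := fun l hp hl =>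
    natDegree_mul_le.trans (by have := natDegree_ev l; omega)
  have h6 := pos_sound hp hr (lt_of_le_of_lt (natDegree_add_le_of_degree_le
    (natDegree_add_le_of_degree_le (h5 _ hα le_rfl) (h5 _ hβ (by rw [length_der]; omega)))
    (h5 _ hγ (by rw [length_der, length_der]; omega))) hn) (fun z hz => by
      have hz' : ‖z‖ ≤ (1 : ℕ) := by simpa using hz
      simp only [map_add, map_mul, ssign_ev]
      exact (h4 hz (norm_ev_le 1 _ hz') (norm_ev_le 1 _ hz') (norm_ev_le 1 _ hz')).trans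
        (by exact_mod_cast hc)) hx
  simp only [map_add, map_mul, ssign_ev] at h6
  have h7 := (abs_le.1 ((Complex.abs_re_le_norm _).trans (h4 hx h1 h2 h3))).1
  have h8 : (κ : ℝ) * (a * 80 + b * 6400 + c * 768000) ≤ err := by exact_mod_cast he
  simp only [mul_add, Complex.add_re] at h6 h7 ⊢
  linarith

theorem sgn_sound {S T μ0 μ1 κ kind ns V0 : ℕ} {Vr : List ℤ}
    (h : sgn S μ0 μ1 κ kind (2 ^ (256 * ns) - 1) ns (Nat.add μ0 (Nat.shiftLeft μ1 256))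
      (dl Vr 1) = true) (hns : 2 * (Vr.length + 2) ≤ ns) (hS : 0 < S) (hT : 0 < T) (hμ : 0 < μ1)
    {u : ℂ → ℂ} (hu : DifferentiableOn ℂ u (ball 0 1))
    (hb : ∀ x ∈ ball (0 : ℂ) 1, ‖u x‖ ≤ 2 * κ) {g : ℝ → ℝ} {x : ℝ} (hx : |x| ≤ 31 / 32)
    (hg : ∀ᶠ y : ℝ in 𝓝 x, ((T * g (mu μ0 μ1 y / S) : ℝ) : ℂ) =
      ev (Int.ofNat V0 :: Vr) (y : ℂ) + u y) : Good g (mu μ0 μ1 x / S) := by
  have hx' : ‖(x : ℂ)‖ ≤ 31 / 32 := by simpa using hx
  have hx1 : ‖(x : ℂ)‖ ≤ 1 := by linarith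
  have hS' : (S : ℝ) ≠ 0 := by positivity
  have hm : ∀ y : ℝ, mu μ0 μ1 y / S = μ0 / S + μ1 / S * y := fun y => by rw [mu]; ring
  have ht := fun k => (transfer (g := g) (t := T) (a := μ0 / S) (b := μ1 / S)
    (DifferentiableOn.add (fun z _ =>
      (hasDerivAt_ev (Int.ofNat V0 :: Vr) z).differentiableAt.differentiableWithinAt) hu)
    (by positivity) (by positivity) (by linarith)
    (by simp only [← hm]; exact hg) k).trans (ssign_der _ hu k x (by rw [mem_ball_zero_iff]; linarith))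
  have t1 : _ = ev (dl Vr 1) (x : ℂ) + _ := ht 1
  have t2 : _ = ev (der (dl Vr 1)) (x : ℂ) + _ := ht 2
  have t3 : _ = ev (der (der (dl Vr 1))) (x : ℂ) + _ := ht 3
  have c1 : ‖deriv^[1] u x‖ ≤ 80 * κ := (ssign_cauchy hu hb hx' 1).trans_eq (by
    simp only [Nat.factorial]; push_cast; ring)
  have c2 : ‖deriv^[2] u x‖ ≤ 6400 * κ := (ssign_cauchy hu hb hx' 2).trans_eq (by
    simp only [Nat.factorial]; push_cast; ring)
  have c3 : ‖deriv^[3] u x‖ ≤ 768000 * κ := (ssign_cauchy hu hb hx' 3).trans_eq (by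
    simp only [Nat.factorial]; push_cast; ring)
  have hn : (dl Vr 1).length + 2 < ns := by rw [length_dl]; omega
  let L : ℕ → ℕ → ℤ[X] := fun a b => (a : ℤ[X]) * (S : ℤ[X]) - (b : ℤ[X]) * mu μ0 μ1 X
  have d1 : ∀ a b, (L a b).natDegree ≤ 1 := fun a b => by
    refine (natDegree_sub_le _ _).trans (max_le ?_ (natDegree_mul_le.trans ?_))
    · rw [← Nat.cast_mul, natDegree_natCast]; omega
    · simpa using natDegree_mu μ0 μ1
  have d2 : ∀ a b, (L a b * (μ1 : ℤ[X])).natDegree ≤ 2 := fun a b =>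
    natDegree_mul_le.trans (by have := d1 a b; rw [natDegree_natCast]; omega)
  have d3 : (((2 : ℕ) : ℤ[X]) * L 0 1 * L 1 2).natDegree ≤ 2 := natDegree_mul_le.trans (add_le_add
    (natDegree_mul_le.trans (by rw [natDegree_natCast, zero_add]; exact d1 0 1)) (d1 1 2))
  have e1 : ∀ {R : Type} [CommRing R] (z : R) (a b : ℕ),
      aeval z (L a b) = a * S - b * mu μ0 μ1 z := fun z a b => by simp [L, ssign_mu]
  have n1 : ∀ z : ℂ, ‖z‖ ≤ 1 → ∀ a b, ‖aeval z (L a b)‖ ≤ lb a b S μ0 μ1 1 := fun z hz a b =>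
    e1 z a b ▸ norm_lb _ _ _ _ _ _ (by simpa using hz)
  have n2 : ∀ z : ℂ, ‖z‖ ≤ 1 → ∀ a b, ‖aeval z (L a b * (μ1 : ℤ[X]))‖ ≤ (lb a b S μ0 μ1 1 * μ1 : ℕ) :=
    fun z hz a b => by
      rw [map_mul, norm_mul, map_natCast, Complex.norm_natCast, Nat.cast_mul]
      gcongr
      exact n1 z hz a b
  have n3 : ∀ z : ℂ, ‖z‖ ≤ 1 → ‖aeval z (((2 : ℕ) : ℤ[X]) * L 0 1 * L 1 2)‖ ≤
      (2 * lb 0 1 S μ0 μ1 1 * lb 1 2 S μ0 μ1 1 : ℕ) := fun z hz => by
    rw [map_mul, map_mul, norm_mul, norm_mul, map_natCast, Complex.norm_natCast, Nat.cast_mul,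
      Nat.cast_mul]
    gcongr <;> exact n1 z hz _ _
  have hmu : (mu μ0 μ1 (x : ℂ)) = ((mu μ0 μ1 x : ℝ) : ℂ) := by simp [mu]
  rw [← hm] at t1 t2 t3
  intro h0
  simp only [sgn, fN_eq] at h
  cases hk : Nat.ble kind 1 <;> rw [hk] at h
  · have h9 := ssign_key (α := ((8 * (μ1 * μ1) : ℕ) : ℤ[X])) (β := -(L 3 16 * (μ1 : ℤ[X])))
      (γ := ((2 : ℕ) : ℤ[X]) * L 0 1 * L 1 2) (a := 8 * (μ1 * μ1)) h hn (by rw [natDegree_natCast]; omega)
      (by rw [natDegree_neg]; exact d2 _ _) d3 (fun z hz => ⟨by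
        rw [map_natCast, Complex.norm_natCast], by rw [map_neg, norm_neg]; exact n2 z hz _ _,
        n3 z hz⟩) (by
        simp only [Rep, map_add, map_mul, map_neg, map_natCast, e1, ssign_ev, ← cast_mu, ← cast_pk]
        simp only [Nat.add_eq, Nat.mul_eq, Nat.cast_add, Nat.cast_mul, cast_ng]
        push_cast
        ring) le_rfl (le_of_eq (by simp only [Nat.add_eq, Nat.mul_eq]; ring)) hx1 c1 c2 c3
    simp only [map_mul, map_neg, map_natCast, e1, ← t1, ← t2, ← t3, hmu] at h9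
    have : (0 : ℝ) < T * μ1 ^ 3 / S := by positivity
    have hS2 : (S : ℂ) ≠ 0 := by exact_mod_cast hS'
    refine neg_of_mul_neg_left (neg_pos.1 (h9.trans_eq ?_)) this.le
    refine (congrArg Complex.re ?_).trans (Complex.ofReal_re _)
    push_cast
    simp only [Function.iterate_one]
    field_simp
    ring
  · have key : ∀ (e : ℤ[X]) (Y : ℕ), e.natDegree = 0 → (∀ z : ℂ, ‖aeval z e‖ = 1) →
        Rep (256 * ns) 256 Y (e * (L 1 8 * (μ1 : ℤ[X])) * ev (dl Vr 1) X +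
          e * -(((2 : ℕ) : ℤ[X]) * L 0 1 * L 1 2) * ev (der (dl Vr 1)) X + 0 * ev (der (der (dl Vr 1))) X) →
        pos (2 ^ (256 * ns) - 1) ns Y (lb 1 8 S μ0 μ1 1 * μ1 * nl 1 (dl Vr 1) +
          2 * lb 0 1 S μ0 μ1 1 * lb 1 2 S μ0 μ1 1 * nl 1 (der (dl Vr 1))) (κ * (lb 1 8 S μ0 μ1 1 *
          μ1 * 80 + 2 * lb 0 1 S μ0 μ1 1 * lb 1 2 S μ0 μ1 1 * 6400)) = true → False := by
      intro e Y e2 e3 hr hp
      have h9 := ssign_key (c := 0) hp hn (natDegree_mul_le.trans (by rw [e2, zero_add]; exact d2 _ _))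
        (natDegree_mul_le.trans (by rw [e2, zero_add, natDegree_neg]; exact d3)) (by simp)
        (fun z hz => ⟨by rw [map_mul, norm_mul, e3, one_mul]; exact n2 z hz _ _,
          by rw [map_mul, norm_mul, e3, one_mul, map_neg, norm_neg]; exact n3 z hz, by simp⟩) hr
        (by simp) (by simp) hx1 c1 c2 c3
      simp only [map_mul, map_neg, map_natCast, e1, ← t1, ← t2, hmu, map_zero, zero_mul, add_zero,
        mul_assoc (aeval (x : ℂ) e), ← mul_add] at h9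
      refine h9.ne' ?_
      have := congrArg (fun r : ℝ => ((T * μ1 ^ 2 * r : ℝ) : ℂ)) h0
      have hS2 : (S : ℂ) ≠ 0 := by exact_mod_cast hS'
      refine (congrArg (fun r => (aeval (x : ℂ) e * r).re) (Eq.trans ?_ this)).trans (by simp)
      push_cast
      simp only [Function.iterate_one]
      field_simp
      ring
    cases hk' : Nat.beq kind 0 <;> rw [hk'] at h
    · refine (key (-1) _ (by simp) (by simp) ?_ h).elim
      simp only [Rep, map_add, map_mul, map_neg, map_natCast, e1, ssign_ev, ← cast_mu, ← cast_pk,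
        map_one, map_zero]
      simp only [Nat.add_eq, Nat.mul_eq, Nat.cast_add, Nat.cast_mul, cast_ng]
      push_cast
      ring
    · refine (key 1 _ (by simp) (by simp) ?_ h).elim
      simp only [Rep, map_add, map_mul, map_neg, map_natCast, e1, ssign_ev, ← cast_mu, ← cast_pk,
        map_one, map_zero]
      simp only [Nat.add_eq, Nat.mul_eq, Nat.cast_add, Nat.cast_mul, cast_ng]
      push_cast
      ring

end Pool.Agent.HillD.S
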