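import Pool.Agent.P.MP_ae2765_an.Ana

/-! An analytic increasing bounded function that is flat at `0` has an inflection point. -/

namespace Pool.Agent.HillD
open Real Set Filter Topology

theorem not_convex {f : ℝ → ℝ} {C : ℝ} (hm : StrictMonoOn f (Ioi 0)) (hC : ∀ x > 0, f x ≤ C) :
    ¬ ConvexOn ℝ (Ioi 0) f := by
  intro h
  have s0 : 0 < f 2 - f 1 := sub_pos.2 (hm (by norm_num) (by norm_num) (by norm_num))
  have c2 := hC 2 (by norm_num)
  set t := (C - f 2) / (f 2 - f 1) + 1 with ht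
  have t0 : 0 < t := by
    have : 0 ≤ (C - f 2) / (f 2 - f 1) := div_nonneg (by linarith) s0.le
    linarith
  have := h.slope_mono_adjacent (x := 1) (y := 2) (z := 2 + t) (by norm_num)
    (show (0 : ℝ) < 2 + t by linarith) (by norm_num) (by linarith)
  rw [show (2 : ℝ) - 1 = 1 by norm_num, div_one, add_sub_cancel_left, le_div_iff₀ t0] at this
  have e : (f 2 - f 1) * t = C - f 2 + (f 2 - f 1) := by rw [ht]; field_simp
  have := hC (2 + t) (by linarith)
  linarith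

theorem not_concave {f : ℝ → ℝ} {a C : ℝ} (hm : StrictMonoOn f (Ioi 0)) (hC : 0 < C)
    (h1 : ∀ x > 0, a ≤ f x) (h2 : ∀ x > 0, f x ≤ a + C * x ^ 2) : ¬ ConcaveOn ℝ (Ioi 0) f := by
  intro h
  have s0 : 0 < f 2 - f 1 := sub_pos.2 (hm (by norm_num) (by norm_num) (by norm_num))
  set y := min (1 / 2) ((f 2 - f 1) / (8 * C)) with hy
  have y0 : 0 < y := lt_min (by norm_num) (by positivity)
  have y1 : y ≤ 1 / 2 := min_le_left _ _
  have y2 : y * (8 * C) ≤ f 2 - f 1 := (le_div_iff₀ (by positivity)).1 (min_le_right _ _)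
  have k := h.slope_anti_adjacent (x := y / 2) (y := y) (z := 2)
    (show (0 : ℝ) < y / 2 by linarith) (by norm_num) (by linarith) (by linarith)
  rw [div_le_div_iff₀ (by linarith) (by linarith)] at k
  have e1 := h1 (y / 2) (by linarith)
  have e2 := h2 y y0
  have e3 : f y < f 1 := hm y0 (by norm_num) (by linarith)
  have e4 : (f y - f (y / 2)) * (2 - y) ≤ C * y ^ 2 * 2 :=
    mul_le_mul (by linarith) (by linarith) (by linarith) (by positivity)
  have e5 : (f 2 - f 1) * (y / 2) ≤ (f 2 - f y) * (y - y / 2) :=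
    mul_le_mul (by linarith) (by linarith) (by linarith) (by linarith)
  have e6 : 0 < C * y ^ 2 := by positivity
  nlinarith

/-- A sign change of an analytic function. -/
theorem sign_change {g : ℝ → ℝ} (hg : AnalyticOnNhd ℝ g (Ioi 0)) {a b : ℝ} (ha : 0 < a)
    (hab : a < b) (h1 : 0 < g a) (h2 : g b < 0) : ∃ x ε, 0 < ε ∧ ε < x ∧
      (∀ y ∈ Ioo (x - ε) x, 0 < g y) ∧ ∀ y ∈ Ioo x (x + ε), g y < 0 := by
  set S := {y | y ∈ Icc a b ∧ g y < 0} with hS
  have ne : S.Nonempty := ⟨b, ⟨hab.le, le_rfl⟩, h2⟩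
  have bd : BddBelow S := ⟨a, fun y hy => hy.1.1⟩
  set x := sInf S with hx
  have xa : a ≤ x := le_csInf ne fun y hy => hy.1.1
  have xb : x ≤ b := csInf_le bd ⟨⟨hab.le, le_rfl⟩, h2⟩
  have x0 : 0 < x := ha.trans_le xa
  have cx := (hg x x0).continuousAt
  have left : ∀ y ∈ Ico a x, 0 ≤ g y := fun y hy => by
    by_contra hc
    exact absurd (csInf_le bd ⟨⟨hy.1, hy.2.le.trans xb⟩, not_le.1 hc⟩) (not_le.2 hy.2)
  have cl : x ∈ closure S := csInf_mem_closure ne bd
  have gx : g x ≤ 0 := by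
    by_contra hc
    obtain ⟨y, hy1, hy2⟩ := mem_closure_iff_nhds.1 cl _
      (continuousAt_const.eventually_lt cx (not_le.1 hc))
    exact absurd hy2.2 (not_lt.2 (le_of_lt hy1))
  have ax : a < x := xa.lt_of_ne fun h => by rw [← h] at gx; linarith
  have nz : ∀ᶠ y in 𝓝[≠] x, g y ≠ 0 := by
    refine (hg x x0).eventually_eq_zero_or_eventually_ne_zero.resolve_left fun h => ?_
    exact h1.ne' (hg.eqOn_zero_of_preconnected_of_eventuallyEq_zero isPreconnected_Ioi x0 h ha)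
  obtain ⟨r, r0, hr⟩ := Metric.eventually_nhds_iff.1 (eventually_nhdsWithin_iff.1 nz)
  set ε := min r (x - a) with hε
  have ε0 : 0 < ε := lt_min r0 (by linarith)
  have ε1 : ε ≤ r := min_le_left _ _
  have ε2 : ε ≤ x - a := min_le_right _ _
  have gx0 : 0 ≤ g x := by
    refine ge_of_tendsto (cx.tendsto.mono_left (nhdsWithin_le_nhds (s := Iio x))) ?_
    filter_upwards [Ioo_mem_nhdsLT ax] with y hy using left y ⟨hy.1.le, hy.2⟩
  obtain ⟨s, hs1, hs2⟩ := mem_closure_iff_nhds.1 cl _ (Iio_mem_nhds (show x < x + ε by linarith))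
  have xs : x < s := (csInf_le bd hs2).lt_of_ne fun h => by
    have := hs2.2; rw [← h] at this; linarith
  have nzr : ∀ y ∈ Ioo x (x + ε), g y ≠ 0 := fun y hy =>
    hr (by rw [Real.dist_eq, abs_lt]; constructor <;> linarith [hy.1, hy.2]) hy.1.ne'
  refine ⟨x, ε, ε0, by linarith, fun y hy => ?_, fun y hy => ?_⟩
  · exact (left y ⟨by linarith [hy.1], hy.2⟩).lt_of_ne'
      (hr (by rw [Real.dist_eq, abs_lt]; constructor <;> linarith [hy.1, hy.2]) hy.2.ne)
  · by_contra hc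
    have co : ContinuousOn g (Ioo x (x + ε)) := fun z hz =>
      (hg z (x0.trans hz.1)).continuousAt.continuousWithinAt
    obtain ⟨z, hz, e⟩ := isPreconnected_Ioo.intermediate_value ⟨xs, hs1⟩ hy co
      ⟨hs2.2.le, not_lt.1 hc⟩
    exact nzr z hz e

theorem exists_inflection {f : ℝ → ℝ} (hf : AnalyticOnNhd ℝ f (Ioi 0))
    (h1 : ¬ ConvexOn ℝ (Ioi 0) f) (h2 : ¬ ConcaveOn ℝ (Ioi 0) f) : ∃ x, IsInflection f x := by
  have hg : AnalyticOnNhd ℝ (deriv^[2] f) (Ioi 0) := hf.iterated_deriv 2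
  have d1 : DifferentiableOn ℝ f (Ioi 0) := hf.differentiableOn
  have d2 : DifferentiableOn ℝ (deriv f) (Ioi 0) := hf.deriv.differentiableOn
  obtain ⟨b, hb, gb⟩ : ∃ b ∈ Ioi (0 : ℝ), deriv^[2] f b < 0 := by
    by_contra hc
    push Not at hc
    exact h1 (convexOn_of_deriv2_nonneg' (convex_Ioi 0) d1 d2 hc)
  obtain ⟨a, ha, ga⟩ : ∃ a ∈ Ioi (0 : ℝ), 0 < deriv^[2] f a := by
    by_contra hc
    push Not at hc
    exact h2 (concaveOn_of_deriv2_nonpos' (convex_Ioi 0) d1 d2 hc)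
  have co : ∀ {u v : ℝ}, 0 < u → ContinuousOn f (Icc u v) := fun hu =>
    hf.continuousOn.mono fun z hz => hu.trans_le hz.1
  rcases lt_trichotomy a b with h | h | h
  · obtain ⟨x, ε, e0, e1, l, r⟩ := sign_change hg ha h ga gb
    exact ⟨x, ε, e0, e1, Or.inl
      ⟨strictConvexOn_of_deriv2_pos (convex_Icc _ _) (co (by linarith)) (by rwa [interior_Icc]),
       strictConcaveOn_of_deriv2_neg (convex_Icc _ _) (co (by linarith)) (by rwa [interior_Icc])⟩⟩
  · rw [h] at ga; linarith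
  · obtain ⟨x, ε, e0, e1, l, r⟩ := sign_change hg.neg hb h (neg_pos.2 gb) (neg_lt_zero.2 ga)
    exact ⟨x, ε, e0, e1, Or.inr
      ⟨strictConcaveOn_of_deriv2_neg (convex_Icc _ _) (co (by linarith))
        (by rw [interior_Icc]; exact fun y hy => neg_pos.1 (l y hy)),
       strictConvexOn_of_deriv2_pos (convex_Icc _ _) (co (by linarith))
        (by rw [interior_Icc]; exact fun y hy => neg_lt_zero.1 (r y hy))⟩⟩

theorem isLine {θ0 : ℝ} {l : ℕ} (hθ : θ0 = 0 ∨ θ0 = π / 2) (hl : 2 ≤ l ∨ (l = 1 ∧ θ0 = 0)) :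
    IsLine l fun δ => cur θ0 l (mm δ) := by
  have hl1 : 1 ≤ l := by omega
  have l0 : (0 : ℝ) < l := by exact_mod_cast hl1
  have sm := cur_strictMono hθ hl
  have an : AnalyticOnNhd ℝ (fun δ => cur θ0 l (mm δ)) (Ioi 0) := fun δ hδ => by
    have : AnalyticAt ℝ mm δ := by
      unfold mm
      exact AnalyticAt.div (by fun_prop) (by fun_prop) (by positivity)
    exact (cur_ana hθ hl1 (mm_pos hδ) (mm_lt δ)).comp this
  have mono : StrictMonoOn (fun δ => cur θ0 l (mm δ)) (Ioi 0) := fun a ha b _ hab =>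
    sm ⟨mm_nonneg a, mm_lt a⟩ ⟨mm_nonneg b, mm_lt b⟩ (mm_strictMono (le_of_lt ha) hab)
  have lo : ∀ x > 0, (l : ℝ) ≤ cur θ0 l (mm x) := fun x hx => by
    have := sm ⟨le_rfl, by norm_num⟩ ⟨mm_nonneg x, mm_lt x⟩ (mm_pos hx)
    rw [cur_zero hθ hl1] at this
    exact this.le
  have hi : ∀ x > 0, cur θ0 l (mm x) ≤ l + l * x ^ 2 := fun x _ => by
    have k := mul_le_mul_of_nonneg_right (cur_mul_le hθ hl1 (mm_nonneg x) (mm_lt x))
      (show 0 ≤ 1 + x ^ 2 by positivity)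
    rw [mul_assoc, mm_eq] at k
    linarith
  refine ⟨an, ?_, mono, exists_inflection an
    (not_convex mono fun x _ => (cur_lt_big hθ hl1 (mm_nonneg x) (mm_lt x)).le)
    (not_concave mono l0 lo hi)⟩
  have t : Tendsto (fun x : ℝ => (l : ℝ) + l * x ^ 2) (𝓝[>] 0) (𝓝 l) := by
    have : ContinuousAt (fun x : ℝ => (l : ℝ) + l * x ^ 2) 0 := by fun_prop
    simpa using this.tendsto.mono_left nhdsWithin_le_nhds
  refine tendsto_of_tendsto_of_tendsto_of_le_of_le' tendsto_const_nhds t ?_ ?_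
  · filter_upwards [self_mem_nhdsWithin] with x hx using lo x hx
  · filter_upwards [self_mem_nhdsWithin] with x hx using hi x hx

end Pool.Agent.HillD
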