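import Pool.Agent.P.MP_ae2765_an.SB
import Pool.Agent.P.MP_ae2765_an.SD
import Pool.Agent.P.MP_ae2765_an.SC1
import Pool.Agent.P.MP_ae2765_an.SC2
import Pool.Agent.P.MP_ae2765_an.SC3
import Pool.Agent.P.MP_ae2765_an.SC4

/-! One disc. -/

namespace Pool.Agent.HillD.S
open Real Set Filter Topology Polynomial Metric

theorem disc_sound {θ0 : ℝ} {l n0 sp sn ff S T μ0 μ1 κ E J n q B kind V0 : ℕ} {Vr w : List ℤ}
    (h : disc n0 sp sn ff S T μ0 μ1 κ E J n q B kind V0 Vr w = true) (hty : Ty θ0 l n0 sp sn ff)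
    (hl : 1 ≤ l) (hS : 0 < S) (hT : 0 < T) (hμ : 0 < μ1) : 1 ≤ κ ∧ ∃ u : ℂ → ℂ,
      (∀ x ∈ ball (0 : ℂ) 1, ‖u x‖ ≤ 2 * κ) ∧
      (∀ x : ℝ, |x| < 1 → 0 ≤ mu μ0 μ1 x → 2 * mu μ0 μ1 x < S →
        |T * cur θ0 l (mu μ0 μ1 x / S) - ev (Int.ofNat V0 :: Vr) x| ≤ 5 * κ →
        ((T * cur θ0 l (mu μ0 μ1 x / S) : ℝ) : ℂ) = ev (Int.ofNat V0 :: Vr) (x : ℂ) + u x) ∧
      ∀ (g : ℝ → ℝ) (x : ℝ), |x| ≤ 31 / 32 → (∀ᶠ y : ℝ in 𝓝 x,
        ((T * g (mu μ0 μ1 y / S) : ℝ) : ℂ) = ev (Int.ofNat V0 :: Vr) (y : ℂ) + u y) →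
        Good g (mu μ0 μ1 x / S) := by
  simp only [disc, fN_eq, Bool.and_eq_true, Nat.ble_eq, Nat.blt_eq, len_eq] at h
  obtain ⟨⟨⟨⟨hq, hn1⟩, hn, hB⟩, hE, hκ⟩, ⟨h1, h2⟩, hc, h3, hs, hm⟩ := h
  simp only [Nat.add_eq, Nat.mul_eq, Nat.pow_eq, Nat.sub_eq] at hq hn1 hE h1 h2 hc h3
  have hU := fun r => UB_sound (ns := 2 * (Vr.length + 2)) le_rfl hc r
  obtain ⟨MP, MQ, hm, m1⟩ := maj_sound hm (hU q) (fun x hx => norm_ev_sub q V0 Vr hx)
    fun x hx => norm_ev_le q w hx
  have hV : ∀ x : ℂ, ‖x‖ ≤ (1 : ℕ) → ‖ev (Int.ofNat V0 :: Vr) x - V0‖ ≤ nl 1 Vr := fun x hx => by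
    simpa using norm_ev_sub 1 V0 Vr hx
  obtain ⟨MP1, MQ1, hm, m2⟩ := maj_sound hm (hU 1) hV fun x hx => norm_ev_le 1 w hx
  obtain ⟨G0, Q0, G1, Q1, hf, r1, r2, r3, r4⟩ := big_sound hm
  obtain ⟨Cn, hC, hb⟩ := fin_sound hf hq hn hB hE hκ r1 r2 r3 r4 m1 m2
  have hd := fun (x e : ℂ) (hx : ‖x‖ < 1) (he : ‖e‖ < 16 * (κ : ℝ)) =>
    dom_sound (hU 1) hT hμ hn1 h1 h2 h3 hx.le (hV x (by simpa using hx.le))
      (e := e) (by push_cast; exact he.le)
  have hκ' : (0 : ℝ) < κ := by exact_mod_cast hκ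
  have dv : ∀ l : List ℤ, Differentiable ℂ fun z : ℂ => ev l z := fun l z =>
    (hasDerivAt_ev l z).differentiableAt
  obtain ⟨u, u1, u2, u3⟩ := fixp (Φ := fun x e => e - FF n0 sp sn ff S T J (mu μ0 μ1 x)
      (ev (Int.ofNat V0 :: Vr) x + e) (ev w x) / Cn) hκ'
    (fun V t u hV ht hu hb => hu.sub ((FF_diff hV n0 sp sn ff S T J (by unfold mu; fun_prop)
      (((dv _).comp_differentiableOn ht).add hu) ((dv _).comp_differentiableOn ht)
      fun z hz => (hd _ _ (hb z hz).1 (hb z hz).2).1).div_const _))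
    fun x e hx he => hb x e _ hx.le he.le (by
      obtain ⟨d1, d2⟩ := hd x e hx he
      rw [tl, norm_mul]
      exact (mul_le_mul d2 (rho_norm d1) (norm_nonneg _) (Nat.cast_nonneg _)).trans_eq
        (by simp [div_eq_mul_inv]))
  refine ⟨hκ, u, u2, fun x hx h0 hS' h5 => ?_, fun g x hx hg => sgn_sound hs le_rfl hS hT hμ u1 u2 hx hg⟩
  have e1 : ((mu μ0 μ1 x : ℝ) : ℂ) = mu μ0 μ1 (x : ℂ) := map_mu Complex.ofRealHom μ0 μ1 x
  have e2 : ((ev (Int.ofNat V0 :: Vr) x : ℝ) : ℂ) = ev (Int.ofNat V0 :: Vr) (x : ℂ) :=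
    map_ev Complex.ofRealHom _ x
  set c : ℝ := T * cur θ0 l (mu μ0 μ1 x / S) with hc
  have e3 : ‖(c : ℂ) - ev (Int.ofNat V0 :: Vr) (x : ℂ)‖ ≤ 5 * κ := by
    rwa [← e2, ← Complex.ofReal_sub, Complex.norm_real]
  have hx' : ‖(x : ℂ)‖ < 1 := by simpa using hx
  have d1 := (hd x _ hx' (e3.trans_lt (by linarith))).1
  rw [add_sub_cancel, ← e1] at d1
  have z := FF_zero hty hl hS hT J h0 hS' d1 (ev w (x : ℂ))
  rw [← u3 x (by simpa using hx) _ e3 (by simp only [add_sub_cancel]; rw [← e1, z]; simp), add_sub_cancel]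

end Pool.Agent.HillD.S

/-! Chains of discs. -/

namespace Pool.Agent.HillD.S
open Real Set Filter Topology Polynomial Metric

theorem cur_contOn {θ0 : ℝ} {l : ℕ} (hθ : θ0 = 0 ∨ θ0 = π / 2) (hl : 2 ≤ l ∨ (l = 1 ∧ θ0 = 0)) :
    ContinuousOn (cur θ0 l) (Ico 0 (1 / 2)) := by
  have hl1 : 1 ≤ l := by omega
  intro m hm
  rcases hm.1.lt_or_eq with h | h
  · exact (cur_cont hθ hl1 h hm.2).continuousWithinAt
  subst h
  have c : ContinuousAt (fun x : ℝ => (l : ℝ) / (1 - 2 * x)) 0 :=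
    continuousAt_const.div (by fun_prop) (by norm_num)
  have c' : Tendsto (fun x : ℝ => (l : ℝ) / (1 - 2 * x)) (𝓝[Ico 0 (1 / 2)] 0) (𝓝 l) := by
    simpa using c.tendsto.mono_left nhdsWithin_le_nhds
  rw [ContinuousWithinAt, cur_zero hθ hl1]
  refine tendsto_of_tendsto_of_tendsto_of_le_of_le' tendsto_const_nhds c' ?_ ?_
  · filter_upwards [self_mem_nhdsWithin] with x hx
    rw [← cur_zero hθ hl1]
    exact (cur_strictMono hθ hl).monotoneOn hm hx hx.1
  · filter_upwards [self_mem_nhdsWithin] with x hx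
    rw [le_div_iff₀ (by linarith [hx.2])]
    exact cur_mul_le hθ hl1 hx.1 hx.2

theorem schain_cont (l : List ℤ) : Continuous fun x : ℝ => ev l x := by
  induction l with
  | nil => exact continuous_const
  | cons c t ih => exact continuous_const.add (continuous_id.mul ih)

theorem schain_cons (n0 sp sn ff S T j κ E J n q B kind V0 : ℕ) (Vr w : List ℤ) (L : List Dc)
    (y : ℕ) (val : ℤ) (err : ℕ) :
    chain n0 sp sn ff S T (⟨j, κ, E, J, n, q, B, kind, V0, Vr, w⟩ :: L) y val err =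
      fN (y + 31 * j) fun μ0 => fN (32 * j) fun μ1 =>
      and (and (Nat.ble 1 j) (Nat.ble ((val - fl (-31) (Int.ofNat V0 :: Vr)).natAbs + err + 32)
        (5 * κ))) (and (disc n0 sp sn ff S T μ0 μ1 κ E J n q B kind V0 Vr w)
        (fN (y + 62 * j) fun y' =>
          chain n0 sp sn ff S T L y' (fl 31 (Int.ofNat V0 :: Vr)) (2 * κ + 32))) := rfl

theorem chain_sound {θ0 : ℝ} {l n0 sp sn ff S T : ℕ} (hty : Ty θ0 l n0 sp sn ff)
    (hl : 2 ≤ l ∨ (l = 1 ∧ θ0 = 0)) (hS : 0 < S) (hT : 0 < T) (L : List Dc) :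
    ∀ (y : ℕ) (val : ℤ) (err : ℕ), chain n0 sp sn ff S T L y val err = true →
      (2 * y < S → |T * cur θ0 l (y / S) - val| ≤ err) →
      ∀ m : ℝ, 0 < m → y / S ≤ m → m < 1 / 2 → Good (cur θ0 l) m := by
  have hθ : θ0 = 0 ∨ θ0 = π / 2 := by
    rcases hty with h | h | h | h
    exacts [Or.inr h.1, Or.inr h.1, Or.inl h.1, Or.inl h.1]
  have hS' : (0 : ℝ) < S := by exact_mod_cast hS
  have two : ∀ (y : ℕ) (m : ℝ), y / S ≤ m → m < 1 / 2 → 2 * y < S := fun y m h1 h2 => by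
    rw [div_le_iff₀ hS'] at h1
    have : (2 * y : ℝ) < S := by nlinarith
    exact_mod_cast this
  induction L with
  | nil =>
    intro y val err h _ m _ h1 h2
    have h3 : S ≤ 2 * y := Nat.le_of_ble_eq_true h
    exact absurd (two y m h1 h2) (by omega)
  | cons D L ih =>
    intro y val err h hy m h0 h1 h2
    obtain ⟨j, κ, E, J, n, q, B, kind, V0, Vr, w⟩ := D
    simp only [schain_cons, fN_eq, Bool.and_eq_true, Nat.ble_eq] at h
    obtain ⟨⟨hj, he⟩, hd, hc⟩ := h
    obtain ⟨hκ, u, hu, heq, hg⟩ := disc_sound hd hty (by omega) hS hT (by omega)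
    set V := Int.ofNat V0 :: Vr
    have hj' : (1 : ℝ) ≤ j := by exact_mod_cast hj
    have hκ' : (1 : ℝ) ≤ κ := by exact_mod_cast hκ
    have hmu : ∀ x : ℝ, mu (y + 31 * j) (32 * j) x = y + 31 * j + 32 * j * x := fun x => by
      simp [mu]
    simp only [hmu] at heq hg
    obtain ⟨φ, hφ⟩ : ∃ φ : ℝ → ℝ, φ = fun x =>
      |T * cur θ0 l ((y + 31 * j + 32 * j * x) / S) - ev V x| := ⟨_, rfl⟩
    obtain ⟨I, hI⟩ : ∃ I : Set ℝ, I = {x | |x| < 1 ∧ 0 ≤ (y : ℝ) + 31 * j + 32 * j * x ∧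
      2 * ((y : ℝ) + 31 * j + 32 * j * x) < S} := ⟨_, rfl⟩
    have drop : ∀ x ∈ I, φ x ≤ 5 * κ → φ x ≤ 2 * κ := fun x hx h5 => by
      rw [hI] at hx
      rw [hφ] at h5 ⊢
      have e := heq x hx.1 hx.2.1 hx.2.2 h5
      have e2 : ((ev V x : ℝ) : ℂ) = ev V (x : ℂ) := map_ev Complex.ofRealHom V x
      have e3 := hu x (by simpa using hx.1)
      rw [← sub_eq_iff_eq_add', ← e2, ← Complex.ofReal_sub] at e
      rwa [← e, Complex.norm_real, Real.norm_eq_abs] at e3
    have hy2 := two y m h1 h2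
    have hy2' : (2 * y : ℝ) < S := by exact_mod_cast hy2
    have x0 : (y : ℝ) + 31 * j + 32 * j * (-31 / 32) = y := by ring
    have m0 : (-31 / 32 : ℝ) ∈ I := by
      rw [hI, mem_ofPred_eq, x0]
      exact ⟨by rw [abs_lt]; constructor <;> norm_num, by positivity, hy2'⟩
    have p0 : φ (-31 / 32) ≤ 2 * κ := drop _ m0 (by
      have a1 := hy hy2
      have a2 := fl_le (-31) (by norm_num) V
      have a3 : ((val - fl (-31) V).natAbs + err + 32 : ℝ) ≤ 5 * κ := by exact_mod_cast he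
      rw [Nat.cast_natAbs] at a3
      push_cast at a2 a3
      simp only [hφ, x0]
      rw [abs_le] at a1 a2 ⊢
      constructor <;> linarith [le_abs_self ((val : ℝ) - fl (-31) V),
        neg_abs_le ((val : ℝ) - fl (-31) V)])
    have hcI : ContinuousOn φ I := by
      rw [hφ]
      refine ((continuousOn_const.mul ((cur_contOn hθ hl).comp (by fun_prop) fun x hx => ?_)).sub
        (schain_cont V).continuousOn).abs
      rw [hI] at hx
      exact ⟨div_nonneg hx.2.1 hS'.le, by rw [div_lt_iff₀ hS']; linarith [hx.2.2]⟩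
    have hoI : I.OrdConnected := ⟨fun a ha b hb x hx => by
      rw [hI, mem_ofPred_eq, abs_lt] at ha hb ⊢
      have b1 := mul_le_mul_of_nonneg_left hx.1 (zero_le_one.trans hj')
      have b2 := mul_le_mul_of_nonneg_left hx.2 (zero_le_one.trans hj')
      exact ⟨⟨by linarith [hx.1], by linarith [hx.2]⟩, by linarith, by linarith⟩⟩
    have all : ∀ x ∈ I, φ x ≤ 2 * κ := fun x hx => by
      by_contra hc
      have h5 : 5 * κ < φ x := not_le.1 fun h5 => hc (drop x hx h5)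
      obtain ⟨t, ht, e⟩ := hoI.isPreconnected.intermediate_value m0 hx hcI
        (show 3 * (κ : ℝ) ∈ Icc _ _ from ⟨by linarith, by linarith⟩)
      have := drop t ht (by linarith)
      linarith
    rw [div_le_iff₀ hS'] at h1
    rcases le_total (m * S) (y + 62 * j) with h3 | h3
    · obtain ⟨x, hx⟩ : ∃ x : ℝ, y + 31 * j + 32 * j * x = m * S :=
        ⟨(m * S - (y + 31 * j)) / (32 * j), by field_simp; ring⟩
      have hx' : |x| ≤ 31 / 32 := by
        have j0 : (0 : ℝ) < j := by linarith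
        rw [abs_le]
        constructor <;> refine le_of_mul_le_mul_left ?_ j0 <;> linarith
      have := hg (cur θ0 l) x hx' ?_
      · rwa [hx, mul_div_cancel_right₀ _ hS'.ne'] at this
      have c : ContinuousAt (fun x : ℝ => (y : ℝ) + 31 * j + 32 * j * x) x := by fun_prop
      filter_upwards [continuous_abs.continuousAt.eventually_lt continuousAt_const
          (show |x| < 1 by linarith),
        continuousAt_const.eventually_lt c (show 0 < _ by rw [hx]; positivity),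
        (continuousAt_const.mul c).eventually_lt continuousAt_const
          (show 2 * ((y : ℝ) + 31 * j + 32 * j * x) < S by
            rw [hx]; linarith [mul_lt_mul_of_pos_right h2 hS'])] with t t1 t2 t3
      have := all t (hI ▸ ⟨t1, t2.le, t3⟩)
      rw [hφ] at this
      exact heq t t1 t2.le t3 (by linarith)
    · refine ih _ _ _ hc (fun h4 => ?_) m h0 (by rw [div_le_iff₀ hS']; exact_mod_cast h3) h2
      have h4' : (2 * (y + 62 * j) : ℝ) < S := by exact_mod_cast h4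
      have x1 : (y : ℝ) + 31 * j + 32 * j * (31 / 32) = y + 62 * j := by ring
      have a1 := all (31 / 32) (by
        rw [hI, mem_ofPred_eq, x1]
        exact ⟨by rw [abs_lt]; constructor <;> norm_num, by positivity, h4'⟩)
      have a2 := fl_le 31 (by norm_num) V
      simp only [hφ, x1] at a1
      push_cast at a2 ⊢
      rw [abs_le] at a1 a2 ⊢
      constructor <;> linarith

theorem top_sound {l S T : ℕ} {fam : Bool} {L : List Dc} (h : top l fam S T L = true)
    (hl : 2 ≤ l ∨ (l = 1 ∧ fam = false)) {m : ℝ} (h0 : 0 < m) (hm : m < 1 / 2) :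
    Good (cur (bif fam then π / 2 else 0) l) m := by
  have key : ∀ {θ0 : ℝ} {n0 sp sn ff : ℕ}, (θ0 = 0 ∨ θ0 = π / 2) → Ty θ0 l n0 sp sn ff →
      (2 ≤ l ∨ (l = 1 ∧ θ0 = 0)) → and (and (Nat.ble 1 S) (Nat.ble 1 T))
        (chain n0 sp sn ff S T L 0 (Int.ofNat (l * T)) 0) = true → Good (cur θ0 l) m := by
    intro θ0 n0 sp sn ff hθ hty hl h
    simp only [Bool.and_eq_true, Nat.ble_eq] at h
    refine chain_sound hty hl h.1.1 h.1.2 L 0 _ 0 h.2 (fun _ => ?_) m h0 (by simpa using h0.le) hm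
    simp [cur_zero hθ (show 1 ≤ l by omega), mul_comm]
  unfold top at h
  rcases Nat.mod_two_eq_zero_or_one l with e | e <;> rw [show Nat.mod l 2 = _ from e] at h <;>
    cases fam
  · exact key (Or.inl rfl) (by simp [Ty, e]) (by simpa using hl) h
  · exact key (Or.inr rfl) (by simp [Ty, e]) (Or.inl (by simpa using hl)) h
  · exact key (Or.inl rfl) (by simp [Ty, e]) (by simpa using hl) h
  · exact key (Or.inr rfl) (by simp [Ty, e]) (Or.inl (by simpa using hl)) h

end Pool.Agent.HillD.S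

/-! Back to the variable of the problem. -/

namespace Pool.Agent.HillD.S
open Real Set Filter Topology Polynomial Metric

theorem red_mm (δ : ℝ) : HasDerivAt mm (δ * (1 - 2 * mm δ) ^ 2) δ := by
  have h : (1 + δ ^ 2) ≠ 0 := by positivity
  have e : 1 - 2 * mm δ = 1 / (1 + δ ^ 2) := by rw [eq_div_iff h, mm_eq]
  refine (((hasDerivAt_id δ).fun_pow 2).fun_div ((((hasDerivAt_id δ).fun_pow 2).const_add 1).const_mul 2)
    (by simpa using h)).congr_deriv ?_
  rw [e]
  simp only [id]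
  field_simp
  ring

theorem red {g : ℝ → ℝ} (hg : AnalyticOnNhd ℝ g (Ioo 0 (1 / 2))) {δ : ℝ} (hδ : 0 < δ)
    (hG : Good g (mm δ)) (h2 : deriv^[2] (fun δ => g (mm δ)) δ = 0) :
    deriv^[3] (fun δ => g (mm δ)) δ < 0 := by
  have D : ∀ k, ∀ x : ℝ, 0 < x → HasDerivAt (fun x => deriv^[k] g (mm x))
      (deriv^[k + 1] g (mm x) * (x * (1 - 2 * mm x) ^ 2)) x := fun k x hx => by
    rw [Function.iterate_succ_apply']
    exact (hg.iterated_deriv k _ ⟨mm_pos hx, mm_lt x⟩).differentiableAt.hasDerivAt.comp x (red_mm x)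
  have M : ∀ x : ℝ, x ^ 2 * (1 - 2 * mm x) = 2 * mm x := fun x => by linear_combination mm_eq x
  have E : ∀ {f f' : ℝ → ℝ}, (∀ x, 0 < x → f x = f' x) → ∀ x, 0 < x → deriv f x = deriv f' x :=
    fun h x hx => EventuallyEq.deriv_eq (eventually_of_mem (Ioi_mem_nhds hx) h)
  have a := fun x => ((red_mm x).const_mul 2).const_sub 1
  have e2 : ∀ x : ℝ, 0 < x → deriv^[2] (fun δ => g (mm δ)) x = (1 - 2 * mm x) ^ 2 *
      ((1 - 8 * mm x) * deriv^[1] g (mm x) + 2 * mm x * (1 - 2 * mm x) * deriv^[2] g (mm x)) :=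
    fun x hx => by
      show deriv (deriv fun x => deriv^[0] g (mm x)) x = _
      rw [E (fun x hx => (D 0 x hx).deriv) x hx,
        ((D 1 x hx).fun_mul ((hasDerivAt_id' x).fun_mul ((a x).fun_pow 2))).deriv]
      have := M x
      simp only [Nat.reduceAdd, Nat.cast_ofNat, Nat.add_one_sub_one, pow_one]
      linear_combination ((1 - 2 * mm x) ^ 3 * deriv^[2] g (mm x) -
        4 * (1 - 2 * mm x) ^ 2 * deriv^[1] g (mm x)) * this
  have p : 0 < 1 - 2 * mm δ := by linarith [mm_lt δ]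
  have z := (mul_eq_zero.1 ((e2 δ hδ).symm.trans h2)).resolve_left (by positivity)
  have hG := hG z
  rw [Function.iterate_succ_apply', E e2 δ hδ, (((a δ).fun_pow 2).fun_mul
    (((((red_mm δ).const_mul 8).const_sub 1).fun_mul (D 1 δ hδ)).fun_add
      ((((red_mm δ).const_mul 2).fun_mul (a δ)).fun_mul (D 2 δ hδ)))).deriv, z]
  have := mul_neg_of_pos_of_neg (by positivity : 0 < δ * (1 - 2 * mm δ) ^ 4) hG
  simp only [Nat.reduceAdd, Function.iterate_one]
  linarith

end Pool.Agent.HillD.S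

/-! The lines of small index: every zero of the second derivative is a strict change from convex
to concave. -/

namespace Pool.Agent.HillD
open Real Set S

theorem good_D {l : ℕ} (hl : 1 ≤ l) (hL : l ≤ 30) {m : ℝ} (h0 : 0 < m) (hm : m < 1 / 2) :
    Good (cur 0 l) m := by
  interval_cases l
  · exact top_sound chkD1 (by simp) h0 hm
  · exact top_sound chkD2 (by simp) h0 hm
  · exact top_sound chkD3 (by simp) h0 hm
  · exact top_sound chkD4 (by simp) h0 hm
  · exact top_sound chkD5 (by simp) h0 hm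
  · exact top_sound chkD6 (by simp) h0 hm
  · exact top_sound chkD7 (by simp) h0 hm
  · exact top_sound chkD8 (by simp) h0 hm
  · exact top_sound chkD9 (by simp) h0 hm
  · exact top_sound chkD10 (by simp) h0 hm
  · exact top_sound chkD11 (by simp) h0 hm
  · exact top_sound chkD12 (by simp) h0 hm
  · exact top_sound chkD13 (by simp) h0 hm
  · exact top_sound chkD14 (by simp) h0 hm
  · exact top_sound chkD15 (by simp) h0 hm
  · exact top_sound chkD16 (by simp) h0 hm
  · exact top_sound chkD17 (by simp) h0 hm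
  · exact top_sound chkD18 (by simp) h0 hm
  · exact top_sound chkD19 (by simp) h0 hm
  · exact top_sound chkD20 (by simp) h0 hm
  · exact top_sound chkD21 (by simp) h0 hm
  · exact top_sound chkD22 (by simp) h0 hm
  · exact top_sound chkD23 (by simp) h0 hm
  · exact top_sound chkD24 (by simp) h0 hm
  · exact top_sound chkD25 (by simp) h0 hm
  · exact top_sound chkD26 (by simp) h0 hm
  · exact top_sound chkD27 (by simp) h0 hm
  · exact top_sound chkD28 (by simp) h0 hm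
  · exact top_sound chkD29 (by simp) h0 hm
  · exact top_sound chkD30 (by simp) h0 hm

theorem good_N {l : ℕ} (hl : 2 ≤ l) (hL : l ≤ 30) {m : ℝ} (h0 : 0 < m) (hm : m < 1 / 2) :
    Good (cur (π / 2) l) m := by
  interval_cases l
  · exact top_sound chkN2 (by simp) h0 hm
  · exact top_sound chkN3 (by simp) h0 hm
  · exact top_sound chkN4 (by simp) h0 hm
  · exact top_sound chkN5 (by simp) h0 hm
  · exact top_sound chkN6 (by simp) h0 hm
  · exact top_sound chkN7 (by simp) h0 hm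
  · exact top_sound chkN8 (by simp) h0 hm
  · exact top_sound chkN9 (by simp) h0 hm
  · exact top_sound chkN10 (by simp) h0 hm
  · exact top_sound chkN11 (by simp) h0 hm
  · exact top_sound chkN12 (by simp) h0 hm
  · exact top_sound chkN13 (by simp) h0 hm
  · exact top_sound chkN14 (by simp) h0 hm
  · exact top_sound chkN15 (by simp) h0 hm
  · exact top_sound chkN16 (by simp) h0 hm
  · exact top_sound chkN17 (by simp) h0 hm
  · exact top_sound chkN18 (by simp) h0 hm
  · exact top_sound chkN19 (by simp) h0 hm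
  · exact top_sound chkN20 (by simp) h0 hm
  · exact top_sound chkN21 (by simp) h0 hm
  · exact top_sound chkN22 (by simp) h0 hm
  · exact top_sound chkN23 (by simp) h0 hm
  · exact top_sound chkN24 (by simp) h0 hm
  · exact top_sound chkN25 (by simp) h0 hm
  · exact top_sound chkN26 (by simp) h0 hm
  · exact top_sound chkN27 (by simp) h0 hm
  · exact top_sound chkN28 (by simp) h0 hm
  · exact top_sound chkN29 (by simp) h0 hm
  · exact top_sound chkN30 (by simp) h0 hm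

theorem small_l {θ0 : ℝ} {l : ℕ} (hθ : θ0 = 0 ∨ θ0 = π / 2) (hl : 2 ≤ l ∨ (l = 1 ∧ θ0 = 0))
    (hL : l ≤ 30) {δ : ℝ} (hδ : 0 < δ) (h2 : deriv^[2] (fun δ => cur θ0 l (mm δ)) δ = 0) :
    deriv^[3] (fun δ => cur θ0 l (mm δ)) δ < 0 := by
  have hl1 : 1 ≤ l := by omega
  refine red (fun m hm => cur_ana hθ hl1 hm.1 hm.2) hδ ?_ h2
  rcases hθ with rfl | rfl
  · exact good_D hl1 hL (mm_pos hδ) (mm_lt δ)
  · refine good_N (hl.resolve_right fun h => ?_) hL (mm_pos hδ) (mm_lt δ)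
    have := pi_pos
    linarith [h.2]

end Pool.Agent.HillD
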