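import Pool.Agent.P.MP_ae2765_an.WJet

/-! The argument of the Wronskian at the matching point. -/

namespace Pool.Agent.HillD
open Real Set Filter Topology Asymptotics

theorem warg_theta {N Nb : ℝ → ℂ} {x y p q : ℝ} (e0 : ℂ)
    (hN : J2 N 1 (x + y * Complex.I) (p + q * Complex.I))
    (hB : J2 Nb 1 (x - y * Complex.I) (p - q * Complex.I)) :
    J2 (fun τ => 1 / 2 * (1 - e0 * (Nb τ * (N τ)⁻¹))) (1 / 2 * (1 - e0)) (Complex.I * y * e0)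
      (e0 * (Complex.I * ((q - x * y : ℝ) : ℂ) + (y : ℂ) ^ 2)) := by
  refine (((j2_const (1 : ℂ)).sub ((hB.mul (hN.inv one_ne_zero)).const_mul e0)).const_mul
    (1 / 2)).of_eq ?_ ?_ ?_
  · simp
  · simp only [inv_one]; ring
  · simp only [inv_one]
    push_cast
    linear_combination (-(e0 * (y : ℂ) ^ 2)) * Complex.I_sq

theorem warg_rot (x : ℂ) : x * Complex.exp (-(Complex.I * (x.arg : ℂ))) = (‖x‖ : ℝ) := by
  have h := Complex.norm_mul_exp_arg_mul_I x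
  have h2 : Complex.exp (x.arg * Complex.I) * Complex.exp (-(Complex.I * (x.arg : ℂ))) = 1 := by
    rw [← Complex.exp_add, mul_comm, add_neg_cancel, Complex.exp_zero]
  calc x * Complex.exp (-(Complex.I * (x.arg : ℂ)))
      = (‖x‖ * Complex.exp (x.arg * Complex.I)) * Complex.exp (-(Complex.I * (x.arg : ℂ))) := by
        rw [h]
    _ = (‖x‖ : ℝ) := by rw [mul_assoc, h2, mul_one]

theorem warg_bounds {e0 z0 z1 z2 g0 g1 g2 w : ℂ} {l b : ℝ} (he : ‖e0‖ = 1)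
    (b0 : ‖z0‖ ≤ b) (b1 : ‖z1‖ ≤ 4 * b) (b2 : ‖z2‖ ≤ 16 * b) (hb : b ≤ 9 / 100)
    (h0 : g0 = 1 / 2 * (1 - e0) * z0)
    (h1 : g1 = 1 / 2 * (1 - e0) * z1 + Complex.I * l * e0 * z0)
    (h2 : g2 = 1 / 2 * (1 - e0) * z2 + Complex.I * l * e0 * z1 + e0 * (l : ℂ) ^ 2 * z0)
    (hw : w = (1 + g0)⁻¹) :
    ‖g0‖ < 1 ∧ ‖g1 * w - 1 / 2 * z1‖ ≤ eA1 b l ∧ ‖e0 * z0 * w‖ ≤ 11 / 10 * b ∧
      ‖g2 * w - g1 ^ 2 * w ^ 2 / 2 - 1 / 2 * z2‖ ≤ eA2 b l := by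
  have hb0 : 0 ≤ b := (norm_nonneg _).trans b0
  obtain ⟨L, hL⟩ : ∃ L : ℝ, L = (l ^ 2 + 1) / 2 := ⟨_, rfl⟩
  have hl : |l| ≤ L := by
    rw [hL, ← sq_abs l]; nlinarith [sq_nonneg (|l| - 1)]
  have hL0 : 0 ≤ L := (abs_nonneg l).trans hl
  have ht : ‖(1 / 2 * (1 - e0) : ℂ)‖ ≤ 1 := by
    rw [norm_mul]
    have := norm_sub_le (1 : ℂ) e0
    rw [he, norm_one] at this
    have h3 : ‖(1 / 2 : ℂ)‖ = 1 / 2 := by simp
    rw [h3]; linarith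
  have htz : ∀ z : ℂ, ‖1 / 2 * (1 - e0) * z‖ ≤ ‖z‖ := fun z => by
    rw [norm_mul]; exact mul_le_of_le_one_left (norm_nonneg _) ht
  have hez : ∀ z : ℂ, ‖-(1 / 2 * e0 * z)‖ = ‖z‖ / 2 := fun z => by
    rw [norm_neg, norm_mul, norm_mul, he]; simp; ring
  have hlz : ∀ z : ℂ, ‖Complex.I * l * e0 * z‖ ≤ L * ‖z‖ := fun z => by
    rw [norm_mul, norm_mul, norm_mul, he, Complex.norm_I, Complex.norm_real, Real.norm_eq_abs,
      one_mul, mul_one]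
    exact mul_le_mul_of_nonneg_right hl (norm_nonneg _)
  have hqz : ‖e0 * (l : ℂ) ^ 2 * z0‖ ≤ l ^ 2 * b := by
    rw [norm_mul, norm_mul, he, norm_pow, Complex.norm_real, Real.norm_eq_abs, sq_abs, one_mul]
    exact mul_le_mul_of_nonneg_left b0 (sq_nonneg _)
  have hl0 : L * ‖z0‖ ≤ L * b := mul_le_mul_of_nonneg_left b0 hL0
  have hl1 : L * ‖z1‖ ≤ L * (4 * b) := mul_le_mul_of_nonneg_left b1 hL0
  have n0 : ‖g0‖ ≤ b := by rw [h0]; exact (htz z0).trans b0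
  have n1 : ‖g1‖ ≤ b * (4 + L) := by
    rw [h1]
    refine (norm_add_le _ _).trans ?_
    linarith [htz z1, hlz z0]
  have n2 : ‖g2‖ ≤ b * (16 + 4 * L + l ^ 2) := by
    rw [h2]
    refine (norm_add₃_le).trans ?_
    linarith [htz z2, hlz z1]
  have m1 : ‖g1 - 1 / 2 * z1‖ ≤ b * (2 + L) := by
    have : g1 - 1 / 2 * z1 = -(1 / 2 * e0 * z1) + Complex.I * l * e0 * z0 := by rw [h1]; ring
    rw [this]
    refine (norm_add_le _ _).trans ?_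
    linarith [hez z1, hlz z0]
  have m2 : ‖g2 - 1 / 2 * z2‖ ≤ b * (8 + 4 * L + l ^ 2) := by
    have : g2 - 1 / 2 * z2
        = -(1 / 2 * e0 * z2) + Complex.I * l * e0 * z1 + e0 * (l : ℂ) ^ 2 * z0 := by
      rw [h2]; ring
    rw [this]
    refine (norm_add₃_le).trans ?_
    linarith [hez z2, hlz z1]
  have d0 : 91 / 100 ≤ ‖1 + g0‖ := by
    have := norm_sub_le (1 + g0) g0
    rw [add_sub_cancel_right, norm_one] at this
    linarith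
  have dne : 1 + g0 ≠ 0 := by
    intro h; rw [h, norm_zero] at d0; norm_num at d0
  have nw : ‖w‖ ≤ 100 / 91 := by
    rw [hw, norm_inv]
    exact (inv_anti₀ (by norm_num) d0).trans (by norm_num)
  have nw0 := norm_nonneg w
  have hw1 : w = 1 - g0 * w := by
    have : (1 + g0) * w = 1 := by rw [hw]; exact mul_inv_cancel₀ dne
    linear_combination this
  have n0w : ‖g0 * w‖ ≤ 11 / 10 * b := by
    rw [norm_mul]
    calc ‖g0‖ * ‖w‖ ≤ b * (100 / 91) := mul_le_mul n0 nw nw0 hb0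
      _ ≤ 11 / 10 * b := by linarith
  refine ⟨by linarith, ?_, ?_, ?_⟩
  · have e : g1 * w - 1 / 2 * z1 = (g1 - 1 / 2 * z1) - g1 * (g0 * w) := by
      linear_combination g1 * hw1
    rw [e]
    refine (norm_sub_le _ _).trans ?_
    have : ‖g1 * (g0 * w)‖ ≤ b * (4 + L) * (11 / 10 * b) := by
      rw [norm_mul]
      exact mul_le_mul n1 n0w (norm_nonneg _) (by positivity)
    unfold eA1
    rw [← hL]
    linarith
  · rw [norm_mul, norm_mul, he, one_mul]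
    calc ‖z0‖ * ‖w‖ ≤ b * (100 / 91) := mul_le_mul b0 nw nw0 hb0
      _ ≤ 11 / 10 * b := by linarith
  · have e : g2 * w - g1 ^ 2 * w ^ 2 / 2 - 1 / 2 * z2
        = (g2 - 1 / 2 * z2) - g2 * (g0 * w) - g1 ^ 2 * w ^ 2 / 2 := by
      linear_combination g2 * hw1
    rw [e]
    refine (norm_sub_le _ _).trans ?_
    have t0 := norm_sub_le (g2 - 1 / 2 * z2) (g2 * (g0 * w))
    have t1 : ‖g2 * (g0 * w)‖ ≤ b * (16 + 4 * L + l ^ 2) * (11 / 10 * b) := by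
      rw [norm_mul]
      exact mul_le_mul n2 n0w (norm_nonneg _) (by positivity)
    have t2 : ‖g1 ^ 2 * w ^ 2 / 2‖ ≤ (b * (4 + L)) ^ 2 * (61 / 100) := by
      rw [norm_div, norm_mul, norm_pow, norm_pow, mul_div_assoc]
      refine mul_le_mul (pow_le_pow_left₀ (norm_nonneg _) n1 2) ?_ (by positivity)
        (by positivity)
      have : ‖w‖ ^ 2 ≤ (100 / 91) ^ 2 := pow_le_pow_left₀ nw0 nw 2
      have h3 : ‖(2 : ℂ)‖ = 2 := by simp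
      rw [h3]
      linarith
    unfold eA2
    rw [← hL]
    linarith

theorem arg_jet {mr mi : ℝ → ℝ} {Mr Mi : T3} {z : ℝ → ℂ} {z0 z1 z2 : ℂ} {b : ℝ}
    (hr : JT mr Mr) (hi : JT mi Mi) (hn : 0 < nrm0 Mr Mi) (hz : J2 z z0 z1 z2)
    (b0 : ‖z0‖ ≤ b) (b1 : ‖z1‖ ≤ 4 * b) (b2 : ‖z2‖ ≤ 16 * b) (hb : b ≤ 9 / 100) :
    ∃ (θ : ℝ → ℝ) (c0 e1 e2 dl : ℝ), 0 ≤ dl ∧ dl ≤ 2 ∧ |e1| ≤ eA1 b (l1i Mr Mi) ∧
      |e2| ≤ eA2 b (l1i Mr Mi) ∧
      J2 θ c0 (l1i Mr Mi + e1) (l2i Mr Mi * (1 + 11 / 10 * ((dl - 1) * b)) + e2) ∧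
      ∀ᶠ τ in 𝓝 (0 : ℝ), (((mr τ : ℂ) + Complex.I * mi τ * (1 + z τ)) *
        Complex.exp (-(Complex.I * ((θ τ + (z τ).im / 2 : ℝ) : ℂ)))).im = 0 := by
  obtain ⟨a0, a1, a2⟩ := Mr
  obtain ⟨c0, c1, c2⟩ := Mi
  have hb0 : 0 ≤ b := (norm_nonneg _).trans b0
  obtain ⟨n, hn'⟩ : ∃ n : ℝ, n = nrm0 (a0, a1, a2) (c0, c1, c2) := ⟨_, rfl⟩
  have hnn : (n : ℂ) = (a0 : ℂ) ^ 2 + (c0 : ℂ) ^ 2 := by
    rw [hn']; unfold nrm0; push_cast; rfl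
  have hn0 : (n : ℂ) ≠ 0 := by
    rw [hn']; exact Complex.ofReal_ne_zero.2 hn.ne'
  obtain ⟨x, hx⟩ : ∃ x : ℝ, x = (a1 * a0 + c1 * c0) * n⁻¹ := ⟨_, rfl⟩
  obtain ⟨y, hy⟩ : ∃ y : ℝ, y = (c1 * a0 - a1 * c0) * n⁻¹ := ⟨_, rfl⟩
  obtain ⟨p, hp⟩ : ∃ p : ℝ, p = (a2 * a0 + c2 * c0) * n⁻¹ := ⟨_, rfl⟩
  obtain ⟨q, hq⟩ : ∃ q : ℝ, q = (c2 * a0 - a2 * c0) * n⁻¹ := ⟨_, rfl⟩
  have hl1 : l1i (a0, a1, a2) (c0, c1, c2) = y := by rw [hy, hn']; rfl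
  have hl2 : l2i (a0, a1, a2) (c0, c1, c2) = q - x * y := by
    rw [hq, hx, ← hl1, hn']; rfl
  rw [hl1, hl2]
  have hr' : J2 (fun τ => (mr τ : ℂ)) (a0 : ℂ) (a1 : ℂ) (a2 : ℂ) := J2.ofReal hr
  have hi' : J2 (fun τ => (mi τ : ℂ)) (c0 : ℂ) (c1 : ℂ) (c2 : ℂ) := J2.ofReal hi
  have hni : (n : ℂ) * (n : ℂ)⁻¹ = 1 := mul_inv_cancel₀ hn0
  have hN : J2 (fun τ => ((a0 : ℂ) - Complex.I * c0) * (n : ℂ)⁻¹ * (mr τ + Complex.I * mi τ)) 1
      (x + y * Complex.I) (p + q * Complex.I) := by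
    refine ((hr'.add (hi'.const_mul Complex.I)).const_mul _).of_eq ?_ ?_ ?_
    · linear_combination hni - (n : ℂ)⁻¹ * hnn - (c0 : ℂ) ^ 2 * (n : ℂ)⁻¹ * Complex.I_sq
    · rw [hx, hy]; push_cast
      linear_combination (-((c0 : ℂ) * c1 * (n : ℂ)⁻¹)) * Complex.I_sq
    · rw [hp, hq]; push_cast
      linear_combination (-((c0 : ℂ) * c2 * (n : ℂ)⁻¹)) * Complex.I_sq
  have hB : J2 (fun τ => ((a0 : ℂ) + Complex.I * c0) * (n : ℂ)⁻¹ * (mr τ - Complex.I * mi τ)) 1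
      (x - y * Complex.I) (p - q * Complex.I) := by
    refine ((hr'.sub (hi'.const_mul Complex.I)).const_mul _).of_eq ?_ ?_ ?_
    · linear_combination hni - (n : ℂ)⁻¹ * hnn - (c0 : ℂ) ^ 2 * (n : ℂ)⁻¹ * Complex.I_sq
    · rw [hx, hy]; push_cast
      linear_combination (-((c0 : ℂ) * c1 * (n : ℂ)⁻¹)) * Complex.I_sq
    · rw [hp, hq]; push_cast
      linear_combination (-((c0 : ℂ) * c2 * (n : ℂ)⁻¹)) * Complex.I_sq
  obtain ⟨N, hNd⟩ : ∃ N : ℝ → ℂ,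
    N = fun τ => ((a0 : ℂ) - Complex.I * c0) * (n : ℂ)⁻¹ * (mr τ + Complex.I * mi τ) := ⟨_, rfl⟩
  obtain ⟨Nb, hBd⟩ : ∃ Nb : ℝ → ℂ,
    Nb = fun τ => ((a0 : ℂ) + Complex.I * c0) * (n : ℂ)⁻¹ * (mr τ - Complex.I * mi τ) := ⟨_, rfl⟩
  rw [← hNd] at hN
  rw [← hBd] at hB
  obtain ⟨e0, he0⟩ : ∃ e0 : ℂ, e0 = ((a0 : ℂ) - Complex.I * c0) ^ 2 * (n : ℂ)⁻¹ := ⟨_, rfl⟩
  have he : ‖e0‖ = 1 := by
    have h1 : ‖(a0 : ℂ) - Complex.I * c0‖ ^ 2 = n := by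
      rw [Complex.sq_norm, Complex.normSq_apply, hn']
      simp [nrm0]; ring
    rw [he0, norm_mul, norm_pow, h1, norm_inv, Complex.norm_real, Real.norm_eq_abs,
      abs_of_pos (hn' ▸ hn), mul_inv_cancel₀ (hn' ▸ hn.ne')]
  have hg := (j2_const (1 : ℂ)).add ((warg_theta e0 hN hB).mul hz)
  obtain ⟨k0, k1, k2, k3⟩ := warg_bounds (l := y) he b0 b1 b2 hb rfl rfl rfl rfl
  have hlg := (hg.clog (Complex.mem_slitPlane_of_norm_lt_one k0)).im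
  have hlN := (hN.clog Complex.one_mem_slitPlane).im
  have hθ := (((j2_const ((a0 : ℂ) + Complex.I * c0).arg).add hlN).add hlg).sub
    (hz.im.const_mul (1 / 2))
  obtain ⟨w, hw⟩ : ∃ w : ℂ, w = (1 + 1 / 2 * (1 - e0) * z0)⁻¹ := ⟨_, rfl⟩
  rw [← hw] at k1 k2 k3
  have kr : |(e0 * z0 * w).re| ≤ 11 / 10 * b := (Complex.abs_re_le_norm _).trans k2
  obtain ⟨dl, d0, d2, hdl⟩ : ∃ dl : ℝ, 0 ≤ dl ∧ dl ≤ 2 ∧
      11 / 10 * ((dl - 1) * b) = (e0 * z0 * w).re := by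
    obtain ⟨kl, ku⟩ := abs_le.1 kr
    rcases hb0.eq_or_lt with h | h
    · exact ⟨1, by norm_num, by norm_num, by subst h; linarith⟩
    · have h' : 0 < 11 / 10 * b := by linarith
      refine ⟨1 + (e0 * z0 * w).re / (11 / 10 * b), ?_, ?_, ?_⟩
      · have := (le_div_iff₀ h').2 (show -1 * (11 / 10 * b) ≤ (e0 * z0 * w).re by linarith)
        linarith
      · have := (div_le_iff₀ h').2 (show (e0 * z0 * w).re ≤ 1 * (11 / 10 * b) by linarith)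
        linarith
      · field_simp
        ring
  refine ⟨_, _, _, _, dl, d0, d2, (Complex.abs_im_le_norm _).trans k1,
    (Complex.abs_im_le_norm _).trans k3, hθ.of_eq rfl ?_ ?_, ?_⟩
  · rw [div_eq_mul_inv _ (1 + 1 / 2 * (1 - e0) * z0), ← hw, zero_add, zero_add, Complex.sub_im,
      div_one]
    simp
    ring
  · have e : (0 + (1 / 2 * (1 - e0) * z2 + Complex.I * y * e0 * z1 +
          e0 * (Complex.I * ((q - x * y : ℝ) : ℂ) + (y : ℂ) ^ 2) * z0)) /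
            (1 + 1 / 2 * (1 - e0) * z0) -
          (0 + (1 / 2 * (1 - e0) * z1 + Complex.I * y * e0 * z0)) ^ 2 /
            (2 * (1 + 1 / 2 * (1 - e0) * z0) ^ 2)
        = ((1 / 2 * (1 - e0) * z2 + Complex.I * y * e0 * z1 + e0 * (y : ℂ) ^ 2 * z0) * w -
          (1 / 2 * (1 - e0) * z1 + Complex.I * y * e0 * z0) ^ 2 * w ^ 2 / 2 - 1 / 2 * z2)
          + (((q - x * y : ℝ) : ℂ) * ((e0 * z0 * w) * Complex.I) + ((1 / 2 : ℝ) : ℂ) * z2) := by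
      rw [div_eq_mul_inv, div_eq_mul_inv _ (2 * _), mul_inv, ← inv_pow, ← hw]
      push_cast
      ring
    have e' : ((p + q * Complex.I) / 1 - (x + y * Complex.I) ^ 2 / (2 * 1 ^ 2) : ℂ).im
        = q - x * y := by
      simp [sq]
      ring
    rw [e, e', hdl, Complex.add_im, Complex.add_im, Complex.im_ofReal_mul, Complex.im_ofReal_mul,
      Complex.mul_I_im]
    ring
  · have hne : ∀ᶠ τ in 𝓝 (0 : ℝ), N τ ≠ 0 :=
      hN.cont.eventually_ne (by rw [hN.val]; exact one_ne_zero)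
    filter_upwards [hne] with τ hτ
    have hNi : N τ * (N τ)⁻¹ = 1 := mul_inv_cancel₀ hτ
    have hW : (mr τ : ℂ) + Complex.I * mi τ * (1 + z τ)
        = ((a0 : ℂ) + Complex.I * c0) * N τ *
          (1 + 1 / 2 * (1 - e0 * (Nb τ * (N τ)⁻¹)) * z τ) := by
      have u1 : ((a0 : ℂ) + Complex.I * c0) * N τ = mr τ + Complex.I * mi τ := by
        rw [hNd]
        linear_combination (mr τ + Complex.I * mi τ) *
          (hni - (n : ℂ)⁻¹ * hnn - (c0 : ℂ) ^ 2 * (n : ℂ)⁻¹ * Complex.I_sq)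
      have u0 : ((a0 : ℂ) + Complex.I * c0) * ((a0 : ℂ) - Complex.I * c0) * (n : ℂ)⁻¹ = 1 := by
        linear_combination hni - (n : ℂ)⁻¹ * hnn - (c0 : ℂ) ^ 2 * (n : ℂ)⁻¹ * Complex.I_sq
      have u2 : ((a0 : ℂ) + Complex.I * c0) * (e0 * Nb τ) = mr τ - Complex.I * mi τ := by
        rw [hBd, he0]
        linear_combination (mr τ - Complex.I * mi τ) *
          (((a0 : ℂ) + Complex.I * c0) * ((a0 : ℂ) - Complex.I * c0) * (n : ℂ)⁻¹ + 1) * u0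
      linear_combination (-(1 + 1 / 2 * z τ)) * u1 + 1 / 2 * z τ * u2
        + 1 / 2 * z τ * ((a0 : ℂ) + Complex.I * c0) * (e0 * Nb τ) * hNi
    obtain ⟨G, hG⟩ : ∃ G : ℂ, G = 1 + 1 / 2 * (1 - e0 * (Nb τ * (N τ)⁻¹)) * z τ := ⟨_, rfl⟩
    rw [hW, ← hG, Complex.log_im, Complex.log_im]
    have e : -(Complex.I * ((((a0 : ℂ) + Complex.I * c0).arg + (N τ).arg + G.arg
        - 1 / 2 * (z τ).im + (z τ).im / 2 : ℝ) : ℂ))
        = -(Complex.I * (((a0 : ℂ) + Complex.I * c0).arg : ℂ)) + -(Complex.I * ((N τ).arg : ℂ))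
          + -(Complex.I * (G.arg : ℂ)) := by
      push_cast; ring
    rw [e, Complex.exp_add, Complex.exp_add, mul_mul_mul_comm, mul_mul_mul_comm _ (N τ),
      warg_rot, warg_rot, warg_rot, ← Complex.ofReal_mul, ← Complex.ofReal_mul, Complex.ofReal_im]

end Pool.Agent.HillD
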