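import Pool.Agent.P.MP_ae2765_an.WPath

/-! Large amplitude: the real axis. -/

namespace Pool.Agent.HillD
open Real Set Filter Topology Asymptotics

theorem werrb_psi {p u x : ℝ} (hp : 0 < p) (hx : 0 ≤ x) :
    HasDerivAt (fun y : ℝ => (-u + y ^ (3 / 2 : ℝ) / p) / (3 * √(p + y) ^ 3))
      ((u + √x) / (2 * √(p + x) ^ 5)) x := by
  have h1 : HasDerivAt (fun y : ℝ => y ^ (3 / 2 : ℝ)) (3 / 2 * x ^ (3 / 2 - 1 : ℝ)) x :=
    Real.hasDerivAt_rpow_const (Or.inr (by norm_num))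
  have e1 : x ^ (3 / 2 - 1 : ℝ) = √x := by
    rw [Real.sqrt_eq_rpow]; norm_num
  have e2 : x ^ (3 / 2 : ℝ) = √x ^ 3 := by
    rw [Real.sqrt_eq_rpow, ← Real.rpow_natCast, ← Real.rpow_mul hx]; norm_num
  have hW : 0 < p + x := by linarith
  have hR : 0 < √(p + x) := Real.sqrt_pos.2 hW
  have h2 : HasDerivAt (fun y : ℝ => √(p + y)) (1 / (2 * √(p + x))) x :=
    ((hasDerivAt_id x).const_add p).sqrt hW.ne'
  have h3 := ((h1.div_const p).const_add (-u)).div ((h2.pow 3).const_mul 3)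
    (by simp only [Pi.pow_apply]; positivity)
  have e3 : √(p + x) ^ 2 = p + √x ^ 2 := by rw [Real.sq_sqrt hW.le, Real.sq_sqrt hx]
  refine h3.congr_deriv ?_
  simp only [Pi.pow_apply, e1, e2]
  generalize √(p + x) = R at *
  generalize √x = ζ at *
  field_simp
  have e4 : p = R ^ 2 - ζ ^ 2 := by linarith
  rw [e4]
  push_cast
  ring

theorem werrb_cos {φ1 φ : ℝ} (h1 : φ1 ≤ π / 2) (h : φ ∈ Icc (0 : ℝ) φ1) :
    0 ≤ cos φ1 ∧ cos φ1 ≤ cos φ ∧ 0 ≤ sin φ ∧ 0 ≤ cos φ ^ 2 - cos φ1 ^ 2 := by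
  have hπ := Real.pi_pos
  have a : 0 ≤ cos φ1 := Real.cos_nonneg_of_neg_pi_div_two_le_of_le (by linarith [h.1, h.2]) h1
  have b : cos φ1 ≤ cos φ := Real.cos_le_cos_of_nonneg_of_le_pi h.1 (by linarith) h.2
  exact ⟨a, b, Real.sin_nonneg_of_nonneg_of_le_pi h.1 (by linarith [h.2]), by nlinarith⟩

theorem werrb_cont {φ1 p : ℝ} (h0 : 0 ≤ φ1) (h1 : φ1 ≤ π / 2) (hp : 0 < p) :
    IntervalIntegrable (fun φ => (cos φ1 + √(cos φ ^ 2 - cos φ1 ^ 2)) * (cos φ * sin φ) /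
      √(p + (cos φ ^ 2 - cos φ1 ^ 2)) ^ 5) MeasureTheory.volume 0 φ1 := by
  refine ContinuousOn.intervalIntegrable ?_
  rw [uIcc_of_le h0]
  refine ContinuousOn.div (by fun_prop) (by fun_prop) fun φ h => ?_
  have := (werrb_cos h1 h).2.2.2
  have : 0 < √(p + (cos φ ^ 2 - cos φ1 ^ 2)) := Real.sqrt_pos.2 (by linarith)
  positivity

theorem werrb_int {φ1 p : ℝ} (h0 : 0 ≤ φ1) (h1 : φ1 ≤ π / 2) (hp : 0 < p) :
    ∫ φ in (0 : ℝ)..φ1, (cos φ1 + √(cos φ ^ 2 - cos φ1 ^ 2)) * (cos φ * sin φ) /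
      √(p + (cos φ ^ 2 - cos φ1 ^ 2)) ^ 5 ≤ (1 + cos φ1 / √p) / (3 * p) := by
  have hd : ∀ φ ∈ uIcc (0 : ℝ) φ1, HasDerivAt (fun φ => -((-cos φ1 +
      (cos φ ^ 2 - cos φ1 ^ 2) ^ (3 / 2 : ℝ) / p) / (3 * √(p + (cos φ ^ 2 - cos φ1 ^ 2)) ^ 3)))
      ((cos φ1 + √(cos φ ^ 2 - cos φ1 ^ 2)) * (cos φ * sin φ) /
        √(p + (cos φ ^ 2 - cos φ1 ^ 2)) ^ 5) φ := by
    intro φ h
    rw [uIcc_of_le h0] at h
    have hξ := (werrb_cos h1 h).2.2.2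
    have a : HasDerivAt (fun φ => cos φ ^ 2 - cos φ1 ^ 2) (2 * cos φ * -sin φ) φ := by
      simpa using ((Real.hasDerivAt_cos φ).pow 2).sub_const (cos φ1 ^ 2)
    have b := ((werrb_psi (u := cos φ1) hp hξ).comp φ a).neg
    refine b.congr_deriv ?_
    ring
  rw [intervalIntegral.integral_eq_sub_of_hasDerivAt hd (werrb_cont h0 h1 hp)]
  obtain ⟨a, -, -, hξ⟩ := werrb_cos h1 (⟨le_rfl, h0⟩ : (0 : ℝ) ∈ Icc (0 : ℝ) φ1)
  generalize cos 0 ^ 2 - cos φ1 ^ 2 = x at hξ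
  have e2 : x ^ (3 / 2 : ℝ) = √x ^ 3 := by
    rw [Real.sqrt_eq_rpow, ← Real.rpow_natCast, ← Real.rpow_mul hξ]; norm_num
  have hR : 0 < √(p + x) := Real.sqrt_pos.2 (by linarith)
  have hq : 0 < √p := Real.sqrt_pos.2 hp
  have e3 : √x ^ 3 ≤ √(p + x) ^ 3 :=
    pow_le_pow_left₀ (Real.sqrt_nonneg _) (Real.sqrt_le_sqrt (by linarith)) 3
  have e4 : (-cos φ1 + √x ^ 3 / p) / (3 * √(p + x) ^ 3) ≤ 1 / (3 * p) := by
    rw [div_le_div_iff₀ (by positivity) (by positivity)]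
    have : √x ^ 3 / p * (3 * p) = 3 * √x ^ 3 := by field_simp
    nlinarith [mul_nonneg a hp.le]
  have e5 : √p ^ 3 = p * √p := by rw [pow_succ, Real.sq_sqrt hp.le]
  rw [e2, sub_self, Real.zero_rpow (by norm_num), add_zero p, e5]
  have e6 : (1 + cos φ1 / √p) / (3 * p) = 1 / (3 * p) + cos φ1 / (3 * (p * √p)) := by
    field_simp
  rw [e6, zero_div, add_zero, neg_div, neg_neg]
  linarith

theorem werrb_pt {c s u ζ R p v n a k Q : ℝ} (hc : 0 ≤ c) (hs : 0 ≤ s) (hcs : s ^ 2 + c ^ 2 = 1)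
    (hu : c ≤ u + ζ) (hR : 0 < R) (hp : 0 < p) (hv : 0 < v) (hn : 247 / 250 * R ^ 2 ≤ n)
    (hk : 0 < k) (hQ : 0 < Q) (hQ1 : Q ≤ 503 / 500 * (1 + c ^ 2)) (ha : 2 ≤ v ^ 2 * (a * p ^ 2)) :
    (k * c * s / (2 * (k * n))) ^ 2 / (2 * √(2 * a * n / Q)) ≤
      33 / 500 * (v * p) * ((u + ζ) * (c * s) / R ^ 5) := by
  have hn0 : 0 < n := lt_of_lt_of_le (by positivity) hn
  have ha0 : 0 < a := by
    by_contra h
    have : v ^ 2 * (a * p ^ 2) ≤ 0 :=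
      mul_nonpos_of_nonneg_of_nonpos (sq_nonneg _) (mul_nonpos_of_nonpos_of_nonneg (not_lt.1 h)
        (sq_nonneg _))
    linarith
  have hS : 0 < √(2 * a * n / Q) := Real.sqrt_pos.2 (by positivity)
  have hS2 : √(2 * a * n / Q) ^ 2 * Q = 2 * a * n := by
    rw [Real.sq_sqrt (by positivity)]; field_simp
  generalize √(2 * a * n / Q) = S at *
  have A : s * R ≤ 51 / 100 * (v * p * S) := by
    refine le_of_sq_le_sq ?_ (by positivity)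
    refine le_of_mul_le_mul_right ?_ hQ
    have b1 : s ^ 2 * Q ≤ 503 / 500 := by
      have : s ^ 2 * (1 + c ^ 2) ≤ 1 := by nlinarith [sq_nonneg (c ^ 2)]
      nlinarith [mul_le_mul_of_nonneg_left hQ1 (sq_nonneg s)]
    have b2 : (51 / 100 * (v * p * S)) ^ 2 * Q = 2601 / 5000 * ((v ^ 2 * (a * p ^ 2)) * n) := by
      have : (51 / 100 * (v * p * S)) ^ 2 * Q = (51 / 100 * (v * p)) ^ 2 * (S ^ 2 * Q) := by ring
      rw [this, hS2]; ring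
    have b3 : 2 * n ≤ (v ^ 2 * (a * p ^ 2)) * n := mul_le_mul_of_nonneg_right ha hn0.le
    have b4 : (s * R) ^ 2 * Q ≤ 503 / 500 * R ^ 2 := by
      have : (s * R) ^ 2 * Q = (s ^ 2 * Q) * R ^ 2 := by ring
      rw [this]
      exact mul_le_mul_of_nonneg_right b1 (sq_nonneg _)
    rw [b2]
    nlinarith [sq_nonneg R]
  have B : 122 / 125 * R ^ 4 ≤ n ^ 2 := by
    have := pow_le_pow_left₀ (by positivity) hn 2
    nlinarith [pow_pos hR 4]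
  have C : s * R ^ 5 ≤ 66 / 125 * (v * p * S) * n ^ 2 := by
    have h1 : s * R * R ^ 4 ≤ 51 / 100 * (v * p * S) * R ^ 4 :=
      mul_le_mul_of_nonneg_right A (by positivity)
    have h2 : v * p * S * (122 / 125 * R ^ 4) ≤ v * p * S * n ^ 2 :=
      mul_le_mul_of_nonneg_left B (by positivity)
    have h3 : 0 ≤ v * p * S * R ^ 4 := by positivity
    nlinarith
  have e1 : (k * c * s / (2 * (k * n))) ^ 2 / (2 * S) = c * (c * s) * s / (8 * n ^ 2 * S) := by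
    field_simp; norm_num
  have e2 : 33 / 500 * (v * p) * ((u + ζ) * (c * s) / R ^ 5) =
      33 / 500 * (v * p) * ((u + ζ) * (c * s)) / R ^ 5 := by ring
  rw [e1, e2, div_le_div_iff₀ (by positivity) (by positivity)]
  have h4 : c * (c * s) ≤ (u + ζ) * (c * s) := mul_le_mul_of_nonneg_right hu (by positivity)
  calc c * (c * s) * s * R ^ 5 = c * (c * s) * (s * R ^ 5) := by ring
    _ ≤ (u + ζ) * (c * s) * (66 / 125 * (v * p * S) * n ^ 2) :=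
      mul_le_mul h4 C (by positivity) (le_trans (by positivity) h4)
    _ = _ := by ring

theorem werrb_low {p0 ξ : ℝ} {ρ : ℂ} (hp : 0 < p0) (hξ : 0 ≤ ξ) (hρ : Sa ρ (3 / 10)) :
    247 / 250 * (p0 * ‖ρ‖ + ξ) ≤ ‖(p0 : ℂ) * ρ + ξ‖ ∧ Sa ((p0 : ℂ) * ρ + ξ) (3 / 10) := by
  have h1 : 477 / 500 * ‖ρ‖ - 1 / 10000 * ‖ρ‖ ≤ ρ.re := by
    have h2 : (9539 / 10000 : ℝ) ≤ √(1 - (3 / 10) ^ 2) := Real.le_sqrt_of_sq_le (by norm_num)
    have := hρ.re_ge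
    nlinarith [norm_nonneg ρ]
  have h3 : ‖ρ‖ ^ 2 = ρ.re ^ 2 + ρ.im ^ 2 := by rw [Complex.sq_norm, Complex.normSq_apply]; ring
  have h4 : ‖(p0 : ℂ) * ρ + ξ‖ ^ 2 = (p0 * ‖ρ‖) ^ 2 + 2 * (p0 * ξ * ρ.re) + ξ ^ 2 := by
    rw [mul_pow, h3, Complex.sq_norm, Complex.normSq_apply]
    simp
    ring
  refine ⟨le_of_sq_le_sq ?_ (norm_nonneg _), ?_⟩
  · have h5 : p0 * ξ * (477 / 500 * ‖ρ‖ - 1 / 10000 * ‖ρ‖) ≤ p0 * ξ * ρ.re :=
      mul_le_mul_of_nonneg_left h1 (by positivity)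
    have h6 : 0 ≤ p0 * ξ * ‖ρ‖ := by positivity
    rw [h4]
    nlinarith [sq_nonneg (p0 * ‖ρ‖ - ξ)]
  · rcases hξ.eq_or_lt with rfl | h
    · simpa using hρ.pos_mul hp
    · exact (hρ.pos_mul hp).add (sa_real h (by norm_num)) (by norm_num) (by norm_num)

theorem werrb_Q {X : ℝ} {j : ℂ} (h0 : 0 ≤ X) (hj : ‖j‖ ≤ 3 / 1000) :
    Sa (1 - 2 * j) (3 / 500) ∧ Sa (QQ j X) (3 / 500) ∧ ‖QQ j X‖ ≤ 503 / 500 * (1 + X) := by
  have h1 : ‖-(2 * j)‖ ≤ 3 / 500 := by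
    rw [norm_neg, norm_mul, Complex.norm_two]; linarith
  have h2 : Sa (1 - 2 * j) (3 / 500) := by
    rw [sub_eq_add_neg]; exact sa_one_add h1 (by norm_num)
  refine ⟨h2, ?_, ?_⟩
  · have h3 : Sa (1 : ℂ) (3 / 500) := by simpa using sa_real (σ := 3 / 500) one_pos (by norm_num)
    rcases h0.eq_or_lt with rfl | h
    · simpa [QQ] using h3
    · rw [QQ, mul_comm]
      exact h3.add (h2.pos_mul h) (by norm_num) (by norm_num)
  · have h4 : ‖1 - 2 * j‖ ≤ 503 / 500 := by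
      rw [sub_eq_add_neg]
      refine (norm_add_le _ _).trans ?_
      rw [norm_one]; linarith
    refine (norm_add_le _ _).trans ?_
    rw [norm_one, norm_mul, Complex.norm_real, Real.norm_of_nonneg h0]
    nlinarith

theorem err_tt {φ1 x1 p0 A0 jl μρ μω v : ℝ} {ω j ρ : ℂ}
    (h0 : π / 4 ≤ φ1) (h1 : φ1 ≤ π / 2) (hx : cos φ1 ^ 2 = x1) (hp : 0 < p0) (hpx : x1 ≤ p0)
    (hp1 : p0 - x1 ≤ 1) (hA : x1 = (1 - A0) * p0) (hj : ‖j‖ ≤ jl) (hjl : jl ≤ 3 / 1000)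
    (hP : ω * j + (1 - 2 * j) * x1 = (1 - 2 * j) * p0 * ρ) (hρ : ‖ρ - 1‖ ≤ μρ)
    (hρ1 : μρ ≤ 77 / 200) (hρ2 : Sa ρ (3 / 10)) (hρ3 : x1 = 0 ∨ μρ ≤ 27 / 100)
    (hω : Sa ω μω) (hω0 : 0 ≤ μω) (hω1 : μω ≤ 3 / 20)
    (hv : 0 < v) (hm : 2 ≤ v ^ 2 * (‖ω * (1 - 2 * j) * ρ ^ 2‖ * p0 ^ 2)) :
    (∀ φ ∈ Icc (0 : ℝ) φ1, q2 ω j φ ∈ Complex.slitPlane) ∧
      ‖Tt φ1 ω j‖ ≤ 11 / 500 * (v * (1 + √(137 / 100 * (1 - A0)))) := by
  have hπ := Real.pi_pos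
  have h00 : 0 ≤ φ1 := by linarith
  have hρ0 : 0 < ‖ρ‖ := norm_pos_iff.2 hρ2.ne
  have hpp : 0 < p0 * ‖ρ‖ := by positivity
  have eX : ∀ φ : ℝ, Complex.cos φ ^ 2 = ((cos φ ^ 2 : ℝ) : ℂ) := fun φ => by push_cast; rfl
  have eP : ∀ φ : ℝ, PP ω j ((cos φ ^ 2 : ℝ) : ℂ) =
      (1 - 2 * j) * ((p0 : ℂ) * ρ + ((cos φ ^ 2 - cos φ1 ^ 2 : ℝ) : ℂ)) := fun φ => by
    rw [PP, hx, Complex.ofReal_sub]
    linear_combination hP
  refine ⟨fun φ h => ?_, ?_⟩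
  · obtain ⟨-, -, -, hξ⟩ := werrb_cos h1 h
    obtain ⟨a1, a2, -⟩ := werrb_Q (sq_nonneg (cos φ)) (hj.trans hjl)
    have a3 := ((((hω.mono hω1).mul a1 (by norm_num) (by norm_num) (by norm_num)).mul
      (werrb_low hp hξ hρ2).2 (by norm_num) (by norm_num) (by norm_num)).mul a2.inv
      (by norm_num) (by norm_num) (by norm_num)).pos_mul two_pos
    rw [q2, eX, eP]
    convert a3.slit using 1
    push_cast
    ring
  · rw [Tt, norm_neg]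
    refine (intervalIntegral.norm_integral_le_of_norm_le h00 (Eventually.of_forall fun φ h => ?_)
      ((werrb_cont h00 h1 hpp).const_mul (33 / 500 * (v * (p0 * ‖ρ‖))))).trans ?_
    · obtain ⟨b1, b2, b3, hξ⟩ := werrb_cos h1 (Ioc_subset_Icc_self h)
      obtain ⟨a1, a2, a3⟩ := werrb_Q (sq_nonneg (cos φ)) (hj.trans hjl)
      have hW : 0 < p0 * ‖ρ‖ + (cos φ ^ 2 - cos φ1 ^ 2) := by linarith
      have key := werrb_pt (c := cos φ) (s := sin φ) (u := cos φ1)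
        (ζ := √(cos φ ^ 2 - cos φ1 ^ 2)) (R := √(p0 * ‖ρ‖ + (cos φ ^ 2 - cos φ1 ^ 2)))
        (p := p0 * ‖ρ‖) (v := v) (n := ‖(p0 : ℂ) * ρ + ((cos φ ^ 2 - cos φ1 ^ 2 : ℝ) : ℂ)‖)
        (a := ‖ω‖ * ‖1 - 2 * j‖) (k := ‖1 - 2 * j‖) (Q := ‖QQ j ((cos φ ^ 2 : ℝ) : ℂ)‖)
        (b1.trans b2) b3 (Real.sin_sq_add_cos_sq φ)
        (by
          refine le_of_sq_le_sq ?_ (by positivity)
          nlinarith [Real.sq_sqrt hξ, mul_nonneg b1 (Real.sqrt_nonneg (cos φ ^ 2 - cos φ1 ^ 2))])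
        (Real.sqrt_pos.2 hW) hpp hv (by rw [Real.sq_sqrt hW.le]; exact (werrb_low hp hξ hρ2).1)
        (norm_pos_iff.2 a1.ne) (norm_pos_iff.2 a2.ne) a3
        (by
          rw [norm_mul, norm_mul, norm_pow] at hm
          refine hm.trans (le_of_eq ?_)
          ring)
      refine le_trans (le_of_eq ?_) key
      rw [norm_div, norm_pow, norm_mul, qh, norm_csqrt, q2, eh, eX, eP, ← Complex.ofReal_cos,
        ← Complex.ofReal_sin]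
      simp only [norm_div, norm_mul, Complex.norm_two, Complex.norm_real,
        Real.norm_of_nonneg (b1.trans b2), Real.norm_of_nonneg b3]
      congr 3
      ring
    · rw [intervalIntegral.integral_const_mul]
      have hc : 0 ≤ cos φ1 := (werrb_cos h1 (⟨le_rfl, h00⟩ : (0 : ℝ) ∈ Icc (0 : ℝ) φ1)).1
      have c1 : cos φ1 / √(p0 * ‖ρ‖) ≤ √(137 / 100 * (1 - A0)) := by
        rcases hρ3 with h | h
        · have : cos φ1 = 0 := by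
            rw [← hx] at h; exact pow_eq_zero_iff two_ne_zero |>.1 h
          rw [this, zero_div]
          exact Real.sqrt_nonneg _
        · refine Real.le_sqrt_of_sq_le ?_
          have d1 : 73 / 100 ≤ ‖ρ‖ := by
            have := norm_sub_norm_le (1 : ℂ) ρ
            rw [norm_one, norm_sub_rev] at this
            linarith
          have d2 : 0 ≤ (1 - A0) * p0 := by rw [← hA, ← hx]; positivity
          rw [div_pow, Real.sq_sqrt hpp.le, hx, div_le_iff₀ hpp, hA]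
          nlinarith
      calc 33 / 500 * (v * (p0 * ‖ρ‖)) * _
          ≤ 33 / 500 * (v * (p0 * ‖ρ‖)) * ((1 + cos φ1 / √(p0 * ‖ρ‖)) / (3 * (p0 * ‖ρ‖))) :=
            mul_le_mul_of_nonneg_left (werrb_int h00 h1 hpp) (by positivity)
        _ = 11 / 500 * (v * (1 + cos φ1 / √(p0 * ‖ρ‖))) := by field_simp; norm_num
        _ ≤ _ := by gcongr

end Pool.Agent.HillD
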