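import Pool.Agent.P.MP_ae2765_an.WErrA
import Pool.Agent.P.MP_ae2765_an.WErrB

/-! Large amplitude: all estimates at one parameter. -/

namespace Pool.Agent.HillD
open Real Set Filter Topology Asymptotics

theorem werr_int (L : ℝ) : ∫ s in (0 : ℝ)..1, L / (1 + (L * (1 - s)) ^ 2) ≤ π / 2 := by
  have h : ∀ s ∈ uIcc (0 : ℝ) 1, HasDerivAt (fun s => -arctan (L * (1 - s)))
      (L / (1 + (L * (1 - s)) ^ 2)) s := fun s _ => by
    have h1 : HasDerivAt (fun s : ℝ => L * (1 - s)) (L * (0 - 1)) s :=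
      ((hasDerivAt_const s (1 : ℝ)).sub (hasDerivAt_id s)).const_mul L
    exact h1.arctan.neg.congr_deriv (by ring)
  have hc : Continuous fun s : ℝ => L / (1 + (L * (1 - s)) ^ 2) :=
    continuous_const.div (by fun_prop) fun s => by positivity
  rw [intervalIntegral.integral_eq_sub_of_hasDerivAt h (hc.intervalIntegrable _ _)]
  simpa using (arctan_lt_pi_div_two L).le

theorem werr_y {ωl W : ℝ} (h0 : 1 ≤ ωl) (h : ωl ≤ W) :
    13 / (16 * W) + 1 / W ^ 2 ≤ 13 / (16 * ωl) + 1 / ωl ^ 2 ∧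
      (13 / (16 * W) + 1 / W ^ 2) ^ 2 * (π * √(7 / 5 * W)) ≤
        (13 / (16 * ωl) + 1 / ωl ^ 2) ^ 2 * (π * √(7 / 5 * ωl)) := by
  have p0 : 0 < ωl := by linarith
  refine ⟨by gcongr, ?_⟩
  obtain ⟨r, hr, rfl⟩ : ∃ r, 1 ≤ r ∧ W = r * ωl :=
    ⟨W / ωl, (one_le_div p0).2 h, by field_simp⟩
  have p1 : 0 < r := by linarith
  have h1 : 13 / (16 * (r * ωl)) + 1 / (r * ωl) ^ 2 ≤ (13 / (16 * ωl) + 1 / ωl ^ 2) / r := by
    have : 1 / (r * ωl) ^ 2 ≤ 1 / (r * ωl ^ 2) := by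
      refine one_div_le_one_div_of_le (by positivity) ?_
      rw [mul_pow]
      exact mul_le_mul_of_nonneg_right (by nlinarith) (by positivity)
    refine (add_le_add le_rfl this).trans_eq ?_
    field_simp
  have h2 : √(7 / 5 * (r * ωl)) ≤ r ^ 2 * √(7 / 5 * ωl) := by
    rw [← sqrt_sq (sq_nonneg r), ← sqrt_mul (by positivity)]
    refine sqrt_le_sqrt ?_
    have : r ≤ (r ^ 2) ^ 2 := by
      rw [← pow_mul]
      exact le_self_pow₀ hr (by norm_num)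
    nlinarith
  calc _ ≤ ((13 / (16 * ωl) + 1 / ωl ^ 2) / r) ^ 2 * (π * (r ^ 2 * √(7 / 5 * ωl))) := by gcongr
    _ = _ := by field_simp

theorem err2 {φ1 x1 p0 A0 jl μρ μω v ωl κ0 γ bb ν : ℝ} {ω j ρ : ℂ}
    (h0 : π / 4 ≤ φ1) (h1 : φ1 ≤ π / 2) (hx : cos φ1 ^ 2 = x1) (hp : 0 < p0) (hpx : x1 ≤ p0)
    (hp1 : p0 - x1 ≤ 1) (hA : x1 = (1 - A0) * p0) (hj : ‖j‖ ≤ jl) (hjl : jl ≤ 3 / 1000)
    (hP : ω * j + (1 - 2 * j) * x1 = (1 - 2 * j) * p0 * ρ) (hρ : ‖ρ - 1‖ ≤ μρ)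
    (hρ1 : μρ ≤ 77 / 200) (hρ2 : Sa ρ (3 / 10)) (hρ3 : x1 = 0 ∨ μρ ≤ 27 / 100)
    (hω : Sa ω μω) (hω0 : 0 ≤ μω) (hω1 : μω ≤ 3 / 20)
    (hv : 0 < v) (hm : 2 ≤ v ^ 2 * (‖ω * (1 - 2 * j) * ρ ^ 2‖ * p0 ^ 2))
    (hl0 : 1 ≤ ωl) (hl : ωl ≤ ‖ω‖) (hκ : μω + μρ + 21 / 10 * jl ≤ κ0)
    (hb : v ^ 2 * (16 / 5 + 5 / 2 * (1 - A0) ^ 3) / 16 + (13 / (16 * ωl) + 1 / ωl ^ 2) < γ * bb)
    (hν0 : 0 < ν) (hν : (13 / (16 * ωl) + 1 / ωl ^ 2) ^ 2 * (π * √(7 / 5 * ωl)) ≤ ν ^ 2) :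
    Wk φ1 ω j κ0 γ ((√(31 / 2500 * (v ^ 3 * (33 / 2 + 23 * (1 - A0) ^ 3))) + ν) ^ 2)
      (11 / 500 * (v * (1 + √(137 / 100 * (1 - A0))))) (fun _ => bb) (fun _ => 0) := by
  have pt := fun s hs => err_pt (s := s) h0 h1 hx hp hpx hp1 hA hj hjl hP hρ hρ1 hρ2 hρ3 hω hω0
    hω1 hv hm hs
  have tt := err_tt h0 h1 hx hp hpx hp1 hA hj hjl hP hρ hρ1 hρ2 hρ3 hω hω0 hω1 hv hm
  have hne : ω ≠ 0 := norm_pos_iff.1 (by linarith)
  have hφ : 0 < φ1 := by linarith [pi_pos]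
  obtain ⟨y1, y2⟩ := werr_y hl0 hl
  refine ⟨hne, fun s hs => (pt s hs).1, fun s hs => (pt s hs).2.1, fun s hs =>
    (pt s hs).2.2.1.trans (mul_le_mul_of_nonneg_right hκ (norm_nonneg _)), fun s hs => ?_, ?_,
    tt.1, tt.2⟩
  · obtain ⟨a1, a2, -, -, x, y, -, -, a3, a4, rfl, -⟩ := pt s hs
    refine mul_neg_of_pos_of_neg (sqrt_pos.2 (norm_pos_iff.2 ?_)) (by linarith)
    exact div_ne_zero (mul_ne_zero (mul_ne_zero (mul_ne_zero (by norm_num)
      (pow_ne_zero 2 (Complex.ofReal_ne_zero.2 hφ.ne'))) hne) a1) a2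
  · have hA0 : 0 ≤ 1 - A0 := nonneg_of_mul_nonneg_left (by rw [← hA, ← hx]; positivity) hp
    obtain ⟨K, hK⟩ : ∃ K, K = v ^ 3 * (33 / 2 + 23 * (1 - A0) ^ 3) := ⟨_, rfl⟩
    obtain ⟨L, hL⟩ : ∃ L, L = 2 * φ1 / √(p0 * ‖ρ‖) := ⟨_, rfl⟩
    have pK : 0 < K := by rw [hK]; positivity
    rw [← hK, ← hL] at pt
    rw [← hK]
    have ea : √(31 / 2500 * K) ^ 2 = 31 / 2500 * K := sq_sqrt (by positivity)
    have pa : 0 < √(31 / 2500 * K) := sqrt_pos.2 (by positivity)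
    generalize √(31 / 2500 * K) = a at ea pa ⊢
    have hc : Continuous fun s : ℝ => L / (1 + (L * (1 - s)) ^ 2) :=
      continuous_const.div (by fun_prop) fun s => by positivity
    have hi := intervalIntegral.integral_mono_on (μ := MeasureTheory.volume) zero_le_one
      ((wk_cont hne (fun s hs => (pt s hs).1) fun s hs => (pt s hs).2.1).intervalIntegrable_of_Icc
        zero_le_one)
      (g := fun s => (1 + ν / a) * (788 / 100000 * K) * (L / (1 + (L * (1 - s)) ^ 2)) +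
        (1 + a / ν) * ν ^ 2)
      (((continuous_const.mul hc).add continuous_const).intervalIntegrable _ _) fun s hs => by
        obtain ⟨-, -, -, a2, x, y, x0, y0, a3, -, a5, a6⟩ := pt s hs
        have b1 : y ^ 2 * √‖G2 φ1 ω j s‖ ≤ ν ^ 2 := by
          refine (mul_le_mul_of_nonneg_left a2 (sq_nonneg y)).trans ?_
          rw [a5]
          exact y2.trans hν
        have b2 : (x + y) ^ 2 ≤ (1 + ν / a) * x ^ 2 + (1 + a / ν) * y ^ 2 := by
          have : (1 + ν / a) * x ^ 2 + (1 + a / ν) * y ^ 2 - (x + y) ^ 2 =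
              (ν * x - a * y) ^ 2 / (a * ν) := by
            field_simp
            ring
          have b3 : 0 ≤ (ν * x - a * y) ^ 2 / (a * ν) := by positivity
          linarith
        calc _ ≤ ((1 + ν / a) * x ^ 2 + (1 + a / ν) * y ^ 2) * √‖G2 φ1 ω j s‖ :=
              mul_le_mul_of_nonneg_right ((pow_le_pow_left₀ (norm_nonneg _) a3 2).trans b2)
                (sqrt_nonneg _)
          _ = (1 + ν / a) * (x ^ 2 * √‖G2 φ1 ω j s‖) + (1 + a / ν) * (y ^ 2 * √‖G2 φ1 ω j s‖) := by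
              ring
          _ ≤ (1 + ν / a) * (788 / 100000 * K * (L / (1 + (L * (1 - s)) ^ 2))) +
              (1 + a / ν) * ν ^ 2 := by gcongr
          _ = _ := by ring
    refine hi.trans ?_
    rw [intervalIntegral.integral_add ((hc.const_mul _).intervalIntegrable _ _)
      intervalIntegrable_const, intervalIntegral.integral_const_mul,
      intervalIntegral.integral_const, sub_zero, one_smul]
    have b4 : 788 / 100000 * K * (π / 2) ≤ a ^ 2 := by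
      rw [ea]
      nlinarith [pi_lt_d4]
    calc _ ≤ (1 + ν / a) * (788 / 100000 * K) * (π / 2) + (1 + a / ν) * ν ^ 2 := by
          gcongr
          exact werr_int L
      _ = (1 + ν / a) * (788 / 100000 * K * (π / 2)) + (1 + a / ν) * ν ^ 2 := by ring
      _ ≤ (1 + ν / a) * a ^ 2 + (1 + a / ν) * ν ^ 2 := by gcongr
      _ = _ := by
          field_simp
          ring

end Pool.Agent.HillD
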