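import Pool.Agent.P.MP_ae2765_an.WSa0

/-! The angle predicate. -/

namespace Pool.Agent.HillD
open Real Set Filter Topology Asymptotics

variable {z w : ℂ} {σ σ' : ℝ}

theorem wsa_sq (z : ℂ) : Complex.sqrt z ^ 2 = z := Complex.cpow_ofNat_inv_pow z 2

theorem wsa_norm (z : ℂ) : ‖Complex.sqrt z‖ = √‖z‖ := by
  have h : ‖z‖ = ‖Complex.sqrt z‖ ^ 2 := by rw [← norm_pow, wsa_sq]
  rw [h, sqrt_sq (norm_nonneg _)]

theorem wsa_re (z : ℂ) : (Complex.sqrt z).re = √((‖z‖ + z.re) / 2) := Complex.cpow_inv_two_re z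

/-- the principal root of `i G` when `G` stays away from the positive imaginary axis -/
theorem sqrt_I_mul {G : ℂ} {κ0 c : ℝ} (hG : G ≠ 0) (hκ : κ0 < 1) (h : G.im ≤ κ0 * ‖G‖)
    (hc : 0 ≤ c) (hc2 : 2 * c ^ 2 ≤ 1 - κ0) :
    Complex.I * G ∈ Complex.slitPlane ∧ ‖Complex.sqrt (Complex.I * G)‖ = √‖G‖ ∧
      0 < (Complex.sqrt (Complex.I * G)).re ∧
      c * ‖Complex.sqrt (Complex.I * G)‖ ≤ (Complex.sqrt (Complex.I * G)).re := by
  have hn : 0 < ‖G‖ := norm_pos_iff.2 hG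
  have e1 : ‖Complex.I * G‖ = ‖G‖ := by rw [norm_mul, Complex.norm_I, one_mul]
  have e2 : (Complex.I * G).re = -G.im := by simp
  have e3 : (Complex.I * G).im = G.re := by simp
  have hlt : G.im < ‖G‖ := by nlinarith
  refine ⟨?_, by rw [wsa_norm, e1], ?_, ?_⟩
  · rw [Complex.mem_slitPlane_iff, e2, e3]
    by_cases hr : G.re = 0
    · left
      have e4 : ‖G‖ = |G.im| := by
        rw [Complex.norm_eq_sqrt_sq_add_sq, hr]
        simp [sqrt_sq_eq_abs]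
      rcases le_or_gt 0 G.im with h0 | h0
      · rw [abs_of_nonneg h0] at e4; linarith
      · linarith
    · exact Or.inr hr
  · rw [wsa_re, e1, e2]
    exact sqrt_pos.2 (by linarith)
  · rw [wsa_re, wsa_norm, e1, e2]
    have e5 : c * √‖G‖ = √(c ^ 2 * ‖G‖) := by
      rw [sqrt_mul (sq_nonneg c), sqrt_sq hc]
    rw [e5]
    apply sqrt_le_sqrt
    nlinarith

theorem norm_csqrt (z : ℂ) : ‖Complex.sqrt z‖ = √‖z‖ := wsa_norm z

theorem csqrt_sq (z : ℂ) : Complex.sqrt z ^ 2 = z := wsa_sq z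

/-- the three term form of the error potential -/
theorem psi_eq {ω j X : ℂ} (hω : ω ≠ 0) (hP : PP ω j X ≠ 0) :
    psi ω j X = (1 - ω * j / PP ω j X) ^ 2 * (1 + 5 * (ω * j / PP ω j X)) / (8 * ω) -
      ω * j / PP ω j X * (1 - ω * j / PP ω j X) * (1 - 5 * (ω * j / PP ω j X)) / (4 * ω ^ 2) +
      (1 - 2 * j) * (3 - 5 * (ω * j / PP ω j X)) / (8 * ω * PP ω j X ^ 2) := by
  unfold psi QQ
  have e : PP ω j X = ω * j + (1 - 2 * j) * X := rfl
  generalize PP ω j X = P at hP e ⊢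
  field_simp
  rw [e]
  ring

theorem wsa_Pr {ω j : ℝ} (hω : 0 < ω) (hj : 0 < j) (hj2 : j < 1 / 2) (φ : ℝ) : 0 < Pr ω j φ := by
  unfold Pr
  have : 0 < 1 - 2 * j := by linarith
  positivity

theorem wsa_Qr {j : ℝ} (hj2 : j < 1 / 2) (φ : ℝ) : 0 < Qr j φ := by
  unfold Qr
  have : 0 < 1 - 2 * j := by linarith
  positivity

/-- real values on the real axis -/
theorem real_axis {ω j φ : ℝ} (hω : 0 < ω) (hj : 0 < j) (hj2 : j < 1 / 2) :
    0 < Pr ω j φ ∧ 0 < Qr j φ ∧ 0 < qr ω j φ ∧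
    PP ω j (Complex.cos φ ^ 2) = Pr ω j φ ∧ QQ j (Complex.cos φ ^ 2) = Qr j φ ∧
    qh ω j φ = qr ω j φ ∧ eh ω j φ = er ω j φ := by
  have hP := wsa_Pr hω hj hj2 φ
  have hQ := wsa_Qr hj2 φ
  have h0 : 0 < 2 * ω * Pr ω j φ / Qr j φ := by positivity
  have eP : PP ω j (Complex.cos φ ^ 2) = Pr ω j φ := by
    unfold PP Pr; push_cast; ring
  have eQ : QQ j (Complex.cos φ ^ 2) = Qr j φ := by
    unfold QQ Qr; push_cast; ring
  refine ⟨hP, hQ, sqrt_pos.2 h0, eP, eQ, ?_, ?_⟩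
  · have e : q2 ω j φ = ((2 * ω * Pr ω j φ / Qr j φ : ℝ) : ℂ) := by
      unfold q2; rw [eP, eQ]; push_cast; ring
    unfold qh qr
    rw [e, Complex.sqrt_of_nonneg (Complex.zero_le_real.2 h0.le), Complex.ofReal_re]
  · unfold eh er
    rw [eP]; push_cast; ring

theorem jj_bd {δ : ℝ} (hδ : 0 < δ) : 0 < jj δ ∧ jj δ < 1 / 2 := by
  unfold jj
  refine ⟨by positivity, ?_⟩
  exact one_div_lt_one_div_of_lt (by norm_num) (by nlinarith)

theorem qr_cont {ω j : ℝ} (hω : 0 < ω) (hj : 0 < j) (hj2 : j < 1 / 2) :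
    Continuous (qr ω j) ∧ Continuous (yv ω j) ∧ Continuous (bv j) ∧
      Continuous fun φ => ω * j / Pr ω j φ := by
  have cP : Continuous (Pr ω j) := by unfold Pr; fun_prop
  have cQ : Continuous (Qr j) := by unfold Qr; fun_prop
  have hP : ∀ φ, Pr ω j φ ≠ 0 := fun φ => (wsa_Pr hω hj hj2 φ).ne'
  have hQ : ∀ φ, Qr j φ ≠ 0 := fun φ => (wsa_Qr hj2 φ).ne'
  refine ⟨?_, ?_, ?_, continuous_const.div cP hP⟩
  · exact ((continuous_const.mul cP).div cQ hQ).sqrt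
  · exact Continuous.div (by fun_prop) cP hP
  · exact Continuous.div (by fun_prop) cQ hQ

/-- link with the coefficients of the real system -/
theorem cA_cB {δ ω : ℝ} (hδ : 0 < δ) (hω : 0 < ω) (φ : ℝ) :
    0 < cA (mm δ) ω φ ∧ cA (mm δ) ω φ * cB (mm δ) ω φ = qr ω (jj δ) φ ^ 2 ∧
      Dm (mm δ) φ = Qr (jj δ) φ / (2 * (1 - jj δ)) ∧
      ω * (1 - 2 * mm δ) + 2 * mm δ * cos φ ^ 2 = Pr ω (jj δ) φ / (1 - jj δ) := by
  obtain ⟨hj, hj2⟩ := jj_bd hδ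
  have hP := wsa_Pr hω hj hj2 φ
  have hQ := wsa_Qr hj2 φ
  have hp := pm_pos (mm_lt_one δ) φ
  have h1 : 0 < 1 - jj δ := by linarith
  have ej : 1 - jj δ = (1 + δ ^ 2) / (δ ^ 2 + 2) := by unfold jj; field_simp; ring
  have eD : Dm (mm δ) φ = Qr (jj δ) φ / (2 * (1 - jj δ)) := by
    rw [ej]; unfold Dm Qr mm jj
    rw [sin_sq]; field_simp; ring
  have eP : ω * (1 - 2 * mm δ) + 2 * mm δ * cos φ ^ 2 = Pr ω (jj δ) φ / (1 - jj δ) := by
    rw [ej]; unfold Pr mm jj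
    field_simp; ring
  refine ⟨div_pos hω hp, ?_, eD, eP⟩
  unfold cA cB qr
  rw [sq_sqrt (by positivity), eP, div_mul_div_comm, ← sq, pm_sq (mm_lt_one δ), eD]
  field_simp

end Pool.Agent.HillD
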