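import Pool.Agent.P.MP_ae2765_an.WJet
import Pool.Agent.P.MP_ae2765_an.WSa

/-! The three-jet of the main term along the tangent line. -/

namespace Pool.Agent.HillD
open Real Set Filter Topology Asymptotics

lemma wmain_sqrt {x T : ℝ} (hT : 0 < T) : |√x - T| * T ≤ |T ^ 2 - x| := by
  rcases le_total 0 x with hx | hx
  · have h1 : T ^ 2 - x = -((√x - T) * (√x + T)) := by
      have := Real.sq_sqrt hx
      nlinarith
    rw [h1, abs_neg, abs_mul, abs_of_nonneg (by positivity : 0 ≤ √x + T)]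
    exact mul_le_mul_of_nonneg_left (by linarith [Real.sqrt_nonneg x]) (abs_nonneg _)
  · rw [Real.sqrt_eq_zero_of_nonpos hx, zero_sub, abs_neg, abs_of_pos hT]
    exact le_trans (by nlinarith) (le_abs_self _)

noncomputable def wmainW (τ b c1 c2 c3 : ℝ) : ℝ :=
  ((c2 ^ 2 + 2 * c1 * c3) + 2 * b * (2 * c3 + 2 * c1 * c2) + b * (c1 ^ 2 + 2 * c2)) +
  (2 * c2 * c3 + 2 * b * (c2 ^ 2 + 2 * c1 * c3) + b * (2 * c3 + 2 * c1 * c2)) * τ +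
  (c3 ^ 2 + 2 * b * (2 * c2 * c3) + b * (c2 ^ 2 + 2 * c1 * c3)) * τ ^ 2 +
  (2 * b * c3 ^ 2 + b * (2 * c2 * c3)) * τ ^ 3 + b * c3 ^ 2 * τ ^ 4

lemma wmain_unif (s : ℝ) : ∃ C ε : ℝ, 0 < ε ∧ ∀ τ y b : ℝ, |τ| ≤ ε → y ∈ Icc (0 : ℝ) 1 →
    b ∈ Icc (0 : ℝ) 1 →
    |√((1 + s * τ) * (1 + (s + (2 - s) * y) * τ + y * τ ^ 2) / (1 + b * (2 * τ + τ ^ 2))) -
      (1 + el1 s y b * τ + (el2 s y b + el1 s y b ^ 2) / 2 * τ ^ 2 +
        (el3 s y b + 3 * el1 s y b * el2 s y b + el1 s y b ^ 3) / 6 * τ ^ 3)| ≤ C * τ ^ 4 := by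
  have hK : IsCompact (Icc (-1 : ℝ) 1 ×ˢ (Icc (0 : ℝ) 1 ×ˢ Icc (0 : ℝ) 1)) :=
    isCompact_Icc.prod (isCompact_Icc.prod isCompact_Icc)
  obtain ⟨A, hA⟩ := hK.exists_bound_of_continuousOn (f := fun p : ℝ × ℝ × ℝ =>
    wmainW p.1 p.2.2 (el1 s p.2.1 p.2.2) ((el2 s p.2.1 p.2.2 + el1 s p.2.1 p.2.2 ^ 2) / 2)
      ((el3 s p.2.1 p.2.2 + 3 * el1 s p.2.1 p.2.2 * el2 s p.2.1 p.2.2 +
        el1 s p.2.1 p.2.2 ^ 3) / 6))
    (by unfold wmainW el1 el2 el3; fun_prop)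
  obtain ⟨B, hB⟩ := hK.exists_bound_of_continuousOn (f := fun p : ℝ × ℝ × ℝ =>
    el1 s p.2.1 p.2.2 + (el2 s p.2.1 p.2.2 + el1 s p.2.1 p.2.2 ^ 2) / 2 * p.1 +
      (el3 s p.2.1 p.2.2 + 3 * el1 s p.2.1 p.2.2 * el2 s p.2.1 p.2.2 +
        el1 s p.2.1 p.2.2 ^ 3) / 6 * p.1 ^ 2)
    (by unfold el1 el2 el3; fun_prop)
  refine ⟨4 * A, min (1 / 6) (1 / (2 * (|B| + 1))), by positivity, fun τ y b hτ hy hb => ?_⟩
  have h1 : |τ| ≤ 1 / 6 := hτ.trans (min_le_left _ _)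
  have h2 : |τ| ≤ 1 / (2 * (|B| + 1)) := hτ.trans (min_le_right _ _)
  have h3 := abs_le.1 h1
  have hm : (τ, y, b) ∈ Icc (-1 : ℝ) 1 ×ˢ (Icc (0 : ℝ) 1 ×ˢ Icc (0 : ℝ) 1) :=
    ⟨⟨by linarith [h3.1], by linarith [h3.2]⟩, hy, hb⟩
  have hA' := hA _ hm
  have hB' := hB _ hm
  simp only [Real.norm_eq_abs] at hA' hB'
  have hid : (1 + el1 s y b * τ + (el2 s y b + el1 s y b ^ 2) / 2 * τ ^ 2 +
        (el3 s y b + 3 * el1 s y b * el2 s y b + el1 s y b ^ 3) / 6 * τ ^ 3) ^ 2 *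
        (1 + b * (2 * τ + τ ^ 2)) - (1 + s * τ) * (1 + (s + (2 - s) * y) * τ + y * τ ^ 2) =
      τ ^ 4 * wmainW τ b (el1 s y b) ((el2 s y b + el1 s y b ^ 2) / 2)
        ((el3 s y b + 3 * el1 s y b * el2 s y b + el1 s y b ^ 3) / 6) := by
    unfold wmainW el1 el2 el3; ring
  generalize wmainW τ b (el1 s y b) ((el2 s y b + el1 s y b ^ 2) / 2)
    ((el3 s y b + 3 * el1 s y b * el2 s y b + el1 s y b ^ 3) / 6) = W at hA' hid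
  generalize (el3 s y b + 3 * el1 s y b * el2 s y b + el1 s y b ^ 3) / 6 = c3 at hB' hid ⊢
  generalize (el2 s y b + el1 s y b ^ 2) / 2 = c2 at hB' hid ⊢
  generalize el1 s y b = c1 at hB' hid ⊢
  generalize (1 + s * τ) * (1 + (s + (2 - s) * y) * τ + y * τ ^ 2) = N at hid ⊢
  have hD : 1 / 2 ≤ 1 + b * (2 * τ + τ ^ 2) := by
    have : -(1 / 2) ≤ 2 * τ + τ ^ 2 := by nlinarith [sq_nonneg τ]
    nlinarith [hb.1, hb.2]
  have hT : 1 / 2 ≤ 1 + c1 * τ + c2 * τ ^ 2 + c3 * τ ^ 3 := by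
    have h4 : |τ * (c1 + c2 * τ + c3 * τ ^ 2)| ≤ 1 / 2 := by
      rw [abs_mul]
      calc _ ≤ 1 / (2 * (|B| + 1)) * (|B| + 1) :=
            mul_le_mul h2 (by linarith [le_abs_self B]) (abs_nonneg _) (by positivity)
        _ = _ := by field_simp
    have := (abs_le.1 h4).1
    nlinarith
  generalize 1 + b * (2 * τ + τ ^ 2) = D at hid hD ⊢
  generalize 1 + c1 * τ + c2 * τ ^ 2 + c3 * τ ^ 3 = T at hid hT ⊢
  have h5 := wmain_sqrt (x := N / D) (by linarith : 0 < T)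
  have h6 : |T ^ 2 - N / D| * D = τ ^ 4 * |W| := by
    have hD0 : 0 < D := by linarith
    rw [← abs_of_pos hD0, ← abs_mul, abs_of_pos hD0, sub_mul, div_mul_cancel₀ _ hD0.ne', hid,
      abs_mul, abs_of_nonneg (by positivity : 0 ≤ τ ^ 4)]
  have h7 : τ ^ 4 * |W| ≤ τ ^ 4 * A := mul_le_mul_of_nonneg_left hA' (by positivity)
  have h8 := mul_le_mul_of_nonneg_left hD (abs_nonneg (T ^ 2 - N / D))
  have h9 := mul_le_mul_of_nonneg_left hT (abs_nonneg (√(N / D) - T))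
  linarith

lemma wmain_qr {δ0 ω0 s τ φ : ℝ} (hδ : 0 < δ0) (hω : 0 < ω0) (hτ : 0 < 1 + τ) :
    qr (ω0 * (1 + s * τ)) (jj (δ0 * (1 + τ))) φ = qr ω0 (jj δ0) φ *
      √((1 + s * τ) * (1 + (s + (2 - s) * yv ω0 (jj δ0) φ) * τ + yv ω0 (jj δ0) φ * τ ^ 2) /
        (1 + bv (jj δ0) φ * (2 * τ + τ ^ 2))) := by
  obtain ⟨j1, j2⟩ := jj_bd hδ
  obtain ⟨p1, p2, -⟩ := real_axis (φ := φ) hω j1 j2
  unfold qr
  rw [← Real.sqrt_mul (by positivity)]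
  refine congrArg _ ?_
  have hX : 0 ≤ cos φ ^ 2 := sq_nonneg _
  unfold yv bv Pr Qr jj
  generalize cos φ ^ 2 = X at hX
  have e1 : ∀ δ : ℝ, 1 - 2 * (1 / (δ ^ 2 + 2)) = δ ^ 2 / (δ ^ 2 + 2) := fun δ => by
    field_simp; ring
  have e2 : ∀ ω δ : ℝ, ω * (1 / (δ ^ 2 + 2)) + δ ^ 2 / (δ ^ 2 + 2) * X =
      (ω + δ ^ 2 * X) / (δ ^ 2 + 2) := fun ω δ => by field_simp
  have e3 : ∀ δ : ℝ, 1 + δ ^ 2 / (δ ^ 2 + 2) * X = (δ ^ 2 + 2 + δ ^ 2 * X) / (δ ^ 2 + 2) :=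
    fun δ => by field_simp
  simp only [e1, e2, e3]
  have e4 : 1 + δ0 ^ 2 / (δ0 ^ 2 + 2) * (1 + X) / ((δ0 ^ 2 + 2 + δ0 ^ 2 * X) / (δ0 ^ 2 + 2)) *
      (2 * τ + τ ^ 2) = ((δ0 * (1 + τ)) ^ 2 + 2 + (δ0 * (1 + τ)) ^ 2 * X) /
        (δ0 ^ 2 + 2 + δ0 ^ 2 * X) := by
    field_simp; ring
  rw [e4]
  field_simp
  ring

lemma wmain_mem {δ0 ω0 φ : ℝ} (hδ : 0 < δ0) (hω : 0 < ω0) :
    yv ω0 (jj δ0) φ ∈ Icc (0 : ℝ) 1 ∧ bv (jj δ0) φ ∈ Icc (0 : ℝ) 1 := by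
  obtain ⟨j1, j2⟩ := jj_bd hδ
  obtain ⟨p1, p2, -⟩ := real_axis (φ := φ) hω j1 j2
  have hX : 0 ≤ cos φ ^ 2 := sq_nonneg _
  have hk : 0 ≤ 1 - 2 * jj δ0 := by linarith
  refine ⟨⟨div_nonneg (mul_nonneg hk hX) p1.le, (div_le_one p1).2 ?_⟩,
    ⟨div_nonneg (mul_nonneg hk (by linarith)) p2.le, (div_le_one p2).2 ?_⟩⟩
  · unfold Pr; nlinarith [mul_pos hω j1]
  · unfold Qr; nlinarith

lemma wmain_int {u v0 v1 v2 v3 : ℝ → ℝ} (hu : Continuous u) (h0 : Continuous v0)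
    (h1 : Continuous v1) (h2 : Continuous v2) (h3 : Continuous v3) (a b τ : ℝ) :
    (∫ x in a..b, u x) - ((∫ x in a..b, v0 x) + (∫ x in a..b, v1 x) * τ +
      (∫ x in a..b, v2 x) * τ ^ 2 + (∫ x in a..b, v3 x) * τ ^ 3) =
      ∫ x in a..b, (u x - (v0 x + v1 x * τ + v2 x * τ ^ 2 + v3 x * τ ^ 3)) := by
  rw [intervalIntegral.integral_sub, intervalIntegral.integral_add, intervalIntegral.integral_add,
    intervalIntegral.integral_add, intervalIntegral.integral_mul_const,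
    intervalIntegral.integral_mul_const, intervalIntegral.integral_mul_const] <;>
  exact Continuous.intervalIntegrable (by fun_prop) _ _

theorem main_jet3 {δ0 ω0 φ1 : ℝ} (hδ : 0 < δ0) (hω : 0 < ω0) (s : ℝ) :
    J3 (fun τ => Mn φ1 (ω0 * (1 + s * τ)) (jj (δ0 * (1 + τ)))) (Mn φ1 ω0 (jj δ0))
      (F1 φ1 ω0 (jj δ0) s) (F2 φ1 ω0 (jj δ0) s) (F3 φ1 ω0 (jj δ0) s) := by
  obtain ⟨C, ε, hε, hC⟩ := wmain_unif s
  obtain ⟨j1, j2⟩ := jj_bd hδ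
  obtain ⟨c1, c2, c3, -⟩ := qr_cont hω j1 j2
  obtain ⟨M, hM⟩ := (isCompact_uIcc (a := (0 : ℝ)) (b := φ1)).exists_bound_of_continuousOn
    c1.continuousOn
  refine IsBigO.of_bound (|M| * C * |φ1 - 0|) ?_
  have ev1 : ∀ᶠ τ in 𝓝 (0 : ℝ), |τ| ≤ ε := by
    have : ContinuousAt (fun τ : ℝ => |τ|) 0 := continuous_abs.continuousAt
    exact this.eventually_le_const (by simpa using hε)
  have ev2 : ∀ᶠ τ in 𝓝 (0 : ℝ), 0 < 1 + τ := by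
    have : ContinuousAt (fun τ : ℝ => 1 + τ) 0 := by fun_prop
    exact this.eventually_const_lt (by simp)
  have ev3 : ∀ᶠ τ in 𝓝 (0 : ℝ), 0 < 1 + s * τ := by
    have : ContinuousAt (fun τ : ℝ => 1 + s * τ) 0 := by fun_prop
    exact this.eventually_const_lt (by simp)
  filter_upwards [ev1, ev2, ev3] with τ h1 h2 h3
  obtain ⟨k1, k2⟩ := jj_bd (mul_pos hδ h2)
  obtain ⟨d1, -⟩ := qr_cont (mul_pos hω h3) k1 k2
  have g1 : Continuous fun φ => qr ω0 (jj δ0) φ * el1 s (yv ω0 (jj δ0) φ) (bv (jj δ0) φ) := by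
    unfold el1; fun_prop
  have g2 : Continuous fun φ => qr ω0 (jj δ0) φ * ((el2 s (yv ω0 (jj δ0) φ) (bv (jj δ0) φ) +
      el1 s (yv ω0 (jj δ0) φ) (bv (jj δ0) φ) ^ 2) / 2) := by
    unfold el1 el2; fun_prop
  have g3 : Continuous fun φ => qr ω0 (jj δ0) φ * ((el3 s (yv ω0 (jj δ0) φ) (bv (jj δ0) φ) +
      3 * el1 s (yv ω0 (jj δ0) φ) (bv (jj δ0) φ) * el2 s (yv ω0 (jj δ0) φ) (bv (jj δ0) φ) +
      el1 s (yv ω0 (jj δ0) φ) (bv (jj δ0) φ) ^ 3) / 6) := by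
    unfold el1 el2 el3; fun_prop
  simp only [RCLike.ofReal_real_eq_id, id_eq]
  unfold Mn F1 F2 F3
  rw [wmain_int d1 c1 g1 g2 g3]
  refine (intervalIntegral.norm_integral_le_of_norm_le_const (C := |M| * (C * τ ^ 4))
    fun φ hφ => ?_).trans (le_of_eq ?_)
  · obtain ⟨m1, m2⟩ := wmain_mem (φ := φ) hδ hω
    have h4 := hC τ _ _ h1 m1 m2
    have h5 := (hM φ (uIoc_subset_uIcc hφ)).trans (le_abs_self M)
    rw [wmain_qr hδ hω h2]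
    refine le_trans (le_of_eq ?_) (mul_le_mul h5 h4 (abs_nonneg _) (abs_nonneg _))
    rw [Real.norm_eq_abs, Real.norm_eq_abs, ← abs_mul]
    refine congrArg _ ?_
    ring
  · rw [Real.norm_eq_abs, abs_of_nonneg (by positivity : 0 ≤ τ ^ 4)]
    ring

end Pool.Agent.HillD
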