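import Pool.Agent.P.MP_ae2765_an.WRp0
import Pool.Agent.P.MP_ae2765_an.WSa

/-! Continuity of the solutions in the parameters, and phase functions. -/

namespace Pool.Agent.HillD
open Real Set Filter Topology Asymptotics

theorem tr90_true (δ ω : ℝ) : Tr true (π / 2) δ ω 0 1 :=
  ⟨1, one_ne_zero, fun x y _ => by simp⟩

theorem tr90_false (δ ω : ℝ) : Tr false (π / 2) δ ω 1 0 :=
  ⟨-1, by norm_num, fun x y _ => by simp⟩

theorem wrp_parts {a b : ℝ} {U : ℂ} (h : (a : ℂ) + Complex.I * (b : ℂ) = U) :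
    U.re = a ∧ U.im = b := by
  rw [← h]
  constructor <;> simp

theorem wrp_wron (δ ω t : ℝ) : sx (mm δ) ω (π / 2) t * sy (mm δ) ω 0 t -
    sy (mm δ) ω (π / 2) t * sx (mm δ) ω 0 t = 1 := by
  have hm := mm_lt_one δ
  rw [wronski (s_lin hm ω (π / 2)) (s_lin hm ω 0) t, sx_zero hm, sy_zero hm, sx_zero hm,
    sy_zero hm]
  simp

/-- the coefficient of the even solution -/
noncomputable def wrpA (φ1 δ ω : ℝ) (k z : ℂ) : ℝ :=
  (Complex.exp (Complex.I * (ph0 φ1 ω (jj δ) k : ℝ))).re * sy (mm δ) ω 0 φ1 -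
    (etaC φ1 δ ω z * Complex.exp (Complex.I * (ph0 φ1 ω (jj δ) k : ℝ))).re * sx (mm δ) ω 0 φ1

/-- the coefficient of the odd solution -/
noncomputable def wrpB (φ1 δ ω : ℝ) (k z : ℂ) : ℝ :=
  (etaC φ1 δ ω z * Complex.exp (Complex.I * (ph0 φ1 ω (jj δ) k : ℝ))).im *
      sx (mm δ) ω (π / 2) φ1 -
    (Complex.exp (Complex.I * (ph0 φ1 ω (jj δ) k : ℝ))).im * sy (mm δ) ω (π / 2) φ1

theorem wrp_br {φ1 δ ω : ℝ} {k z : ℂ} (h : Br φ1 δ ω k z) :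
    (Complex.exp (Complex.I * (ph0 φ1 ω (jj δ) k : ℝ))).re =
      wrpA φ1 δ ω k z * sx (mm δ) ω (π / 2) φ1 ∧
    (Complex.exp (Complex.I * (ph0 φ1 ω (jj δ) k : ℝ))).im =
      wrpB φ1 δ ω k z * sx (mm δ) ω 0 φ1 ∧
    (etaC φ1 δ ω z * Complex.exp (Complex.I * (ph0 φ1 ω (jj δ) k : ℝ))).re =
      wrpA φ1 δ ω k z * sy (mm δ) ω (π / 2) φ1 ∧
    (etaC φ1 δ ω z * Complex.exp (Complex.I * (ph0 φ1 ω (jj δ) k : ℝ))).im =
      wrpB φ1 δ ω k z * sy (mm δ) ω 0 φ1 := by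
  obtain ⟨α, β, h1, h2⟩ := h
  obtain ⟨a1, a2⟩ := wrp_parts h1
  obtain ⟨a3, a4⟩ := wrp_parts h2
  have w := wrp_wron δ ω φ1
  have e1 : wrpA φ1 δ ω k z = α := by
    rw [wrpA, a1, a3]
    linear_combination α * w
  have e2 : wrpB φ1 δ ω k z = β := by
    rw [wrpB, a2, a4]
    linear_combination β * w
  rw [e1, e2]
  exact ⟨a1, a2, a3, a4⟩

theorem wrp_pos {φ1 δ ω : ℝ} {k z : ℂ} (hδ : 0 < δ) (hω : 0 < ω) (hz : 0 < (1 + z).re)
    (h : Br φ1 δ ω k z) : 0 < wrpA φ1 δ ω k z * wrpB φ1 δ ω k z := by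
  obtain ⟨a1, a2, a3, a4⟩ := wrp_br h
  have w := wrp_wron δ ω φ1
  have hU : (Complex.exp (Complex.I * (ph0 φ1 ω (jj δ) k : ℝ))).re ^ 2 +
      (Complex.exp (Complex.I * (ph0 φ1 ω (jj δ) k : ℝ))).im ^ 2 = 1 := by
    rw [mul_comm, Complex.exp_ofReal_mul_I_re, Complex.exp_ofReal_mul_I_im, cos_sq_add_sin_sq]
  have h1 : (etaC φ1 δ ω z).im = qr ω (jj δ) φ1 * (1 + z).re / cA (mm δ) ω φ1 := by
    rw [etaC, Complex.div_ofReal_im]
    simp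
  have h2 : wrpA φ1 δ ω k z * wrpB φ1 δ ω k z = (etaC φ1 δ ω z).im := by
    rw [Complex.mul_re] at a3
    rw [Complex.mul_im] at a4
    generalize (Complex.exp (Complex.I * (ph0 φ1 ω (jj δ) k : ℝ))).re = u at *
    generalize (Complex.exp (Complex.I * (ph0 φ1 ω (jj δ) k : ℝ))).im = v at *
    linear_combination (-(wrpA φ1 δ ω k z * wrpB φ1 δ ω k z)) * w - u * a4 + v * a3 +
      (etaC φ1 δ ω z).im * hU - wrpB φ1 δ ω k z * sy (mm δ) ω 0 φ1 * a1 +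
      wrpA φ1 δ ω k z * sy (mm δ) ω (π / 2) φ1 * a2
  rw [h2, h1]
  exact div_pos (mul_pos (real_axis hω (jj_bd hδ).1 (jj_bd hδ).2).2.2.1 hz) (cA_cB hδ hω φ1).1

theorem wrp_rel {typ : Bool} {φ1 δ ω v1 y1 ϕ : ℝ} {k z : ℂ} (h : Br φ1 δ ω k z)
    (hT : Tr typ φ1 δ ω v1 y1) (hϕ : (((y1 : ℂ) - etaC φ1 δ ω z * v1) *
      Complex.exp (Complex.I * ((ph0 φ1 ω (jj δ) k - ϕ : ℝ) : ℂ))).im = 0) :
    wrpA φ1 δ ω k z * pr typ δ ω (π / 2) * sin ϕ = wrpB φ1 δ ω k z * pr typ δ ω 0 * cos ϕ := by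
  obtain ⟨a1, a2, a3, a4⟩ := wrp_br h
  obtain ⟨c, hc, hT⟩ := hT
  have t1 : _ = c * pr typ δ ω (π / 2) := hT _ _ (s_lin (mm_lt_one δ) ω (π / 2))
  have t2 : _ = c * pr typ δ ω 0 := hT _ _ (s_lin (mm_lt_one δ) ω 0)
  have e : ((y1 : ℂ) - etaC φ1 δ ω z * v1) *
      Complex.exp (Complex.I * ((ph0 φ1 ω (jj δ) k - ϕ : ℝ) : ℂ)) =
      (Complex.exp (Complex.I * (ph0 φ1 ω (jj δ) k : ℝ)) * y1 -
        etaC φ1 δ ω z * Complex.exp (Complex.I * (ph0 φ1 ω (jj δ) k : ℝ)) * v1) *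
        Complex.exp (((-ϕ : ℝ) : ℂ) * Complex.I) := by
    rw [show Complex.I * ((ph0 φ1 ω (jj δ) k - ϕ : ℝ) : ℂ) =
      Complex.I * (ph0 φ1 ω (jj δ) k : ℝ) + ((-ϕ : ℝ) : ℂ) * Complex.I by push_cast; ring,
      Complex.exp_add]
    ring
  rw [e, Complex.mul_im, Complex.exp_ofReal_mul_I_re, Complex.exp_ofReal_mul_I_im, cos_neg,
    sin_neg, Complex.sub_re, Complex.sub_im, Complex.re_mul_ofReal, Complex.re_mul_ofReal,
    Complex.im_mul_ofReal, Complex.im_mul_ofReal, a1, a2, a3, a4] at hϕ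
  refine mul_left_cancel₀ hc ?_
  linear_combination -hϕ - wrpA φ1 δ ω k z * sin ϕ * t1 + wrpB φ1 δ ω k z * cos ϕ * t2

theorem wrp_eta {φ1 : ℝ} {δ ω : ℝ → ℝ} {z : ℝ → ℂ} (cδ : ContinuousAt δ 0)
    (cω : ContinuousAt ω 0) (hδ : 0 < δ 0) (hω : 0 < ω 0) (cz : ContinuousAt z 0) :
    ContinuousAt (fun τ => etaC φ1 (δ τ) (ω τ) (z τ)) 0 := by
  obtain ⟨p1, p2, -⟩ := real_axis (φ := φ1) hω (jj_bd hδ).1 (jj_bd hδ).2
  have cj : ContinuousAt (fun τ => jj (δ τ)) 0 :=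
    continuousAt_const.div ((cδ.pow 2).add continuousAt_const) (by positivity)
  have cm : ContinuousAt (fun τ => mm (δ τ)) 0 :=
    (cδ.pow 2).div (continuousAt_const.mul (continuousAt_const.add (cδ.pow 2))) (by positivity)
  have ck : ContinuousAt (fun τ => 1 - 2 * jj (δ τ)) 0 :=
    continuousAt_const.sub (continuousAt_const.mul cj)
  have cP : ContinuousAt (fun τ => Pr (ω τ) (jj (δ τ)) φ1) 0 :=
    (cω.mul cj).add (ck.mul continuousAt_const)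
  have cQ : ContinuousAt (fun τ => Qr (jj (δ τ)) φ1) 0 :=
    continuousAt_const.add (ck.mul continuousAt_const)
  have ce : ContinuousAt (fun τ => er (ω τ) (jj (δ τ)) φ1) 0 :=
    ((ck.mul continuousAt_const).mul continuousAt_const).div (continuousAt_const.mul cP)
      (by positivity)
  have cq : ContinuousAt (fun τ => qr (ω τ) (jj (δ τ)) φ1) 0 :=
    (((continuousAt_const.mul cω).mul cP).div cQ p2.ne').sqrt
  have cp : ContinuousAt (fun τ => pm (mm (δ τ)) φ1) 0 :=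
    (continuousAt_const.sub (cm.mul continuousAt_const)).sqrt
  have ca : ContinuousAt (fun τ => cA (mm (δ τ)) (ω τ) φ1) 0 :=
    cω.div cp (pm_pos (mm_lt_one _) _).ne'
  exact (ce.ofReal.add ((continuousAt_const.mul cq.ofReal).mul (continuousAt_const.add cz))).div
    ca.ofReal (Complex.ofReal_ne_zero.2 (cA_cB hδ hω φ1).1.ne')

theorem rp_of_br {typ : Bool} {φ1 : ℝ} {δ ω v1 y1 ϕ : ℝ → ℝ} {k z : ℝ → ℂ}
    (hφ : φ1 ∈ Icc 0 π) (cδ : ContinuousAt δ 0) (cω : ContinuousAt ω 0) (hδ : 0 < δ 0)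
    (hω : 0 < ω 0) (cz : ContinuousAt z 0) (hz : 0 < (1 + z 0).re)
    (cp : ContinuousAt (fun τ => ph0 φ1 (ω τ) (jj (δ τ)) (k τ)) 0) (cϕ : ContinuousAt ϕ 0)
    (hB : ∀ᶠ τ in 𝓝 (0 : ℝ), Br φ1 (δ τ) (ω τ) (k τ) (z τ))
    (hT : ∀ᶠ τ in 𝓝 (0 : ℝ), Tr typ φ1 (δ τ) (ω τ) (v1 τ) (y1 τ))
    (hϕ : ∀ᶠ τ in 𝓝 (0 : ℝ), (((y1 τ : ℂ) - etaC φ1 (δ τ) (ω τ) (z τ) * v1 τ) *
      Complex.exp (Complex.I * ((ph0 φ1 (ω τ) (jj (δ τ)) (k τ) - ϕ τ : ℝ) : ℂ))).im = 0) :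
    Rp typ δ ω ϕ := by
  have cm : ContinuousAt (fun τ => mm (δ τ)) 0 :=
    (cδ.pow 2).div (continuousAt_const.mul (continuousAt_const.add (cδ.pow 2))) (by positivity)
  have cs : ∀ θ0, ContinuousAt (fun τ => sx (mm (δ τ)) (ω τ) θ0 φ1) 0 ∧
      ContinuousAt (fun τ => sy (mm (δ τ)) (ω τ) θ0 φ1) 0 := fun θ0 =>
    ⟨ContinuousAt.comp (f := fun τ => (mm (δ τ), ω τ))
        (s_cont (mm_lt_one _) θ0 hφ).2.1 (cm.prodMk cω),
      ContinuousAt.comp (f := fun τ => (mm (δ τ), ω τ))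
        (s_cont (mm_lt_one _) θ0 hφ).2.2 (cm.prodMk cω)⟩
  have cU : ContinuousAt
      (fun τ => Complex.exp (Complex.I * (ph0 φ1 (ω τ) (jj (δ τ)) (k τ) : ℝ))) 0 :=
    (continuousAt_const.mul cp.ofReal).cexp
  have cY := (wrp_eta (φ1 := φ1) cδ cω hδ hω cz).mul cU
  refine ⟨cδ, cω, cϕ, fun τ => wrpA φ1 (δ τ) (ω τ) (k τ) (z τ),
    fun τ => wrpB φ1 (δ τ) (ω τ) (k τ) (z τ), ?_, ?_, wrp_pos hδ hω hz hB.self_of_nhds, ?_⟩
  · exact ((Complex.continuous_re.continuousAt.comp cU).mul (cs 0).2).sub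
      ((Complex.continuous_re.continuousAt.comp cY).mul (cs 0).1)
  · exact ((Complex.continuous_im.continuousAt.comp cY).mul (cs (π / 2)).1).sub
      ((Complex.continuous_im.continuousAt.comp cU).mul (cs (π / 2)).2)
  · filter_upwards [hB, hT, hϕ] with τ h1 h2 h3 using wrp_rel h1 h2 h3

end Pool.Agent.HillD
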