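import Pool.Agent.P.MP_ae2765_an.WPack
import Pool.Agent.P.MP_ae2765_an.WRp
import Pool.Agent.P.MP_ae2765_an.WMain

/-! The phase along the tangent line when the path ends at `π / 2`. -/

namespace Pool.Agent.HillD
open Real Set Filter Topology Asymptotics

theorem wline_den {δ0 : ℝ} (hδ : 0 < δ0) {τ : ℂ} (h : ‖τ‖ < 1) :
    (δ0 : ℂ) ^ 2 * (1 + τ) ^ 2 + 2 ≠ 0 := by
  intro h0
  have hre : |τ.re| < 1 := (Complex.abs_re_le_norm τ).trans_lt h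
  have h1 : 0 < 1 + τ.re := by linarith [(abs_lt.1 hre).1]
  have e1 := congrArg Complex.re h0
  have e2 := congrArg Complex.im h0
  simp [pow_two] at e1 e2
  have hd : 0 < δ0 * δ0 := mul_pos hδ hδ
  have him : τ.im = 0 := by
    rcases e2 with e2 | e2
    · exact absurd e2 hδ.ne'
    · have e3 : (2 * (1 + τ.re)) * τ.im = 0 := by linarith
      exact (mul_eq_zero.1 e3).resolve_left (by positivity)
  rw [him] at e1
  nlinarith [mul_pos hd (mul_pos h1 h1)]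

theorem wline_jet {δ0 ω0 s r E C : ℝ} (hδ : 0 < δ0) (hω : 0 < ω0) (hr : 0 < r) {H : ℂ → ℂ}
    (hd : DifferentiableOn ℂ H (Metric.ball 0 r)) (hM : ∀ τ ∈ Metric.ball (0 : ℂ) r, ‖H τ‖ ≤ E)
    {ϕ : ℝ → ℝ}
    (hϕ : ∀ τ : ℝ, ϕ τ = Mn (π / 2) (ω0 * (1 + s * τ)) (jj (δ0 * (1 + τ))) + (H τ).im + C) :
    ∃ c0 e1 e2 e3 : ℝ, |e1| ≤ E / r ∧ |e2| ≤ E / r ^ 2 ∧ |e3| ≤ E / r ^ 3 ∧
      J3 ϕ c0 (F1 (π / 2) ω0 (jj δ0) s + e1) (F2 (π / 2) ω0 (jj δ0) s + e2)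
        (F3 (π / 2) ω0 (jj δ0) s + e3) := by
  obtain ⟨c1, c2, c3, -, h1, h2, h3, hJ⟩ := hol_jet hr hd hM
  have h4 := ((main_jet3 (φ1 := π / 2) hδ hω s).add hJ.im).add (j3_const C)
  refine ⟨Mn (π / 2) ω0 (jj δ0) + (H 0).im + C, c1.im, c2.im, c3.im,
    (Complex.abs_im_le_norm _).trans h1, (Complex.abs_im_le_norm _).trans h2,
    (Complex.abs_im_le_norm _).trans h3, ?_⟩
  simp only [add_zero] at h4
  exact h4.congr (Eventually.of_forall fun τ => (hϕ τ).symm)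

theorem wline_er (ω j : ℝ) : er ω j (π / 2) = 0 := by simp [er]

theorem wline_im {q a x : ℝ} {z : ℂ} (hz : 1 + z ≠ 0) :
    ((((0 : ℝ) : ℂ) - (((0 : ℝ) : ℂ) + Complex.I * q * (1 + z)) / (a : ℂ) * ((1 : ℝ) : ℂ)) *
      Complex.exp (Complex.I *
        ((x - (x + (Complex.log (1 + z)).im + π / 2) : ℝ) : ℂ))).im = 0 := by
  set L := Complex.log (1 + z) with hL
  have h1 : 1 + z = Complex.exp L := (Complex.exp_log hz).symm
  have h2 : Complex.exp L * Complex.exp (Complex.I * ((x - (x + L.im + π / 2) : ℝ) : ℂ)) =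
      (Real.exp L.re : ℂ) * (-Complex.I) := by
    rw [← Complex.exp_add, ← Complex.exp_neg_pi_div_two_mul_I, Complex.ofReal_exp,
      ← Complex.exp_add]
    congr 1
    apply Complex.ext
    · simp
    · simp
      ring
  have h3 : (((0 : ℝ) : ℂ) - (((0 : ℝ) : ℂ) + Complex.I * q * (1 + z)) / (a : ℂ) * ((1 : ℝ) : ℂ)) *
      Complex.exp (Complex.I * ((x - (x + L.im + π / 2) : ℝ) : ℂ)) =
      ((-(q / a * Real.exp L.re) : ℝ) : ℂ) := by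
    have h4 : (((0 : ℝ) : ℂ) - (((0 : ℝ) : ℂ) + Complex.I * q * (1 + z)) / (a : ℂ) *
        ((1 : ℝ) : ℂ)) * Complex.exp (Complex.I * ((x - (x + L.im + π / 2) : ℝ) : ℂ)) =
        -(Complex.I * q / a) * (Complex.exp L *
          Complex.exp (Complex.I * ((x - (x + L.im + π / 2) : ℝ) : ℂ))) := by
      rw [h1, Complex.ofReal_zero, Complex.ofReal_one]
      ring
    rw [h4, h2, Complex.ofReal_neg, Complex.ofReal_mul, Complex.ofReal_div]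
    linear_combination ((q : ℂ) / a * (Real.exp L.re : ℂ)) * Complex.I_sq
  rw [h3, Complex.ofReal_im]

theorem line90 (typ : Bool) {δ0 ω0 s r κ0 c γ bb N T E : ℝ} {b b' : ℝ → ℝ} (hδ : 0 < δ0)
    (hω : 0 < ω0) (hr : 0 < r) (hr1 : r < 1)
    (hW : ∀ τ ∈ Metric.ball (0 : ℂ) r, Wk (π / 2) (lΩ ω0 s τ) (lJ δ0 τ) κ0 γ N T b b')
    (hb : ∀ u ∈ Icc (0 : ℝ) 1, HasDerivAt b (b' u) u ∧ 0 < b u ∧ b u ≤ bb)
    (hκ : κ0 < 1) (hc : 0 ≤ c) (hc2 : 2 * c ^ 2 ≤ 1 - κ0) (hγ : 0 < γ) (hγc : γ + bb ≤ 2 * c)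
    (hb1 : b 1 ≤ 1 / 2) (hE : N / (2 * γ ^ 2) + T + b 1 / 2 + b 1 ^ 2 ≤ E) :
    ∃ (ϕ : ℝ → ℝ) (c0 e1 e2 e3 : ℝ),
      Rp typ (fun τ => δ0 * (1 + τ)) (fun τ => ω0 * (1 + s * τ)) ϕ ∧
      |e1| ≤ E / r ∧ |e2| ≤ E / r ^ 2 ∧ |e3| ≤ E / r ^ 3 ∧
      J3 ϕ c0 (F1 (π / 2) ω0 (jj δ0) s + e1) (F2 (π / 2) ω0 (jj δ0) s + e2)
        (F3 (π / 2) ω0 (jj δ0) s + e3) := by
  have hπ : 0 < π / 2 := by positivity
  have hΩ : DifferentiableOn ℂ (lΩ ω0 s) (Metric.ball 0 r) := by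
    unfold lΩ; fun_prop
  have hJ : DifferentiableOn ℂ (lJ δ0) (Metric.ball 0 r) := by
    unfold lJ
    refine DifferentiableOn.div (by fun_prop) (by fun_prop) fun τ hτ => wline_den hδ ?_
    exact (mem_ball_zero_iff.1 hτ).trans hr1
  obtain ⟨k, z, dk, dz, dT, hkz⟩ := pack hπ le_rfl hΩ hJ hW hb hκ hc hc2 hγ hγc
  have eΩ : ∀ τ : ℝ, lΩ ω0 s τ = ((ω0 * (1 + s * τ) : ℝ) : ℂ) := by
    intro τ; unfold lΩ; push_cast; rfl
  have eJ : ∀ τ : ℝ, lJ δ0 τ = ((jj (δ0 * (1 + τ)) : ℝ) : ℂ) := by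
    intro τ; unfold lJ jj; push_cast; rw [mul_pow]
  have cδ : ContinuousAt (fun τ : ℝ => δ0 * (1 + τ)) 0 := by fun_prop
  have cω : ContinuousAt (fun τ : ℝ => ω0 * (1 + s * τ)) 0 := by fun_prop
  have hδ0 : 0 < δ0 * (1 + (0 : ℝ)) := by simpa using hδ
  have hω0 : 0 < ω0 * (1 + s * (0 : ℝ)) := by simpa using hω
  have h0r : (0 : ℂ) ∈ Metric.ball (0 : ℂ) r := Metric.mem_ball_self hr
  have cz : ContinuousAt (fun τ : ℝ => z τ) 0 := by
    have h1 : ContinuousAt z ((0 : ℝ) : ℂ) := by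
      rw [Complex.ofReal_zero]
      exact (dz.differentiableAt (Metric.ball_mem_nhds _ hr)).continuousAt
    exact ContinuousAt.comp (f := fun τ : ℝ => (τ : ℂ)) h1 Complex.continuous_ofReal.continuousAt
  have hzn : ∀ τ ∈ Metric.ball (0 : ℂ) r, ‖z τ‖ ≤ 1 / 2 := fun τ hτ => (hkz τ hτ).1.trans hb1
  have hzre : ∀ τ ∈ Metric.ball (0 : ℂ) r, 0 < (1 + z τ).re := by
    intro τ hτ
    have h1 := (Complex.abs_re_le_norm (z τ)).trans (hzn τ hτ)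
    rw [Complex.add_re, Complex.one_re]
    linarith [(abs_le.1 h1).1]
  have hev : ∀ᶠ τ : ℝ in 𝓝 0, (τ : ℂ) ∈ Metric.ball (0 : ℂ) r := by
    filter_upwards [Metric.ball_mem_nhds (0 : ℝ) hr] with τ hτ
    rw [mem_ball_zero_iff] at hτ ⊢
    rwa [Complex.norm_real]
  have hB : ∀ᶠ τ : ℝ in 𝓝 0, Br (π / 2) (δ0 * (1 + τ)) (ω0 * (1 + s * τ)) (k τ) (z τ) := by
    filter_upwards [hev, cδ.eventually (lt_mem_nhds hδ0), cω.eventually (lt_mem_nhds hω0)]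
      with τ h1 h2 h3
    exact (hkz τ h1).2.2 _ _ h2 h3 (eΩ τ) (eJ τ)
  have hb0 : 0 < b 1 := (hb 1 ⟨zero_le_one, le_rfl⟩).2.1
  have d1 : DifferentiableOn ℂ (fun τ => k τ + Complex.I * Tt (π / 2) (lΩ ω0 s τ) (lJ δ0 τ))
      (Metric.ball 0 r) := dk.add (dT.const_mul _)
  have n1 : ∀ τ ∈ Metric.ball (0 : ℂ) r,
      ‖k τ + Complex.I * Tt (π / 2) (lΩ ω0 s τ) (lJ δ0 τ)‖ ≤ E := by
    intro τ hτ
    have e : k τ + Complex.I * Tt (π / 2) (lΩ ω0 s τ) (lJ δ0 τ) =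
        (k τ + z τ / 2) + Complex.I * Tt (π / 2) (lΩ ω0 s τ) (lJ δ0 τ) - z τ / 2 := by ring
    have h1 := (hkz τ hτ).1
    have h2 := (hkz τ hτ).2.1
    have h3 := (hW τ hτ).tt
    rw [e]
    refine (norm_sub_le _ _).trans ?_
    refine (add_le_add (norm_add_le _ _) le_rfl).trans ?_
    rw [norm_mul, Complex.norm_I, one_mul, norm_div, Complex.norm_two]
    nlinarith [sq_nonneg (b 1)]
  have eph : ∀ τ : ℝ, ph0 (π / 2) (ω0 * (1 + s * τ)) (jj (δ0 * (1 + τ))) (k τ) =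
      Mn (π / 2) (ω0 * (1 + s * τ)) (jj (δ0 * (1 + τ))) +
        (k τ + Complex.I * Tt (π / 2) (lΩ ω0 s τ) (lJ δ0 τ)).im + 0 := by
    intro τ
    rw [ph0, wline_er, eΩ, eJ, Complex.add_im, Complex.I_mul_im]
    ring
  obtain ⟨c0, e1, e2, e3, h1, h2, h3, hJ3⟩ := wline_jet hδ hω hr d1 n1 eph
  have cp := hJ3.j2.cont
  have hmem : π / 2 ∈ Icc 0 π := ⟨hπ.le, by linarith⟩
  have hz0 : 0 < (1 + z ((0 : ℝ) : ℂ)).re := hzre _ (by rwa [Complex.ofReal_zero])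
  cases typ with
  | true =>
    refine ⟨_, c0, e1, e2, e3, ?_, h1, h2, h3, hJ3⟩
    refine rp_of_br (v1 := fun _ => 0) (y1 := fun _ => 1) (k := fun τ : ℝ => k τ)
      (z := fun τ : ℝ => z τ) hmem cδ cω hδ0 hω0 cz hz0 cp cp hB
      (Eventually.of_forall fun τ => tr90_true _ _) (Eventually.of_forall fun τ => ?_)
    simp
  | false =>
    have d2 : DifferentiableOn ℂ (fun τ => k τ + Complex.I * Tt (π / 2) (lΩ ω0 s τ) (lJ δ0 τ)
        + Complex.log (1 + z τ)) (Metric.ball 0 r) :=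
      d1.add ((dz.const_add 1).clog fun τ hτ => Or.inl (hzre τ hτ))
    have n2 : ∀ τ ∈ Metric.ball (0 : ℂ) r,
        ‖k τ + Complex.I * Tt (π / 2) (lΩ ω0 s τ) (lJ δ0 τ) + Complex.log (1 + z τ)‖ ≤ E := by
      intro τ hτ
      have e : k τ + Complex.I * Tt (π / 2) (lΩ ω0 s τ) (lJ δ0 τ) + Complex.log (1 + z τ) =
          (k τ + z τ / 2) + Complex.I * Tt (π / 2) (lΩ ω0 s τ) (lJ δ0 τ) + z τ / 2
            + (Complex.log (1 + z τ) - z τ) := by ring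
      have g1 := (hkz τ hτ).1
      have g2 := (hkz τ hτ).2.1
      have g3 := (hW τ hτ).tt
      have g4 := hzn τ hτ
      have g5 := Complex.norm_log_one_add_sub_self_le (z := z τ) (by linarith)
      have g6 : (1 - ‖z τ‖)⁻¹ ≤ 2 := by
        rw [inv_le_comm₀ (by linarith) (by norm_num)]
        linarith
      have g7 : ‖z τ‖ ^ 2 ≤ b 1 ^ 2 := pow_le_pow_left₀ (norm_nonneg _) g1 2
      have g8 := mul_le_mul_of_nonneg_left g6 (sq_nonneg ‖z τ‖)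
      rw [e]
      refine (norm_add_le _ _).trans ?_
      refine (add_le_add (norm_add₃_le) le_rfl).trans ?_
      rw [norm_mul, Complex.norm_I, one_mul, norm_div, Complex.norm_two]
      linarith
    have eph2 : ∀ τ : ℝ, ph0 (π / 2) (ω0 * (1 + s * τ)) (jj (δ0 * (1 + τ))) (k τ) +
        (Complex.log (1 + z τ)).im + π / 2 =
        Mn (π / 2) (ω0 * (1 + s * τ)) (jj (δ0 * (1 + τ))) +
          (k τ + Complex.I * Tt (π / 2) (lΩ ω0 s τ) (lJ δ0 τ) + Complex.log (1 + z τ)).im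
          + π / 2 := by
      intro τ
      rw [eph, Complex.add_im _ (Complex.log _)]
      ring
    obtain ⟨c0', e1', e2', e3', h1', h2', h3', hJ3'⟩ := wline_jet hδ hω hr d2 n2 eph2
    refine ⟨_, c0', e1', e2', e3', ?_, h1', h2', h3', hJ3'⟩
    refine rp_of_br (v1 := fun _ => 1) (y1 := fun _ => 0) (k := fun τ : ℝ => k τ)
      (z := fun τ : ℝ => z τ) hmem cδ cω hδ0 hω0 cz hz0 cp hJ3'.j2.cont hB
      (Eventually.of_forall fun τ => tr90_false _ _) ?_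
    filter_upwards [hev] with τ hτ
    have hne : 1 + z τ ≠ 0 := by
      intro h
      have := hzre τ hτ
      rw [h] at this
      simp at this
    rw [etaC, wline_er]
    exact wline_im hne

end Pool.Agent.HillD
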