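import Pool.Agent.P.MP_ae2765_an.WSa

/-! Large amplitude: the main term. -/

namespace Pool.Agent.HillD
open Real Set Filter Topology Asymptotics

variable {φ1 ω j s : ℝ}

lemma wo2_den {ρ : ℝ} (hρ : 0 < ρ) (φ : ℝ) : 0 < cos φ ^ 2 + ρ * sin φ ^ 2 := by
  have h := sin_sq_add_cos_sq φ
  rcases le_total ρ 1 with h1 | h1
  · nlinarith [sq_nonneg (cos φ), sq_nonneg (sin φ)]
  · nlinarith [sq_nonneg (cos φ), sq_nonneg (sin φ)]

lemma wo2_deriv {ρ : ℝ} (hρ : 0 < ρ) (φ : ℝ) :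
    HasDerivAt (fun φ => arctan ((1 - ρ) * (sin φ * cos φ) / (cos φ ^ 2 + ρ * sin φ ^ 2)))
      (1 - ρ / (cos φ ^ 2 + ρ ^ 2 * sin φ ^ 2)) φ := by
  have hD := wo2_den hρ φ
  have hE := wo2_den (pow_pos hρ 2) φ
  have h1 : HasDerivAt (fun φ => (1 - ρ) * (sin φ * cos φ))
      ((1 - ρ) * (cos φ * cos φ + sin φ * -sin φ)) φ :=
    ((hasDerivAt_sin φ).mul (hasDerivAt_cos φ)).const_mul _
  have h2 : HasDerivAt (fun φ => cos φ ^ 2 + ρ * sin φ ^ 2)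
      (2 * cos φ * -sin φ + ρ * (2 * sin φ * cos φ)) φ := by
    have h3 := ((hasDerivAt_cos φ).fun_pow 2).fun_add
      (((hasDerivAt_sin φ).fun_pow 2).const_mul ρ)
    refine h3.congr_deriv ?_
    norm_num
  refine (h1.fun_div h2 hD.ne').arctan.congr_deriv ?_
  have h5 := sin_sq_add_cos_sq φ
  clear h1 h2
  generalize sin φ = S at *
  generalize cos φ = C at *
  have h6 : (C ^ 2 + ρ * S ^ 2) ^ 2 + ((1 - ρ) * (S * C)) ^ 2 = C ^ 2 + ρ ^ 2 * S ^ 2 := by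
    have : (C ^ 2 + ρ * S ^ 2) ^ 2 + ((1 - ρ) * (S * C)) ^ 2
        = (S ^ 2 + C ^ 2) * (C ^ 2 + ρ ^ 2 * S ^ 2) := by ring
    rw [this, h5, one_mul]
  have h7 : (1 - ρ) * (C * C + S * -S) * (C ^ 2 + ρ * S ^ 2)
      - (1 - ρ) * (S * C) * (2 * C * -S + ρ * (2 * S * C)) = C ^ 2 + ρ ^ 2 * S ^ 2 - ρ := by
    have : (1 - ρ) * (C * C + S * -S) * (C ^ 2 + ρ * S ^ 2)
        - (1 - ρ) * (S * C) * (2 * C * -S + ρ * (2 * S * C))
        = (S ^ 2 + C ^ 2) * (C ^ 2 + ρ ^ 2 * S ^ 2 - ρ * (S ^ 2 + C ^ 2)) := by ring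
    rw [this, h5, one_mul, mul_one]
  have h8 : 1 + ((1 - ρ) * (S * C) / (C ^ 2 + ρ * S ^ 2)) ^ 2
      = (C ^ 2 + ρ ^ 2 * S ^ 2) / (C ^ 2 + ρ * S ^ 2) ^ 2 := by
    rw [← h6, div_pow, add_div, div_self (pow_pos hD 2).ne']
  rw [h7, h8]
  field_simp

lemma wo2_int {ρ : ℝ} (hρ : 0 < ρ) (hρ1 : ρ ≤ 1) (h0 : 0 ≤ φ1) (h1 : φ1 ≤ π / 2) :
    0 ≤ ∫ φ in (0 : ℝ)..φ1, (1 - ρ / (cos φ ^ 2 + ρ ^ 2 * sin φ ^ 2)) := by
  have hc : Continuous fun φ : ℝ => 1 - ρ / (cos φ ^ 2 + ρ ^ 2 * sin φ ^ 2) :=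
    continuous_const.sub (continuous_const.div (by fun_prop)
      fun φ => (wo2_den (pow_pos hρ 2) φ).ne')
  rw [intervalIntegral.integral_eq_sub_of_hasDerivAt (fun φ _ => wo2_deriv hρ φ)
    (hc.intervalIntegrable _ _)]
  simp only [sin_zero, zero_mul, mul_zero, zero_div, arctan_zero, sub_zero]
  rw [← arctan_zero]
  refine arctan_mono (div_nonneg (mul_nonneg (by linarith) (mul_nonneg ?_ ?_))
    (wo2_den hρ φ1).le)
  · exact sin_nonneg_of_nonneg_of_le_pi h0 (by linarith [pi_pos])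
  · exact cos_nonneg_of_neg_pi_div_two_le_of_le (by linarith [pi_pos]) h1

lemma wo2_mono {κ X Y : ℝ} (hω : 0 < ω) (hκ : 0 < κ) (ht : ω * j ≤ 1) (hX : 0 ≤ X)
    (h : X ≤ Y) : √(2 * ω * (ω * j + κ * X) / (1 + κ * X))
      ≤ √(2 * ω * (ω * j + κ * Y) / (1 + κ * Y)) := by
  have h1 : 0 < 1 + κ * X := by positivity
  have h2 : 0 < 1 + κ * Y := by nlinarith
  refine sqrt_le_sqrt ?_
  rw [div_le_div_iff₀ h1 h2]
  have h3 : 0 ≤ 2 * ω * (κ * (Y - X) * (1 - ω * j)) :=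
    mul_nonneg (by linarith) (mul_nonneg (mul_nonneg hκ.le (by linarith)) (by linarith))
  nlinarith [h3]

/-- `β ^ 2 = ω / δ ^ 2` -/
theorem O_ratio (hω : 0 < ω) (hj : 0 < j) (hj2 : j < 1 / 2) (ht : ω * j ≤ 1) (h0 : 0 ≤ φ1)
    (h1 : φ1 ≤ π / 2) {β : ℝ} (hβ0 : 0 ≤ β) (hβ : β ^ 2 = ω * j / (1 - 2 * j)) :
    O1 φ1 ω j * √(1 + β ^ 2) ≤ β * Mn φ1 ω j := by
  have hκ : 0 < 1 - 2 * j := by linarith
  have hb : 0 < β ^ 2 := by rw [hβ]; positivity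
  have hβ1 : 0 < β := lt_of_le_of_ne hβ0 (by rintro rfl; simp at hb)
  have hr : 0 < √(1 + β ^ 2) := sqrt_pos.2 (by linarith)
  have hr2 : √(1 + β ^ 2) ^ 2 = 1 + β ^ 2 := sq_sqrt (by linarith)
  obtain ⟨ρ, hρ⟩ : ∃ ρ, ρ = β / √(1 + β ^ 2) := ⟨_, rfl⟩
  have hρ0 : 0 < ρ := by rw [hρ]; positivity
  have hρ2 : ρ ^ 2 * (1 + β ^ 2) = β ^ 2 := by
    rw [hρ, div_pow, hr2]
    field_simp
  have hρ1 : ρ ≤ 1 := by
    rw [hρ, div_le_one hr]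
    exact le_sqrt_of_sq_le (by linarith)
  have hωj : ω * j = β ^ 2 * (1 - 2 * j) := by rw [hβ, div_mul_cancel₀ _ hκ.ne']
  obtain ⟨hq, -, -, hw⟩ := qr_cont hω hj hj2
  have hwe : ∀ φ, ω * j / Pr ω j φ = β ^ 2 / (β ^ 2 + cos φ ^ 2) := fun φ => by
    have h2 : 0 < β ^ 2 + cos φ ^ 2 := by positivity
    unfold Pr
    rw [hωj]
    field_simp
  have hwf : ∀ φ, ρ - ω * j / Pr ω j φ
      = ρ * (1 - ρ / (cos φ ^ 2 + ρ ^ 2 * sin φ ^ 2)) := fun φ => by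
    have h2 : 0 < β ^ 2 + cos φ ^ 2 := by positivity
    have h3 := wo2_den (pow_pos hρ0 2) φ
    have h4 : β ^ 2 / (β ^ 2 + cos φ ^ 2) = ρ ^ 2 / (cos φ ^ 2 + ρ ^ 2 * sin φ ^ 2) := by
      rw [div_eq_div_iff h2.ne' h3.ne', sin_sq]
      linear_combination (-cos φ ^ 2) * hρ2
    rw [hwe, h4]
    ring
  obtain ⟨Y, hY⟩ : ∃ Y, Y = β ^ 2 / ρ - β ^ 2 := ⟨_, rfl⟩
  have hYρ : ρ * Y = β ^ 2 - ρ * β ^ 2 := by rw [hY]; field_simp
  have hY0 : 0 ≤ Y := by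
    refine nonneg_of_mul_nonneg_right ?_ hρ0
    nlinarith
  obtain ⟨c, hc⟩ : ∃ c, c = √(2 * ω * (ω * j + (1 - 2 * j) * Y) / (1 + (1 - 2 * j) * Y)) :=
    ⟨_, rfl⟩
  have hc0 : 0 ≤ c := by rw [hc]; exact sqrt_nonneg _
  have hpt : ∀ φ, c * (ρ - ω * j / Pr ω j φ) ≤ qr ω j φ * (ρ - ω * j / Pr ω j φ) := fun φ => by
    have h2 : 0 < β ^ 2 + cos φ ^ 2 := by positivity
    rcases le_total Y (cos φ ^ 2) with h3 | h3
    · refine mul_le_mul_of_nonneg_right (hc ▸ wo2_mono hω hκ ht hY0 h3) ?_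
      rw [hwe, sub_nonneg, div_le_iff₀ h2]
      nlinarith
    · refine mul_le_mul_of_nonpos_right (hc ▸ wo2_mono hω hκ ht (sq_nonneg _) h3) ?_
      rw [hwe, sub_nonpos, le_div_iff₀ h2]
      nlinarith
  have h5 : 0 ≤ ∫ φ in (0 : ℝ)..φ1, c * (ρ - ω * j / Pr ω j φ) := by
    simp only [hwf, ← mul_assoc]
    rw [intervalIntegral.integral_const_mul]
    exact mul_nonneg (mul_nonneg hc0 hρ0.le) (wo2_int hρ0 hρ1 h0 h1)
  have h6 : ∫ φ in (0 : ℝ)..φ1, c * (ρ - ω * j / Pr ω j φ)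
      ≤ ∫ φ in (0 : ℝ)..φ1, qr ω j φ * (ρ - ω * j / Pr ω j φ) :=
    intervalIntegral.integral_mono_on h0
      ((continuous_const.mul (continuous_const.sub hw)).intervalIntegrable _ _)
      ((hq.mul (continuous_const.sub hw)).intervalIntegrable _ _) (fun φ _ => hpt φ)
  have h7 : ∫ φ in (0 : ℝ)..φ1, qr ω j φ * (ρ - ω * j / Pr ω j φ)
      = ρ * Mn φ1 ω j - O1 φ1 ω j := by
    unfold Mn O1
    rw [← intervalIntegral.integral_const_mul, ← intervalIntegral.integral_sub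
      (f := fun φ => ρ * qr ω j φ) (g := fun φ => qr ω j φ * (ω * j / Pr ω j φ))
      ((continuous_const.mul hq).intervalIntegrable _ _) ((hq.mul hw).intervalIntegrable _ _)]
    exact intervalIntegral.integral_congr fun φ _ => by ring
  have h8 : O1 φ1 ω j ≤ ρ * Mn φ1 ω j := by linarith
  have h9 := mul_le_mul_of_nonneg_right h8 hr.le
  have h10 : ρ * Mn φ1 ω j * √(1 + β ^ 2) = β * Mn φ1 ω j := by
    rw [hρ]
    field_simp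
  linarith

theorem O_low0 (hω : 0 < ω) (hj : 0 < j) (hj2 : j < 1 / 2) (h0 : 0 ≤ φ1) (h1 : φ1 ≤ π / 2) :
    √(ω * (1 - 2 * j)) * sin φ1 ≤ Mn φ1 ω j := by
  have hκ : 0 < 1 - 2 * j := by linarith
  have h2 : ∫ φ in (0 : ℝ)..φ1, √(ω * (1 - 2 * j)) * cos φ = √(ω * (1 - 2 * j)) * sin φ1 := by
    rw [intervalIntegral.integral_const_mul, integral_cos, sin_zero, sub_zero]
  rw [← h2]
  unfold Mn
  refine intervalIntegral.integral_mono_on h0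
    ((continuous_const.mul continuous_cos).intervalIntegrable _ _)
    ((qr_cont hω hj hj2).1.intervalIntegrable _ _) fun φ hφ => ?_
  have h3 : 0 ≤ cos φ :=
    cos_nonneg_of_neg_pi_div_two_le_of_le (by linarith [pi_pos, hφ.1]) (hφ.2.trans h1)
  have h4 : 0 ≤ (1 - 2 * j) * cos φ ^ 2 := by positivity
  have h5 : (1 - 2 * j) * cos φ ^ 2 ≤ 1 := by nlinarith [cos_sq_le_one φ, sq_nonneg (cos φ)]
  unfold qr Pr Qr
  refine le_sqrt_of_sq_le ?_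
  rw [mul_pow, sq_sqrt (by positivity), le_div_iff₀ (by linarith)]
  have h6 : 0 ≤ ω * ((1 - 2 * j) * cos φ ^ 2) * (1 - (1 - 2 * j) * cos φ ^ 2) :=
    mul_nonneg (mul_nonneg hω.le h4) (by linarith)
  have h7 : 0 ≤ ω * (ω * j) := by positivity
  nlinarith [h6, h7]

end Pool.Agent.HillD
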