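import Pool.Agent.P.MP_ae2765_an.WO1
import Pool.Agent.P.MP_ae2765_an.WO2
import Pool.Agent.P.MP_ae2765_an.WSa

/-! Large amplitude: the main term. -/

namespace Pool.Agent.HillD
open Real Set Filter Topology Asymptotics

variable {φ1 ω j s : ℝ}

theorem wo_deriv {x : ℝ} (hx : 0 < x) :
    HasDerivAt (fun y : ℝ => -(2 * log y) - pade y)
      (-(2 * (1 - x) ^ 4 / (x * (1 + 4 * x + x ^ 2) ^ 2))) x := by
  have hD : (1 + 4 * x + x ^ 2) ≠ 0 := by positivity
  have h1 : HasDerivAt (fun y : ℝ => 1 + 4 * y + y ^ 2) (4 + 2 * x) x := by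
    simpa using ((hasDerivAt_id' x).const_mul 4).const_add 1 |>.fun_add (hasDerivAt_pow 2 x)
  have h2 : HasDerivAt (fun y : ℝ => 6 * (1 - y ^ 2)) (6 * -(2 * x)) x := by
    simpa using ((hasDerivAt_pow 2 x).const_sub 1).const_mul 6
  have h3 := (((hasDerivAt_log hx.ne').const_mul 2).fun_neg).fun_sub (h2.fun_mul (h1.fun_inv hD))
  refine h3.congr_deriv ?_
  field_simp
  ring

theorem pade_le {y : ℝ} (h0 : 0 < y) (h1 : y ≤ 1) : pade y ≤ -(2 * log y) := by
  have h : AntitoneOn (fun y : ℝ => -(2 * log y) - pade y) (Ioi 0) := by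
    refine antitoneOn_of_deriv_nonpos (convex_Ioi 0)
      (fun x hx => (wo_deriv hx).continuousAt.continuousWithinAt) (fun x hx => ?_) fun x hx => ?_
    · rw [interior_Ioi] at hx
      exact (wo_deriv hx).differentiableAt.differentiableWithinAt
    · rw [interior_Ioi] at hx
      have hx' : 0 < x := hx
      rw [(wo_deriv hx).deriv, neg_nonpos]
      positivity
  have h2 := h h0 (mem_Ioi.2 one_pos) h1
  simp only [pade, log_one] at h2 ⊢
  linarith

theorem wo_pos {b : ℝ} (hb : 0 < b) (c : ℝ) : 0 < c + √(c ^ 2 + b) := by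
  have h : |c| < √(c ^ 2 + b) := by
    rw [lt_sqrt (abs_nonneg c), sq_abs]
    linarith
  linarith [neg_abs_le c]

theorem wo_prim {b : ℝ} (hb : 0 < b) (φ : ℝ) :
    HasDerivAt (fun φ => -log (cos φ + √(cos φ ^ 2 + b))) (sin φ / √(cos φ ^ 2 + b)) φ := by
  have hp : 0 < cos φ ^ 2 + b := by positivity
  have hs : 0 < √(cos φ ^ 2 + b) := sqrt_pos.2 hp
  have h1 : HasDerivAt (fun φ => cos φ ^ 2 + b) (2 * cos φ * -sin φ) φ := by
    simpa using ((hasDerivAt_cos φ).fun_pow 2).add_const b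
  have h2 := (((hasDerivAt_cos φ).fun_add (h1.sqrt hp.ne')).log (wo_pos hb _).ne').fun_neg
  refine h2.congr_deriv ?_
  have h3 := (wo_pos hb (cos φ)).ne'
  field_simp
  ring

theorem wo_point (hω : 0 < ω) (hj : 0 < j) (hj2 : j < 1 / 2) {b : ℝ}
    (hb : b = ω * j / (1 - 2 * j)) {φ : ℝ} (hs : 0 ≤ sin φ) :
    2 * aa ω j * (sin φ / √(cos φ ^ 2 + b)) ≤ qr ω j φ * (ω * j / Pr ω j φ) := by
  have hk : 0 < 1 - 2 * j := by linarith
  have hb0 : 0 < b := by rw [hb]; positivity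
  have hp : 0 < cos φ ^ 2 + b := by positivity
  have hP : Pr ω j φ = (1 - 2 * j) * (cos φ ^ 2 + b) := by
    rw [hb, Pr, mul_add, mul_div_cancel₀ _ hk.ne', add_comm]
  have hP0 : 0 < Pr ω j φ := by rw [hP]; positivity
  have hQ0 : 0 < Qr j φ := by unfold Qr; positivity
  have hQ : sin φ ^ 2 ≤ 1 / Qr j φ := by
    rw [le_div_iff₀ hQ0, sin_sq, Qr]
    have h1 := sq_nonneg (cos φ)
    have h2 := cos_sq_le_one φ
    nlinarith [mul_nonneg (mul_nonneg hj.le h1) (sub_nonneg.2 h2), sq_nonneg (cos φ ^ 2)]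
  refine (sq_le_sq₀ (by unfold aa; positivity) (by unfold qr; positivity)).1 ?_
  have e1 : (2 * aa ω j * (sin φ / √(cos φ ^ 2 + b))) ^ 2 =
      2 * ω * (ω * j) ^ 2 / Pr ω j φ * sin φ ^ 2 := by
    rw [aa, hP, mul_pow, mul_pow, mul_pow, div_pow, sq_sqrt hp.le, sq_sqrt (by positivity)]
    field_simp
  have e2 : (qr ω j φ * (ω * j / Pr ω j φ)) ^ 2 =
      2 * ω * (ω * j) ^ 2 / Pr ω j φ * (1 / Qr j φ) := by
    rw [qr, mul_pow, sq_sqrt (by positivity)]
    field_simp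
  rw [e1, e2]
  exact mul_le_mul_of_nonneg_left hQ (by positivity)

theorem O_low1 (hω : 0 < ω) (hj : 0 < j) (hj2 : j < 1 / 2) (h0 : 0 ≤ φ1) (h1 : φ1 ≤ π / 2)
    {b y : ℝ} (hb : b = ω * j / (1 - 2 * j)) (hy1 : y ≤ 1)
    (hy : cos φ1 + √(cos φ1 ^ 2 + b) ≤ y * (1 + √(1 + b))) : aa ω j * pade y ≤ O1 φ1 ω j := by
  have hk : 0 < 1 - 2 * j := by linarith
  have hb0 : 0 < b := by rw [hb]; positivity
  have ha : 0 ≤ aa ω j := by unfold aa; positivity
  have hc : Continuous fun φ => sin φ / √(cos φ ^ 2 + b) :=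
    continuous_sin.div (by fun_prop) fun φ => (sqrt_pos.2 (by positivity)).ne'
  have hI := intervalIntegral.integral_eq_sub_of_hasDerivAt (a := 0) (b := φ1)
    (fun φ _ => wo_prim hb0 φ) (hc.intervalIntegrable _ _)
  obtain ⟨c1, -, -, c4⟩ := qr_cont hω hj hj2
  have hm : ∫ φ in (0 : ℝ)..φ1, 2 * aa ω j * (sin φ / √(cos φ ^ 2 + b)) ≤ O1 φ1 ω j :=
    intervalIntegral.integral_mono_on h0 ((hc.const_mul _).intervalIntegrable _ _)
      ((c1.mul c4).intervalIntegrable _ _) fun φ hφ => wo_point hω hj hj2 hb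
        (sin_nonneg_of_nonneg_of_le_pi hφ.1 (by linarith [hφ.2, pi_pos]))
  rw [intervalIntegral.integral_const_mul, hI, cos_zero, one_pow] at hm
  have h2 := wo_pos hb0 (cos φ1)
  have h3 : 0 < 1 + √(1 + b) := by positivity
  have hy0 : 0 < y := by
    by_contra h
    nlinarith [mul_nonneg (neg_nonneg.2 (not_lt.1 h)) h3.le]
  have h4 := log_le_log h2 hy
  rw [log_mul hy0.ne' h3.ne'] at h4
  have h5 := pade_le hy0 hy1
  nlinarith [mul_le_mul_of_nonneg_left h5 ha, mul_le_mul_of_nonneg_left h4 ha]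

end Pool.Agent.HillD
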