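import Pool.Agent.P.MP_ae2765_an.WC2d
import Pool.Agent.P.MP_ae2765_an.WErr
import Pool.Agent.P.MP_ae2765_an.WO
import Pool.Agent.P.MP_ae2765_an.WLine

/-! Second region: large amplitude away from the turning point. -/

namespace Pool.Agent.HillD
open Real Set Filter Topology Asymptotics Pool.Agent.HillD.Num Pool.Agent.P.MP_4c4e6e_co.Eng

theorem wc2_alt1 {x a b : ℝ} (hx : x ^ 2 * a = 5 / 2) (h3 : 311 / 5 * b ≤ a ^ 2)
    (h : 0 < 311 / 5 * b * (x ^ 2) ^ 2 - 25 / 4) : False := by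
  have : (x ^ 2) ^ 2 * a ^ 2 = 25 / 4 := by rw [← mul_pow, hx]; norm_num
  have := mul_le_mul_of_nonneg_left h3 (sq_nonneg (x ^ 2))
  linarith

theorem wc2_alt2 {x a b w : ℝ} (hx : x ^ 2 * a = 5 / 2) (hb0 : 0 < b) (ha0 : 0 < a)
    (ha2 : a ^ 2 = b ^ 2 * w / 2) (h5 : 473 ≤ w) (h : 0 < 153 / 10 * b * x ^ 2 - 5 / 2) : False := by
  have h4 : a < 153 / 10 * b := by
    by_contra hc
    have := mul_le_mul_of_nonneg_left (not_lt.1 hc) (sq_nonneg x)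
    linarith
  have h6 := mul_le_mul_of_nonneg_left h5 (sq_nonneg b)
  have h7 : a ^ 2 < (153 / 10 * b) ^ 2 := by gcongr
  have h8 : 0 < b ^ 2 := by positivity
  nlinarith

theorem wc2_alt3 {x a b w s be rt E m o f1 : ℝ} (hx0 : 0 < x) (hx : x ^ 2 * a = 5 / 2) (hb0 : 0 < b)
    (ha2 : a ^ 2 = b ^ 2 * w / 2) (hs1 : s ≤ 1) (hbe0 : 0 ≤ be) (hrt1 : 1 ≤ rt) (hE0 : 0 ≤ E)
    (hlow : √w ≤ m) (hrat : o * rt ≤ be * m) (hF1 : s / 2 * (m + o) - o ≤ f1) (hf1 : f1 ≤ 20 / 3 * E)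
    (h : 0 < 1767 / 1000 * (s - 2 * be * (rt + be)⁻¹) - 20 / 3 * (b * x ^ 2 * E)) : False := by
  obtain ⟨u, hu⟩ : ∃ u, u = s - 2 * be * (rt + be)⁻¹ := ⟨_, rfl⟩
  rw [← hu] at h
  have hbx : 0 < b * x ^ 2 := by positivity
  have hu0 : 0 < u := by linarith [mul_nonneg hbx.le hE0]
  have hu1 : u * (rt + be) = s * (rt + be) - 2 * be := by
    have : rt + be ≠ 0 := by linarith
    rw [hu]; field_simp
  have hm : 1767 / 500 ≤ b * x ^ 2 * m := by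
    have : 1767 / 500 / (b * x ^ 2) ≤ √w := by
      apply le_sqrt_of_sq_le
      rw [div_pow, div_le_iff₀ (by positivity)]
      have : (x ^ 2) ^ 2 * a ^ 2 = 25 / 4 := by rw [← mul_pow, hx]; norm_num
      rw [ha2] at this
      linarith
    have := this.trans hlow
    rwa [div_le_iff₀' hbx] at this
  have hm0 : 0 < m := by
    by_contra hc
    linarith [mul_nonneg hbx.le (neg_nonneg.2 (not_lt.1 hc))]
  have h6 : m * u / 2 ≤ f1 := by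
    have h7 : m * u / 2 * rt ≤ f1 * rt := by
      have a1 := mul_le_mul_of_nonneg_right hF1 (by linarith : 0 ≤ rt)
      have a2 := mul_le_mul_of_nonneg_left hrat (by linarith : 0 ≤ 1 - s / 2)
      have a3 : 0 ≤ m * u * be := by positivity
      have a4 : m * (u * (rt + be)) = m * (s * (rt + be) - 2 * be) := by rw [hu1]
      linarith
    exact le_of_mul_le_mul_right h7 (by linarith)
  have h8 := mul_le_mul_of_nonneg_left (h6.trans hf1) hbx.le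
  linarith [mul_le_mul_of_nonneg_right hm hu0.le]

theorem wc2_alt4 {x a s E o f1 f2 K cc y : ℝ} (hx : x ^ 2 * a = 5 / 2) (hs0 : 0 ≤ s) (hO : 0 ≤ o)
    (hc : cc = 1 / 2 * ((1 - s) * (4 - s)) - 11 / 500) (hcc : 0 < cc) (h10 : y ≤ 11 / 500)
    (hl1 : a * K ≤ o) (hf1 : f1 ≤ 20 / 3 * E) (hf2 : f2 ≤ 400 / 9 * E)
    (hF2 : o * (3 - 7 / 2 * s + 3 / 4 * s ^ 2 - (2 - s) ^ 2 / 4 * 1 - y) - s / 2 * f1 ≤ 2 * f2)
    (h : 0 < 5 / 2 * (cc * K) - x ^ 2 * E * (10 / 3 * s + 800 / 9)) : False := by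
  have a1 : o * cc ≤ o * (3 - 7 / 2 * s + 3 / 4 * s ^ 2 - (2 - s) ^ 2 / 4 * 1 - y) :=
    mul_le_mul_of_nonneg_left (by rw [hc]; linarith) hO
  have a2 := mul_le_mul_of_nonneg_right hl1 hcc.le
  have a3 := mul_le_mul_of_nonneg_left hf1 hs0
  have a4 : a * K * cc ≤ E * (10 / 3 * s + 800 / 9) := by linarith
  have a5 := mul_le_mul_of_nonneg_left a4 (sq_nonneg x)
  have a6 : x ^ 2 * (a * K * cc) = 5 / 2 * (cc * K) := by rw [← hx]; ring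
  linarith

theorem c2_good (typ : Bool) {δ0 ω0 s : ℝ} (hδ : 0 < δ0) (ht : ω0 ≤ δ0 ^ 2) (h1 : 475 ≤ ω0)
    (h2 : 5 / 2 ≤ aa ω0 (jj δ0)) (h3 : 311 / 5 * (ω0 / δ0 ^ 2) ≤ aa ω0 (jj δ0) ^ 2)
    (hs0 : 0 ≤ s) (hs1 : s ≤ 1) : Good typ δ0 ω0 s := by
  have hω : 0 < ω0 := by linarith
  obtain ⟨hj, hj2⟩ := jj_bd hδ
  have hD : 0 < δ0 ^ 2 := by positivity
  obtain ⟨b, hb⟩ : ∃ b, b = ω0 / δ0 ^ 2 := ⟨_, rfl⟩
  have hb0 : 0 < b := by rw [hb]; positivity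
  have hb1 : b ≤ 1 := by rw [hb, div_le_one hD]; exact ht
  have hκ : 1 - 2 * jj δ0 = δ0 ^ 2 / (δ0 ^ 2 + 2) := by unfold jj; field_simp; ring
  have hbj : b = ω0 * jj δ0 / (1 - 2 * jj δ0) := by rw [hb, hκ]; unfold jj; field_simp
  have hκ0 : 0 < 1 - 2 * jj δ0 := by linarith
  have hκ1 : 475 / 477 ≤ 1 - 2 * jj δ0 := by
    rw [hκ, div_le_div_iff₀ (by norm_num) (by positivity)]; nlinarith
  have htj : ω0 * jj δ0 ≤ 1 := by
    unfold jj; rw [mul_one_div, div_le_one (by positivity)]; linarith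
  obtain ⟨a, ha⟩ : ∃ a, a = aa ω0 (jj δ0) := ⟨_, rfl⟩
  rw [← ha] at h2 h3
  rw [← hb] at h3
  have ha0 : 0 < a := by linarith
  have ha2 : a ^ 2 = b ^ 2 * (ω0 * (1 - 2 * jj δ0)) / 2 := by
    rw [ha, aa, mul_pow, sq_sqrt (by positivity), hbj]; field_simp
  obtain ⟨x, hxd⟩ : ∃ x, x = √(5 / 2 / a) := ⟨_, rfl⟩
  have hx0 : 0 < x := by rw [hxd]; positivity
  have hx : x ^ 2 * a = 5 / 2 := by rw [hxd, sq_sqrt (by positivity)]; field_simp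
  have hx2 : x ^ 2 ≤ 1 := by nlinarith [sq_nonneg x]
  have hx1 : x ≤ 1 := by nlinarith
  have hbe : b = √b ^ 2 := (sq_sqrt hb0.le).symm
  have hbe0 : 0 ≤ √b := sqrt_nonneg _
  have hbe1 : √b ≤ 1 := sqrt_le_one.2 hb1
  obtain ⟨bbar, hbbar⟩ : ∃ y : ℝ, y = 25 / 26 * (1 / 5 * (133 / 250 * x ^ 2) ^ 2 + 21 / 10000) := ⟨_, rfl⟩
  have hbb0 : 0 < bbar := by rw [hbbar]; positivity
  have hbb1 : bbar ≤ 3 / 50 := by
    have : (x ^ 2) ^ 2 ≤ 1 := pow_le_one₀ (by positivity) hx2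
    rw [hbbar]; nlinarith
  obtain ⟨E, hE⟩ : ∃ y : ℝ, y = 11 / 500 * (133 / 250 * x ^ 2) +
    625 / 1352 * (22 / 125 * (x ^ 2 * x) + 9 / 500) ^ 2 + 1 / 2 * bbar + bbar ^ 2 := ⟨_, rfl⟩
  have hE0 : 0 ≤ E := by rw [hE]; positivity
  obtain ⟨ϕ, c0, e1, e2, e3, hR, he1, he2, -, hJ⟩ := line90 typ (s := s) (r := 3 / 20) (c := 11 / 20)
    (bb := bbar) (E := E) hδ hω (by norm_num) (by norm_num)
    (fun τ hτ => c2_disc hδ ht h1 hx0 (ha ▸ hx) hs0 hs1 (mem_ball_zero_iff.1 hτ).le)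
    (fun u _ => ⟨hasDerivAt_const _ _, hbbar ▸ hbb0, hbbar.ge⟩) (by norm_num) (by norm_num)
    (by norm_num) (by norm_num) (by linarith) (by rw [← hbbar]; linarith)
    (by rw [← hbbar, hE]; apply le_of_eq; ring)
  refine Or.inl ⟨ϕ, c0, _, _, _, hR, hJ, fun hc1 hc2 => False.elim ?_⟩
  obtain ⟨hO, hF1, hF2⟩ := O_F hω hj hj2 htj pi_div_two_pos.le le_rfl hs0 hs1
  have hrat := O_ratio hω hj hj2 htj pi_div_two_pos.le le_rfl hbe0 (hbe.symm.trans hbj)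
  have hlow := O_low0 hω hj hj2 pi_div_two_pos.le le_rfl
  rw [← hbe] at hrat
  rw [sin_pi_div_two, mul_one] at hlow
  have hrt1 : 1 ≤ √(1 + b) := one_le_sqrt.2 (by linarith)
  have hl1 := O_low1 (y := √b * (1 + √(1 + b))⁻¹) hω hj hj2 pi_div_two_pos.le le_rfl hbj
    (by rw [← div_eq_mul_inv, div_le_one (by linarith)]; linarith)
    (by rw [cos_pi_div_two]; apply le_of_eq; field_simp; simp)
  have hP : ω0 * jj δ0 / Pr ω0 (jj δ0) (π / 2) = 1 := by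
    rw [Pr, cos_pi_div_two]; field_simp; simp
  rw [hP] at hF2
  rw [← ha] at hl1
  have hf1 : F1 (π / 2) ω0 (jj δ0) s ≤ 20 / 3 * E := by linarith only [(abs_le.1 he1).1, hc1]
  have hf2 : F2 (π / 2) ω0 (jj δ0) s ≤ 400 / 9 * E := by
    have := (abs_le.1 he2).1
    norm_num at this
    linarith only [this, hc2]
  rcases C2_real (√b) x s hbe0 hbe1 hx0.le hx1 hs0 hs1 b hbe _ rfl with h | h | h
  · exact wc2_alt1 hx h3 h
  · exact wc2_alt2 hx hb0 ha0 ha2 (by nlinarith only [h1, hκ1]) h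
  rcases h _ rfl _ hbbar _ rfl _ hE _ rfl with h | h
  · exact wc2_alt3 hx0 hx hb0 ha2 hs1 hbe0 hrt1 hE0 hlow hrat hF1 hf1 h
  · obtain ⟨hcc, h⟩ := h _ rfl _ rfl _ rfl
    exact wc2_alt4 hx hs0 hO rfl hcc (by rw [div_le_iff₀ hω]; linarith only [h1]) hl1 hf1 hf2 hF2 h

end Pool.Agent.HillD
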