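import Pool.Agent.P.MP_ae2765_an.WJet
import Pool.Agent.P.MP_ae2765_an.Real

/-! The loop of the checker computes the jets of the truncated series. -/

namespace Pool.Agent.HillD
open Real Set Filter Topology Asymptotics Pool.Agent.HillD.Num Pool.Agent.P.MP_4c4e6e_co.Eng

/-- the two-jet along a curve of a function of `(d, υ)` with the given Taylor coefficients -/
def wloopJ (d1 d2 sg : ℝ) (F : ℝ → ℝ) (c0 c1 c2 c3 c4 c5 : ℝ) : Prop :=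
  J2 F c0 (c1 * d1 + c2 * sg) (c1 * d2 + c3 * d1 ^ 2 + c4 * (d1 * sg) + c5 * sg ^ 2)

theorem wloop_add {d1 d2 sg : ℝ} {F G : ℝ → ℝ} {y0 y1 y2 y3 y4 y5 n0 n1 n2 n3 n4 n5 : ℝ} (e : ℝ)
    (h : wloopJ d1 d2 sg F y0 y1 y2 y3 y4 y5) (h' : wloopJ d1 d2 sg G n0 n1 n2 n3 n4 n5) :
    wloopJ d1 d2 sg (fun τ => F τ + e * G τ) (y0 + e * n0) (y1 + e * n1) (y2 + e * n2)
      (y3 + e * n3) (y4 + e * n4) (y5 + e * n5) :=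
  (J2.add h (J2.const_mul h' e)).of_eq rfl (by ring) (by ring)

theorem wloop_const (d1 d2 sg c : ℝ) : wloopJ d1 d2 sg (fun _ => c) c 0 0 0 0 0 :=
  (j2_const c).of_eq rfl (by ring) (by ring)

theorem wloop_new {d1 d2 sg : ℝ} {d υ T M : ℝ → ℝ} {t0 t1 t2 t3 t4 t5 m0 m1 m2 m3 m4 m5 : ℝ}
    (A0 B0 Z nu jk ka kb c : ℝ) (hd : J2 d 0 d1 d2) (hu : J2 υ 0 sg 0)
    (hT : wloopJ d1 d2 sg T t0 t1 t2 t3 t4 t5) (hM : wloopJ d1 d2 sg M m0 m1 m2 m3 m4 m5) :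
    wloopJ d1 d2 sg (fun τ => ((ka * (nu * (A0 + d τ)) - (A0 + d τ) * (1 + υ τ) ^ 2) * T τ +
      (kb * (Z * (1 - jk * d τ)) - B0 * (1 + υ τ) * (1 - jk * d τ)) * M τ) / c)
      (c⁻¹ * ((ka * nu - 1) * (A0 * t0) + (kb * Z - B0) * m0))
      (c⁻¹ * ((ka * nu - 1) * (A0 * t1 + t0) + ((kb * Z - B0) * m1 - jk * ((kb * Z - B0) * m0))))
      (c⁻¹ * ((ka * nu - 1) * (A0 * t2) - 2 * (A0 * t0) + ((kb * Z - B0) * m2 - B0 * m0)))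
      (c⁻¹ * ((ka * nu - 1) * (A0 * t3 + t1) + ((kb * Z - B0) * m3 - jk * ((kb * Z - B0) * m1))))
      (c⁻¹ * ((ka * nu - 1) * (A0 * t4 + t2) - 2 * (A0 * t1 + t0) +
      ((kb * Z - B0) * m4 - B0 * m1 - jk * ((kb * Z - B0) * m2 - B0 * m0))))
      (c⁻¹ * ((ka * nu - 1) * (A0 * t5) - 2 * (A0 * t2) - A0 * t0 + ((kb * Z - B0) * m5 - B0 * m2))) := by
  have h1 := (j2_const A0).add hd
  have h2 := (j2_const (1 : ℝ)).add hu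
  have h3 := (j2_const (1 : ℝ)).sub (hd.const_mul jk)
  have h4 := h1.mul ((j2_const (ka * nu)).sub (h2.mul h2))
  have h5 := h3.mul ((j2_const (kb * Z)).sub (h2.const_mul B0))
  have h6 := ((h4.mul hT).add (h5.mul hM)).const_mul c⁻¹
  refine (h6.congr (Eventually.of_forall fun τ => ?_)).of_eq (by ring) (by ring) (by ring)
  ring

theorem wloop_step {k : ℕ} {p : Pre} {Φ : List ℝ → Prop}
    {t0 t1 t2 t3 t4 t5 m0 m1 m2 m3 m4 m5 y0 y1 y2 y3 y4 y5 h0 h1 h2 h3 h4 h5 A0 B0 Z nu jk al a s1 : ℝ}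
    (ka kb c e : ℝ) (ea : ka = ((k * k : ℕ) : ℝ)) (eb : kb = (((k - 1) * (k - 2) : ℕ) : ℝ))
    (ec : c = (((k + 1) * (k + 2) : ℕ) : ℝ)) (ee : e = ((k + 2 : ℕ) : ℝ)) (n0 n1 n2 n3 n4 n5 : ℝ)
    (q0 : n0 = c⁻¹ * ((ka * nu - 1) * (A0 * t0) + (kb * Z - B0) * m0))
    (q1 : n1 = c⁻¹ * ((ka * nu - 1) * (A0 * t1 + t0) + ((kb * Z - B0) * m1 - jk * ((kb * Z - B0) * m0))))
    (q2 : n2 = c⁻¹ * ((ka * nu - 1) * (A0 * t2) - 2 * (A0 * t0) + ((kb * Z - B0) * m2 - B0 * m0)))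
    (q3 : n3 = c⁻¹ * ((ka * nu - 1) * (A0 * t3 + t1) + ((kb * Z - B0) * m3 - jk * ((kb * Z - B0) * m1))))
    (q4 : n4 = c⁻¹ * ((ka * nu - 1) * (A0 * t4 + t2) - 2 * (A0 * t1 + t0) +
      ((kb * Z - B0) * m4 - B0 * m1 - jk * ((kb * Z - B0) * m2 - B0 * m0))))
    (q5 : n5 = c⁻¹ * ((ka * nu - 1) * (A0 * t5) - 2 * (A0 * t2) - A0 * t0 + ((kb * Z - B0) * m5 - B0 * m2)))
    (h : (p3Step k p).holds Φ (t0 :: t1 :: t2 :: t3 :: t4 :: t5 :: m0 :: m1 :: m2 :: m3 :: m4 :: m5 ::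
      y0 :: y1 :: y2 :: y3 :: y4 :: y5 :: h0 :: h1 :: h2 :: h3 :: h4 :: h5 :: A0 :: B0 :: Z :: nu :: jk :: al :: a :: s1 :: [])) :
    p.holds Φ (n0 :: n1 :: n2 :: n3 :: n4 :: n5 :: t0 :: t1 :: t2 :: t3 :: t4 :: t5 ::
      (y0 + 1 * n0) :: (y1 + 1 * n1) :: (y2 + 1 * n2) :: (y3 + 1 * n3) :: (y4 + 1 * n4) :: (y5 + 1 * n5) ::
      (h0 + e * n0) :: (h1 + e * n1) :: (h2 + e * n2) :: (h3 + e * n3) :: (h4 + e * n4) :: (h5 + e * n5) ::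
      A0 :: B0 :: Z :: nu :: jk :: al :: a :: s1 :: []) := by
  simp only [p3Step, Pre.holds, E.val, List.getD_cons_succ, List.getD_cons_zero, List.map,
    Nat.mul_eq, Nat.add_eq, Nat.sub_eq, ← ea, ← eb, ← ec, ← ee, Nat.cast_one, Nat.cast_ofNat,
    div_one, one_div] at h
  exact h _ rfl _ rfl _ rfl _ rfl _ rfl _ rfl _ rfl _ rfl n0 q0 n1 q1 n2 q2 n3 q3 n4 q4 n5 q5
    _ (by ring) _ (by ring) _ (by ring) _ (by ring) _ (by ring) _ (by ring)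
    _ rfl _ rfl _ rfl _ rfl _ rfl _ rfl

/-- the state of the loop represents the terms and the sums of index `i` -/
def wloopI (A0 B0 Z nu jk : ℝ) (k0 i : ℕ)
    (t0 t1 t2 t3 t4 t5 m0 m1 m2 m3 m4 m5 y0 y1 y2 y3 y4 y5 h0 h1 h2 h3 h4 h5 : ℝ) : Prop :=
  ∀ (d1 d2 sg : ℝ) (d υ : ℝ → ℝ), J2 d 0 d1 d2 → J2 υ 0 sg 0 →
    wloopJ d1 d2 sg (fun τ => (tco ((A0 + d τ) * (1 + υ τ) ^ 2) (B0 * (1 + υ τ) * (1 - jk * d τ))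
      (Z * (1 - jk * d τ)) (nu * (A0 + d τ)) k0 i).1) t0 t1 t2 t3 t4 t5 ∧
    wloopJ d1 d2 sg (fun τ => (tco ((A0 + d τ) * (1 + υ τ) ^ 2) (B0 * (1 + υ τ) * (1 - jk * d τ))
      (Z * (1 - jk * d τ)) (nu * (A0 + d τ)) k0 i).2) m0 m1 m2 m3 m4 m5 ∧
    wloopJ d1 d2 sg (fun τ => ∑ n ∈ Finset.range (i + 1), (tco ((A0 + d τ) * (1 + υ τ) ^ 2) (B0 * (1 + υ τ) * (1 - jk * d τ))
      (Z * (1 - jk * d τ)) (nu * (A0 + d τ)) k0 n).1) y0 y1 y2 y3 y4 y5 ∧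
    wloopJ d1 d2 sg (fun τ => ∑ n ∈ Finset.range (i + 1), ((k0 + 2 * n : ℕ) : ℝ) *
      (tco ((A0 + d τ) * (1 + υ τ) ^ 2) (B0 * (1 + υ τ) * (1 - jk * d τ))
      (Z * (1 - jk * d τ)) (nu * (A0 + d τ)) k0 n).1) h0 h1 h2 h3 h4 h5

theorem wloop_loop {Φ : List ℝ → Prop} {A0 B0 Z nu jk al a s1 : ℝ} {k0 : ℕ} (n : ℕ) :
    ∀ (i : ℕ) (t0 t1 t2 t3 t4 t5 m0 m1 m2 m3 m4 m5 y0 y1 y2 y3 y4 y5 h0 h1 h2 h3 h4 h5 : ℝ),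
      wloopI A0 B0 Z nu jk k0 i t0 t1 t2 t3 t4 t5 m0 m1 m2 m3 m4 m5 y0 y1 y2 y3 y4 y5 h0 h1 h2 h3 h4 h5 →
      (p3Loop n (k0 + 2 * i)).holds Φ (t0 :: t1 :: t2 :: t3 :: t4 :: t5 :: m0 :: m1 :: m2 :: m3 :: m4 :: m5 ::
        y0 :: y1 :: y2 :: y3 :: y4 :: y5 :: h0 :: h1 :: h2 :: h3 :: h4 :: h5 :: A0 :: B0 :: Z :: nu :: jk :: al :: a :: s1 :: []) →
      ∃ t0 t1 t2 t3 t4 t5 m0 m1 m2 m3 m4 m5 y0 y1 y2 y3 y4 y5 h0 h1 h2 h3 h4 h5 : ℝ,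
        wloopI A0 B0 Z nu jk k0 (i + n) t0 t1 t2 t3 t4 t5 m0 m1 m2 m3 m4 m5 y0 y1 y2 y3 y4 y5 h0 h1 h2 h3 h4 h5 ∧
        Φ (t0 :: t1 :: t2 :: t3 :: t4 :: t5 :: m0 :: m1 :: m2 :: m3 :: m4 :: m5 ::
          y0 :: y1 :: y2 :: y3 :: y4 :: y5 :: h0 :: h1 :: h2 :: h3 :: h4 :: h5 :: A0 :: B0 :: Z :: nu :: jk :: al :: a :: s1 :: []) := by
  induction n with
  | zero =>
    intro i t0 t1 t2 t3 t4 t5 m0 m1 m2 m3 m4 m5 y0 y1 y2 y3 y4 y5 h0 h1 h2 h3 h4 h5 hI h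
    exact ⟨_, _, _, _, _, _, _, _, _, _, _, _, _, _, _, _, _, _, _, _, _, _, _, _, hI, h⟩
  | succ n ih =>
    intro i t0 t1 t2 t3 t4 t5 m0 m1 m2 m3 m4 m5 y0 y1 y2 y3 y4 y5 h0 h1 h2 h3 h4 h5 hI h
    have h' : (p3Step (k0 + 2 * i) (p3Loop n (k0 + 2 * (i + 1)))).holds Φ _ := h
    have h2 := wloop_step _ _ _ _ rfl rfl rfl rfl _ _ _ _ _ _ rfl rfl rfl rfl rfl rfl h'
    rw [show i + (n + 1) = i + 1 + n by ring]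
    refine ih (i + 1) _ _ _ _ _ _ _ _ _ _ _ _ _ _ _ _ _ _ _ _ _ _ _ _ (fun d1 d2 sg d υ hd hu => ?_) h2
    obtain ⟨a1, a2, a3, a4⟩ := hI d1 d2 sg d υ hd hu
    have b1 := wloop_new A0 B0 Z nu jk (((k0 + 2 * i) * (k0 + 2 * i) : ℕ) : ℝ)
      (((k0 + 2 * i - 1) * (k0 + 2 * i - 2) : ℕ) : ℝ) (((k0 + 2 * i + 1) * (k0 + 2 * i + 2) : ℕ) : ℝ)
      hd hu a1 a2
    refine ⟨b1, a1, ?_, ?_⟩
    · refine J2.congr (wloop_add 1 a3 b1) (Eventually.of_forall fun τ => ?_)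
      beta_reduce
      rw [Finset.sum_range_succ _ (i + 1), one_mul]
      rfl
    · refine J2.congr (wloop_add ((k0 + 2 * i + 2 : ℕ) : ℝ) a4 b1) (Eventually.of_forall fun τ => ?_)
      beta_reduce
      rw [Finset.sum_range_succ _ (i + 1)]
      rfl

theorem p3_loop {k0 : ℕ} {p : Pre} (hk : (k0 = 0 ∧ p = p3Pre0) ∨ (k0 = 1 ∧ p = p3Pre1))
    {Φ : List ℝ → Prop} {al xx a s1 A0 B0 Z nu jk : ℝ} (h : p.holds Φ [xx, al])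
    (ea : a = al ^ 2) (es : s1 = 10 - 2 * a) (eZ : Z = (10 / 999 * (xx * s1)) ^ 2)
    (eA : A0 = s1 * a) (eB : B0 = 1 / 4 * s1 ^ 2) (n0 : 0 ≤ nu) (n1 : nu ≤ 13 / 20000000)
    (j0 : 0 ≤ jk) (j1 : jk ≤ 13 / 1000000) :
    ∃ t0 t1 t2 t3 t4 t5 m0 m1 m2 m3 m4 m5 y0 y1 y2 y3 y4 y5 h0 h1 h2 h3 h4 h5 : ℝ,
      Φ (t0 :: t1 :: t2 :: t3 :: t4 :: t5 :: m0 :: m1 :: m2 :: m3 :: m4 :: m5 :: y0 :: y1 :: y2 :: y3 :: y4 :: y5 ::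
        h0 :: h1 :: h2 :: h3 :: h4 :: h5 :: A0 :: B0 :: Z :: nu :: jk :: al :: a :: s1 :: []) ∧
      ∀ (d1 d2 sg : ℝ) (d υ : ℝ → ℝ), J2 d 0 d1 d2 → J2 υ 0 sg 0 →
        J2 (fun τ => yN ((A0 + d τ) * (1 + υ τ) ^ 2) (B0 * (1 + υ τ) * (1 - jk * d τ))
            (Z * (1 - jk * d τ)) (nu * (A0 + d τ)) k0)
          y0 (y1 * d1 + y2 * sg) (y1 * d2 + y3 * d1 ^ 2 + y4 * (d1 * sg) + y5 * sg ^ 2) ∧
        J2 (fun τ => hN ((A0 + d τ) * (1 + υ τ) ^ 2) (B0 * (1 + υ τ) * (1 - jk * d τ))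
            (Z * (1 - jk * d τ)) (nu * (A0 + d τ)) k0)
          h0 (h1 * d1 + h2 * sg) (h1 * d2 + h3 * d1 ^ 2 + h4 * (d1 * sg) + h5 * sg ^ 2) := by
  have key : (p3Loop 15 (k0 + 2 * 0)).holds Φ ((1 : ℝ) :: 0 :: 0 :: 0 :: 0 :: 0 :: 0 :: 0 :: 0 :: 0 :: 0 :: 0 ::
      1 :: 0 :: 0 :: 0 :: 0 :: 0 :: (k0 : ℝ) :: 0 :: 0 :: 0 :: 0 :: 0 ::
      A0 :: B0 :: Z :: nu :: jk :: al :: a :: s1 :: []) := by
    rcases hk with ⟨rfl, rfl⟩ | ⟨rfl, rfl⟩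
    · simp only [p3Pre0, Pre.holds, E.val, List.getD_cons_succ, List.getD_cons_zero, List.map,
        Nat.cast_one, Nat.cast_ofNat, Nat.cast_zero, div_one, zero_div] at h
      rw [Nat.cast_zero]
      exact h a ea s1 es Z eZ A0 eA B0 eB nu n0 n1 jk j0 j1 0 rfl 1 rfl
    · simp only [p3Pre1, Pre.holds, E.val, List.getD_cons_succ, List.getD_cons_zero, List.map,
        Nat.cast_one, Nat.cast_ofNat, Nat.cast_zero, div_one, zero_div] at h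
      rw [Nat.cast_one]
      exact h a ea s1 es Z eZ A0 eA B0 eB nu n0 n1 jk j0 j1 0 rfl 1 rfl
  have init : wloopI A0 B0 Z nu jk k0 0 1 0 0 0 0 0 0 0 0 0 0 0 1 0 0 0 0 0 (k0 : ℝ) 0 0 0 0 0 := by
    intro d1 d2 sg d υ _ _
    refine ⟨wloop_const d1 d2 sg 1, wloop_const d1 d2 sg 0, ?_, ?_⟩
    · refine J2.congr (wloop_const d1 d2 sg 1) (Eventually.of_forall fun τ => ?_)
      simp [tco]
    · refine J2.congr (wloop_const d1 d2 sg k0) (Eventually.of_forall fun τ => ?_)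
      simp [tco]
  obtain ⟨t0, t1, t2, t3, t4, t5, m0, m1, m2, m3, m4, m5, y0, y1, y2, y3, y4, y5, h0, h1, h2, h3, h4, h5, hI, hΦ⟩ := wloop_loop 15 0 _ _ _ _ _ _ _ _ _ _ _ _ _ _ _ _ _ _ _ _ _ _ _ _ init key
  refine ⟨t0, t1, t2, t3, t4, t5, m0, m1, m2, m3, m4, m5, y0, y1, y2, y3, y4, y5, h0, h1, h2, h3, h4, h5, hΦ, fun d1 d2 sg d υ hd hu => ?_⟩
  exact (hI d1 d2 sg d υ hd hu).2.2

end Pool.Agent.HillD
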