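import Pool.Agent.P.MP_ae2765_an.WMain

/-! The two-jet of the main term along a curve tangent to second order. -/

namespace Pool.Agent.HillD
open Real Set Filter Topology Asymptotics

theorem wmain2_jj (x y : ℝ) : |jj x - jj y| ≤ |x - y| := by
  have hx : 0 < x ^ 2 + 2 := by positivity
  have hy : 0 < y ^ 2 + 2 := by positivity
  have e : jj x - jj y = (x - y) * (-(x + y) / ((x ^ 2 + 2) * (y ^ 2 + 2))) := by
    unfold jj
    field_simp
    ring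
  rw [e, abs_mul]
  refine mul_le_of_le_one_right (abs_nonneg _) ?_
  rw [abs_div, abs_of_pos (mul_pos hx hy), div_le_one (mul_pos hx hy), abs_le]
  constructor <;>
    nlinarith [sq_nonneg (x - 1), sq_nonneg (x + 1), sq_nonneg (y - 1), sq_nonneg (y + 1),
      mul_nonneg (sq_nonneg x) (sq_nonneg y)]

theorem wmain2_qr {ω j j' : ℝ} (hω : 0 < ω) (hj : 0 < j) (hj2 : j < 1 / 2) (hj' : 0 < j')
    (hj2' : j' < 1 / 2) (φ : ℝ) :
    |qr ω j φ - qr ω j' φ| ≤ (4 * ω + 4) / √j * |j - j'| := by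
  have hX0 : 0 ≤ cos φ ^ 2 := sq_nonneg _
  have hX1 : cos φ ^ 2 ≤ 1 := cos_sq_le_one φ
  unfold qr Pr Qr
  generalize cos φ ^ 2 = X at hX0 hX1
  have k0 : 0 ≤ (1 - 2 * j) * X := mul_nonneg (by linarith) hX0
  have k1 : (1 - 2 * j) * X ≤ 1 := by nlinarith
  have k0' : 0 ≤ (1 - 2 * j') * X := mul_nonneg (by linarith) hX0
  have hQ : 0 < 1 + (1 - 2 * j) * X := by linarith
  have hQ' : 0 < 1 + (1 - 2 * j') * X := by linarith
  have hωj := mul_pos hω hj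
  have hωj' := mul_pos hω hj'
  set u := 2 * ω * (ω * j + (1 - 2 * j) * X) / (1 + (1 - 2 * j) * X) with hu
  set v := 2 * ω * (ω * j' + (1 - 2 * j') * X) / (1 + (1 - 2 * j') * X) with hv
  have hv0 : 0 ≤ v := by positivity
  have hu1 : ω ^ 2 * j ≤ u := by
    rw [hu, le_div_iff₀ hQ]
    have h1 : ω ^ 2 * j * (1 + (1 - 2 * j) * X) ≤ ω ^ 2 * j * 2 :=
      mul_le_mul_of_nonneg_left (by linarith) (by positivity)
    nlinarith [mul_nonneg hω.le k0]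
  have hu0 : 0 ≤ u := le_trans (by positivity) hu1
  have hs : ω * √j ≤ √u := by
    have := Real.sqrt_le_sqrt hu1
    rwa [Real.sqrt_mul (sq_nonneg ω), Real.sqrt_sq hω.le] at this
  have hsj : 0 < √j := Real.sqrt_pos.2 hj
  have e : u - v = (j - j') * (2 * ω * (ω - 2 * X + ω * X) /
      ((1 + (1 - 2 * j) * X) * (1 + (1 - 2 * j') * X))) := by
    rw [hu, hv, div_sub_div _ _ hQ.ne' hQ'.ne', ← mul_div_assoc]
    congr 1
    ring
  have h1 : |u - v| ≤ |j - j'| * (ω * (4 * ω + 4)) := by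
    rw [e, abs_mul]
    refine mul_le_mul_of_nonneg_left ?_ (abs_nonneg _)
    rw [abs_div, abs_of_pos (mul_pos hQ hQ'), div_le_iff₀ (mul_pos hQ hQ')]
    have h2 : |2 * ω * (ω - 2 * X + ω * X)| ≤ ω * (4 * ω + 4) := by
      have a1 : 0 ≤ ω * X := mul_nonneg hω.le hX0
      have a2 : ω * X ≤ ω := by nlinarith
      rw [abs_le]
      constructor <;> nlinarith
    have h3 : 1 ≤ (1 + (1 - 2 * j) * X) * (1 + (1 - 2 * j') * X) := by nlinarith
    exact h2.trans (le_mul_of_one_le_right (by positivity) h3)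
  have h2 : |√u - √v| * (√u + √v) = |u - v| := by
    have a : 0 ≤ √u + √v := by positivity
    rw [← abs_of_nonneg a, ← abs_mul]
    congr 1
    have b1 := Real.mul_self_sqrt hu0
    have b2 := Real.mul_self_sqrt hv0
    linear_combination b1 - b2
  have h3 : |√u - √v| * (ω * √j) ≤ |j - j'| * (ω * (4 * ω + 4)) := by
    refine le_trans ?_ (h2.le.trans h1)
    exact mul_le_mul_of_nonneg_left (by linarith [Real.sqrt_nonneg v]) (abs_nonneg _)
  rw [div_mul_eq_mul_div, le_div_iff₀ hsj]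
  have h4 : ω * (|√u - √v| * √j) ≤ ω * ((4 * ω + 4) * |j - j'|) := by linarith
  exact le_of_mul_le_mul_left h4 hω

theorem wmain2_Mn {ω j j' : ℝ} (hω : 0 < ω) (hj : 0 < j) (hj2 : j < 1 / 2) (hj' : 0 < j')
    (hj2' : j' < 1 / 2) (φ1 : ℝ) :
    ‖Mn φ1 ω j - Mn φ1 ω j'‖ ≤ (4 * ω + 4) / √j * |j - j'| * |φ1| := by
  unfold Mn
  rw [← intervalIntegral.integral_sub ((qr_cont hω hj hj2).1.intervalIntegrable _ _)
    ((qr_cont hω hj' hj2').1.intervalIntegrable _ _)]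
  have := intervalIntegral.norm_integral_le_of_norm_le_const (a := 0) (b := φ1)
    (f := fun φ => qr ω j φ - qr ω j' φ) (C := (4 * ω + 4) / √j * |j - j'|)
    fun φ _ => wmain2_qr hω hj hj2 hj' hj2' φ
  rwa [sub_zero] at this

theorem main_jet2 {δ0 ω0 φ1 lam : ℝ} {δ : ℝ → ℝ} (hδ : 0 < δ0) (hω : 0 < ω0) (s : ℝ)
    (hJ : J2 δ δ0 (δ0 * lam) 0) :
    J2 (fun τ => Mn φ1 (ω0 * (1 + s * lam * τ)) (jj (δ τ))) (Mn φ1 ω0 (jj δ0))
      (lam * F1 φ1 ω0 (jj δ0) s) (lam ^ 2 * F2 φ1 ω0 (jj δ0) s) := by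
  have h1 := ((main_jet3 (φ1 := φ1) hδ hω s).j2.scale lam).of_eq rfl (mul_comm _ _) (mul_comm _ _)
  refine J2.of_sub h1 ?_
  have c1 : ContinuousAt (fun τ : ℝ => δ0 * (1 + lam * τ)) 0 := by fun_prop
  have c2 : ContinuousAt (fun τ : ℝ => ω0 * (1 + s * lam * τ)) 0 := by fun_prop
  have e1 : ∀ᶠ τ : ℝ in 𝓝 0, 0 < δ0 * (1 + lam * τ) :=
    c1.eventually (lt_mem_nhds (by simpa using hδ))
  have e2 : ∀ᶠ τ : ℝ in 𝓝 0, 0 < ω0 * (1 + s * lam * τ) :=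
    c2.eventually (lt_mem_nhds (by simpa using hω))
  have e3 : ∀ᶠ τ : ℝ in 𝓝 0, 0 < δ τ :=
    hJ.cont.eventually (lt_mem_nhds (by rw [hJ.val]; exact hδ))
  have c3 : ContinuousAt (fun τ : ℝ =>
      (4 * (ω0 * (1 + s * lam * τ)) + 4) / √(jj (δ0 * (1 + lam * τ))) * |φ1|) 0 := by
    refine ContinuousAt.mul (ContinuousAt.div (by fun_prop) ?_ ?_) continuousAt_const
    · refine Real.continuous_sqrt.continuousAt.comp ?_
      unfold jj
      exact ContinuousAt.div continuousAt_const (by fun_prop) (by positivity)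
    · refine (Real.sqrt_pos.2 ?_).ne'
      unfold jj
      positivity
  have b1 := c3.tendsto.isBigO_one ℝ
  have b2 : (fun τ : ℝ => δ τ - δ0 * (1 + lam * τ)) =O[𝓝 0] fun τ : ℝ => τ ^ 3 := by
    refine IsBigO.congr_left hJ fun τ => ?_
    simp only [RCLike.ofReal_real_eq_id, id]
    ring
  have b3 := (b1.mul b2).congr_right fun τ => one_mul _
  refine IsBigO.trans (IsBigO.of_bound 1 ?_) b3
  filter_upwards [e1, e2, e3] with τ a1 a2 a3
  have h2 := wmain2_Mn a2 (jj_bd a1).1 (jj_bd a1).2 (jj_bd a3).1 (jj_bd a3).2 φ1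
  have h3 := wmain2_jj (δ0 * (1 + lam * τ)) (δ τ)
  have h4 : 0 ≤ (4 * (ω0 * (1 + s * lam * τ)) + 4) / √(jj (δ0 * (1 + lam * τ))) := by positivity
  have e : s * (lam * τ) = s * lam * τ := by ring
  rw [e, norm_sub_rev, one_mul, norm_mul, Real.norm_eq_abs (δ τ - _), abs_sub_comm (δ τ),
    Real.norm_of_nonneg (mul_nonneg h4 (abs_nonneg _))]
  refine h2.trans ?_
  rw [mul_right_comm]
  exact mul_le_mul_of_nonneg_left h3 (mul_nonneg h4 (abs_nonneg _))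

/-- the curve in `δ` that belongs to the quadratic curve in `j` -/
theorem cJ_curve {δ0 : ℝ} (hδ : 0 < δ0) (lam : ℝ) : ∃ δ : ℝ → ℝ, J2 δ δ0 (δ0 * lam) 0 ∧
    ∀ᶠ τ : ℝ in 𝓝 0, 0 < δ τ ∧ cJ (jj δ0) lam τ = (jj (δ τ) : ℝ) := by
  obtain ⟨hj, hj2⟩ := jj_bd hδ
  have hD : 0 < δ0 ^ 2 + 2 := by positivity
  set p : ℝ → ℝ := fun τ => jj δ0 + -(2 * (1 - 2 * jj δ0) * lam * jj δ0) * τ +
    (4 * (1 - 2 * jj δ0) ^ 2 - (1 - 2 * jj δ0)) * lam ^ 2 * jj δ0 * τ ^ 2 with hp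
  have h1 : J2 p (jj δ0) (-(2 * (1 - 2 * jj δ0) * lam * jj δ0))
      ((4 * (1 - 2 * jj δ0) ^ 2 - (1 - 2 * jj δ0)) * lam ^ 2 * jj δ0) := j2_poly _ _ _
  have h2 : J2 (fun τ => (p τ)⁻¹ - 2) (δ0 ^ 2) (2 * δ0 ^ 2 * lam) (δ0 ^ 2 * lam ^ 2) := by
    refine ((h1.inv hj.ne').sub (j2_const 2)).of_eq ?_ ?_ ?_
    · unfold jj; field_simp; ring
    · unfold jj; field_simp; ring
    · unfold jj; field_simp; ring
  have h3 : JT (fun τ => (p τ)⁻¹ - 2) (δ0 ^ 2, 2 * δ0 ^ 2 * lam, δ0 ^ 2 * lam ^ 2) := h2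
  have h4 : J2 _ _ _ _ := h3.sqrt (by positivity)
  refine ⟨fun τ => √((p τ)⁻¹ - 2), h4.of_eq ?_ ?_ ?_, ?_⟩
  · simp only [jsqrt, Real.sqrt_sq hδ.le]
  · simp only [jsqrt, Real.sqrt_sq hδ.le]; field_simp
  · simp only [jsqrt, Real.sqrt_sq hδ.le]; field_simp; ring
  · have e1 : ∀ᶠ τ : ℝ in 𝓝 0, 0 < (p τ)⁻¹ - 2 :=
      h2.cont.eventually (lt_mem_nhds (lt_of_lt_of_eq (by positivity) h2.val.symm))
    filter_upwards [e1] with τ a1
    refine ⟨Real.sqrt_pos.2 a1, ?_⟩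
    have e : jj √((p τ)⁻¹ - 2) = p τ := by
      unfold jj
      rw [Real.sq_sqrt a1.le, sub_add_cancel, one_div, inv_inv]
    rw [e, hp]
    unfold cJ
    push_cast
    ring

end Pool.Agent.HillD
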