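import Pool.Agent.P.MP_ae2765_an.WDef
import Pool.Agent.P.MP_ae2765_an.Real

/-! Third region: the numerical criterion. -/

namespace Pool.Agent.HillD
open Real Set Filter Topology Asymptotics Pool.Agent.HillD.Num Pool.Agent.P.MP_4c4e6e_co.Eng

theorem p3_num {t0 t1 t2 t3 t4 t5 m0 m1 m2 m3 m4 m5 y0 y1 y2 y3 y4 y5 h0 h1 h2 h3 h4 h5 : ℝ}
    {al a s1 ka χ : ℝ} {tl : List ℝ} (D : P3D) (ea : a = al ^ 2) (es : s1 = 10 - 2 * a)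
    (k0 : 4999 / 5000 ≤ ka) (k1 : ka ≤ 1) (e1 : D.d1 = -(2 * (s1 * ka * al * χ)))
    (e2 : D.d2 = s1 * (4 * ka ^ 2 - ka) * χ ^ 2)
    (hc : (χ = 1 ∧ 0 ≤ D.sg ∧ pPA.holds (D.sg :: t0 :: t1 :: t2 :: t3 :: t4 :: t5 :: m0 :: m1 :: m2 ::
        m3 :: m4 :: m5 :: y0 :: y1 :: y2 :: y3 :: y4 :: y5 :: h0 :: h1 :: h2 :: h3 :: h4 :: h5 ::
        D.A0 :: D.B0 :: D.Z :: D.nu :: D.jk :: al :: a :: s1 :: tl)) ∨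
      (D.sg = 3 / 5 ∧ pPB.holds (χ :: t0 :: t1 :: t2 :: t3 :: t4 :: t5 :: m0 :: m1 :: m2 ::
        m3 :: m4 :: m5 :: y0 :: y1 :: y2 :: y3 :: y4 :: y5 :: h0 :: h1 :: h2 :: h3 :: h4 :: h5 ::
        D.A0 :: D.B0 :: D.Z :: D.nu :: D.jk :: al :: a :: s1 :: tl)))
    (Y0 : |D.Y.1 - y0| ≤ 3 / 50000) (Y1 : |D.Y.2.1 - (y1 * D.d1 + y2 * D.sg)| ≤ 4 * (3 / 50000))
    (Y2 : |D.Y.2.2 - (y1 * D.d2 + y3 * D.d1 ^ 2 + y4 * (D.d1 * D.sg) + y5 * D.sg ^ 2)| ≤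
      16 * (3 / 50000))
    (H0 : |D.H.1 - h0| ≤ 1 / 500) (H1 : |D.H.2.1 - (h1 * D.d1 + h2 * D.sg)| ≤ 4 * (1 / 500))
    (H2 : |D.H.2.2 - (h1 * D.d2 + h3 * D.d1 ^ 2 + h4 * (D.d1 * D.sg) + h5 * D.sg ^ 2)| ≤
      16 * (1 / 500)) :
    0 < nrm0 D.Mr D.Mi ∧ p3b al D.AA.1 < 9 / 100 ∧
      ∀ G1 G2 x1 x2 dl : ℝ, 0 ≤ dl → dl ≤ 2 →
        |x1| ≤ 4 * (p3N al D.AA.1 / (2 * (49 / 50) ^ 2) + p3T al D.AA.1) +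
          eA1 (p3b al D.AA.1) (l1i D.Mr D.Mi) →
        |x2| ≤ 16 * (p3N al D.AA.1 / (2 * (49 / 50) ^ 2) + p3T al D.AA.1) +
          eA2 (p3b al D.AA.1) (l1i D.Mr D.Mi) →
        (0 < D.sg - χ * p3rho al → 32967 / 1000 * (D.sg - χ * p3rho al) ≤ 2 * G1) →
        (χ = 1 → 0 < p3cc (D.sg * al) D.AA.1 →
          p3cc (D.sg * al) D.AA.1 * pade (p3y al) - D.sg / 2 * G1 ≤ 2 * G2) →
        G1 + (l1i D.Mr D.Mi + 1 / 4 * D.Tb.2.1) + x1 = 0 →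
        G2 + (l2i D.Mr D.Mi * (1 + 11 / 10 * ((dl - 1) * p3b al D.AA.1)) + 1 / 4 * D.Tb.2.2) + x2 ≠
          0 := by
  have hb : p3b al D.AA.1 = 50 / 49 * (1 / 16 * (p3v al ^ 2 * (16 / 5 + 5 / 2 *
      (D.AA.1 ^ 2 * D.AA.1))) + 1 / 1250) := by unfold p3b; ring
  have hn : p3N al D.AA.1 / (2 * (49 / 50) ^ 2) = 1250 / 2401 * (√(31 / 2500 * (p3v al ^ 2 * p3v al *
      (33 / 2 + 23 * (D.AA.1 ^ 2 * D.AA.1)))) + 9 / 1000) ^ 2 := by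
    unfold p3N
    rw [show p3v al ^ 2 * p3v al = p3v al ^ 3 by ring, show D.AA.1 ^ 2 * D.AA.1 = D.AA.1 ^ 3 by ring]
    ring
  have hv : p3v al = (23 / 25 * (1 / 2 * a - 1 / 2 * al + 57 / 25))⁻¹ := by rw [ea]; rfl
  have hr : p3rho al = 1001 / 2500 * (√(1 + 40 / 999 * a) + 1001 / 5000 * al)⁻¹ := by rw [ea]; rfl
  obtain ⟨Y0a, Y0b⟩ := abs_le.1 Y0
  obtain ⟨Y1a, Y1b⟩ := abs_le.1 Y1
  obtain ⟨Y2a, Y2b⟩ := abs_le.1 Y2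
  obtain ⟨H0a, H0b⟩ := abs_le.1 H0
  obtain ⟨H1a, H1b⟩ := abs_le.1 H1
  obtain ⟨H2a, H2b⟩ := abs_le.1 H2
  rcases hc with ⟨hχ, hsg, hc⟩ | ⟨hsg, hc⟩
  · subst hχ
    have H := pPA_real hc ka k0 (by linarith) D.sg rfl D.d1 (by rw [e1]; ring) D.d2 (by rw [e2]; ring)
      _ rfl _ rfl _ rfl
      ((D.Y.1 - y0) * (50000 / 3) + 1) (by linarith) (by linarith)
      ((D.Y.2.1 - (y1 * D.d1 + y2 * D.sg)) * (12500 / 3) + 1) (by linarith) (by linarith)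
      ((D.Y.2.2 - (y1 * D.d2 + y3 * D.d1 ^ 2 + y4 * (D.d1 * D.sg) + y5 * D.sg ^ 2)) * (3125 / 3) + 1)
      (by linarith) (by linarith)
      D.Y.1 (by ring) D.Y.2.1 (by ring) D.Y.2.2 (by ring)
      ((D.H.1 - h0) * 500 + 1) (by linarith) (by linarith)
      ((D.H.2.1 - (h1 * D.d1 + h2 * D.sg)) * 125 + 1) (by linarith) (by linarith)
      ((D.H.2.2 - (h1 * D.d2 + h3 * D.d1 ^ 2 + h4 * (D.d1 * D.sg) + h5 * D.sg ^ 2)) * (125 / 4) + 1)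
      (by linarith) (by linarith)
      D.H.1 (by ring) D.H.2.1 (by ring) D.H.2.2 (by ring)
      D.Bj.2.1 rfl D.Sj.1 rfl D.Sj.2.1 rfl D.dn.1 rfl D.dn.2.1 rfl D.Bj.2.2 rfl D.Sj.2.2 rfl
      D.dn.2.2 rfl (jinv D.Sj).1 rfl (jinv D.Sj).2.1 rfl (jinv D.Sj).2.2 rfl
      D.AA.1 rfl D.AA.2.1 rfl D.AA.2.2 rfl
      (jinv D.dn).1 rfl (jinv D.dn).2.1 rfl (jinv D.dn).2.2 rfl
      (jmul D.Sj (jinv D.dn)).1 rfl (jmul D.Sj (jinv D.dn)).2.1 rfl (jmul D.Sj (jinv D.dn)).2.2 rfl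
      D.rj.1 rfl (jinv D.rj).1 rfl D.rj.2.1 rfl D.rj.2.2 rfl
      D.Mi.1 rfl D.Mi.2.1 rfl D.Mi.2.2 rfl
      (jmul D.AA D.Y).1 rfl (jmul D.AA D.Y).2.1 rfl (jmul D.AA D.Y).2.2 rfl
      D.Mr.1 rfl D.Mr.2.1 rfl D.Mr.2.2 rfl
      (nrm0 D.Mr D.Mi) rfl _ rfl (l1i D.Mr D.Mi) rfl _ rfl (l2i D.Mr D.Mi) rfl
      (jinv D.rj).2.1 rfl (jinv D.rj).2.2 rfl D.Tb.1 rfl D.Tb.2.1 rfl D.Tb.2.2 rfl
      (p3v al) hv _ rfl (p3b al D.AA.1) hb _ hn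
      (p3N al D.AA.1 / (2 * (49 / 50) ^ 2) + p3T al D.AA.1) rfl _ rfl
      (4 * (p3N al D.AA.1 / (2 * (49 / 50) ^ 2) + p3T al D.AA.1) +
        eA1 (p3b al D.AA.1) (l1i D.Mr D.Mi)) (by unfold eA1; ring) _ rfl (p3rho al) hr _ rfl
    obtain ⟨c1, c2, c3⟩ := H
    refine ⟨c1, by linarith, fun G1 G2 x1 x2 dl d0 d2 hx1 hx2 g1 g2 g3 g4 => ?_⟩
    obtain ⟨a1, a2⟩ := abs_le.1 hx1
    obtain ⟨b1, b2⟩ := abs_le.1 hx2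
    rcases c3 with ⟨c3, c4⟩ | c3
    · have := g1 (by linarith)
      linarith
    · obtain ⟨c4, c5⟩ := c3 dl d0 d2
        (16 * (p3N al D.AA.1 / (2 * (49 / 50) ^ 2) + p3T al D.AA.1) +
          eA2 (p3b al D.AA.1) (l1i D.Mr D.Mi)) (by unfold eA2; ring) _ rfl _ rfl
        (p3y al) (by rw [es, ea]; rfl) (pade (p3y al)) rfl (p3cc (D.sg * al) D.AA.1) rfl
      have h6 := g2 rfl c4
      have h7 : G1 ≤ -(l1i D.Mr D.Mi + 1 / 4 * D.Tb.2.1 -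
          (4 * (p3N al D.AA.1 / (2 * (49 / 50) ^ 2) + p3T al D.AA.1) +
            eA1 (p3b al D.AA.1) (l1i D.Mr D.Mi))) := by linarith
      have h8 := mul_le_mul_of_nonneg_left h7 hsg
      linarith
  · have H := pPB_real hc ka k0 (by linarith) D.sg hsg D.d1 e1
      ((D.Y.1 - y0) * (50000 / 3) + 1) (by linarith) (by linarith)
      ((D.Y.2.1 - (y1 * D.d1 + y2 * D.sg)) * (12500 / 3) + 1) (by linarith) (by linarith)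
      D.Y.1 (by ring) D.Y.2.1 (by ring)
      ((D.H.1 - h0) * 500 + 1) (by linarith) (by linarith)
      ((D.H.2.1 - (h1 * D.d1 + h2 * D.sg)) * 125 + 1) (by linarith) (by linarith)
      D.H.1 (by ring) D.H.2.1 (by ring)
      D.Bj.2.1 rfl D.Sj.1 rfl D.Sj.2.1 rfl D.dn.1 rfl D.dn.2.1 rfl
      (jinv D.Sj).1 rfl (jinv D.Sj).2.1 rfl D.AA.1 rfl D.AA.2.1 rfl
      (jinv D.dn).1 rfl (jinv D.dn).2.1 rfl
      (jmul D.Sj (jinv D.dn)).1 rfl (jmul D.Sj (jinv D.dn)).2.1 rfl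
      D.rj.1 rfl (jinv D.rj).1 rfl D.rj.2.1 rfl D.Mi.1 rfl D.Mi.2.1 rfl
      (jmul D.AA D.Y).1 rfl (jmul D.AA D.Y).2.1 rfl D.Mr.1 rfl D.Mr.2.1 rfl
      (nrm0 D.Mr D.Mi) rfl _ rfl (l1i D.Mr D.Mi) rfl
      (jinv D.rj).2.1 rfl D.Tb.1 rfl D.Tb.2.1 rfl
      (p3v al) hv _ rfl (p3b al D.AA.1) hb _ hn
      (p3N al D.AA.1 / (2 * (49 / 50) ^ 2) + p3T al D.AA.1) rfl _ rfl
      (4 * (p3N al D.AA.1 / (2 * (49 / 50) ^ 2) + p3T al D.AA.1) +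
        eA1 (p3b al D.AA.1) (l1i D.Mr D.Mi)) (by unfold eA1; ring) _ rfl (p3rho al) hr _ rfl
    obtain ⟨c1, c2, c3, c4⟩ := H
    refine ⟨c1, by linarith, fun G1 G2 x1 x2 dl d0 d2 hx1 hx2 g1 g2 g3 g4 => ?_⟩
    obtain ⟨a1, a2⟩ := abs_le.1 hx1
    have := g1 c3
    linarith

end Pool.Agent.HillD
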