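import Pool.Agent.P.MP_ae2765_an.WP3p
import Pool.Agent.P.MP_ae2765_an.WO

/-! Third region: the main term. -/

namespace Pool.Agent.HillD
open Real Set Filter Topology Asymptotics

theorem wp3c_rho {al η : ℝ} (hal : 0 < al) (h0 : 0 ≤ η) (h1 : η ^ 2 ≤ 10 / 999) :
    2 * (2 * al * η) ≤ al * p3rho al * (√(1 + (2 * al * η) ^ 2) + 2 * al * η) := by
  have h2 : η ≤ 1001 / 10000 := by nlinarith
  have h3 : η * √(1 + 40 / 999 * al ^ 2) ≤ 1001 / 10000 * √(1 + (2 * al * η) ^ 2) := by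
    refine (pow_le_pow_iff_left₀ (by positivity) (by positivity) two_ne_zero).1 ?_
    rw [mul_pow, mul_pow, Real.sq_sqrt (by positivity), Real.sq_sqrt (by positivity)]
    nlinarith [mul_nonneg (sq_nonneg al) (sq_nonneg η)]
  have h4 : 0 < √(1 + 40 / 999 * al ^ 2) + 1001 / 5000 * al := by positivity
  unfold p3rho
  rw [show al * (1001 / 2500 * (√(1 + 40 / 999 * al ^ 2) + 1001 / 5000 * al)⁻¹) *
      (√(1 + (2 * al * η) ^ 2) + 2 * al * η) = al * (1001 / 2500 *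
      (√(1 + (2 * al * η) ^ 2) + 2 * al * η)) / (√(1 + 40 / 999 * al ^ 2) + 1001 / 5000 * al) by
    rw [div_eq_mul_inv]; ring, le_div_iff₀ h4]
  nlinarith [mul_le_mul_of_nonneg_left h3 hal.le]

theorem wp3c_first {M O r β s A F c : ℝ} (hr : 1 ≤ r) (hβ : 0 ≤ β) (hO : O * r ≤ β * M)
    (hA : 2 * β ≤ A * (r + β)) (hs : s ≤ 1) (hsA : 0 < s - A) (hc0 : 0 ≤ c) (hc : c ≤ M)
    (hF : s / 2 * (M + O) - O ≤ F) : c * (s - A) ≤ 2 * F := by
  have hM : 0 ≤ M := hc0.trans hc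
  have h1 : (2 - s) * (O * r) ≤ (2 - s) * (β * M) := mul_le_mul_of_nonneg_left hO (by linarith)
  have h2 : M * (2 * β) ≤ M * (A * (r + β)) := mul_le_mul_of_nonneg_left hA hM
  have h3 : 0 ≤ M * β * (s - A) := by positivity
  have h4 : r * (M * (s - A)) ≤ r * (s * M - (2 - s) * O) := by nlinarith
  have h5 := le_of_mul_le_mul_left h4 (by linarith)
  nlinarith [mul_le_mul_of_nonneg_right hc hsA.le]

theorem p3_main {δ0 ω0 j0 al s1 x1 χ sg s φ1 B : ℝ}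
    (hδ : 0 < δ0) (hω : 1250 ≤ ω0) (ej : j0 = jj δ0) (hal : 0 < al) (ea : al ^ 2 = aa ω0 j0)
    (ha : al ^ 2 ≤ 5 / 2) (es : s1 = 10 - 2 * al ^ 2)
    (ex : x1 = s1 / (2 * √(2 * ω0 * (1 - 2 * j0))))
    (hχ0 : 0 ≤ χ) (hs0 : 0 ≤ s) (hs1 : s ≤ 1) (hsg : sg = s * (χ / al)) (h0 : 0 ≤ φ1)
    (h1 : φ1 ≤ π / 2) (hφ : cos φ1 ^ 2 = x1)
    (hB : B = 1 / 4 * s1 ^ 2 * (s1 * al ^ 2 + 1 / 4 * s1 ^ 2)⁻¹) :
    (0 < sg - χ * p3rho al →
        32967 / 1000 * (sg - χ * p3rho al) ≤ 2 * (χ / al * F1 φ1 ω0 j0 s)) ∧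
      (χ = 1 → 0 < p3cc (sg * al) B → p3cc (sg * al) B * pade (p3y al) -
        sg / 2 * (χ / al * F1 φ1 ω0 j0 s) ≤ 2 * ((χ / al) ^ 2 * F2 φ1 ω0 j0 s)) := by
  obtain ⟨-, hκ, hX, hx0, hx1, -, -, hb, -⟩ := p3_par hδ hω ej hal ea ha es ex
  obtain ⟨hj, hj2⟩ := jj_bd hδ
  rw [← ej] at hj hj2
  have hω0 : 0 < ω0 := by linarith
  have hκ0 : 0 < 1 - 2 * j0 := by linarith
  generalize 2 * √(2 * ω0 * (1 - 2 * j0)) = XD at hX hb ex
  have hX0 : 0 < XD := by linarith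
  obtain ⟨η, hη0, hη⟩ : ∃ η : ℝ, 0 ≤ η ∧ η ^ 2 = XD⁻¹ :=
    ⟨√XD⁻¹, Real.sqrt_nonneg _, Real.sq_sqrt (by positivity)⟩
  have hη1 : η ^ 2 ≤ 10 / 999 := by
    rw [hη, inv_le_comm₀ hX0 (by norm_num)]
    linarith
  have hη2 : η ≤ 1001 / 10000 :=
    (pow_le_pow_iff_left₀ hη0 (by norm_num) two_ne_zero).1 (hη1.trans (by norm_num))
  have hβ : (2 * al * η) ^ 2 = ω0 * j0 / (1 - 2 * j0) := by
    rw [hb, mul_pow, hη, div_eq_mul_inv]; ring
  have hx : x1 = s1 * η ^ 2 := by rw [ex, hη, div_eq_mul_inv]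
  have hwj : ω0 * j0 = (1 - 2 * j0) * (4 * al ^ 2 * η ^ 2) := by
    have := (div_eq_iff hκ0.ne').1 hβ.symm
    rw [this]; ring
  have ht : ω0 * j0 ≤ 1 := by
    have h2 : 4 * al ^ 2 * η ^ 2 ≤ 1 := by
      linarith [mul_le_mul ha hη1 (sq_nonneg η) (by norm_num)]
    rw [hwj]
    exact mul_le_one₀ (by linarith) (by positivity) h2
  obtain ⟨hO0, hF1, hF2⟩ := O_F hω0 hj hj2 ht h0 h1 hs0 hs1
  constructor
  · intro hpos
    have e1 : sg - χ * p3rho al = χ / al * (s - al * p3rho al) := by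
      rw [hsg]; field_simp
    rw [e1] at hpos ⊢
    have hq : 0 ≤ χ / al := by positivity
    have hsA : 0 < s - al * p3rho al := pos_of_mul_pos_left (by rwa [mul_comm] at hpos) hq
    have hM : 32967 / 1000 ≤ Mn φ1 ω0 j0 := by
      refine le_trans ?_ (O_low0 hω0 hj hj2 h0 h1)
      have a1 : 353 / 10 ≤ √(ω0 * (1 - 2 * j0)) := Real.le_sqrt_of_sq_le (by
        linarith [mul_le_mul hω hκ (by norm_num) hω0.le])
      have a2 : 9485 / 10000 ≤ sin φ1 := by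
        refine (pow_le_pow_iff_left₀ (by norm_num)
          (sin_nonneg_of_nonneg_of_le_pi h0 (by linarith [pi_pos])) two_ne_zero).1 ?_
        linarith [sin_sq_add_cos_sq φ1]
      linarith [mul_le_mul a1 a2 (by norm_num) (Real.sqrt_nonneg _)]
    have := wp3c_first (Real.one_le_sqrt.2 (le_add_of_nonneg_right (sq_nonneg (2 * al * η))))
      (by positivity) (O_ratio hω0 hj hj2 ht h0 h1 (by positivity) hβ) (wp3c_rho hal hη0 hη1) hs1
      hsA (by norm_num) hM hF1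
    linarith [mul_le_mul_of_nonneg_left this hq]
  · rintro rfl hcc
    have e1 : sg * al = s := by rw [hsg]; field_simp
    rw [e1] at hcc ⊢
    have hs10 : 0 < s1 := by rw [es]; linarith
    have hη3 : 0 < η ^ 2 := by rw [hη]; positivity
    have hη4 : η ≠ 0 := fun h => by rw [h] at hη3; norm_num at hη3
    have hw : ω0 * j0 / Pr ω0 j0 φ1 = 1 - B := by
      unfold Pr
      rw [hφ, hx, hwj, hB]
      field_simp
      ring
    have hcos : 0 ≤ cos φ1 := cos_nonneg_of_mem_Icc ⟨by linarith [pi_pos], h1⟩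
    have a1 : √s1 ≤ 4 := Real.sqrt_le_iff.2 ⟨by norm_num, by linarith [sq_nonneg al]⟩
    have a2 : √(s1 + 4 * al ^ 2) ≤ 4 := Real.sqrt_le_iff.2 ⟨by norm_num, by linarith⟩
    have a3 : cos φ1 = η * √s1 := by
      refine (pow_left_inj₀ hcos (by positivity) two_ne_zero).1 ?_
      rw [hφ, hx, mul_pow, Real.sq_sqrt hs10.le, mul_comm]
    have a4 : √(cos φ1 ^ 2 + ω0 * j0 / (1 - 2 * j0)) = η * √(s1 + 4 * al ^ 2) := by
      rw [Real.sqrt_eq_iff_mul_self_eq (by positivity) (by positivity), ← sq, mul_pow,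
        Real.sq_sqrt (by positivity), hφ, hx, ← hβ]
      ring
    have hy : p3y al = 1001 / 20000 * (√s1 + √(s1 + 4 * al ^ 2)) := by rw [es]; rfl
    have a5 : 1 ≤ √(1 + ω0 * j0 / (1 - 2 * j0)) :=
      Real.one_le_sqrt.2 (le_add_of_nonneg_right (by positivity))
    have a6 : 0 ≤ √s1 + √(s1 + 4 * al ^ 2) := by positivity
    have hO := O_low1 (y := p3y al) hω0 hj hj2 h0 h1 rfl (by rw [hy]; linarith) (by
      rw [a4, a3, hy]
      linarith [mul_le_mul_of_nonneg_right hη2 a6, mul_le_mul_of_nonneg_left a5 a6])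
    rw [← ea] at hO
    have a7 : 10 / ω0 ≤ 8 / 1000 := by
      rw [div_le_iff₀ hω0]; linarith
    have a8 : p3cc s B ≤ 3 - 7 / 2 * s + 3 / 4 * s ^ 2 -
        (2 - s) ^ 2 / 4 * (ω0 * j0 / Pr ω0 j0 φ1) - 10 / ω0 := by
      rw [hw]; unfold p3cc; linarith
    have a9 : al ^ 2 * pade (p3y al) * p3cc s B - s / 2 * F1 φ1 ω0 j0 s ≤ 2 * F2 φ1 ω0 j0 s := by
      linarith [mul_le_mul_of_nonneg_right hO hcc.le, mul_le_mul_of_nonneg_left a8 hO0]
    have b1 := mul_le_mul_of_nonneg_left a9 (sq_nonneg (1 / al))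
    calc _ = (1 / al) ^ 2 * (al ^ 2 * pade (p3y al) * p3cc s B - s / 2 * F1 φ1 ω0 j0 s) := by
          rw [hsg]; field_simp
      _ ≤ _ := b1
      _ = _ := by ring

end Pool.Agent.HillD
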