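import Pool.Agent.P.MP_ae2765_an.WJet0

/-! Algebra of jets at `0`. -/

namespace Pool.Agent.HillD
open Real Set Filter Topology Asymptotics

theorem wjet1_cauchy {H : ℂ → ℂ} {r M : ℝ} (hr : 0 < r)
    (hd : DifferentiableOn ℂ H (Metric.ball 0 r))
    (hM : ∀ τ ∈ Metric.ball (0 : ℂ) r, ‖H τ‖ ≤ M) (n : ℕ) :
    ‖iteratedDeriv n H 0 / (n.factorial : ℂ)‖ ≤ M / r ^ n := by
  have hf : (0 : ℝ) < n.factorial := by exact_mod_cast n.factorial_pos
  have key : ∀ s ∈ Ioo 0 r, ‖iteratedDeriv n H 0 / (n.factorial : ℂ)‖ ≤ M / s ^ n := by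
    intro s hs
    have hsub : Metric.closedBall (0 : ℂ) s ⊆ Metric.ball 0 r :=
      Metric.closedBall_subset_ball hs.2
    have h := Complex.norm_iteratedDeriv_le_of_forall_mem_sphere_norm_le (C := M) n hs.1
      (hd.diffContOnCl_ball hsub) fun z hz => hM z (hsub (Metric.sphere_subset_closedBall hz))
    rw [norm_div, Complex.norm_natCast, div_le_iff₀ hf]
    refine h.trans (le_of_eq ?_)
    ring
  have ht : Tendsto (fun s : ℝ => M / s ^ n) (𝓝[<] r) (𝓝 (M / r ^ n)) := by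
    refine Tendsto.mono_left ?_ nhdsWithin_le_nhds
    exact (continuousAt_const.div (continuous_pow n).continuousAt (pow_pos hr n).ne').tendsto
  exact ge_of_tendsto ht (mem_of_superset (Ioo_mem_nhdsLT hr) key)

/-- Cauchy estimates for the three-jet of a bounded holomorphic function on a disc. -/
theorem hol_jet {H : ℂ → ℂ} {r M : ℝ} (hr : 0 < r) (hd : DifferentiableOn ℂ H (Metric.ball 0 r))
    (hM : ∀ τ ∈ Metric.ball (0 : ℂ) r, ‖H τ‖ ≤ M) :
    ∃ c1 c2 c3 : ℂ, ‖H 0‖ ≤ M ∧ ‖c1‖ ≤ M / r ∧ ‖c2‖ ≤ M / r ^ 2 ∧ ‖c3‖ ≤ M / r ^ 3 ∧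
      J3 (fun τ : ℝ => H τ) (H 0) c1 c2 c3 := by
  refine ⟨_, _, _, hM 0 (Metric.mem_ball_self hr), by simpa using wjet1_cauchy hr hd hM 1,
    wjet1_cauchy hr hd hM 2, wjet1_cauchy hr hd hM 3, ?_⟩
  have ha : AnalyticAt ℂ H 0 := hd.analyticAt (Metric.ball_mem_nhds 0 hr)
  have h := (ha.hasFPowerSeriesAt.isBigO_sub_partialSum_pow 4).comp_tendsto
    (show Tendsto (fun τ : ℝ => (τ : ℂ)) (𝓝 0) (𝓝 0) by
      simpa using Complex.continuous_ofReal.tendsto 0)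
  unfold J3
  refine (h.congr (fun τ => ?_) (fun τ => ?_)).trans (isBigO_refl (fun τ : ℝ => τ ^ 4) _)
  · simp [FormalMultilinearSeries.partialSum, Finset.sum_range_succ, mul_comm]
  · simp only [Function.comp, Complex.norm_real, Real.norm_eq_abs]
    exact Even.pow_abs (by decide) τ

end Pool.Agent.HillD
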