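import Pool.Agent.P.MP_ae2765_an.WJet0
import Pool.Agent.P.MP_ae2765_an.WJet1

/-! Algebra of jets at `0`. -/

namespace Pool.Agent.HillD
open Real Set Filter Topology Asymptotics

variable {𝕜 : Type} [RCLike 𝕜] {f g : ℝ → 𝕜} {a0 a1 a2 a3 b0 b1 b2 b3 : 𝕜}

theorem wjet_pow (n : ℕ) : (fun τ : ℝ => τ ^ (n + 1)) =O[𝓝 0] fun τ : ℝ => τ := by
  have h : (fun τ : ℝ => τ ^ n) =O[𝓝 0] fun _ : ℝ => (1 : ℝ) :=
    (continuous_pow n).continuousAt.isBigO_one ℝ
  simpa only [pow_succ, one_mul] using h.mul (isBigO_refl (fun τ : ℝ => τ) (𝓝 0))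

theorem wjet_small (h : J2 f 0 a1 a2) : f =O[𝓝 0] fun τ : ℝ => τ := by
  have h1 : (fun τ : ℝ => (τ : 𝕜)) =O[𝓝 0] fun τ : ℝ => τ :=
    IsBigO.of_bound 1 (Eventually.of_forall fun τ => by simp)
  have h2 : (fun τ : ℝ => (τ : 𝕜) ^ 2) =O[𝓝 0] fun τ : ℝ => τ := (h1.pow 2).trans (wjet_pow 1)
  have h3 := (IsBigO.trans h (wjet_pow 2)).add ((h1.const_mul_left a1).add (h2.const_mul_left a2))
  refine h3.congr_left fun τ => ?_
  ring

/-- composition with a function that has a second order expansion -/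
theorem wjet_comp (h : J2 f a0 a1 a2) {G : 𝕜 → 𝕜}
    (hG : (fun w => G (a0 + w) - (b0 + b1 * w + b2 * w ^ 2)) =O[𝓝 0] fun w : 𝕜 => w ^ 3) :
    J2 (fun τ => G (f τ)) b0 (b1 * a1) (b1 * a2 + b2 * a1 ^ 2) := by
  have hw : J2 (fun τ => f τ - a0) 0 a1 a2 :=
    (h.sub (j2_const a0)).of_eq (sub_self _) (sub_zero _) (sub_zero _)
  have hp := ((j2_const b0).add (hw.const_mul b1)).add ((hw.mul hw).const_mul b2)
  have ht : Tendsto (fun τ => f τ - a0) (𝓝 0) (𝓝 0) := by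
    have := hw.cont.tendsto
    rwa [hw.val] at this
  refine (hp.of_sub ?_).of_eq (by ring) (by ring) (by ring)
  refine ((hG.comp_tendsto ht).trans ((wjet_small hw).pow 3)).congr_left fun τ => ?_
  simp only [Function.comp, add_sub_cancel]
  ring

section complex
variable {F : ℝ → ℂ} {c0 c1 c2 c3 : ℂ} {u : ℝ → ℝ} {r0 r1 r2 : ℝ}

theorem J2.re (h : J2 F c0 c1 c2) : J2 (fun τ => (F τ).re) c0.re c1.re c2.re := by
  refine IsBigO.trans (IsBigO.of_bound 1 (Eventually.of_forall fun τ => ?_)) h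
  rw [one_mul, Real.norm_eq_abs]
  refine le_trans (le_of_eq ?_) (Complex.abs_re_le_norm _)
  simp [← Complex.ofReal_pow]

theorem J2.im (h : J2 F c0 c1 c2) : J2 (fun τ => (F τ).im) c0.im c1.im c2.im := by
  refine IsBigO.trans (IsBigO.of_bound 1 (Eventually.of_forall fun τ => ?_)) h
  rw [one_mul, Real.norm_eq_abs]
  refine le_trans (le_of_eq ?_) (Complex.abs_im_le_norm _)
  simp [← Complex.ofReal_pow]

theorem J3.im (h : J3 F c0 c1 c2 c3) : J3 (fun τ => (F τ).im) c0.im c1.im c2.im c3.im := by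
  refine IsBigO.trans (IsBigO.of_bound 1 (Eventually.of_forall fun τ => ?_)) h
  rw [one_mul, Real.norm_eq_abs]
  refine le_trans (le_of_eq ?_) (Complex.abs_im_le_norm _)
  simp [← Complex.ofReal_pow]

theorem J2.ofReal (h : J2 u r0 r1 r2) : J2 (fun τ => (u τ : ℂ)) (r0 : ℂ) (r1 : ℂ) (r2 : ℂ) := by
  refine IsBigO.trans (IsBigO.of_bound 1 (Eventually.of_forall fun τ => ?_)) h
  rw [one_mul, ← Complex.norm_real]
  refine le_of_eq ?_
  simp

theorem J2.clog (h : J2 F c0 c1 c2) (h0 : c0 ∈ Complex.slitPlane) :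
    J2 (fun τ => Complex.log (F τ)) (Complex.log c0) (c1 / c0) (c2 / c0 - c1 ^ 2 / (2 * c0 ^ 2)) := by
  have hc : c0 ≠ 0 := Complex.slitPlane_ne_zero h0
  have ht : Tendsto (fun w : ℂ => w / c0) (𝓝 0) (𝓝 0) := by
    simpa using (continuous_id.div_const c0).tendsto (0 : ℂ)
  have h1 := (Complex.log_sub_logTaylor_isBigO 2).comp_tendsto ht
  have h2 : (fun w : ℂ => (w / c0) ^ (2 + 1)) =O[𝓝 0] fun w : ℂ => w ^ 3 := by
    refine ((isBigO_refl (fun w : ℂ => w ^ 3) (𝓝 0)).const_mul_left (c0⁻¹ ^ 3)).congr_left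
      fun w => ?_
    ring
  have ht1 : Tendsto (fun w : ℂ => 1 + w / c0) (𝓝 0) (𝓝 1) := by
    simpa using ht.const_add 1
  have ha : Tendsto (fun w : ℂ => c0.arg + (1 + w / c0).arg) (𝓝 0) (𝓝 c0.arg) := by
    have := ((Complex.continuousAt_arg Complex.one_mem_slitPlane).tendsto.comp ht1).const_add c0.arg
    simpa using this
  have h3 : ∀ᶠ w : ℂ in 𝓝 0, c0.arg + (1 + w / c0).arg ∈ Ioo (-π) π :=
    ha.eventually (Ioo_mem_nhds (Complex.neg_pi_lt_arg c0)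
      (lt_of_le_of_ne (Complex.arg_le_pi c0) (Complex.slitPlane_arg_ne_pi h0)))
  have h4 : ∀ᶠ w : ℂ in 𝓝 0, 1 + w / c0 ≠ 0 := ht1.eventually_ne one_ne_zero
  refine (wjet_comp (b0 := Complex.log c0) (b1 := c0⁻¹) (b2 := -(2 * c0 ^ 2)⁻¹) h
    ((h1.trans h2).congr' ?_ EventuallyEq.rfl)).of_eq rfl (by ring) (by ring)
  filter_upwards [h3, h4] with w h3 h4
  have h5 : c0 + w = c0 * (1 + w / c0) := by field_simp
  rw [h5, (Complex.log_mul_eq_add_log_iff hc h4).2 (Ioo_subset_Ioc_self h3)]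
  simp only [Function.comp, Complex.logTaylor, Finset.sum_range_succ, Finset.sum_range_zero]
  push_cast
  ring

theorem J2.cexp (h : J2 F c0 c1 c2) :
    J2 (fun τ => Complex.exp (F τ)) (Complex.exp c0) (Complex.exp c0 * c1)
      (Complex.exp c0 * (c2 + c1 ^ 2 / 2)) := by
  have h1 := (Complex.exp_sub_sum_range_isBigO_pow 3).const_mul_left (Complex.exp c0)
  refine (wjet_comp (b0 := Complex.exp c0) (b1 := Complex.exp c0) (b2 := Complex.exp c0 / 2) h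
    (h1.congr_left fun w => ?_)).of_eq rfl rfl (by ring)
  rw [Complex.exp_add]
  simp only [Finset.sum_range_succ, Finset.sum_range_zero, Nat.factorial]
  push_cast
  ring

end complex

section triples
variable {u v : ℝ → ℝ} {x y : T3}

theorem JT.mul (h : JT u x) (h' : JT v y) : JT (fun τ => u τ * v τ) (jmul x y) := J2.mul h h'

theorem JT.inv (h : JT u x) (h0 : x.1 ≠ 0) : JT (fun τ => (u τ)⁻¹) (jinv x) := J2.inv h h0

theorem JT.sqrt (h : JT u x) (h0 : 0 < x.1) : JT (fun τ => √(u τ)) (jsqrt x) := by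
  have h' : J2 u x.1 x.2.1 x.2.2 := h
  have hs : 0 < √x.1 := Real.sqrt_pos.2 h0
  have hs2 : √x.1 * √x.1 = x.1 := Real.mul_self_sqrt h0.le
  have hp := j2_poly (jsqrt x).1 (jsqrt x).2.1 (jsqrt x).2.2
  set p : ℝ → ℝ := fun τ => (jsqrt x).1 + (jsqrt x).2.1 * ((τ : ℝ) : ℝ)
    + (jsqrt x).2.2 * ((τ : ℝ) : ℝ) ^ 2 with hpdef
  change J2 p _ _ _ at hp
  have h1 : J2 (fun τ => u τ - p τ * p τ) 0 0 0 := by
    refine (h'.sub (hp.mul hp)).of_eq ?_ ?_ ?_
    · simp only [jsqrt]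
      rw [hs2, sub_self]
    · simp only [jsqrt]
      field_simp
      ring
    · simp only [jsqrt]
      field_simp
      ring
  have h2 : (fun τ => u τ - p τ * p τ) =O[𝓝 0] fun τ : ℝ => τ ^ 3 := by
    refine IsBigO.congr_left h1 fun τ => ?_
    simp
  have hc : ContinuousAt (fun τ => √(u τ) + p τ) 0 := h'.cont.sqrt.add hp.cont
  have hv : √(u 0) + p 0 ≠ 0 := by
    rw [h'.val, hp.val]
    exact (add_pos hs hs).ne'
  have h3 : (fun τ => (√(u τ) + p τ)⁻¹) =O[𝓝 0] fun _ : ℝ => (1 : ℝ) := (hc.inv₀ hv).isBigO_one ℝ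
  have h4 : ∀ᶠ τ in 𝓝 (0 : ℝ), 0 < u τ :=
    h'.cont.eventually (lt_mem_nhds (by rw [h'.val]; exact h0))
  have h5 : ∀ᶠ τ in 𝓝 (0 : ℝ), √(u τ) + p τ ≠ 0 := hc.eventually_ne hv
  refine hp.of_sub ((h2.mul h3).congr' ?_ (Eventually.of_forall fun τ => mul_one _))
  filter_upwards [h4, h5] with τ h4 h5
  have h6 : √(u τ) * √(u τ) = u τ := Real.mul_self_sqrt h4.le
  rw [mul_inv_eq_iff_eq_mul₀ h5]
  linear_combination -h6

end triples

end Pool.Agent.HillD
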