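import Pool.Agent.P.MP_ae2765_an.WSer0

/-! The power series at the turning point: bounds and holomorphy. -/

namespace Pool.Agent.HillD
open Real Set Filter Topology Asymptotics

theorem wser1_diff {U : Set ℂ} {A B Z J : ℂ → ℂ} (k0 : ℕ)
    (dA : DifferentiableOn ℂ A U) (dB : DifferentiableOn ℂ B U) (dZ : DifferentiableOn ℂ Z U)
    (dJ : DifferentiableOn ℂ J U) (n : ℕ) :
    DifferentiableOn ℂ (fun τ => (tco (A τ) (B τ) (Z τ) (J τ) k0 n).1) U ∧
      DifferentiableOn ℂ (fun τ => (tco (A τ) (B τ) (Z τ) (J τ) k0 n).2) U := by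
  induction n with
  | zero => exact ⟨differentiableOn_const (1 : ℂ), differentiableOn_const (0 : ℂ)⟩
  | succ n ih =>
    refine ⟨?_, ih.1⟩
    exact ((((dJ.const_mul _).sub dA).mul ih.1).add (((dZ.const_mul _).sub dB).mul ih.2)).div_const _

theorem wser1_sum : Summable fun n : ℕ => ((1 + 2 * n : ℝ)) * (1000000 / 4 ^ n) := by
  have h1 : Summable fun n : ℕ => (1 / 4 : ℝ) ^ n :=
    summable_geometric_of_lt_one (by norm_num) (by norm_num)
  have h2 : Summable fun n : ℕ => (n : ℝ) ^ 1 * (1 / 4 : ℝ) ^ n :=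
    summable_pow_mul_geometric_of_norm_lt_one 1 (by norm_num)
  refine ((h1.mul_left 1000000).add (h2.mul_left 2000000)).congr (fun n => ?_)
  rw [one_div, inv_pow]
  ring

theorem ser_hol {U : Set ℂ} (hU : IsOpen U) {A B Z J : ℂ → ℂ} {k0 : ℕ} (hk : k0 ≤ 1)
    (dA : DifferentiableOn ℂ A U) (dB : DifferentiableOn ℂ B U) (dZ : DifferentiableOn ℂ Z U)
    (dJ : DifferentiableOn ℂ J U)
    (hb : ∀ τ ∈ U, ‖A τ‖ ≤ 47 / 2 ∧ ‖B τ‖ ≤ 29 ∧ ‖Z τ‖ ≤ 51 / 5000 ∧ ‖J τ‖ ≤ 3 / 250000) :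
    DifferentiableOn ℂ
        (fun τ => yS (A τ) (B τ) (Z τ) (J τ) k0 - yN (A τ) (B τ) (Z τ) (J τ) k0) U ∧
      DifferentiableOn ℂ
        (fun τ => hS (A τ) (B τ) (Z τ) (J τ) k0 - hN (A τ) (B τ) (Z τ) (J τ) k0) U := by
  have hd := wser1_diff k0 dA dB dZ dJ
  have hbd : ∀ n, ∀ τ ∈ U, ‖(tco (A τ) (B τ) (Z τ) (J τ) k0 n).1‖ ≤ 1000000 / 4 ^ n :=
    fun n τ hτ => (tco_bound (hb τ hτ).1 (hb τ hτ).2.1 (hb τ hτ).2.2.1 (hb τ hτ).2.2.2 hk).1 n
  have hk' : (k0 : ℝ) ≤ 1 := by exact_mod_cast hk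
  constructor
  · refine DifferentiableOn.sub ?_ (DifferentiableOn.fun_sum (fun n _ => (hd n).1))
    refine Complex.differentiableOn_tsum_of_summable_norm wser1_sum (fun n => (hd n).1) hU
      (fun n τ hτ => (hbd n τ hτ).trans ?_)
    refine le_mul_of_one_le_left (by positivity) ?_
    exact le_add_of_nonneg_right (by positivity)
  · refine DifferentiableOn.sub ?_ (DifferentiableOn.fun_sum (fun n _ => (hd n).1.const_mul _))
    refine Complex.differentiableOn_tsum_of_summable_norm wser1_sum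
      (fun n => (hd n).1.const_mul _) hU (fun n τ hτ => ?_)
    rw [norm_mul, Complex.norm_natCast]
    refine mul_le_mul ?_ (hbd n τ hτ) (norm_nonneg _) (by positivity)
    push_cast
    linarith

end Pool.Agent.HillD
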