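import Pool.Agent.P.MP_ae2765_an.WP3m
import Pool.Agent.P.MP_ae2765_an.WSer1
import Pool.Agent.P.MP_ae2765_an.WJet

/-! Third region: jets of the matching data. -/

namespace Pool.Agent.HillD
open Real Set Filter Topology Asymptotics

theorem wp3d_yN (A B Z J : ℝ) (k0 : ℕ) :
    yN (A : ℂ) B Z J k0 = ((yN A B Z J k0 : ℝ) : ℂ) := by
  unfold yN
  rw [Complex.ofReal_sum]
  exact Finset.sum_congr rfl fun n _ => (tco_ofReal A B Z J k0 n).1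

theorem wp3d_hN (A B Z J : ℝ) (k0 : ℕ) :
    hN (A : ℂ) B Z J k0 = ((hN A B Z J k0 : ℝ) : ℂ) := by
  unfold hN
  rw [Complex.ofReal_sum]
  refine Finset.sum_congr rfl fun n _ => ?_
  rw [(tco_ofReal A B Z J k0 n).1, Complex.ofReal_mul, Complex.ofReal_natCast]

theorem wp3d_err {E : ℂ → ℂ} {M : ℝ} {S : ℝ → ℂ} {N : ℝ → ℝ} {y0 y1 y2 : ℝ}
    (hd : DifferentiableOn ℂ E (Metric.ball 0 (1 / 4)))
    (hM : ∀ τ ∈ Metric.ball (0 : ℂ) (1 / 4), ‖E τ‖ ≤ M)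
    (hE : ∀ τ : ℝ, E τ = S τ - (N τ : ℝ)) (hy : J2 N y0 y1 y2) :
    ∃ Y : T3, |Y.1 - y0| ≤ M ∧ |Y.2.1 - y1| ≤ 4 * M ∧ |Y.2.2 - y2| ≤ 16 * M ∧
      JT (fun τ => (S τ).re) Y := by
  obtain ⟨c1, c2, c3, b0, b1, b2, -, hj⟩ := hol_jet (by norm_num) hd hM
  refine ⟨(y0 + (E 0).re, y1 + c1.re, y2 + c2.re), ?_, ?_, ?_, ?_⟩
  · simpa using (Complex.abs_re_le_norm _).trans b0
  · have := (Complex.abs_re_le_norm _).trans b1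
    simp only [add_sub_cancel_left]
    linarith [show M / (1 / 4) = 4 * M by ring]
  · have := (Complex.abs_re_le_norm _).trans b2
    simp only [add_sub_cancel_left]
    linarith [show M / (1 / 4) ^ 2 = 16 * M by ring]
  · refine (hy.add hj.j2.re).congr (Eventually.of_forall fun τ => ?_)
    simp [hE τ]

/-- The real functions `A, B, Z, J` along the curve, and the jets of the matching data. -/
theorem p3_jets {A0 B0 Z nu jk d1 d2 sg : ℝ} {y0 y1 y2 h0 h1 h2 : ℝ} {k0 : ℕ} (hk : k0 ≤ 1)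
    {A B Zf J : ℂ → ℂ} {Ar Bf Zr Jr : ℝ → ℝ}
    (eA : A = fun τ : ℂ => ((A0 : ℂ) + (d1 * τ + d2 * τ ^ 2)) * (1 + sg * τ) ^ 2)
    (eB : B = fun τ : ℂ => (B0 : ℂ) * (1 + sg * τ) * (1 - jk * (d1 * τ + d2 * τ ^ 2)))
    (eZ : Zf = fun τ : ℂ => (Z : ℂ) * (1 - jk * (d1 * τ + d2 * τ ^ 2)))
    (eJ : J = fun τ : ℂ => (nu : ℂ) * (A0 + (d1 * τ + d2 * τ ^ 2)))
    (rA : Ar = fun τ => (A0 + (d1 * τ + d2 * τ ^ 2)) * (1 + sg * τ) ^ 2)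
    (rB : Bf = fun τ => B0 * (1 + sg * τ) * (1 - jk * (d1 * τ + d2 * τ ^ 2)))
    (rZ : Zr = fun τ => Z * (1 - jk * (d1 * τ + d2 * τ ^ 2)))
    (rJ : Jr = fun τ => nu * (A0 + (d1 * τ + d2 * τ ^ 2)))
    (hb : ∀ τ ∈ Metric.ball (0 : ℂ) (1 / 4),
      ‖A τ‖ ≤ 47 / 2 ∧ ‖B τ‖ ≤ 29 ∧ ‖Zf τ‖ ≤ 51 / 5000 ∧ ‖J τ‖ ≤ 3 / 250000)
    (hS0 : 0 < A0 + B0) (hd0 : 0 < 1 - nu * A0 - Z)
    (hy : J2 (fun τ => yN (Ar τ) (Bf τ) (Zr τ) (Jr τ) k0) y0 y1 y2)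
    (hh : J2 (fun τ => hN (Ar τ) (Bf τ) (Zr τ) (Jr τ) k0) h0 h1 h2) :
    ∃ D : P3D, D.A0 = A0 ∧ D.B0 = B0 ∧ D.Z = Z ∧ D.nu = nu ∧ D.jk = jk ∧ D.d1 = d1 ∧ D.d2 = d2 ∧
      D.sg = sg ∧ |D.Y.1 - y0| ≤ 3 / 50000 ∧ |D.Y.2.1 - y1| ≤ 4 * (3 / 50000) ∧
      |D.Y.2.2 - y2| ≤ 16 * (3 / 50000) ∧ |D.H.1 - h0| ≤ 1 / 500 ∧ |D.H.2.1 - h1| ≤ 4 * (1 / 500) ∧
      |D.H.2.2 - h2| ≤ 16 * (1 / 500) ∧
      JT (fun τ => (hS (Ar τ) (Bf τ) (Zr τ) (Jr τ) k0).re +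
        1 / 2 * (Bf τ * (Ar τ + Bf τ)⁻¹ * (yS (Ar τ) (Bf τ) (Zr τ) (Jr τ) k0).re)) D.Mr ∧
      JT (fun τ => √((Ar τ + Bf τ) * (1 - Jr τ - Zr τ)⁻¹) *
        (yS (Ar τ) (Bf τ) (Zr τ) (Jr τ) k0).re) D.Mi ∧
      JT (fun τ => Bf τ * (Ar τ + Bf τ)⁻¹ * (√((Ar τ + Bf τ) * (1 - Jr τ - Zr τ)⁻¹))⁻¹) D.Tb := by
  have cA : ∀ τ : ℝ, A τ = (Ar τ : ℝ) := fun τ => by rw [eA, rA]; push_cast; ring
  have cB : ∀ τ : ℝ, B τ = (Bf τ : ℝ) := fun τ => by rw [eB, rB]; push_cast; ring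
  have cZ : ∀ τ : ℝ, Zf τ = (Zr τ : ℝ) := fun τ => by rw [eZ, rZ]; push_cast; ring
  have cJ : ∀ τ : ℝ, J τ = (Jr τ : ℝ) := fun τ => by rw [eJ, rJ]; push_cast; ring
  have dA : DifferentiableOn ℂ A (Metric.ball 0 (1 / 4)) := by rw [eA]; fun_prop
  have dB : DifferentiableOn ℂ B (Metric.ball 0 (1 / 4)) := by rw [eB]; fun_prop
  have dZ : DifferentiableOn ℂ Zf (Metric.ball 0 (1 / 4)) := by rw [eZ]; fun_prop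
  have dJ : DifferentiableOn ℂ J (Metric.ball 0 (1 / 4)) := by rw [eJ]; fun_prop
  obtain ⟨hy', hh'⟩ := ser_hol Metric.isOpen_ball hk dA dB dZ dJ hb
  obtain ⟨Y, y0', y1', y2', jY⟩ := wp3d_err (S := fun τ => yS (Ar τ) (Bf τ) (Zr τ) (Jr τ) k0) hy'
    (fun τ h => (ser_tail (hb τ h).1 (hb τ h).2.1 (hb τ h).2.2.1 (hb τ h).2.2.2 hk).1)
    (fun τ => by rw [cA, cB, cZ, cJ, wp3d_yN]) hy
  obtain ⟨H, h0', h1', h2', jH⟩ := wp3d_err (S := fun τ => hS (Ar τ) (Bf τ) (Zr τ) (Jr τ) k0) hh'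
    (fun τ h => (ser_tail (hb τ h).1 (hb τ h).2.1 (hb τ h).2.2.1 (hb τ h).2.2.2 hk).2)
    (fun τ => by rw [cA, cB, cZ, cJ, wp3d_hN]) hh
  set D : P3D := ⟨A0, B0, Z, nu, jk, d1, d2, sg, Y, H⟩ with hD
  have jd : J2 (fun τ : ℝ => d1 * τ + d2 * τ ^ 2) 0 d1 d2 :=
    (j2_poly (0 : ℝ) d1 d2).congr (Eventually.of_forall fun τ => by simp)
  have ju : J2 (fun τ : ℝ => 1 + sg * τ) 1 sg 0 :=
    (j2_lin (1 : ℝ) sg).congr (Eventually.of_forall fun τ => by simp)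
  have jw : J2 (fun τ : ℝ => 1 - jk * (d1 * τ + d2 * τ ^ 2)) 1 (-(jk * d1)) (-(jk * d2)) :=
    ((j2_const (1 : ℝ)).sub (jd.const_mul jk)).of_eq (by ring) (by ring) (by ring)
  have ja : J2 (fun τ : ℝ => A0 + (d1 * τ + d2 * τ ^ 2)) A0 d1 d2 :=
    ((j2_const A0).add jd).of_eq (by ring) (by ring) (by ring)
  have jB : JT Bf D.Bj := by
    rw [rB]
    exact ((ju.const_mul B0).mul jw).of_eq (by simp [hD, P3D.Bj]) (by simp [hD, P3D.Bj]; ring)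
      (by simp [hD, P3D.Bj]; ring)
  have jA : J2 Ar A0 (d1 + 2 * (A0 * sg)) (d2 + 2 * (d1 * sg) + A0 * sg ^ 2) := by
    rw [rA]
    exact ((ja.mul (ju.mul ju)).congr (Eventually.of_forall fun τ => by ring)).of_eq (by ring)
      (by ring) (by ring)
  have jS : JT (fun τ => Ar τ + Bf τ) D.Sj := J2.add jA jB
  have jn : JT (fun τ => 1 - Jr τ - Zr τ) D.dn := by
    rw [rJ, rZ]
    exact (((j2_const (1 : ℝ)).sub (ja.const_mul nu)).sub (jw.const_mul Z)).of_eq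
      (by simp [hD, P3D.dn]) (by simp [hD, P3D.dn]; ring) (by simp [hD, P3D.dn]; ring)
  have jAA : JT (fun τ => Bf τ * (Ar τ + Bf τ)⁻¹) D.AA := jB.mul (jS.inv hS0.ne')
  have hp : 0 < (jmul D.Sj (jinv D.dn)).1 := mul_pos hS0 (inv_pos.2 hd0)
  have jr : JT (fun τ => √((Ar τ + Bf τ) * (1 - Jr τ - Zr τ)⁻¹)) D.rj :=
    (jS.mul (jn.inv hd0.ne')).sqrt hp
  refine ⟨D, rfl, rfl, rfl, rfl, rfl, rfl, rfl, rfl, y0', y1', y2', h0', h1', h2', ?_,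
    jr.mul jY, jAA.mul (jr.inv (Real.sqrt_pos.2 hp).ne')⟩
  exact J2.add jH (J2.const_mul (jAA.mul jY) (1 / 2))

end Pool.Agent.HillD
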