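import Pool.Agent.P.MP_ae2765_an.WHol

/-! The Riccati lemma. -/

namespace Pool.Agent.HillD
open Real Set Filter Topology Asymptotics

lemma wric_ici {E : Type} [NormedAddCommGroup E] [NormedSpace ℝ E] {f : ℝ → E} {v : E}
    {a b s : ℝ} (h : HasDerivWithinAt f v (Icc a b) s) (hs : s ∈ Ico a b) :
    HasDerivWithinAt f v (Ici s) s :=
  h.mono_of_mem_nhdsWithin (Icc_mem_nhdsGE_of_mem hs)

lemma wric_ioi {E : Type} [NormedAddCommGroup E] [NormedSpace ℝ E] {f : ℝ → E} {v : E}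
    {a b s : ℝ} (h : HasDerivWithinAt f v (Icc a b) s) (hs : s ∈ Ioo a b) :
    HasDerivWithinAt f v (Ioi s) s :=
  (wric_ici h (Ioo_subset_Ico_self hs)).mono Ioi_subset_Ici_self

/-- the solution does not vanish -/
lemma wric_ne {g ψ A B : ℝ → ℂ} (hg : ContinuousOn g (Icc 0 1)) (hψ : ContinuousOn ψ (Icc 0 1))
    (hs : RicSol g ψ A B) {t : ℝ} (ht : t ∈ Icc (0 : ℝ) 1) (hA : A t = 0) (hB : B t = 0) :
    False := by
  obtain ⟨h0, -, hd⟩ := hs
  obtain ⟨M, hM⟩ := isCompact_Icc.exists_bound_of_continuousOn hg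
  obtain ⟨M', hM'⟩ := isCompact_Icc.exists_bound_of_continuousOn hψ
  have hM0 : 0 ≤ M := (norm_nonneg _).trans (hM t ht)
  have hM0' : 0 ≤ M' := (norm_nonneg _).trans (hM' t ht)
  have hmap : MapsTo (fun u : ℝ => t - u) (Icc 0 t) (Icc 0 1) := fun u hu =>
    ⟨by linarith [hu.2], by linarith [hu.1, ht.2]⟩
  have hder : ∀ u ∈ Icc (0 : ℝ) t, HasDerivWithinAt (fun u : ℝ => (A (t - u), B (t - u)))
      ((-1 : ℝ) • (g (t - u) * (B (t - u) - ψ (t - u) * A (t - u) / 2),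
        g (t - u) * (ψ (t - u) * A (t - u) - 2 * B (t - u) - ψ (t - u) * B (t - u) / 2)))
      (Icc 0 t) u := by
    intro u hu
    have h1 := ((hd _ (hmap hu)).1.prodMk (hd _ (hmap hu)).2)
    have h2 : HasDerivWithinAt (fun u : ℝ => t - u) (-1) (Icc 0 t) u := by
      simpa using ((hasDerivAt_id u).const_sub t).hasDerivWithinAt
    exact h1.scomp u h2 hmap
  have key := eq_zero_of_abs_deriv_le_mul_abs_self_of_eq_zero_right (K := M * (2 + 2 * M'))
    (fun u hu => (hder u hu).continuousWithinAt)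
    (fun u hu => wric_ici (hder u (Ico_subset_Icc_self hu)) hu) (by simp [hA, hB]) ?_ t
    ⟨ht.1, le_rfl⟩
  · simp only [sub_self, Prod.mk_eq_zero] at key
    rw [h0] at key
    exact one_ne_zero key.1
  · intro u hu
    have hu' := hmap (Ico_subset_Icc_self hu)
    have g1 := hM _ hu'
    have g2 := hM' _ hu'
    generalize g (t - u) = G at g1 ⊢
    generalize ψ (t - u) = P at g2 ⊢
    generalize A (t - u) = x
    generalize B (t - u) = y
    have hx : ‖x‖ ≤ ‖(x, y)‖ := norm_fst_le (x, y)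
    have hy : ‖y‖ ≤ ‖(x, y)‖ := norm_snd_le (x, y)
    have hn := norm_nonneg (x, y)
    generalize ‖(x, y)‖ = r at hx hy hn
    have px : ‖P * x‖ ≤ M' * r := by
      rw [norm_mul]; exact mul_le_mul g2 hx (norm_nonneg _) hM0'
    have py : ‖P * y‖ ≤ M' * r := by
      rw [norm_mul]; exact mul_le_mul g2 hy (norm_nonneg _) hM0'
    have hr : 0 ≤ M' * r := mul_nonneg hM0' hn
    rw [norm_smul, norm_neg, norm_one, one_mul, Prod.norm_def, max_le_iff, norm_mul, norm_mul,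
      mul_assoc]
    constructor
    · refine mul_le_mul g1 ?_ (norm_nonneg _) hM0
      have := norm_sub_le y (P * x / 2)
      rw [norm_div, Complex.norm_two] at this
      linarith
    · refine mul_le_mul g1 ?_ (norm_nonneg _) hM0
      have a1 := norm_sub_le (P * x - 2 * y) (P * y / 2)
      have a2 := norm_sub_le (P * x) (2 * y)
      rw [norm_div, Complex.norm_two] at a1
      rw [norm_mul 2 y, Complex.norm_two] at a2
      linarith

lemma wric_pt {z g ψ : ℂ} {c γ bb : ℝ} (hz : ‖z‖ ≤ bb) (hre : c * ‖g‖ ≤ g.re)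
    (hγc : γ + bb ≤ 2 * c) :
    inner ℝ z (g * (ψ - 2 * z - z ^ 2)) ≤ ‖g‖ * ‖z‖ * (‖ψ‖ - γ * ‖z‖) := by
  have e : inner ℝ z (g * (ψ - 2 * z - z ^ 2))
      = (g * ψ * (starRingEnd ℂ) z).re - 2 * ‖z‖ ^ 2 * g.re - ‖z‖ ^ 2 * (g * z).re := by
    rw [Complex.inner, Complex.sq_norm, Complex.normSq_apply]
    simp only [pow_two, Complex.mul_re, Complex.mul_im, Complex.sub_re, Complex.sub_im,
      Complex.conj_re, Complex.conj_im, Complex.re_ofNat, Complex.im_ofNat]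
    ring
  have h1 : (g * ψ * (starRingEnd ℂ) z).re ≤ ‖g‖ * ‖ψ‖ * ‖z‖ := by
    refine (Complex.re_le_norm _).trans (le_of_eq ?_)
    rw [norm_mul, norm_mul, Complex.norm_conj]
  have h2 : -(‖g‖ * ‖z‖) ≤ (g * z).re := by
    have := Complex.abs_re_le_norm (g * z)
    rw [norm_mul] at this
    exact (abs_le.1 this).1
  have h3 : ‖g‖ * ‖z‖ ≤ ‖g‖ * bb := mul_le_mul_of_nonneg_left hz (norm_nonneg _)
  have h4 : ‖g‖ * (γ + bb) ≤ ‖g‖ * (2 * c) := mul_le_mul_of_nonneg_left hγc (norm_nonneg _)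
  have h5 : γ * ‖g‖ ≤ 2 * g.re + (g * z).re := by linarith
  have h6 := mul_le_mul_of_nonneg_left h5 (sq_nonneg ‖z‖)
  rw [e]
  nlinarith

lemma wric_id (z a g ψ : ℂ) :
    inner ℝ (z * a) (g * (ψ * a - 2 * (z * a) - ψ * (z * a) / 2))
      - ‖z‖ ^ 2 * inner ℝ a (g * (z * a - ψ * a / 2))
      = ‖a‖ ^ 2 * inner ℝ z (g * (ψ - 2 * z - z ^ 2)) := by
  simp only [Complex.inner, Complex.sq_norm, Complex.normSq_apply]
  simp only [pow_two, Complex.mul_re, Complex.mul_im, Complex.sub_re, Complex.sub_im,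
    Complex.conj_re, Complex.conj_im, Complex.re_ofNat, Complex.im_ofNat, Complex.div_ofNat_re,
    Complex.div_ofNat_im]
  ring

/-- the barrier -/
lemma wric_bar {g ψ A B : ℝ → ℂ} {b b' : ℝ → ℝ} {c γ bb : ℝ}
    (hg : ContinuousOn g (Icc 0 1)) (hψ : ContinuousOn ψ (Icc 0 1)) (hs : RicSol g ψ A B)
    (hre : ∀ s ∈ Icc (0 : ℝ) 1, c * ‖g s‖ ≤ (g s).re)
    (hb : ∀ s ∈ Icc (0 : ℝ) 1, HasDerivAt b (b' s) s ∧ 0 < b s ∧ b s ≤ bb)
    (hbar : ∀ s ∈ Icc (0 : ℝ) 1, ‖g s‖ * (‖ψ s‖ - γ * b s) < b' s)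
    (hγc : γ + bb ≤ 2 * c) : ∀ s ∈ Icc (0 : ℝ) 1, A s ≠ 0 ∧ ‖B s / A s‖ ≤ b s := by
  have hne := fun t ht => wric_ne hg hψ hs (t := t) ht
  obtain ⟨h0, h0', hd⟩ := hs
  have hder : ∀ s ∈ Icc (0 : ℝ) 1, HasDerivWithinAt (fun s => ‖B s‖ ^ 2 - b s ^ 2 * ‖A s‖ ^ 2)
      (2 * inner ℝ (B s) (g s * (ψ s * A s - 2 * B s - ψ s * B s / 2))
        - (2 * b s * b' s * ‖A s‖ ^ 2
          + b s ^ 2 * (2 * inner ℝ (A s) (g s * (B s - ψ s * A s / 2))))) (Icc 0 1) s := by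
    intro s hs
    have h1 : HasDerivWithinAt (fun s => b s ^ 2) (2 * b s * b' s) (Icc 0 1) s := by
      simpa using ((hb s hs).1.fun_pow 2).hasDerivWithinAt
    exact (hd s hs).2.norm_sq.fun_sub (h1.fun_mul (hd s hs).1.norm_sq)
  have key := image_le_of_deriv_right_lt_deriv_boundary (B := fun _ => (0 : ℝ))
    (B' := fun _ => (0 : ℝ)) (fun s hs => (hder s hs).continuousWithinAt)
    (fun s hs => wric_ici (hder s (Ico_subset_Icc_self hs)) hs)
    (by simp [h0, h0', sq_nonneg]) (fun x => hasDerivAt_const x 0) ?_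
  · intro s hs
    have h1 := key hs
    have hA : A s ≠ 0 := by
      intro hA
      refine hne s hs hA ?_
      simp only [hA, norm_zero] at h1
      have : ‖B s‖ ^ 2 = 0 := le_antisymm (by linarith) (sq_nonneg _)
      simpa using this
    refine ⟨hA, ?_⟩
    rw [norm_div, div_le_iff₀ (norm_pos_iff.2 hA)]
    refine (pow_le_pow_iff_left₀ (norm_nonneg _)
      (mul_nonneg (hb s hs).2.1.le (norm_nonneg _)) two_ne_zero).1 ?_
    rw [mul_pow]
    linarith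
  · intro s hs' h1
    have hs := Ico_subset_Icc_self hs'
    have hA : A s ≠ 0 := by
      intro hA
      refine hne s hs hA ?_
      simp only [hA, norm_zero] at h1
      have : ‖B s‖ ^ 2 = 0 := by linarith
      simpa using this
    obtain ⟨z, hz⟩ : ∃ z, B s = z * A s := ⟨B s / A s, by field_simp⟩
    have hA' : 0 < ‖A s‖ := norm_pos_iff.2 hA
    have hb0 := (hb s hs).2.1
    have hzb : ‖z‖ = b s := by
      refine (pow_left_inj₀ (norm_nonneg _) hb0.le two_ne_zero).1 ?_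
      refine mul_right_cancel₀ (pow_pos hA' 2).ne' ?_
      rw [hz, norm_mul, mul_pow] at h1
      linarith
    have e := wric_id z (A s) (g s) (ψ s)
    have p := wric_pt (ψ := ψ s) (hzb.le.trans (hb s hs).2.2) (hre s hs) hγc
    rw [hzb] at e p
    have q := mul_lt_mul_of_pos_left (hbar s hs) hb0
    have r : inner ℝ z (g s * (ψ s - 2 * z - z ^ 2)) < b s * b' s := by linarith
    have r' := mul_lt_mul_of_pos_left r (pow_pos hA' 2)
    show _ < (0 : ℝ)
    rw [hz]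
    linarith

theorem ric {g ψ A B : ℝ → ℂ} {b b' : ℝ → ℝ} {c γ bb N : ℝ}
    (hg : ContinuousOn g (Icc 0 1)) (hψ : ContinuousOn ψ (Icc 0 1)) (hs : RicSol g ψ A B)
    (hre : ∀ s ∈ Icc (0 : ℝ) 1, c * ‖g s‖ ≤ (g s).re)
    (hb : ∀ s ∈ Icc (0 : ℝ) 1, HasDerivAt b (b' s) s ∧ 0 < b s ∧ b s ≤ bb)
    (hbar : ∀ s ∈ Icc (0 : ℝ) 1, ‖g s‖ * (‖ψ s‖ - γ * b s) < b' s)
    (hγ : 0 < γ) (hγc : γ + bb ≤ 2 * c) (hN : ∫ s in (0 : ℝ)..1, ‖ψ s‖ ^ 2 * ‖g s‖ ≤ N) :
    (∀ s ∈ Icc (0 : ℝ) 1, A s ≠ 0) ∧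
      A 1 = Complex.exp (∫ s in (0 : ℝ)..1, g s * (B s / A s - ψ s / 2)) ∧
      ‖B 1 / A 1‖ ≤ b 1 ∧
      ‖(∫ s in (0 : ℝ)..1, g s * (B s / A s - ψ s / 2)) + B 1 / A 1 / 2‖ ≤ N / (2 * γ ^ 2) := by
  have hbr := wric_bar hg hψ hs hre hb hbar hγc
  obtain ⟨h0, h0', hd⟩ := hs
  have h01 : (0 : ℝ) ≤ 1 := zero_le_one
  have one_mem : (1 : ℝ) ∈ Icc (0 : ℝ) 1 := ⟨h01, le_rfl⟩
  obtain ⟨z, hz⟩ : ∃ z : ℝ → ℂ, z = fun s => B s / A s := ⟨_, rfl⟩
  have hz' : ∀ s, B s / A s = z s := fun s => by rw [hz]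
  have hz0 : z 0 = 0 := by rw [← hz', h0', zero_div]
  have dz : ∀ s ∈ Icc (0 : ℝ) 1,
      HasDerivWithinAt z (g s * (ψ s - 2 * z s - z s ^ 2)) (Icc 0 1) s := by
    intro s hs
    have hA := (hbr s hs).1
    have h1 := (hd s hs).2.fun_div (hd s hs).1 hA
    rw [← hz] at h1
    refine h1.congr_deriv ?_
    rw [← hz']
    field_simp
    ring
  have cz : ContinuousOn z (Icc 0 1) := fun s hs => (dz s hs).continuousWithinAt
  have ch : ContinuousOn (fun s => g s * (z s - ψ s / 2)) (Icc 0 1) :=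
    hg.mul (cz.sub (hψ.div_const 2))
  simp only [hz'] at hbr ⊢
  refine ⟨fun s hs => (hbr s hs).1, ?_, (hbr 1 one_mem).2, ?_⟩
  · obtain ⟨h, hc, hh⟩ : ∃ h : ℝ → ℂ, Continuous h ∧
        ∀ s ∈ Icc (0 : ℝ) 1, h s = g s * (z s - ψ s / 2) :=
      ⟨IccExtend h01 ((Icc (0 : ℝ) 1).domRestrict fun s => g s * (z s - ψ s / 2)),
        ch.domRestrict.Icc_extend', fun s hs => by rw [IccExtend_of_mem h01 _ hs]; rfl⟩
    have dE : ∀ s ∈ Icc (0 : ℝ) 1, HasDerivWithinAt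
        (fun u => A u * Complex.exp (-∫ x in (0 : ℝ)..u, h x)) 0 (Icc 0 1) s := by
      intro s hs
      have h1 : HasDerivAt (fun u => ∫ x in (0 : ℝ)..u, h x) (h s) s :=
        (hc.integral_hasStrictDerivAt 0 s).hasDerivAt
      have h2 := (hd s hs).1.fun_mul h1.fun_neg.cexp.hasDerivWithinAt
      refine h2.congr_deriv ?_
      have hA := (hbr s hs).1
      rw [hh s hs, ← hz']
      field_simp
      ring
    have k := constant_of_has_deriv_right_zero (fun s hs => (dE s hs).continuousWithinAt)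
      (fun s hs => wric_ici (dE s (Ico_subset_Icc_self hs)) hs) 1 one_mem
    have e : ∫ x in (0 : ℝ)..1, h x = ∫ s in (0 : ℝ)..1, g s * (z s - ψ s / 2) :=
      intervalIntegral.integral_congr fun s hs => hh s (by rwa [uIcc_of_le h01] at hs)
    rw [intervalIntegral.integral_same, neg_zero, Complex.exp_zero, h0, mul_one, e,
      Complex.exp_neg] at k
    exact (mul_inv_eq_one₀ (Complex.exp_ne_zero _)).1 k
  · have cd : ContinuousOn (fun s => g s * (ψ s - 2 * z s - z s ^ 2)) (Icc 0 1) :=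
      hg.mul ((hψ.sub (continuousOn_const.mul cz)).sub (cz.pow 2))
    have e1 := intervalIntegral.integral_eq_sub_of_hasDeriv_right_of_le h01 cz
      (fun s hs => wric_ioi (dz s (Ioo_subset_Icc_self hs)) hs)
      (cd.intervalIntegrable_of_Icc h01)
    rw [hz0, sub_zero] at e1
    have e2 : (∫ s in (0 : ℝ)..1, g s * (z s - ψ s / 2)) + z 1 / 2
        = ∫ s in (0 : ℝ)..1, -(g s * z s ^ 2 / 2) := by
      rw [← e1, ← intervalIntegral.integral_div, ← intervalIntegral.integral_add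
        (ch.intervalIntegrable_of_Icc h01) ((cd.div_const 2).intervalIntegrable_of_Icc h01)]
      exact intervalIntegral.integral_congr fun s _ => by ring
    have c1 : ContinuousOn (fun s => ‖ψ s‖ ^ 2 * ‖g s‖) (Icc 0 1) := (hψ.norm.pow 2).mul hg.norm
    have c2 : ContinuousOn (fun s => ‖g s‖ * ‖z s‖ ^ 2) (Icc 0 1) := hg.norm.mul (cz.norm.pow 2)
    have e3 : ‖∫ s in (0 : ℝ)..1, -(g s * z s ^ 2 / 2)‖
        ≤ (∫ s in (0 : ℝ)..1, ‖g s‖ * ‖z s‖ ^ 2) / 2 := by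
      refine (intervalIntegral.norm_integral_le_integral_norm h01).trans (le_of_eq ?_)
      rw [← intervalIntegral.integral_div]
      refine intervalIntegral.integral_congr fun s _ => ?_
      simp only [norm_neg, norm_div, norm_mul, norm_pow, Complex.norm_two]
    have c3 : ContinuousOn (fun s => ‖ψ s‖ ^ 2 * ‖g s‖ / γ - γ * (‖g s‖ * ‖z s‖ ^ 2))
        (Icc 0 1) := (c1.div_const γ).sub (continuousOn_const.mul c2)
    have e4 := intervalIntegral.sub_le_integral_of_hasDeriv_right_of_le h01 (cz.norm.pow 2)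
      (fun s hs => wric_ioi (dz s (Ioo_subset_Icc_self hs)).norm_sq hs)
      (c3.integrableOn_Icc) (fun s hs => by
        have hs' := Ioo_subset_Icc_self hs
        have p := wric_pt (ψ := ψ s) ((hbr s hs').2.trans (hb s hs').2.2) (hre s hs') hγc
        have q : 0 ≤ ‖g s‖ * (‖ψ s‖ - γ * ‖z s‖) ^ 2 / γ := by positivity
        have r : ‖g s‖ * (‖ψ s‖ - γ * ‖z s‖) ^ 2 / γ = ‖ψ s‖ ^ 2 * ‖g s‖ / γ
            - γ * (‖g s‖ * ‖z s‖ ^ 2) - 2 * (‖g s‖ * ‖z s‖ * (‖ψ s‖ - γ * ‖z s‖)) := by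
          field_simp
          ring
        linarith)
    rw [intervalIntegral.integral_sub ((c1.div_const γ).intervalIntegrable_of_Icc h01)
      ((c2.intervalIntegrable_of_Icc h01).const_mul γ), intervalIntegral.integral_div,
      intervalIntegral.integral_const_mul] at e4
    simp only [Pi.pow_apply, hz0, norm_zero] at e4
    have e5 : (∫ s in (0 : ℝ)..1, ‖ψ s‖ ^ 2 * ‖g s‖) / γ ≤ N / γ :=
      div_le_div_of_nonneg_right hN hγ.le
    have e6 : γ * ∫ s in (0 : ℝ)..1, ‖g s‖ * ‖z s‖ ^ 2 ≤ N / γ := by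
      nlinarith [sq_nonneg ‖z 1‖]
    rw [e2]
    refine e3.trans ?_
    rw [le_div_iff₀ hγ] at e6
    rw [div_le_div_iff₀ two_pos (by positivity)]
    nlinarith

end Pool.Agent.HillD
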