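import Pool.Agent.P.MP_ae2765_an.WBr2
import Pool.Agent.P.MP_ae2765_an.WRic

/-! The WKB data as holomorphic functions of the parameter. -/

namespace Pool.Agent.HillD
open Real Set Filter Topology Asymptotics

section cont
variable {α : Type} [TopologicalSpace α] {S : Set α} {Ω J X : α → ℂ}

theorem wpack_cP (hΩ : ContinuousOn Ω S) (hJ : ContinuousOn J S) (hX : ContinuousOn X S) :
    ContinuousOn (fun p => PP (Ω p) (J p) (X p)) S := by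
  unfold PP
  fun_prop

theorem wpack_cQ (hJ : ContinuousOn J S) (hX : ContinuousOn X S) :
    ContinuousOn (fun p => QQ (J p) (X p)) S := by
  unfold QQ
  fun_prop

theorem wpack_cpsi (hΩ : ContinuousOn Ω S) (hJ : ContinuousOn J S) (hX : ContinuousOn X S)
    (h0 : ∀ p ∈ S, Ω p ≠ 0) (hP : ∀ p ∈ S, PP (Ω p) (J p) (X p) ≠ 0) :
    ContinuousOn (fun p => psi (Ω p) (J p) (X p)) S := by
  have h1 := wpack_cP hΩ hJ hX
  have h2 := wpack_cQ hJ hX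
  unfold psi
  refine ContinuousOn.div (by fun_prop) (by fun_prop) fun p hp => ?_
  exact mul_ne_zero (mul_ne_zero (by norm_num) (h0 p hp)) (pow_ne_zero _ (hP p hp))

end cont

section diff
variable {S : Set ℂ} {Ω J : ℂ → ℂ} {X : ℂ}

theorem wpack_dP (hΩ : DifferentiableOn ℂ Ω S) (hJ : DifferentiableOn ℂ J S) :
    DifferentiableOn ℂ (fun p => PP (Ω p) (J p) X) S := by
  unfold PP
  fun_prop

theorem wpack_dQ (hJ : DifferentiableOn ℂ J S) :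
    DifferentiableOn ℂ (fun p => QQ (J p) X) S := by
  unfold QQ
  fun_prop

theorem wpack_dpsi (hΩ : DifferentiableOn ℂ Ω S) (hJ : DifferentiableOn ℂ J S)
    (h0 : ∀ p ∈ S, Ω p ≠ 0) (hP : ∀ p ∈ S, PP (Ω p) (J p) X ≠ 0) :
    DifferentiableOn ℂ (fun p => psi (Ω p) (J p) X) S := by
  have h1 := wpack_dP (X := X) hΩ hJ
  have h2 := wpack_dQ (X := X) hJ
  unfold psi
  refine DifferentiableOn.div (by fun_prop) (by fun_prop) fun p hp => ?_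
  exact mul_ne_zero (mul_ne_zero (by norm_num) (h0 p hp)) (pow_ne_zero _ (hP p hp))

end diff

theorem wpack_cX (φ1 : ℝ) : Continuous (pX φ1) := by
  unfold pX pth
  fun_prop

theorem wpack_ne {ω j φ : ℂ} (h : q2 ω j φ ∈ Complex.slitPlane) :
    PP ω j (Complex.cos φ ^ 2) ≠ 0 ∧ QQ j (Complex.cos φ ^ 2) ≠ 0 ∧ qh ω j φ ≠ 0 := by
  have h0 := Complex.slitPlane_ne_zero h
  refine ⟨fun e => h0 ?_, fun e => h0 ?_, fun e => h0 ?_⟩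
  · unfold q2
    rw [e, mul_zero, zero_div]
  · unfold q2
    rw [e, div_zero]
  · rw [← csqrt_sq (q2 ω j φ)]
    unfold qh at e
    rw [e]
    norm_num

theorem wpack_Tt {U : Set ℂ} (hU : IsOpen U) {Ω J : ℂ → ℂ} {φ1 : ℝ} (h0 : 0 < φ1)
    (hΩ : DifferentiableOn ℂ Ω U) (hJ : DifferentiableOn ℂ J U)
    (hs : ∀ τ ∈ U, ∀ φ ∈ Icc (0 : ℝ) φ1, q2 (Ω τ) (J τ) φ ∈ Complex.slitPlane) :
    DifferentiableOn ℂ (fun τ => Tt φ1 (Ω τ) (J τ)) U := by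
  unfold Tt
  refine DifferentiableOn.neg (hol_int hU
    (F := fun τ φ => eh (Ω τ) (J τ) φ ^ 2 / (2 * qh (Ω τ) (J τ) φ)) h0.le ?_ ?_)
  · have cΩ : ContinuousOn (fun p : ℂ × ℝ => Ω p.1) (U ×ˢ Icc 0 φ1) :=
      hΩ.continuousOn.comp continuous_fst.continuousOn fun p hp => hp.1
    have cJ : ContinuousOn (fun p : ℂ × ℝ => J p.1) (U ×ˢ Icc 0 φ1) :=
      hJ.continuousOn.comp continuous_fst.continuousOn fun p hp => hp.1
    have cX : ContinuousOn (fun p : ℂ × ℝ => Complex.cos p.2 ^ 2) (U ×ˢ Icc 0 φ1) := by fun_prop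
    have cP := wpack_cP cΩ cJ cX
    have cQ := wpack_cQ cJ cX
    have ce : ContinuousOn (fun p : ℂ × ℝ => eh (Ω p.1) (J p.1) p.2) (U ×ˢ Icc 0 φ1) := by
      unfold eh
      have c1 : Continuous fun p : ℂ × ℝ => Complex.cos p.2 := by fun_prop
      have c2 : Continuous fun p : ℂ × ℝ => Complex.sin p.2 := by fun_prop
      exact ContinuousOn.div (((continuousOn_const.sub (continuousOn_const.mul cJ)).mul
        c1.continuousOn).mul c2.continuousOn) (continuousOn_const.mul cP) fun p hp =>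
        mul_ne_zero two_ne_zero (wpack_ne (hs p.1 hp.1 p.2 hp.2)).1
    have c2 : ContinuousOn (fun p : ℂ × ℝ => q2 (Ω p.1) (J p.1) p.2) (U ×ˢ Icc 0 φ1) := by
      unfold q2
      exact ContinuousOn.div ((continuousOn_const.mul cΩ).mul cP) cQ fun p hp =>
        (wpack_ne (hs p.1 hp.1 p.2 hp.2)).2.1
    have cq : ContinuousOn (fun p : ℂ × ℝ => qh (Ω p.1) (J p.1) p.2) (U ×ˢ Icc 0 φ1) :=
      c2.cpow_const fun p hp => hs p.1 hp.1 p.2 hp.2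
    exact ContinuousOn.div (ce.pow 2) (continuousOn_const.mul cq) fun p hp =>
      mul_ne_zero two_ne_zero (wpack_ne (hs p.1 hp.1 p.2 hp.2)).2.2
  · intro φ hφ
    have dP := wpack_dP (X := Complex.cos φ ^ 2) hΩ hJ
    have dQ := wpack_dQ (X := Complex.cos φ ^ 2) hJ
    have de : DifferentiableOn ℂ (fun τ => eh (Ω τ) (J τ) φ) U := by
      unfold eh
      exact DifferentiableOn.div (by fun_prop) (by fun_prop) fun p hp =>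
        mul_ne_zero two_ne_zero (wpack_ne (hs p hp φ hφ)).1
    have d2 : DifferentiableOn ℂ (fun τ => q2 (Ω τ) (J τ) φ) U := by
      unfold q2
      exact DifferentiableOn.div (by fun_prop) dQ fun p hp => (wpack_ne (hs p hp φ hφ)).2.1
    have dq : DifferentiableOn ℂ (fun τ => qh (Ω τ) (J τ) φ) U :=
      d2.cpow_const fun p hp => hs p hp φ hφ
    exact DifferentiableOn.div (by fun_prop) (by fun_prop) fun p hp =>
      mul_ne_zero two_ne_zero (wpack_ne (hs p hp φ hφ)).2.2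

theorem wpack_sl {U : Set ℂ} {F : ℂ → ℝ → ℂ}
    (h : ContinuousOn (fun p : ℂ × ℝ => F p.1 p.2) (U ×ˢ Icc 0 1)) {τ : ℂ} (hτ : τ ∈ U) :
    ContinuousOn (F τ) (Icc 0 1) :=
  ContinuousOn.comp (g := fun p : ℂ × ℝ => F p.1 p.2) (f := fun s : ℝ => (τ, s)) h
    (Continuous.prodMk_right τ).continuousOn fun _ hs => ⟨hτ, hs⟩

theorem wpack_sol {U : Set ℂ} (hU : IsOpen U) {g ψ : ℂ → ℝ → ℂ}
    (cg : ContinuousOn (fun p : ℂ × ℝ => g p.1 p.2) (U ×ˢ Icc 0 1))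
    (cψ : ContinuousOn (fun p : ℂ × ℝ => ψ p.1 p.2) (U ×ˢ Icc 0 1))
    (dg : ∀ s ∈ Icc (0 : ℝ) 1, DifferentiableOn ℂ (fun τ => g τ s) U)
    (dψ : ∀ s ∈ Icc (0 : ℝ) 1, DifferentiableOn ℂ (fun τ => ψ τ s) U) :
    ∃ A B : ℂ → ℝ → ℂ,
      ContinuousOn (fun p : ℂ × ℝ => A p.1 p.2) (U ×ˢ Icc 0 1) ∧
      ContinuousOn (fun p : ℂ × ℝ => B p.1 p.2) (U ×ˢ Icc 0 1) ∧
      (∀ s ∈ Icc (0 : ℝ) 1, DifferentiableOn ℂ (fun τ => A τ s) U ∧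
        DifferentiableOn ℂ (fun τ => B τ s) U) ∧ ∀ τ ∈ U, RicSol (g τ) (ψ τ) (A τ) (B τ) := by
  have c21 : ContinuousOn (fun p : ℂ × ℝ => g p.1 p.2 * ψ p.1 p.2) (U ×ˢ Icc 0 1) := cg.mul cψ
  have ch : ContinuousOn (fun p : ℂ × ℝ => g p.1 p.2 * ψ p.1 p.2 / 2) (U ×ˢ Icc 0 1) :=
    c21.div_const 2
  have c11 : ContinuousOn (fun p : ℂ × ℝ => -(g p.1 p.2 * ψ p.1 p.2 / 2)) (U ×ˢ Icc 0 1) :=
    ch.neg
  have ct : ContinuousOn (fun p : ℂ × ℝ => 2 * g p.1 p.2) (U ×ˢ Icc 0 1) :=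
    continuousOn_const.mul cg
  have c22 : ContinuousOn (fun p : ℂ × ℝ => -(2 * g p.1 p.2) - g p.1 p.2 * ψ p.1 p.2 / 2)
      (U ×ˢ Icc 0 1) := ct.neg.sub ch
  have d21 : ∀ s ∈ Icc (0 : ℝ) 1, DifferentiableOn ℂ (fun τ => g τ s * ψ τ s) U :=
    fun s hs => (dg s hs).mul (dψ s hs)
  have dh : ∀ s ∈ Icc (0 : ℝ) 1, DifferentiableOn ℂ (fun τ => g τ s * ψ τ s / 2) U :=
    fun s hs => (d21 s hs).div_const 2
  have d11 : ∀ s ∈ Icc (0 : ℝ) 1, DifferentiableOn ℂ (fun τ => -(g τ s * ψ τ s / 2)) U :=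
    fun s hs => (dh s hs).neg
  have dt : ∀ s ∈ Icc (0 : ℝ) 1, DifferentiableOn ℂ (fun τ => 2 * g τ s) U :=
    fun s hs => (dg s hs).const_mul 2
  have d22 : ∀ s ∈ Icc (0 : ℝ) 1,
      DifferentiableOn ℂ (fun τ => -(2 * g τ s) - g τ s * ψ τ s / 2) U :=
    fun s hs => (dt s hs).neg.sub (dh s hs)
  obtain ⟨A, B, cA', cB', dAB, hAB⟩ := hol_ode hU (a11 := fun τ s => -(g τ s * ψ τ s / 2))
    (a12 := g) (a21 := fun τ s => g τ s * ψ τ s)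
    (a22 := fun τ s => -(2 * g τ s) - g τ s * ψ τ s / 2) c11 cg c21 c22 d11 dg d21 d22 1 0
  refine ⟨A, B, cA', cB', dAB, fun τ hτ => ?_⟩
  obtain ⟨e1, e2, e3⟩ := hAB τ hτ
  refine ⟨e1, e2, fun s hs => ⟨?_, ?_⟩⟩
  · convert (e3 s hs).1 using 1
    ring
  · convert (e3 s hs).2 using 1
    ring

theorem wpack_abs {U : Set ℂ} (hU : IsOpen U) {g ψ : ℂ → ℝ → ℂ} {b b' : ℝ → ℝ} {c γ bb N : ℝ}
    (cg : ContinuousOn (fun p : ℂ × ℝ => g p.1 p.2) (U ×ˢ Icc 0 1))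
    (cψ : ContinuousOn (fun p : ℂ × ℝ => ψ p.1 p.2) (U ×ˢ Icc 0 1))
    (dg : ∀ s ∈ Icc (0 : ℝ) 1, DifferentiableOn ℂ (fun τ => g τ s) U)
    (dψ : ∀ s ∈ Icc (0 : ℝ) 1, DifferentiableOn ℂ (fun τ => ψ τ s) U)
    (hre : ∀ τ ∈ U, ∀ s ∈ Icc (0 : ℝ) 1, c * ‖g τ s‖ ≤ (g τ s).re)
    (hb : ∀ s ∈ Icc (0 : ℝ) 1, HasDerivAt b (b' s) s ∧ 0 < b s ∧ b s ≤ bb)
    (hbar : ∀ τ ∈ U, ∀ s ∈ Icc (0 : ℝ) 1, ‖g τ s‖ * (‖ψ τ s‖ - γ * b s) < b' s)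
    (hγ : 0 < γ) (hγc : γ + bb ≤ 2 * c)
    (hN : ∀ τ ∈ U, ∫ s in (0 : ℝ)..1, ‖ψ τ s‖ ^ 2 * ‖g τ s‖ ≤ N) :
    ∃ k z : ℂ → ℂ, DifferentiableOn ℂ k U ∧ DifferentiableOn ℂ z U ∧
      ∀ τ ∈ U, ‖z τ‖ ≤ b 1 ∧ ‖k τ + z τ / 2‖ ≤ N / (2 * γ ^ 2) ∧
        ∃ A B : ℝ → ℂ, RicSol (g τ) (ψ τ) A B ∧ A 1 = Complex.exp (k τ) ∧ B 1 = z τ * A 1 := by
  obtain ⟨A, B, cA', cB', dAB, hsol⟩ := wpack_sol hU cg cψ dg dψ
  have hric := fun τ (hτ : τ ∈ U) => ric (wpack_sl cg hτ) (wpack_sl cψ hτ) (hsol τ hτ)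
    (hre τ hτ) hb (hbar τ hτ) hγ hγc (hN τ hτ)
  have one : (1 : ℝ) ∈ Icc (0 : ℝ) 1 := ⟨zero_le_one, le_rfl⟩
  refine ⟨fun τ => ∫ s in (0 : ℝ)..1, g τ s * (B τ s / A τ s - ψ τ s / 2),
    fun τ => B τ 1 / A τ 1, ?_, ?_, fun τ hτ => ⟨(hric τ hτ).2.2.1, (hric τ hτ).2.2.2,
      A τ, B τ, hsol τ hτ, (hric τ hτ).2.1, (div_mul_cancel₀ _ ((hric τ hτ).1 1 one)).symm⟩⟩
  · refine hol_int hU (F := fun τ s => g τ s * (B τ s / A τ s - ψ τ s / 2)) zero_le_one ?_ ?_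
    · exact cg.mul ((cB'.div cA' fun p hp => (hric p.1 hp.1).1 p.2 hp.2).sub (cψ.div_const 2))
    · intro s hs
      exact (dg s hs).mul (((dAB s hs).2.div (dAB s hs).1 fun p hp => (hric p hp).1 s hs).sub
        ((dψ s hs).div_const 2))
  · exact (dAB 1 one).2.div (dAB 1 one).1 fun p hp => (hric p hp).1 1 one

theorem pack {Ω J : ℂ → ℂ} {φ1 r κ0 c γ bb N T : ℝ} {b b' : ℝ → ℝ} (h0 : 0 < φ1)
    (h1 : φ1 ≤ π / 2) (hΩ : DifferentiableOn ℂ Ω (Metric.ball 0 r))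
    (hJ : DifferentiableOn ℂ J (Metric.ball 0 r))
    (hW : ∀ τ ∈ Metric.ball (0 : ℂ) r, Wk φ1 (Ω τ) (J τ) κ0 γ N T b b')
    (hb : ∀ s ∈ Icc (0 : ℝ) 1, HasDerivAt b (b' s) s ∧ 0 < b s ∧ b s ≤ bb)
    (hκ : κ0 < 1) (hc : 0 ≤ c) (hc2 : 2 * c ^ 2 ≤ 1 - κ0) (hγ : 0 < γ) (hγc : γ + bb ≤ 2 * c) :
    ∃ k z : ℂ → ℂ, DifferentiableOn ℂ k (Metric.ball 0 r) ∧ DifferentiableOn ℂ z (Metric.ball 0 r) ∧
      DifferentiableOn ℂ (fun τ => Tt φ1 (Ω τ) (J τ)) (Metric.ball 0 r) ∧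
      ∀ τ ∈ Metric.ball (0 : ℂ) r, ‖z τ‖ ≤ b 1 ∧ ‖k τ + z τ / 2‖ ≤ N / (2 * γ ^ 2) ∧
        ∀ δ ω : ℝ, 0 < δ → 0 < ω → Ω τ = ω → J τ = jj δ → Br φ1 δ ω (k τ) (z τ) := by
  have hU : IsOpen (Metric.ball (0 : ℂ) r) := Metric.isOpen_ball
  generalize Metric.ball (0 : ℂ) r = U at *
  have hroot : ∀ τ ∈ U, ∀ s ∈ Icc (0 : ℝ) 1,
      Complex.I * G2 φ1 (Ω τ) (J τ) s ∈ Complex.slitPlane ∧
      ‖gp φ1 (Ω τ) (J τ) s‖ = √‖G2 φ1 (Ω τ) (J τ) s‖ ∧ 0 < (gp φ1 (Ω τ) (J τ) s).re ∧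
      c * ‖gp φ1 (Ω τ) (J τ) s‖ ≤ (gp φ1 (Ω τ) (J τ) s).re := by
    intro τ hτ s hs
    refine sqrt_I_mul ?_ hκ ((hW τ hτ).ang s hs) hc hc2
    unfold G2
    have : (φ1 : ℂ) ≠ 0 := Complex.ofReal_ne_zero.2 h0.ne'
    exact div_ne_zero (mul_ne_zero (mul_ne_zero (mul_ne_zero (by norm_num) (pow_ne_zero _ this))
      (hW τ hτ).ne0) ((hW τ hτ).neP s hs)) ((hW τ hτ).neQ s hs)
  have cΩ : ContinuousOn (fun p : ℂ × ℝ => Ω p.1) (U ×ˢ Icc 0 1) :=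
    hΩ.continuousOn.comp continuous_fst.continuousOn fun p hp => hp.1
  have cJ : ContinuousOn (fun p : ℂ × ℝ => J p.1) (U ×ˢ Icc 0 1) :=
    hJ.continuousOn.comp continuous_fst.continuousOn fun p hp => hp.1
  have cX : ContinuousOn (fun p : ℂ × ℝ => pX φ1 p.2) (U ×ˢ Icc 0 1) :=
    ((wpack_cX φ1).comp continuous_snd).continuousOn
  have cP := wpack_cP cΩ cJ cX
  have cQ := wpack_cQ cJ cX
  have cψ : ContinuousOn (fun p : ℂ × ℝ => psi (Ω p.1) (J p.1) (pX φ1 p.2)) (U ×ˢ Icc 0 1) :=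
    wpack_cpsi cΩ cJ cX (fun p hp => (hW p.1 hp.1).ne0) fun p hp => (hW p.1 hp.1).neP p.2 hp.2
  have cG : ContinuousOn (fun p : ℂ × ℝ => G2 φ1 (Ω p.1) (J p.1) p.2) (U ×ˢ Icc 0 1) := by
    unfold G2
    exact ContinuousOn.div ((continuousOn_const.mul cΩ).mul cP) cQ fun p hp =>
      (hW p.1 hp.1).neQ p.2 hp.2
  have cg : ContinuousOn (fun p : ℂ × ℝ => gp φ1 (Ω p.1) (J p.1) p.2) (U ×ˢ Icc 0 1) :=
    (continuousOn_const.mul cG).cpow_const fun p hp => (hroot p.1 hp.1 p.2 hp.2).1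
  have dψ : ∀ s ∈ Icc (0 : ℝ) 1, DifferentiableOn ℂ (fun τ => psi (Ω τ) (J τ) (pX φ1 s)) U :=
    fun s hs => wpack_dpsi hΩ hJ (fun p hp => (hW p hp).ne0) fun p hp => (hW p hp).neP s hs
  have dg : ∀ s ∈ Icc (0 : ℝ) 1, DifferentiableOn ℂ (fun τ => gp φ1 (Ω τ) (J τ) s) U := by
    intro s hs
    have dP := wpack_dP (X := pX φ1 s) hΩ hJ
    have dQ := wpack_dQ (X := pX φ1 s) hJ
    have dG : DifferentiableOn ℂ (fun τ => G2 φ1 (Ω τ) (J τ) s) U := by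
      unfold G2
      exact DifferentiableOn.div (by fun_prop) dQ fun p hp => (hW p hp).neQ s hs
    exact (dG.const_mul Complex.I).cpow_const fun p hp => (hroot p hp s hs).1
  have hT := wpack_Tt hU h0 hΩ hJ fun τ hτ => (hW τ hτ).slit
  obtain ⟨k, z, dk, dz, h⟩ := wpack_abs hU (g := fun τ => gp φ1 (Ω τ) (J τ))
    (ψ := fun τ s => psi (Ω τ) (J τ) (pX φ1 s)) (c := c) (N := N) cg cψ dg dψ
    (fun τ hτ s hs => (hroot τ hτ s hs).2.2.2) hb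
    (fun τ hτ s hs => by
      rw [(hroot τ hτ s hs).2.1]
      exact (hW τ hτ).bar s hs) hγ hγc
    (fun τ hτ => by
      refine le_of_eq_of_le ?_ (hW τ hτ).int
      refine intervalIntegral.integral_congr fun s hs => ?_
      rw [uIcc_of_le zero_le_one] at hs
      rw [(hroot τ hτ s hs).2.1])
  refine ⟨k, z, dk, dz, hT, fun τ hτ => ⟨(h τ hτ).1, (h τ hτ).2.1, ?_⟩⟩
  intro δ ω hδ hω e1 e2
  obtain ⟨A, B, hs, hk, hz⟩ := (h τ hτ).2.2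
  have hr := fun s hs' => (hroot τ hτ s hs').2.2.1
  simp only [e1, e2] at hs hr
  exact bridge hδ hω h0 h1 hr hs hk hz

end Pool.Agent.HillD
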