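import Pool.Agent.P.MP_ae2765_an.WSer0
import Pool.Agent.P.MP_ae2765_an.WSa

/-! The power series at the turning point solves the equation. -/

namespace Pool.Agent.HillD
open Real Set Filter Topology Asymptotics

noncomputable def wser2_u (n : ℕ) : ℝ := 1500000 * ((2 * (n : ℝ) + 1) ^ 2 * (9 / 16) ^ n)

theorem wser2_sum : Summable wser2_u := by
  have h : ‖(9 / 16 : ℝ)‖ < 1 := by rw [Real.norm_eq_abs, abs_of_pos] <;> norm_num
  have h2 := summable_pow_mul_geometric_of_norm_lt_one 2 h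
  have h1 := summable_pow_mul_geometric_of_norm_lt_one 1 h
  have h0 := summable_pow_mul_geometric_of_norm_lt_one 0 h
  refine (((h2.mul_left 4).add ((h1.mul_left 4).add h0)).mul_left 1500000).congr fun n => ?_
  unfold wser2_u
  ring

theorem wser2_bd {t c z : ℝ} {n i : ℕ} (ht : |t| ≤ 1000000 / 4 ^ n) (hc0 : 0 ≤ c)
    (hc : c ≤ (2 * (n : ℝ) + 1) ^ 2) (hi : i ≤ 2 * n + 1) (hz : z ∈ Ioo (-(3 / 2) : ℝ) (3 / 2)) :
    ‖t * (c * z ^ i)‖ ≤ wser2_u n := by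
  have h1 : |z| ^ i ≤ (3 / 2 : ℝ) ^ (2 * n + 1) :=
    (pow_le_pow_left₀ (abs_nonneg z) (abs_le.2 ⟨hz.1.le, hz.2.le⟩) i).trans
      (pow_le_pow_right₀ (by norm_num) hi)
  rw [Real.norm_eq_abs, abs_mul, abs_mul, abs_pow, abs_of_nonneg hc0]
  calc _ ≤ 1000000 / 4 ^ n * ((2 * (n : ℝ) + 1) ^ 2 * (3 / 2) ^ (2 * n + 1)) := by gcongr
    _ = wser2_u n := by
      unfold wser2_u
      rw [pow_succ (3 / 2 : ℝ), pow_mul, show (9 / 16 : ℝ) = (3 / 2) ^ 2 / 4 by norm_num,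
        div_pow ((3 / 2 : ℝ) ^ 2)]
      ring

theorem wser2_congr {f g : ℕ → ℝ} {a : ℝ} (h : HasSum f a) (e : ∀ n, g n = f n) : HasSum g a :=
  funext e ▸ h

/-- the series, its two derivatives and the differential equation -/
theorem wser2_ode {A B Z J : ℝ} {k0 : ℕ} (hk : k0 ≤ 1)
    (ht : ∀ n, |(tco A B Z J k0 n).1| ≤ 1000000 / 4 ^ n) {z : ℝ}
    (hz : z ∈ Ioo (-(3 / 2) : ℝ) (3 / 2)) : ∃ y2 : ℝ,
      HasDerivAt (fun z : ℝ => ∑' n, (tco A B Z J k0 n).1 * (1 * z ^ (k0 + 2 * n)))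
        (∑' n, (tco A B Z J k0 n).1 * (((k0 + 2 * n : ℕ) : ℝ) * z ^ (k0 + 2 * n - 1))) z ∧
      HasDerivAt
        (fun z : ℝ => ∑' n, (tco A B Z J k0 n).1 * (((k0 + 2 * n : ℕ) : ℝ) * z ^ (k0 + 2 * n - 1)))
        y2 z ∧
      (1 - J * z ^ 2 - Z * z ^ 4) * y2 - (J * z + 2 * Z * z ^ 3) *
        (∑' n, (tco A B Z J k0 n).1 * (((k0 + 2 * n : ℕ) : ℝ) * z ^ (k0 + 2 * n - 1))) +
        (A + B * z ^ 2) * (∑' n, (tco A B Z J k0 n).1 * (1 * z ^ (k0 + 2 * n))) = 0 := by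
  set t : ℕ → ℝ := fun n => (tco A B Z J k0 n).1 with htd
  have hn : ∀ n : ℕ, (1 : ℝ) ≤ 2 * (n : ℝ) + 1 := fun n => by
    have : (0 : ℝ) ≤ n := Nat.cast_nonneg n
    linarith
  have hk1 : ∀ n : ℕ, ((k0 + 2 * n : ℕ) : ℝ) ≤ 2 * (n : ℝ) + 1 := fun n => by
    exact_mod_cast (show k0 + 2 * n ≤ 2 * n + 1 by omega)
  have hk2 : ∀ n : ℕ, ((k0 + 2 * n - 1 : ℕ) : ℝ) ≤ 2 * (n : ℝ) + 1 := fun n => by
    exact_mod_cast (show k0 + 2 * n - 1 ≤ 2 * n + 1 by omega)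
  have b0 : ∀ n, ∀ w ∈ Ioo (-(3 / 2) : ℝ) (3 / 2), ‖t n * (1 * w ^ (k0 + 2 * n))‖ ≤ wser2_u n :=
    fun n w hw => wser2_bd (ht n) zero_le_one (one_le_pow₀ (hn n)) (by omega) hw
  have b1 : ∀ n, ∀ w ∈ Ioo (-(3 / 2) : ℝ) (3 / 2),
      ‖t n * (((k0 + 2 * n : ℕ) : ℝ) * w ^ (k0 + 2 * n - 1))‖ ≤ wser2_u n :=
    fun n w hw => wser2_bd (ht n) (Nat.cast_nonneg _)
      ((hk1 n).trans (by nlinarith [hn n])) (by omega) hw
  have b2 : ∀ n, ∀ w ∈ Ioo (-(3 / 2) : ℝ) (3 / 2), ‖t n * ((((k0 + 2 * n : ℕ) : ℝ) *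
      ((k0 + 2 * n - 1 : ℕ) : ℝ)) * w ^ (k0 + 2 * n - 1 - 1))‖ ≤ wser2_u n :=
    fun n w hw => wser2_bd (ht n) (by positivity)
      (by rw [sq]; exact mul_le_mul (hk1 n) (hk2 n) (Nat.cast_nonneg _) (by linarith [hn n]))
      (by omega) hw
  have s0 := (Summable.of_norm_bounded wser2_sum fun n => b0 n z hz).hasSum
  have s1 := (Summable.of_norm_bounded wser2_sum fun n => b1 n z hz).hasSum
  have s2 := (Summable.of_norm_bounded wser2_sum fun n => b2 n z hz).hasSum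
  refine ⟨_, hasDerivAt_tsum_of_isPreconnected wser2_sum isOpen_Ioo isPreconnected_Ioo
      (fun n w _ => ?_) b1 hz s0.summable hz,
    hasDerivAt_tsum_of_isPreconnected wser2_sum isOpen_Ioo isPreconnected_Ioo
      (fun n w _ => ?_) b2 hz s1.summable hz, ?_⟩
  · simpa only [one_mul] using (hasDerivAt_pow (k0 + 2 * n) w).const_mul (t n)
  · simpa only [mul_assoc] using
      ((hasDerivAt_pow (k0 + 2 * n - 1) w).const_mul ((k0 + 2 * n : ℕ) : ℝ)).const_mul (t n)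
  generalize (∑' n, t n * (1 * z ^ (k0 + 2 * n))) = y0 at s0 ⊢
  generalize (∑' n, t n * (((k0 + 2 * n : ℕ) : ℝ) * z ^ (k0 + 2 * n - 1))) = y1 at s1 ⊢
  generalize (∑' n, t n * ((((k0 + 2 * n : ℕ) : ℝ) *
      ((k0 + 2 * n - 1 : ℕ) : ℝ)) * z ^ (k0 + 2 * n - 1 - 1))) = y2 at s2 ⊢
  have e1 : ∀ k : ℕ, z * ((k : ℝ) * z ^ (k - 1)) = k * z ^ k := fun k => by
    rcases k with _ | k
    · simp
    · rw [Nat.add_sub_cancel]; ring
  have e2 : ∀ k : ℕ, z ^ 2 * (((k : ℝ) * ((k - 1 : ℕ) : ℝ)) * z ^ (k - 1 - 1)) =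
      k * (k - 1) * z ^ k := fun k => by
    rcases k with _ | _ | k
    · simp
    · simp
    · rw [Nat.add_sub_cancel, Nat.add_sub_cancel]; push_cast; ring
  have a0 : HasSum (fun n => t n * z ^ (k0 + 2 * n)) y0 := by simpa only [one_mul] using s0
  have a1 : HasSum (fun n => t n * (((k0 + 2 * n : ℕ) : ℝ) * z ^ (k0 + 2 * n))) (z * y1) :=
    wser2_congr (s1.mul_left z) fun n => by rw [mul_left_comm z, e1]
  have a2 : HasSum (fun n => t n * (((k0 + 2 * n : ℕ) : ℝ) * (((k0 + 2 * n : ℕ) : ℝ) - 1) *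
      z ^ (k0 + 2 * n))) (z ^ 2 * y2) :=
    wser2_congr (s2.mul_left (z ^ 2)) fun n => by rw [mul_left_comm (z ^ 2), e2]
  have q := ((a2.add a1).mul_left J).sub (a0.mul_left A)
  have r := (((a2.add (a1.mul_left 2)).mul_left Z).sub (a0.mul_left B)).mul_left (z ^ 2)
  have r' : HasSum (fun n => ((((k0 + 2 * n - 1) * (k0 + 2 * n - 2) : ℕ) : ℝ) * Z - B) *
      (tco A B Z J k0 n).2 * z ^ (k0 + 2 * n))
      (z ^ 2 * (Z * (z ^ 2 * y2 + 2 * (z * y1)) - B * y0)) := by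
    refine (hasSum_nat_add_iff' 1).1 ?_
    rw [Finset.sum_range_one, show (tco A B Z J k0 0).2 = 0 from rfl, mul_zero, zero_mul, sub_zero]
    refine wser2_congr r fun n => ?_
    rw [show (tco A B Z J k0 (n + 1)).2 = t n from rfl,
      show k0 + 2 * (n + 1) - 1 = k0 + 2 * n + 1 by omega,
      show k0 + 2 * (n + 1) - 2 = k0 + 2 * n by omega]
    push_cast
    ring
  have p := (hasSum_nat_add_iff' 1).2 s2
  have p0 : ((k0 + 2 * 0 : ℕ) : ℝ) * ((k0 + 2 * 0 - 1 : ℕ) : ℝ) = 0 := by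
    interval_cases k0 <;> simp
  rw [Finset.sum_range_one, p0, zero_mul, mul_zero, sub_zero] at p
  have key : y2 = _ := p.unique (wser2_congr (q.add r') fun n => ?_)
  · linear_combination key
  · have h1 : (((k0 + 2 * n + 1) * (k0 + 2 * n + 2) : ℕ) : ℝ) ≠ 0 := by positivity
    have h2 : t (n + 1) * (((k0 + 2 * n + 1) * (k0 + 2 * n + 2) : ℕ) : ℝ) =
        ((((k0 + 2 * n) * (k0 + 2 * n) : ℕ) : ℝ) * J - A) * t n +
        ((((k0 + 2 * n - 1) * (k0 + 2 * n - 2) : ℕ) : ℝ) * Z - B) * (tco A B Z J k0 n).2 :=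
      div_mul_cancel₀ _ h1
    rw [show k0 + 2 * (n + 1) - 1 = k0 + 2 * n + 1 by omega, Nat.add_sub_cancel]
    generalize (((k0 + 2 * n - 1) * (k0 + 2 * n - 2) : ℕ) : ℝ) = e at h2 ⊢
    push_cast at h2 ⊢
    linear_combination z ^ (k0 + 2 * n) * h2

theorem tr_series (typ : Bool) {δ ω φ1 x1 A B Z J : ℝ} {k0 : ℕ} (hδ : 0 < δ) (hω : 0 < ω)
    (h0 : 0 < φ1) (h1 : φ1 < π / 2) (hx : x1 = cos φ1 ^ 2) (hk : k0 = if typ then 1 else 0)
    (eA : A = 2 * ω ^ 2 * jj δ * x1) (eB : B = 2 * ω * (1 - 2 * jj δ) * x1 ^ 2)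
    (eZ : Z = (1 - 2 * jj δ) * x1 ^ 2) (eJ : J = 2 * jj δ * x1)
    (hA : |A| ≤ 47 / 2) (hB : |B| ≤ 29) (hZ : |Z| ≤ 51 / 5000) (hJ : |J| ≤ 3 / 250000) :
    Tr typ φ1 δ ω (yS A B Z J k0).re
      (-(sin φ1 / cos φ1 * (hS A B Z J k0).re / cA (mm δ) ω φ1)) := by
  have hk1 : k0 ≤ 1 := by rw [hk]; split_ifs <;> omega
  have ht : ∀ n, |(tco A B Z J k0 n).1| ≤ 1000000 / 4 ^ n := fun n => by
    have h := (tco_bound (A := A) (B := B) (Z := Z) (J := J) (by simpa using hA)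
      (by simpa using hB) (by simpa using hZ) (by simpa using hJ) hk1).1 n
    rwa [(tco_ofReal A B Z J k0 n).1, Complex.norm_real, Real.norm_eq_abs] at h
  set y0 : ℝ → ℝ := fun z => ∑' n, (tco A B Z J k0 n).1 * (1 * z ^ (k0 + 2 * n)) with hy0
  set y1 : ℝ → ℝ := fun z =>
    ∑' n, (tco A B Z J k0 n).1 * (((k0 + 2 * n : ℕ) : ℝ) * z ^ (k0 + 2 * n - 1)) with hy1
  have e0 : (yS A B Z J k0).re = y0 1 := by
    simp only [yS, hy0, (tco_ofReal A B Z J k0 _).1, one_pow, mul_one]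
    rw [← Complex.ofReal_tsum, Complex.ofReal_re]
  have e1 : (hS A B Z J k0).re = y1 1 := by
    have : hS A B Z J k0 = ((y1 1 : ℝ) : ℂ) := by
      simp only [hS, hy1, (tco_ofReal A B Z J k0 _).1, one_pow, mul_one]
      rw [Complex.ofReal_tsum]
      refine tsum_congr fun n => ?_
      push_cast
      ring
    rw [this, Complex.ofReal_re]
  have hc : 0 < cos φ1 := cos_pos_of_mem_Ioo ⟨by linarith, h1⟩
  have hm := mm_lt_one δ
  have hj : 2 * (1 - jj δ) * mm δ = 1 - 2 * jj δ := by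
    unfold jj mm
    field_simp
    ring
  have hj1 : 1 - jj δ ≠ 0 := by linarith [(jj_bd hδ).2]
  have main : ∀ x y : ℝ → ℝ, IsLin (cA (mm δ) ω) (cB (mm δ) ω) x y → ∀ φ ∈ Icc φ1 (π / 2),
      HasDerivAt (fun φ => x φ * (y1 (cos φ / cos φ1) * (-sin φ / cos φ1) * pm (mm δ) φ / ω) -
        y φ * y0 (cos φ / cos φ1)) 0 φ := by
    intro x y hxy φ hφ
    have c0 : 0 ≤ cos φ := cos_nonneg_of_mem_Icc ⟨by linarith [hφ.1], hφ.2⟩
    have c1 : cos φ ≤ cos φ1 := cos_le_cos_of_nonneg_of_le_pi h0.le (by linarith [hφ.2]) hφ.1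
    have hz : cos φ / cos φ1 ∈ Ioo (-(3 / 2) : ℝ) (3 / 2) :=
      ⟨lt_of_lt_of_le (by norm_num) (div_nonneg c0 hc.le),
        lt_of_le_of_lt ((div_le_one hc).2 c1) (by norm_num)⟩
    obtain ⟨y2, d0, d1, ode⟩ := wser2_ode hk1 ht hz
    have dz : HasDerivAt (fun φ => cos φ / cos φ1) (-sin φ / cos φ1) φ :=
      (hasDerivAt_cos φ).div_const _
    have dz' : HasDerivAt (fun φ => -sin φ / cos φ1) (-cos φ / cos φ1) φ :=
      (hasDerivAt_sin φ).neg.div_const _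
    have hp := pm_pos hm φ
    have dp : HasDerivAt (pm (mm δ)) (-(mm δ * (2 * sin φ * cos φ)) / (2 * pm (mm δ) φ)) φ := by
      have h := (((hasDerivAt_sin φ).pow 2).const_mul (mm δ)).const_sub 1
      have h2 := h.sqrt (Dm_pos hm φ).ne'
      refine HasDerivAt.congr_deriv (f := pm (mm δ)) h2 ?_
      simp [pm, Dm]
    have D0 : HasDerivAt (fun φ => y0 (cos φ / cos φ1))
        (y1 (cos φ / cos φ1) * (-sin φ / cos φ1)) φ :=
      HasDerivAt.comp (h₂ := y0) (h := fun φ => cos φ / cos φ1) φ d0 dz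
    have D1 : HasDerivAt (fun φ => y1 (cos φ / cos φ1)) (y2 * (-sin φ / cos φ1)) φ :=
      HasDerivAt.comp (h₂ := y1) (h := fun φ => cos φ / cos φ1) φ d1 dz
    refine (((hxy φ).1.fun_mul (((D1.fun_mul dz').fun_mul dp).div_const ω)).fun_sub
      ((hxy φ).2.fun_mul D0)).congr_deriv ?_
    change (1 - J * (cos φ / cos φ1) ^ 2 - Z * (cos φ / cos φ1) ^ 4) * y2 -
      (J * (cos φ / cos φ1) + 2 * Z * (cos φ / cos φ1) ^ 3) * y1 (cos φ / cos φ1) +
      (A + B * (cos φ / cos φ1) ^ 2) * y0 (cos φ / cos φ1) = 0 at ode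
    have hp2 : pm (mm δ) φ ^ 2 = 1 - mm δ * sin φ ^ 2 := pm_sq hm φ
    have hs := sin_sq_add_cos_sq φ
    generalize y1 (cos φ / cos φ1) = u1 at ode ⊢
    generalize y0 (cos φ / cos φ1) = u0 at ode ⊢
    unfold cA cB
    rw [eA, eB, eZ, eJ, hx] at ode
    generalize pm (mm δ) φ = P at hp hp2 ⊢
    generalize mm δ = m at hj hp2 ⊢
    generalize jj δ = j at hj hj1 ode
    generalize cos φ1 = c at hc ode ⊢
    generalize sin φ = S at hs hp2 ⊢
    generalize cos φ = C at hs ode ⊢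
    have ode' : ((1 - C ^ 2) * (1 + (1 - 2 * j) * C ^ 2)) * y2 -
        c * C * (2 * j + 2 * (1 - 2 * j) * C ^ 2) * u1 +
        2 * ω * c ^ 2 * (ω * j + (1 - 2 * j) * C ^ 2) * u0 = 0 := by
      rw [← ode]
      field_simp
      ring
    have key : S ^ 2 * P ^ 2 * y2 - c * C * P ^ 2 * u1 + c * m * S ^ 2 * C * u1 +
        ω * c ^ 2 * (ω * (1 - 2 * m) + 2 * m * C ^ 2) * u0 = 0 := by
      refine mul_left_cancel₀ (mul_ne_zero two_ne_zero hj1) ?_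
      rw [hp2, show S ^ 2 = 1 - C ^ 2 by linarith]
      linear_combination ode' + (-(1 - C ^ 2) ^ 2 * y2 + 2 * c * C * (1 - C ^ 2) * u1 +
        2 * ω * c ^ 2 * (C ^ 2 - ω) * u0) * hj
    field_simp
    linear_combination x φ * key
  have cst : ∀ x y : ℝ → ℝ, IsLin (cA (mm δ) ω) (cB (mm δ) ω) x y →
      x φ1 * -(sin φ1 / cos φ1 * y1 1 / cA (mm δ) ω φ1) - y φ1 * y0 1 =
        x (π / 2) * (y1 0 * (-1 / cos φ1) * pm (mm δ) (π / 2) / ω) - y (π / 2) * y0 0 := by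
    intro x y hxy
    have h := constant_of_has_deriv_right_zero
      (fun φ hφ => (main x y hxy φ hφ).continuousAt.continuousWithinAt)
      (fun φ hφ => (main x y hxy φ (Ico_subset_Icc_self hφ)).hasDerivWithinAt) (π / 2)
      ⟨h1.le, le_rfl⟩
    simp only [cos_pi_div_two, sin_pi_div_two, zero_div, div_self hc.ne'] at h
    rw [h]
    unfold cA
    have hp := pm_pos hm φ1
    field_simp
  rw [e0, e1]
  cases typ
  · obtain rfl : k0 = 0 := hk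
    have a0 : y0 0 = 1 := by
      rw [hy0]
      simp only
      rw [tsum_eq_single 0 fun n hn => by simp [hn]]
      simp [tco]
    have a1 : y1 0 = 0 := by
      rw [hy1]
      simp only
      rw [tsum_eq_single 0 fun n hn => by rw [zero_pow (by omega)]; simp]
      simp
    refine ⟨-1, by norm_num, fun x y hxy => ?_⟩
    rw [cst x y hxy, a0, a1]
    simp
  · obtain rfl : k0 = 1 := hk
    have a0 : y0 0 = 0 := by
      rw [hy0]
      simp
    have a1 : y1 0 = 1 := by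
      rw [hy1]
      simp only
      rw [tsum_eq_single 0 fun n hn => by rw [zero_pow (by omega)]; simp]
      simp [tco]
    have hp := pm_pos hm (π / 2)
    refine ⟨-1 / cos φ1 * pm (mm δ) (π / 2) / ω, ?_, fun x y hxy => ?_⟩
    · exact div_ne_zero (mul_ne_zero (div_ne_zero (by norm_num) hc.ne') hp.ne') hω.ne'
    · rw [cst x y hxy, a0, a1]
      simp only [if_true]
      ring

end Pool.Agent.HillD
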