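import Pool.Agent.P.MP_ae2765_an.WP3a
import Pool.Agent.P.MP_ae2765_an.WP3b
import Pool.Agent.P.MP_ae2765_an.WP3c
import Pool.Agent.P.MP_ae2765_an.WP3d
import Pool.Agent.P.MP_ae2765_an.WSer2
import Pool.Agent.P.MP_ae2765_an.WLoop
import Pool.Agent.P.MP_ae2765_an.WArg
import Pool.Agent.P.MP_ae2765_an.WPack
import Pool.Agent.P.MP_ae2765_an.WRp
import Pool.Agent.P.MP_ae2765_an.WMain2

/-! Third region: the criterion holds. -/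

namespace Pool.Agent.HillD
open Real Set Filter Topology Asymptotics Pool.Agent.HillD.Num Pool.Agent.P.MP_4c4e6e_co.Eng

theorem wp3_angle {x : ℝ} (h0 : 0 < x) (h1 : x ≤ 1 / 2) :
    ∃ φ : ℝ, π / 4 ≤ φ ∧ φ < π / 2 ∧ cos φ ^ 2 = x := by
  have s0 : 0 < √x := sqrt_pos.2 h0
  have s1 : √x ≤ √2 / 2 := by
    rw [sqrt_le_left (by positivity), div_pow, sq_sqrt (by norm_num)]
    linarith
  have s2 : √x ≤ 1 := sqrt_le_one.2 (by linarith)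
  refine ⟨arccos √x, ?_, arccos_lt_pi_div_two.2 s0, ?_⟩
  · have := arccos_le_arccos s1
    rwa [← cos_pi_div_four, arccos_cos (by positivity) (by linarith [pi_pos])] at this
  · rw [cos_arccos (by linarith) s2, sq_sqrt h0.le]

theorem wp3_chi {al s : ℝ} (hal : 0 < al) (hs0 : 0 ≤ s) : ∃ χ sg : ℝ, 0 ≤ χ ∧ χ ≤ 1 ∧ 0 ≤ sg ∧
    sg ≤ 3 / 5 ∧ sg = s * (χ / al) ∧ (χ = 1 ∨ sg = 3 / 5) := by
  rcases le_or_gt s (3 / 5 * al) with h | h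
  · refine ⟨1, s * (1 / al), zero_le_one, le_rfl, by positivity, ?_, rfl, Or.inl rfl⟩
    rw [mul_one_div, div_le_iff₀ hal]
    exact h
  · have hs : 0 < s := lt_of_le_of_lt (by positivity) h
    refine ⟨3 / 5 * al / s, 3 / 5, by positivity, (div_le_one hs).2 h.le, by norm_num, le_rfl, ?_,
      Or.inr rfl⟩
    field_simp

theorem wp3_pre (typ : Bool) {al xx χ sg : ℝ} (h0 : 0 ≤ al) (h1 : al ≤ 3953 / 2500) (h2 : 0 ≤ xx)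
    (h3 : xx ≤ 1) (hχ0 : 0 ≤ χ) (hχ1 : χ ≤ 1) (hs0 : 0 ≤ sg) (hs1 : sg ≤ 3 / 5)
    (hc : χ = 1 ∨ sg = 3 / 5) : ∃ p : Pre,
      (((if typ then 1 else 0 : ℕ) = 0 ∧ p = p3Pre0) ∨ ((if typ then 1 else 0 : ℕ) = 1 ∧ p = p3Pre1)) ∧
      p.holds (fun r => (χ = 1 ∧ 0 ≤ sg ∧ pPA.holds (sg :: r)) ∨
        (sg = 3 / 5 ∧ pPB.holds (χ :: r))) [xx, al] := by
  have a := P0_real al xx h0 h1 h2 h3
  have b := P1_real al xx h0 h1 h2 h3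
  cases typ
  · refine ⟨p3Pre0, Or.inl ⟨rfl, rfl⟩, ?_⟩
    rcases hc with hc | hc
    · exact Pre.holds_mono (fun r hr => Or.inl ⟨hc, hs0, hr⟩) _ _ (a.1 sg hs0 hs1)
    · exact Pre.holds_mono (fun r hr => Or.inr ⟨hc, hr⟩) _ _ (a.2 χ hχ0 hχ1)
  · refine ⟨p3Pre1, Or.inr ⟨rfl, rfl⟩, ?_⟩
    rcases hc with hc | hc
    · exact Pre.holds_mono (fun r hr => Or.inl ⟨hc, hs0, hr⟩) _ _ (b.1 sg hs0 hs1)
    · exact Pre.holds_mono (fun r hr => Or.inr ⟨hc, hr⟩) _ _ (b.2 χ hχ0 hχ1)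

/-- The analytic part: the phase function and its jet. -/
theorem wp3_phase (typ : Bool) {δ0 ω0 j0 s lam sg φ1 x1 bb N T : ℝ} {k0 : ℕ} {D : P3D}
    {Ar Bf Zr Jr : ℝ → ℝ} (hδ : 0 < δ0) (hω : 0 < ω0) (ej : j0 = jj δ0) (hsg : sg = s * lam)
    (h0 : 0 < φ1) (h1 : φ1 < π / 2) (hx : x1 = cos φ1 ^ 2) (hk : k0 = if typ then 1 else 0)
    (hW : ∀ τ ∈ Metric.ball (0 : ℂ) (1 / 4), Wk φ1 (lΩ ω0 sg τ) (cJ j0 lam τ) (211 / 500) (49 / 50)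
      N T (fun _ => bb) (fun _ => 0))
    (hb0 : 0 < bb) (hb1 : bb < 9 / 100) (hn : 0 < nrm0 D.Mr D.Mi)
    (hco : ∀ τ : ℝ, 2 * lΩ ω0 sg τ ^ 2 * cJ j0 lam τ * x1 = Ar τ ∧
      2 * lΩ ω0 sg τ * (1 - 2 * cJ j0 lam τ) * x1 ^ 2 = Bf τ ∧
      (1 - 2 * cJ j0 lam τ) * x1 ^ 2 = Zr τ ∧ 2 * cJ j0 lam τ * x1 = Jr τ)
    (hbd : ∀ τ ∈ Metric.ball (0 : ℂ) (1 / 4), ‖2 * lΩ ω0 sg τ ^ 2 * cJ j0 lam τ * x1‖ ≤ 47 / 2 ∧
      ‖2 * lΩ ω0 sg τ * (1 - 2 * cJ j0 lam τ) * x1 ^ 2‖ ≤ 29 ∧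
      ‖(1 - 2 * cJ j0 lam τ) * x1 ^ 2‖ ≤ 51 / 5000 ∧ ‖2 * cJ j0 lam τ * x1‖ ≤ 3 / 250000)
    (jr : JT (fun τ => (hS (Ar τ) (Bf τ) (Zr τ) (Jr τ) k0).re +
      1 / 2 * (Bf τ * (Ar τ + Bf τ)⁻¹ * (yS (Ar τ) (Bf τ) (Zr τ) (Jr τ) k0).re)) D.Mr)
    (ji : JT (fun τ => √((Ar τ + Bf τ) * (1 - Jr τ - Zr τ)⁻¹) *
      (yS (Ar τ) (Bf τ) (Zr τ) (Jr τ) k0).re) D.Mi)
    (jt : JT (fun τ => Bf τ * (Ar τ + Bf τ)⁻¹ * (√((Ar τ + Bf τ) * (1 - Jr τ - Zr τ)⁻¹))⁻¹) D.Tb) :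
    ∃ (δ ϕ : ℝ → ℝ) (c0 y1 y2 dl : ℝ), J2 δ δ0 (δ0 * lam) 0 ∧
      Rp typ δ (fun τ => ω0 * (1 + s * lam * τ)) ϕ ∧ 0 ≤ dl ∧ dl ≤ 2 ∧
      |y1| ≤ 4 * (N / (2 * (49 / 50) ^ 2) + T) + eA1 bb (l1i D.Mr D.Mi) ∧
      |y2| ≤ 16 * (N / (2 * (49 / 50) ^ 2) + T) + eA2 bb (l1i D.Mr D.Mi) ∧
      J2 ϕ c0 (lam * F1 φ1 ω0 j0 s + (l1i D.Mr D.Mi + 1 / 4 * D.Tb.2.1) + y1)
        (lam ^ 2 * F2 φ1 ω0 j0 s +
          (l2i D.Mr D.Mi * (1 + 11 / 10 * ((dl - 1) * bb)) + 1 / 4 * D.Tb.2.2) + y2) := by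
  obtain ⟨δ, hJ, hev⟩ := cJ_curve hδ lam
  rw [← ej] at hev
  have dΩ : DifferentiableOn ℂ (lΩ ω0 sg) (Metric.ball 0 (1 / 4)) := by
    unfold lΩ; fun_prop
  have dJ : DifferentiableOn ℂ (cJ j0 lam) (Metric.ball 0 (1 / 4)) := by
    unfold cJ; fun_prop
  obtain ⟨k, z, dk, dz, dT, hp⟩ := pack (c := 43 / 80) (bb := bb) h0 h1.le dΩ dJ hW
    (fun u _ => ⟨hasDerivAt_const u bb, hb0, le_rfl⟩) (by norm_num) (by norm_num) (by norm_num)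
    (by norm_num) (by linarith)
  obtain ⟨z1, z2, z3, b0, b1, b2, -, jz⟩ := hol_jet (by norm_num) dz fun τ hτ => (hp τ hτ).1
  obtain ⟨θ, c0, e1, e2, dl, dl0, dl2, he1, he2, jθ, hθ⟩ := arg_jet jr ji hn jz.j2 b0
    (b1.trans_eq (by ring)) (b2.trans_eq (by ring)) hb1.le
  obtain ⟨u1, u2, u3, -, a1, a2, -, ju⟩ := hol_jet (r := 1 / 4)
    (H := fun τ => k τ + z τ / 2 + Complex.I * Tt φ1 (lΩ ω0 sg τ) (cJ j0 lam τ))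
    (M := N / (2 * (49 / 50) ^ 2) + T) (by norm_num)
    ((dk.add (dz.div_const 2)).add (dT.const_mul _)) fun τ hτ => by
      refine (norm_add_le _ _).trans (add_le_add (hp τ hτ).2.1 ?_)
      rw [norm_mul, Complex.norm_I, one_mul]
      exact (hW τ hτ).tt
  have cω : ContinuousAt (fun τ : ℝ => ω0 * (1 + s * lam * τ)) 0 := by fun_prop
  have ω0' : 0 < ω0 * (1 + s * lam * 0) := by simpa using hω
  have eω : ∀ᶠ τ in 𝓝 (0 : ℝ), 0 < ω0 * (1 + s * lam * τ) := cω.eventually (lt_mem_nhds ω0')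
  have eb : ∀ᶠ τ : ℝ in 𝓝 0, (τ : ℂ) ∈ Metric.ball (0 : ℂ) (1 / 4) :=
    Complex.continuous_ofReal.continuousAt.eventually
      (Metric.isOpen_ball.mem_nhds (by simp))
  have eΩ : ∀ τ : ℝ, lΩ ω0 sg τ = ((ω0 * (1 + s * lam * τ) : ℝ) : ℂ) := fun τ => by
    unfold lΩ; rw [hsg]; push_cast; ring
  have ec : ∀ᶠ τ in 𝓝 (0 : ℝ), Ar τ = 2 * (ω0 * (1 + s * lam * τ)) ^ 2 * jj (δ τ) * x1 ∧
      Bf τ = 2 * (ω0 * (1 + s * lam * τ)) * (1 - 2 * jj (δ τ)) * x1 ^ 2 ∧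
      Zr τ = (1 - 2 * jj (δ τ)) * x1 ^ 2 ∧ Jr τ = 2 * jj (δ τ) * x1 := by
    filter_upwards [hev] with τ h
    obtain ⟨p1, p2, p3, p4⟩ := hco τ
    rw [h.2] at p1 p2 p3 p4
    rw [eΩ] at p1 p2
    exact ⟨by exact_mod_cast p1.symm, by exact_mod_cast p2.symm, by exact_mod_cast p3.symm,
      by exact_mod_cast p4.symm⟩
  have jM := main_jet2 (φ1 := φ1) hδ hω s hJ
  rw [← ej] at jM
  have jall := ((jM.add (J2.const_mul jt (1 / 4))).add ju.j2.im).add jθ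
  have eϕ : (fun τ : ℝ => Mn φ1 (ω0 * (1 + s * lam * τ)) (jj (δ τ)) + 1 / 4 * (Bf τ *
      (Ar τ + Bf τ)⁻¹ * (√((Ar τ + Bf τ) * (1 - Jr τ - Zr τ)⁻¹))⁻¹) +
      (k τ + z τ / 2 + Complex.I * Tt φ1 (lΩ ω0 sg τ) (cJ j0 lam τ)).im + θ τ) =ᶠ[𝓝 0]
      fun τ => ph0 φ1 (ω0 * (1 + s * lam * τ)) (jj (δ τ)) (k τ) + (θ τ + (z τ).im / 2) := by
    filter_upwards [hev, eω, ec] with τ h hω' hc
    rw [ph0, (p3_match (y := 0) (h := 0) 0 h.1 hω' h0 h1 hx hc.1 hc.2.1 hc.2.2.1 hc.2.2.2).1,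
      eΩ, h.2]
    simp only [Complex.add_im, Complex.div_ofNat_im, Complex.I_mul_im]
    ring
  have jϕ := jall.congr eϕ
  refine ⟨δ, _, _, u1.im + e1, u2.im + e2, dl, hJ, ?_, dl0, dl2, ?_, ?_,
    jϕ.of_eq rfl (by ring) (by ring)⟩
  · refine rp_of_br (φ1 := φ1) (k := fun τ : ℝ => k τ) (z := fun τ : ℝ => z τ)
      (v1 := fun τ => (yS (Ar τ) (Bf τ) (Zr τ) (Jr τ) k0).re)
      (y1 := fun τ => -(sin φ1 / cos φ1 * (hS (Ar τ) (Bf τ) (Zr τ) (Jr τ) k0).re /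
        cA (mm (δ τ)) (ω0 * (1 + s * lam * τ)) φ1))
      ⟨h0.le, by linarith [pi_pos]⟩ hJ.cont cω (hJ.val ▸ hδ) ω0' jz.j2.cont ?_ ?_ jϕ.cont ?_ ?_ ?_
    · have := (abs_le.1 ((Complex.abs_re_le_norm (z 0)).trans b0)).1
      simp only [Complex.ofReal_zero, Complex.add_re, Complex.one_re]
      linarith
    · have := jϕ.cont.sub (jθ.cont.add (jz.j2.im.cont.div_const 2))
      refine this.congr (Eventually.of_forall fun τ => ?_)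
      simp
    · filter_upwards [hev, eω, eb] with τ h hω' hτ
      exact (hp τ hτ).2.2 _ _ h.1 hω' (eΩ τ) h.2
    · filter_upwards [hev, eω, eb, ec] with τ h hω' hτ hc
      obtain ⟨p1, p2, p3, p4⟩ := hco τ
      obtain ⟨q1, q2, q3, q4⟩ := hbd τ hτ
      rw [p1, Complex.norm_real] at q1
      rw [p2, Complex.norm_real] at q2
      rw [p3, Complex.norm_real] at q3
      rw [p4, Complex.norm_real] at q4
      exact tr_series typ h.1 hω' h0 h1 hx hk hc.1 hc.2.1 hc.2.2.1 hc.2.2.2 q1 q2 q3 q4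
    · filter_upwards [hev, eω, ec, hθ] with τ h hω' hc hθ'
      rw [(p3_match (z τ) h.1 hω' h0 h1 hx hc.1 hc.2.1 hc.2.2.1 hc.2.2.2).2, mul_assoc,
        Complex.im_ofReal_mul, sub_add_cancel_left, Complex.ofReal_neg, mul_neg, hθ', mul_zero]
  · refine (abs_add_le _ _).trans (add_le_add ((Complex.abs_im_le_norm _).trans ?_) he1)
    exact a1.trans_eq (by ring)
  · refine (abs_add_le _ _).trans (add_le_add ((Complex.abs_im_le_norm _).trans ?_) he2)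
    exact a2.trans_eq (by ring)

theorem p3_good (typ : Bool) {δ0 ω0 s : ℝ} (hδ : 0 < δ0) (h1 : 1250 ≤ ω0)
    (h2 : aa ω0 (jj δ0) ≤ 5 / 2) (hs0 : 0 ≤ s) (hs1 : s ≤ 1) : Good typ δ0 ω0 s := by
  obtain ⟨j0, ej⟩ : ∃ j0, j0 = jj δ0 := ⟨_, rfl⟩
  obtain ⟨j1, j2⟩ := jj_bd hδ
  rw [← ej] at j1 j2 h2
  have hω : 0 < ω0 := by linarith
  have hκ : 0 < 1 - 2 * j0 := by linarith
  have a0 : 0 < aa ω0 j0 := by unfold aa; positivity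
  obtain ⟨al, hal, ea⟩ : ∃ al, 0 < al ∧ al ^ 2 = aa ω0 j0 := ⟨_, sqrt_pos.2 a0, sq_sqrt a0.le⟩
  rw [← ea] at h2
  obtain ⟨s1, es⟩ : ∃ s1, s1 = 10 - 2 * al ^ 2 := ⟨_, rfl⟩
  obtain ⟨x1, ex⟩ : ∃ x1, x1 = s1 / (2 * √(2 * ω0 * (1 - 2 * j0))) := ⟨_, rfl⟩
  obtain ⟨q1, q2, -, q4, q5, q6, q7, -, -, -, xx, x0, x1', eZ⟩ := p3_par hδ h1 ej hal ea h2 es ex
  obtain ⟨φ1, f0, f1, f2⟩ := wp3_angle q4 (by linarith)
  obtain ⟨χ, sg, c0, c1, g0, g1, hsg, hc⟩ := wp3_chi hal hs0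
  obtain ⟨p, hp, hΦ⟩ := wp3_pre typ hal.le q1 x0 x1' c0 c1 g0 g1 hc
  have s0 : 5 ≤ s1 := by linarith
  have s10 : s1 ≤ 10 := by nlinarith [sq_nonneg al]
  obtain ⟨nu, hnu⟩ : ∃ nu, nu = 1 / ω0 ^ 2 := ⟨_, rfl⟩
  obtain ⟨jk, hjk⟩ : ∃ jk, jk = 2 * j0 / ((1 - 2 * j0) * (s1 * al ^ 2)) := ⟨_, rfl⟩
  obtain ⟨d1, hd1⟩ : ∃ d1, d1 = -(2 * (s1 * (1 - 2 * j0) * al * χ)) := ⟨_, rfl⟩
  obtain ⟨d2, hd2⟩ : ∃ d2, d2 = s1 * (4 * (1 - 2 * j0) ^ 2 - (1 - 2 * j0)) * χ ^ 2 := ⟨_, rfl⟩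
  obtain ⟨B, hB⟩ : ∃ B, B = 1 / 4 * s1 ^ 2 * (s1 * al ^ 2 + 1 / 4 * s1 ^ 2)⁻¹ := ⟨_, rfl⟩
  have n0 : 0 ≤ nu := by rw [hnu]; positivity
  have k0 : 0 ≤ jk := by rw [hjk]; positivity
  obtain ⟨t0, t1, t2, t3, t4, t5, m0, m1, m2, m3, m4, m5, y0, y1, y2, y3, y4, y5, r0, r1, r2, r3, r4,
    r5, hΦ, hj⟩ := p3_loop hp hΦ rfl es eZ rfl rfl n0 (hnu ▸ q6) k0 (hjk ▸ q7)
  have jd : J2 (fun τ : ℝ => d1 * τ + d2 * τ ^ 2) 0 d1 d2 := by simpa using j2_poly 0 d1 d2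
  have ju : J2 (fun τ : ℝ => sg * τ) 0 sg 0 := by simpa using j2_lin 0 sg
  obtain ⟨hy, hh⟩ := hj d1 d2 sg _ _ jd ju
  have hco := fun τ : ℂ => p3_coef (χ := χ) (sg := sg) hδ h1 ej hal ea h2 es ex τ
    (d1 * τ + d2 * τ ^ 2) (by rw [hd1, hd2]) nu jk hnu hjk
  have hd := fun (τ : ℂ) (hτ : τ ∈ Metric.ball (0 : ℂ) (1 / 4)) =>
    p3_disc hδ h1 ej hal ea h2 es ex c0 c1 g0 g1 f0 f1.le f2 hB (mem_ball_zero_iff.1 hτ).le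
  have S0 : 0 < s1 * al ^ 2 + 1 / 4 * s1 ^ 2 := by positivity
  obtain ⟨D, e1, e2, e3, e4, e5, e6, e7, e8, Y0, Y1, Y2, H0, H1, H2, jr, ji, jt⟩ :=
    p3_jets (k0 := if typ then 1 else 0) (by cases typ <;> simp) rfl rfl rfl rfl rfl rfl rfl rfl
      (fun τ hτ => by
        obtain ⟨p1, p2, p3, p4⟩ := hco τ
        have := (hd τ hτ).2
        rwa [p1, p2, p3, p4] at this) S0
      (by
        have u1 : nu * (s1 * al ^ 2) ≤ 13 / 20000000 * (10 * (5 / 2)) :=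
          mul_le_mul (hnu ▸ q6) (mul_le_mul s10 h2 (by positivity) (by norm_num)) (by positivity)
            (by norm_num)
        have u2 : (1 - 2 * j0) * x1 ^ 2 ≤ 1 * (1002 / 10000) ^ 2 :=
          mul_le_mul (by linarith) (pow_le_pow_left₀ q4.le q5 2) (by positivity) (by norm_num)
        linarith) hy hh
  have eB : D.AA.1 = B := by
    rw [hB, ← e2, ← e1]; rfl
  obtain ⟨hn, hb1, hcr⟩ := p3_num (al := al) (a := al ^ 2) (s1 := s1) (ka := 1 - 2 * j0) (χ := χ)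
    (tl := []) D rfl es q2 (by linarith) (e6.trans hd1) (e7.trans hd2)
    (by rw [e1, e2, e3, e4, e5, e8]; exact hΦ) Y0 (by rw [e6, e8]; exact Y1)
    (by rw [e6, e7, e8]; exact Y2) H0 (by rw [e6, e8]; exact H1) (by rw [e6, e7, e8]; exact H2)
  rw [eB] at hb1 hcr
  rw [e8] at hcr
  have B0 : 0 ≤ B := by rw [hB]; positivity
  obtain ⟨δ, ϕ, w0, w1, w2, dl, hJ, hR, l0, l2, z1, z2, jϕ⟩ := wp3_phase typ hδ hω ej hsg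
    (lt_of_lt_of_le (by positivity) f0) f1 f2.symm rfl (fun τ hτ => (hd τ hτ).1)
    (by unfold p3b; positivity) hb1 hn
    (fun τ => by
      obtain ⟨p1, p2, p3, p4⟩ := hco τ
      rw [p1, p2, p3, p4]
      push_cast
      exact ⟨rfl, rfl, rfl, rfl⟩) (fun τ hτ => (hd τ hτ).2) jr ji jt
  obtain ⟨M1, M2⟩ := p3_main hδ h1 ej hal ea h2 es ex c0 hs0 hs1 hsg
    (le_trans (by positivity) f0) f1.le f2 hB
  exact Or.inr ⟨δ, ϕ, χ / al, w0, _, _, hJ, hR, jϕ, hcr _ _ w1 w2 dl l0 l2 z1 z2 M1 M2⟩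

end Pool.Agent.HillD
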