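import Pool.Agent.P.MP_ae2765_an.WReg2a

/-! Lower bounds for the branches with index at least 31. -/

namespace Pool.Agent.HillD
open Real Set Filter Topology Asymptotics

variable {θ0 δ ω : ℝ} {l : ℕ}

theorem wreg2_mono (hθ : θ0 = 0 ∨ θ0 = π / 2) (hl : 31 ≤ l) {x y : ℝ} (hx : 0 ≤ x) (h : x ≤ y) :
    cur θ0 l (mm x) ≤ cur θ0 l (mm y) := by
  rcases h.eq_or_lt with rfl | h
  · exact le_rfl
  · exact (cur_strictMono hθ (Or.inl (by omega)) ⟨mm_nonneg x, mm_lt x⟩ ⟨mm_nonneg y, mm_lt y⟩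
      (mm_strictMono hx h)).le

theorem wreg2_ge (hθ : θ0 = 0 ∨ θ0 = π / 2) (hl : 31 ≤ l) {x : ℝ} (hx : 0 ≤ x) :
    31 ≤ cur θ0 l (mm x) := by
  have h1 := wreg2_mono hθ hl le_rfl hx
  have h2 : mm 0 = 0 := by simp [mm]
  rw [h2, cur_zero hθ (by omega)] at h1
  have h3 : (31 : ℝ) ≤ l := by exact_mod_cast hl
  linarith

theorem reg_c (hθ : θ0 = 0 ∨ θ0 = π / 2) (hl : 31 ≤ l) (hδ : 0 < δ) (hω : ω = cur θ0 l (mm δ))
    (ht : ω ≤ δ ^ 2) : 475 ≤ ω := by
  have h31 := wreg2_ge hθ hl hδ.le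
  have h1 : 1 ≤ δ := by nlinarith
  have hc : ContinuousOn (fun x => cur θ0 l (mm x) - x ^ 2) (Icc 1 δ) := by
    intro x hx
    have hx0 : 0 < x := by linarith [hx.1]
    have c1 : ContinuousAt mm x := by
      unfold mm
      exact ContinuousAt.div (by fun_prop) (by fun_prop) (by positivity)
    have c2 := (cur_cont hθ (by omega : 1 ≤ l) (mm_pos hx0) (mm_lt x)).comp c1
    exact (c2.sub (by fun_prop)).continuousWithinAt
  obtain ⟨x, hx, hx'⟩ := intermediate_value_Icc' h1 hc (show (0 : ℝ) ∈ Icc _ _ from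
    ⟨by linarith, by linarith [wreg2_ge hθ hl zero_le_one]⟩)
  have hx0 : 0 < x := by linarith [hx.1]
  have e : x ^ 2 = cur θ0 l (mm x) := by simp only at hx'; linarith
  have h2 := reg_a hθ hl hx0 e le_rfl
  have h3 := wreg2_mono hθ hl hx0.le hx.2
  rw [← e, ← hω] at h3
  refine le_trans ?_ h3
  generalize x ^ 2 = w at h2 e
  have hw : 31 ≤ w := e ▸ wreg2_ge hθ hl hx0.le
  have h4 : (154 / 5 : ℝ) ^ 2 ≤ (w * √(2 / (1 + w))) ^ 2 := by gcongr
  rw [mul_pow, sq_sqrt (by positivity), mul_div_assoc', le_div_iff₀ (by positivity)] at h4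
  by_contra hc
  push Not at hc
  nlinarith

theorem wreg2_poly {X : ℝ} (h0 : 0 ≤ X) (h1 : X ≤ 1) :
    2500 * (101 / 1000 + X) ≤ (20 + 31 * X - 55 / 4 * X ^ 2) ^ 2 * (1 + X) := by
  have h2 : 0 ≤ 1 - X := by linarith
  nlinarith [mul_nonneg h0 h2, mul_nonneg h0 (sq_nonneg (X - 1 / 3)),
    mul_nonneg h2 (sq_nonneg (X - 1 / 3)), mul_nonneg (mul_nonneg h0 h2) (sq_nonneg (X - 1 / 3)),
    mul_nonneg (mul_nonneg (mul_nonneg h0 h2) h0) (sq_nonneg (X - 1 / 3)),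
    mul_nonneg (mul_nonneg (mul_nonneg h0 h2) h2) (sq_nonneg (X - 1 / 3)),
    sq_nonneg (X - 1 / 3), mul_nonneg (mul_nonneg h0 h0) h2, mul_nonneg (mul_nonneg h0 h2) h2]

theorem wreg2_qr {w : ℝ} (h0 : 0 ≤ w) (h1 : w ≤ 1250) (φ : ℝ) :
    qr w (1 / 12401) φ ≤ 20 + 31 * cos φ ^ 2 - 55 / 4 * cos φ ^ 4 := by
  unfold qr Pr Qr
  have a0 := sq_nonneg (cos φ)
  have a1 := cos_sq_le_one φ
  rw [show cos φ ^ 4 = (cos φ ^ 2) ^ 2 by ring]
  generalize cos φ ^ 2 = X at a0 a1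
  have h2 := wreg2_poly a0 a1
  have h3 : 0 ≤ 20 + 31 * X - 55 / 4 * X ^ 2 := by nlinarith
  refine sqrt_le_iff.2 ⟨h3, ?_⟩
  have h4 : 2500 * (101 / 1000 + X) / (1 + X) ≤ (20 + 31 * X - 55 / 4 * X ^ 2) ^ 2 := by
    rwa [div_le_iff₀ (by positivity)]
  refine le_trans ?_ h4
  have h5 : (w * (1 / 12401) + (1 - 2 * (1 / 12401)) * X) / (1 + (1 - 2 * (1 / 12401)) * X) ≤
      (101 / 1000 + X) / (1 + X) := by
    rw [div_le_div_iff₀ (by positivity) (by positivity)]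
    nlinarith [mul_nonneg a0 (sub_nonneg.2 h1)]
  rw [mul_div_assoc, mul_div_assoc]
  exact mul_le_mul (by linarith) h5 (by positivity) (by norm_num)

theorem wreg2_Mn {w : ℝ} (h0 : 0 ≤ w) (h1 : w ≤ 1250) :
    Mn (π / 2) w (1 / 12401) ≤ 971 / 64 * π := by
  have c2 : ∫ x in (0 : ℝ)..π / 2, cos x ^ 2 = π / 4 := by
    rw [integral_cos_sq]
    simp
    ring
  have c4 : ∫ x in (0 : ℝ)..π / 2, cos x ^ 4 = 3 * π / 16 := by
    rw [show (4 : ℕ) = 2 + 2 from rfl, integral_cos_pow, c2]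
    simp
    ring
  have hq : Continuous (qr w (1 / 12401)) := by
    unfold qr Pr Qr
    refine Continuous.sqrt (Continuous.div (by fun_prop) (by fun_prop) fun x => ?_)
    positivity
  have i2 : IntervalIntegrable (fun x => cos x ^ 2) MeasureTheory.volume 0 (π / 2) :=
    (by fun_prop : Continuous fun x => cos x ^ 2).intervalIntegrable _ _
  have i4 : IntervalIntegrable (fun x => cos x ^ 4) MeasureTheory.volume 0 (π / 2) :=
    (by fun_prop : Continuous fun x => cos x ^ 4).intervalIntegrable _ _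
  have h2 : Mn (π / 2) w (1 / 12401) ≤
      ∫ x in (0 : ℝ)..π / 2, (20 + 31 * cos x ^ 2 - 55 / 4 * cos x ^ 4) :=
    intervalIntegral.integral_mono_on (by positivity) (hq.intervalIntegrable _ _)
      ((by fun_prop : Continuous fun x => 20 + 31 * cos x ^ 2 - 55 / 4 * cos x ^ 4).intervalIntegrable
        _ _) fun x _ => wreg2_qr h0 h1 x
  rw [intervalIntegral.integral_sub (intervalIntegrable_const.add (i2.const_mul _)) (i4.const_mul _),
    intervalIntegral.integral_add intervalIntegrable_const (i2.const_mul _),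
    intervalIntegral.integral_const_mul, intervalIntegral.integral_const_mul, c2, c4,
    intervalIntegral.integral_const, smul_eq_mul] at h2
  linarith

theorem wreg2_star (hθ : θ0 = 0 ∨ θ0 = π / 2) (hl : 31 ≤ l) : 1250 ≤ cur θ0 l (mm √12399) := by
  have hp : 0 < √12399 := by positivity
  have hs : √12399 ^ 2 = 12399 := sq_sqrt (by norm_num)
  by_contra hc
  push Not at hc
  have h1 := reg_c hθ hl hp rfl (by linarith)
  have h2 := gauge_bound hθ (by omega : 1 ≤ l) hp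
  have hj : jj √12399 = 1 / 12401 := by
    unfold jj
    rw [hs]
    norm_num
  rw [hj, hs] at h2
  generalize cur θ0 l (mm √12399) = w at hc h1 h2
  have h3 := wreg2_Mn (w := w) (by linarith) hc.le
  have h4 : 12399 / w ≤ 31 := by
    rw [div_le_iff₀ (by linarith)]
    linarith
  have h5 : log (1 + 12399 / w) ≤ log (2 ^ 5) :=
    log_le_log (by positivity) (by linarith)
  rw [log_pow] at h5
  have h6 := log_two_lt_d9
  have h7 : (31 : ℝ) ≤ l := by exact_mod_cast hl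
  have h8 := pi_gt_three
  have h9 : 31 * π ≤ l * π := by gcongr
  push_cast at h5
  linarith

theorem reg_d (hθ : θ0 = 0 ∨ θ0 = π / 2) (hl : 31 ≤ l) (hδ : 0 < δ) (hω : ω = cur θ0 l (mm δ)) :
    126 * (1 + δ ^ 2) ≤ ω ^ 2 ∨ 1250 ≤ ω := by
  have hp : 0 < √12399 := by positivity
  have hs : √12399 ^ 2 = 12399 := sq_sqrt (by norm_num)
  have h1 := wreg2_star hθ hl
  rcases le_total δ √12399 with h | h
  · left
    have h2 := cur_div_anti hθ (by omega : 1 ≤ l) (mem_Ioi.2 hδ) (mem_Ioi.2 hp) h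
    simp only at h2
    rw [hs, ← hω] at h2
    have h3 : 1250 / √(1 + 12399) ≤ ω / √(1 + δ ^ 2) := le_trans (by gcongr) h2
    have h4 : (1250 / √(1 + 12399)) ^ 2 ≤ (ω / √(1 + δ ^ 2)) ^ 2 := by gcongr
    rw [div_pow, div_pow, sq_sqrt (by positivity), sq_sqrt (by positivity),
      le_div_iff₀ (by positivity)] at h4
    nlinarith [sq_nonneg δ]
  · right
    rw [hω]
    exact h1.trans (wreg2_mono hθ hl hp.le h)

/-- pure algebra: the alternative between the last two regions -/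
theorem reg_e (hδ : 0 < δ) (ht : ω ≤ δ ^ 2) (h1 : 475 ≤ ω)
    (h2 : 126 * (1 + δ ^ 2) ≤ ω ^ 2 ∨ 1250 ≤ ω) :
    (1250 ≤ ω ∧ aa ω (jj δ) ≤ 5 / 2) ∨
      (5 / 2 ≤ aa ω (jj δ) ∧ 311 / 5 * (ω / δ ^ 2) ≤ aa ω (jj δ) ^ 2) := by
  have hD : 0 < δ ^ 2 := by positivity
  have hω : 0 < ω := by linarith
  have hk : 1 - 2 * jj δ = δ ^ 2 / (δ ^ 2 + 2) := by
    unfold jj
    field_simp
    ring
  have a0 : 0 ≤ aa ω (jj δ) := by
    unfold aa jj
    positivity
  have a2 : aa ω (jj δ) ^ 2 = ω ^ 3 / (2 * δ ^ 2 * (δ ^ 2 + 2)) := by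
    unfold aa
    rw [hk, mul_pow, sq_sqrt (by positivity)]
    unfold jj
    field_simp
  generalize aa ω (jj δ) = a at a0 a2
  generalize δ ^ 2 = D at ht h2 hD a2
  have k1 : 622 / 5 * (D + 2) ≤ ω ^ 2 → 311 / 5 * (ω / D) ≤ a ^ 2 := fun h => by
    rw [a2, mul_div_assoc', div_le_div_iff₀ hD (by positivity)]
    nlinarith [mul_le_mul_of_nonneg_left h (mul_pos hω hD).le]
  by_cases h3 : 1250 ≤ ω
  · rcases le_total a (5 / 2) with h | h
    · exact Or.inl ⟨h3, h⟩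
    · refine Or.inr ⟨h, k1 ?_⟩
      have h4 : (5 / 2) ^ 2 ≤ a ^ 2 := by gcongr
      rw [a2, le_div_iff₀ (by positivity)] at h4
      by_contra hc
      push Not at hc
      have h5 : 1250 * ω ≤ ω ^ 2 := by nlinarith
      have h6 : 10 * ω ≤ D := by linarith
      have h7 : ω * ω ^ 2 < ω * (622 / 5 * (D + 2)) := mul_lt_mul_of_pos_left hc hω
      have h8 : 10 * ω * (D + 2) ≤ D * (D + 2) := by gcongr
      nlinarith
  · push Not at h3
    have h4 := h2.resolve_right (not_le.2 h3)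
    refine Or.inr ⟨?_, k1 (by linarith)⟩
    refine (abs_le_of_sq_le_sq' ?_ a0).2
    rw [a2, le_div_iff₀ (by positivity)]
    have h5 : (126 * (1 + D)) ^ 2 ≤ (ω ^ 2) ^ 2 := by gcongr
    have h6 : ω ^ 3 * ω ≤ ω ^ 3 * 1250 := by gcongr
    nlinarith

end Pool.Agent.HillD
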