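import Pool.Agent.P.MP_ae2765_an.WTop0
import Pool.Agent.P.MP_ae2765_an.WJet

/-! The tangent line criterion and uniqueness of the inflection point. -/

namespace Pool.Agent.HillD
open Real Set Filter Topology Asymptotics

theorem wtop_43 : (fun τ : ℝ => τ ^ 4) =O[𝓝 0] fun τ : ℝ => τ ^ 3 :=
  (isLittleO_pow_pow (by norm_num)).isBigO

theorem wtop_taylor {f : ℝ → ℝ} {x : ℝ} (hf : AnalyticAt ℝ f x) (h2 : deriv^[2] f x = 0) :
    (fun h => f (x + h) - (f x + deriv f x * h + deriv^[3] f x / 6 * h ^ 3)) =O[𝓝 0]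
      fun h : ℝ => h ^ 4 := by
  refine ((hf.hasFPowerSeriesAt.isBigO_sub_partialSum_pow 4).congr_left fun h => ?_).trans
    (((isBigO_refl (fun h : ℝ => h) (𝓝 0)).norm_left).pow 4)
  simp only [FormalMultilinearSeries.partialSum, Finset.sum_range_succ, Finset.sum_range_zero,
    FormalMultilinearSeries.ofScalars_apply_eq, iteratedDeriv_eq_iterate, h2, smul_eq_mul]
  simp [Nat.factorial]

theorem wtop_sand {u ϕ : ℝ → ℝ} {c0 c1 c2 : ℝ} (h : Sand u ϕ)
    (hu : u =O[𝓝 0] fun τ : ℝ => τ ^ 3) (hj : J2 ϕ c0 c1 c2) : c1 = 0 ∧ c2 = 0 := by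
  obtain ⟨C, hC⟩ := h
  have h1 : (fun τ => ϕ τ - ϕ 0) =O[𝓝 0] u := IsBigO.of_bound C (hC.mono fun τ hτ => hτ.1)
  exact (hj.unique ((j2_const (ϕ 0)).of_sub (h1.trans hu))).2

theorem wtop_lim {g : ℝ → ℝ} {c : ℝ} (h : (fun τ => g τ - c * τ ^ 3) =O[𝓝 0] fun τ : ℝ => τ ^ 4) :
    Tendsto (fun τ => g τ / τ ^ 3) (𝓝[≠] 0) (𝓝 c) := by
  have h1 := ((h.trans_isLittleO (isLittleO_pow_pow (show 3 < 4 by norm_num))
    ).tendsto_div_nhds_zero.mono_left (nhdsWithin_le_nhds (s := {0}ᶜ))).add_const c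
  rw [zero_add] at h1
  refine h1.congr' (eventually_nhdsWithin_of_forall fun τ hτ => ?_)
  have : τ ≠ 0 := hτ
  field_simp
  ring

theorem tangent {f : ℝ → ℝ} {δ0 : ℝ} {typ : Bool} (hf : AnalyticAt ℝ f δ0) (hδ : 0 < δ0)
    (hp : 0 < f δ0) (h2 : deriv^[2] f δ0 = 0)
    (hloc : ∀ δ ω ϕ : ℝ → ℝ, δ 0 = δ0 → ω 0 = f δ0 → Rp typ δ ω ϕ →
      Sand (fun τ => ω τ - f (δ τ)) ϕ)
    (hg : Good typ δ0 (f δ0) (δ0 * deriv f δ0 / f δ0)) : deriv^[3] f δ0 < 0 := by
  have hT := wtop_taylor hf h2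
  set f3 := deriv^[3] f δ0
  rcases hg with ⟨ϕ, c0, c1, c2, c3, hR, hJ, hc⟩ | ⟨δ, ϕ, lam, c0, c1, c2, hd, hR, hJ, hc⟩
  · have hS := hloc _ _ ϕ (by simp) (by simp) hR
    have ht : Tendsto (fun τ : ℝ => δ0 * τ) (𝓝 0) (𝓝 0) := by
      simpa using (tendsto_id (x := 𝓝 (0 : ℝ))).const_mul δ0
    have hu : (fun τ => (f δ0 * (1 + δ0 * deriv f δ0 / f δ0 * τ) - f (δ0 * (1 + τ))) -
        -(f3 / 6 * δ0 ^ 3) * τ ^ 3) =O[𝓝 0] fun τ : ℝ => τ ^ 4 := by
      refine ((hT.comp_tendsto ht).neg_left.congr_left fun τ => ?_).trans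
        (((isBigO_refl (fun τ : ℝ => τ ^ 4) _).const_mul_left (δ0 ^ 4)).congr_left fun τ => ?_)
      · simp only [Function.comp, mul_add, mul_one]
        field_simp
        ring
      · simp only [Function.comp]
        ring
    have hu3 := (hu.trans wtop_43).add
      ((isBigO_refl (fun τ : ℝ => τ ^ 3) (𝓝 0)).const_mul_left (-(f3 / 6 * δ0 ^ 3)))
    simp only [sub_add_cancel] at hu3
    obtain ⟨rfl, rfl⟩ := wtop_sand hS hu3 hJ.j2
    have h3 := hc rfl rfl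
    have hϕ : (fun τ => ϕ τ - ϕ 0 - c3 * τ ^ 3) =O[𝓝 0] fun τ : ℝ => τ ^ 4 := by
      refine IsBigO.congr_left hJ fun τ => ?_
      rw [hJ.j2.val]
      simp only [RCLike.ofReal_real_eq_id, id]
      ring
    obtain ⟨C, hC⟩ := hS
    have l1 := wtop_lim hu
    have l2 := wtop_lim hϕ
    have hC' := hC.filter_mono (nhdsWithin_le_nhds (s := {0}ᶜ))
    have e1 : 0 ≤ c3 * -(f3 / 6 * δ0 ^ 3) := ge_of_tendsto (l2.mul l1) (hC'.mono fun τ hτ => by
      rw [div_mul_div_comm]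
      exact div_nonneg hτ.2 (mul_self_nonneg _))
    have e2 : |c3| ≤ C * |-(f3 / 6 * δ0 ^ 3)| :=
      le_of_tendsto_of_tendsto l2.abs (l1.abs.const_mul C) (hC'.mono fun τ hτ => by
        simp only [abs_div, ← mul_div_assoc]
        exact div_le_div_of_nonneg_right hτ.1 (abs_nonneg _))
    have hd3 : 0 < δ0 ^ 3 := by positivity
    rcases lt_trichotomy f3 0 with h | h | h
    · exact h
    · rw [h] at e2
      simp only [zero_div, zero_mul, neg_zero, abs_zero, mul_zero] at e2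
      exact absurd ((le_abs_self c3).trans e2) (not_le.2 h3)
    · have : 0 < c3 * (f3 / 6 * δ0 ^ 3) := by positivity
      linarith
  · have hS := hloc δ _ ϕ hd.val (by simp) hR
    have ht : Tendsto (fun τ => δ τ - δ0) (𝓝 0) (𝓝 0) := by
      simpa [hd.val] using hd.cont.tendsto.sub_const δ0
    have h3 : (fun τ => δ τ - δ0 - δ0 * lam * τ) =O[𝓝 0] fun τ : ℝ => τ ^ 3 := by
      refine IsBigO.congr_left hd fun τ => ?_
      simp only [RCLike.ofReal_real_eq_id, id]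
      ring
    have h1 : (fun τ => δ τ - δ0) =O[𝓝 0] fun τ : ℝ => τ := by
      have := (h3.trans (isLittleO_pow_id (𝕜 := ℝ) (show 1 < 3 by norm_num)).isBigO).add
        ((isBigO_refl (fun τ : ℝ => τ) (𝓝 0)).const_mul_left (δ0 * lam))
      simpa only [sub_add_cancel] using this
    have hu := ((((hT.comp_tendsto ht).trans (h1.pow 4)).trans wtop_43).neg_left.sub
      (h3.const_mul_left (deriv f δ0))).sub ((h1.pow 3).const_mul_left (f3 / 6))
    obtain ⟨e1, e2⟩ := wtop_sand hS (hu.congr_left fun τ => by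
      simp only [Function.comp, add_sub_cancel]
      field_simp
      ring) hJ
    exact absurd e2 (hc e1)

end Pool.Agent.HillD
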