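import Pool.Agent.P.MP_ae2765_an.WR1
import Pool.Agent.P.MP_ae2765_an.WC2
import Pool.Agent.P.MP_ae2765_an.WP3
import Pool.Agent.P.MP_ae2765_an.WReg2
import Pool.Agent.P.MP_ae2765_an.WTop

/-! Branches with index at least 31. -/

namespace Pool.Agent.HillD
open Real Set Filter Topology Asymptotics

theorem big_l {θ0 : ℝ} {l : ℕ} (hθ : θ0 = 0 ∨ θ0 = π / 2) (hl : 31 ≤ l) {δ : ℝ} (hδ : 0 < δ)
    (h2 : deriv^[2] (fun δ => cur θ0 l (mm δ)) δ = 0) :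
    deriv^[3] (fun δ => cur θ0 l (mm δ)) δ < 0 := by
  obtain ⟨typ, hloc⟩ := loc hθ (by omega : 1 ≤ l) hδ
  have hp : 0 < cur θ0 l (mm δ) := (cur_spec hθ (by omega) (mm_nonneg δ) (mm_lt δ)).1
  obtain ⟨s0, s1⟩ := slope_bd hθ (by omega : 2 ≤ l) hδ
  have s2 : δ ^ 2 / (1 + δ ^ 2) ≤ 1 := by
    rw [div_le_one (by positivity)]; linarith
  refine tangent ((isLine hθ (Or.inl (by omega))).1 δ hδ) hδ hp h2 hloc ?_
  rcases le_total (δ ^ 2) (cur θ0 l (mm δ)) with ht | ht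
  · rcases le_total ((1 + δ ^ 2) ^ 2 / cur θ0 l (mm δ)) (23 / 5) with h | h
    · exact r1_good1 typ hδ hp h (reg_b hθ hl hδ rfl ht h) s0 s1
    · exact r1_good2 typ hδ hp ht h (reg_a hθ hl hδ rfl ht) s0 s1
  · have hc := reg_c hθ hl hδ rfl ht
    rcases reg_e hδ ht hc (reg_d hθ hl hδ rfl) with h | h
    · exact p3_good typ hδ h.1 h.2 s0 (s1.trans s2)
    · exact c2_good typ hδ ht hc h.1 h.2 s0 (s1.trans s2)

end Pool.Agent.HillD
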