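import Pool.Agent.P.MP_ae2765_an.WSa

/-! Real parameters: the disc, the root along the path, and the primitive. -/

namespace Pool.Agent.HillD
open Real Set Filter Topology Asymptotics

variable {ω j φ1 : ℝ}

theorem wbr0_cos {φ : ℂ} (h : ‖φ‖ ≤ π / 2) (him : (Complex.cos φ ^ 2).im = 0) :
    0 ≤ (Complex.cos φ ^ 2).re := by
  have hre : (Complex.cos φ).re = cos φ.re * cosh φ.im := by
    rw [Complex.cos_eq]
    simp [Complex.cos_ofReal_re, Complex.cosh_ofReal_re, Complex.sin_ofReal_im,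
      Complex.sinh_ofReal_im, Complex.cos_ofReal_im, Complex.cosh_ofReal_im]
  have hi : (Complex.cos φ).im = -(sin φ.re * sinh φ.im) := by
    rw [Complex.cos_eq]
    simp [Complex.sin_ofReal_re, Complex.sinh_ofReal_re, Complex.sin_ofReal_im,
      Complex.sinh_ofReal_im, Complex.cos_ofReal_im, Complex.cosh_ofReal_im]
  have hb : (Complex.cos φ).im = 0 := by
    rw [sq, Complex.mul_im] at him
    have h2 : (Complex.cos φ).re * (Complex.cos φ).im = 0 := by linarith
    rcases mul_eq_zero.1 h2 with h3 | h3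
    · rw [hre] at h3
      have h4 : cos φ.re = 0 := (mul_eq_zero.1 h3).resolve_right (cosh_pos _).ne'
      have h5 : π / 2 ≤ |φ.re| := by
        by_contra h5
        have h6 := abs_lt.1 (not_le.1 h5)
        exact (cos_pos_of_mem_Ioo ⟨h6.1, h6.2⟩).ne' h4
      have h6 : φ.re ^ 2 + φ.im ^ 2 ≤ (π / 2) ^ 2 := by
        have e : ‖φ‖ ^ 2 = φ.re ^ 2 + φ.im ^ 2 := by
          rw [Complex.sq_norm, Complex.normSq_apply]; ring
        rw [← e]
        exact pow_le_pow_left₀ (norm_nonneg _) h 2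
      have h7 : (π / 2) ^ 2 ≤ φ.re ^ 2 := by
        rw [← sq_abs φ.re]
        exact pow_le_pow_left₀ (by positivity) h5 2
      have h8 : φ.im = 0 := by
        have : φ.im ^ 2 ≤ 0 := by linarith
        exact pow_eq_zero_iff (two_ne_zero) |>.1 (le_antisymm this (sq_nonneg _))
      rw [hi, h8, sinh_zero, mul_zero, neg_zero]
    · exact h3
  rw [sq, Complex.mul_re, hb]
  nlinarith [mul_self_nonneg (Complex.cos φ).re]

theorem wbr0_slit (hω : 0 < ω) (hj : 0 < j) (hj2 : j < 1 / 2) {X : ℂ}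
    (hX : X.im = 0 → 0 ≤ X.re) : PP ω j X ∈ Complex.slitPlane ∧ QQ j X ∈ Complex.slitPlane ∧
      2 * (ω : ℂ) * PP ω j X / QQ j X ∈ Complex.slitPlane := by
  have hκ : 0 < 1 - 2 * j := by linarith
  have hωj : 0 < ω * j := mul_pos hω hj
  have pr : (PP ω j X).re = ω * j + (1 - 2 * j) * X.re := by simp [PP]
  have pi : (PP ω j X).im = (1 - 2 * j) * X.im := by simp [PP]
  have qr' : (QQ j X).re = 1 + (1 - 2 * j) * X.re := by simp [QQ]
  have qi : (QQ j X).im = (1 - 2 * j) * X.im := by simp [QQ]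
  have hQ : QQ j X ∈ Complex.slitPlane := by
    rw [Complex.mem_slitPlane_iff, qr', qi]
    by_cases h : X.im = 0
    · left
      have := mul_nonneg hκ.le (hX h)
      linarith
    · exact Or.inr (mul_ne_zero hκ.ne' h)
  have hP : PP ω j X ∈ Complex.slitPlane := by
    rw [Complex.mem_slitPlane_iff, pr, pi]
    by_cases h : X.im = 0
    · left
      have := mul_nonneg hκ.le (hX h)
      linarith
    · exact Or.inr (mul_ne_zero hκ.ne' h)
  refine ⟨hP, hQ, ?_⟩
  have hQ0 : QQ j X ≠ 0 := Complex.slitPlane_ne_zero hQ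
  have hn : 0 < Complex.normSq (QQ j X) := Complex.normSq_pos.2 hQ0
  have a1 : (2 * (ω : ℂ) * PP ω j X).re = 2 * ω * (PP ω j X).re := by simp
  have a2 : (2 * (ω : ℂ) * PP ω j X).im = 2 * ω * (PP ω j X).im := by simp
  rw [Complex.mem_slitPlane_iff]
  by_cases h : X.im = 0
  · left
    have h1 := mul_nonneg hκ.le (hX h)
    rw [Complex.div_re, a1, a2, pi, qi, h, pr, qr']
    have h2 : 0 < ω * j + (1 - 2 * j) * X.re := by linarith
    have h3 : 0 < 1 + (1 - 2 * j) * X.re := by linarith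
    simp only [mul_zero, zero_div, add_zero]
    positivity
  · by_cases h1 : ω * j = 1
    · left
      have e : PP ω j X = QQ j X := by
        unfold PP QQ
        have : (ω : ℂ) * j = 1 := by exact_mod_cast h1
        rw [this]
      rw [e, mul_div_assoc, div_self hQ0]
      simpa using hω
    · right
      rw [Complex.div_im, a1, a2, pi, qi, pr, qr', ← sub_div]
      refine div_ne_zero ?_ hn.ne'
      have e : 2 * ω * ((1 - 2 * j) * X.im) * (1 + (1 - 2 * j) * X.re) -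
          2 * ω * (ω * j + (1 - 2 * j) * X.re) * ((1 - 2 * j) * X.im) =
          2 * ω * ((1 - 2 * j) * X.im) * (1 - ω * j) := by ring
      rw [e]
      exact mul_ne_zero (mul_ne_zero (by positivity) (mul_ne_zero hκ.ne' h))
        (sub_ne_zero.2 (Ne.symm h1))

theorem disc_ex (hω : 0 < ω) (hj : 0 < j) (hj2 : j < 1 / 2) : ∃ R : ℝ, π / 2 < R ∧
    ∀ φ ∈ Metric.ball (0 : ℂ) R, PP ω j (Complex.cos φ ^ 2) ∈ Complex.slitPlane ∧
      QQ j (Complex.cos φ ^ 2) ∈ Complex.slitPlane ∧ q2 ω j φ ∈ Complex.slitPlane := by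
  have cP : Continuous fun φ : ℂ => PP ω j (Complex.cos φ ^ 2) := by unfold PP; fun_prop
  have cQ : Continuous fun φ : ℂ => QQ j (Complex.cos φ ^ 2) := by unfold QQ; fun_prop
  set U : Set ℂ := (fun φ : ℂ => PP ω j (Complex.cos φ ^ 2)) ⁻¹' Complex.slitPlane ∩
    (fun φ : ℂ => QQ j (Complex.cos φ ^ 2)) ⁻¹' Complex.slitPlane with hU
  have hUo : IsOpen U :=
    (Complex.isOpen_slitPlane.preimage cP).inter (Complex.isOpen_slitPlane.preimage cQ)
  have cq : ContinuousOn (q2 ω j) U := by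
    unfold q2
    exact ContinuousOn.div (continuous_const.mul cP).continuousOn cQ.continuousOn
      fun φ hφ => Complex.slitPlane_ne_zero hφ.2
  have hV : IsOpen (U ∩ q2 ω j ⁻¹' Complex.slitPlane) :=
    cq.isOpen_inter_preimage hUo Complex.isOpen_slitPlane
  have hsub : Metric.closedBall (0 : ℂ) (π / 2) ⊆ U ∩ q2 ω j ⁻¹' Complex.slitPlane := by
    intro φ hφ
    rw [mem_closedBall_zero_iff] at hφ
    obtain ⟨h1, h2, h3⟩ := wbr0_slit hω hj hj2 (wbr0_cos hφ)
    exact ⟨⟨h1, h2⟩, h3⟩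
  obtain ⟨ε, hε, h⟩ := (isCompact_closedBall (0 : ℂ) (π / 2)).exists_thickening_subset_open hV hsub
  rw [thickening_closedBall hε (by positivity)] at h
  exact ⟨ε + π / 2, by linarith, fun φ hφ => ⟨(h hφ).1.1, (h hφ).1.2, (h hφ).2⟩⟩

theorem pth_mem (h0 : 0 < φ1) (h1 : φ1 ≤ π / 2) {R : ℝ} (hR : π / 2 < R) {s : ℝ}
    (hs : s ∈ Icc (0 : ℝ) 1) : pth φ1 s ∈ Metric.ball (0 : ℂ) R := by
  rw [mem_ball_zero_iff]
  have e : Complex.I + (1 - Complex.I) * (s : ℂ) = ((1 - s : ℝ) : ℂ) * Complex.I + (s : ℂ) := by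
    push_cast; ring
  have h2 : ‖Complex.I + (1 - Complex.I) * (s : ℂ)‖ ≤ 1 := by
    rw [e]
    refine (norm_add_le _ _).trans ?_
    rw [norm_mul, Complex.norm_I, Complex.norm_real, Complex.norm_real, Real.norm_eq_abs,
      Real.norm_eq_abs, abs_of_nonneg hs.1, abs_of_nonneg (by linarith [hs.2])]
    linarith
  unfold pth
  rw [norm_mul, Complex.norm_real, Real.norm_eq_abs, abs_of_pos h0]
  nlinarith

theorem wbr0_sqrt {w : ℂ} (h : 0 < (Complex.sqrt w).re) : w ∈ Complex.slitPlane := by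
  have e := csqrt_sq w
  generalize Complex.sqrt w = g at h e
  rw [← e, Complex.mem_slitPlane_iff, sq, Complex.mul_re, Complex.mul_im]
  by_cases hg : g.im = 0
  · left
    rw [hg]
    nlinarith [mul_pos h h]
  · right
    have : g.re * g.im + g.im * g.re = 2 * g.re * g.im := by ring
    rw [this]
    exact mul_ne_zero (by positivity) hg

theorem gp_eq (hω : 0 < ω) (hj : 0 < j) (hj2 : j < 1 / 2) (h0 : 0 < φ1) (h1 : φ1 ≤ π / 2)
    (hg : ∀ s ∈ Icc (0 : ℝ) 1, 0 < (gp φ1 ω j s).re) :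
    ∀ s ∈ Icc (0 : ℝ) 1, gp φ1 ω j s = φ1 * (1 + Complex.I) * qh ω j (pth φ1 s) := by
  obtain ⟨R, hR, hd⟩ := disc_ex hω hj hj2
  have hd' := fun s (hs : s ∈ Icc (0 : ℝ) 1) => hd _ (pth_mem h0 h1 hR hs)
  have cp : Continuous (pth φ1) := by unfold pth; fun_prop
  have cP : Continuous fun s : ℝ => PP ω j (Complex.cos (pth φ1 s) ^ 2) := by unfold PP; fun_prop
  have cQ : Continuous fun s : ℝ => QQ j (Complex.cos (pth φ1 s) ^ 2) := by unfold QQ; fun_prop
  have cG : ContinuousOn (fun s : ℝ => Complex.I * G2 φ1 ω j s) (Icc 0 1) := by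
    unfold G2 pX
    exact continuousOn_const.mul (ContinuousOn.div (continuous_const.mul cP).continuousOn
      cQ.continuousOn fun s hs => Complex.slitPlane_ne_zero (hd' s hs).2.1)
  have cq : ContinuousOn (fun s : ℝ => q2 ω j (pth φ1 s)) (Icc 0 1) := by
    unfold q2
    exact ContinuousOn.div (continuous_const.mul cP).continuousOn
      cQ.continuousOn fun s hs => Complex.slitPlane_ne_zero (hd' s hs).2.1
  have cs := Complex.differentiableOn_sqrt.continuousOn
  have c1 : ContinuousOn (gp φ1 ω j) (Icc 0 1) :=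
    cs.comp cG fun s hs => wbr0_sqrt (hg s hs)
  have c2 : ContinuousOn (fun s : ℝ => (φ1 : ℂ) * (1 + Complex.I) * qh ω j (pth φ1 s)) (Icc 0 1) :=
    continuousOn_const.mul (cs.comp cq fun s hs => (hd' s hs).2.2)
  have hI : (1 + Complex.I) ^ 2 = 2 * Complex.I := by
    linear_combination Complex.I_sq
  have hsq : ∀ s : ℝ, gp φ1 ω j s ^ 2 =
      ((φ1 : ℂ) * (1 + Complex.I) * qh ω j (pth φ1 s)) ^ 2 := by
    intro s
    unfold gp qh
    rw [mul_pow, mul_pow, csqrt_sq, csqrt_sq, hI]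
    unfold G2 q2 pX
    ring
  have hne : ∀ {s : ℝ}, s ∈ Icc (0 : ℝ) 1 →
      (φ1 : ℂ) * (1 + Complex.I) * qh ω j (pth φ1 s) ≠ 0 := by
    intro s hs h
    have h2 := hsq s
    rw [h, zero_pow two_ne_zero, pow_eq_zero_iff two_ne_zero] at h2
    have h3 := hg s hs
    rw [h2] at h3
    simp at h3
  rcases isPreconnected_Icc.eq_or_eq_neg_of_sq_eq c1 c2 (fun s _ => hsq s) hne with h | h
  · exact fun s hs => h hs
  · exfalso
    have h2 := h (right_mem_Icc.2 zero_le_one)
    have h3 := hg 1 (right_mem_Icc.2 zero_le_one)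
    have e : pth φ1 1 = (φ1 : ℂ) := by unfold pth; simp
    obtain ⟨-, -, a1, -, -, a2, -⟩ := real_axis (φ := φ1) hω hj hj2
    rw [h2, Pi.neg_apply, e, a2] at h3
    simp at h3
    nlinarith [mul_pos h0 a1]

end Pool.Agent.HillD
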