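import Pool.Agent.P.MP_ae2765_an.WSa

/-! Real parameters: the disc, the root along the path, and the primitive. -/

namespace Pool.Agent.HillD
open Real Set Filter Topology Asymptotics

variable {ω j φ1 : ℝ}

theorem wbr0d_alg {w k P Q c s : ℂ} (hw : w ≠ 0) (hP : P ≠ 0) (hQ : Q ≠ 0)
    (hs : s ^ 2 + c ^ 2 = 1) :
    ((k * -s * s + k * c * c) * (2 * P) - k * c * s * (2 * -(2 * k * c * s))) / (2 * P) ^ 2 =
      k * (5 * k * Q * c ^ 2 * (1 - c ^ 2) -
        2 * P * (Q * (1 - 2 * c ^ 2) + k * c ^ 2 * (1 - c ^ 2))) / (8 * w * P ^ 3) *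
        (2 * w * P / Q) - (k * c * s / (2 * P)) ^ 2 - -(k * c * s) / Q * (k * c * s / (2 * P)) := by
  have e : s ^ 2 = 1 - c ^ 2 := by linear_combination hs
  have e1 : ((k * -s * s + k * c * c) * (2 * P) - k * c * s * (2 * -(2 * k * c * s))) =
      k * (2 * c ^ 2 - 1) * (2 * P) + 4 * k ^ 2 * c ^ 2 * (1 - c ^ 2) := by
    linear_combination (-(2 * k * P) + 4 * k ^ 2 * c ^ 2) * e
  have e2 : (k * c * s / (2 * P)) ^ 2 = k ^ 2 * c ^ 2 * (1 - c ^ 2) / (2 * P) ^ 2 := by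
    rw [div_pow, mul_pow, mul_pow, e]
  have e3 : -(k * c * s) / Q * (k * c * s / (2 * P)) =
      -(k ^ 2 * c ^ 2 * (1 - c ^ 2)) / (Q * (2 * P)) := by
    rw [div_mul_div_comm, ← e]
    congr 1
    ring
  rw [e1, e2, e3]
  field_simp
  ring

/-- derivatives of `qh` and `eh`; `L = Q' / (2 Q)` -/
theorem qh_eh_deriv {φ : ℂ} (hω : 0 < ω)
    (hP : PP ω j (Complex.cos φ ^ 2) ≠ 0) (hQ : QQ j (Complex.cos φ ^ 2) ≠ 0)
    (hq : q2 ω j φ ∈ Complex.slitPlane) (L : ℂ)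
    (hL : L = -((1 - 2 * j) * Complex.cos φ * Complex.sin φ) / QQ j (Complex.cos φ ^ 2)) :
    HasDerivAt (qh ω j) (-(2 * eh ω j φ + L) * qh ω j φ) φ ∧
    HasDerivAt (eh ω j)
      (psi ω j (Complex.cos φ ^ 2) * q2 ω j φ - eh ω j φ ^ 2 - L * eh ω j φ) φ := by
  have hw : (ω : ℂ) ≠ 0 := by exact_mod_cast hω.ne'
  have dX : HasDerivAt (fun x : ℂ => (1 - 2 * (j : ℂ)) * Complex.cos x ^ 2)
      (-(2 * (1 - 2 * (j : ℂ)) * Complex.cos φ * Complex.sin φ)) φ := by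
    refine (((Complex.hasDerivAt_cos φ).fun_pow 2).const_mul (1 - 2 * (j : ℂ))).congr_deriv ?_
    simp only [Nat.cast_ofNat, Nat.add_one_sub_one, pow_one]
    ring
  have dP : HasDerivAt (fun x : ℂ => PP ω j (Complex.cos x ^ 2))
      (-(2 * (1 - 2 * (j : ℂ)) * Complex.cos φ * Complex.sin φ)) φ := dX.const_add _
  have dQ : HasDerivAt (fun x : ℂ => QQ j (Complex.cos x ^ 2))
      (-(2 * (1 - 2 * (j : ℂ)) * Complex.cos φ * Complex.sin φ)) φ := dX.const_add _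
  have q0 : q2 ω j φ ≠ 0 := Complex.slitPlane_ne_zero hq
  constructor
  · have d2 : HasDerivAt (q2 ω j) (-(2 * (2 * eh ω j φ + L)) * q2 ω j φ) φ := by
      refine ((dP.const_mul (2 * (ω : ℂ))).fun_div dQ hQ).congr_deriv ?_
      rw [hL]
      unfold eh q2
      generalize PP ω j (Complex.cos φ ^ 2) = P at hP ⊢
      generalize QQ j (Complex.cos φ ^ 2) = Q at hQ ⊢
      field_simp
      ring
    have d3 := d2.cpow_const (c := (2⁻¹ : ℂ)) hq
    refine d3.congr_deriv ?_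
    unfold qh Complex.sqrt
    rw [Complex.cpow_sub _ _ q0, Complex.cpow_one]
    field_simp
  · have dn : HasDerivAt (fun x : ℂ => (1 - 2 * (j : ℂ)) * Complex.cos x * Complex.sin x)
        ((1 - 2 * (j : ℂ)) * -Complex.sin φ * Complex.sin φ +
          (1 - 2 * (j : ℂ)) * Complex.cos φ * Complex.cos φ) φ :=
      ((Complex.hasDerivAt_cos φ).const_mul _).fun_mul (Complex.hasDerivAt_sin φ)
    refine (dn.fun_div (dP.const_mul 2) (mul_ne_zero two_ne_zero hP)).congr_deriv ?_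
    rw [hL]
    exact wbr0d_alg hw hP hQ (Complex.sin_sq_add_cos_sq φ)

end Pool.Agent.HillD
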