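import Pool.Agent.P.MP_ae2765_an.WBr0
import Pool.Agent.P.MP_ae2765_an.WBr0d
import Pool.Agent.P.MP_ae2765_an.WSa

/-! Real parameters: the disc, the root along the path, and the primitive. -/

namespace Pool.Agent.HillD
open Real Set Filter Topology Asymptotics

variable {ω j φ1 : ℝ}

/-- on the imaginary axis the integrand is purely imaginary -/
theorem wbr1_imag (hω : 0 < ω) (hj : 0 < j) (hj2 : j < 1 / 2) (y : ℝ) :
    (Complex.I * qh ω j (Complex.I * y) * (1 + psi ω j (Complex.cos (Complex.I * y) ^ 2) / 2) +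
      eh ω j (Complex.I * y)).re = 0 := by
  have hc : Complex.cos (Complex.I * y) = ((cosh y : ℝ) : ℂ) := by
    rw [mul_comm, Complex.cos_mul_I, Complex.ofReal_cosh]
  have hs : Complex.sin (Complex.I * y) = ((sinh y : ℝ) : ℂ) * Complex.I := by
    rw [mul_comm, Complex.sin_mul_I, Complex.ofReal_sinh]
  generalize cosh y = c at hc
  generalize sinh y = s at hs
  have hk : 0 < 1 - 2 * j := by linarith
  have hP : 0 < ω * j + (1 - 2 * j) * c ^ 2 := by positivity
  have hQ : 0 < 1 + (1 - 2 * j) * c ^ 2 := by positivity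
  have hr : 0 ≤ 2 * ω * (ω * j + (1 - 2 * j) * c ^ 2) / (1 + (1 - 2 * j) * c ^ 2) := by positivity
  have h2 : q2 ω j (Complex.I * y) =
      ((2 * ω * (ω * j + (1 - 2 * j) * c ^ 2) / (1 + (1 - 2 * j) * c ^ 2) : ℝ) : ℂ) := by
    unfold q2 PP QQ
    rw [hc]
    push_cast
    ring
  have hq : qh ω j (Complex.I * y) =
      ((√(2 * ω * (ω * j + (1 - 2 * j) * c ^ 2) / (1 + (1 - 2 * j) * c ^ 2)) : ℝ) : ℂ) := by
    unfold qh
    rw [h2, Complex.sqrt_of_nonneg (Complex.zero_le_real.mpr hr), Complex.ofReal_re]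
  have hψ : psi ω j (Complex.cos (Complex.I * y) ^ 2) =
      (((1 - 2 * j) * (5 * (1 - 2 * j) * (1 + (1 - 2 * j) * c ^ 2) * c ^ 2 * (1 - c ^ 2) -
        2 * (ω * j + (1 - 2 * j) * c ^ 2) * ((1 + (1 - 2 * j) * c ^ 2) * (1 - 2 * c ^ 2) +
          (1 - 2 * j) * c ^ 2 * (1 - c ^ 2))) /
        (8 * ω * (ω * j + (1 - 2 * j) * c ^ 2) ^ 3) : ℝ) : ℂ) := by
    unfold psi PP QQ
    rw [hc]
    push_cast
    ring
  have he : eh ω j (Complex.I * y) =
      (((1 - 2 * j) * c * s / (2 * (ω * j + (1 - 2 * j) * c ^ 2)) : ℝ) : ℂ) * Complex.I := by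
    unfold eh PP
    rw [hc, hs]
    push_cast
    ring
  rw [hq, hψ, he]
  generalize √(2 * ω * (ω * j + (1 - 2 * j) * c ^ 2) / (1 + (1 - 2 * j) * c ^ 2)) = a
  generalize (1 - 2 * j) * (5 * (1 - 2 * j) * (1 + (1 - 2 * j) * c ^ 2) * c ^ 2 * (1 - c ^ 2) -
        2 * (ω * j + (1 - 2 * j) * c ^ 2) * ((1 + (1 - 2 * j) * c ^ 2) * (1 - 2 * c ^ 2) +
          (1 - 2 * j) * c ^ 2 * (1 - c ^ 2))) /
        (8 * ω * (ω * j + (1 - 2 * j) * c ^ 2) ^ 3) = b
  generalize (1 - 2 * j) * c * s / (2 * (ω * j + (1 - 2 * j) * c ^ 2)) = d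
  have : Complex.I * (a : ℂ) * (1 + (b : ℂ) / 2) + (d : ℂ) * Complex.I =
      ((a * (1 + b / 2) + d : ℝ) : ℂ) * Complex.I := by
    push_cast
    ring
  rw [this, Complex.mul_I_re, Complex.ofReal_im, neg_zero]

theorem wbr1_er_cont (hω : 0 < ω) (hj : 0 < j) (hj2 : j < 1 / 2) : Continuous (er ω j) := by
  unfold er
  refine Continuous.div (by fun_prop) (by unfold Pr; fun_prop) fun φ => ?_
  exact mul_ne_zero two_ne_zero (real_axis (φ := φ) hω hj hj2).1.ne'

/-- the derivative of the corrected primitive -/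
theorem wbr1_corr {φ : ℂ} (hω : 0 < ω) {H : ℂ → ℂ}
    (hP : PP ω j (Complex.cos φ ^ 2) ≠ 0) (hQ : QQ j (Complex.cos φ ^ 2) ≠ 0)
    (hq : q2 ω j φ ∈ Complex.slitPlane)
    (hH : HasDerivAt H
      (Complex.I * qh ω j φ * (1 + psi ω j (Complex.cos φ ^ 2) / 2) + eh ω j φ) φ) :
    HasDerivAt (fun z => H z - Complex.I * (eh ω j z / (2 * qh ω j z)))
      (Complex.I * (qh ω j φ - eh ω j φ ^ 2 / (2 * qh ω j φ)) + eh ω j φ) φ := by
  obtain ⟨hq', he'⟩ := qh_eh_deriv hω hP hQ hq _ rfl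
  have hsq : qh ω j φ ^ 2 = q2 ω j φ := csqrt_sq _
  have hne : qh ω j φ ≠ 0 := by
    intro h
    rw [h] at hsq
    exact Complex.slitPlane_ne_zero hq (by rw [← hsq]; ring)
  have h := hH.sub ((he'.div (hq'.const_mul 2) (mul_ne_zero two_ne_zero hne)).const_mul Complex.I)
  refine h.congr_deriv ?_
  rw [← hsq]
  generalize -((1 - 2 * (j : ℂ)) * Complex.cos φ * Complex.sin φ) /
    QQ j (Complex.cos φ ^ 2) = L
  generalize psi ω j (Complex.cos φ ^ 2) = p
  generalize eh ω j φ = e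
  generalize qh ω j φ = q at hne
  field_simp
  ring

theorem prim (hω : 0 < ω) (hj : 0 < j) (hj2 : j < 1 / 2) (h0 : 0 < φ1) (h1 : φ1 ≤ π / 2)
    {R : ℝ} (hR : π / 2 < R)
    (hd : ∀ φ ∈ Metric.ball (0 : ℂ) R, PP ω j (Complex.cos φ ^ 2) ∈ Complex.slitPlane ∧
      QQ j (Complex.cos φ ^ 2) ∈ Complex.slitPlane ∧ q2 ω j φ ∈ Complex.slitPlane) :
    ∃ H : ℂ → ℂ, H (Complex.I * φ1) = 0 ∧
      (∀ φ ∈ Metric.ball (0 : ℂ) R, HasDerivAt H
        (Complex.I * qh ω j φ * (1 + psi ω j (Complex.cos φ ^ 2) / 2) + eh ω j φ) φ) ∧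
      (H φ1).im = Mn φ1 ω j + er ω j φ1 / (2 * qr ω j φ1) + (Tt φ1 ω j).re := by
  have hωc : (ω : ℂ) ≠ 0 := Complex.ofReal_ne_zero.mpr hω.ne'
  have hdiff : DifferentiableOn ℂ (fun φ : ℂ =>
      Complex.I * qh ω j φ * (1 + psi ω j (Complex.cos φ ^ 2) / 2) + eh ω j φ)
      (Metric.ball (0 : ℂ) R) := by
    intro φ hφ
    obtain ⟨hP, hQ, hq⟩ := hd φ hφ
    have hP0 := Complex.slitPlane_ne_zero hP
    have hQ0 := Complex.slitPlane_ne_zero hQ
    obtain ⟨hq', he'⟩ := qh_eh_deriv hω hP0 hQ0 hq _ rfl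
    have hψ : DifferentiableAt ℂ (fun z : ℂ => psi ω j (Complex.cos z ^ 2)) φ := by
      unfold psi
      refine DifferentiableAt.div (by unfold PP QQ; fun_prop) (by unfold PP; fun_prop) ?_
      exact mul_ne_zero (mul_ne_zero (by norm_num) hωc) (pow_ne_zero _ hP0)
    exact (((hq'.differentiableAt.const_mul _).mul
      ((hψ.div_const 2).const_add 1)).add he'.differentiableAt).differentiableWithinAt
  obtain ⟨H, hH0, hH⟩ := hdiff.isExactOn_ball.with_val_at (Complex.I * φ1) 0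
  refine ⟨H, hH0, hH, ?_⟩
  have hmem : ∀ t ∈ uIcc (0 : ℝ) φ1, |t| < R := by
    intro t ht
    rw [uIcc_of_le h0.le] at ht
    rw [abs_of_nonneg ht.1]
    linarith [ht.2]
  -- the imaginary axis
  have hA : (H 0).im = 0 := by
    have hder : ∀ t ∈ uIcc (0 : ℝ) φ1,
        HasDerivAt (fun y : ℝ => (H (Complex.I * y)).im) ((fun _ => 0) t) t := by
      intro t ht
      have hb : Complex.I * (t : ℂ) ∈ Metric.ball (0 : ℂ) R := by
        simpa using hmem t ht
      have h2 : HasDerivAt (fun z : ℂ => Complex.I * z) Complex.I (t : ℂ) := by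
        simpa using (hasDerivAt_id (t : ℂ)).const_mul Complex.I
      have h3 := ((hH _ hb).comp (t : ℂ) h2).comp_ofReal
      have h4 := Complex.imCLM.hasFDerivAt.comp_hasDerivAt t h3
      refine h4.congr_deriv ?_
      rw [Complex.imCLM_apply, Complex.mul_I_im]
      exact wbr1_imag hω hj hj2 t
    have h5 := intervalIntegral.integral_eq_sub_of_hasDerivAt hder
      (continuous_const.intervalIntegrable _ _)
    simp only [intervalIntegral.integral_zero, hH0, Complex.ofReal_zero, mul_zero,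
      Complex.zero_im] at h5
    linarith
  -- the real axis
  have hqc := (qr_cont hω hj hj2).1
  have hec := wbr1_er_cont hω hj hj2
  have hfc : Continuous fun t => er ω j t ^ 2 / (2 * qr ω j t) :=
    (hec.pow 2).div (continuous_const.mul hqc) fun t =>
      mul_ne_zero two_ne_zero (real_axis (φ := t) hω hj hj2).2.2.1.ne'
  have hder : ∀ t ∈ uIcc (0 : ℝ) φ1,
      HasDerivAt (fun y : ℝ => (H y).im - er ω j y / (2 * qr ω j y))
        (qr ω j t - er ω j t ^ 2 / (2 * qr ω j t)) t := by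
    intro t ht
    have hb : (t : ℂ) ∈ Metric.ball (0 : ℂ) R := by
      simpa using hmem t ht
    obtain ⟨hP, hQ, hq⟩ := hd _ hb
    have h3 := (wbr1_corr hω (Complex.slitPlane_ne_zero hP) (Complex.slitPlane_ne_zero hQ) hq
      (hH _ hb)).comp_ofReal
    have h4 := Complex.imCLM.hasFDerivAt.comp_hasDerivAt t h3
    have hfun : (fun y : ℝ => (H y).im - er ω j y / (2 * qr ω j y)) =
        Complex.imCLM ∘ fun y : ℝ => H y - Complex.I * (eh ω j y / (2 * qh ω j y)) := by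
      funext y
      obtain ⟨-, -, -, -, -, hqy, hey⟩ := real_axis (φ := y) hω hj hj2
      have : eh ω j y / (2 * qh ω j y) = ((er ω j y / (2 * qr ω j y) : ℝ) : ℂ) := by
        rw [hqy, hey]
        push_cast
        ring
      simp only [Function.comp, Complex.imCLM_apply, Complex.sub_im, this, Complex.I_mul_im,
        Complex.ofReal_re]
    rw [hfun]
    refine h4.congr_deriv ?_
    obtain ⟨-, -, -, -, -, hqy, hey⟩ := real_axis (φ := t) hω hj hj2
    have : qh ω j t - eh ω j t ^ 2 / (2 * qh ω j t) =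
        ((qr ω j t - er ω j t ^ 2 / (2 * qr ω j t) : ℝ) : ℂ) := by
      rw [hqy, hey]
      push_cast
      ring
    rw [this, hey, Complex.imCLM_apply, Complex.add_im, Complex.I_mul_im, Complex.ofReal_re,
      Complex.ofReal_im, add_zero]
  have h5 := intervalIntegral.integral_eq_sub_of_hasDerivAt hder
    ((hqc.sub hfc).intervalIntegrable _ _)
  rw [intervalIntegral.integral_sub (hqc.intervalIntegrable _ _) (hfc.intervalIntegrable _ _)]
    at h5
  have hT : (Tt φ1 ω j).re = -∫ t in (0 : ℝ)..φ1, er ω j t ^ 2 / (2 * qr ω j t) := by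
    unfold Tt
    have : (fun t : ℝ => eh ω j t ^ 2 / (2 * qh ω j t)) =
        fun t : ℝ => ((er ω j t ^ 2 / (2 * qr ω j t) : ℝ) : ℂ) := by
      funext t
      obtain ⟨-, -, -, -, -, hqy, hey⟩ := real_axis (φ := t) hω hj hj2
      rw [hqy, hey]
      push_cast
      ring
    rw [this, intervalIntegral.integral_ofReal, Complex.neg_re, Complex.ofReal_re]
  have he0 : er ω j 0 = 0 := by simp [er]
  rw [hT]
  unfold Mn
  simp only [Complex.ofReal_zero, hA, he0, zero_div, sub_zero] at h5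
  linarith

end Pool.Agent.HillD
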