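import Pool.Agent.P.MP_ae2765_an.WHol

/-! Linear systems on `[0, 1]` depending holomorphically on a parameter. -/

namespace Pool.Agent.HillD
open Real Set Filter Topology Asymptotics

/-- Picard terms. -/
noncomputable def whol2_v (a11 a12 a21 a22 : ℂ → ℝ → ℂ) (x0 y0 : ℂ) : ℕ → ℂ → ℝ → ℂ × ℂ
  | 0 => fun _ _ => (x0, y0)
  | n + 1 => fun τ s =>
      (∫ u in (0 : ℝ)..s, (a11 τ u * (whol2_v a11 a12 a21 a22 x0 y0 n τ u).1 +
          a12 τ u * (whol2_v a11 a12 a21 a22 x0 y0 n τ u).2),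
        ∫ u in (0 : ℝ)..s, (a21 τ u * (whol2_v a11 a12 a21 a22 x0 y0 n τ u).1 +
          a22 τ u * (whol2_v a11 a12 a21 a22 x0 y0 n τ u).2))

theorem whol2_int_cont {U : Set ℂ} {F : ℂ → ℝ → ℂ}
    (hF : Continuous fun p : U × ℝ => F p.1 p.2) :
    Continuous fun p : U × ℝ => ∫ u in (0 : ℝ)..p.2, F p.1 u := by
  have h1 : Continuous (Function.uncurry fun (p : U × ℝ) (u : ℝ) => F p.1 u) :=
    hF.comp (f := fun q : (U × ℝ) × ℝ => (q.1.1, q.2)) (by fun_prop)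
  exact intervalIntegral.continuous_parametric_intervalIntegral_of_continuous h1 continuous_snd

theorem whol2_on {U : Set ℂ} {E : Type} [TopologicalSpace E] {F : ℂ → ℝ → E}
    (hF : Continuous fun p : U × ℝ => F p.1 p.2) (T : Set ℝ) :
    ContinuousOn (fun p : ℂ × ℝ => F p.1 p.2) (U ×ˢ T) := by
  rw [continuousOn_iff_continuous_domRestrict]
  exact hF.comp (f := fun q : (U ×ˢ T : Set (ℂ × ℝ)) => ((⟨q.1.1, q.2.1⟩ : U), q.1.2))
    (by fun_prop)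

theorem whol2_sec {U : Set ℂ} {E : Type} [TopologicalSpace E] {F : ℂ → ℝ → E}
    (hF : Continuous fun p : U × ℝ => F p.1 p.2) {τ : ℂ} (hτ : τ ∈ U) : Continuous (F τ) :=
  hF.comp (f := fun u : ℝ => ((⟨τ, hτ⟩ : U), u)) (by fun_prop)

theorem whol2_step {a b : ℝ → ℂ} {w : ℝ → ℂ × ℂ} {M C : ℝ} {n : ℕ} (hM : 0 ≤ M)
    (ha : ∀ u, ‖a u‖ ≤ M) (hb : ∀ u, ‖b u‖ ≤ M)
    (hw : ∀ u, ‖w u‖ ≤ C * (2 * M * |u|) ^ n / n.factorial) (u : ℝ) :
    ‖a u * (w u).1 + b u * (w u).2‖ ≤ 2 * M * (C * (2 * M * |u|) ^ n / n.factorial) := by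
  have h1 : ‖(w u).1‖ ≤ C * (2 * M * |u|) ^ n / n.factorial := (norm_fst_le _).trans (hw u)
  have h2 : ‖(w u).2‖ ≤ C * (2 * M * |u|) ^ n / n.factorial := (norm_snd_le _).trans (hw u)
  have h3 := mul_le_mul (ha u) h1 (norm_nonneg _) hM
  have h4 := mul_le_mul (hb u) h2 (norm_nonneg _) hM
  have h5 := norm_add_le (a u * (w u).1) (b u * (w u).2)
  rw [norm_mul, norm_mul] at h5
  linarith

theorem whol2_bd {f : ℝ → ℂ} {M C : ℝ} {n : ℕ}
    (hf : ∀ u, ‖f u‖ ≤ 2 * M * (C * (2 * M * |u|) ^ n / n.factorial)) (s : ℝ) :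
    ‖∫ u in (0 : ℝ)..s, f u‖ ≤ C * (2 * M * |s|) ^ (n + 1) / (n + 1).factorial := by
  have h1 : ‖∫ u in (0 : ℝ)..s, f u‖ ≤
      ∫ u in Set.uIoc 0 s, (2 * M * (C * (2 * M) ^ n / n.factorial)) * |u - 0| ^ n := by
    rw [intervalIntegral.norm_intervalIntegral_eq]
    refine MeasureTheory.norm_integral_le_of_norm_le ?_ (Eventually.of_forall fun u => ?_)
    · exact Continuous.integrableOn_uIoc (by fun_prop)
    · refine (hf u).trans (le_of_eq ?_)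
      rw [sub_zero, mul_pow]; ring
  rw [MeasureTheory.integral_const_mul, integral_pow_abs_sub_uIoc, sub_zero] at h1
  refine h1.trans (le_of_eq ?_)
  have h2 : (n.factorial : ℝ) ≠ 0 := by positivity
  rw [Nat.factorial_succ]
  push_cast
  field_simp
  ring

theorem whol2_sum (M C : ℝ) : Summable fun n : ℕ => C * (4 * M) ^ n / n.factorial := by
  have := (Real.summable_pow_div_factorial (4 * M)).mul_left C
  refine this.congr fun n => ?_
  ring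

theorem whol2_mono {M C u : ℝ} (hM : 0 ≤ M) (hC : 0 ≤ C) (hu : |u| ≤ 2) (n : ℕ) :
    C * (2 * M * |u|) ^ n / n.factorial ≤ C * (4 * M) ^ n / n.factorial := by
  have h1 : 2 * M * |u| ≤ 4 * M := by nlinarith
  have h2 : 0 ≤ 2 * M * |u| := by positivity
  gcongr

theorem whol2_der {a b : ℝ → ℂ} {v : ℕ → ℝ → ℂ × ℂ} {w : ℕ → ℝ → ℂ} {c : ℂ} {M C : ℝ}
    (hM : 0 ≤ M) (hC : 0 ≤ C) (ca : Continuous a) (cb : Continuous b)
    (cv : ∀ n, Continuous (v n)) (ha : ∀ u, ‖a u‖ ≤ M) (hb : ∀ u, ‖b u‖ ≤ M)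
    (hv : ∀ n u, ‖v n u‖ ≤ C * (2 * M * |u|) ^ n / n.factorial)
    (w0 : ∀ s, w 0 s = c)
    (hw : ∀ n s, w (n + 1) s = ∫ u in (0 : ℝ)..s, (a u * (v n u).1 + b u * (v n u).2)) :
    ∑' n, w n 0 = c ∧ ∀ s ∈ Icc (0 : ℝ) 1, HasDerivAt (fun s => ∑' n, w n s)
      (a s * ∑' n, (v n s).1 + b s * ∑' n, (v n s).2) s := by
  have hsw : ∀ s : ℝ, Summable fun n => w (n + 1) s := by
    intro s
    have h0 : Summable fun n : ℕ => C * (2 * M * |s|) ^ n / n.factorial := by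
      have := (Real.summable_pow_div_factorial (2 * M * |s|)).mul_left C
      refine this.congr fun n => ?_
      ring
    refine Summable.of_norm_bounded ((summable_nat_add_iff 1).2 h0) fun n => ?_
    rw [hw]
    exact whol2_bd (whol2_step hM ha hb (hv n)) s
  have hsplit : ∀ s : ℝ, ∑' n, w n s = c + ∑' n, w (n + 1) s := by
    intro s
    rw [Summable.tsum_eq_zero_add ((summable_nat_add_iff 1).1 (hsw s)), w0]
  refine ⟨?_, fun s hs => ?_⟩
  · rw [hsplit]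
    simp [hw]
  have hs2 : s ∈ Ioo (-2 : ℝ) 2 := ⟨by linarith [hs.1], by linarith [hs.2]⟩
  have hs3 : |s| ≤ 2 := abs_le.2 ⟨hs2.1.le, hs2.2.le⟩
  have hd : HasDerivAt (fun z => ∑' n, w (n + 1) z)
      (∑' n, (a s * (v n s).1 + b s * (v n s).2)) s := by
    refine hasDerivAt_tsum_of_isPreconnected (g := fun n z => w (n + 1) z)
      (g' := fun n z => a z * (v n z).1 + b z * (v n z).2)
      ((whol2_sum M C).mul_left (2 * M)) isOpen_Ioo isPreconnected_Ioo (fun n z _ => ?_)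
      (fun n z hz => ?_) hs2 (hsw s) hs2
    · have hc : Continuous fun u => a u * (v n u).1 + b u * (v n u).2 := by
        have := cv n
        fun_prop
      have := (hc.integral_hasStrictDerivAt 0 z).hasDerivAt
      refine this.congr_of_eventuallyEq (Eventually.of_forall fun t => hw n t)
    · refine (whol2_step hM ha hb (hv n) z).trans ?_
      exact mul_le_mul_of_nonneg_left
        (whol2_mono hM hC (abs_le.2 ⟨hz.1.le, hz.2.le⟩) n) (by positivity)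
  have s1 : Summable fun n => (v n s).1 :=
    Summable.of_norm_bounded (whol2_sum M C) fun n =>
      ((norm_fst_le _).trans (hv n s)).trans (whol2_mono hM hC hs3 n)
  have s2 : Summable fun n => (v n s).2 :=
    Summable.of_norm_bounded (whol2_sum M C) fun n =>
      ((norm_snd_le _).trans (hv n s)).trans (whol2_mono hM hC hs3 n)
  rw [(s1.mul_left _).tsum_add (s2.mul_left _), tsum_mul_left, tsum_mul_left] at hd
  have := hd.const_add c
  exact this.congr_of_eventuallyEq (Eventually.of_forall hsplit)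

theorem whol2_ext {U : Set ℂ} (hU : IsOpen U) {a11 a12 a21 a22 : ℂ → ℝ → ℂ}
    (c11 : Continuous fun p : U × ℝ => a11 p.1 p.2)
    (c12 : Continuous fun p : U × ℝ => a12 p.1 p.2)
    (c21 : Continuous fun p : U × ℝ => a21 p.1 p.2)
    (c22 : Continuous fun p : U × ℝ => a22 p.1 p.2)
    (d11 : ∀ s ∈ Icc (0 : ℝ) 1, DifferentiableOn ℂ (fun τ => a11 τ s) U)
    (d12 : ∀ s ∈ Icc (0 : ℝ) 1, DifferentiableOn ℂ (fun τ => a12 τ s) U)
    (d21 : ∀ s ∈ Icc (0 : ℝ) 1, DifferentiableOn ℂ (fun τ => a21 τ s) U)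
    (d22 : ∀ s ∈ Icc (0 : ℝ) 1, DifferentiableOn ℂ (fun τ => a22 τ s) U)
    (hb : ∀ τ0 ∈ U, ∃ r > 0, ∃ M ≥ 0, Metric.ball τ0 r ⊆ U ∧ ∀ τ ∈ Metric.ball τ0 r, ∀ u,
      ‖a11 τ u‖ ≤ M ∧ ‖a12 τ u‖ ≤ M ∧ ‖a21 τ u‖ ≤ M ∧ ‖a22 τ u‖ ≤ M) (x0 y0 : ℂ) :
    ∃ x y : ℂ → ℝ → ℂ,
      ContinuousOn (fun p : ℂ × ℝ => x p.1 p.2) (U ×ˢ Icc 0 1) ∧
      ContinuousOn (fun p : ℂ × ℝ => y p.1 p.2) (U ×ˢ Icc 0 1) ∧
      (∀ s ∈ Icc (0 : ℝ) 1, DifferentiableOn ℂ (fun τ => x τ s) U ∧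
        DifferentiableOn ℂ (fun τ => y τ s) U) ∧
      ∀ τ ∈ U, x τ 0 = x0 ∧ y τ 0 = y0 ∧ ∀ s ∈ Icc (0 : ℝ) 1,
        HasDerivWithinAt (x τ) (a11 τ s * x τ s + a12 τ s * y τ s) (Icc 0 1) s ∧
        HasDerivWithinAt (y τ) (a21 τ s * x τ s + a22 τ s * y τ s) (Icc 0 1) s := by
  set v := whol2_v a11 a12 a21 a22 x0 y0 with hv
  have v0 : ∀ τ s, v 0 τ s = (x0, y0) := fun _ _ => rfl
  have v1 : ∀ n τ s, v (n + 1) τ s =
      (∫ u in (0 : ℝ)..s, (a11 τ u * (v n τ u).1 + a12 τ u * (v n τ u).2),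
        ∫ u in (0 : ℝ)..s, (a21 τ u * (v n τ u).1 + a22 τ u * (v n τ u).2)) := fun _ _ _ => rfl
  clear_value v
  have cv : ∀ n, Continuous fun p : U × ℝ => v n p.1 p.2 := by
    intro n
    induction n with
    | zero => simp only [v0]; exact continuous_const
    | succ n ih =>
      simp only [v1]
      refine Continuous.prodMk ?_ ?_
      · exact whol2_int_cont (F := fun τ u => a11 τ u * (v n τ u).1 + a12 τ u * (v n τ u).2)
          ((c11.mul ih.fst).add (c12.mul ih.snd))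
      · exact whol2_int_cont (F := fun τ u => a21 τ u * (v n τ u).1 + a22 τ u * (v n τ u).2)
          ((c21.mul ih.fst).add (c22.mul ih.snd))
  have dv : ∀ n, ∀ s ∈ Icc (0 : ℝ) 1, DifferentiableOn ℂ (fun τ => v n τ s) U := by
    intro n
    induction n with
    | zero => intro s _; simp only [v0]; exact differentiableOn_const _
    | succ n ih =>
      intro s hs
      simp only [v1]
      have hsub : ∀ u ∈ Icc (0 : ℝ) s, u ∈ Icc (0 : ℝ) 1 := fun u hu => ⟨hu.1, hu.2.trans hs.2⟩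
      refine DifferentiableOn.prodMk ?_ ?_
      · refine hol_int (F := fun τ u => a11 τ u * (v n τ u).1 + a12 τ u * (v n τ u).2) hU hs.1
          (whol2_on (F := fun τ u => a11 τ u * (v n τ u).1 + a12 τ u * (v n τ u).2)
            ((c11.mul (cv n).fst).add (c12.mul (cv n).snd)) _) fun u hu => ?_
        exact ((d11 u (hsub u hu)).mul (ih u (hsub u hu)).fst).add
          ((d12 u (hsub u hu)).mul (ih u (hsub u hu)).snd)
      · refine hol_int (F := fun τ u => a21 τ u * (v n τ u).1 + a22 τ u * (v n τ u).2) hU hs.1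
          (whol2_on (F := fun τ u => a21 τ u * (v n τ u).1 + a22 τ u * (v n τ u).2)
            ((c21.mul (cv n).fst).add (c22.mul (cv n).snd)) _) fun u hu => ?_
        exact ((d21 u (hsub u hu)).mul (ih u (hsub u hu)).fst).add
          ((d22 u (hsub u hu)).mul (ih u (hsub u hu)).snd)
  have bv : ∀ (τ : ℂ) (M : ℝ), 0 ≤ M →
      (∀ u, ‖a11 τ u‖ ≤ M ∧ ‖a12 τ u‖ ≤ M ∧ ‖a21 τ u‖ ≤ M ∧ ‖a22 τ u‖ ≤ M) →
      ∀ n u, ‖v n τ u‖ ≤ ‖(x0, y0)‖ * (2 * M * |u|) ^ n / n.factorial := by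
    intro τ M hM h n
    induction n with
    | zero => intro u; simp [v0]
    | succ n ih =>
      intro u
      rw [v1, Prod.norm_def]
      exact max_le (whol2_bd (whol2_step hM (fun u => (h u).1) (fun u => (h u).2.1) ih) u)
        (whol2_bd (whol2_step hM (fun u => (h u).2.2.1) (fun u => (h u).2.2.2) ih) u)
  have habs : ∀ s ∈ Icc (0 : ℝ) 1, |s| ≤ 2 := fun s hs =>
    abs_le.2 ⟨by linarith [hs.1], by linarith [hs.2]⟩
  have key : ∀ w : ℕ → ℂ → ℝ → ℂ, (∀ n τ s, ‖w n τ s‖ ≤ ‖v n τ s‖) →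
      (∀ n, Continuous fun p : U × ℝ => w n p.1 p.2) →
      (∀ n, ∀ s ∈ Icc (0 : ℝ) 1, DifferentiableOn ℂ (fun τ => w n τ s) U) →
      ContinuousOn (fun p : ℂ × ℝ => ∑' n, w n p.1 p.2) (U ×ˢ Icc 0 1) ∧
        ∀ s ∈ Icc (0 : ℝ) 1, DifferentiableOn ℂ (fun τ => ∑' n, w n τ s) U := by
    intro w hw cw dw
    refine ⟨fun p hp => ?_, fun s hs τ0 hτ0 => ?_⟩
    · obtain ⟨r, hr, M, hM, hsub, hbd⟩ := hb p.1 hp.1
      have h1 : ContinuousOn (fun p : ℂ × ℝ => ∑' n, w n p.1 p.2)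
          (Metric.ball p.1 r ×ˢ Icc 0 1) := by
        refine continuousOn_tsum (fun n => (whol2_on (cw n) _).mono (prod_mono hsub subset_rfl))
          (whol2_sum M ‖(x0, y0)‖) fun n q hq => ?_
        exact ((hw n _ _).trans (bv q.1 M hM (hbd q.1 hq.1) n q.2)).trans
          (whol2_mono hM (norm_nonneg _) (habs _ hq.2) n)
      refine (h1 p ⟨Metric.mem_ball_self hr, hp.2⟩).mono_of_mem_nhdsWithin ?_
      have h2 : (Metric.ball p.1 r ×ˢ (univ : Set ℝ)) ∈ 𝓝 p :=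
        (Metric.isOpen_ball.prod isOpen_univ).mem_nhds ⟨Metric.mem_ball_self hr, mem_univ _⟩
      filter_upwards [self_mem_nhdsWithin, mem_nhdsWithin_of_mem_nhds h2] with q h3 h4
      exact ⟨h4.1, h3.2⟩
    · obtain ⟨r, hr, M, hM, hsub, hbd⟩ := hb τ0 hτ0
      have h1 : DifferentiableOn ℂ (fun τ => ∑' n, w n τ s) (Metric.ball τ0 r) := by
        refine Complex.differentiableOn_tsum_of_summable_norm (whol2_sum M ‖(x0, y0)‖)
          (fun n => (dw n s hs).mono hsub) Metric.isOpen_ball fun n τ hτ => ?_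
        exact ((hw n _ _).trans (bv τ M hM (hbd τ hτ) n s)).trans
          (whol2_mono hM (norm_nonneg _) (habs _ hs) n)
      exact (h1.differentiableAt (Metric.ball_mem_nhds τ0 hr)).differentiableWithinAt
  obtain ⟨kx1, kx2⟩ := key (fun n τ s => (v n τ s).1) (fun n τ s => norm_fst_le _)
    (fun n => (cv n).fst) fun n s hs => (dv n s hs).fst
  obtain ⟨ky1, ky2⟩ := key (fun n τ s => (v n τ s).2) (fun n τ s => norm_snd_le _)
    (fun n => (cv n).snd) fun n s hs => (dv n s hs).snd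
  refine ⟨fun τ s => ∑' n, (v n τ s).1, fun τ s => ∑' n, (v n τ s).2, kx1, ky1,
    fun s hs => ⟨kx2 s hs, ky2 s hs⟩, fun τ hτ => ?_⟩
  obtain ⟨r, hr, M, hM, hsub, hbd⟩ := hb τ hτ
  have h := hbd τ (Metric.mem_ball_self hr)
  obtain ⟨e1, e2⟩ := whol2_der (a := a11 τ) (b := a12 τ) (v := fun n => v n τ)
    (w := fun n s => (v n τ s).1) (c := x0) hM (norm_nonneg (x0, y0)) (whol2_sec c11 hτ)
    (whol2_sec c12 hτ) (fun n => whol2_sec (cv n) hτ) (fun u => (h u).1) (fun u => (h u).2.1)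
    (bv τ M hM h) (fun s => by rw [v0]) (fun n s => by rw [v1])
  obtain ⟨e3, e4⟩ := whol2_der (a := a21 τ) (b := a22 τ) (v := fun n => v n τ)
    (w := fun n s => (v n τ s).2) (c := y0) hM (norm_nonneg (x0, y0)) (whol2_sec c21 hτ)
    (whol2_sec c22 hτ) (fun n => whol2_sec (cv n) hτ) (fun u => (h u).2.2.1)
    (fun u => (h u).2.2.2) (bv τ M hM h) (fun s => by rw [v0]) (fun n s => by rw [v1])
  exact ⟨e1, e3, fun s hs => ⟨(e2 s hs).hasDerivWithinAt, (e4 s hs).hasDerivWithinAt⟩⟩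

theorem whol2_pc {U : Set ℂ} {a : ℂ → ℝ → ℂ}
    (c : ContinuousOn (fun p : ℂ × ℝ => a p.1 p.2) (U ×ˢ Icc 0 1)) :
    Continuous fun p : U × ℝ => a p.1 (projIcc (0 : ℝ) 1 zero_le_one p.2) := by
  have h1 : Continuous fun p : U × ℝ =>
      (((p.1 : ℂ), ((projIcc (0 : ℝ) 1 zero_le_one p.2 : Icc (0 : ℝ) 1) : ℝ)) : ℂ × ℝ) := by
    refine Continuous.prodMk (by fun_prop) ?_
    exact continuous_subtype_val.comp (continuous_projIcc.comp continuous_snd)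
  exact c.comp_continuous h1 fun p => ⟨p.1.2, (projIcc (0 : ℝ) 1 zero_le_one p.2).2⟩

theorem whol2_loc {U K : Set ℂ} (hK : IsCompact K) (hKU : K ⊆ U) {a : ℂ → ℝ → ℂ}
    (c : ContinuousOn (fun p : ℂ × ℝ => a p.1 p.2) (U ×ˢ Icc 0 1)) :
    ∃ M, ∀ τ ∈ K, ∀ u : ℝ, ‖a τ (projIcc (0 : ℝ) 1 zero_le_one u)‖ ≤ M := by
  obtain ⟨M, hM⟩ := (hK.prod isCompact_Icc).exists_bound_of_continuousOn
    (c.mono (prod_mono hKU subset_rfl))
  exact ⟨M, fun τ hτ u => hM (τ, _) ⟨hτ, (projIcc (0 : ℝ) 1 zero_le_one u).2⟩⟩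

theorem hol_ode {U : Set ℂ} (hU : IsOpen U) {a11 a12 a21 a22 : ℂ → ℝ → ℂ}
    (c11 : ContinuousOn (fun p : ℂ × ℝ => a11 p.1 p.2) (U ×ˢ Icc 0 1))
    (c12 : ContinuousOn (fun p : ℂ × ℝ => a12 p.1 p.2) (U ×ˢ Icc 0 1))
    (c21 : ContinuousOn (fun p : ℂ × ℝ => a21 p.1 p.2) (U ×ˢ Icc 0 1))
    (c22 : ContinuousOn (fun p : ℂ × ℝ => a22 p.1 p.2) (U ×ˢ Icc 0 1))
    (d11 : ∀ s ∈ Icc (0 : ℝ) 1, DifferentiableOn ℂ (fun τ => a11 τ s) U)
    (d12 : ∀ s ∈ Icc (0 : ℝ) 1, DifferentiableOn ℂ (fun τ => a12 τ s) U)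
    (d21 : ∀ s ∈ Icc (0 : ℝ) 1, DifferentiableOn ℂ (fun τ => a21 τ s) U)
    (d22 : ∀ s ∈ Icc (0 : ℝ) 1, DifferentiableOn ℂ (fun τ => a22 τ s) U) (x0 y0 : ℂ) :
    ∃ x y : ℂ → ℝ → ℂ,
      ContinuousOn (fun p : ℂ × ℝ => x p.1 p.2) (U ×ˢ Icc 0 1) ∧
      ContinuousOn (fun p : ℂ × ℝ => y p.1 p.2) (U ×ˢ Icc 0 1) ∧
      (∀ s ∈ Icc (0 : ℝ) 1, DifferentiableOn ℂ (fun τ => x τ s) U ∧
        DifferentiableOn ℂ (fun τ => y τ s) U) ∧
      ∀ τ ∈ U, x τ 0 = x0 ∧ y τ 0 = y0 ∧ ∀ s ∈ Icc (0 : ℝ) 1,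
        HasDerivWithinAt (x τ) (a11 τ s * x τ s + a12 τ s * y τ s) (Icc 0 1) s ∧
        HasDerivWithinAt (y τ) (a21 τ s * x τ s + a22 τ s * y τ s) (Icc 0 1) s := by
  have hp : ∀ s ∈ Icc (0 : ℝ) 1, ((projIcc (0 : ℝ) 1 zero_le_one s : Icc (0 : ℝ) 1) : ℝ) = s :=
    fun s hs => by rw [projIcc_of_mem _ hs]
  obtain ⟨x, y, h1, h2, h3, h4⟩ := whol2_ext hU
    (a11 := fun τ u => a11 τ (projIcc (0 : ℝ) 1 zero_le_one u))
    (a12 := fun τ u => a12 τ (projIcc (0 : ℝ) 1 zero_le_one u))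
    (a21 := fun τ u => a21 τ (projIcc (0 : ℝ) 1 zero_le_one u))
    (a22 := fun τ u => a22 τ (projIcc (0 : ℝ) 1 zero_le_one u))
    (whol2_pc c11) (whol2_pc c12) (whol2_pc c21) (whol2_pc c22)
    (fun s _ => d11 _ (projIcc (0 : ℝ) 1 zero_le_one s).2)
    (fun s _ => d12 _ (projIcc (0 : ℝ) 1 zero_le_one s).2)
    (fun s _ => d21 _ (projIcc (0 : ℝ) 1 zero_le_one s).2)
    (fun s _ => d22 _ (projIcc (0 : ℝ) 1 zero_le_one s).2) (fun τ0 hτ0 => by
      obtain ⟨r, hr, hsub⟩ := Metric.nhds_basis_closedBall.mem_iff.1 (hU.mem_nhds hτ0)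
      have hK := isCompact_closedBall τ0 r
      obtain ⟨M1, m1⟩ := whol2_loc hK hsub c11
      obtain ⟨M2, m2⟩ := whol2_loc hK hsub c12
      obtain ⟨M3, m3⟩ := whol2_loc hK hsub c21
      obtain ⟨M4, m4⟩ := whol2_loc hK hsub c22
      refine ⟨r, hr, |M1| + |M2| + |M3| + |M4|, by positivity,
        Metric.ball_subset_closedBall.trans hsub, fun τ hτ u => ?_⟩
      have hτ' := Metric.ball_subset_closedBall hτ
      have := m1 τ hτ' u
      have := m2 τ hτ' u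
      have := m3 τ hτ' u
      have := m4 τ hτ' u
      have := le_abs_self M1
      have := le_abs_self M2
      have := le_abs_self M3
      have := le_abs_self M4
      have := abs_nonneg M1
      have := abs_nonneg M2
      have := abs_nonneg M3
      have := abs_nonneg M4
      refine ⟨?_, ?_, ?_, ?_⟩ <;> linarith) x0 y0
  refine ⟨x, y, h1, h2, h3, fun τ hτ => ⟨(h4 τ hτ).1, (h4 τ hτ).2.1, fun s hs => ?_⟩⟩
  have := (h4 τ hτ).2.2 s hs
  simp only [hp s hs] at this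
  exact this

end Pool.Agent.HillD
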