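import Pool.Agent.P.MP_ae2765_an.WSol0
import Pool.Agent.P.MP_ae2765_an.WHol2

/-! Holomorphic solutions of a linear system on a disc. -/

namespace Pool.Agent.HillD
open Real Set Filter Topology Asymptotics

theorem wsol_mem {R : ℝ} {p z : ℂ} (hp : p ∈ Metric.ball (0 : ℂ) R)
    (hz : z ∈ Metric.ball (0 : ℂ) R) {s : ℝ} (hs : s ∈ Icc (0 : ℝ) 1) :
    p + (s : ℂ) * (z - p) ∈ Metric.ball (0 : ℂ) R := by
  have h := (convex_ball (0 : ℂ) R).add_smul_sub_mem hp hz hs
  simpa only [Complex.real_smul] using h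

theorem wsol_cont {R : ℝ} {f : ℂ → ℂ} (h : DifferentiableOn ℂ f (Metric.ball 0 R)) {p : ℂ}
    (hp : p ∈ Metric.ball (0 : ℂ) R) :
    ContinuousOn (fun q : ℂ × ℝ => (q.1 - p) * f (p + (q.2 : ℂ) * (q.1 - p)))
      (Metric.ball 0 R ×ˢ Icc 0 1) := by
  have c0 : Continuous (fun q : ℂ × ℝ => p + (q.2 : ℂ) * (q.1 - p)) := by fun_prop
  have c1 : Continuous (fun q : ℂ × ℝ => q.1 - p) := by fun_prop
  exact c1.continuousOn.mul (h.continuousOn.comp c0.continuousOn
    (fun q hq => wsol_mem hp hq.1 hq.2))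

theorem wsol_diff {R : ℝ} {f : ℂ → ℂ} (h : DifferentiableOn ℂ f (Metric.ball 0 R)) {p : ℂ}
    (hp : p ∈ Metric.ball (0 : ℂ) R) : ∀ s ∈ Icc (0 : ℝ) 1,
    DifferentiableOn ℂ (fun z : ℂ => (z - p) * f (p + (s : ℂ) * (z - p))) (Metric.ball 0 R) := by
  intro s hs
  have c0 : Differentiable ℂ (fun z : ℂ => p + (s : ℂ) * (z - p)) := by fun_prop
  have c1 : Differentiable ℂ (fun z : ℂ => z - p) := by fun_prop
  exact c1.differentiableOn.mul (h.comp c0.differentiableOn (fun z hz => wsol_mem hp hz hs))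

/-- rescaling of the time variable -/
theorem wsol_scale {x : ℝ → ℂ} {σ s : ℝ} (hσ : σ ∈ Icc (0 : ℝ) 1) {c : ℂ}
    (h : HasDerivWithinAt x c (Icc 0 1) (σ * s)) :
    HasDerivWithinAt (fun t => x (σ * t)) ((σ : ℂ) * c) (Icc 0 1) s := by
  have h0 : HasDerivWithinAt (fun t : ℝ => σ * t) σ (Icc 0 1) s := by
    simpa using ((hasDerivAt_id s).const_mul σ).hasDerivWithinAt
  have hm : MapsTo (fun t : ℝ => σ * t) (Icc 0 1) (Icc 0 1) := fun t ht =>
    ⟨mul_nonneg hσ.1 ht.1, mul_le_one₀ hσ.2 ht.1 ht.2⟩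
  have h1 := HasDerivWithinAt.scomp (h := fun t : ℝ => σ * t) s h h0 hm
  simpa only [Complex.real_smul, Function.comp_def] using h1

/-- the derivative of a holomorphic function from its radial derivative -/
theorem wsol_rad {R : ℝ} {u g : ℂ → ℂ} {p : ℂ} (hp : p ∈ Metric.ball (0 : ℂ) R)
    (hu : DifferentiableOn ℂ u (Metric.ball 0 R)) (hg : ContinuousOn g (Metric.ball 0 R))
    (h : ∀ z ∈ Metric.ball (0 : ℂ) R,
      HasDerivWithinAt (fun σ : ℝ => u (p + (σ : ℂ) * (z - p))) ((z - p) * g z) (Icc 0 1) 1) :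
    ∀ z ∈ Metric.ball (0 : ℂ) R, HasDerivAt u (g z) z := by
  have hd : ∀ z ∈ Metric.ball (0 : ℂ) R, HasDerivAt u (deriv u z) z := fun z hz =>
    (hu.differentiableAt (Metric.isOpen_ball.mem_nhds hz)).hasDerivAt
  have key : ∀ z ∈ Metric.ball (0 : ℂ) R, z ≠ p → deriv u z = g z := by
    intro z hz hne
    have e : p + ((1 : ℝ) : ℂ) * (z - p) = z := by push_cast; ring
    have h1 : HasDerivAt (fun w : ℂ => p + w * (z - p)) (z - p) ((1 : ℝ) : ℂ) := by
      simpa using ((hasDerivAt_id ((1 : ℝ) : ℂ)).mul_const (z - p)).const_add p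
    have h2 : HasDerivAt u (deriv u z) (p + ((1 : ℝ) : ℂ) * (z - p)) := by
      rw [e]; exact hd z hz
    have h3 : HasDerivAt (fun w : ℂ => u (p + w * (z - p))) (deriv u z * (z - p))
        ((1 : ℝ) : ℂ) := h2.comp ((1 : ℝ) : ℂ) h1
    have h4 := (h3.comp_ofReal).hasDerivWithinAt (s := Icc (0 : ℝ) 1)
    have h5 := (uniqueDiffOn_Icc (zero_lt_one' ℝ) 1 ⟨zero_le_one, le_rfl⟩).eq_deriv _ h4 (h z hz)
    have hz0 : z - p ≠ 0 := sub_ne_zero.2 hne
    apply mul_right_cancel₀ hz0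
    rw [h5]; ring
  intro z hz
  by_cases hne : z = p
  · subst hne
    have c1 : ContinuousAt (deriv u) z :=
      (hu.deriv Metric.isOpen_ball).continuousOn.continuousAt (Metric.isOpen_ball.mem_nhds hz)
    have c2 : ContinuousAt g z := hg.continuousAt (Metric.isOpen_ball.mem_nhds hz)
    have ev : deriv u =ᶠ[𝓝[≠] z] g := by
      filter_upwards [mem_nhdsWithin_of_mem_nhds (Metric.isOpen_ball.mem_nhds hz),
        self_mem_nhdsWithin] with w hw hwz
      exact key w hw hwz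
    have e : deriv u z = g z :=
      tendsto_nhds_unique ((c1.tendsto.mono_left nhdsWithin_le_nhds).congr' ev)
        (c2.tendsto.mono_left nhdsWithin_le_nhds)
    rw [← e]; exact hd z hz
  · rw [← key z hz hne]; exact hd z hz

theorem hol_sol {R : ℝ} {f1 f2 : ℂ → ℂ} (h1 : DifferentiableOn ℂ f1 (Metric.ball 0 R))
    (h2 : DifferentiableOn ℂ f2 (Metric.ball 0 R)) {p : ℂ} (hp : p ∈ Metric.ball (0 : ℂ) R)
    (u0 y0 : ℂ) : ∃ u y : ℂ → ℂ, u p = u0 ∧ y p = y0 ∧
      ∀ z ∈ Metric.ball (0 : ℂ) R, HasDerivAt u (f1 z * y z) z ∧ HasDerivAt y (f2 z * u z) z := by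
  obtain ⟨x, y, -, -, dxy, hode⟩ := hol_ode (U := Metric.ball (0 : ℂ) R) Metric.isOpen_ball
    (a11 := fun _ _ => 0) (a12 := fun z s => (z - p) * f1 (p + (s : ℂ) * (z - p)))
    (a21 := fun z s => (z - p) * f2 (p + (s : ℂ) * (z - p))) (a22 := fun _ _ => 0)
    continuousOn_const (wsol_cont h1 hp) (wsol_cont h2 hp) continuousOn_const
    (fun _ _ => differentiableOn_const _) (wsol_diff h1 hp) (wsol_diff h2 hp)
    (fun _ _ => differentiableOn_const _) u0 y0
  have one : (1 : ℝ) ∈ Icc (0 : ℝ) 1 := ⟨zero_le_one, le_rfl⟩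
  have zer : (0 : ℝ) ∈ Icc (0 : ℝ) 1 := ⟨le_rfl, zero_le_one⟩
  have cs : ∀ {f : ℂ → ℂ}, DifferentiableOn ℂ f (Metric.ball 0 R) → ∀ z ∈ Metric.ball (0 : ℂ) R,
      ContinuousOn (fun s : ℝ => (z - p) * f (p + (s : ℂ) * (z - p))) (Icc 0 1) := by
    intro f hf z hz
    have c0 : Continuous (fun s : ℝ => p + (s : ℂ) * (z - p)) := by fun_prop
    exact continuousOn_const.mul (hf.continuousOn.comp c0.continuousOn
      (fun s hs => wsol_mem hp hz hs))
  have sc : ∀ z ∈ Metric.ball (0 : ℂ) R, ∀ σ ∈ Icc (0 : ℝ) 1,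
      x (p + (σ : ℂ) * (z - p)) 1 = x z σ ∧ y (p + (σ : ℂ) * (z - p)) 1 = y z σ := by
    intro z hz σ hσ
    have hz' := wsol_mem hp hz hσ
    obtain ⟨e1, e2, hd⟩ := hode z hz
    obtain ⟨e1', e2', hd'⟩ := hode _ hz'
    have hu := ode_uniq (a11 := fun _ => 0) (a22 := fun _ => 0) continuousOn_const
      (cs h1 _ hz') (cs h2 _ hz') continuousOn_const hd'
      (x' := fun t => x z (σ * t)) (y' := fun t => y z (σ * t)) ?_
      (by rw [e1', mul_zero, e1]) (by rw [e2', mul_zero, e2]) 1 one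
    · simpa only [mul_one] using hu
    · intro s hs
      have hm : σ * s ∈ Icc (0 : ℝ) 1 := ⟨mul_nonneg hσ.1 hs.1, mul_le_one₀ hσ.2 hs.1 hs.2⟩
      have ea : p + (s : ℂ) * (p + (σ : ℂ) * (z - p) - p) = p + ((σ * s : ℝ) : ℂ) * (z - p) := by
        push_cast; ring
      refine ⟨(wsol_scale hσ (hd _ hm).1).congr_deriv ?_,
        (wsol_scale hσ (hd _ hm).2).congr_deriv ?_⟩
      · rw [ea]; ring
      · rw [ea]; ring
  have du := (dxy 1 one).1
  have dy := (dxy 1 one).2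
  refine ⟨fun z => x z 1, fun z => y z 1, ?_, ?_, ?_⟩
  · have := (sc p hp 0 zer).1
    rw [(hode p hp).1] at this
    simpa using this
  · have := (sc p hp 0 zer).2
    rw [(hode p hp).2.1] at this
    simpa using this
  · have A := wsol_rad (g := fun z => f1 z * y z 1) hp du
      (h1.continuousOn.mul dy.continuousOn) (fun z hz => by
        have h := ((hode z hz).2.2 1 one).1
        have e : p + ((1 : ℝ) : ℂ) * (z - p) = z := by push_cast; ring
        refine (h.congr (fun σ hσ => (sc z hz σ hσ).1) (sc z hz 1 one).1).congr_deriv ?_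
        rw [e]; ring)
    have B := wsol_rad (g := fun z => f2 z * x z 1) hp dy
      (h2.continuousOn.mul du.continuousOn) (fun z hz => by
        have h := ((hode z hz).2.2 1 one).2
        have e : p + ((1 : ℝ) : ℂ) * (z - p) = z := by push_cast; ring
        refine (h.congr (fun σ hσ => (sc z hz σ hσ).2) (sc z hz 1 one).2).congr_deriv ?_
        rw [e]; ring)
    exact fun z hz => ⟨A z hz, B z hz⟩

end Pool.Agent.HillD
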