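import Pool.Agent.P.MP_ae2765_an.WBr1
import Pool.Agent.P.MP_ae2765_an.WSol

/-! From the solution along the complex path to the real solutions. -/

namespace Pool.Agent.HillD
open Real Set Filter Topology Asymptotics

noncomputable def wbr2_r (j φ : ℂ) : ℂ :=
  Complex.sqrt (QQ j (Complex.cos φ ^ 2) / (2 * (1 - j)))

noncomputable def wbr2_L (j φ : ℂ) : ℂ :=
  -((1 - 2 * j) * Complex.cos φ * Complex.sin φ) / QQ j (Complex.cos φ ^ 2)

theorem wbr2_sqrt_real {a : ℝ} (ha : 0 ≤ a) : Complex.sqrt (a : ℂ) = ((√a : ℝ) : ℂ) := by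
  have h := Complex.sqrt_of_nonneg (a := (a : ℂ)) (by exact_mod_cast ha)
  simpa using h

theorem wbr2_r_deriv {j : ℝ} (hj2 : j < 1 / 2) {φ : ℂ}
    (hQ : QQ j (Complex.cos φ ^ 2) ∈ Complex.slitPlane) :
    HasDerivAt (wbr2_r j) (wbr2_L j φ * wbr2_r j φ) φ ∧ wbr2_r j φ ≠ 0 := by
  have hc : (0 : ℝ) < 2 * (1 - j) := by linarith
  have hc' : (2 * (1 - (j : ℂ))) = ((2 * (1 - j) : ℝ) : ℂ) := by push_cast; ring
  have hcne : (2 * (1 - (j : ℂ))) ≠ 0 := by rw [hc']; exact_mod_cast hc.ne'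
  have hQ0 := Complex.slitPlane_ne_zero hQ
  have hsl : QQ j (Complex.cos φ ^ 2) / (2 * (1 - j)) ∈ Complex.slitPlane := by
    rw [hc', Complex.mem_slitPlane_iff, Complex.div_ofReal_re, Complex.div_ofReal_im]
    rcases hQ with h | h
    · exact Or.inl (div_pos h hc)
    · exact Or.inr (div_ne_zero h hc.ne')
  have hq : HasDerivAt (fun φ : ℂ => QQ j (Complex.cos φ ^ 2) / (2 * (1 - (j : ℂ))))
      ((1 - 2 * j) * (2 * Complex.cos φ * -Complex.sin φ) / (2 * (1 - (j : ℂ)))) φ := by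
    have := ((((Complex.hasDerivAt_cos φ).fun_pow 2).const_mul (1 - 2 * (j : ℂ))).const_add
      1).div_const (2 * (1 - (j : ℂ)))
    simpa [QQ] using this
  have hd : DifferentiableAt ℂ (wbr2_r j) φ :=
    (Complex.differentiableAt_sqrt hsl).comp φ hq.differentiableAt
  have hsq : ∀ x : ℂ, wbr2_r j x ^ 2 = QQ j (Complex.cos x ^ 2) / (2 * (1 - (j : ℂ))) :=
    fun x => csqrt_sq _
  have hne : wbr2_r j φ ≠ 0 := by
    intro h
    have := hsq φ
    rw [h] at this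
    exact Complex.slitPlane_ne_zero hsl (by rw [← this]; ring)
  refine ⟨?_, hne⟩
  have h2 := hd.hasDerivAt.fun_pow 2
  simp only [hsq] at h2
  have h3 := h2.unique hq
  refine (hd.hasDerivAt).congr_deriv ?_
  apply mul_left_cancel₀ (mul_ne_zero (two_ne_zero' ℂ) hne)
  have h4 : 2 * wbr2_r j φ * deriv (wbr2_r j) φ =
      (1 - 2 * j) * (2 * Complex.cos φ * -Complex.sin φ) / (2 * (1 - (j : ℂ))) := by
    rw [← h3]; norm_num
  rw [h4]
  symm
  have h5 : 2 * wbr2_r j φ * (wbr2_L j φ * wbr2_r j φ) = 2 * wbr2_L j φ * wbr2_r j φ ^ 2 := by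
    ring
  rw [h5, hsq, wbr2_L]
  field_simp

theorem wbr2_comp {φ1 s : ℝ} {F : ℂ → ℂ} {F' : ℂ} (h : HasDerivAt F F' (pth φ1 s)) :
    HasDerivAt (fun t : ℝ => F (pth φ1 t)) (F' * (φ1 * (1 - Complex.I))) s := by
  have hp : HasDerivAt (fun z : ℂ => (φ1 : ℂ) * (Complex.I + (1 - Complex.I) * z))
      (φ1 * (1 - Complex.I)) (s : ℂ) := by
    simpa using (((hasDerivAt_id (s : ℂ)).const_mul (1 - Complex.I)).const_add
      Complex.I).const_mul (φ1 : ℂ)
  exact (HasDerivAt.comp (s : ℂ) (h₂ := F) h hp).comp_ofReal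

theorem wbr2_path {ω j φ1 R : ℝ} {A B : ℝ → ℂ} {H u w : ℂ → ℂ} (hω : 0 < ω) (hj : 0 < j)
    (hj2 : j < 1 / 2) (h0 : 0 < φ1) (h1 : φ1 ≤ π / 2) (hR : π / 2 < R)
    (hd : ∀ φ ∈ Metric.ball (0 : ℂ) R, PP ω j (Complex.cos φ ^ 2) ∈ Complex.slitPlane ∧
      QQ j (Complex.cos φ ^ 2) ∈ Complex.slitPlane ∧ q2 ω j φ ∈ Complex.slitPlane)
    (hg : ∀ s ∈ Icc (0 : ℝ) 1, 0 < (gp φ1 ω j s).re)
    (hs : RicSol (gp φ1 ω j) (fun s => psi ω j (pX φ1 s)) A B)
    (hH0 : H (Complex.I * φ1) = 0)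
    (hH : ∀ φ ∈ Metric.ball (0 : ℂ) R, HasDerivAt H
      (Complex.I * qh ω j φ * (1 + psi ω j (Complex.cos φ ^ 2) / 2) + eh ω j φ) φ)
    (hu : ∀ z ∈ Metric.ball (0 : ℂ) R, HasDerivAt u (w z) z ∧
      HasDerivAt w (-q2 ω j z * u z - wbr2_L j z * w z) z)
    (u0 : u (Complex.I * φ1) = 1)
    (w0 : w (Complex.I * φ1) = eh ω j (Complex.I * φ1) + Complex.I * qh ω j (Complex.I * φ1)) :
    u φ1 = Complex.exp (H φ1) * A 1 ∧
      w φ1 = Complex.exp (H φ1) *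
        ((eh ω j φ1 + Complex.I * qh ω j φ1) * A 1 + Complex.I * qh ω j φ1 * B 1) := by
  have hm : ∀ s ∈ Icc (0 : ℝ) 1, pth φ1 s ∈ Metric.ball (0 : ℂ) R :=
    fun s hs => pth_mem h0 h1 hR hs
  have hQ : ∀ s ∈ Icc (0 : ℝ) 1, QQ j (Complex.cos (pth φ1 s) ^ 2) ≠ 0 :=
    fun s hs => Complex.slitPlane_ne_zero (hd _ (hm s hs)).2.1
  have hpc : Continuous (pth φ1) := by unfold pth; fun_prop
  have p0 : pth φ1 0 = Complex.I * φ1 := by simp [pth, mul_comm]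
  have p1 : pth φ1 1 = φ1 := by simp [pth]
  have key := ode_uniq (a11 := fun _ => 0) (a12 := fun _ => (φ1 : ℂ) * (1 - Complex.I))
    (a21 := fun s => -q2 ω j (pth φ1 s) * (φ1 * (1 - Complex.I)))
    (a22 := fun s => -wbr2_L j (pth φ1 s) * (φ1 * (1 - Complex.I)))
    (x := fun s => u (pth φ1 s)) (y := fun s => w (pth φ1 s))
    (x' := fun s => Complex.exp (H (pth φ1 s)) * A s)
    (y' := fun s => Complex.exp (H (pth φ1 s)) *
      ((eh ω j (pth φ1 s) + Complex.I * qh ω j (pth φ1 s)) * A s +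
        Complex.I * qh ω j (pth φ1 s) * B s))
    continuousOn_const continuousOn_const ?_ ?_ ?_ ?_ ?_ ?_ 1 ⟨zero_le_one, le_rfl⟩
  · simpa only [p1] using key
  · refine (ContinuousOn.neg ?_).mul continuousOn_const
    unfold q2
    refine ContinuousOn.div ?_ ?_ hQ
    · unfold PP; fun_prop
    · unfold QQ; fun_prop
  · refine (ContinuousOn.neg ?_).mul continuousOn_const
    unfold wbr2_L
    refine ContinuousOn.div ?_ ?_ hQ
    · fun_prop
    · unfold QQ; fun_prop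
  · intro s hs'
    obtain ⟨a, b⟩ := hu _ (hm s hs')
    constructor
    · refine ((wbr2_comp a).hasDerivWithinAt).congr_deriv ?_
      ring
    · refine ((wbr2_comp b).hasDerivWithinAt).congr_deriv ?_
      ring
  · intro s hs'
    obtain ⟨dP, dQ, dq⟩ := hd _ (hm s hs')
    obtain ⟨a, b⟩ := hs.2.2 s hs'
    obtain ⟨c, d⟩ := qh_eh_deriv (j := j) hω (Complex.slitPlane_ne_zero dP)
      (Complex.slitPlane_ne_zero dQ) dq (wbr2_L j (pth φ1 s)) rfl
    have e := ((wbr2_comp (hH _ (hm s hs'))).cexp).hasDerivWithinAt (s := Icc 0 1)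
    have c' := (wbr2_comp c).hasDerivWithinAt (s := Icc 0 1)
    have d' := (wbr2_comp d).hasDerivWithinAt (s := Icc 0 1)
    have hq2 : q2 ω j (pth φ1 s) = qh ω j (pth φ1 s) ^ 2 := (csqrt_sq _).symm
    rw [gp_eq hω hj hj2 h0 h1 hg s hs'] at a b
    simp only [pX] at a b
    have hI : (1 + Complex.I) = Complex.I * (1 - Complex.I) := by
      linear_combination Complex.I_mul_I
    rw [hI] at a b
    rw [hq2] at d'
    constructor
    · refine (e.fun_mul a).congr_deriv ?_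
      ring
    · refine (e.fun_mul (((d'.fun_add (c'.const_mul Complex.I)).fun_mul a).fun_add
        ((c'.const_mul Complex.I).fun_mul b))).congr_deriv ?_
      rw [hq2]
      generalize Complex.exp (H (pth φ1 s)) = E
      generalize qh ω j (pth φ1 s) = q
      generalize eh ω j (pth φ1 s) = η
      generalize wbr2_L j (pth φ1 s) = L
      generalize psi ω j (Complex.cos (pth φ1 s) ^ 2) = ψ
      linear_combination (E * φ1 * (1 - Complex.I) * q ^ 2 * A s * (1 + ψ)) *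
        Complex.I_mul_I
  · simp only [p0, u0, hH0, hs.1]; simp
  · simp only [p0, w0, hH0, hs.1, hs.2.1]; simp

theorem wbr2_real {m ω φ1 R α β : ℝ} (hm : m < 1) {u y f1 f2 : ℂ → ℂ} (h0 : 0 < φ1)
    (hR : φ1 < R)
    (h : ∀ z ∈ Metric.ball (0 : ℂ) R, HasDerivAt u (f1 z * y z) z ∧ HasDerivAt y (f2 z * u z) z)
    (e1 : ∀ t : ℝ, f1 t = cA m ω t) (e2 : ∀ t : ℝ, f2 t = -cB m ω t)
    (u0 : u 0 = α) (y0 : y 0 = Complex.I * β) :
    u φ1 = α * sx m ω (π / 2) φ1 + Complex.I * (β * sx m ω 0 φ1) ∧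
      y φ1 = α * sy m ω (π / 2) φ1 + Complex.I * (β * sy m ω 0 φ1) := by
  have hl : ∀ s : ℝ, HasDerivAt (fun s : ℝ => φ1 * s) φ1 s := fun s => by
    simpa using (hasDerivAt_id s).const_mul φ1
  have hre : ∀ {g : ℝ → ℝ} {g' s : ℝ}, HasDerivAt g g' (φ1 * s) →
      HasDerivAt (fun s : ℝ => ((g (φ1 * s) : ℝ) : ℂ)) ((g' * φ1 : ℝ) : ℂ) s :=
    fun {g g' s} hg => (HasDerivAt.comp s (h₂ := g) hg (hl s)).ofReal_comp
  have hco : ∀ {F : ℂ → ℂ} {F' : ℂ} {s : ℝ}, HasDerivAt F F' ((φ1 * s : ℝ) : ℂ) →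
      HasDerivAt (fun s : ℝ => F ((φ1 * s : ℝ) : ℂ)) (F' * φ1) s := fun {F F' s} hF => by
    have hp : HasDerivAt (fun z : ℂ => (φ1 : ℂ) * z) φ1 (s : ℂ) := by
      simpa using (hasDerivAt_id (s : ℂ)).const_mul (φ1 : ℂ)
    push_cast at hF ⊢
    exact (HasDerivAt.comp (s : ℂ) (h₂ := F) hF hp).comp_ofReal
  have hA := cA_cont hm ω
  have hB := cB_cont hm ω
  have key := ode_uniq (a11 := fun _ => 0) (a12 := fun s => (cA m ω (φ1 * s) : ℂ) * φ1)
    (a21 := fun s => -(cB m ω (φ1 * s) : ℂ) * φ1) (a22 := fun _ => 0)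
    (x := fun s => u ((φ1 * s : ℝ) : ℂ)) (y := fun s => y ((φ1 * s : ℝ) : ℂ))
    (x' := fun s => α * (sx m ω (π / 2) (φ1 * s) : ℂ) + Complex.I * (β * sx m ω 0 (φ1 * s)))
    (y' := fun s => α * (sy m ω (π / 2) (φ1 * s) : ℂ) + Complex.I * (β * sy m ω 0 (φ1 * s)))
    continuousOn_const (by fun_prop) (by fun_prop) continuousOn_const ?_ ?_ ?_ ?_ 1
    ⟨zero_le_one, le_rfl⟩
  · simpa only [mul_one] using key
  · intro s hs
    have hmem : ((φ1 * s : ℝ) : ℂ) ∈ Metric.ball (0 : ℂ) R := by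
      rw [mem_ball_zero_iff, Complex.norm_real, Real.norm_eq_abs,
        abs_of_nonneg (mul_nonneg h0.le hs.1)]
      nlinarith [hs.2]
    obtain ⟨a, b⟩ := h _ hmem
    rw [e1] at a
    rw [e2] at b
    constructor
    · refine ((hco a).hasDerivWithinAt).congr_deriv ?_
      ring
    · refine ((hco b).hasDerivWithinAt).congr_deriv ?_
      ring
  · intro s hs
    obtain ⟨a, b⟩ := s_lin hm ω (π / 2) (φ1 * s)
    obtain ⟨c, d⟩ := s_lin hm ω 0 (φ1 * s)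
    constructor
    · refine ((((hre a).const_mul (α : ℂ)).fun_add
        (((hre c).const_mul (β : ℂ)).const_mul Complex.I)).hasDerivWithinAt).congr_deriv ?_
      push_cast
      ring
    · refine ((((hre b).const_mul (α : ℂ)).fun_add
        (((hre d).const_mul (β : ℂ)).const_mul Complex.I)).hasDerivWithinAt).congr_deriv ?_
      push_cast
      ring
  · simp [u0, sx_zero hm]
  · simp [y0, sy_zero hm]

/-- real values on the imaginary axis -/
theorem wbr2_imag {ω j : ℝ} (hω : 0 < ω) (hj : 0 < j) (hj2 : j < 1 / 2) (s : ℝ) :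
    ∃ a b c d : ℝ, wbr2_r j (Complex.I * s) = a ∧ PP ω j (Complex.cos (Complex.I * s) ^ 2) = b ∧
      qh ω j (Complex.I * s) = c ∧ eh ω j (Complex.I * s) = Complex.I * d := by
  have hc : Complex.cos (Complex.I * s) = (cosh s : ℝ) := by
    rw [mul_comm, Complex.cos_mul_I]; simp
  have hsn : Complex.sin (Complex.I * s) = Complex.I * (sinh s : ℝ) := by
    rw [mul_comm, Complex.sin_mul_I]; simp [mul_comm]
  have hk : 0 < 1 - 2 * j := by linarith
  have hk' : 0 < 1 - j := by linarith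
  have hP : PP ω j (Complex.cos (Complex.I * s) ^ 2) =
      ((ω * j + (1 - 2 * j) * cosh s ^ 2 : ℝ) : ℂ) := by
    rw [hc, PP]; push_cast; ring
  have hQ : QQ j (Complex.cos (Complex.I * s) ^ 2) =
      ((1 + (1 - 2 * j) * cosh s ^ 2 : ℝ) : ℂ) := by
    rw [hc, QQ]; push_cast; ring
  refine ⟨√((1 + (1 - 2 * j) * cosh s ^ 2) / (2 * (1 - j))), _,
    √(2 * ω * (ω * j + (1 - 2 * j) * cosh s ^ 2) / (1 + (1 - 2 * j) * cosh s ^ 2)),
    (1 - 2 * j) * cosh s * sinh s / (2 * (ω * j + (1 - 2 * j) * cosh s ^ 2)), ?_, hP, ?_, ?_⟩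
  · rw [← wbr2_sqrt_real (by positivity), wbr2_r, hQ]
    congr 1
    push_cast
    ring
  · rw [← wbr2_sqrt_real (by positivity), qh, q2, hP, hQ]
    congr 1
    push_cast
    ring
  · rw [eh, hP, hc, hsn]
    push_cast
    ring

theorem bridge {δ ω φ1 : ℝ} {A B : ℝ → ℂ} {k z : ℂ} (hδ : 0 < δ) (hω : 0 < ω) (h0 : 0 < φ1)
    (h1 : φ1 ≤ π / 2) (hg : ∀ s ∈ Icc (0 : ℝ) 1, 0 < (gp φ1 ω (jj δ) s).re)
    (hs : RicSol (gp φ1 ω (jj δ)) (fun s => psi ω (jj δ) (pX φ1 s)) A B)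
    (hk : A 1 = Complex.exp k) (hz : B 1 = z * A 1) : Br φ1 δ ω k z := by
  obtain ⟨hj, hj2⟩ := jj_bd hδ
  obtain ⟨R, hR, hd⟩ := disc_ex hω hj hj2
  obtain ⟨H, hH0, hH, hHim⟩ := prim hω hj hj2 h0 h1 hR hd
  have hm := mm_lt_one δ
  have hω' : (ω : ℂ) ≠ 0 := by exact_mod_cast hω.ne'
  have hj' : (1 - (jj δ : ℂ)) ≠ 0 := by
    have : (1 - jj δ : ℝ) ≠ 0 := by linarith
    exact_mod_cast this
  have hrr : ∀ t : ℝ, wbr2_r (jj δ) t = pm (mm δ) t := fun t => by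
    rw [pm, ← wbr2_sqrt_real (Dm_pos hm t).le, wbr2_r, (real_axis hω hj hj2).2.2.2.2.1,
      (cA_cB hδ hω t).2.2.1]
    congr 1
    push_cast
    ring
  obtain ⟨f1, hf1⟩ : ∃ f1 : ℂ → ℂ, f1 = fun φ => (ω : ℂ) / wbr2_r (jj δ) φ := ⟨_, rfl⟩
  obtain ⟨f2, hf2⟩ : ∃ f2 : ℂ → ℂ, f2 = fun φ =>
    -(PP ω (jj δ) (Complex.cos φ ^ 2) / (1 - (jj δ : ℂ)) / wbr2_r (jj δ) φ) := ⟨_, rfl⟩
  have e1 : ∀ t : ℝ, f1 t = cA (mm δ) ω t := fun t => by
    simp only [hf1, hrr, cA]; push_cast; ring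
  have e2 : ∀ t : ℝ, f2 t = -cB (mm δ) ω t := fun t => by
    simp only [hf2, hrr, cB, (cA_cB hδ hω t).2.2.2, (real_axis hω hj hj2).2.2.2.1]
    push_cast; ring
  have d1 : ∀ φ ∈ Metric.ball (0 : ℂ) R, HasDerivAt f1 (-wbr2_L (jj δ) φ * f1 φ) φ := by
    intro φ hφ
    obtain ⟨a, b⟩ := wbr2_r_deriv hj2 (hd φ hφ).2.1
    rw [hf1]
    refine ((hasDerivAt_const φ (ω : ℂ)).fun_div a b).congr_deriv ?_
    field_simp
    ring
  have D1 : DifferentiableOn ℂ f1 (Metric.ball 0 R) :=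
    fun φ hφ => (d1 φ hφ).differentiableAt.differentiableWithinAt
  have D2 : DifferentiableOn ℂ f2 (Metric.ball 0 R) := by
    intro φ hφ
    obtain ⟨a, b⟩ := wbr2_r_deriv hj2 (hd φ hφ).2.1
    rw [hf2]
    refine (DifferentiableAt.fun_neg (DifferentiableAt.fun_div ?_ a.differentiableAt
      b)).differentiableWithinAt
    unfold PP
    fun_prop
  have n1 : ∀ φ ∈ Metric.ball (0 : ℂ) R, f1 φ ≠ 0 := fun φ hφ => by
    rw [hf1]; exact div_ne_zero hω' (wbr2_r_deriv hj2 (hd φ hφ).2.1).2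
  have pr12 : ∀ φ ∈ Metric.ball (0 : ℂ) R, f1 φ * f2 φ = -q2 ω (jj δ) φ := fun φ hφ => by
    have b := (wbr2_r_deriv hj2 (hd φ hφ).2.1).2
    have hQ := Complex.slitPlane_ne_zero (hd φ hφ).2.1
    have hsq : wbr2_r (jj δ) φ ^ 2 =
      QQ (jj δ) (Complex.cos φ ^ 2) / (2 * (1 - (jj δ : ℂ))) := csqrt_sq _
    have : f1 φ * f2 φ = -(ω * PP ω (jj δ) (Complex.cos φ ^ 2) / (1 - (jj δ : ℂ)) /
        wbr2_r (jj δ) φ ^ 2) := by
      simp only [hf1, hf2]; field_simp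
    rw [this, hsq, q2]
    field_simp
  have hφR : φ1 < R := lt_of_le_of_lt h1 hR
  have hp : Complex.I * φ1 ∈ Metric.ball (0 : ℂ) R := by
    simpa [abs_of_pos h0] using hφR
  have hp1 : (φ1 : ℂ) ∈ Metric.ball (0 : ℂ) R := by
    simpa [abs_of_pos h0] using hφR
  obtain ⟨u, y, u0, y0, huy⟩ := hol_sol D1 D2 hp 1
    ((eh ω (jj δ) (Complex.I * φ1) + Complex.I * qh ω (jj δ) (Complex.I * φ1)) /
      f1 (Complex.I * φ1))
  obtain ⟨U, W⟩ := wbr2_path (u := u) (w := fun φ => f1 φ * y φ) hω hj hj2 h0 h1 hR hd hg hs hH0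
    hH (fun φ hφ => ⟨(huy φ hφ).1, by
      refine ((d1 φ hφ).fun_mul (huy φ hφ).2).congr_deriv ?_
      rw [← pr12 φ hφ]
      ring⟩) u0 (by
      simp only [y0]
      field_simp [n1 _ hp])
  obtain ⟨i1, i2⟩ := imag_axis h0.le hφR D1 D2 huy
    (fun s _ => by
      obtain ⟨a, b, c, d, ha, -, -, -⟩ := wbr2_imag hω hj hj2 s
      simp only [hf1, ha]
      norm_cast)
    (fun s _ => by
      obtain ⟨a, b, c, d, ha, hb, -, -⟩ := wbr2_imag hω hj hj2 s
      simp only [hf2, ha, hb]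
      norm_cast)
    (by simp [u0])
    (by
      obtain ⟨a, b, c, d, ha, -, hc, hd⟩ := wbr2_imag hω hj hj2 φ1
      simp only [y0, hf1, ha, hc, hd]
      have : (Complex.I * d + Complex.I * c) / ((ω : ℂ) / a) =
          Complex.I * (((d + c) / (ω / a) : ℝ) : ℂ) := by push_cast; ring
      rw [this]
      simp only [Complex.mul_re, Complex.I_re, Complex.I_im, Complex.ofReal_im]
      ring)
  obtain ⟨X, Y⟩ := wbr2_real (α := (u 0).re) (β := (y 0).im) hm h0 hφR huy e1 e2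
    (Complex.ext (by simp) (by simp [i1])) (Complex.ext (by simp [i2]) (by simp))
  obtain ⟨-, -, -, -, -, hq, he⟩ := real_axis (φ := φ1) hω hj hj2
  have hE : Complex.exp (H φ1) * Complex.exp k = (exp ((H φ1 + k).re) : ℝ) *
      Complex.exp (Complex.I * (ph0 φ1 ω (jj δ) k : ℝ)) := by
    rw [← Complex.exp_add, Complex.ofReal_exp, ← Complex.exp_add]
    congr 1
    apply Complex.ext
    · simp
    · simp only [Complex.add_im, Complex.ofReal_im, Complex.mul_im, Complex.I_re, Complex.I_im,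
        Complex.ofReal_re, ph0, hHim]
      ring
  have hE0 : ((exp ((H φ1 + k).re) : ℝ) : ℂ) ≠ 0 := by exact_mod_cast (exp_pos _).ne'
  have hA0 : ((cA (mm δ) ω φ1 : ℝ) : ℂ) ≠ 0 := by exact_mod_cast (cA_cB hδ hω φ1).1.ne'
  rw [hk, hE] at U
  simp only [e1] at W
  rw [hz, hk, hq, he] at W
  refine ⟨(u 0).re / exp ((H φ1 + k).re), (y 0).im / exp ((H φ1 + k).re), ?_, ?_⟩
  · rw [X] at U
    generalize exp ((H φ1 + k).re) = E at *
    push_cast
    field_simp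
    linear_combination U
  · rw [Y] at W
    rw [etaC]
    generalize exp ((H φ1 + k).re) = E at *
    push_cast
    field_simp
    linear_combination W + (er ω (jj δ) φ1 + Complex.I * qr ω (jj δ) φ1 * (1 + z)) * hE

end Pool.Agent.HillD
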