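import Pool.Agent.P.MP_ae2765_an.WErr

/-! Second region: large amplitude away from the turning point. -/

namespace Pool.Agent.HillD
open Real Set Filter Topology Asymptotics

theorem wc2d_mono {φ1 κ0 γ N N' T T' : ℝ} {ω j : ℂ} {b b' : ℝ → ℝ}
    (h : Wk φ1 ω j κ0 γ N T b b') (hN : N ≤ N') (hT : T ≤ T') : Wk φ1 ω j κ0 γ N' T' b b' :=
  ⟨h.ne0, h.neP, h.neQ, h.ang, h.bar, h.int.trans hN, h.slit, h.tt.trans hT⟩

theorem wc2d_low {z : ℂ} {r : ℝ} (h : ‖z‖ ≤ r) : 1 - r ≤ ‖1 + z‖ := by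
  have h1 := norm_sub_le (1 + z) z
  rw [add_sub_cancel_right, norm_one] at h1
  linarith

theorem wc2d_j {δ0 : ℝ} {τ : ℂ} (h1 : 475 ≤ δ0 ^ 2) (hτ : ‖τ‖ ≤ 3 / 20) :
    ‖lJ δ0 τ‖ ≤ 3 / 1000 := by
  have a1 := wc2d_low hτ
  have a2 := norm_sub_le ((δ0 : ℂ) ^ 2 * (1 + τ) ^ 2 + 2) 2
  rw [add_sub_cancel_right, norm_mul, norm_pow, norm_pow, Complex.norm_real, Real.norm_eq_abs,
    sq_abs, Complex.norm_two] at a2
  have a3 : (17 / 20 : ℝ) ^ 2 ≤ ‖1 + τ‖ ^ 2 := pow_le_pow_left₀ (by norm_num) (by linarith) 2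
  have a4 : 475 * (17 / 20 : ℝ) ^ 2 ≤ δ0 ^ 2 * ‖1 + τ‖ ^ 2 :=
    mul_le_mul h1 a3 (by norm_num) (by positivity)
  rw [lJ, norm_div, norm_one, div_le_iff₀ (by linarith)]
  linarith

theorem wc2d_aa {δ0 ω0 : ℝ} (hδ : 0 < δ0) (hω : 0 < ω0) :
    aa ω0 (jj δ0) ^ 2 ≤ (ω0 / δ0 ^ 2) ^ 2 * ω0 / 2 := by
  have e : 1 - 2 * jj δ0 = δ0 ^ 2 / (δ0 ^ 2 + 2) := by
    unfold jj
    field_simp
    ring
  rw [aa, mul_pow, sq_sqrt (by rw [e]; positivity), e, jj]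
  have e2 : (ω0 * (1 / (δ0 ^ 2 + 2))) ^ 2 * (ω0 / (2 * (δ0 ^ 2 / (δ0 ^ 2 + 2)))) =
      (ω0 / δ0 ^ 2) ^ 2 * ω0 / 2 * (δ0 ^ 2 / (δ0 ^ 2 + 2)) := by
    field_simp
  rw [e2]
  exact mul_le_of_le_one_right (by positivity) ((div_le_one (by positivity)).2 (by linarith))

theorem wc2d_rho {s : ℝ} {τ ρ : ℂ} (hs0 : 0 ≤ s) (hs1 : s ≤ 1) (hτ : ‖τ‖ ≤ 3 / 20)
    (hρ : ρ * (1 + s * τ) = (1 + τ) ^ 2) :
    (20 / 23 : ℝ) ^ 4 ≤ ‖1 + s * τ‖ * ‖ρ⁻¹‖ ^ 2 := by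
  have a0 : ‖(s : ℂ) * τ‖ ≤ s * (3 / 20) := by
    rw [norm_mul, Complex.norm_real, Real.norm_of_nonneg hs0]
    exact mul_le_mul_of_nonneg_left hτ hs0
  have a1 := wc2d_low a0
  have a2 := wc2d_low hτ
  have a3 : ‖1 + τ‖ ≤ 23 / 20 := by
    have := norm_add_le 1 τ
    rw [norm_one] at this
    linarith
  have a4 : ‖1 + τ‖ ≤ 23 / 20 * ‖1 + s * τ‖ := by
    have h1 := norm_add_le (1 + s * τ) (((1 - s : ℝ) : ℂ) * τ)
    have h2 : 1 + s * τ + ((1 - s : ℝ) : ℂ) * τ = 1 + τ := by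
      push_cast
      ring
    rw [h2, norm_mul, Complex.norm_real, Real.norm_of_nonneg (by linarith)] at h1
    have h3 := mul_le_mul_of_nonneg_left hτ (sub_nonneg.2 hs1)
    linarith
  have a5 := congrArg norm hρ
  rw [norm_mul, norm_pow] at a5
  rw [norm_inv]
  generalize ‖1 + (s : ℂ) * τ‖ = A at *
  generalize ‖1 + τ‖ = B at *
  have hA : 0 < A := by linarith
  have hB : 0 < B := by linarith
  have a6 : ‖ρ‖ = B ^ 2 / A := by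
    rw [← a5]
    field_simp
  have a7 : A * (B ^ 2 / A)⁻¹ ^ 2 = A ^ 3 / (B ^ 3 * B) := by
    field_simp
  have a8 : B ^ 3 * B ≤ (23 / 20 * A) ^ 3 * (23 / 20) :=
    mul_le_mul (pow_le_pow_left₀ hB.le a4 3) a3 hB.le (by positivity)
  rw [a6, a7, le_div_iff₀ (by positivity)]
  linarith

theorem c2_disc {δ0 ω0 s x : ℝ} {τ : ℂ} (hδ : 0 < δ0) (ht : ω0 ≤ δ0 ^ 2) (h1 : 475 ≤ ω0)
    (hx0 : 0 < x) (hx : x ^ 2 * aa ω0 (jj δ0) = 5 / 2) (hs0 : 0 ≤ s) (hs1 : s ≤ 1)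
    (hτ : ‖τ‖ ≤ 3 / 20) :
    Wk (π / 2) (lΩ ω0 s τ) (lJ δ0 τ) (79 / 200) (26 / 25)
      ((22 / 125 * (x ^ 2 * x) + 9 / 500) ^ 2) (11 / 500 * (133 / 250 * x ^ 2))
      (fun _ => 25 / 26 * (1 / 5 * (133 / 250 * x ^ 2) ^ 2 + 21 / 10000)) (fun _ => 0) := by
  have hω : 0 < ω0 := by linarith
  have hD : 0 < δ0 ^ 2 := by positivity
  obtain ⟨ρ, r1, -, r3, r4, -, -, -, r8, -, -⟩ :=
    line_par (r := 3 / 20) hδ hω hs0 hs1 (by norm_num) hτ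
  have hj := wc2d_j (h1.trans ht) hτ
  have a0 : ‖(s : ℂ) * τ‖ ≤ s * (3 / 20) := by
    rw [norm_mul, Complex.norm_real, Real.norm_of_nonneg hs0]
    exact mul_le_mul_of_nonneg_left hτ hs0
  have a1 := wc2d_low a0
  have hn : ‖lΩ ω0 s τ‖ = ω0 * ‖1 + s * τ‖ := by
    rw [lΩ, norm_mul, Complex.norm_real, Real.norm_of_nonneg hω.le]
  have hp : 0 < ω0 / δ0 ^ 2 := by positivity
  have hk : 497 / 500 ≤ ‖1 - 2 * lJ δ0 τ‖ := by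
    have h := wc2d_low (z := -(2 * lJ δ0 τ)) (r := 6 / 1000)
      (by rw [norm_neg, norm_mul, Complex.norm_two]; linarith)
    rw [← sub_eq_add_neg] at h
    linarith
  have hm : 2 ≤ (133 / 250 * x ^ 2) ^ 2 *
      (‖lΩ ω0 s τ * (1 - 2 * lJ δ0 τ) * ρ⁻¹ ^ 2‖ * (ω0 / δ0 ^ 2) ^ 2) := by
    have b1 := wc2d_rho hs0 hs1 hτ r1
    have b2 := wc2d_aa hδ hω
    have b3 : 497 / 500 * (20 / 23 : ℝ) ^ 4 ≤
        ‖1 - 2 * lJ δ0 τ‖ * (‖1 + s * τ‖ * ‖ρ⁻¹‖ ^ 2) :=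
      mul_le_mul hk b1 (by positivity) (norm_nonneg _)
    have b4 : (5 / 2 : ℝ) ^ 2 ≤ (x ^ 2) ^ 2 * ((ω0 / δ0 ^ 2) ^ 2 * ω0 / 2) := by
      rw [← hx, mul_pow]
      exact mul_le_mul_of_nonneg_left b2 (by positivity)
    have b5 := mul_le_mul b4 b3 (by positivity) (by positivity)
    rw [norm_mul, norm_mul, norm_pow, hn]
    calc (2 : ℝ) ≤ 2 * (133 / 250) ^ 2 * ((5 / 2) ^ 2 * (497 / 500 * (20 / 23) ^ 4)) := by
          norm_num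
      _ ≤ 2 * (133 / 250) ^ 2 * ((x ^ 2) ^ 2 * ((ω0 / δ0 ^ 2) ^ 2 * ω0 / 2) *
          (‖1 - 2 * lJ δ0 τ‖ * (‖1 + s * τ‖ * ‖ρ⁻¹‖ ^ 2))) :=
          mul_le_mul_of_nonneg_left b5 (by positivity)
      _ = _ := by ring
  have hν : (13 / (16 * 403) + 1 / 403 ^ 2 : ℝ) ^ 2 * (π * √(7 / 5 * 403)) ≤ (9 / 500) ^ 2 := by
    have b1 : √(7 / 5 * 403) ≤ 119 / 5 := sqrt_le_iff.2 ⟨by norm_num, by norm_num⟩
    have b2 : π * √(7 / 5 * 403) ≤ 3.15 * (119 / 5) :=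
      mul_le_mul pi_lt_d2.le b1 (sqrt_nonneg _) (by norm_num)
    refine (mul_le_mul_of_nonneg_left b2 (by positivity)).trans ?_
    norm_num
  have key := err2 (φ1 := π / 2) (x1 := 0) (p0 := ω0 / δ0 ^ 2) (A0 := 1) (jl := 3 / 1000)
    (μω := s * (3 / 20)) (v := 133 / 250 * x ^ 2) (ωl := 403) (κ0 := 79 / 200) (γ := 26 / 25)
    (bb := 25 / 26 * (1 / 5 * (133 / 250 * x ^ 2) ^ 2 + 21 / 10000)) (ν := 9 / 500)
    (ω := lΩ ω0 s τ) (j := lJ δ0 τ) (ρ := ρ⁻¹) (by linarith [pi_pos]) le_rfl (by simp) hp hp.le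
    (by rw [sub_zero]; exact (div_le_one hD).2 ht) (by ring) hj le_rfl ?_ r4 ?_ ?_ (Or.inl rfl)
    ((sa_one_add a0 (by linarith)).pos_mul hω) (by positivity) (by linarith) (by positivity) hm
    (by norm_num) ?_ ?_ ?_ (by norm_num) hν
  · refine wc2d_mono key (pow_le_pow_left₀ (by positivity) ?_ 2) (le_of_eq (by simp))
    refine add_le_add_left (sqrt_le_iff.2 ⟨by positivity, ?_⟩) _
    have : 0 ≤ x ^ 6 := by positivity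
    nlinarith
  · have hρ := r3.ne
    have e1 : (δ0 : ℂ) ≠ 0 := Complex.ofReal_ne_zero.2 hδ.ne'
    have e2 : (ω0 : ℂ) ≠ 0 := Complex.ofReal_ne_zero.2 hω.ne'
    rw [r8]
    push_cast
    field_simp
    ring
  · norm_num
    linarith
  · exact r3.inv.mono (by norm_num)
  · rw [hn]
    calc (403 : ℝ) ≤ 475 * (17 / 20) := by norm_num
      _ ≤ _ := mul_le_mul h1 (by linarith) (by norm_num) hω.le
  · norm_num
    linarith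
  · norm_num
    linarith

end Pool.Agent.HillD
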