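import Pool.Agent.P.MP_ae2765_an.Shape

/-! Definitions for the asymptotic analysis of the resonant lines (large index). -/

namespace Pool.Agent.HillD
open Real Set Filter Topology Asymptotics

/-! ### Jets at `0` -/

/-- `g τ = c0 + c1 τ + c2 τ ^ 2 + O(τ ^ 3)`. -/
def J2 {𝕜 : Type} [RCLike 𝕜] (g : ℝ → 𝕜) (c0 c1 c2 : 𝕜) : Prop :=
  (fun τ : ℝ => g τ - (c0 + c1 * (τ : 𝕜) + c2 * (τ : 𝕜) ^ 2)) =O[𝓝 0] fun τ : ℝ => τ ^ 3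

/-- `g τ = c0 + c1 τ + c2 τ ^ 2 + c3 τ ^ 3 + O(τ ^ 4)`. -/
def J3 {𝕜 : Type} [RCLike 𝕜] (g : ℝ → 𝕜) (c0 c1 c2 c3 : 𝕜) : Prop :=
  (fun τ : ℝ => g τ - (c0 + c1 * (τ : 𝕜) + c2 * (τ : 𝕜) ^ 2 + c3 * (τ : 𝕜) ^ 3)) =O[𝓝 0]
    fun τ : ℝ => τ ^ 4

/-- real two-jets as triples -/
abbrev T3 : Type := ℝ × ℝ × ℝ

def JT (g : ℝ → ℝ) (c : T3) : Prop := J2 g c.1 c.2.1 c.2.2

def jmul (x y : T3) : T3 :=
  (x.1 * y.1, x.1 * y.2.1 + x.2.1 * y.1, x.1 * y.2.2 + x.2.1 * y.2.1 + x.2.2 * y.1)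

noncomputable def jinv (x : T3) : T3 :=
  (x.1⁻¹, -(x.2.1 * x.1⁻¹ ^ 2), -((x.2.1 * -(x.2.1 * x.1⁻¹ ^ 2) + x.2.2 * x.1⁻¹) * x.1⁻¹))

noncomputable def jsqrt (x : T3) : T3 :=
  (√x.1, 1 / 2 * (x.2.1 * (√x.1)⁻¹),
    1 / 2 * ((x.2.2 - (1 / 2 * (x.2.1 * (√x.1)⁻¹)) ^ 2) * (√x.1)⁻¹))

/-- `z` lies in the right half plane and the sine of its argument is at most `σ` in modulus. -/
def Sa (z : ℂ) (σ : ℝ) : Prop := 0 < z.re ∧ |z.im| ≤ σ * ‖z‖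

/-! ### The equation `Q u'' + Q' u' / 2 + 2 ω P u = 0`, `X = cos φ ^ 2`, `j = 1 / (δ ^ 2 + 2)` -/

noncomputable def jj (δ : ℝ) : ℝ := 1 / (δ ^ 2 + 2)

noncomputable def PP (ω j X : ℂ) : ℂ := ω * j + (1 - 2 * j) * X

noncomputable def QQ (j X : ℂ) : ℂ := 1 + (1 - 2 * j) * X

/-- the error potential of the WKB transformation -/
noncomputable def psi (ω j X : ℂ) : ℂ :=
  (1 - 2 * j) * (5 * (1 - 2 * j) * QQ j X * X * (1 - X) -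
    2 * PP ω j X * (QQ j X * (1 - 2 * X) + (1 - 2 * j) * X * (1 - X))) / (8 * ω * PP ω j X ^ 3)

/-- the segment from `i φ1` to `φ1` -/
noncomputable def pth (φ1 s : ℝ) : ℂ := φ1 * (Complex.I + (1 - Complex.I) * s)

noncomputable def pX (φ1 s : ℝ) : ℂ := Complex.cos (pth φ1 s) ^ 2

noncomputable def G2 (φ1 : ℝ) (ω j : ℂ) (s : ℝ) : ℂ :=
  4 * (φ1 : ℂ) ^ 2 * ω * PP ω j (pX φ1 s) / QQ j (pX φ1 s)

noncomputable def gp (φ1 : ℝ) (ω j : ℂ) (s : ℝ) : ℂ := Complex.sqrt (Complex.I * G2 φ1 ω j s)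

noncomputable def q2 (ω j φ : ℂ) : ℂ :=
  2 * ω * PP ω j (Complex.cos φ ^ 2) / QQ j (Complex.cos φ ^ 2)

noncomputable def qh (ω j φ : ℂ) : ℂ := Complex.sqrt (q2 ω j φ)

/-- `- P' / (4 P)` -/
noncomputable def eh (ω j φ : ℂ) : ℂ :=
  (1 - 2 * j) * Complex.cos φ * Complex.sin φ / (2 * PP ω j (Complex.cos φ ^ 2))

noncomputable def Tt (φ1 : ℝ) (ω j : ℂ) : ℂ :=
  -∫ φ in (0 : ℝ)..φ1, eh ω j φ ^ 2 / (2 * qh ω j φ)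

noncomputable def Pr (ω j φ : ℝ) : ℝ := ω * j + (1 - 2 * j) * cos φ ^ 2

noncomputable def Qr (j φ : ℝ) : ℝ := 1 + (1 - 2 * j) * cos φ ^ 2

noncomputable def qr (ω j φ : ℝ) : ℝ := √(2 * ω * Pr ω j φ / Qr j φ)

noncomputable def er (ω j φ : ℝ) : ℝ := (1 - 2 * j) * cos φ * sin φ / (2 * Pr ω j φ)

/-- the main term of the phase -/
noncomputable def Mn (φ1 ω j : ℝ) : ℝ := ∫ φ in (0 : ℝ)..φ1, qr ω j φ

noncomputable def ph0 (φ1 ω j : ℝ) (k : ℂ) : ℝ :=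
  Mn φ1 ω j + er ω j φ1 / (2 * qr ω j φ1) + (Tt φ1 ω j).re + k.im

noncomputable def etaC (φ1 δ ω : ℝ) (z : ℂ) : ℂ :=
  (er ω (jj δ) φ1 + Complex.I * qr ω (jj δ) φ1 * (1 + z)) / (cA (mm δ) ω φ1 : ℝ)

/-- the linear system behind the Riccati equation `z' = g (ψ - 2 z - z ^ 2)`, `z = B / A` -/
def RicSol (g ψ A B : ℝ → ℂ) : Prop :=
  A 0 = 1 ∧ B 0 = 0 ∧ ∀ s ∈ Icc (0 : ℝ) 1,
    HasDerivWithinAt A (g s * (B s - ψ s * A s / 2)) (Icc 0 1) s ∧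
    HasDerivWithinAt B (g s * (ψ s * A s - 2 * B s - ψ s * B s / 2)) (Icc 0 1) s

/-- A combination `α c + i β s` of the even and the odd solution has the WKB form at `φ1`. -/
def Br (φ1 δ ω : ℝ) (k z : ℂ) : Prop :=
  ∃ α β : ℝ,
    ((α * sx (mm δ) ω (π / 2) φ1 : ℝ) : ℂ) + Complex.I * ((β * sx (mm δ) ω 0 φ1 : ℝ) : ℂ) =
      Complex.exp (Complex.I * (ph0 φ1 ω (jj δ) k : ℝ)) ∧
    ((α * sy (mm δ) ω (π / 2) φ1 : ℝ) : ℂ) + Complex.I * ((β * sy (mm δ) ω 0 φ1 : ℝ) : ℂ) =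
      etaC φ1 δ ω z * Complex.exp (Complex.I * (ph0 φ1 ω (jj δ) k : ℝ))

/-- All pointwise estimates needed at one complex parameter `(ω, j)`. -/
structure Wk (φ1 : ℝ) (ω j : ℂ) (κ0 γ N T : ℝ) (b b' : ℝ → ℝ) : Prop where
  ne0 : ω ≠ 0
  neP : ∀ s ∈ Icc (0 : ℝ) 1, PP ω j (pX φ1 s) ≠ 0
  neQ : ∀ s ∈ Icc (0 : ℝ) 1, QQ j (pX φ1 s) ≠ 0
  ang : ∀ s ∈ Icc (0 : ℝ) 1, (G2 φ1 ω j s).im ≤ κ0 * ‖G2 φ1 ω j s‖
  bar : ∀ s ∈ Icc (0 : ℝ) 1, √‖G2 φ1 ω j s‖ * (‖psi ω j (pX φ1 s)‖ - γ * b s) < b' s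
  int : ∫ s in (0 : ℝ)..1, ‖psi ω j (pX φ1 s)‖ ^ 2 * √‖G2 φ1 ω j s‖ ≤ N
  slit : ∀ φ ∈ Icc (0 : ℝ) φ1, q2 ω j φ ∈ Complex.slitPlane
  tt : ‖Tt φ1 ω j‖ ≤ T

/-! ### Phase functions along a curve of parameters -/

/-- the value (`typ = true`) or the derivative (`typ = false`) at `π / 2` -/
noncomputable def pr (typ : Bool) (δ ω θ0 : ℝ) : ℝ :=
  if typ then sx (mm δ) ω θ0 (π / 2) else sy (mm δ) ω θ0 (π / 2)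

/-- `ϕ` is the argument, modulo `π`, of `α c + i β s` at `π / 2` along the curve `(δ, ω)`. -/
def Rp (typ : Bool) (δ ω ϕ : ℝ → ℝ) : Prop :=
  ContinuousAt δ 0 ∧ ContinuousAt ω 0 ∧ ContinuousAt ϕ 0 ∧
    ∃ α β : ℝ → ℝ, ContinuousAt α 0 ∧ ContinuousAt β 0 ∧ 0 < α 0 * β 0 ∧
      ∀ᶠ τ in 𝓝 (0 : ℝ), α τ * pr typ (δ τ) (ω τ) (π / 2) * sin (ϕ τ) =
        β τ * pr typ (δ τ) (ω τ) 0 * cos (ϕ τ)

/-- `(v1, y1)` are the data at `φ1` of the solution that is odd (`typ = true`) or even about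
`π / 2`. -/
def Tr (typ : Bool) (φ1 δ ω v1 y1 : ℝ) : Prop :=
  ∃ c : ℝ, c ≠ 0 ∧ ∀ x y : ℝ → ℝ, IsLin (cA (mm δ) ω) (cB (mm δ) ω) x y →
    x φ1 * y1 - y φ1 * v1 = c * (if typ then x (π / 2) else y (π / 2))

/-- `ϕ - ϕ 0` has the sign of `u` and is dominated by it. -/
def Sand (u ϕ : ℝ → ℝ) : Prop :=
  ∃ C : ℝ, ∀ᶠ τ in 𝓝 (0 : ℝ), |ϕ τ - ϕ 0| ≤ C * |u τ| ∧ 0 ≤ (ϕ τ - ϕ 0) * u τ

/-- The tangent line criterion at `(δ0, ω0)` with logarithmic slope `s`. -/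
def Good (typ : Bool) (δ0 ω0 s : ℝ) : Prop :=
  (∃ (ϕ : ℝ → ℝ) (c0 c1 c2 c3 : ℝ), Rp typ (fun τ => δ0 * (1 + τ)) (fun τ => ω0 * (1 + s * τ)) ϕ ∧
      J3 ϕ c0 c1 c2 c3 ∧ (c1 = 0 → c2 = 0 → 0 < c3)) ∨
  (∃ (δ ϕ : ℝ → ℝ) (lam c0 c1 c2 : ℝ), J2 δ δ0 (δ0 * lam) 0 ∧
      Rp typ δ (fun τ => ω0 * (1 + s * lam * τ)) ϕ ∧ J2 ϕ c0 c1 c2 ∧ (c1 = 0 → c2 ≠ 0))

/-! ### Taylor coefficients of the main term along the tangent line -/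

noncomputable def el1 (s y b : ℝ) : ℝ := (s + (s + (2 - s) * y) - 2 * b) / 2

noncomputable def el2 (s y b : ℝ) : ℝ :=
  (-s ^ 2 + 2 * y - (s + (2 - s) * y) ^ 2 - 2 * b + 4 * b ^ 2) / 2

noncomputable def el3 (s y b : ℝ) : ℝ :=
  (2 * s ^ 3 + 2 * (s + (2 - s) * y) ^ 3 - 6 * (s + (2 - s) * y) * y + 12 * b ^ 2 - 16 * b ^ 3) / 2

noncomputable def yv (ω j φ : ℝ) : ℝ := (1 - 2 * j) * cos φ ^ 2 / Pr ω j φ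

noncomputable def bv (j φ : ℝ) : ℝ := (1 - 2 * j) * (1 + cos φ ^ 2) / Qr j φ

noncomputable def F1 (φ1 ω j s : ℝ) : ℝ :=
  ∫ φ in (0 : ℝ)..φ1, qr ω j φ * el1 s (yv ω j φ) (bv j φ)

noncomputable def F2 (φ1 ω j s : ℝ) : ℝ :=
  ∫ φ in (0 : ℝ)..φ1, qr ω j φ *
    ((el2 s (yv ω j φ) (bv j φ) + el1 s (yv ω j φ) (bv j φ) ^ 2) / 2)

noncomputable def F3 (φ1 ω j s : ℝ) : ℝ :=
  ∫ φ in (0 : ℝ)..φ1, qr ω j φ *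
    ((el3 s (yv ω j φ) (bv j φ) + 3 * el1 s (yv ω j φ) (bv j φ) * el2 s (yv ω j φ) (bv j φ) +
      el1 s (yv ω j φ) (bv j φ) ^ 3) / 6)

noncomputable def O1 (φ1 ω j : ℝ) : ℝ := ∫ φ in (0 : ℝ)..φ1, qr ω j φ * (ω * j / Pr ω j φ)

/-- the parabolic cylinder parameter -/
noncomputable def aa (ω j : ℝ) : ℝ := ω * j * √(ω / (2 * (1 - 2 * j)))

/-- the parameters along the complex tangent line -/
noncomputable def lΩ (ω0 s : ℝ) (τ : ℂ) : ℂ := ω0 * (1 + s * τ)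

noncomputable def lJ (δ0 : ℝ) (τ : ℂ) : ℂ := 1 / ((δ0 : ℂ) ^ 2 * (1 + τ) ^ 2 + 2)

/-! ### The moment expansion -/

/-- Taylor coefficients of `(1 + κ c) ^ (-3/2) (1 + μ c) ^ (-5/2)` -/
noncomputable def gco (κ μ : ℝ) : ℕ → ℝ
  | 0 => 1
  | 1 => -(3 / 2 * κ + 5 / 2 * μ)
  | n + 2 => -((((n + 1 : ℕ) : ℝ) * (κ + μ) + (3 / 2 * κ + 5 / 2 * μ)) * gco κ μ (n + 1) +
      ((n + 4 : ℕ) : ℝ) * (κ * μ * gco κ μ n)) / ((n + 2 : ℕ) : ℝ)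

/-- the mean of `cos ^ n` -/
noncomputable def wal (n : ℕ) : ℝ := if n % 2 = 0 then (n.choose (n / 2) : ℝ) / 2 ^ n else 0

noncomputable def nuc (κ μ : ℝ) (i : ℕ) : ℝ := ∑ n ∈ Finset.range 13, wal (n + i) * gco κ μ n

/-! ### The power series at `π / 2` -/

/-- the pair `(t n, t (n - 1))`, where `t n` is the term of degree `k0 + 2 n` -/
noncomputable def tco {K : Type} [Field K] (A B Z J : K) (k0 : ℕ) : ℕ → K × K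
  | 0 => (1, 0)
  | n + 1 =>
    ((((((k0 + 2 * n) * (k0 + 2 * n) : ℕ) : K) * J - A) * (tco A B Z J k0 n).1 +
      ((((k0 + 2 * n - 1) * (k0 + 2 * n - 2) : ℕ) : K) * Z - B) * (tco A B Z J k0 n).2) /
        (((k0 + 2 * n + 1) * (k0 + 2 * n + 2) : ℕ) : K), (tco A B Z J k0 n).1)

noncomputable def yS (A B Z J : ℂ) (k0 : ℕ) : ℂ := ∑' n, (tco A B Z J k0 n).1

noncomputable def hS (A B Z J : ℂ) (k0 : ℕ) : ℂ :=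
  ∑' n, ((k0 + 2 * n : ℕ) : ℂ) * (tco A B Z J k0 n).1

noncomputable def yN {K : Type} [Field K] (A B Z J : K) (k0 : ℕ) : K :=
  ∑ n ∈ Finset.range 16, (tco A B Z J k0 n).1

noncomputable def hN {K : Type} [Field K] (A B Z J : K) (k0 : ℕ) : K :=
  ∑ n ∈ Finset.range 16, ((k0 + 2 * n : ℕ) : K) * (tco A B Z J k0 n).1

/-- the data of the matching at `φ1`: parameters, the jets `d1, d2` of `d`, the slope `sg` of `υ`,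
and the jets of the two series -/
structure P3D where
  A0 : ℝ
  B0 : ℝ
  Z : ℝ
  nu : ℝ
  jk : ℝ
  d1 : ℝ
  d2 : ℝ
  sg : ℝ
  Y : T3
  H : T3

namespace P3D
variable (D : P3D)

/-- jet of `B0 (1 + υ) (1 - jk d)` -/
def Bj : T3 := (D.B0, D.B0 * (D.sg - D.jk * D.d1), -(D.B0 * (D.jk * (D.d2 + D.d1 * D.sg))))

/-- jet of `A + B`, `A = (A0 + d) (1 + υ) ^ 2` -/
def Sj : T3 := (D.A0 + D.B0, D.d1 + 2 * (D.A0 * D.sg) + D.Bj.2.1,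
  D.d2 + 2 * (D.d1 * D.sg) + D.A0 * D.sg ^ 2 + D.Bj.2.2)

/-- jet of `1 - nu (A0 + d) - Z (1 - jk d)` -/
def dn : T3 := (1 - D.nu * D.A0 - D.Z, (D.Z * D.jk - D.nu) * D.d1, (D.Z * D.jk - D.nu) * D.d2)

noncomputable def AA : T3 := jmul D.Bj (jinv D.Sj)

noncomputable def rj : T3 := jsqrt (jmul D.Sj (jinv D.dn))

noncomputable def Mi : T3 := jmul D.rj D.Y

noncomputable def Mr : T3 := (D.H.1 + 1 / 2 * (jmul D.AA D.Y).1,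
  D.H.2.1 + 1 / 2 * (jmul D.AA D.Y).2.1, D.H.2.2 + 1 / 2 * (jmul D.AA D.Y).2.2)

noncomputable def Tb : T3 := jmul D.AA (jinv D.rj)

end P3D

noncomputable def nrm0 (Mr Mi : T3) : ℝ := Mr.1 ^ 2 + Mi.1 ^ 2

/-- first Taylor coefficient of the argument of `Mr + i Mi` -/
noncomputable def l1i (Mr Mi : T3) : ℝ := (Mi.2.1 * Mr.1 - Mr.2.1 * Mi.1) * (nrm0 Mr Mi)⁻¹

/-- second Taylor coefficient of the argument of `Mr + i Mi` -/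
noncomputable def l2i (Mr Mi : T3) : ℝ :=
  (Mi.2.2 * Mr.1 - Mr.2.2 * Mi.1) * (nrm0 Mr Mi)⁻¹ -
    (Mr.2.1 * Mr.1 + Mi.2.1 * Mi.1) * (nrm0 Mr Mi)⁻¹ * l1i Mr Mi

noncomputable def eA1 (b l : ℝ) : ℝ :=
  b * (2 + (l ^ 2 + 1) / 2) + 11 / 10 * (b ^ 2 * (4 + (l ^ 2 + 1) / 2))

noncomputable def eA2 (b l : ℝ) : ℝ :=
  b * (8 + 4 * ((l ^ 2 + 1) / 2) + l ^ 2) +
    b ^ 2 * (11 / 10 * (16 + 4 * ((l ^ 2 + 1) / 2) + l ^ 2) + 61 / 100 * (4 + (l ^ 2 + 1) / 2) ^ 2)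

noncomputable def p3v (al : ℝ) : ℝ := (23 / 25 * (1 / 2 * al ^ 2 - 1 / 2 * al + 57 / 25))⁻¹

noncomputable def p3b (al B : ℝ) : ℝ :=
  50 / 49 * (1 / 16 * (p3v al ^ 2 * (16 / 5 + 5 / 2 * B ^ 3)) + 1 / 1250)

noncomputable def p3N (al B : ℝ) : ℝ :=
  (√(31 / 2500 * (p3v al ^ 3 * (33 / 2 + 23 * B ^ 3))) + 9 / 1000) ^ 2

noncomputable def p3T (al B : ℝ) : ℝ := 11 / 500 * (p3v al * (1 + √(137 / 100 * B)))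

noncomputable def p3rho (al : ℝ) : ℝ :=
  1001 / 2500 * (√(1 + 40 / 999 * al ^ 2) + 1001 / 5000 * al)⁻¹

noncomputable def p3y (al : ℝ) : ℝ :=
  1001 / 20000 * (√(10 - 2 * al ^ 2) + √(10 - 2 * al ^ 2 + 4 * al ^ 2))

noncomputable def pade (y : ℝ) : ℝ := 6 * (1 - y ^ 2) * (1 + 4 * y + y ^ 2)⁻¹

noncomputable def p3cc (s B : ℝ) : ℝ :=
  2991 / 1000 - 7 / 2 * s + 3 / 4 * s ^ 2 - 1 / 4 * ((2 - s) ^ 2 * (1 - B))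

/-- the parameters along the curve used near the turning point -/
noncomputable def cJ (j0 lam : ℝ) (τ : ℂ) : ℂ :=
  j0 * (1 - 2 * (1 - 2 * j0) * lam * τ + (4 * (1 - 2 * j0) ^ 2 - (1 - 2 * j0)) * lam ^ 2 * τ ^ 2)

end Pool.Agent.HillD
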