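import Pool.Agent.P.MP_ae2765_an.WSa
import Pool.Agent.P.MP_ae2765_an.Real

/-! Universal bounds for the three parts of the error potential. -/

namespace Pool.Agent.HillD
open Real Set Filter Topology Asymptotics Pool.Agent.HillD.Num Pool.Agent.P.MP_4c4e6e_co.Eng

theorem wsup_sq (v : ℂ) (a b p : ℝ) :
    (p * ‖(a : ℂ) + b * v‖) ^ 2 = a ^ 2 * p ^ 2 + 2 * a * b * (p ^ 2 * v.re) + b ^ 2 * (‖v‖ * p) ^ 2 := by
  rw [mul_pow, mul_pow, Complex.sq_norm, Complex.sq_norm, Complex.normSq_apply, Complex.normSq_apply]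
  simp only [Complex.add_re, Complex.add_im, Complex.mul_re, Complex.mul_im, Complex.ofReal_re,
    Complex.ofReal_im]
  ring

theorem wsup_le {v A w : ℂ} {A0 p a b c S m : ℝ} (hp : 0 ≤ p) (hA : ‖A - A0‖ ≤ m)
    (hw : w = ((a : ℂ) + b * v) + c * (A - A0))
    (hS : S = a ^ 2 * p ^ 2 + 2 * a * b * (p ^ 2 * v.re) + b ^ 2 * (‖v‖ * p) ^ 2) :
    p * ‖w‖ ≤ √(S + 1 / 50) + |c| * (m * p) := by
  have h1 : p * ‖(a : ℂ) + b * v‖ ≤ √(S + 1 / 50) :=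
    Real.le_sqrt_of_sq_le (by rw [wsup_sq, hS]; linarith)
  have h2 : ‖w‖ ≤ ‖(a : ℂ) + b * v‖ + |c| * m := by
    rw [hw]
    refine (norm_add_le _ _).trans (add_le_add le_rfl ?_)
    rw [norm_mul, Complex.norm_real, Real.norm_eq_abs]
    exact mul_le_mul_of_nonneg_left hA (abs_nonneg c)
  have h3 := mul_le_mul_of_nonneg_left h2 hp
  linarith only [h1, h3]

theorem wsup_real {p x N sN V B u1 u2 u3 u4 u5 n3 yy n16 n15 m : ℝ} (hp0 : 0 < p) (hx0 : 0 < x)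
    (hV : 0 ≤ V) (h1 : 0 ≤ u1) (h2 : 0 ≤ u2) (h3 : 0 ≤ u3) (h4 : 0 ≤ u4) (h5 : 0 ≤ u5)
    (a1 : p * u1 ≤ n3) (a2 : p * u2 ≤ yy) (a3 : p * u3 ≤ n16) (a4 : p * u4 ≤ n15) (a5 : p * u5 ≤ m)
    (k1 : 0 < (16 / 5 + 5 / 2 * (B ^ 2 * B)) * ((p * N) ^ 2 * (p * N)) - p ^ 2 * n3)
    (k2 : 0 < 707 / 500 * (33 / 2 + 23 * (B ^ 2 * B)) * ((p * N) ^ 2 * (p * N) * (p * N) ^ 2) *
      (x * sN) - p ^ 2 * x * n3 ^ 2 * (p + 2 * (V * p)))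
    (k3 : 0 < 13 / 2 * ((p * N) ^ 2 * (p * N)) - yy ^ 2 * n16)
    (k4 : 0 < 4 * ((p * N) ^ 2 * (p * N)) - m * yy * n15) :
    N ≠ 0 ∧ u1 ≤ (16 / 5 + 5 / 2 * B ^ 3) * N ^ 3 ∧
      u1 ^ 2 * (1 + 2 * V) ≤ 707 / 500 * (33 / 2 + 23 * B ^ 3) * (N ^ 5 * sN) ∧
      u2 ^ 2 * u3 ≤ 13 / 2 * N ^ 3 ∧ u5 * u2 * u4 ≤ 4 * N ^ 3 := by
  have b1 : 0 ≤ p * u1 := by positivity
  have b2 : 0 ≤ p * u2 := by positivity
  have b3 : 0 ≤ p * u3 := by positivity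
  have b4 : 0 ≤ p * u4 := by positivity
  have b5 : 0 ≤ p * u5 := by positivity
  have c3 : (p * u2) ^ 2 * (p * u3) ≤ yy ^ 2 * n16 :=
    mul_le_mul (pow_le_pow_left₀ b2 a2 2) a3 b3 (sq_nonneg _)
  have c4 : p * u5 * (p * u2) * (p * u4) ≤ m * yy * n15 :=
    mul_le_mul (mul_le_mul a5 a2 b2 (b5.trans a5)) a4 b4 (mul_nonneg (b5.trans a5) (b2.trans a2))
  have hp3 : 0 < p ^ 3 := by positivity
  refine ⟨fun h => ?_, ?_, ?_, ?_, ?_⟩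
  · have : 0 ≤ (p * u2) ^ 2 * (p * u3) := by positivity
    rw [h] at k3
    simp only [mul_zero] at k3
    linarith only [k3, c3, this]
  · refine le_of_mul_le_mul_left ?_ hp3
    have c1 := mul_le_mul_of_nonneg_left a1 (sq_nonneg p)
    calc _ = p ^ 2 * (p * u1) := by ring
      _ ≤ _ := c1.trans (sub_pos.1 k1).le
      _ = _ := by ring
  · refine le_of_mul_le_mul_left ?_ (show 0 < p ^ 5 * x by positivity)
    have c2 : p ^ 2 * x * (p * u1) ^ 2 * (p + 2 * (V * p)) ≤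
        p ^ 2 * x * n3 ^ 2 * (p + 2 * (V * p)) :=
      mul_le_mul_of_nonneg_right (mul_le_mul_of_nonneg_left (pow_le_pow_left₀ b1 a1 2)
        (by positivity)) (by positivity)
    calc _ = p ^ 2 * x * (p * u1) ^ 2 * (p + 2 * (V * p)) := by ring
      _ ≤ _ := c2.trans (sub_pos.1 k2).le
      _ = _ := by ring
  · refine le_of_mul_le_mul_left ?_ hp3
    calc _ = (p * u2) ^ 2 * (p * u3) := by ring
      _ ≤ _ := c3.trans (sub_pos.1 k3).le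
      _ = _ := by ring
  · refine le_of_mul_le_mul_left ?_ hp3
    calc _ = p * u5 * (p * u2) * (p * u4) := by ring
      _ ≤ _ := c4.trans (sub_pos.1 k4).le
      _ = _ := by ring

theorem sup_bd {v A : ℂ} {A0 : ℝ} (h0 : 0 ≤ A0) (h1 : A0 ≤ 1) (hv : -(3 / 10 * ‖v‖) ≤ v.re)
    (hA : ‖A - A0‖ ≤ 37 / 100 * (1 - A0)) :
    1 + v ≠ 0 ∧ ‖3 + 3 * v - 5 * A‖ ≤ (16 / 5 + 5 / 2 * (1 - A0) ^ 3) * ‖1 + v‖ ^ 3 ∧
      ‖3 + 3 * v - 5 * A‖ ^ 2 * (1 + 2 * ‖v‖) ≤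
        707 / 500 * (33 / 2 + 23 * (1 - A0) ^ 3) * (‖1 + v‖ ^ 5 * √‖1 + v‖) ∧
      ‖1 + v - A‖ ^ 2 * ‖1 + v + 5 * A‖ ≤ 13 / 2 * ‖1 + v‖ ^ 3 ∧
      ‖A‖ * ‖1 + v - A‖ * ‖1 + v - 5 * A‖ ≤ 4 * ‖1 + v‖ ^ 3 := by
  have hV : 0 ≤ ‖v‖ := norm_nonneg v
  obtain ⟨p, hp⟩ : ∃ p : ℝ, p = (1 + ‖v‖)⁻¹ := ⟨_, rfl⟩
  have hp0 : 0 < p := by rw [hp]; positivity
  have hp1 : p * (1 + ‖v‖) = 1 := by rw [hp]; field_simp
  have hp2 : p ≤ 1 := by nlinarith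
  have hq : ‖v‖ * p = 1 - p := by linarith
  have hy : ∃ y : ℝ, 0 ≤ y ∧ y ≤ 13 / 10 ∧ p ^ 2 * v.re = p * (‖v‖ * p) * (y - 3 / 10) := by
    rcases hV.eq_or_lt with h | h
    · refine ⟨3 / 10, by norm_num, by norm_num, ?_⟩
      rw [norm_eq_zero.1 h.symm]; simp
    · refine ⟨3 / 10 + v.re / ‖v‖, ?_, ?_, ?_⟩
      · have : -(3 / 10) ≤ v.re / ‖v‖ := by rw [le_div_iff₀ h]; linarith
        linarith
      · have : v.re / ‖v‖ ≤ 1 := by rw [div_le_one h]; exact Complex.re_le_norm v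
        linarith
      · field_simp
        ring
  obtain ⟨y, hy0, hy1, hr⟩ := hy
  have hx : p = √p ^ 2 := (Real.sq_sqrt hp0.le).symm
  have hx0 : 0 < √p := Real.sqrt_pos.2 hp0
  obtain ⟨N, hN⟩ : ∃ N : ℝ, N = ‖1 + v‖ := ⟨_, rfl⟩
  have hN0 : 0 ≤ N := hN ▸ norm_nonneg _
  have hd2 : (p * N) ^ 2 = p ^ 2 + 2 * (p ^ 2 * v.re) + (‖v‖ * p) ^ 2 := by
    have := wsup_sq v 1 1 p
    simp only [Complex.ofReal_one, one_mul, one_pow, mul_one] at this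
    rw [hN, this]
  have hd : p * N = √((p * N) ^ 2) := (Real.sqrt_sq (by positivity)).symm
  obtain ⟨k1, k2, k3, k4⟩ := Sup_real (√p) y A0 hx0.le (Real.sqrt_le_one.2 hp2) hy0 hy1 h0 h1
    p hx _ hq _ rfl _ rfl _ hr _ rfl _ rfl _ rfl _ hd2 _ hd _ rfl _ rfl _ rfl _ rfl _ rfl _ rfl
    _ rfl _ rfl
  have a1 := wsup_le (v := v) (w := 3 + 3 * v - 5 * A) (a := 3 - 5 * A0) (b := 3) (c := -5)
    (S := (3 - 5 * A0) ^ 2 * p ^ 2 + 6 * ((3 - 5 * A0) * (p ^ 2 * v.re)) + 9 * (‖v‖ * p) ^ 2)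
    hp0.le hA (by push_cast; ring) (by ring)
  have a2 := wsup_le (v := v) (w := 1 + v - A) (a := 1 - A0) (b := 1) (c := -1)
    (S := (1 - A0) ^ 2 * p ^ 2 + 2 * ((1 - A0) * (p ^ 2 * v.re)) + (‖v‖ * p) ^ 2)
    hp0.le hA (by push_cast; ring) (by ring)
  have a3 := wsup_le (v := v) (w := 1 + v + 5 * A) (a := 1 + 5 * A0) (b := 1) (c := 5)
    (S := (1 + 5 * A0) ^ 2 * p ^ 2 + 2 * ((1 + 5 * A0) * (p ^ 2 * v.re)) + (‖v‖ * p) ^ 2)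
    hp0.le hA (by push_cast; ring) (by ring)
  have a4 := wsup_le (v := v) (w := 1 + v - 5 * A) (a := 1 - 5 * A0) (b := 1) (c := -5)
    (S := (1 - 5 * A0) ^ 2 * p ^ 2 + 2 * ((1 - 5 * A0) * (p ^ 2 * v.re)) + (‖v‖ * p) ^ 2)
    hp0.le hA (by push_cast; ring) (by ring)
  have a5 : p * ‖A‖ ≤ A0 * p + 37 / 100 * (1 - A0) * p := by
    have h2 : ‖A‖ ≤ ‖(A0 : ℂ)‖ + ‖A - A0‖ := by
      simpa using norm_add_le (A0 : ℂ) (A - A0)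
    rw [Complex.norm_real, Real.norm_of_nonneg h0] at h2
    have h3 := mul_le_mul_of_nonneg_left (h2.trans (add_le_add le_rfl hA)) hp0.le
    linarith only [h3]
  rw [show |(-5 : ℝ)| = 5 by norm_num] at a1 a4
  rw [show |(-1 : ℝ)| = 1 by norm_num, one_mul] at a2
  rw [show |(5 : ℝ)| = 5 by norm_num] at a3
  rw [← hN]
  rw [Real.sqrt_mul hp0.le] at k2
  have key := wsup_real hp0 hx0 hV (norm_nonneg _) (norm_nonneg _) (norm_nonneg _) (norm_nonneg _)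
    (norm_nonneg _) a1 a2 a3 a4 a5 k1 k2 k3 k4
  exact ⟨fun h => key.1 (by rw [hN, h, norm_zero]), key.2⟩

end Pool.Agent.HillD
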