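import Pool.Agent.P.MP_ae2765_an.WPath
import Pool.Agent.P.MP_ae2765_an.WSup

/-! Large amplitude: pointwise estimates along the path. -/

namespace Pool.Agent.HillD
open Real Set Filter Topology Asymptotics Pool.Agent.HillD.Num Pool.Agent.P.MP_4c4e6e_co.Eng

lemma werra_fin {n t e q v K Λ U : ℝ} (ht : 0 < t) (he : 0 < e) (hq : 9969 / 10000 ≤ q)
    (hv : 0 < v) (hvt : 2 ≤ v ^ 2 * t ^ 2) (hK : 0 ≤ K) (hΛ : 0 ≤ Λ) (hU : 0 < U)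
    (h : n ^ 2 * U ≤ 707 / 500 * K * e ^ 11) :
    (n / (8 * t ^ 2 * e ^ 6)) ^ 2 * (Λ * t * e / q) ≤ 788 / 100000 * (v ^ 3 * K) * (Λ / U) := by
  have hq0 : 0 < q := by linarith
  have h1 : 14142 / 10000 ≤ v * t := by
    refine (abs_le_of_sq_le_sq' ?_ (mul_pos hv ht).le).2
    rw [mul_pow]
    linarith
  have h2 : (14142 / 10000 : ℝ) ^ 3 ≤ (v * t) ^ 3 := pow_le_pow_left₀ (by norm_num) h1 3
  have h3 : (14142 / 10000 : ℝ) ^ 3 * (9969 / 10000) ≤ (v * t) ^ 3 * q :=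
    mul_le_mul h2 hq (by norm_num) (by positivity)
  have h4 : n ^ 2 * U / e ^ 11 ≤ 707 / 500 * K := by
    rw [div_le_iff₀ (by positivity)]; exact h
  have h5 : (707 / 500 : ℝ) / (64 * t ^ 3 * q) ≤ 788 / 100000 * v ^ 3 := by
    rw [div_le_iff₀ (by positivity)]
    have : 788 / 100000 * v ^ 3 * (64 * t ^ 3 * q) = 788 / 100000 * 64 * ((v * t) ^ 3 * q) := by
      ring
    rw [this]
    nlinarith
  have e1 : (n / (8 * t ^ 2 * e ^ 6)) ^ 2 * (Λ * t * e / q) =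
      n ^ 2 * U / e ^ 11 * (1 / (64 * t ^ 3 * q)) * (Λ / U) := by
    field_simp
    ring
  rw [e1]
  refine mul_le_mul_of_nonneg_right ?_ (by positivity)
  calc n ^ 2 * U / e ^ 11 * (1 / (64 * t ^ 3 * q))
      ≤ 707 / 500 * K * (1 / (64 * t ^ 3 * q)) :=
        mul_le_mul_of_nonneg_right h4 (by positivity)
    _ = 707 / 500 / (64 * t ^ 3 * q) * K := by ring
    _ ≤ 788 / 100000 * v ^ 3 * K := mul_le_mul_of_nonneg_right h5 hK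
    _ = 788 / 100000 * (v ^ 3 * K) := by ring

/-- comparison of norms in the right half plane -/
lemma werra_norm {X : ℂ} {b : ℝ} (hX : 0 ≤ X.re) (hb0 : 0 ≤ b) (hb1 : b ≤ 1) :
    ‖b + X‖ ≤ ‖1 + X‖ := by
  refine abs_le_of_sq_le_sq' ?_ (norm_nonneg _) |>.2
  rw [Complex.sq_norm, Complex.sq_norm, Complex.normSq_apply, Complex.normSq_apply]
  simp only [Complex.add_re, Complex.add_im, Complex.ofReal_re, Complex.ofReal_im,
    Complex.one_re, Complex.one_im, zero_add]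
  nlinarith

/-- the angle and the size of `G2` -/
lemma werra_ang {φ1 p0 b jl μρ μω : ℝ} {ω j ρ X : ℂ} (h0 : 0 < φ1) (h1 : φ1 ≤ π / 2)
    (hp : 0 < p0) (hb0 : 0 ≤ b) (hb1 : b ≤ 1) (hXr : 0 ≤ X.re) (hXi : X.im ≤ 0)
    (hbX : p0 ≤ b + X.re) (hj : ‖j‖ ≤ jl) (hjl : jl ≤ 3 / 1000) (hρ : ‖ρ - 1‖ ≤ μρ)
    (hρ1 : μρ ≤ 77 / 200) (hω : Sa ω μω) (hω0 : 0 ≤ μω) (hω1 : μω ≤ 3 / 20) {G : ℂ}
    (hG : G = 4 * (φ1 : ℂ) ^ 2 * ω * ((1 - 2 * j) * (b + X + p0 * (ρ - 1))) / QQ j X) :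
    994 / 1000 ≤ ‖QQ j X‖ ∧ G.im ≤ (μω + μρ + 21 / 10 * jl) * ‖G‖ ∧
      √‖G‖ ≤ π * √(7 / 5 * ‖ω‖) := by
  have hjl0 : 0 ≤ jl := (norm_nonneg _).trans hj
  have hμ0 : 0 ≤ μρ := (norm_nonneg _).trans hρ
  have h2j : ‖2 * j‖ ≤ 2 * jl := by
    rw [norm_mul, Complex.norm_two]; linarith
  have hκ : 994 / 1000 ≤ ‖1 - 2 * j‖ := by
    have := norm_sub_norm_le (1 : ℂ) (2 * j)
    rw [norm_one] at this
    linarith
  have hκ0 : (1 - 2 * j) ≠ 0 := norm_pos_iff.1 (by linarith)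
  have h1X : 1 ≤ ‖1 + X‖ := by
    have := Complex.re_le_norm (1 + X)
    rw [Complex.add_re, Complex.one_re] at this
    linarith
  have h1X0 : (1 + X) ≠ 0 := norm_pos_iff.1 (by linarith)
  have hbX1 : p0 ≤ ‖b + X‖ := by
    have := Complex.re_le_norm (b + X)
    rw [Complex.add_re, Complex.ofReal_re] at this
    linarith
  have hbX0 : ((b : ℂ) + X) ≠ 0 := norm_pos_iff.1 (by linarith)
  have hXn : ‖X‖ ≤ ‖1 + X‖ := by
    have := werra_norm hXr le_rfl zero_le_one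
    rwa [Complex.ofReal_zero, zero_add] at this
  have hQ : 994 / 1000 ≤ ‖QQ j X‖ := by
    have e : QQ j X = (1 + X) - 2 * j * X := by unfold QQ; ring
    have h2 := norm_sub_norm_le (1 + X) (2 * j * X)
    have h3 : ‖2 * j * X‖ ≤ 6 / 1000 * ‖1 + X‖ := by
      rw [norm_mul]
      exact mul_le_mul (by linarith) hXn (norm_nonneg _) (by norm_num)
    rw [e]
    linarith
  have hQ0 : QQ j X ≠ 0 := norm_pos_iff.1 (by linarith)
  obtain ⟨e1, he1⟩ : ∃ e1 : ℂ, e1 = p0 * (ρ - 1) / (b + X) := ⟨_, rfl⟩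
  obtain ⟨e2, he2⟩ : ∃ e2 : ℂ, e2 = 2 * j / (1 - 2 * j) / (1 + X) := ⟨_, rfl⟩
  have n1 : ‖e1‖ ≤ μρ := by
    rw [he1, norm_div, norm_mul, Complex.norm_real, Real.norm_eq_abs, abs_of_pos hp,
      div_le_iff₀ (by linarith), mul_comm μρ]
    exact mul_le_mul hbX1 hρ (norm_nonneg _) (norm_nonneg _)
  have n2 : ‖e2‖ ≤ 21 / 10 * jl := by
    rw [he2, norm_div, norm_div]
    refine (div_le_self (by positivity) h1X).trans ?_
    rw [div_le_iff₀ (by linarith)]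
    nlinarith
  have s1 : Sa (1 + e1) μρ := sa_one_add n1 (by linarith)
  have s2 : Sa (1 + e2) (21 / 10 * jl) := sa_one_add n2 (by linarith)
  have hφ : 0 < 4 * φ1 ^ 2 := by positivity
  have s3 : Sa (((4 * φ1 ^ 2 : ℝ) : ℂ) * (ω * (1 + e1) * (1 + e2)⁻¹)) (μω + μρ + 21 / 10 * jl) :=
    ((hω.mul s1 hω0 hμ0 (by linarith)).mul s2.inv (by linarith) (by linarith)
      (by linarith)).pos_mul hφ
  have eQ : QQ j X = (1 - 2 * j) * (1 + X) * (1 + e2) := by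
    rw [he2]; unfold QQ; field_simp; ring
  have eP : (b : ℂ) + X + p0 * (ρ - 1) = (b + X) * (1 + e1) := by
    rw [he1]; field_simp
  have eG : G = (b + X) / (1 + X) * (((4 * φ1 ^ 2 : ℝ) : ℂ) * (ω * (1 + e1) * (1 + e2)⁻¹)) := by
    have := s2.ne
    rw [hG, eQ, eP]
    push_cast
    field_simp
  have hN : 0 < Complex.normSq (1 + X) := Complex.normSq_pos.2 h1X0
  have zre : 0 ≤ ((b + X) / (1 + X)).re := by
    rw [Complex.div_re, ← add_div]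
    refine div_nonneg ?_ hN.le
    simp only [Complex.add_re, Complex.add_im, Complex.ofReal_re, Complex.ofReal_im,
      Complex.one_re, Complex.one_im, zero_add]
    nlinarith [mul_nonneg (add_nonneg hb0 hXr) (add_nonneg zero_le_one hXr), mul_self_nonneg X.im]
  have zim : ((b + X) / (1 + X)).im ≤ 0 := by
    rw [Complex.div_im, ← sub_div]
    refine div_nonpos_of_nonpos_of_nonneg ?_ hN.le
    simp only [Complex.add_re, Complex.add_im, Complex.ofReal_re, Complex.ofReal_im,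
      Complex.one_re, Complex.one_im, zero_add]
    nlinarith [mul_nonneg (sub_nonneg.2 hb1) (neg_nonneg.2 hXi)]
  have zn : ‖((b : ℂ) + X) / (1 + X)‖ ≤ 1 := by
    rw [norm_div, div_le_one (by linarith)]
    exact werra_norm hXr hb0 hb1
  refine ⟨hQ, ?_, ?_⟩
  · rw [eG]
    exact (ang_quad s3 (by linarith) zre zim).1
  · have m1 : ‖1 + e1‖ ≤ 277 / 200 := by
      have := norm_add_le (1 : ℂ) e1
      rw [norm_one] at this
      linarith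
    have m2 : 9937 / 10000 ≤ ‖1 + e2‖ := by
      have := norm_sub_norm_le (1 : ℂ) (-e2)
      rw [norm_one, norm_neg, sub_neg_eq_add] at this
      linarith
    have m3 : ‖1 + e1‖ * ‖1 + e2‖⁻¹ ≤ 7 / 5 := by
      rw [← div_eq_mul_inv, div_le_iff₀ (by linarith)]
      linarith
    have m4 : 4 * φ1 ^ 2 ≤ π ^ 2 := by nlinarith
    have m5 : ‖G‖ ≤ π ^ 2 * (7 / 5 * ‖ω‖) := by
      rw [eG, norm_mul]
      refine (mul_le_of_le_one_left (norm_nonneg _) zn).trans ?_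
      rw [norm_mul, norm_mul, norm_mul, norm_inv, Complex.norm_real, Real.norm_eq_abs,
        abs_of_pos hφ, mul_assoc ‖ω‖, mul_comm (7 / 5 : ℝ)]
      exact mul_le_mul m4 (mul_le_mul_of_nonneg_left m3 (norm_nonneg _)) (by positivity)
        (by positivity)
    refine (Real.sqrt_le_sqrt m5).trans_eq ?_
    rw [Real.sqrt_mul (sq_nonneg _), Real.sqrt_sq pi_pos.le]

/-- the three terms of the error potential -/
lemma werra_psi {ω j ρ X w A : ℂ} {p0 m : ℝ} (hp : 0 < p0) (hω' : ω ≠ 0) (hρ' : ρ ≠ 0)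
    (hκ0 : 1 - 2 * j ≠ 0) (d0 : 1 + w ≠ 0) (eP : PP ω j X = (1 - 2 * j) * p0 * ρ * (1 + w))
    (eωj : ω * j = (1 - 2 * j) * p0 * ρ * A) (hmd : m = ‖ω * (1 - 2 * j) * ρ ^ 2‖ * p0 ^ 2)
    (S3 : ‖1 + w - A‖ ^ 2 * ‖1 + w + 5 * A‖ ≤ 13 / 2 * ‖1 + w‖ ^ 3)
    (S4 : ‖A‖ * ‖1 + w - A‖ * ‖1 + w - 5 * A‖ ≤ 4 * ‖1 + w‖ ^ 3) :
    ‖psi ω j X‖ ≤ ‖3 + 3 * w - 5 * A‖ / (8 * m * ‖1 + w‖ ^ 3) +
      (13 / (16 * ‖ω‖) + 1 / ‖ω‖ ^ 2) := by
  have hp' : (p0 : ℂ) ≠ 0 := by exact_mod_cast hp.ne'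
  have hωn : 0 < ‖ω‖ := norm_pos_iff.2 hω'
  have hd : 0 < ‖1 + w‖ := norm_pos_iff.2 d0
  have hP0 : PP ω j X ≠ 0 := by
    rw [eP]; exact mul_ne_zero (mul_ne_zero (mul_ne_zero hκ0 hp') hρ') d0
  have er : ω * j / PP ω j X = A / (1 + w) := by
    rw [eP, eωj]; field_simp
  have eψ : psi ω j X = (1 + w - A) ^ 2 * (1 + w + 5 * A) / ((1 + w) ^ 3 * (8 * ω)) -
      A * (1 + w - A) * (1 + w - 5 * A) / ((1 + w) ^ 3 * (4 * ω ^ 2)) +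
      (3 + 3 * w - 5 * A) / (8 * (ω * (1 - 2 * j) * ρ ^ 2 * (p0 : ℂ) ^ 2) * (1 + w) ^ 3) := by
    rw [psi_eq hω' hP0, er, eP]
    field_simp
  have t1 : ‖(1 + w - A) ^ 2 * (1 + w + 5 * A) / ((1 + w) ^ 3 * (8 * ω))‖ ≤ 13 / (16 * ‖ω‖) := by
    rw [norm_div, norm_mul, norm_mul, norm_mul, norm_pow, norm_pow, Complex.norm_ofNat,
      div_le_div_iff₀ (by positivity) (by positivity)]
    have := mul_le_mul_of_nonneg_right S3 hωn.le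
    linarith
  have t2 : ‖A * (1 + w - A) * (1 + w - 5 * A) / ((1 + w) ^ 3 * (4 * ω ^ 2))‖ ≤ 1 / ‖ω‖ ^ 2 := by
    rw [norm_div, norm_mul, norm_mul, norm_mul, norm_mul, norm_pow, norm_pow, Complex.norm_ofNat,
      div_le_div_iff₀ (by positivity) (by positivity)]
    have := mul_le_mul_of_nonneg_right S4 (sq_nonneg ‖ω‖)
    linarith
  have t3 : ‖(3 + 3 * w - 5 * A) /
      (8 * (ω * (1 - 2 * j) * ρ ^ 2 * (p0 : ℂ) ^ 2) * (1 + w) ^ 3)‖ =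
      ‖3 + 3 * w - 5 * A‖ / (8 * m * ‖1 + w‖ ^ 3) := by
    rw [norm_div, norm_mul, norm_mul, norm_mul, norm_pow, norm_pow, Complex.norm_ofNat,
      Complex.norm_real, Real.norm_eq_abs, abs_of_pos hp, hmd]
  rw [eψ]
  refine (norm_add_le _ _).trans ?_
  rw [t3]
  have := (norm_sub_le _ _).trans (add_le_add t1 t2)
  linarith

/-- the weighted bound for the third term -/
lemma werra_last {φ1 s p0 r ξ V d n m q g v K : ℝ} (hφ : 0 < φ1) (hpρ : 0 < p0 * r)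
    (hd : 0 < d) (hm0 : 0 < m) (hQ : 994 / 1000 ≤ q) (hv : 0 < v) (hm : 2 ≤ v ^ 2 * m)
    (hK : 0 ≤ K) (q3 : 2 * (φ1 * (1 - s)) ^ 2 ≤ ξ) (hV : V = ξ / (p0 * r))
    (hg : g = 4 * φ1 ^ 2 / (p0 * r) * m * d / q)
    (S2 : n ^ 2 * (1 + 2 * V) ≤ 707 / 500 * K * (d ^ 5 * √d)) :
    (n / (8 * m * d ^ 3)) ^ 2 * √g ≤ 788 / 100000 * (v ^ 3 * K) *
      (2 * φ1 / √(p0 * r) / (1 + (2 * φ1 / √(p0 * r) * (1 - s)) ^ 2)) := by
  obtain ⟨Λ, hΛ⟩ : ∃ Λ : ℝ, Λ = 2 * φ1 / √(p0 * r) := ⟨_, rfl⟩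
  rw [← hΛ]
  have hΛ0 : 0 ≤ Λ := by rw [hΛ]; positivity
  have hΛ2 : Λ ^ 2 = 4 * φ1 ^ 2 / (p0 * r) := by
    rw [hΛ, div_pow, Real.sq_sqrt hpρ.le]; ring
  have eS : √g = Λ * √m * √d / √q := by
    rw [hg, ← hΛ2, Real.sqrt_div (by positivity), Real.sqrt_mul (by positivity),
      Real.sqrt_mul (sq_nonneg _), Real.sqrt_sq hΛ0]
  have hU : 1 + (Λ * (1 - s)) ^ 2 ≤ 1 + 2 * V := by
    have e2 : (Λ * (1 - s)) ^ 2 = 2 * (2 * (φ1 * (1 - s)) ^ 2 / (p0 * r)) := by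
      rw [mul_pow, hΛ2]; ring
    rw [hV, e2]
    have := div_le_div_of_nonneg_right q3 hpρ.le
    linarith
  have hq : 9969 / 10000 ≤ √q := Real.le_sqrt_of_sq_le (by linarith)
  have he := Real.sq_sqrt hd.le
  have ht := Real.sq_sqrt hm0.le
  have key := werra_fin (n := n) (t := √m) (e := √d)
    (K := K) (U := 1 + (Λ * (1 - s)) ^ 2) (Real.sqrt_pos.2 hm0)
    (Real.sqrt_pos.2 hd) hq hv (by rw [ht]; exact hm) hK hΛ0 (by positivity) (by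
      have e : √d ^ 11 = d ^ 5 * √d := by
        rw [show 11 = 2 * 5 + 1 from rfl, pow_succ, pow_mul, he]
      rw [e]
      exact (mul_le_mul_of_nonneg_left hU (sq_nonneg _)).trans S2)
  have e6 : √d ^ 6 = d ^ 3 := by
    rw [show 6 = 2 * 3 from rfl, pow_mul, he]
  rw [ht, e6] at key
  rw [eS]
  exact key

lemma werra_x {n m d v K : ℝ} (hd : 0 < d) (hm0 : 0 < m) (hm : 2 ≤ v ^ 2 * m) (hK : 0 ≤ K)
    (S1 : n ≤ K * d ^ 3) : n / (8 * m * d ^ 3) ≤ v ^ 2 * K / 16 := by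
  rw [div_le_div_iff₀ (by positivity) (by norm_num)]
  have h := mul_le_mul_of_nonneg_right hm (mul_nonneg hK (pow_pos hd 3).le)
  linarith

theorem err_pt {φ1 x1 p0 A0 jl μρ μω v s : ℝ} {ω j ρ : ℂ}
    (h0 : π / 4 ≤ φ1) (h1 : φ1 ≤ π / 2) (hx : cos φ1 ^ 2 = x1) (hp : 0 < p0) (hpx : x1 ≤ p0)
    (hp1 : p0 - x1 ≤ 1) (hA : x1 = (1 - A0) * p0) (hj : ‖j‖ ≤ jl) (hjl : jl ≤ 3 / 1000)
    (hP : ω * j + (1 - 2 * j) * x1 = (1 - 2 * j) * p0 * ρ) (hρ : ‖ρ - 1‖ ≤ μρ)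
    (hρ1 : μρ ≤ 77 / 200) (hρ2 : Sa ρ (3 / 10)) (hρ3 : x1 = 0 ∨ μρ ≤ 27 / 100)
    (hω : Sa ω μω) (hω0 : 0 ≤ μω) (hω1 : μω ≤ 3 / 20)
    (hv : 0 < v) (hm : 2 ≤ v ^ 2 * (‖ω * (1 - 2 * j) * ρ ^ 2‖ * p0 ^ 2)) (hs : s ∈ Icc (0 : ℝ) 1) :
    PP ω j (pX φ1 s) ≠ 0 ∧ QQ j (pX φ1 s) ≠ 0 ∧
      (G2 φ1 ω j s).im ≤ (μω + μρ + 21 / 10 * jl) * ‖G2 φ1 ω j s‖ ∧
      √‖G2 φ1 ω j s‖ ≤ π * √(7 / 5 * ‖ω‖) ∧
      ∃ x y : ℝ, 0 ≤ x ∧ 0 ≤ y ∧ ‖psi ω j (pX φ1 s)‖ ≤ x + y ∧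
        x ≤ v ^ 2 * (16 / 5 + 5 / 2 * (1 - A0) ^ 3) / 16 ∧ y = 13 / (16 * ‖ω‖) + 1 / ‖ω‖ ^ 2 ∧
        x ^ 2 * √‖G2 φ1 ω j s‖ ≤ 788 / 100000 * (v ^ 3 * (33 / 2 + 23 * (1 - A0) ^ 3)) *
          (2 * φ1 / √(p0 * ‖ρ‖) / (1 + (2 * φ1 / √(p0 * ‖ρ‖) * (1 - s)) ^ 2)) := by
  obtain ⟨q1, q2, q3⟩ := pX_quad h0 h1 hs
  rw [hx] at q1 q2 q3
  have hG2 : G2 φ1 ω j s = 4 * (φ1 : ℂ) ^ 2 * ω * PP ω j (pX φ1 s) / QQ j (pX φ1 s) := rfl
  generalize G2 φ1 ω j s = G at hG2 ⊢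
  generalize pX φ1 s = X at q1 q2 q3 hG2 ⊢
  have hφ : 0 < φ1 := by linarith [pi_pos]
  have hx0 : 0 ≤ x1 := by rw [← hx]; positivity
  have hB0 : 0 ≤ 1 - A0 := by
    by_contra h
    have : (1 - A0) * p0 < 0 := mul_neg_of_neg_of_pos (by linarith) hp
    linarith
  have hA0 : 0 ≤ A0 := by
    by_contra h
    have : A0 * p0 < 0 := mul_neg_of_neg_of_pos (by linarith) hp
    linarith
  have hω' := hω.ne
  have hρ' := hρ2.ne
  have hp' : (p0 : ℂ) ≠ 0 := by exact_mod_cast hp.ne'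
  have hρn : 0 < ‖ρ‖ := norm_pos_iff.2 hρ'
  have hωn : 0 < ‖ω‖ := norm_pos_iff.2 hω'
  rw [Complex.sub_re, Complex.ofReal_re] at q1
  have q2' : X.im ≤ 0 := by rwa [Complex.sub_im, Complex.ofReal_im, sub_zero] at q2
  have eP0 : PP ω j X = (1 - 2 * j) * (((p0 - x1 : ℝ) : ℂ) + X + p0 * (ρ - 1)) := by
    unfold PP
    push_cast
    linear_combination hP
  obtain ⟨hQ, hang, hsz⟩ := werra_ang (b := p0 - x1) (X := X) (G := G) hφ h1 hp (by linarith) hp1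
    (by linarith) q2' (by linarith) hj hjl hρ hρ1 hω hω0 hω1 (by rw [hG2, eP0])
  have hκ0 : (1 - 2 * j) ≠ 0 := by
    intro h
    rw [h, mul_zero, zero_mul, norm_zero, zero_mul, mul_zero] at hm
    linarith
  obtain ⟨w, hw⟩ : ∃ w : ℂ, w = (X - x1) * ((p0 : ℂ) * ρ)⁻¹ := ⟨_, rfl⟩
  obtain ⟨A, hA'⟩ : ∃ A : ℂ, A = 1 - ((1 - A0 : ℝ) : ℂ) / ρ := ⟨_, rfl⟩
  have hwre : -(3 / 10 * ‖w‖) ≤ w.re := by
    rw [hw]
    refine (ang_quad (hρ2.pos_mul hp).inv (by norm_num) ?_ q2).2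
    rw [Complex.sub_re, Complex.ofReal_re]; exact q1
  have hAA : ‖A - A0‖ ≤ 37 / 100 * (1 - A0) := by
    have e : A - A0 = ((1 - A0 : ℝ) : ℂ) * ((ρ - 1) / ρ) := by
      rw [hA']; push_cast; field_simp; ring
    rw [e, norm_mul, Complex.norm_real, Real.norm_eq_abs, abs_of_nonneg hB0, mul_comm]
    rcases hρ3 with h | h
    · have : 1 - A0 = 0 := by
        rw [h] at hA
        exact (mul_eq_zero.1 hA.symm).resolve_right hp.ne'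
      rw [this, mul_zero, mul_zero]
    · refine mul_le_mul_of_nonneg_right ?_ hB0
      have h2 := norm_sub_norm_le (1 : ℂ) (1 - ρ)
      rw [norm_one, sub_sub_cancel, norm_sub_rev] at h2
      rw [norm_div, div_le_iff₀ hρn]
      linarith
  obtain ⟨d0, S1, S2, S3, S4⟩ := sup_bd hA0 (by linarith) hwre hAA
  have hd : 0 < ‖1 + w‖ := norm_pos_iff.2 d0
  have eP : PP ω j X = (1 - 2 * j) * p0 * ρ * (1 + w) := by
    rw [eP0, hw]; push_cast; field_simp; ring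
  have hP0 : PP ω j X ≠ 0 := by
    rw [eP]; exact mul_ne_zero (mul_ne_zero (mul_ne_zero hκ0 hp') hρ') d0
  have hx1 : (x1 : ℂ) = ((1 - A0 : ℝ) : ℂ) * p0 := by exact_mod_cast hA
  have eωj : ω * j = (1 - 2 * j) * p0 * ρ * A := by
    rw [hA', mul_sub, mul_one, mul_assoc ((1 - 2 * j) * p0), mul_div_cancel₀ _ hρ']
    linear_combination hP - (1 - 2 * j) * hx1
  obtain ⟨m, hmd⟩ : ∃ m : ℝ, m = ‖ω * (1 - 2 * j) * ρ ^ 2‖ * p0 ^ 2 := ⟨_, rfl⟩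
  rw [← hmd] at hm
  have hm0 : 0 < m := by
    rw [hmd]
    exact mul_pos (norm_pos_iff.2 (mul_ne_zero (mul_ne_zero hω' hκ0) (pow_ne_zero 2 hρ')))
      (by positivity)
  have hB3 : 0 ≤ (1 - A0) ^ 3 := pow_nonneg hB0 3
  refine ⟨hP0, norm_pos_iff.1 (by linarith), hang, hsz,
    ‖3 + 3 * w - 5 * A‖ / (8 * m * ‖1 + w‖ ^ 3), _,
    div_nonneg (norm_nonneg _) (mul_pos (mul_pos (by norm_num) hm0) (pow_pos hd 3)).le,
    add_nonneg (div_nonneg (by norm_num) (by linarith)) (div_nonneg zero_le_one (sq_nonneg _)),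
    werra_psi hp hω' hρ' hκ0 d0 eP eωj hmd S3 S4, werra_x hd hm0 hm (by linarith) S1, rfl, ?_⟩
  refine werra_last hφ (mul_pos hp hρn) hd hm0 hQ hv hm (by linarith) q3 ?_ ?_ S2
  · rw [hw, norm_mul, norm_inv, norm_mul, Complex.norm_real, Real.norm_eq_abs, abs_of_pos hp,
      div_eq_mul_inv]
  · have hQ0 : ‖QQ j X‖ ≠ 0 := by linarith
    rw [hG2, eP, hmd]
    simp only [norm_div, norm_mul, norm_pow, Complex.norm_ofNat, Complex.norm_real,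
      Real.norm_eq_abs, abs_of_pos hp, abs_of_pos hφ]
    field_simp

end Pool.Agent.HillD
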