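import Pool.Agent.P.MP_ae2765_an.WDef

/-! Holomorphic dependence on a parameter. -/

namespace Pool.Agent.HillD
open Real Set Filter Topology Asymptotics

theorem whol_meas {U : Set ℂ} {F : ℂ → ℝ → ℂ} {a b : ℝ} (hab : a ≤ b)
    (hc : ContinuousOn (fun p : ℂ × ℝ => F p.1 p.2) (U ×ˢ Icc a b)) {x : ℂ} (hx : x ∈ U) :
    ContinuousOn (F x) (uIcc a b) := by
  rw [uIcc_of_le hab]
  exact hc.comp (f := fun s : ℝ => ((x, s) : ℂ × ℝ)) (by fun_prop) (fun s hs => ⟨hx, hs⟩)

/-- parametric integrals -/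
theorem hol_int {U : Set ℂ} (hU : IsOpen U) {F : ℂ → ℝ → ℂ} {a b : ℝ} (hab : a ≤ b)
    (hc : ContinuousOn (fun p : ℂ × ℝ => F p.1 p.2) (U ×ˢ Icc a b))
    (hd : ∀ s ∈ Icc a b, DifferentiableOn ℂ (fun τ => F τ s) U) :
    DifferentiableOn ℂ (fun τ => ∫ s in a..b, F τ s) U := by
  intro τ hτ
  obtain ⟨R, hR, hRU⟩ := Metric.nhds_basis_closedBall.mem_iff.1 (hU.mem_nhds hτ)
  have hK : IsCompact (Metric.closedBall τ R ×ˢ Icc a b) :=
    (isCompact_closedBall τ R).prod isCompact_Icc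
  obtain ⟨C, hC⟩ := hK.exists_bound_of_continuousOn (hc.mono (prod_mono hRU subset_rfl))
  have hI : ∀ t ∈ uIoc a b, t ∈ Icc a b := fun t ht => by
    rw [uIoc_of_le hab] at ht
    exact Ioc_subset_Icc_self ht
  have hm : ∀ x ∈ U, MeasureTheory.AEStronglyMeasurable (F x)
      (MeasureTheory.volume.restrict (uIoc a b)) := fun x hx =>
    ((whol_meas hab hc hx).mono uIoc_subset_uIcc).aestronglyMeasurable measurableSet_uIoc
  have hb : ∀ x ∈ Metric.ball τ (R / 2), Metric.closedBall x (R / 2) ⊆ Metric.closedBall τ R :=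
    fun x hx => Metric.closedBall_subset_closedBall' (by
      have := Metric.mem_ball.1 hx
      linarith)
  have hbU : ∀ x ∈ Metric.ball τ (R / 2), x ∈ U := fun x hx =>
    hRU (hb x hx (Metric.mem_closedBall_self (by linarith)))
  have hder : ∀ t ∈ uIoc a b, ∀ x ∈ U,
      HasDerivAt (fun x => F x t) (deriv (fun x => F x t) x) x := fun t ht x hx =>
    ((hd t (hI t ht)).differentiableAt (hU.mem_nhds hx)).hasDerivAt
  refine (intervalIntegral.hasDerivAt_integral_of_dominated_loc_of_deriv_le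
    (μ := MeasureTheory.volume) (F' := fun x t => deriv (fun x => F x t) x)
    (bound := fun _ => C / (R / 2)) (Metric.ball_mem_nhds τ (half_pos hR))
    (Filter.eventually_of_mem (hU.mem_nhds hτ) hm) (whol_meas hab hc hτ).intervalIntegrable ?_
    (Filter.Eventually.of_forall fun t ht x hx => ?_) intervalIntegrable_const
    (Filter.Eventually.of_forall fun t ht x hx => hder t ht x (hbU x hx))).2.differentiableAt
      |>.differentiableWithinAt
  · have hu : Tendsto (fun n : ℕ => ((R / ((n : ℝ) + 1) : ℝ) : ℂ)) atTop (𝓝[≠] 0) := by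
      refine tendsto_nhdsWithin_iff.2 ⟨?_, Filter.Eventually.of_forall fun n => ?_⟩
      · have h1 : Tendsto (fun n : ℕ => R / ((n : ℝ) + 1)) atTop (𝓝 0) :=
          tendsto_const_nhds.div_atTop
            (tendsto_atTop_add_const_right _ _ tendsto_natCast_atTop_atTop)
        have h2 := (Complex.continuous_ofReal.tendsto 0).comp h1
        rw [Complex.ofReal_zero] at h2
        exact h2
      · have : R / ((n : ℝ) + 1) ≠ 0 := by positivity
        exact mem_compl_singleton_iff.2 (Complex.ofReal_ne_zero.2 this)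
    refine aestronglyMeasurable_of_tendsto_ae atTop
      (f := fun (n : ℕ) t => (((R / ((n : ℝ) + 1) : ℝ) : ℂ))⁻¹ •
        (F (τ + ((R / ((n : ℝ) + 1) : ℝ) : ℂ)) t - F τ t)) (fun n => ?_) ?_
    · refine ((hm _ (hRU ?_)).sub (hm τ hτ)).const_smul (((R / ((n : ℝ) + 1) : ℝ) : ℂ))⁻¹
      rw [Metric.mem_closedBall, dist_eq_norm, add_sub_cancel_left, Complex.norm_real,
        Real.norm_eq_abs, abs_of_pos (by positivity)]
      exact div_le_self hR.le (by linarith [Nat.cast_nonneg (α := ℝ) n])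
    · rw [MeasureTheory.ae_restrict_iff' measurableSet_uIoc]
      exact Filter.Eventually.of_forall fun t ht =>
        (hder t ht τ hτ).tendsto_slope_zero.comp hu
  · refine Complex.norm_deriv_le_of_forall_mem_sphere_norm_le (half_pos hR) ?_ fun z hz => ?_
    · refine DifferentiableOn.diffContOnCl ((hd t (hI t ht)).mono ?_)
      exact Metric.closure_ball_subset_closedBall.trans ((hb x hx).trans hRU)
    · exact hC (z, t) ⟨hb x hx (Metric.sphere_subset_closedBall hz), hI t ht⟩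

/-- uniqueness for linear systems on `[0, 1]` -/
theorem ode_uniq {a11 a12 a21 a22 x y x' y' : ℝ → ℂ} (c11 : ContinuousOn a11 (Icc 0 1))
    (c12 : ContinuousOn a12 (Icc 0 1)) (c21 : ContinuousOn a21 (Icc 0 1))
    (c22 : ContinuousOn a22 (Icc 0 1))
    (h : ∀ s ∈ Icc (0 : ℝ) 1, HasDerivWithinAt x (a11 s * x s + a12 s * y s) (Icc 0 1) s ∧
      HasDerivWithinAt y (a21 s * x s + a22 s * y s) (Icc 0 1) s)
    (h' : ∀ s ∈ Icc (0 : ℝ) 1, HasDerivWithinAt x' (a11 s * x' s + a12 s * y' s) (Icc 0 1) s ∧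
      HasDerivWithinAt y' (a21 s * x' s + a22 s * y' s) (Icc 0 1) s)
    (e1 : x 0 = x' 0) (e2 : y 0 = y' 0) : ∀ s ∈ Icc (0 : ℝ) 1, x s = x' s ∧ y s = y' s := by
  obtain ⟨K1, k1⟩ := isCompact_Icc.exists_bound_of_continuousOn c11
  obtain ⟨K2, k2⟩ := isCompact_Icc.exists_bound_of_continuousOn c12
  obtain ⟨K3, k3⟩ := isCompact_Icc.exists_bound_of_continuousOn c21
  obtain ⟨K4, k4⟩ := isCompact_Icc.exists_bound_of_continuousOn c22
  have hD : ∀ s ∈ Icc (0 : ℝ) 1, HasDerivWithinAt (fun s => ((x s - x' s, y s - y' s) : ℂ × ℂ))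
      (a11 s * (x s - x' s) + a12 s * (y s - y' s),
        a21 s * (x s - x' s) + a22 s * (y s - y' s)) (Icc 0 1) s := fun s hs => by
    refine HasDerivWithinAt.prodMk ?_ ?_
    · convert (h s hs).1.fun_sub (h' s hs).1 using 1
      ring
    · convert (h s hs).2.fun_sub (h' s hs).2 using 1
      ring
  have key := eq_zero_of_abs_deriv_le_mul_abs_self_of_eq_zero_right (K := K1 + K2 + K3 + K4)
    (fun s hs => (hD s hs).continuousWithinAt)
    (fun s hs => (hD s (Ico_subset_Icc_self hs)).mono_of_mem_nhdsWithin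
      (Icc_mem_nhdsGE_of_mem hs))
    (by rw [e1, e2, sub_self, sub_self]; rfl) (fun s hs => by
      have hs' := Ico_subset_Icc_self hs
      generalize x s - x' s = u
      generalize y s - y' s = v
      have hu : ‖u‖ ≤ ‖((u, v) : ℂ × ℂ)‖ := norm_fst_le ((u, v) : ℂ × ℂ)
      have hv : ‖v‖ ≤ ‖((u, v) : ℂ × ℂ)‖ := norm_snd_le ((u, v) : ℂ × ℂ)
      have hN : 0 ≤ ‖((u, v) : ℂ × ℂ)‖ := norm_nonneg _
      generalize ‖((u, v) : ℂ × ℂ)‖ = N at hu hv hN ⊢
      have g : ∀ (c w : ℂ) (K : ℝ), ‖c‖ ≤ K → ‖w‖ ≤ N → ‖c * w‖ ≤ K * N := fun c w K hc hw => by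
        rw [norm_mul]
        exact mul_le_mul hc hw (norm_nonneg _) ((norm_nonneg _).trans hc)
      have p1 := mul_nonneg ((norm_nonneg _).trans (k1 s hs')) hN
      have p2 := mul_nonneg ((norm_nonneg _).trans (k2 s hs')) hN
      have p3 := mul_nonneg ((norm_nonneg _).trans (k3 s hs')) hN
      have p4 := mul_nonneg ((norm_nonneg _).trans (k4 s hs')) hN
      rw [Prod.norm_mk]
      refine max_le ((norm_add_le _ _).trans ?_) ((norm_add_le _ _).trans ?_)
      · have := g _ _ _ (k1 s hs') hu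
        have := g _ _ _ (k2 s hs') hv
        linarith
      · have := g _ _ _ (k3 s hs') hu
        have := g _ _ _ (k4 s hs') hv
        linarith)
  intro s hs
  have := Prod.mk_eq_zero.1 (key s hs)
  exact ⟨sub_eq_zero.1 this.1, sub_eq_zero.1 this.2⟩

end Pool.Agent.HillD
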