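import Pool.Agent.P.MP_ae2765_an.WDef

/-! Algebra of jets at `0`. -/

namespace Pool.Agent.HillD
open Real Set Filter Topology Asymptotics

variable {𝕜 : Type} [RCLike 𝕜] {f g : ℝ → 𝕜} {a0 a1 a2 a3 b0 b1 b2 b3 : 𝕜}

theorem wjet0_small : ∀ᶠ τ in 𝓝 (0 : ℝ), |τ| ≤ 1 := by
  filter_upwards [Metric.closedBall_mem_nhds (0 : ℝ) one_pos] with τ hτ
  simpa using hτ

theorem wjet0_mono (c : 𝕜) {n m : ℕ} (h : m ≤ n) :
    (fun τ : ℝ => c * (τ : 𝕜) ^ n) =O[𝓝 0] fun τ : ℝ => τ ^ m := by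
  refine IsBigO.of_bound ‖c‖ ?_
  filter_upwards [wjet0_small] with τ hτ
  rw [norm_mul, norm_pow, norm_pow, RCLike.norm_ofReal, Real.norm_eq_abs]
  exact mul_le_mul_of_nonneg_left (pow_le_pow_of_le_one (abs_nonneg _) hτ h) (norm_nonneg _)

theorem wjet0_pow {n m : ℕ} (h : m ≤ n) :
    (fun τ : ℝ => τ ^ n) =O[𝓝 0] fun τ : ℝ => τ ^ m := by
  simpa using wjet0_mono (𝕜 := ℝ) 1 h

theorem wjet0_zero {c : 𝕜} {n : ℕ}
    (h : (fun τ : ℝ => c * (τ : 𝕜) ^ n) =O[𝓝 0] fun τ : ℝ => τ ^ (n + 1)) : c = 0 := by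
  obtain ⟨C, hC⟩ := h.bound
  have h1 : ∀ᶠ τ in 𝓝[≠] (0 : ℝ), ‖c‖ ≤ C * |τ| := by
    filter_upwards [nhdsWithin_le_nhds hC, self_mem_nhdsWithin] with τ hτ hne
    rw [norm_mul, norm_pow, norm_pow, RCLike.norm_ofReal, Real.norm_eq_abs] at hτ
    have hp : 0 < |τ| ^ n := pow_pos (abs_pos.mpr hne) n
    refine le_of_mul_le_mul_right ?_ hp
    calc ‖c‖ * |τ| ^ n ≤ C * |τ| ^ (n + 1) := hτ
      _ = C * |τ| * |τ| ^ n := by ring
  have h2 : Tendsto (fun τ : ℝ => C * |τ|) (𝓝[≠] (0 : ℝ)) (𝓝 0) := by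
    have : ContinuousAt (fun τ : ℝ => C * |τ|) 0 := by fun_prop
    simpa using this.tendsto.mono_left nhdsWithin_le_nhds
  exact norm_le_zero_iff.mp (ge_of_tendsto h2 h1)

theorem wjet0_bdd (h : ContinuousAt f 0) : f =O[𝓝 0] fun _ : ℝ => (1 : ℝ) :=
  h.tendsto.isBigO_one ℝ

theorem wjet0_mul {u v : ℝ → 𝕜} (hu : u =O[𝓝 0] fun τ : ℝ => τ ^ 3) (hv : ContinuousAt v 0) :
    (fun τ => u τ * v τ) =O[𝓝 0] fun τ : ℝ => τ ^ 3 := by
  simpa using hu.mul (wjet0_bdd hv)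

theorem wjet0_pc (c0 c1 c2 : 𝕜) :
    Continuous fun τ : ℝ => c0 + c1 * (τ : 𝕜) + c2 * (τ : 𝕜) ^ 2 := by
  have := RCLike.continuous_ofReal (K := 𝕜)
  fun_prop

theorem J3.j2 (h : J3 f a0 a1 a2 a3) : J2 f a0 a1 a2 := by
  unfold J3 at h
  unfold J2
  refine ((h.trans (wjet0_pow (by norm_num))).add (wjet0_mono a3 (le_refl 3))).congr_left ?_
  intro τ
  ring

theorem J2.val (h : J2 f a0 a1 a2) : f 0 = a0 := by
  unfold J2 at h
  obtain ⟨C, hC⟩ := h.bound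
  have := hC.self_of_nhds
  simpa [sub_eq_zero] using this

theorem J2.cont (h : J2 f a0 a1 a2) : ContinuousAt f 0 := by
  have hv := h.val
  unfold J2 at h
  have h1 : Tendsto (fun τ : ℝ => τ ^ 3) (𝓝 0) (𝓝 0) := by
    simpa using (continuous_pow 3).tendsto (0 : ℝ)
  have h2 := (h.trans_tendsto h1).add ((wjet0_pc a0 a1 a2).tendsto 0)
  unfold ContinuousAt
  rw [hv]
  simpa using h2

theorem J2.congr (h : J2 f a0 a1 a2) (e : f =ᶠ[𝓝 0] g) : J2 g a0 a1 a2 := by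
  unfold J2 at h ⊢
  refine h.congr' ?_ EventuallyEq.rfl
  filter_upwards [e] with τ hτ
  rw [hτ]

theorem J3.congr (h : J3 f a0 a1 a2 a3) (e : f =ᶠ[𝓝 0] g) : J3 g a0 a1 a2 a3 := by
  unfold J3 at h ⊢
  refine h.congr' ?_ EventuallyEq.rfl
  filter_upwards [e] with τ hτ
  rw [hτ]

theorem J2.of_eq (h : J2 f a0 a1 a2) (e0 : a0 = b0) (e1 : a1 = b1) (e2 : a2 = b2) :
    J2 f b0 b1 b2 := e0 ▸ e1 ▸ e2 ▸ h

theorem J2.unique (h : J2 f a0 a1 a2) (h' : J2 f b0 b1 b2) : a0 = b0 ∧ a1 = b1 ∧ a2 = b2 := by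
  have e0 : a0 = b0 := h.val.symm.trans h'.val
  subst e0
  unfold J2 at h h'
  have hd := h'.sub h
  have e1 : a1 - b1 = 0 := by
    refine wjet0_zero (n := 1) ?_
    refine ((hd.trans (wjet0_pow (by norm_num))).sub
      (wjet0_mono (a2 - b2) (le_refl 2))).congr_left ?_
    intro τ
    ring
  have e1' : a1 = b1 := sub_eq_zero.mp e1
  subst e1'
  have e2 : a2 - b2 = 0 := by
    refine wjet0_zero (n := 2) (hd.congr_left ?_)
    intro τ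
    ring
  exact ⟨rfl, rfl, sub_eq_zero.mp e2⟩

theorem j2_poly (a0 a1 a2 : 𝕜) :
    J2 (fun τ : ℝ => a0 + a1 * (τ : 𝕜) + a2 * (τ : 𝕜) ^ 2) a0 a1 a2 := by
  unfold J2
  exact (isBigO_zero _ _).congr_left fun τ => by ring

theorem j2_const (a0 : 𝕜) : J2 (fun _ => a0) a0 0 0 := by
  unfold J2
  exact (isBigO_zero _ _).congr_left fun τ => by ring

theorem j2_lin (a0 a1 : 𝕜) : J2 (fun τ : ℝ => a0 + a1 * (τ : 𝕜)) a0 a1 0 := by
  unfold J2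
  exact (isBigO_zero _ _).congr_left fun τ => by ring

theorem j3_const (a0 : 𝕜) : J3 (fun _ => a0) a0 0 0 0 := by
  unfold J3
  exact (isBigO_zero _ _).congr_left fun τ => by ring

theorem J2.add (h : J2 f a0 a1 a2) (h' : J2 g b0 b1 b2) :
    J2 (fun τ => f τ + g τ) (a0 + b0) (a1 + b1) (a2 + b2) := by
  unfold J2 at h h' ⊢
  exact (IsBigO.add h h').congr_left fun τ => by ring

theorem J2.sub (h : J2 f a0 a1 a2) (h' : J2 g b0 b1 b2) :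
    J2 (fun τ => f τ - g τ) (a0 - b0) (a1 - b1) (a2 - b2) := by
  unfold J2 at h h' ⊢
  exact (IsBigO.sub h h').congr_left fun τ => by ring

theorem J2.neg (h : J2 f a0 a1 a2) : J2 (fun τ => -f τ) (-a0) (-a1) (-a2) := by
  unfold J2 at h ⊢
  exact h.neg_left.congr_left fun τ => by ring

theorem J2.const_mul (h : J2 f a0 a1 a2) (c : 𝕜) :
    J2 (fun τ => c * f τ) (c * a0) (c * a1) (c * a2) := by
  unfold J2 at h ⊢
  exact (h.const_mul_left c).congr_left fun τ => by ring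

theorem J2.mul (h : J2 f a0 a1 a2) (h' : J2 g b0 b1 b2) :
    J2 (fun τ => f τ * g τ) (a0 * b0) (a0 * b1 + a1 * b0) (a0 * b2 + a1 * b1 + a2 * b0) := by
  have hg := h'.cont
  unfold J2 at h h' ⊢
  have h1 := wjet0_mul h hg
  have h2 := wjet0_mul h' (wjet0_pc a0 a1 a2).continuousAt
  have h3 := wjet0_mono (a1 * b2 + a2 * b1) (le_refl 3)
  have h4 := wjet0_mono (a2 * b2) (by norm_num : 3 ≤ 4)
  exact (((h1.add h2).add h3).add h4).congr_left fun τ => by ring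

theorem J2.inv (h : J2 f a0 a1 a2) (h0 : a0 ≠ 0) :
    J2 (fun τ => (f τ)⁻¹) a0⁻¹ (-(a1 * a0⁻¹ ^ 2)) (-((a1 * -(a1 * a0⁻¹ ^ 2) + a2 * a0⁻¹) * a0⁻¹)) := by
  have hc := h.cont
  have hf0 : f 0 ≠ 0 := by rw [h.val]; exact h0
  have hm := (h.mul (j2_poly a0⁻¹ (-(a1 * a0⁻¹ ^ 2))
    (-((a1 * -(a1 * a0⁻¹ ^ 2) + a2 * a0⁻¹) * a0⁻¹)))).of_eq (b0 := 1) (b1 := 0) (b2 := 0)
    (by field_simp) (by field_simp; ring) (by field_simp; ring)
  unfold J2 at hm ⊢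
  refine (wjet0_mul hm.neg_left (hc.inv₀ hf0)).congr' ?_ EventuallyEq.rfl
  filter_upwards [hc.eventually_ne hf0] with τ hτ
  generalize a0⁻¹ + -(a1 * a0⁻¹ ^ 2) * (τ : 𝕜) +
    -((a1 * -(a1 * a0⁻¹ ^ 2) + a2 * a0⁻¹) * a0⁻¹) * (τ : 𝕜) ^ 2 = p
  simp only [Pi.inv_apply]
  field_simp
  ring

theorem J3.add (h : J3 f a0 a1 a2 a3) (h' : J3 g b0 b1 b2 b3) :
    J3 (fun τ => f τ + g τ) (a0 + b0) (a1 + b1) (a2 + b2) (a3 + b3) := by
  unfold J3 at h h' ⊢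
  exact (IsBigO.add h h').congr_left fun τ => by ring

/-- rescaling the parameter -/
theorem J2.scale (h : J2 f a0 a1 a2) (c : ℝ) :
    J2 (fun τ => f (c * τ)) a0 (a1 * (c : 𝕜)) (a2 * (c : 𝕜) ^ 2) := by
  unfold J2 at h ⊢
  have ht : Tendsto (fun τ : ℝ => c * τ) (𝓝 0) (𝓝 0) := by
    simpa using (continuous_const_mul c).tendsto (0 : ℝ)
  have h1 := h.comp_tendsto ht
  have h2 : ((fun τ : ℝ => τ ^ 3) ∘ fun τ : ℝ => c * τ) =O[𝓝 0] fun τ : ℝ => τ ^ 3 :=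
    ((isBigO_refl (fun τ : ℝ => τ ^ 3) (𝓝 0)).const_mul_left (c ^ 3)).congr_left fun τ => by
      simp only [Function.comp]; ring
  refine (h1.trans h2).congr_left fun τ => ?_
  simp only [Function.comp]
  push_cast
  ring

/-- a perturbation of third order does not change the two-jet -/
theorem J2.of_sub (h : J2 f a0 a1 a2) (e : (fun τ => g τ - f τ) =O[𝓝 0] fun τ : ℝ => τ ^ 3) :
    J2 g a0 a1 a2 := by
  unfold J2 at h ⊢
  exact (IsBigO.add e h).congr_left fun τ => by ring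

end Pool.Agent.HillD
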