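import Pool.Agent.P.MP_ae2765_an.WRp

/-! Local comparison of a phase function with the distance to the branch. -/

namespace Pool.Agent.HillD
open Real Set Filter Topology Asymptotics

theorem th_half {θ0 m : ℝ} {l : ℕ} (hθ : θ0 = 0 ∨ θ0 = π / 2) (hl : 1 ≤ l) (h0 : 0 ≤ m)
    (hm : m < 1 / 2) : th m (cur θ0 l m) θ0 (π / 2) = θ0 + l * (π / 2) := by
  have hm1 : m < 1 := by linarith
  obtain ⟨-, c1⟩ := cur_spec hθ hl h0 hm
  set ω := cur θ0 l m with hω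
  have s := th_spec hm1 ω θ0
  obtain ⟨n, hn⟩ : ∃ n : ℕ, 2 * θ0 + l * π = n * π := by
    rcases hθ with h | h
    · exact ⟨l, by rw [h]; ring⟩
    · exact ⟨l + 1, by rw [h]; push_cast; ring⟩
  have e1 : ((-1 : ℝ) ^ n) ^ 2 = 1 := by rw [← pow_mul, mul_comm, pow_mul]; simp
  have s2 : IsAng (cA m ω) (cB m ω) fun t => n * π - th m ω θ0 (π - t) := by
    intro t
    have d : HasDerivAt (fun t : ℝ => π - t) (-1) t := by
      simpa using (hasDerivAt_id t).const_sub π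
    refine (((s.1 (π - t)).comp t d).const_sub (n * π)).congr_deriv ?_
    rw [cA_symm, cB_symm, cos_nat_mul_pi_sub, sin_nat_mul_pi_sub, mul_pow, neg_sq, mul_pow, e1]
    ring
  have z : (fun t => n * π - th m ω θ0 (π - t)) 0 = th m ω θ0 0 := by
    simp only [sub_zero]
    rw [c1, s.2, ← hn]; ring
  have hp : 0 ≤ π / 2 := by positivity
  have a1 := cmp_le (cA_cont hm1 ω) (cB_cont hm1 ω) s.1 s2 hp (fun _ _ => le_rfl)
    (fun _ _ => le_rfl) z.le
  have a2 := cmp_le (cA_cont hm1 ω) (cB_cont hm1 ω) s2 s.1 hp (fun _ _ => le_rfl)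
    (fun _ _ => le_rfl) z.ge
  have e : π - π / 2 = π / 2 := by ring
  simp only [e] at a1 a2
  linarith

theorem wloc_mono {m ω1 ω2 : ℝ} (hm : m < 1 / 2) (h : ω1 ≤ ω2) (θ0 : ℝ) :
    th m ω1 θ0 (π / 2) ≤ th m ω2 θ0 (π / 2) := by
  have hm1 : m < 1 := by linarith
  have s1 := th_spec hm1 ω1 θ0
  have s2 := th_spec hm1 ω2 θ0
  refine cmp_le (cA_cont hm1 ω1) (cB_cont hm1 ω1) s2.1 s1.1 (by positivity) (fun x _ => ?_)
    (fun x _ => ?_) (by rw [s1.2, s2.2])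
  · exact div_le_div_of_nonneg_right h (pm_pos hm1 x).le
  · refine div_le_div_of_nonneg_right ?_ (pm_pos hm1 x).le
    nlinarith

theorem wloc_pm {m : ℝ} (h0 : 0 ≤ m) (hm : m < 1 / 2) (t : ℝ) : 1 / 2 ≤ pm m t := by
  unfold pm Dm
  refine le_sqrt_of_sq_le ?_
  have h2 := sin_sq_le_one t
  nlinarith

theorem wloc_div {m x K : ℝ} (h0 : 0 ≤ m) (hm : m < 1 / 2) (t : ℝ) (hx : |x| ≤ K) :
    |x / pm m t| ≤ 2 * K := by
  have h1 := wloc_pm h0 hm t
  have h2 : 0 < pm m t := by linarith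
  rw [abs_div, abs_of_pos h2, div_le_iff₀ h2]
  have := abs_nonneg x
  nlinarith

theorem wloc_near (W : ℝ) : ∃ C : ℝ, 0 ≤ C ∧ ∀ m ω1 ω2 θ0 : ℝ, 0 ≤ m → m < 1 / 2 → |ω2| ≤ W →
    |th m ω1 θ0 (π / 2) - th m ω2 θ0 (π / 2)| ≤ C * |ω1 - ω2| := by
  refine ⟨exp (2 * (W + 1) * (π / 2)) * 2 * (π / 2) * exp (2 * (W + 1) * (π / 2)),
    by positivity, fun m ω1 ω2 θ0 h0 hm hW => ?_⟩
  have hm1 : m < 1 := by linarith
  have s1 := th_spec hm1 ω1 θ0
  have s2 := th_spec hm1 ω2 θ0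
  have := cmp_near (T := π / 2) (ε := 2 * |ω1 - ω2|) (K := 2 * (W + 1)) (cA_cont hm1 ω2)
    (cB_cont hm1 ω2) s1.1 s2.1 (by positivity) (fun x _ => ?_) (fun x _ => ?_) (fun x _ => ?_)
    (by rw [s1.2, s2.2])
  · refine this.trans (le_of_eq ?_)
    ring
  · unfold cA
    rw [← sub_div]
    exact wloc_div h0 hm x le_rfl
  · unfold cB
    rw [← sub_div]
    refine wloc_div h0 hm x ?_
    have e : ω1 * (1 - 2 * m) + 2 * m * cos x ^ 2 - (ω2 * (1 - 2 * m) + 2 * m * cos x ^ 2) =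
        (ω1 - ω2) * (1 - 2 * m) := by ring
    rw [e, abs_mul, abs_of_nonneg (show 0 ≤ 1 - 2 * m by linarith)]
    have := abs_nonneg (ω1 - ω2)
    nlinarith
  · unfold cA cB
    rw [← sub_div]
    refine wloc_div h0 hm x ?_
    have e : ω2 * (1 - 2 * m) + 2 * m * cos x ^ 2 - ω2 = 2 * m * (cos x ^ 2 - ω2) := by ring
    rw [e, abs_mul, abs_of_nonneg (show 0 ≤ 2 * m by linarith)]
    have h1 : |cos x ^ 2 - ω2| ≤ W + 1 := by
      have := abs_sub (cos x ^ 2) ω2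
      rw [abs_of_nonneg (sq_nonneg (cos x))] at this
      linarith [cos_sq_le_one x]
    have := abs_nonneg (cos x ^ 2 - ω2)
    nlinarith

theorem wloc_pt {a b x y a0 b0 : ℝ} (h : a * sin x * cos y = b * cos x * sin y) (hab : 0 < a * b)
    (hx : |x| < 1) (hy : |y| < 1) (ha0 : 0 < a0) (ha : a0 ≤ |a|) (hb : |b| ≤ b0) :
    |x| ≤ π * b0 / a0 * |y| ∧ 0 ≤ x * y := by
  have hp := pi_gt_three
  obtain ⟨x1, x2⟩ := abs_lt.1 hx
  obtain ⟨y1, y2⟩ := abs_lt.1 hy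
  have cx : 0 < cos x := cos_pos_of_mem_Ioo ⟨by linarith, by linarith⟩
  have cy : 1 / 2 ≤ cos y := by
    have := one_sub_sq_div_two_le_cos (x := y)
    nlinarith
  constructor
  · have e : |a| * |sin x| * cos y = |b| * cos x * |sin y| := by
      have := congrArg abs h
      rwa [abs_mul, abs_mul, abs_mul, abs_mul, abs_of_pos cx,
        abs_of_pos (show 0 < cos y by linarith)] at this
    have s1 : 2 / π * |x| ≤ |sin x| := mul_abs_le_abs_sin (by linarith)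
    have s2 : |sin y| ≤ |y| := abs_sin_le_abs
    have b1 : |b| * cos x * |sin y| ≤ b0 * 1 * |y| := by
      have := cos_le_one x
      have := (abs_nonneg b).trans hb
      gcongr
    have b2 : a0 * (2 / π * |x|) * (1 / 2) ≤ |a| * |sin x| * cos y := by
      have := abs_nonneg a
      gcongr
    rw [div_mul_eq_mul_div, le_div_iff₀ ha0]
    have e2 : a0 * (2 / π * |x|) * (1 / 2) * π = |x| * a0 := by field_simp
    have := mul_le_mul_of_nonneg_right (b2.trans (e.le.trans b1)) (show 0 ≤ π by linarith)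
    rw [e2] at this
    linarith
  · have k : 0 ≤ sin x * sin y := by
      have e : a * b * cos y * (sin x * sin y) = cos x * (b * sin y) ^ 2 := by
        linear_combination (b * sin y) * h
      have p : 0 < a * b * cos y := mul_pos hab (by linarith)
      refine (mul_nonneg_iff_of_pos_left p).1 ?_
      rw [e]; positivity
    by_contra hc
    rcases mul_neg_iff.1 (not_le.1 hc) with ⟨k1, k2⟩ | ⟨k1, k2⟩
    · have := mul_neg_of_pos_of_neg (sin_pos_of_pos_of_lt_pi k1 (by linarith))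
        (sin_neg_of_neg_of_neg_pi_lt k2 (by linarith))
      linarith
    · have := mul_neg_of_neg_of_pos (sin_neg_of_neg_of_neg_pi_lt k1 (by linarith))
        (sin_pos_of_pos_of_lt_pi k2 (by linarith))
      linarith

theorem wloc_abs {A B P Q ϕ y u : ℝ → ℝ} {C : ℝ} (cA' : ContinuousAt A 0) (cB' : ContinuousAt B 0)
    (cQ : ContinuousAt Q 0) (cϕ : ContinuousAt ϕ 0) (cy : ContinuousAt y 0) (y0 : y 0 = 0)
    (hPQ : ∀ τ, P τ * cos (y τ) = Q τ * sin (y τ))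
    (h : ∀ᶠ τ in 𝓝 (0 : ℝ), A τ * sin (ϕ τ) = B τ * P τ * cos (ϕ τ))
    (hpos : P 0 = 0 → 0 < A 0 * (B 0 * Q 0)) (hyu : ∀ τ, |y τ| ≤ C * |u τ| ∧ 0 ≤ y τ * u τ) :
    Sand u ϕ := by
  have P0 : P 0 = 0 := by simpa [y0] using hPQ 0
  have hpos := hpos P0
  have A0 : A 0 ≠ 0 := fun e => by simp [e] at hpos
  have s0 : sin (ϕ 0) = 0 := by simpa [P0, A0] using h.self_of_nhds
  have c0 : cos (ϕ 0) ≠ 0 := fun e => by
    have := sin_sq_add_cos_sq (ϕ 0)
    simp [s0, e] at this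
  have a0 : 0 < |A 0| / 2 := by have := abs_pos.2 A0; linarith
  have cb : ContinuousAt (fun τ => B τ * Q τ) 0 := cB'.mul cQ
  have e1 : ∀ᶠ τ in 𝓝 (0 : ℝ), 0 < A τ * (B τ * Q τ) :=
    continuousAt_const.eventually_lt (cA'.mul cb) hpos
  have e2 : ∀ᶠ τ in 𝓝 (0 : ℝ), |ϕ τ - ϕ 0| < 1 :=
    (cϕ.sub continuousAt_const).abs.eventually_lt continuousAt_const (by simp)
  have e3 : ∀ᶠ τ in 𝓝 (0 : ℝ), |y τ| < 1 :=
    cy.abs.eventually_lt continuousAt_const (by simp [y0])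
  have e4 : ∀ᶠ τ in 𝓝 (0 : ℝ), |A 0| / 2 < |A τ| :=
    continuousAt_const.eventually_lt cA'.abs (by linarith)
  have e5 : ∀ᶠ τ in 𝓝 (0 : ℝ), |B τ * Q τ| < |B 0 * Q 0| + 1 :=
    cb.abs.eventually_lt continuousAt_const (by simp)
  refine ⟨π * (|B 0 * Q 0| + 1) / (|A 0| / 2) * C, ?_⟩
  filter_upwards [h, e1, e2, e3, e4, e5] with τ h e1 e2 e3 e4 e5
  have r1 : sin (ϕ τ) = cos (ϕ 0) * sin (ϕ τ - ϕ 0) := by
    have : sin (ϕ τ) = sin (ϕ 0 + (ϕ τ - ϕ 0)) := by ring_nf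
    rw [this, sin_add, s0]; ring
  have r2 : cos (ϕ τ) = cos (ϕ 0) * cos (ϕ τ - ϕ 0) := by
    have : cos (ϕ τ) = cos (ϕ 0 + (ϕ τ - ϕ 0)) := by ring_nf
    rw [this, cos_add, s0]; ring
  have k : A τ * sin (ϕ τ - ϕ 0) = B τ * P τ * cos (ϕ τ - ϕ 0) := by
    refine mul_left_cancel₀ c0 ?_
    rw [r1, r2] at h
    linear_combination h
  have k2 : A τ * sin (ϕ τ - ϕ 0) * cos (y τ) = B τ * Q τ * cos (ϕ τ - ϕ 0) * sin (y τ) := by
    linear_combination cos (y τ) * k + B τ * cos (ϕ τ - ϕ 0) * hPQ τ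
  obtain ⟨b1, b2⟩ := wloc_pt k2 e1 e2 e3 a0 e4.le e5.le
  obtain ⟨u1, u2⟩ := hyu τ
  have hC : 0 ≤ π * (|B 0 * Q 0| + 1) / (|A 0| / 2) := by positivity
  refine ⟨b1.trans ((mul_le_mul_of_nonneg_left u1 hC).trans (le_of_eq (by ring))), ?_⟩
  rcases eq_or_ne (y τ) 0 with hy | hy
  · rw [hy, abs_zero, mul_zero] at b1
    rw [abs_nonpos_iff.1 b1, zero_mul]
  · have p : 0 < y τ ^ 2 := by positivity
    refine (mul_nonneg_iff_of_pos_left p).1 ?_
    have := mul_nonneg b2 u2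
    linarith [show y τ ^ 2 * ((ϕ τ - ϕ 0) * u τ) = (ϕ τ - ϕ 0) * y τ * (y τ * u τ) by ring]

theorem wloc_star {θ0 : ℝ} (l : ℕ) (hθ : θ0 = 0 ∨ θ0 = π / 2) :
    sin (θ0 + l * (π / 2)) = 0 ∨ cos (θ0 + l * (π / 2)) = 0 := by
  have : sin (2 * (θ0 + l * (π / 2))) = 0 := by
    rcases hθ with h | h
    · rw [h, show 2 * (0 + l * (π / 2)) = l * π by ring, sin_nat_mul_pi]
    · rw [h, show 2 * (π / 2 + l * (π / 2)) = (l + 1 : ℕ) * π by push_cast; ring, sin_nat_mul_pi]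
  rw [sin_two_mul] at this
  rcases mul_eq_zero.1 this with h | h
  · exact Or.inl (by linarith)
  · exact Or.inr h

theorem wloc_shift {u ϕ : ℝ → ℝ} (h : Sand u fun τ => ϕ τ - π / 2) : Sand u ϕ := by
  obtain ⟨C, h⟩ := h
  refine ⟨C, h.mono fun τ hτ => ?_⟩
  have e : ϕ τ - π / 2 - (ϕ 0 - π / 2) = ϕ τ - ϕ 0 := by ring
  simpa only [e] using hτ

theorem loc {θ0 δ0 : ℝ} {l : ℕ} (hθ : θ0 = 0 ∨ θ0 = π / 2) (hl : 1 ≤ l) (hδ : 0 < δ0) :
    ∃ typ : Bool, ∀ δ ω ϕ : ℝ → ℝ, δ 0 = δ0 → ω 0 = cur θ0 l (mm δ0) → Rp typ δ ω ϕ →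
      Sand (fun τ => ω τ - cur θ0 l (mm (δ τ))) ϕ := by
  obtain ⟨C, -, hC⟩ := wloc_near (36 * (l + 1) ^ 2)
  set θs : ℝ := θ0 + l * (π / 2) with hθs
  have hp : π / 2 ∈ Icc 0 π := ⟨by positivity, by linarith [pi_pos]⟩
  have yu : ∀ d w : ℝ, |th (mm d) w θ0 (π / 2) - θs| ≤ C * |w - cur θ0 l (mm d)| ∧
      0 ≤ (th (mm d) w θ0 (π / 2) - θs) * (w - cur θ0 l (mm d)) := by
    intro d w
    rw [hθs, ← th_half hθ hl (mm_nonneg d) (mm_lt d)]
    refine ⟨hC _ _ _ _ (mm_nonneg d) (mm_lt d) ?_, ?_⟩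
    · rw [abs_of_pos (cur_spec hθ hl (mm_nonneg d) (mm_lt d)).1]
      exact (cur_lt_big hθ hl (mm_nonneg d) (mm_lt d)).le
    · rcases le_total w (cur θ0 l (mm d)) with h | h
      · exact mul_nonneg_of_nonpos_of_nonpos (sub_nonpos.2 (wloc_mono (mm_lt d) h θ0))
          (sub_nonpos.2 h)
      · exact mul_nonneg (sub_nonneg.2 (wloc_mono (mm_lt d) h θ0)) (sub_nonneg.2 h)
  have wr : ∀ d w : ℝ, sx (mm d) w (π / 2) (π / 2) * sy (mm d) w 0 (π / 2) -
      sy (mm d) w (π / 2) (π / 2) * sx (mm d) w 0 (π / 2) = 1 := by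
    intro d w
    have hm := mm_lt_one d
    rw [wronski (s_lin hm w (π / 2)) (s_lin hm w 0) (π / 2)]
    simp [sx_zero hm, sy_zero hm]
  have ct : ∀ δ ω : ℝ → ℝ, ContinuousAt δ 0 → ContinuousAt ω 0 → ∀ θ : ℝ,
      ContinuousAt (fun τ => th (mm (δ τ)) (ω τ) θ (π / 2)) 0 ∧
      ContinuousAt (fun τ => sx (mm (δ τ)) (ω τ) θ (π / 2)) 0 ∧
      ContinuousAt (fun τ => sy (mm (δ τ)) (ω τ) θ (π / 2)) 0 := by
    intro δ ω cδ cω θ
    have cm : Continuous mm := by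
      unfold mm
      exact Continuous.div (by fun_prop) (by fun_prop) fun x => by positivity
    have cc : ContinuousAt (fun τ => (mm (δ τ), ω τ)) 0 :=
      (cm.continuousAt.comp cδ).prodMk cω
    obtain ⟨k1, k2, k3⟩ := s_cont (m := mm (δ 0)) (ω := ω 0) (mm_lt_one _) θ hp
    exact ⟨k1.comp (f := fun τ => (mm (δ τ), ω τ)) cc, k2.comp (f := fun τ => (mm (δ τ), ω τ)) cc,
      k3.comp (f := fun τ => (mm (δ τ), ω τ)) cc⟩
  have y0 : th (mm δ0) (cur θ0 l (mm δ0)) θ0 (π / 2) - θs = 0 := by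
    rw [th_half hθ hl (mm_nonneg δ0) (mm_lt δ0), sub_self]
  rcases wloc_star l hθ with hs | hs
  · have pq : ∀ d w : ℝ, sx (mm d) w θ0 (π / 2) * cos (th (mm d) w θ0 (π / 2) - θs) =
        sy (mm d) w θ0 (π / 2) * sin (th (mm d) w θ0 (π / 2) - θs) := by
      intro d w
      unfold sx sy
      rw [cos_sub, sin_sub, hs]
      ring
    refine ⟨true, fun δ ω ϕ h1 h2 ⟨cδ, cω, cϕ, α, β, cα, cβ, hab, hr⟩ => ?_⟩
    have c := ct δ ω cδ cω
    have cy := (c θ0).1.sub (continuousAt_const (y := θs))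
    have z : th (mm (δ 0)) (ω 0) θ0 (π / 2) - θs = 0 := by rw [h1, h2, y0]
    have w := wr (δ 0) (ω 0)
    simp only [pr, if_true] at hr
    rcases hθ with h | h
    · subst h
      refine wloc_abs (cα.mul (c (π / 2)).2.1) cβ (c 0).2.2 cϕ cy z (fun τ => pq _ _) hr
        (fun P0 => ?_) fun τ => yu _ _
      simp only [Pi.mul_apply] at P0 ⊢
      rw [P0] at w
      have : α 0 * sx (mm (δ 0)) (ω 0) (π / 2) (π / 2) * (β 0 * sy (mm (δ 0)) (ω 0) 0 (π / 2)) =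
          α 0 * β 0 := by linear_combination (α 0 * β 0) * w
      rwa [this]
    · subst h
      refine wloc_shift (wloc_abs (cβ.mul (c 0).2.1) cα.neg (c (π / 2)).2.2
        (cϕ.sub continuousAt_const) cy z (fun τ => pq _ _) (hr.mono fun τ hτ => ?_)
        (fun P0 => ?_) fun τ => yu _ _)
      · simp only [Pi.mul_apply, Pi.neg_apply, sin_sub_pi_div_two, cos_sub_pi_div_two]
        linear_combination hτ
      · simp only [Pi.mul_apply, Pi.neg_apply] at P0 ⊢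
        rw [P0] at w
        have : β 0 * sx (mm (δ 0)) (ω 0) 0 (π / 2) *
            (-α 0 * sy (mm (δ 0)) (ω 0) (π / 2) (π / 2)) = α 0 * β 0 := by
          linear_combination (α 0 * β 0) * w
        rwa [this]
  · have pq : ∀ d w : ℝ, sy (mm d) w θ0 (π / 2) * cos (th (mm d) w θ0 (π / 2) - θs) =
        -sx (mm d) w θ0 (π / 2) * sin (th (mm d) w θ0 (π / 2) - θs) := by
      intro d w
      unfold sx sy
      rw [cos_sub, sin_sub, hs]
      ring
    refine ⟨false, fun δ ω ϕ h1 h2 ⟨cδ, cω, cϕ, α, β, cα, cβ, hab, hr⟩ => ?_⟩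
    have c := ct δ ω cδ cω
    have cy := (c θ0).1.sub (continuousAt_const (y := θs))
    have z : th (mm (δ 0)) (ω 0) θ0 (π / 2) - θs = 0 := by rw [h1, h2, y0]
    have w := wr (δ 0) (ω 0)
    simp only [pr, Bool.false_eq_true, if_false] at hr
    rcases hθ with h | h
    · subst h
      refine wloc_abs (cα.mul (c (π / 2)).2.2) cβ (c 0).2.1.neg cϕ cy z (fun τ => pq _ _) hr
        (fun P0 => ?_) fun τ => yu _ _
      simp only [Pi.mul_apply, Pi.neg_apply] at P0 ⊢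
      rw [P0] at w
      have : α 0 * sy (mm (δ 0)) (ω 0) (π / 2) (π / 2) * (β 0 * -sx (mm (δ 0)) (ω 0) 0 (π / 2)) =
          α 0 * β 0 := by linear_combination (α 0 * β 0) * w
      rwa [this]
    · subst h
      refine wloc_shift (wloc_abs (cβ.mul (c 0).2.2) cα.neg (c (π / 2)).2.1.neg
        (cϕ.sub continuousAt_const) cy z (fun τ => pq _ _) (hr.mono fun τ hτ => ?_)
        (fun P0 => ?_) fun τ => yu _ _)
      · simp only [Pi.mul_apply, Pi.neg_apply, sin_sub_pi_div_two, cos_sub_pi_div_two]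
        linear_combination hτ
      · simp only [Pi.mul_apply, Pi.neg_apply] at P0 ⊢
        rw [P0] at w
        have : β 0 * sy (mm (δ 0)) (ω 0) 0 (π / 2) *
            (-α 0 * -sx (mm (δ 0)) (ω 0) (π / 2) (π / 2)) = α 0 * β 0 := by
          linear_combination (α 0 * β 0) * w
        rwa [this]

end Pool.Agent.HillD
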