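import Pool.Agent.P.MP_ae2765_an.WMom0

/-! The moment expansion. -/

namespace Pool.Agent.HillD
open Real Set Filter Topology Asymptotics

theorem wmom_wal_succ (k : ℕ) : wal (k + 2) = (k + 1) / (k + 2) * wal k := by
  unfold wal
  have h1 : (k + 2) % 2 = k % 2 := by omega
  rw [h1]
  split_ifs with h
  · obtain ⟨m, rfl⟩ : ∃ m, k = 2 * m := ⟨k / 2, by omega⟩
    have e1 : (2 * m + 2) / 2 = m + 1 := by omega
    have e2 : 2 * m / 2 = m := by omega
    rw [e1, e2]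
    have h3 := Nat.succ_mul_centralBinom_succ m
    rw [Nat.centralBinom_eq_two_mul_choose, Nat.centralBinom_eq_two_mul_choose] at h3
    have e3 : 2 * (m + 1) = 2 * m + 2 := by ring
    rw [e3] at h3
    have h4 : ((m : ℝ) + 1) * ((2 * m + 2).choose (m + 1) : ℝ) =
        2 * (2 * m + 1) * ((2 * m).choose m : ℝ) := by exact_mod_cast h3
    have h5 : ((m : ℝ) + 1) ≠ 0 := by positivity
    have h6 : ((2 * m + 2).choose (m + 1) : ℝ) =
        2 * (2 * m + 1) * ((2 * m).choose m : ℝ) / ((m : ℝ) + 1) := by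
      rw [eq_div_iff h5]; linarith
    rw [h6]
    push_cast
    field_simp
    ring
  · simp

theorem wmom_pi (k : ℕ) : ∫ x in (0 : ℝ)..π, cos x ^ k = π * wal k := by
  induction k using Nat.strong_induction_on with
  | _ k ih =>
    match k, ih with
    | 0, _ => simp [wal]
    | 1, _ => simp [wal]
    | k + 2, ih =>
      rw [integral_cos_pow, ih k (by omega), wmom_wal_succ]
      simp only [sin_pi, sin_zero, mul_zero, sub_zero, zero_div, zero_add]
      ring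

theorem wallis (k : ℕ) : ∫ φ in (0 : ℝ)..π / 2, cos (2 * φ) ^ k = π / 2 * wal k := by
  have h := intervalIntegral.integral_comp_mul_left (a := 0) (b := π / 2)
    (fun x => cos x ^ k) (c := 2) two_ne_zero
  rw [h]
  have e1 : (2 : ℝ) * 0 = 0 := by ring
  have e2 : (2 : ℝ) * (π / 2) = π := by ring
  rw [e1, e2, wmom_pi, smul_eq_mul]
  ring

theorem wmom_mono (κ μ : ℝ) (i : ℕ) :
    ∫ φ in (0 : ℝ)..π / 2, cos (2 * φ) ^ i *
      ∑ n ∈ Finset.range 13, gco κ μ n * cos (2 * φ) ^ n = π / 2 * nuc κ μ i := by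
  have e : ∀ φ : ℝ, cos (2 * φ) ^ i * ∑ n ∈ Finset.range 13, gco κ μ n * cos (2 * φ) ^ n =
      ∑ n ∈ Finset.range 13, gco κ μ n * cos (2 * φ) ^ (n + i) := by
    intro φ
    rw [Finset.mul_sum]
    refine Finset.sum_congr rfl fun n _ => ?_
    rw [pow_add]; ring
  simp_rw [e]
  rw [intervalIntegral.integral_finsetSum]
  · unfold nuc
    rw [Finset.mul_sum]
    refine Finset.sum_congr rfl fun n _ => ?_
    rw [intervalIntegral.integral_const_mul, wallis]
    ring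
  · intro n _
    exact Continuous.intervalIntegrable (by fun_prop) _ _

theorem mom_rel {κ μ : ℝ} (hκ0 : 0 ≤ κ) (hκ : κ ≤ 1 / 3) (hμ0 : 0 ≤ μ) (hμ : μ ≤ 1 / 3)
    (h12 : gco κ μ 12 ^ 2 < 1 / 1000000) (h13 : gco κ μ 13 ^ 2 < 1 / 1000000)
    (w0 w1 w2 w3 w4 : ℝ)
    (hw : ∀ c : ℝ, |c| ≤ 1 → 0 ≤ w0 + w1 * c + w2 * c ^ 2 + w3 * c ^ 3 + w4 * c ^ 4) :
    ∃ x : ℝ, 4989 / 5000 ≤ x ∧ x ≤ 5011 / 5000 ∧
      ∫ φ in (0 : ℝ)..π / 2, (w0 + w1 * cos (2 * φ) + w2 * cos (2 * φ) ^ 2 + w3 * cos (2 * φ) ^ 3 +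
          w4 * cos (2 * φ) ^ 4) / ((1 + κ * cos (2 * φ)) * √(1 + κ * cos (2 * φ)) *
            ((1 + μ * cos (2 * φ)) ^ 2 * √(1 + μ * cos (2 * φ)))) =
        π / 2 * ((w0 * nuc κ μ 0 + w1 * nuc κ μ 1 + w2 * nuc κ μ 2 + w3 * nuc κ μ 3 +
          w4 * nuc κ μ 4) * x) := by
  set G : ℝ → ℝ := fun φ => ∑ n ∈ Finset.range 13, gco κ μ n * cos (2 * φ) ^ n with hG
  set w : ℝ → ℝ := fun φ => w0 + w1 * cos (2 * φ) + w2 * cos (2 * φ) ^ 2 +
    w3 * cos (2 * φ) ^ 3 + w4 * cos (2 * φ) ^ 4 with hwd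
  set W : ℝ → ℝ := fun φ => (1 + κ * cos (2 * φ)) * √(1 + κ * cos (2 * φ)) *
    ((1 + μ * cos (2 * φ)) ^ 2 * √(1 + μ * cos (2 * φ))) with hW
  have hGc : Continuous G := by rw [hG]; fun_prop
  have hwc : Continuous w := by rw [hwd]; fun_prop
  have hWc : Continuous W := by rw [hW]; fun_prop
  have hWpos : ∀ φ, 0 < W φ := by
    intro φ
    have h1 := neg_one_le_cos (2 * φ)
    have hu : 0 < 1 + κ * cos (2 * φ) := by nlinarith
    have hv : 0 < 1 + μ * cos (2 * φ) := by nlinarith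
    have := sqrt_pos.2 hu
    have := sqrt_pos.2 hv
    simp only [hW]
    positivity
  have hw0 : ∀ φ, 0 ≤ w φ := fun φ => hw _ (abs_cos_le_one _)
  have hIc : Continuous fun φ => w φ / W φ := hwc.div hWc fun φ => (hWpos φ).ne'
  have hpt : ∀ φ, |G φ * W φ - 1| ≤ 21 / 10000 := fun φ =>
    mom_pt hκ0 hκ hμ0 hμ h12 h13 (abs_cos_le_one _)
  have hpi : (0 : ℝ) ≤ π / 2 := by positivity
  have hI0 : ∀ φ, 0 ≤ w φ / W φ := fun φ => div_nonneg (hw0 φ) (hWpos φ).le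
  have hwG : ∀ φ, w φ * G φ = w φ / W φ * (G φ * W φ) := by
    intro φ
    have := (hWpos φ).ne'
    field_simp
  have hlo : ∀ φ, 9979 / 10000 * (w φ / W φ) ≤ w φ * G φ := by
    intro φ
    rw [hwG]
    have := (abs_le.1 (hpt φ)).1
    nlinarith [hI0 φ]
  have hhi : ∀ φ, w φ * G φ ≤ 10021 / 10000 * (w φ / W φ) := by
    intro φ
    rw [hwG]
    have := (abs_le.1 (hpt φ)).2
    nlinarith [hI0 φ]
  set A : ℝ := ∫ φ in (0 : ℝ)..π / 2, w φ / W φ with hA
  set S : ℝ := w0 * nuc κ μ 0 + w1 * nuc κ μ 1 + w2 * nuc κ μ 2 + w3 * nuc κ μ 3 +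
    w4 * nuc κ μ 4 with hS
  have hB : ∫ φ in (0 : ℝ)..π / 2, w φ * G φ = π / 2 * S := by
    have e : ∀ φ, w φ * G φ = w0 * (cos (2 * φ) ^ 0 * G φ) + w1 * (cos (2 * φ) ^ 1 * G φ) +
        w2 * (cos (2 * φ) ^ 2 * G φ) + w3 * (cos (2 * φ) ^ 3 * G φ) +
        w4 * (cos (2 * φ) ^ 4 * G φ) := by
      intro φ
      simp only [hwd]
      ring
    have hi : ∀ (a : ℝ) (i : ℕ), IntervalIntegrable (fun φ => a * (cos (2 * φ) ^ i * G φ))
        MeasureTheory.volume 0 (π / 2) := fun a i =>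
      Continuous.intervalIntegrable (by fun_prop) _ _
    simp_rw [e]
    rw [intervalIntegral.integral_add ((((hi _ _).add (hi _ _)).add (hi _ _)).add (hi _ _)) (hi _ _),
      intervalIntegral.integral_add (((hi _ _).add (hi _ _)).add (hi _ _)) (hi _ _),
      intervalIntegral.integral_add ((hi _ _).add (hi _ _)) (hi _ _),
      intervalIntegral.integral_add (hi _ _) (hi _ _)]
    simp only [intervalIntegral.integral_const_mul, hG, wmom_mono]
    rw [hS]
    ring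
  have hiI : IntervalIntegrable (fun φ => w φ / W φ) MeasureTheory.volume 0 (π / 2) :=
    hIc.intervalIntegrable _ _
  have hiB : IntervalIntegrable (fun φ => w φ * G φ) MeasureTheory.volume 0 (π / 2) :=
    (hwc.mul hGc).intervalIntegrable _ _
  have h1 : 9979 / 10000 * A ≤ π / 2 * S := by
    rw [← hB, hA, ← intervalIntegral.integral_const_mul]
    exact intervalIntegral.integral_mono_on hpi (hiI.const_mul _) hiB fun φ _ => hlo φ
  have h2 : π / 2 * S ≤ 10021 / 10000 * A := by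
    rw [← hB, hA, ← intervalIntegral.integral_const_mul]
    exact intervalIntegral.integral_mono_on hpi hiB (hiI.const_mul _) fun φ _ => hhi φ
  have hA0 : 0 ≤ A := intervalIntegral.integral_nonneg hpi fun φ _ => hI0 φ
  show ∃ x : ℝ, 4989 / 5000 ≤ x ∧ x ≤ 5011 / 5000 ∧ A = π / 2 * (S * x)
  rcases hA0.eq_or_lt with h0 | h0
  · refine ⟨1, by norm_num, by norm_num, ?_⟩
    rw [← h0] at h1 h2
    rw [← h0]
    linarith
  · have hBpos : 0 < π / 2 * S := by linarith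
    refine ⟨A / (π / 2 * S), ?_, ?_, ?_⟩
    · rw [le_div_iff₀ hBpos]; linarith
    · rw [div_le_iff₀ hBpos]; linarith
    · rw [← mul_assoc, mul_div_cancel₀ _ hBpos.ne']

end Pool.Agent.HillD
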