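import Pool.Agent.P.MP_ae2765_an.WDef

/-! The moment expansion. -/

namespace Pool.Agent.HillD
open Real Set Filter Topology Asymptotics

lemma wmom0_rec (κ μ : ℝ) (n : ℕ) : ((n : ℝ) + 2) * gco κ μ (n + 2) =
    -((((n : ℝ) + 1) * (κ + μ) + (3 / 2 * κ + 5 / 2 * μ)) * gco κ μ (n + 1) +
      ((n : ℝ) + 4) * (κ * μ * gco κ μ n)) := by
  have h : ((n : ℝ) + 2) ≠ 0 := by positivity
  rw [gco]
  push_cast
  field_simp

lemma wmom0_id (κ μ x : ℝ) (N : ℕ) :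
    (1 + κ * x) * (1 + μ * x) * (∑ n ∈ Finset.range (N + 1), gco κ μ n * (n * x ^ (n - 1))) +
      (3 / 2 * κ + 5 / 2 * μ + 4 * (κ * μ) * x) * ∑ n ∈ Finset.range (N + 1), gco κ μ n * x ^ n =
    -(((N : ℝ) + 1) * gco κ μ (N + 1)) * x ^ N + ((N : ℝ) + 4) * (κ * μ) * gco κ μ N * x ^ (N + 1) := by
  induction N with
  | zero =>
    simp only [zero_add, Finset.range_one, Finset.sum_singleton, gco]
    push_cast
    ring
  | succ N ih =>
    rw [Finset.sum_range_succ _ (N + 1), Finset.sum_range_succ _ (N + 1), Nat.add_sub_cancel]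
    have h := wmom0_rec κ μ N
    push_cast
    linear_combination ih + x ^ (N + 1) * h

lemma wmom0_mvt {h h' : ℝ → ℝ} {K c : ℝ} (hK : 0 ≤ K)
    (hd : ∀ x ∈ Icc (-1 : ℝ) 1, HasDerivAt h (h' x) x)
    (hb : ∀ x ∈ Icc (-1 : ℝ) 1, |h' x| ≤ 13 * K * x ^ 12) (hc : |c| ≤ 1) : |h c - h 0| ≤ K := by
  have hB : ∀ x : ℝ, HasDerivAt (fun x : ℝ => K * x ^ 13) (13 * K * x ^ 12) x := fun x => by
    refine ((hasDerivAt_pow 13 x).const_mul K).congr_deriv ?_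
    push_cast
    ring
  have key : ∀ (f f' : ℝ → ℝ), (∀ x ∈ Icc (-1 : ℝ) 1, HasDerivAt f (f' x) x) →
      (∀ x ∈ Icc (-1 : ℝ) 1, 0 ≤ f' x) → MonotoneOn f (Icc (-1 : ℝ) 1) := fun f f' a b =>
    monotoneOn_of_hasDerivWithinAt_nonneg (f' := f') (convex_Icc _ _)
      (fun x hx => (a x hx).continuousAt.continuousWithinAt)
      (fun x hx => (a x (interior_subset hx)).hasDerivWithinAt)
      (fun x hx => b x (interior_subset hx))
  have m1 := key (fun x => K * x ^ 13 - h x) (fun x => 13 * K * x ^ 12 - h' x)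
    (fun x hx => (hB x).sub (hd x hx)) (fun x hx => sub_nonneg.2 (abs_le.1 (hb x hx)).2)
  have m2 := key (fun x => K * x ^ 13 + h x) (fun x => 13 * K * x ^ 12 + h' x)
    (fun x hx => (hB x).add (hd x hx)) (fun x hx => by linarith [(abs_le.1 (hb x hx)).1])
  have hc' : c ∈ Icc (-1 : ℝ) 1 := abs_le.1 hc
  have h0 : (0 : ℝ) ∈ Icc (-1 : ℝ) 1 := ⟨by norm_num, by norm_num⟩
  have hp : |K * c ^ 13| ≤ K := by
    rw [abs_mul, abs_of_nonneg hK, abs_pow]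
    exact mul_le_of_le_one_right hK (pow_le_one₀ (abs_nonneg _) hc)
  obtain ⟨p1, p2⟩ := abs_le.1 hp
  rcases le_total 0 c with h1 | h1
  · have a1 := m1 h0 hc' h1
    have a2 := m2 h0 hc' h1
    simp only [ne_eq, OfNat.ofNat_ne_zero, not_false_eq_true, zero_pow, mul_zero] at a1 a2
    rw [abs_le]
    constructor <;> linarith
  · have a1 := m1 hc' h0 h1
    have a2 := m2 hc' h0 h1
    simp only [ne_eq, OfNat.ofNat_ne_zero, not_false_eq_true, zero_pow, mul_zero] at a1 a2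
    rw [abs_le]
    constructor <;> linarith

lemma wmom0_lin {κ x : ℝ} (hκ0 : 0 ≤ κ) (hκ : κ ≤ 1 / 3) (hx : x ∈ Icc (-1 : ℝ) 1) :
    0 < 1 + κ * x ∧ 1 + κ * x ≤ 4 / 3 := by
  obtain ⟨h1, h2⟩ := hx
  constructor <;> nlinarith

lemma wmom0_deriv {κ μ x : ℝ} (hu : 0 < 1 + κ * x) (hv : 0 < 1 + μ * x) :
    HasDerivAt (fun c => (∑ n ∈ Finset.range 13, gco κ μ n * c ^ n) *
      ((1 + κ * c) * √(1 + κ * c) * ((1 + μ * c) ^ 2 * √(1 + μ * c))))
      (√(1 + κ * x) * ((1 + μ * x) * √(1 + μ * x)) *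
        (-(13 * gco κ μ 13) * x ^ 12 + 16 * (κ * μ) * gco κ μ 12 * x ^ 13)) x := by
  have hG : HasDerivAt (fun c => ∑ n ∈ Finset.range 13, gco κ μ n * c ^ n)
      (∑ n ∈ Finset.range 13, gco κ μ n * (n * x ^ (n - 1))) x :=
    HasDerivAt.fun_sum fun n _ => (hasDerivAt_pow n x).const_mul _
  have hU : HasDerivAt (fun c => 1 + κ * c) κ x := by
    simpa using ((hasDerivAt_id x).const_mul κ).const_add 1
  have hV : HasDerivAt (fun c => 1 + μ * c) μ x := by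
    simpa using ((hasDerivAt_id x).const_mul μ).const_add 1
  have h := hG.mul ((hU.mul (hU.sqrt hu.ne')).mul ((hV.pow 2).mul (hV.sqrt hv.ne')))
  have hid := wmom0_id κ μ x 12
  have ha : √(1 + κ * x) ^ 2 = 1 + κ * x := Real.sq_sqrt hu.le
  have hb : √(1 + μ * x) ^ 2 = 1 + μ * x := Real.sq_sqrt hv.le
  have ha0 : √(1 + κ * x) ≠ 0 := (Real.sqrt_pos.2 hu).ne'
  have hb0 : √(1 + μ * x) ≠ 0 := (Real.sqrt_pos.2 hv).ne'
  refine h.congr_deriv ?_
  simp only [Pi.mul_apply, Pi.pow_apply]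
  have e1 : (1 + κ * x) * (κ / (2 * √(1 + κ * x))) = κ / 2 * √(1 + κ * x) := by
    field_simp
    rw [ha]
  have e2 : (1 + μ * x) ^ 2 * (μ / (2 * √(1 + μ * x))) = μ / 2 * ((1 + μ * x) * √(1 + μ * x)) := by
    field_simp
    rw [hb]
  rw [e1, e2]
  norm_num at hid ⊢
  linear_combination (√(1 + κ * x) * ((1 + μ * x) * √(1 + μ * x))) * hid

theorem mom_pt {κ μ c : ℝ} (hκ0 : 0 ≤ κ) (hκ : κ ≤ 1 / 3) (hμ0 : 0 ≤ μ) (hμ : μ ≤ 1 / 3)
    (h12 : gco κ μ 12 ^ 2 < 1 / 1000000) (h13 : gco κ μ 13 ^ 2 < 1 / 1000000) (hc : |c| ≤ 1) :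
    |(∑ n ∈ Finset.range 13, gco κ μ n * c ^ n) *
      ((1 + κ * c) * √(1 + κ * c) * ((1 + μ * c) ^ 2 * √(1 + μ * c))) - 1| ≤ 21 / 10000 := by
  have g12 : |gco κ μ 12| ≤ 1 / 1000 := abs_le_of_sq_le_sq' (by linarith) (by norm_num) |> abs_le.2
  have g13 : |gco κ μ 13| ≤ 1 / 1000 := abs_le_of_sq_le_sq' (by linarith) (by norm_num) |> abs_le.2
  have h := wmom0_mvt (K := 21 / 10000) (c := c) (by norm_num)
    (fun x hx => wmom0_deriv (wmom0_lin hκ0 hκ hx).1 (wmom0_lin hμ0 hμ hx).1) (fun x hx => ?_) hc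
  · have e : (∑ n ∈ Finset.range 13, gco κ μ n * (0 : ℝ) ^ n) = 1 := by
      rw [Finset.sum_range_succ']
      simp [gco]
    rw [e] at h
    simpa using h
  · obtain ⟨u0, u1⟩ := wmom0_lin hκ0 hκ hx
    obtain ⟨v0, v1⟩ := wmom0_lin hμ0 hμ hx
    have a1 : √(1 + κ * x) * √(1 + μ * x) ≤ 4 / 3 := by
      rw [← Real.sqrt_mul u0.le]
      refine Real.sqrt_le_iff.2 ⟨by norm_num, ?_⟩
      nlinarith
    have a0 : 0 ≤ √(1 + κ * x) * √(1 + μ * x) := by positivity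
    have a2 : √(1 + κ * x) * ((1 + μ * x) * √(1 + μ * x)) ≤ 16 / 9 := by nlinarith
    have a3 : 0 ≤ √(1 + κ * x) * ((1 + μ * x) * √(1 + μ * x)) := by positivity
    have x12 : 0 ≤ x ^ 12 := by positivity
    have hx1 : |x| ≤ 1 := abs_le.2 hx
    have P0 : 0 ≤ κ * μ := mul_nonneg hκ0 hμ0
    have P1 : κ * μ ≤ 1 / 9 := by nlinarith
    have b1 : |-(13 * gco κ μ 13) + 16 * (κ * μ) * (gco κ μ 12 * x)| ≤ 13 / 1000 + 16 / 9000 := by
      refine (abs_add_le _ _).trans (add_le_add ?_ ?_)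
      · rw [abs_neg, abs_mul, abs_of_pos (by norm_num : (0 : ℝ) < 13)]
        linarith
      · rw [abs_mul, abs_of_nonneg (by positivity : 0 ≤ 16 * (κ * μ)), abs_mul]
        have : |gco κ μ 12| * |x| ≤ 1 / 1000 :=
          (mul_le_of_le_one_right (abs_nonneg _) hx1).trans g12
        have h0 : 0 ≤ |gco κ μ 12| * |x| := by positivity
        nlinarith
    have e : -(13 * gco κ μ 13) * x ^ 12 + 16 * (κ * μ) * gco κ μ 12 * x ^ 13
        = (-(13 * gco κ μ 13) + 16 * (κ * μ) * (gco κ μ 12 * x)) * x ^ 12 := by ring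
    rw [e, abs_mul, abs_of_nonneg a3, abs_mul, abs_of_nonneg x12, ← mul_assoc]
    refine mul_le_mul_of_nonneg_right ?_ x12
    calc _ ≤ (16 / 9 : ℝ) * (13 / 1000 + 16 / 9000) :=
          mul_le_mul a2 b1 (abs_nonneg _) (by norm_num)
      _ ≤ _ := by norm_num

end Pool.Agent.HillD
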