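import Pool.Agent.P.MP_ae2765_an.WSa

/-! Large amplitude: the main term. -/

namespace Pool.Agent.HillD
open Real Set Filter Topology Asymptotics

variable {φ1 ω j s : ℝ}

theorem wo1_alg {s w w1 β c : ℝ} (hs0 : 0 ≤ s) (hs1 : s ≤ 1) (hw0 : 0 ≤ w) (hw : w ≤ 1)
    (hw1 : w ≤ w1) (hβ0 : 0 ≤ β) (hβ : β ≤ c * w) :
    w * (3 - 7 / 2 * s + 3 / 4 * s ^ 2 - (2 - s) ^ 2 / 4 * w1 - 5 * c) -
      s / 2 * el1 s (1 - w) (1 - β) ≤
      2 * ((el2 s (1 - w) (1 - β) + el1 s (1 - w) (1 - β) ^ 2) / 2) := by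
  have h1 : 0 ≤ w * ((2 - s) ^ 2 / 4 * (w1 - w)) :=
    mul_nonneg hw0 (mul_nonneg (by positivity) (sub_nonneg.2 hw1))
  have h2 : 0 ≤ β * (2 + 3 * β + 3 / 2 * s - (2 - s) * w) := by
    apply mul_nonneg hβ0
    have : 0 ≤ s * w := mul_nonneg hs0 hw0
    nlinarith
  have h3 : 2 * ((el2 s (1 - w) (1 - β) + el1 s (1 - w) (1 - β) ^ 2) / 2) -
      (w * (3 - 7 / 2 * s + 3 / 4 * s ^ 2 - (2 - s) ^ 2 / 4 * w1 - 5 * c) -
      s / 2 * el1 s (1 - w) (1 - β)) = w * ((2 - s) ^ 2 / 4 * (w1 - w)) +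
        β * (2 + 3 * β + 3 / 2 * s - (2 - s) * w) + 5 * (c * w - β) := by
    unfold el1 el2
    ring
  linarith

theorem wo1_pt (hω : 0 < ω) (hj : 0 < j) (hj2 : j < 1 / 2) (ht : ω * j ≤ 1) (φ : ℝ) :
    yv ω j φ = 1 - ω * j / Pr ω j φ ∧ bv j φ = 1 - 2 * j / Qr j φ ∧ 0 ≤ ω * j / Pr ω j φ ∧
      ω * j / Pr ω j φ ≤ 1 ∧ 0 ≤ 2 * j / Qr j φ ∧
      2 * j / Qr j φ ≤ 2 / ω * (ω * j / Pr ω j φ) := by
  obtain ⟨hP, hQ, -⟩ := real_axis (φ := φ) hω hj hj2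
  have hκ : 0 ≤ (1 - 2 * j) * cos φ ^ 2 := mul_nonneg (by linarith) (sq_nonneg _)
  refine ⟨?_, ?_, by positivity, ?_, by positivity, ?_⟩
  · unfold yv
    rw [eq_sub_iff_add_eq, ← add_div, div_eq_one_iff_eq hP.ne']
    unfold Pr
    ring
  · unfold bv
    rw [eq_sub_iff_add_eq, ← add_div, div_eq_one_iff_eq hQ.ne']
    unfold Qr
    ring
  · rw [div_le_one hP]
    unfold Pr
    linarith
  · have e : 2 / ω * (ω * j / Pr ω j φ) = 2 * j / Pr ω j φ := by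
      field_simp
    rw [e]
    apply div_le_div_of_nonneg_left (by positivity) hP
    unfold Pr Qr
    linarith

theorem wo1_mono (hω : 0 < ω) (hj : 0 < j) (hj2 : j < 1 / 2) (h1 : φ1 ≤ π / 2) {φ : ℝ}
    (hφ : φ ∈ Icc 0 φ1) : ω * j / Pr ω j φ ≤ ω * j / Pr ω j φ1 := by
  obtain ⟨hP, -⟩ := real_axis (φ := φ1) hω hj hj2
  apply div_le_div_of_nonneg_left (by positivity) hP
  have hc : cos φ1 ≤ cos φ :=
    cos_le_cos_of_nonneg_of_le_pi hφ.1 (by linarith [pi_pos]) hφ.2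
  have hc0 : 0 ≤ cos φ1 :=
    cos_nonneg_of_mem_Icc ⟨by linarith [pi_pos, hφ.1, hφ.2], h1⟩
  have : cos φ1 ^ 2 ≤ cos φ ^ 2 := pow_le_pow_left₀ hc0 hc 2
  have := mul_le_mul_of_nonneg_left this (show 0 ≤ 1 - 2 * j by linarith)
  unfold Pr
  linarith

theorem O_F (hω : 0 < ω) (hj : 0 < j) (hj2 : j < 1 / 2) (ht : ω * j ≤ 1) (h0 : 0 ≤ φ1)
    (h1 : φ1 ≤ π / 2) (hs0 : 0 ≤ s) (hs1 : s ≤ 1) :
    0 ≤ O1 φ1 ω j ∧ s / 2 * (Mn φ1 ω j + O1 φ1 ω j) - O1 φ1 ω j ≤ F1 φ1 ω j s ∧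
      O1 φ1 ω j * (3 - 7 / 2 * s + 3 / 4 * s ^ 2 - (2 - s) ^ 2 / 4 * (ω * j / Pr ω j φ1) - 10 / ω) -
        s / 2 * F1 φ1 ω j s ≤ 2 * F2 φ1 ω j s := by
  obtain ⟨cq, cy, cb, cw⟩ := qr_cont hω hj hj2
  have hq : ∀ φ, 0 ≤ qr ω j φ := fun φ => (real_axis (φ := φ) hω hj hj2).2.2.1.le
  have c1 : Continuous fun φ => el1 s (yv ω j φ) (bv j φ) := by
    unfold el1
    fun_prop
  have c2 : Continuous fun φ => el2 s (yv ω j φ) (bv j φ) := by
    unfold el2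
    fun_prop
  have iM : IntervalIntegrable (qr ω j) MeasureTheory.volume 0 φ1 := cq.intervalIntegrable _ _
  have iO : IntervalIntegrable (fun φ => qr ω j φ * (ω * j / Pr ω j φ)) MeasureTheory.volume 0 φ1 :=
    (cq.mul cw).intervalIntegrable _ _
  have i1 : IntervalIntegrable (fun φ => qr ω j φ * el1 s (yv ω j φ) (bv j φ))
      MeasureTheory.volume 0 φ1 := (cq.mul c1).intervalIntegrable _ _
  have i2 : IntervalIntegrable (fun φ => qr ω j φ *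
      ((el2 s (yv ω j φ) (bv j φ) + el1 s (yv ω j φ) (bv j φ) ^ 2) / 2))
      MeasureTheory.volume 0 φ1 :=
    (cq.mul ((c2.add (c1.pow 2)).div_const 2)).intervalIntegrable _ _
  refine ⟨?_, ?_, ?_⟩
  · exact intervalIntegral.integral_nonneg h0 fun φ _ =>
      mul_nonneg (hq φ) (wo1_pt hω hj hj2 ht φ).2.2.1
  · unfold Mn O1 F1
    rw [← intervalIntegral.integral_add iM iO, ← intervalIntegral.integral_const_mul,
      ← intervalIntegral.integral_sub ((iM.add iO).const_mul _) iO]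
    refine intervalIntegral.integral_mono_on h0 (((iM.add iO).const_mul _).sub iO) i1 ?_
    intro φ _
    obtain ⟨ey, eb, -, -, hβ, -⟩ := wo1_pt hω hj hj2 ht φ
    rw [ey, eb]
    have := mul_nonneg (hq φ) hβ
    unfold el1
    nlinarith
  · unfold O1 F1 F2
    rw [← intervalIntegral.integral_mul_const, ← intervalIntegral.integral_const_mul,
      ← intervalIntegral.integral_const_mul,
      ← intervalIntegral.integral_sub (iO.mul_const _) (i1.const_mul _)]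
    refine intervalIntegral.integral_mono_on h0 ((iO.mul_const _).sub (i1.const_mul _))
      (i2.const_mul _) ?_
    intro φ hφ
    obtain ⟨ey, eb, hw0, hw, hβ0, hβ⟩ := wo1_pt hω hj hj2 ht φ
    have key := mul_le_mul_of_nonneg_left
      (wo1_alg hs0 hs1 hw0 hw (wo1_mono hω hj hj2 h1 hφ) hβ0 hβ) (hq φ)
    rw [ey, eb]
    have e : 10 / ω = 5 * (2 / ω) := by ring
    rw [e]
    linarith

end Pool.Agent.HillD
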