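import Pool.Agent.P.MP_ae2765_an.WP3p
import Pool.Agent.P.MP_ae2765_an.WErr

/-! Third region: parameters, and estimates on the disc of radius `1 / 4`. -/

namespace Pool.Agent.HillD
open Real Set Filter Topology Asymptotics

theorem wp3a_poly {c1 c2 c3 m1 m2 m3 : ℝ} {τ : ℂ} (hτ : ‖τ‖ ≤ 1 / 4) (h1 : |c1| ≤ m1)
    (h2 : |c2| ≤ m2) (h3 : |c3| ≤ m3) :
    ‖(c1 : ℂ) * τ + (c2 : ℂ) * τ ^ 2 + (c3 : ℂ) * τ ^ 3‖ ≤ m1 / 4 + m2 / 16 + m3 / 64 := by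
  have hn := norm_nonneg τ
  have t2 : ‖τ‖ ^ 2 ≤ (1 / 4) ^ 2 := pow_le_pow_left₀ hn hτ 2
  have t3 : ‖τ‖ ^ 3 ≤ (1 / 4) ^ 3 := pow_le_pow_left₀ hn hτ 3
  have a1 : ‖(c1 : ℂ) * τ‖ ≤ m1 * (1 / 4) := by
    rw [norm_mul, Complex.norm_real, Real.norm_eq_abs]
    exact mul_le_mul h1 hτ hn ((abs_nonneg _).trans h1)
  have a2 : ‖(c2 : ℂ) * τ ^ 2‖ ≤ m2 * (1 / 4) ^ 2 := by
    rw [norm_mul, norm_pow, Complex.norm_real, Real.norm_eq_abs]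
    exact mul_le_mul h2 t2 (by positivity) ((abs_nonneg _).trans h2)
  have a3 : ‖(c3 : ℂ) * τ ^ 3‖ ≤ m3 * (1 / 4) ^ 3 := by
    rw [norm_mul, norm_pow, Complex.norm_real, Real.norm_eq_abs]
    exact mul_le_mul h3 t3 (by positivity) ((abs_nonneg _).trans h3)
  refine norm_add₃_le.trans ?_
  linarith

theorem wp3a_one {z : ℂ} {m : ℝ} (h : ‖z‖ ≤ m) :
    (1 - m ≤ ‖1 + z‖ ∧ ‖1 + z‖ ≤ 1 + m) ∧ 1 - m ≤ ‖1 - z‖ ∧ ‖1 - z‖ ≤ 1 + m := by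
  have a1 := norm_add_le (1 : ℂ) z
  have a2 := norm_sub_le (1 : ℂ) z
  have a3 := norm_sub_norm_le (1 : ℂ) z
  have a4 := norm_sub_norm_le (1 : ℂ) (-z)
  rw [sub_neg_eq_add, norm_neg] at a4
  rw [norm_one] at a1 a2 a3 a4
  refine ⟨⟨?_, ?_⟩, ?_, ?_⟩ <;> linarith

/-- the two polynomial bounds along the curve -/
theorem wp3a_DN {κ al χ sg : ℝ} {τ D : ℂ} (hk : 4999 / 5000 ≤ κ) (hk1 : κ ≤ 1) (hal : 0 < al)
    (hal2 : al ≤ 3953 / 2500) (hχ0 : 0 ≤ χ) (hχ1 : χ ≤ 1) (hs0 : 0 ≤ sg) (hs1 : sg ≤ 3 / 5)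
    (hτ : ‖τ‖ ≤ 1 / 4)
    (hD : D = (-(2 * κ * al * χ) : ℝ) * τ + ((4 * κ ^ 2 - κ) * χ ^ 2 : ℝ) * τ ^ 2) :
    ‖D‖ ≤ al / 2 + 3 / 16 ∧
      ‖((al ^ 2 : ℝ) + D) * (1 + sg * τ) - (al ^ 2 : ℝ)‖ ≤ al / 2 + 69 / 320 := by
  have k0 : 0 ≤ κ := by linarith
  have b0 : 0 ≤ κ * χ := mul_nonneg k0 hχ0
  have b1 : κ * χ ≤ 1 := mul_le_one₀ hk1 hχ0 hχ1
  have c0 : 0 ≤ 2 * κ * al * χ := by positivity
  have c1 : 2 * κ * al * χ ≤ 2 * al := by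
    linarith only [mul_le_mul_of_nonneg_left b1 hal.le]
  have d0 : 0 ≤ 4 * κ ^ 2 - κ := by nlinarith only [hk]
  have d1 : 4 * κ ^ 2 - κ ≤ 3 := by nlinarith only [hk1, k0]
  have x0 : 0 ≤ χ ^ 2 := sq_nonneg _
  have x1 : χ ^ 2 ≤ 1 := pow_le_one₀ hχ0 hχ1
  have e0 : 0 ≤ (4 * κ ^ 2 - κ) * χ ^ 2 := mul_nonneg d0 x0
  have e1 : (4 * κ ^ 2 - κ) * χ ^ 2 ≤ 3 := by
    linarith only [mul_le_mul d1 x1 x0 (by norm_num)]
  generalize 2 * κ * al * χ = p at hD c0 c1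
  generalize (4 * κ ^ 2 - κ) * χ ^ 2 = q at hD e0 e1
  constructor
  · have := wp3a_poly (c1 := -p) (c2 := q) (c3 := 0) (m1 := 2 * al) (m2 := 3) (m3 := 0) hτ
      (abs_le.2 ⟨by linarith, by linarith⟩) (abs_le.2 ⟨by linarith, by linarith⟩) (by simp)
    rw [Complex.ofReal_zero, zero_mul, add_zero, ← hD] at this
    linarith
  · have f0 : 0 ≤ al ^ 2 * sg := by positivity
    have f1 : al ^ 2 * sg ≤ 2 * al := by
      linarith only [mul_le_mul_of_nonneg_left hs1 (sq_nonneg al), hal,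
        mul_le_mul_of_nonneg_left hal2 hal.le]
    have g0 : 0 ≤ p * sg := mul_nonneg c0 hs0
    have g1 : p * sg ≤ 3 := by linarith only [mul_le_mul c1 hs1 hs0 (by positivity), hal2]
    have i0 : 0 ≤ q * sg := mul_nonneg e0 hs0
    have i1 : q * sg ≤ 9 / 5 := by linarith only [mul_le_mul e1 hs1 hs0 (by norm_num)]
    have := wp3a_poly (c1 := al ^ 2 * sg - p) (c2 := q - p * sg) (c3 := q * sg) (m1 := 2 * al)
      (m2 := 3) (m3 := 9 / 5) hτ (abs_le.2 ⟨by linarith, by linarith⟩)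
      (abs_le.2 ⟨by linarith, by linarith⟩) (abs_le.2 ⟨by linarith, by linarith⟩)
    have e : ((al ^ 2 : ℝ) + D) * (1 + sg * τ) - (al ^ 2 : ℝ) =
        ((al ^ 2 * sg - p : ℝ) : ℂ) * τ + ((q - p * sg : ℝ) : ℂ) * τ ^ 2 +
          ((q * sg : ℝ) : ℂ) * τ ^ 3 := by
      rw [hD]; push_cast; ring
    rw [e]
    linarith

/-- the quotient `ρ` -/
theorem wp3a_rho {al : ℝ} {W e : ℂ} (hal : 0 < al) (hal2 : al ≤ 3953 / 2500)
    (ha : al ^ 2 ≤ 5 / 2) (hW : ‖W - (al ^ 2 : ℝ)‖ ≤ al / 2 + 69 / 320)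
    (he : ‖e‖ ≤ 13 / 100000) :
    ‖W / (1 - e) - (al ^ 2 : ℝ)‖ ≤ al / 2 + 11 / 50 := by
  have h1 := (wp3a_one he).2.1
  have h2 : 0 < ‖1 - e‖ := by linarith
  have h3 : 1 - e ≠ 0 := norm_pos_iff.1 h2
  have e1 : W / (1 - e) - (al ^ 2 : ℝ) = (W - (al ^ 2 : ℝ) + (al ^ 2 : ℝ) * e) / (1 - e) := by
    field_simp
    ring
  have h4 : ‖((al ^ 2 : ℝ) : ℂ) * e‖ ≤ 5 / 2 * (13 / 100000) := by
    rw [norm_mul, Complex.norm_real, Real.norm_eq_abs, abs_of_nonneg (sq_nonneg _)]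
    exact mul_le_mul ha he (norm_nonneg _) (by norm_num)
  have h5 := norm_add_le (W - (al ^ 2 : ℝ)) (((al ^ 2 : ℝ) : ℂ) * e)
  rw [e1, norm_div, div_le_iff₀ h2]
  have h6 : (al / 2 + 11 / 50) * (1 - 13 / 100000) ≤ (al / 2 + 11 / 50) * ‖1 - e‖ :=
    mul_le_mul_of_nonneg_left h1 (by linarith)
  linarith

theorem wp3a_nu : (13 / (16 * 1062) + 1 / 1062 ^ 2 : ℝ) ^ 2 * (π * √(7 / 5 * 1062)) ≤
    (9 / 1000) ^ 2 := by
  have h1 : √(7 / 5 * 1062 : ℝ) ≤ 39 := Real.sqrt_le_iff.2 ⟨by norm_num, by norm_num⟩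
  have h2 : π * √(7 / 5 * 1062 : ℝ) ≤ 315 / 100 * 39 :=
    mul_le_mul (by linarith [Real.pi_lt_d2]) h1 (Real.sqrt_nonneg _) (by norm_num)
  refine (mul_le_mul_of_nonneg_left h2 (sq_nonneg _)).trans ?_
  norm_num

theorem p3_disc {δ0 ω0 j0 al s1 x1 χ sg φ1 B : ℝ} {τ : ℂ}
    (hδ : 0 < δ0) (hω : 1250 ≤ ω0) (ej : j0 = jj δ0) (hal : 0 < al) (ea : al ^ 2 = aa ω0 j0)
    (ha : al ^ 2 ≤ 5 / 2) (es : s1 = 10 - 2 * al ^ 2)
    (ex : x1 = s1 / (2 * √(2 * ω0 * (1 - 2 * j0))))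
    (hχ0 : 0 ≤ χ) (hχ1 : χ ≤ 1) (hs0 : 0 ≤ sg) (hs1 : sg ≤ 3 / 5) (h0 : π / 4 ≤ φ1)
    (h1 : φ1 ≤ π / 2) (hφ : cos φ1 ^ 2 = x1)
    (hB : B = 1 / 4 * s1 ^ 2 * (s1 * al ^ 2 + 1 / 4 * s1 ^ 2)⁻¹) (hτ : ‖τ‖ ≤ 1 / 4) :
    Wk φ1 (lΩ ω0 sg τ) (cJ j0 (χ / al) τ) (211 / 500) (49 / 50) (p3N al B) (p3T al B)
        (fun _ => p3b al B) (fun _ => 0) ∧
      ‖2 * lΩ ω0 sg τ ^ 2 * cJ j0 (χ / al) τ * x1‖ ≤ 47 / 2 ∧
      ‖2 * lΩ ω0 sg τ * (1 - 2 * cJ j0 (χ / al) τ) * x1 ^ 2‖ ≤ 29 ∧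
      ‖(1 - 2 * cJ j0 (χ / al) τ) * x1 ^ 2‖ ≤ 51 / 5000 ∧
      ‖2 * cJ j0 (χ / al) τ * x1‖ ≤ 3 / 250000 := by
  obtain ⟨hal2, hk, hXD, hx0, hx1, hnu, hjk, hb, hA0, hB0, -⟩ := p3_par hδ hω ej hal ea ha es ex
  have hj0 : 0 < j0 := ej ▸ (jj_bd hδ).1
  have hsq : (2 * √(2 * ω0 * (1 - 2 * j0))) ^ 2 = 8 * ω0 * (1 - 2 * j0) := by
    rw [mul_pow, Real.sq_sqrt (mul_nonneg (by linarith only [hω]) (by linarith only [hk]))]; ring
  obtain ⟨XD, eXD⟩ : ∃ XD, XD = 2 * √(2 * ω0 * (1 - 2 * j0)) := ⟨_, rfl⟩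
  obtain ⟨κ, eκ⟩ : ∃ κ, κ = 1 - 2 * j0 := ⟨_, rfl⟩
  rw [← eXD] at hXD hb hsq ex
  rw [← eκ] at hk hjk hb hB0 hsq
  have hk1 : κ ≤ 1 := by linarith
  have hk0 : 0 < κ := by linarith
  have hX0 : 0 < XD := by linarith
  have hω0 : 0 < ω0 := by linarith
  have ha0 : 0 < al ^ 2 := by positivity
  have hs5 : 5 ≤ s1 := by linarith
  have hs10 : s1 ≤ 10 := by linarith
  have hs00 : 0 < s1 := by linarith
  obtain ⟨D, hD⟩ : ∃ D : ℂ,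
      D = (-(2 * κ * al * χ) : ℝ) * τ + ((4 * κ ^ 2 - κ) * χ ^ 2 : ℝ) * τ ^ 2 := ⟨_, rfl⟩
  obtain ⟨nD, nN⟩ := wp3a_DN hk hk1 hal hal2 hχ0 hχ1 hs0 hs1 hτ hD
  obtain ⟨r, er⟩ : ∃ r : ℝ, r = j0 / al ^ 2 := ⟨_, rfl⟩
  obtain ⟨t, et⟩ : ∃ t : ℝ, t = 4 / XD := ⟨_, rfl⟩
  obtain ⟨g, eg⟩ : ∃ g : ℝ, g = 2 * r / κ := ⟨_, rfl⟩
  have hr0 : 0 < r := er ▸ div_pos hj0 ha0
  have ht0 : 0 < t := et ▸ div_pos (by norm_num) hX0
  have hg0 : 0 < g := eg ▸ div_pos (by linarith) hk0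
  have ht1 : t ≤ 40 / 999 := by
    rw [et, div_le_iff₀ hX0]; linarith
  have hg1 : g ≤ 13 / 100000 := by
    have e1 : g = 2 * j0 / (κ * (s1 * al ^ 2)) * s1 := by
      rw [eg, er]; field_simp
    rw [e1]
    have := mul_le_mul hjk hs10 hs00.le (by norm_num)
    linarith
  have egk : κ * g = 2 * r := by rw [eg]; field_simp
  have erj : r * al ^ 2 = j0 := by rw [er]; field_simp
  have hr1 : r ≤ 13 / 200000 := by
    linarith only [egk, hg1, mul_le_mul_of_nonneg_right hk1 hg0.le]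
  have ert : ω0 * r = κ * t := by
    rw [div_eq_div_iff hk0.ne' hX0.ne'] at hb
    rw [er, et]; field_simp; linarith
  have ext : x1 = s1 * t / 4 := by rw [ex, et]; field_simp
  have ett : ω0 * κ * t ^ 2 = 2 := by
    rw [et, div_pow, hsq]; field_simp; norm_num
  have eA : 2 * ω0 ^ 2 * r * x1 = s1 := by
    rw [er]; field_simp; linarith
  -- complex quantities
  obtain ⟨u, eu⟩ : ∃ u : ℂ, u = sg * τ := ⟨_, rfl⟩
  obtain ⟨e, ee⟩ : ∃ e : ℂ, e = g * D := ⟨_, rfl⟩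
  have nu : ‖u‖ ≤ 3 / 20 := by
    rw [eu, norm_mul, Complex.norm_real, Real.norm_eq_abs, abs_of_nonneg hs0]
    have := mul_le_mul hs1 hτ (norm_nonneg _) (by norm_num)
    linarith
  have ne : ‖e‖ ≤ 13 / 100000 := by
    rw [ee, norm_mul, Complex.norm_real, Real.norm_eq_abs, abs_of_nonneg hg0.le]
    have := mul_le_mul hg1 (show ‖D‖ ≤ 1 by linarith) (norm_nonneg _) (by norm_num)
    linarith
  have eΩ : lΩ ω0 sg τ = ω0 * (1 + u) := by rw [eu]; rfl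
  have hal' : (al : ℂ) ≠ 0 := by exact_mod_cast hal.ne'
  have eJ : cJ j0 (χ / al) τ = r * ((al ^ 2 : ℝ) + D) := by
    rw [hD, er, eκ, cJ]; push_cast; field_simp; ring
  have eK : 1 - 2 * cJ j0 (χ / al) τ = κ * (1 - e) := by
    have c1 : (κ : ℂ) * g = 2 * r := by exact_mod_cast egk
    have c2 : (r : ℂ) * al ^ 2 = j0 := by exact_mod_cast erj
    have c3 : (κ : ℂ) = 1 - 2 * j0 := by exact_mod_cast eκ
    rw [eJ, ee]; push_cast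
    linear_combination D * c1 - 2 * c2 - c3
  rw [← eu] at nN
  have nR := wp3a_rho hal hal2 ha nN ne
  obtain ⟨⟨u0, u1⟩, -⟩ := wp3a_one nu
  obtain ⟨-, e0, e1⟩ := wp3a_one ne
  have e2 : 1 - e ≠ 0 := norm_pos_iff.1 (by linarith)
  have nA : ‖((al ^ 2 : ℝ) : ℂ) + D‖ ≤ al ^ 2 + al / 2 + 3 / 16 := by
    have := norm_add_le ((al ^ 2 : ℝ) : ℂ) D
    rw [Complex.norm_real, Real.norm_eq_abs, abs_of_nonneg ha0.le] at this
    linarith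
  have nA2 : s1 * ‖((al ^ 2 : ℝ) : ℂ) + D‖ ≤ 444 / 25 := by
    refine (mul_le_mul_of_nonneg_left nA hs00.le).trans ?_
    rw [es]
    linarith only [hal2, mul_nonneg (sq_nonneg (al - 3 / 2))
      (show 0 ≤ 2 * al ^ 2 + 7 * al + 55 / 8 by positivity)]
  have nΩ : ‖lΩ ω0 sg τ‖ = ω0 * ‖1 + u‖ := by
    rw [eΩ, norm_mul, Complex.norm_real, Real.norm_eq_abs, abs_of_pos hω0]
  have nJ : ‖cJ j0 (χ / al) τ‖ = r * ‖((al ^ 2 : ℝ) : ℂ) + D‖ := by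
    rw [eJ, norm_mul, Complex.norm_real, Real.norm_eq_abs, abs_of_pos hr0]
  have nK : ‖1 - 2 * cJ j0 (χ / al) τ‖ = κ * ‖1 - e‖ := by
    rw [eK, norm_mul, Complex.norm_real, Real.norm_eq_abs, abs_of_pos hk0]
  have nx : ‖(x1 : ℂ)‖ = x1 := by rw [Complex.norm_real, Real.norm_eq_abs, abs_of_pos hx0]
  have n2 : ‖(2 : ℂ)‖ = 2 := by simp
  have nA0 := norm_nonneg (((al ^ 2 : ℝ) : ℂ) + D)
  refine ⟨?_, ?_, ?_, ?_, ?_⟩
  · obtain ⟨c, ec⟩ : ∃ c : ℝ, c = 5 / 2 + al ^ 2 / 2 := ⟨_, rfl⟩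
    have hc0 : 0 < c := by linarith
    obtain ⟨R, eR⟩ : ∃ R : ℂ, R = ((al ^ 2 : ℝ) + D) * (1 + u) / (1 - e) - (al ^ 2 : ℝ) :=
      ⟨_, rfl⟩
    rw [← eR] at nR
    have hc' : (c : ℂ) ≠ 0 := by exact_mod_cast hc0.ne'
    have nRc : ‖R / c‖ = ‖R‖ / c := by
      rw [norm_div, Complex.norm_real, Real.norm_eq_abs, abs_of_pos hc0]
    have nR1 : ‖R / c‖ ≤ 27 / 100 := by
      rw [nRc, div_le_iff₀ hc0, ec]
      linarith only [nR, hal2,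
        mul_nonneg (sub_nonneg.2 hal2) (show 0 ≤ 2 - al by linarith only [hal2])]
    obtain ⟨w, ew⟩ : ∃ w : ℝ, w = 1 / 2 * al ^ 2 - 1 / 2 * al + 57 / 25 := ⟨_, rfl⟩
    have hw0 : 0 < w := by linarith only [ew, sq_nonneg (al - 1 / 2)]
    have ev : p3v al = (23 / 25 * w)⁻¹ := by rw [ew]; rfl
    have hv0 : 0 < p3v al := by rw [ev]; positivity
    have nρ : w ≤ ‖1 + R / c‖ * c := by
      have h1 := (wp3a_one (le_refl ‖R / c‖)).1.1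
      have h2 := mul_le_mul_of_nonneg_right h1 hc0.le
      rw [nRc, sub_mul, div_mul_cancel₀ _ hc0.ne'] at h2
      linarith
    have eB : x1 = (1 - (1 - B)) * (c * t) := by
      rw [hB, ext, ec]
      have : al ^ 2 = (10 - s1) / 2 := by linarith
      rw [this]
      have h20 : 20 - s1 ≠ 0 := by linarith
      have h21 : s1 * ((10 - s1) / 2) + 1 / 4 * s1 ^ 2 = s1 * (20 - s1) / 4 := by ring
      rw [h21]
      field_simp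
      ring
    have key := err2 (φ1 := φ1) (x1 := x1) (p0 := c * t) (A0 := 1 - B) (jl := 3 / 10000)
      (μρ := 27 / 100) (μω := 3 / 20) (v := p3v al) (ωl := 1062) (κ0 := 211 / 500)
      (γ := 49 / 50) (bb := p3b al B) (ν := 9 / 1000) (ω := lΩ ω0 sg τ)
      (j := cJ j0 (χ / al) τ) (ρ := 1 + R / c) h0 h1 hφ (mul_pos hc0 ht0)
      (by rw [ext, ec, es]; linarith only [mul_pos ha0 ht0])
      (by rw [ext, ec, es]; linarith only [mul_le_mul ha ht1 ht0.le (by norm_num)])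
      eB
      (by
        rw [nJ]
        have := mul_le_mul hr1 (show ‖((al ^ 2 : ℝ) : ℂ) + D‖ ≤ 4 by linarith) nA0 (by norm_num)
        linarith)
      (by norm_num)
      (by
        have c1 : (ω0 : ℂ) * r = κ * t := by exact_mod_cast ert
        have c2 : (x1 : ℂ) = (c - (al ^ 2 : ℝ)) * t := by
          have : x1 = (c - al ^ 2) * t := by rw [ext, ec, es]; ring
          exact_mod_cast this
        have c3 : (1 - e) * (R + (al ^ 2 : ℝ)) = ((al ^ 2 : ℝ) + D) * (1 + u) := by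
          rw [eR]; field_simp; ring
        have c4 : (c : ℂ) * (1 + R / c) = c + R := by field_simp
        rw [eK, eJ, eΩ, c2, Complex.ofReal_mul]
        linear_combination (1 + u) * (((al ^ 2 : ℝ) : ℂ) + D) * c1 - κ * t * c3 -
          κ * (1 - e) * t * c4)
      (by rw [add_sub_cancel_left]; exact nR1) (by norm_num)
      (sa_one_add (by linarith) (by norm_num)) (Or.inr le_rfl)
      (by rw [eΩ]; exact (sa_one_add nu (by norm_num)).pos_mul hω0) (by norm_num) le_rfl hv0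
      (by
        rw [norm_mul, norm_mul, norm_pow, nΩ, nK, ev]
        have h1 : w ^ 2 ≤ (‖1 + R / c‖ * c) ^ 2 := pow_le_pow_left₀ hw0.le nρ 2
        have h2 : (1 - 3 / 20) * (1 - 13 / 100000) ≤ ‖1 + u‖ * ‖1 - e‖ :=
          mul_le_mul u0 e0 (by norm_num) (norm_nonneg _)
        have h3 := mul_le_mul h2 h1 (sq_nonneg _) (by positivity)
        have h4 : ω0 * ‖1 + u‖ * (κ * ‖1 - e‖) * ‖1 + R / c‖ ^ 2 * (c * t) ^ 2 =
            2 * (‖1 + u‖ * ‖1 - e‖ * (‖1 + R / c‖ * c) ^ 2) := by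
          linear_combination (‖1 + u‖ * ‖1 - e‖ * (‖1 + R / c‖ * c) ^ 2) * ett
        rw [h4, inv_pow, inv_mul_eq_div, le_div_iff₀ (by positivity)]
        linarith only [h3, sq_nonneg w])
      (by norm_num)
      (by
        rw [nΩ]
        have := mul_le_mul hω u0 (by norm_num) hω0.le
        linarith)
      (by norm_num)
      (by
        rw [sub_sub_cancel, p3b]
        norm_num
        linarith)
      (by norm_num) wp3a_nu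
    rw [sub_sub_cancel] at key
    exact key
  · rw [norm_mul, norm_mul, norm_mul, norm_pow, n2, nΩ, nJ, nx]
    have h1 : ‖1 + u‖ ^ 2 ≤ (1 + 3 / 20) ^ 2 := pow_le_pow_left₀ (norm_nonneg _) u1 2
    have h2 := mul_le_mul nA2 h1 (sq_nonneg _) (by norm_num)
    have h3 : 2 * (ω0 * ‖1 + u‖) ^ 2 * (r * ‖((al ^ 2 : ℝ) : ℂ) + D‖) * x1 =
        s1 * ‖((al ^ 2 : ℝ) : ℂ) + D‖ * ‖1 + u‖ ^ 2 := by
      linear_combination (‖((al ^ 2 : ℝ) : ℂ) + D‖ * ‖1 + u‖ ^ 2) * eA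
    rw [h3]
    linarith
  · rw [norm_mul, norm_mul, norm_mul, norm_pow, n2, nΩ, nK, nx]
    have h1 := mul_le_mul u1 e1 (norm_nonneg _) (by norm_num)
    have h2 : 1 / 4 * s1 ^ 2 ≤ 25 := by linarith only [pow_le_pow_left₀ hs00.le hs10 2]
    have h3 := mul_le_mul h2 h1 (by positivity) (by norm_num)
    have h4 : 2 * (ω0 * ‖1 + u‖) * (κ * ‖1 - e‖) * x1 ^ 2 =
        1 / 4 * s1 ^ 2 * (‖1 + u‖ * ‖1 - e‖) := by
      linear_combination (‖1 + u‖ * ‖1 - e‖) * hB0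
    rw [h4]
    linarith
  · rw [norm_mul, norm_pow, nK, nx]
    have h1 := mul_le_mul hk1 e1 (norm_nonneg _) (by norm_num)
    have h2 : x1 ^ 2 ≤ (1002 / 10000) ^ 2 := pow_le_pow_left₀ hx0.le hx1 2
    have h3 := mul_le_mul h1 h2 (sq_nonneg _) (by norm_num)
    linarith
  · rw [norm_mul, norm_mul, n2, nJ, nx]
    have h2 := mul_le_mul hnu nA2 (by positivity) (by norm_num)
    have h3 : 2 * (r * ‖((al ^ 2 : ℝ) : ℂ) + D‖) * x1 =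
        1 / ω0 ^ 2 * (s1 * ‖((al ^ 2 : ℝ) : ℂ) + D‖) := by
      rw [← eA]; field_simp
    rw [h3]
    linarith

end Pool.Agent.HillD
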