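import Pool.Agent.P.MP_ae2765_an.WSa

/-! Third region: jets of the matching data. -/

namespace Pool.Agent.HillD
open Real Set Filter Topology Asymptotics

/-- the matching at `φ1` for real parameters -/
theorem p3_match {δ ω φ1 x1 A B Z J y h : ℝ} (z : ℂ) (hδ : 0 < δ) (hω : 0 < ω)
    (h0 : 0 < φ1) (h1 : φ1 < π / 2) (hx : x1 = cos φ1 ^ 2)
    (eA : A = 2 * ω ^ 2 * jj δ * x1) (eB : B = 2 * ω * (1 - 2 * jj δ) * x1 ^ 2)
    (eZ : Z = (1 - 2 * jj δ) * x1 ^ 2) (eJ : J = 2 * jj δ * x1) :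
    er ω (jj δ) φ1 / (2 * qr ω (jj δ) φ1) =
        1 / 4 * (B * (A + B)⁻¹ * (√((A + B) * (1 - J - Z)⁻¹))⁻¹) ∧
      ((-(sin φ1 / cos φ1 * h / cA (mm δ) ω φ1) : ℝ) : ℂ) - etaC φ1 δ ω z * y =
        (-(sin φ1 / cos φ1 / cA (mm δ) ω φ1) : ℝ) *
          (((h + 1 / 2 * (B * (A + B)⁻¹ * y) : ℝ) : ℂ) +
            Complex.I * ((√((A + B) * (1 - J - Z)⁻¹) * y : ℝ) : ℂ) * (1 + z)) := by
  obtain ⟨j0, j1⟩ := jj_bd hδ
  obtain ⟨hP, hQ, hq, -⟩ := real_axis (φ := φ1) hω j0 j1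
  have hA := (cA_cB hδ hω φ1).1
  have hs : 0 < sin φ1 := sin_pos_of_pos_of_lt_pi h0 (by linarith [pi_pos])
  have hc : 0 < cos φ1 := cos_pos_of_mem_Ioo ⟨by linarith [pi_pos], h1⟩
  have e1 : A + B = 2 * ω * cos φ1 ^ 2 * Pr ω (jj δ) φ1 := by
    rw [eA, eB, hx, Pr]
    ring
  have e2 : 1 - J - Z = sin φ1 ^ 2 * Qr (jj δ) φ1 := by
    rw [eJ, eZ, hx, Qr, sin_sq]
    ring
  have e3 : √((A + B) * (1 - J - Z)⁻¹) = cos φ1 / sin φ1 * qr ω (jj δ) φ1 := by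
    rw [qr, ← sqrt_sq (div_pos hc hs).le, ← sqrt_mul (sq_nonneg _), e1, e2]
    congr 1
    field_simp
  have e4 : B * (A + B)⁻¹ = 2 * (cos φ1 / sin φ1) * er ω (jj δ) φ1 := by
    rw [e1, eB, hx, er]
    field_simp
  rw [e3, e4]
  constructor
  · field_simp
    ring
  · have c1 : ((sin φ1 : ℝ) : ℂ) ≠ 0 := Complex.ofReal_ne_zero.2 hs.ne'
    have c2 : ((cos φ1 : ℝ) : ℂ) ≠ 0 := Complex.ofReal_ne_zero.2 hc.ne'
    have c3 : ((cA (mm δ) ω φ1 : ℝ) : ℂ) ≠ 0 := Complex.ofReal_ne_zero.2 hA.ne'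
    rw [etaC]
    simp only [Complex.ofReal_neg, Complex.ofReal_div, Complex.ofReal_mul, Complex.ofReal_add,
      Complex.ofReal_one, Complex.ofReal_ofNat]
    field_simp
    ring

end Pool.Agent.HillD
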