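import Pool.Agent.P.MP_ae2765_an.WSa

/-! Third region: parameters, and estimates on the disc of radius `1 / 4`. -/

namespace Pool.Agent.HillD
open Real Set Filter Topology Asymptotics

/-- ranges of the parameters -/
theorem p3_par {δ0 ω0 j0 al s1 x1 : ℝ}
    (hδ : 0 < δ0) (hω : 1250 ≤ ω0) (ej : j0 = jj δ0) (hal : 0 < al) (ea : al ^ 2 = aa ω0 j0)
    (ha : al ^ 2 ≤ 5 / 2) (es : s1 = 10 - 2 * al ^ 2)
    (ex : x1 = s1 / (2 * √(2 * ω0 * (1 - 2 * j0)))) :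
    al ≤ 3953 / 2500 ∧ 4999 / 5000 ≤ 1 - 2 * j0 ∧ 999 / 10 ≤ 2 * √(2 * ω0 * (1 - 2 * j0)) ∧
      0 < x1 ∧ x1 ≤ 1002 / 10000 ∧ 1 / ω0 ^ 2 ≤ 13 / 20000000 ∧
      2 * j0 / ((1 - 2 * j0) * (s1 * al ^ 2)) ≤ 13 / 1000000 ∧
      ω0 * j0 / (1 - 2 * j0) = 4 * al ^ 2 / (2 * √(2 * ω0 * (1 - 2 * j0))) ∧
      2 * ω0 ^ 2 * j0 * x1 = s1 * al ^ 2 ∧ 2 * ω0 * (1 - 2 * j0) * x1 ^ 2 = 1 / 4 * s1 ^ 2 ∧
      ∃ xx : ℝ, 0 ≤ xx ∧ xx ≤ 1 ∧ (1 - 2 * j0) * x1 ^ 2 = (10 / 999 * (xx * s1)) ^ 2 := by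
  obtain ⟨j1, j2⟩ := jj_bd hδ
  rw [← ej] at j1 j2
  obtain ⟨κ, eκ⟩ : ∃ κ, κ = 1 - 2 * j0 := ⟨_, rfl⟩
  have κ0 : 0 < κ := by linarith
  have κ1 : κ ≤ 1 := by linarith
  have ω0' : 0 < ω0 := by linarith
  rw [aa, ← eκ] at ea
  rw [← eκ] at ex ⊢
  obtain ⟨R, eR⟩ : ∃ R, R = √(2 * ω0 * κ) := ⟨_, rfl⟩
  rw [← eR] at ex ⊢
  have R0 : 0 < R := eR ▸ Real.sqrt_pos.2 (by positivity)
  have R2 : R ^ 2 = 2 * ω0 * κ := eR ▸ Real.sq_sqrt (by positivity)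
  have e1 : √(ω0 / (2 * κ)) = R / (2 * κ) := by
    rw [Real.sqrt_eq_iff_mul_self_eq (by positivity) (by positivity)]
    field_simp
    linarith
  rw [e1] at ea
  have e2 : 2 * κ * al ^ 2 = ω0 * j0 * R := by
    rw [ea]
    field_simp
  have a0 : 0 < al ^ 2 := by positivity
  have hj : j0 ≤ 1 / 10000 := by
    by_contra hc
    rw [not_le] at hc
    have b1 : ω0 * j0 * R ≤ 5 * κ := by nlinarith
    have b2 : (ω0 * j0 * R) ^ 2 ≤ (5 * κ) ^ 2 := pow_le_pow_left₀ (by positivity) b1 2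
    have b3 : (ω0 * j0 * R) ^ 2 = 2 * ω0 * (ω0 * j0) ^ 2 * κ := by rw [mul_pow, R2]; ring
    have b4 : 1 / 8 ≤ ω0 * j0 := by nlinarith
    have b5 : 1 / 64 ≤ (ω0 * j0) ^ 2 := by nlinarith
    have b6 : 39 ≤ 2 * ω0 * (ω0 * j0) ^ 2 := by nlinarith
    rw [b3] at b2
    nlinarith
  have κ2 : 4999 / 5000 ≤ κ := by linarith
  have R1 : 999 / 20 ≤ R := by
    refine le_of_pow_le_pow_left₀ (n := 2) (by norm_num) R0.le ?_
    rw [R2]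
    nlinarith
  have s5 : 5 ≤ s1 := by linarith
  have s10 : s1 ≤ 10 := by linarith
  have s0 : 0 < s1 := by linarith
  refine ⟨?_, κ2, by linarith, by rw [ex]; positivity, ?_, ?_, ?_, ?_, ?_, ?_,
    999 / 10 * √κ / (2 * R), by positivity, ?_, ?_⟩
  · nlinarith
  · rw [ex, div_le_iff₀ (by positivity)]
    linarith
  · rw [div_le_iff₀ (by positivity)]
    nlinarith
  · rw [div_le_iff₀ (by positivity)]
    have b1 : κ * (s1 * al ^ 2) = j0 * (s1 * (ω0 * R)) / 2 := by linear_combination s1 / 2 * e2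
    have b2 : 1250 * (999 / 20) ≤ ω0 * R := mul_le_mul hω R1 (by norm_num) ω0'.le
    have b3 : 5 * (1250 * (999 / 20)) ≤ s1 * (ω0 * R) := mul_le_mul s5 b2 (by norm_num) s0.le
    have b4 := mul_le_mul_of_nonneg_left b3 j1.le
    rw [b1]
    linarith
  · field_simp
    linear_combination (-2) * e2
  · rw [ex, ea]
    field_simp
    linear_combination (-1) * R2
  · rw [ex, ← R2]
    field_simp
    ring
  · have b1 : √κ ≤ 1 := Real.sqrt_le_iff.2 ⟨zero_le_one, by linarith⟩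
    rw [div_le_one (by positivity)]
    linarith
  · have b1 : √κ ^ 2 = κ := Real.sq_sqrt κ0.le
    rw [ex]
    field_simp
    linear_combination (-1) * b1

/-- the coefficients of the series along the curve; `d = s1 (𝔞 - a)`, `υ = sg τ` -/
theorem p3_coef {δ0 ω0 j0 al s1 x1 χ sg : ℝ}
    (hδ : 0 < δ0) (hω : 1250 ≤ ω0) (ej : j0 = jj δ0) (hal : 0 < al) (ea : al ^ 2 = aa ω0 j0)
    (ha : al ^ 2 ≤ 5 / 2) (es : s1 = 10 - 2 * al ^ 2)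
    (ex : x1 = s1 / (2 * √(2 * ω0 * (1 - 2 * j0))))
    (τ d : ℂ) (hd : d = (-(2 * (s1 * (1 - 2 * j0) * al * χ)) : ℝ) * τ +
      (s1 * (4 * (1 - 2 * j0) ^ 2 - (1 - 2 * j0)) * χ ^ 2 : ℝ) * τ ^ 2)
    (nu jk : ℝ) (hnu : nu = 1 / ω0 ^ 2) (hjk : jk = 2 * j0 / ((1 - 2 * j0) * (s1 * al ^ 2))) :
    2 * lΩ ω0 sg τ ^ 2 * cJ j0 (χ / al) τ * x1 = ((s1 * al ^ 2 : ℝ) + d) * (1 + sg * τ) ^ 2 ∧
      2 * lΩ ω0 sg τ * (1 - 2 * cJ j0 (χ / al) τ) * x1 ^ 2 =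
        (1 / 4 * s1 ^ 2 : ℝ) * (1 + sg * τ) * (1 - jk * d) ∧
      (1 - 2 * cJ j0 (χ / al) τ) * x1 ^ 2 = ((1 - 2 * j0) * x1 ^ 2 : ℝ) * (1 - jk * d) ∧
      2 * cJ j0 (χ / al) τ * x1 = nu * ((s1 * al ^ 2 : ℝ) + d) := by
  obtain ⟨-, κ2, -, -, -, -, -, -, e1, e2, -⟩ := p3_par hδ hω ej hal ea ha es ex
  have s0 : (s1 : ℂ) ≠ 0 := Complex.ofReal_ne_zero.2 (by linarith : (0 : ℝ) < s1).ne'
  have a0 : (al : ℂ) ≠ 0 := Complex.ofReal_ne_zero.2 hal.ne'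
  have w0 : (ω0 : ℂ) ≠ 0 := Complex.ofReal_ne_zero.2 (by linarith : (0 : ℝ) < ω0).ne'
  have k0 : (1 - 2 * (j0 : ℂ)) ≠ 0 := by
    have : ((1 - 2 * j0 : ℝ) : ℂ) ≠ 0 :=
      Complex.ofReal_ne_zero.2 (by linarith : (0 : ℝ) < 1 - 2 * j0).ne'
    exact_mod_cast this
  have c1 : 2 * (ω0 : ℂ) ^ 2 * j0 * x1 = s1 * al ^ 2 := by exact_mod_cast e1
  have c2 : 2 * (ω0 : ℂ) * (1 - 2 * j0) * x1 ^ 2 = 1 / 4 * s1 ^ 2 := by
    have := congrArg (fun x : ℝ => (x : ℂ)) e2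
    push_cast at this
    exact this
  obtain ⟨u, eu⟩ : ∃ u : ℂ, u = d / (s1 * al ^ 2) := ⟨_, rfl⟩
  have du : d = s1 * al ^ 2 * u := by
    rw [eu]
    field_simp
  have hJ : cJ j0 (χ / al) τ = j0 * (1 + u) := by
    rw [cJ, eu, hd]
    push_cast
    field_simp
    ring
  have hk : (jk : ℂ) * d * (1 - 2 * j0) = 2 * j0 * u := by
    rw [hjk, du]
    push_cast
    field_simp
  have hn : (nu : ℂ) * ω0 ^ 2 = 1 := by
    rw [hnu]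
    push_cast
    field_simp
  rw [hJ, lΩ]
  push_cast
  refine ⟨?_, ?_, ?_, ?_⟩
  · linear_combination (1 + sg * τ) ^ 2 * (1 + u) * c1 - (1 + sg * τ) ^ 2 * du
  · linear_combination (1 + sg * τ) * (1 - jk * d) * c2 + 2 * ω0 * (1 + sg * τ) * x1 ^ 2 * hk
  · linear_combination x1 ^ 2 * hk
  · linear_combination (-(2 * j0 * (1 + u) * x1)) * hn + nu * (1 + u) * c1 - nu * du

end Pool.Agent.HillD
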