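import Pool.Agent.P.MP_ae2765_an.WSa

/-! Geometry of the complex path. -/

namespace Pool.Agent.HillD
open Real Set Filter Topology Asymptotics

lemma wpath1_h {t : ℝ} (ht : t ∈ Icc (0 : ℝ) π) : cos t * sinh t - sin t * cosh t ≤ 0 := by
  have hd : ∀ x : ℝ, HasDerivAt (fun t => cos t * sinh t - sin t * cosh t)
      (-2 * (sin x * sinh x)) x := by
    intro x
    have := ((hasDerivAt_cos x).mul (hasDerivAt_sinh x)).sub
      ((hasDerivAt_sin x).mul (hasDerivAt_cosh x))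
    exact this.congr_deriv (by ring)
  have hA : AntitoneOn (fun t => cos t * sinh t - sin t * cosh t) (Icc 0 π) := by
    refine antitoneOn_of_deriv_nonpos (convex_Icc 0 π) (by fun_prop)
      (fun x _ => (hd x).differentiableAt.differentiableWithinAt) ?_
    intro x hx
    rw [interior_Icc] at hx
    rw [(hd x).deriv]
    have h1 := sin_nonneg_of_nonneg_of_le_pi hx.1.le hx.2.le
    have h2 := sinh_nonneg_iff.mpr hx.1.le
    nlinarith [mul_nonneg h1 h2]
  have := hA ⟨le_rfl, pi_pos.le⟩ ht ht.1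
  simpa using this

lemma wpath1_f {t : ℝ} (ht : t ∈ Icc (0 : ℝ) π) : cos t * cosh t ≤ 1 := by
  have hd : ∀ x : ℝ, HasDerivAt (fun t => cos t * cosh t)
      (cos x * sinh x - sin x * cosh x) x := by
    intro x
    have := (hasDerivAt_cos x).mul (hasDerivAt_cosh x)
    exact this.congr_deriv (by ring)
  have hA : AntitoneOn (fun t => cos t * cosh t) (Icc 0 π) := by
    refine antitoneOn_of_deriv_nonpos (convex_Icc 0 π) (by fun_prop)
      (fun x _ => (hd x).differentiableAt.differentiableWithinAt) ?_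
    intro x hx
    rw [(hd x).deriv]
    exact wpath1_h (interior_subset hx)
  have := hA ⟨le_rfl, pi_pos.le⟩ ht ht.1
  simpa using this

lemma wpath1_cosh (t : ℝ) : 1 + t ^ 2 / 2 ≤ cosh t := by
  have h1 : cosh t = 1 + 2 * sinh (t / 2) ^ 2 := by
    have := cosh_two_mul (t / 2)
    rw [show 2 * (t / 2) = t by ring, cosh_sq] at this
    linarith
  have h2 : (t / 2) ^ 2 ≤ sinh (t / 2) ^ 2 := by
    rw [sq_le_sq, abs_sinh]
    exact self_le_sinh_iff.mpr (abs_nonneg _)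
  rw [h1]
  nlinarith

lemma wpath1_k {t : ℝ} (ht : 0 ≤ t) : 2 * t ≤ sin t + sinh t := by
  have hd : ∀ x : ℝ, HasDerivAt (fun t => sin t + sinh t - 2 * t)
      (cos x + cosh x - 2) x := by
    intro x
    have := ((hasDerivAt_sin x).add (hasDerivAt_sinh x)).sub
      ((hasDerivAt_id x).const_mul 2)
    exact this.congr_deriv (by ring)
  have hA : Monotone (fun t => sin t + sinh t - 2 * t) := by
    refine monotone_of_deriv_nonneg (fun x => (hd x).differentiableAt) ?_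
    intro x
    rw [(hd x).deriv]
    have h1 := wpath1_cosh x
    have h2 := one_sub_sq_div_two_le_cos (x := x)
    linarith
  have := hA ht
  simp only [sin_zero, sinh_zero, mul_zero, add_zero, sub_zero] at this
  linarith

lemma wpath1_sin (u v : ℝ) :
    ‖Complex.sin (u + v * Complex.I)‖ ^ 2 = sin u ^ 2 + sinh v ^ 2 := by
  rw [Complex.sin_add_mul_I, ← Complex.ofReal_sin, ← Complex.ofReal_cos, ← Complex.ofReal_sinh,
    ← Complex.ofReal_cosh, ← Complex.ofReal_mul, ← Complex.ofReal_mul, Complex.sq_norm,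
    Complex.normSq_add_mul_I]
  have h1 := cosh_sq v
  have h2 := sin_sq_add_cos_sq u
  have h3 : cos u ^ 2 = 1 - sin u ^ 2 := by linarith
  rw [mul_pow, mul_pow, h1, h3]
  ring

lemma wpath1_pth (φ1 s : ℝ) :
    pth φ1 s = ((φ1 - φ1 * (1 - s) : ℝ) : ℂ) + ((φ1 * (1 - s) : ℝ) : ℂ) * Complex.I := by
  unfold pth
  push_cast
  ring

lemma wpath1_sq (x b : ℝ) : Complex.cos (x + b * Complex.I) ^ 2 =
    (((1 + cos (2 * x) * cosh (2 * b)) / 2 : ℝ) : ℂ) +
      ((-(2 * (cos x * sin x) * (cosh b * sinh b)) : ℝ) : ℂ) * Complex.I := by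
  have e : (1 + cos (2 * x) * cosh (2 * b)) / 2 =
      (cos x * cosh b) ^ 2 - (sin x * sinh b) ^ 2 := by
    have h1 := cosh_sq b
    have h2 : sin x ^ 2 = 1 - cos x ^ 2 := by linarith [sin_sq_add_cos_sq x]
    rw [cos_two_mul, cosh_two_mul, mul_pow, mul_pow, h1, h2]
    ring
  rw [e, Complex.cos_add_mul_I]
  push_cast
  linear_combination (Complex.sin x * Complex.sinh b) ^ 2 * Complex.I_sq

theorem pX_quad {φ1 s : ℝ} (h0 : π / 4 ≤ φ1) (h1 : φ1 ≤ π / 2) (hs : s ∈ Icc (0 : ℝ) 1) :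
    0 ≤ (pX φ1 s - (cos φ1 ^ 2 : ℝ)).re ∧ (pX φ1 s - (cos φ1 ^ 2 : ℝ)).im ≤ 0 ∧
      2 * (φ1 * (1 - s)) ^ 2 ≤ ‖pX φ1 s - (cos φ1 ^ 2 : ℝ)‖ := by
  have hπ := pi_pos
  have ha : 0 ≤ φ1 := by linarith
  obtain ⟨b, hb⟩ : ∃ b, b = φ1 * (1 - s) := ⟨_, rfl⟩
  have hb0 : 0 ≤ b := hb ▸ mul_nonneg ha (by linarith [hs.2])
  have hb1 : b ≤ φ1 := by rw [hb]; nlinarith [mul_nonneg ha hs.1]
  have hX : pX φ1 s = Complex.cos (((φ1 - b : ℝ) : ℂ) + (b : ℂ) * Complex.I) ^ 2 := by
    rw [pX, wpath1_pth, ← hb]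
  rw [← hb, hX]
  refine ⟨?_, ?_, ?_⟩
  · rw [wpath1_sq]
    simp only [Complex.sub_re, Complex.add_re, Complex.ofReal_re, Complex.mul_re, Complex.I_re,
      Complex.ofReal_im, Complex.I_im, mul_zero, zero_mul, sub_zero, add_zero]
    have e1 : cos φ1 ^ 2 = (1 + cos (2 * φ1)) / 2 := by rw [cos_two_mul]; ring
    have e2 : 2 * (φ1 - b) = 2 * φ1 - 2 * b := by ring
    rw [e1, e2, cos_sub]
    have c1 : cos (2 * φ1) ≤ 0 := cos_nonpos_of_pi_div_two_le_of_le (by linarith) (by linarith)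
    have c2 : 0 ≤ sin (2 * φ1) := sin_nonneg_of_nonneg_of_le_pi (by linarith) (by linarith)
    have c3 : 0 ≤ sin (2 * b) := sin_nonneg_of_nonneg_of_le_pi (by linarith) (by linarith)
    have c4 := wpath1_f (t := 2 * b) ⟨by linarith, by linarith⟩
    have c5 := (cosh_pos (2 * b)).le
    have c6 := mul_nonneg (mul_nonneg c2 c3) c5
    have c7 := mul_nonneg_of_nonpos_of_nonpos c1 (sub_nonpos.mpr c4)
    nlinarith
  · rw [wpath1_sq]
    simp only [Complex.sub_im, Complex.add_im, Complex.ofReal_re, Complex.mul_im, Complex.I_re,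
      Complex.ofReal_im, Complex.I_im, mul_zero, mul_one, sub_zero, add_zero, zero_add]
    have c1 : 0 ≤ cos (φ1 - b) := cos_nonneg_of_mem_Icc ⟨by linarith, by linarith⟩
    have c2 : 0 ≤ sin (φ1 - b) := sin_nonneg_of_nonneg_of_le_pi (by linarith) (by linarith)
    have c3 := (cosh_pos b).le
    have c4 := sinh_nonneg_iff.mpr hb0
    have := mul_nonneg (mul_nonneg c1 c2) (mul_nonneg c3 c4)
    linarith
  · have e : Complex.cos (((φ1 - b : ℝ) : ℂ) + (b : ℂ) * Complex.I) ^ 2 - (cos φ1 ^ 2 : ℝ) =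
        -(Complex.sin (((2 * φ1 - b : ℝ) : ℂ) + (b : ℂ) * Complex.I) *
          Complex.sin (((-b : ℝ) : ℂ) + (b : ℂ) * Complex.I)) := by
      obtain ⟨z, hz⟩ : ∃ z : ℂ, z = ((φ1 - b : ℝ) : ℂ) + (b : ℂ) * Complex.I := ⟨_, rfl⟩
      have e1 : ((2 * φ1 - b : ℝ) : ℂ) + (b : ℂ) * Complex.I = z + φ1 := by
        rw [hz]; push_cast; ring
      have e2 : ((-b : ℝ) : ℂ) + (b : ℂ) * Complex.I = z - φ1 := by
        rw [hz]; push_cast; ring
      rw [e1, e2, ← hz, Complex.sin_add, Complex.sin_sub]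
      push_cast
      have s1 := Complex.sin_sq_add_cos_sq z
      have s2 := Complex.sin_sq_add_cos_sq (φ1 : ℂ)
      linear_combination (Complex.cos φ1) ^ 2 * s1 - (Complex.cos z) ^ 2 * s2
    rw [e, norm_neg, norm_mul]
    have n1 := wpath1_sin (2 * φ1 - b) b
    have n2 := wpath1_sin (-b) b
    rw [sin_neg, neg_sq] at n2
    have c0 : 0 ≤ sin b := sin_nonneg_of_nonneg_of_le_pi hb0 (by linarith)
    have c1 : sin b ≤ sin (2 * φ1 - b) := by
      have := sin_sub_sin (2 * φ1 - b) b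
      rw [show (2 * φ1 - b - b) / 2 = φ1 - b by ring,
        show (2 * φ1 - b + b) / 2 = φ1 by ring] at this
      have d1 : 0 ≤ cos φ1 := cos_nonneg_of_mem_Icc ⟨by linarith, by linarith⟩
      have d2 : 0 ≤ sin (φ1 - b) := sin_nonneg_of_nonneg_of_le_pi (by linarith) (by linarith)
      nlinarith [mul_nonneg d2 d1]
    have c2 : ‖Complex.sin (((-b : ℝ) : ℂ) + (b : ℂ) * Complex.I)‖ ≤
        ‖Complex.sin (((2 * φ1 - b : ℝ) : ℂ) + (b : ℂ) * Complex.I)‖ := by
      refine abs_le_of_sq_le_sq' ?_ (norm_nonneg _) |>.2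
      rw [n1, n2]
      nlinarith
    have c3 := wpath1_k hb0
    have c4 : 2 * b ^ 2 ≤ sin b ^ 2 + sinh b ^ 2 := by
      nlinarith [sq_nonneg (sin b - sinh b), mul_self_le_mul_self (by linarith) c3]
    calc 2 * b ^ 2 ≤ _ := c4
      _ = _ := n2.symm
      _ ≤ _ := by
        rw [sq]
        exact mul_le_mul_of_nonneg_right c2 (norm_nonneg _)

/-- continuity of the integrand in `Wk.int` -/
theorem wk_cont {φ1 : ℝ} {ω j : ℂ} (hω : ω ≠ 0) (hP : ∀ s ∈ Icc (0 : ℝ) 1, PP ω j (pX φ1 s) ≠ 0)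
    (hQ : ∀ s ∈ Icc (0 : ℝ) 1, QQ j (pX φ1 s) ≠ 0) :
    ContinuousOn (fun s => ‖psi ω j (pX φ1 s)‖ ^ 2 * √‖G2 φ1 ω j s‖) (Icc 0 1) := by
  have hX : Continuous (pX φ1) := by
    unfold pX pth
    fun_prop
  have hPc : Continuous fun s => PP ω j (pX φ1 s) := by
    unfold PP
    fun_prop
  have hQc : Continuous fun s => QQ j (pX φ1 s) := by
    unfold QQ
    fun_prop
  have h1 : ContinuousOn (fun s => psi ω j (pX φ1 s)) (Icc 0 1) := by
    unfold psi
    refine ContinuousOn.div (Continuous.continuousOn (by unfold PP QQ; fun_prop))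
      (Continuous.continuousOn (by unfold PP; fun_prop)) ?_
    intro s hs
    exact mul_ne_zero (mul_ne_zero (by norm_num) hω) (pow_ne_zero _ (hP s hs))
  have h2 : ContinuousOn (fun s => G2 φ1 ω j s) (Icc 0 1) := by
    unfold G2
    exact ContinuousOn.div (continuous_const.mul hPc).continuousOn hQc.continuousOn hQ
  exact (h1.norm.pow 2).mul h2.norm.sqrt

end Pool.Agent.HillD
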