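import Pool.Agent.P.MP_ae2765_an.WPath0
import Pool.Agent.P.MP_ae2765_an.WPath1
import Pool.Agent.P.MP_ae2765_an.WSa

/-! Geometry of the complex path. -/

namespace Pool.Agent.HillD
open Real Set Filter Topology Asymptotics

/-- The parameters on the complex tangent line, `D = δ0 ^ 2`, `ε = 1 / (1 + D)`, `t = D / ω0`. -/
theorem line_par {δ0 ω0 s r : ℝ} {τ : ℂ} (hδ : 0 < δ0) (hω : 0 < ω0) (hs0 : 0 ≤ s) (hs1 : s ≤ 1)
    (hr : r ≤ 1 / 5) (hτ : ‖τ‖ ≤ r) : ∃ ρ : ℂ,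
      ρ * (1 + s * τ) = (1 + τ) ^ 2 ∧ ‖ρ - 1‖ ≤ r * (2 + r) ∧ Sa ρ (2 * r) ∧
      ‖ρ⁻¹ - 1‖ ≤ r * ((1 - s) / (1 - r) ^ 2 + 1 / (1 - r)) ∧
      Sa ((1 + s * τ) / (1 + τ)) r ∧ lJ δ0 τ ≠ 0 ∧ lΩ ω0 s τ ≠ 0 ∧
      1 - 2 * lJ δ0 τ = lJ δ0 τ * lΩ ω0 s τ * ((δ0 ^ 2 / ω0 : ℝ) * ρ) ∧
      (∀ X : ℂ, PP (lΩ ω0 s τ) (lJ δ0 τ) X =
        lJ δ0 τ * lΩ ω0 s τ * (1 + (δ0 ^ 2 / ω0 : ℝ) * ρ * X)) ∧
      ∀ X : ℂ, QQ (lJ δ0 τ) X = lJ δ0 τ * (1 + δ0 ^ 2 : ℝ) *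
        (2 * (1 / (1 + δ0 ^ 2) : ℝ) + (1 - 1 / (1 + δ0 ^ 2) : ℝ) * (1 + X) * (1 + τ) ^ 2) := by
  have hr0 : 0 ≤ r := (norm_nonneg _).trans hτ
  have hsn : ‖(s : ℂ) * τ‖ ≤ s * r := by
    rw [norm_mul, Complex.norm_real, Real.norm_eq_abs, abs_of_nonneg hs0]
    exact mul_le_mul_of_nonneg_left hτ hs0
  have hsr : s * r ≤ 1 / 5 := by nlinarith
  have hv : 1 - s * r ≤ ‖1 + (s : ℂ) * τ‖ := by
    have := norm_sub_le (1 + (s : ℂ) * τ) (s * τ)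
    rw [add_sub_cancel_right, norm_one] at this
    linarith
  have hu : 1 - r ≤ ‖1 + τ‖ := by
    have := norm_sub_le (1 + τ) τ
    rw [add_sub_cancel_right, norm_one] at this
    linarith
  have hv0 : 0 < ‖1 + (s : ℂ) * τ‖ := by linarith
  have hu0 : 0 < ‖1 + τ‖ := by linarith
  have hvne : 1 + (s : ℂ) * τ ≠ 0 := norm_pos_iff.1 hv0
  have hvne' : 1 + τ * (s : ℂ) ≠ 0 := by rwa [mul_comm]
  have hune : 1 + τ ≠ 0 := norm_pos_iff.1 hu0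
  have h1s : ‖(1 - (s : ℂ))‖ = 1 - s := by
    rw [← Complex.ofReal_one, ← Complex.ofReal_sub, Complex.norm_real, Real.norm_eq_abs,
      abs_of_nonneg (by linarith)]
  have hA : Sa (1 + τ) r := sa_one_add hτ (by linarith)
  have hB : Sa ((1 + τ) / (1 + s * τ)) r := by
    have e : (1 + τ) / (1 + s * τ) = 1 + (1 - s) * τ / (1 + s * τ) := by
      field_simp
      ring
    rw [e]
    refine sa_one_add ?_ (by linarith)
    rw [norm_div, norm_mul, h1s, div_le_iff₀ hv0]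
    have t1 : (1 - s) * ‖τ‖ ≤ (1 - s) * r := mul_le_mul_of_nonneg_left hτ (by linarith)
    have t2 : r * (1 - s * r) ≤ r * ‖1 + (s : ℂ) * τ‖ := mul_le_mul_of_nonneg_left hv hr0
    have t3 : 0 ≤ r * s * (1 - r) := mul_nonneg (mul_nonneg hr0 hs0) (by linarith)
    nlinarith
  have hD : (0 : ℝ) < δ0 ^ 2 := by positivity
  have hden : (δ0 : ℂ) ^ 2 * (1 + τ) ^ 2 + 2 ≠ 0 := by
    have h2 := ((hA.mul hA hr0 hr0 (by linarith)).pos_mul hD).1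
    intro h
    have h3 : ((δ0 ^ 2 : ℝ) : ℂ) * ((1 + τ) * (1 + τ)) = -2 := by
      push_cast
      linear_combination h
    rw [h3] at h2
    norm_num at h2
  have hωc : (ω0 : ℂ) ≠ 0 := Complex.ofReal_ne_zero.2 hω.ne'
  have hE : (1 : ℂ) + (δ0 : ℂ) ^ 2 ≠ 0 := by
    have : ((1 + δ0 ^ 2 : ℝ) : ℂ) ≠ 0 := Complex.ofReal_ne_zero.2 (by positivity)
    simpa using this
  have hkey : 1 - 2 * lJ δ0 τ = lJ δ0 τ * lΩ ω0 s τ *
      ((δ0 ^ 2 / ω0 : ℝ) * ((1 + τ) ^ 2 / (1 + s * τ))) := by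
    unfold lJ lΩ
    push_cast
    field_simp
    ring
  refine ⟨(1 + τ) ^ 2 / (1 + s * τ), div_mul_cancel₀ _ hvne, ?_, ?_, ?_, ?_, ?_, ?_, hkey,
    fun X => ?_, fun X => ?_⟩
  · have e : (1 + τ) ^ 2 / (1 + s * τ) - 1 = τ * (1 + (1 - s) + τ) / (1 + s * τ) := by
      field_simp
      ring
    rw [e, norm_div, norm_mul, div_le_iff₀ hv0]
    have t0 : ‖1 + (1 - (s : ℂ)) + τ‖ ≤ 2 - s + r := by
      have := norm_add₃_le (a := (1 : ℂ)) (b := 1 - (s : ℂ)) (c := τ)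
      rw [norm_one, h1s] at this
      linarith
    have t1 : ‖τ‖ * ‖1 + (1 - (s : ℂ)) + τ‖ ≤ r * (2 - s + r) :=
      mul_le_mul hτ t0 (norm_nonneg _) hr0
    have t2 : r * (2 + r) * (1 - s * r) ≤ r * (2 + r) * ‖1 + (s : ℂ) * τ‖ :=
      mul_le_mul_of_nonneg_left hv (by positivity)
    have t3 : 0 ≤ r * s * (1 - r * (2 + r)) :=
      mul_nonneg (mul_nonneg hr0 hs0) (by nlinarith)
    nlinarith
  · have e : (1 + τ) ^ 2 / (1 + s * τ) = (1 + τ) * ((1 + τ) / (1 + s * τ)) := by ring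
    rw [e, two_mul]
    exact hA.mul hB hr0 hr0 (by linarith)
  · have e : ((1 + τ) ^ 2 / (1 + s * τ))⁻¹ - 1
        = -(τ * (1 + τ)⁻¹) * (1 + (1 - s) * (1 + τ)⁻¹) := by
      field_simp
      ring
    have hr1 : 0 < 1 - r := by linarith
    have hw : ‖(1 + τ)⁻¹‖ ≤ (1 - r)⁻¹ := by
      rw [norm_inv]
      exact inv_anti₀ hr1 hu
    have t0 : ‖1 + (1 - (s : ℂ)) * (1 + τ)⁻¹‖ ≤ 1 + (1 - s) * (1 - r)⁻¹ := by
      refine (norm_add_le _ _).trans ?_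
      rw [norm_one, norm_mul, h1s]
      have := mul_le_mul_of_nonneg_left hw (show 0 ≤ 1 - s by linarith)
      linarith
    have t1 : ‖τ * (1 + τ)⁻¹‖ ≤ r * (1 - r)⁻¹ := by
      rw [norm_mul]
      exact mul_le_mul hτ hw (norm_nonneg _) hr0
    rw [e, norm_mul, norm_neg]
    refine (mul_le_mul t1 t0 (norm_nonneg _) (by positivity)).trans (le_of_eq ?_)
    field_simp
    ring
  · have := hB.inv
    rwa [inv_div] at this
  · exact one_div_ne_zero hden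
  · exact mul_ne_zero hωc hvne
  · unfold PP
    rw [hkey]
    ring
  · unfold QQ lJ
    push_cast
    field_simp
    ring

end Pool.Agent.HillD
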