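import Pool.Agent.P.MP_ae2765_an.WSa

/-! Geometry of the complex path. -/

namespace Pool.Agent.HillD
open Real Set Filter Topology Asymptotics

/-- even part of the polynomial approximation of `cosh` -/
noncomputable def wpath0E (w : ℝ) : ℝ :=
  1 + w / 24 + w ^ 2 / 40320 + w ^ 3 / 479001600 + w ^ 4 / 20922789888000

/-- odd part of the polynomial approximation of `cosh` -/
noncomputable def wpath0O (w : ℝ) : ℝ :=
  1 / 2 + w / 720 + w ^ 2 / 3628800 + w ^ 3 / 87178291200 + w ^ 4 / 6402373705728000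

theorem wpath0_cosh {x y : ℂ} {w : ℝ} (hy : x ^ 2 = y) (hw : y ^ 2 = w) (h : ‖y‖ ≤ 20) :
    ‖Complex.cosh x - (wpath0E w + y * wpath0O w)‖ ≤ 1 / 100000 := by
  have h2 : ‖x‖ ^ 2 ≤ 20 := by rw [← norm_pow, hy]; exact h
  have h5 : ‖x‖ ≤ 5 := by nlinarith [norm_nonneg x]
  have h20 : ‖x‖ ^ 20 ≤ 20 ^ 10 := by
    calc ‖x‖ ^ 20 = (‖x‖ ^ 2) ^ 10 := by ring
      _ ≤ 20 ^ 10 := by gcongr
  have key : ∀ u : ℂ, ‖u‖ = ‖x‖ →
      ‖Complex.exp u - ∑ m ∈ Finset.range 20, u ^ m / (m.factorial : ℂ)‖ ≤ 1 / 100000 := by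
    intro u hu
    refine (Complex.exp_bound' (x := u) (n := 20) ?_).trans ?_
    · rw [hu]
      push_cast
      linarith
    · rw [hu]
      have : ((Nat.factorial 20 : ℕ) : ℝ) = 2432902008176640000 := by
        norm_num [Nat.factorial]
      rw [this]
      linarith
  have e : Complex.cosh x - (wpath0E w + y * wpath0O w) =
      ((Complex.exp x - ∑ m ∈ Finset.range 20, x ^ m / (m.factorial : ℂ)) +
        (Complex.exp (-x) - ∑ m ∈ Finset.range 20, (-x) ^ m / (m.factorial : ℂ))) / 2 := by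
    unfold wpath0E wpath0O Complex.cosh
    push_cast
    rw [← hw, ← hy]
    simp only [Finset.sum_range_succ, Finset.sum_range_zero, Nat.factorial]
    push_cast
    ring
  rw [e, norm_div, Complex.norm_ofNat]
  have := norm_add_le (Complex.exp x - ∑ m ∈ Finset.range 20, x ^ m / (m.factorial : ℂ))
    (Complex.exp (-x) - ∑ m ∈ Finset.range 20, (-x) ^ m / (m.factorial : ℂ))
  have k1 := key x rfl
  have k2 := key (-x) (norm_neg x)
  linarith

theorem wpath0_sin (s : ℝ) : pX (π / 2) s =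
    Complex.sin ((1 - Complex.I) * ((π * (1 - s) : ℝ) : ℂ) / 2) ^ 2 := by
  unfold pX pth
  rw [← Complex.cos_pi_div_two_sub]
  congr 2
  push_cast
  ring

theorem wpath0_val (a : ℝ) : Complex.sin ((1 - Complex.I) * (a : ℂ) / 2) ^ 2 =
    (1 - Complex.cosh ((1 + Complex.I) * a)) / 2 := by
  have e : (1 + Complex.I) * (a : ℂ) = 2 * ((1 - Complex.I) * (a : ℂ) / 2) * Complex.I := by
    linear_combination (a : ℂ) * Complex.I_mul_I
  rw [e, Complex.cosh_mul_I, Complex.cos_two_mul, Complex.cos_sq']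
  ring

theorem wpath0_norm (a : ℝ) : ((‖Complex.sin ((1 - Complex.I) * (a : ℂ) / 2) ^ 2‖ : ℝ) : ℂ) =
    (Complex.cosh a - Complex.cosh (a * Complex.I)) / 2 := by
  set u : ℂ := (1 - Complex.I) * (a : ℂ) / 2 with hu
  have hc : (starRingEnd ℂ) u = (1 + Complex.I) * (a : ℂ) / 2 := by
    rw [hu]
    simp only [map_div₀, map_mul, map_sub, map_one, Complex.conj_I, Complex.conj_ofReal,
      map_ofNat, sub_neg_eq_add]
  have e1 : (1 + Complex.I) * (a : ℂ) / 2 - u = a * Complex.I := by rw [hu]; ring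
  have e2 : (1 + Complex.I) * (a : ℂ) / 2 + u = a := by rw [hu]; ring
  rw [norm_pow, ← Complex.normSq_eq_norm_sq, ← Complex.mul_conj, ← Complex.sin_conj, hc,
    Complex.cosh_mul_I, ← Complex.cos_mul_I, ← e1, Complex.cos_sub]
  nth_rewrite 4 [← e2]
  rw [Complex.cos_add]
  ring

/-- the path ending at `π / 2`, with `z = (π (1 - s)) ^ 2` -/
theorem pX90 {s z : ℝ} (hs : s ∈ Icc (0 : ℝ) 1) (hz : z = (π * (1 - s)) ^ 2) :
    0 ≤ z ∧ z ≤ 987 / 100 ∧ z / (987 / 100) ≤ (1 - s) ^ 2 ∧ (1 - s) ^ 2 ≤ z / (9869 / 1000) ∧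
    |(pX (π / 2) s).re - z ^ 2 * (1 / 12 - z ^ 2 * (1 / 5040 - z ^ 2 *
      (1 / 14968800 - 1 / 163459296000 * z ^ 2)))| ≤ 1 / 10000 ∧
    |-(pX (π / 2) s).im - z * (1 / 2 - z ^ 2 * (1 / 180 - z ^ 2 * (1 / 226800 - z ^ 2 *
      (1 / 1362160800 - 1 / 25009272288000 * z ^ 2))))| ≤ 1 / 10000 ∧
    |‖pX (π / 2) s‖ - z * (1 / 2 + z ^ 2 * (1 / 720 + z ^ 2 *
      (1 / 3628800 + 1 / 87178291200 * z ^ 2)))| ≤ 1 / 10000 := by
  have p1 : π ^ 2 ≤ 987 / 100 := by nlinarith [pi_lt_d4, pi_pos]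
  have p2 : 9869 / 1000 ≤ π ^ 2 := by nlinarith [pi_gt_d4]
  have s1 : (1 - s) ^ 2 ≤ 1 := by nlinarith [hs.1, hs.2]
  have s0 : 0 ≤ (1 - s) ^ 2 := sq_nonneg _
  have hz' : z = π ^ 2 * (1 - s) ^ 2 := by rw [hz]; ring
  have z0 : 0 ≤ z := by rw [hz]; exact sq_nonneg _
  have z1 : z ≤ 987 / 100 := by rw [hz']; nlinarith
  set a : ℝ := π * (1 - s) with ha
  have hza : (z : ℂ) = (a : ℂ) ^ 2 := by rw [hz]; push_cast; ring
  have c1 := wpath0_cosh (x := (1 + Complex.I) * a) (y := ((2 * z : ℝ) : ℂ) * Complex.I)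
    (w := -4 * z ^ 2)
    (by push_cast; rw [hza]; linear_combination (a : ℂ) ^ 2 * Complex.I_mul_I)
    (by push_cast; linear_combination 4 * (z : ℂ) ^ 2 * Complex.I_mul_I)
    (by rw [norm_mul, Complex.norm_I, mul_one, Complex.norm_real, Real.norm_eq_abs,
          abs_of_nonneg (by linarith)]
        linarith)
  have c2 := wpath0_cosh (x := (a : ℂ)) (y := (z : ℂ)) (w := z ^ 2) hza.symm
    (by push_cast; ring)
    (by rw [Complex.norm_real, Real.norm_eq_abs, abs_of_nonneg z0]; linarith)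
  have c3 := wpath0_cosh (x := (a : ℂ) * Complex.I) (y := -(z : ℂ)) (w := z ^ 2)
    (by rw [hza]; linear_combination (a : ℂ) ^ 2 * Complex.I_mul_I)
    (by push_cast; ring)
    (by rw [norm_neg, Complex.norm_real, Real.norm_eq_abs, abs_of_nonneg z0]; linarith)
  have hX : pX (π / 2) s = (1 - Complex.cosh ((1 + Complex.I) * a)) / 2 := by
    rw [wpath0_sin, wpath0_val]
  have hN : ((‖pX (π / 2) s‖ : ℝ) : ℂ) =
      (Complex.cosh a - Complex.cosh (a * Complex.I)) / 2 := by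
    rw [wpath0_sin, wpath0_norm]
  refine ⟨z0, z1, ?_, ?_, ?_, ?_, ?_⟩
  · rw [div_le_iff₀ (by norm_num), hz']
    nlinarith
  · rw [le_div_iff₀ (by norm_num), hz']
    nlinarith
  · have r := (Complex.abs_re_le_norm _).trans c1
    rw [hX]
    generalize Complex.cosh ((1 + Complex.I) * a) = C at r ⊢
    simp only [Complex.sub_re, Complex.add_re, Complex.mul_re, Complex.mul_im, Complex.ofReal_re,
      Complex.ofReal_im, Complex.I_re, Complex.I_im, Complex.div_ofNat_re, Complex.one_re,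
      mul_zero, zero_mul, sub_zero, mul_one, add_zero] at r ⊢
    unfold wpath0E at r
    rw [abs_le] at r ⊢
    constructor <;> nlinarith [r.1, r.2]
  · have r := (Complex.abs_im_le_norm _).trans c1
    rw [hX]
    generalize Complex.cosh ((1 + Complex.I) * a) = C at r ⊢
    simp only [Complex.sub_im, Complex.add_im, Complex.mul_re, Complex.mul_im, Complex.ofReal_re,
      Complex.ofReal_im, Complex.I_re, Complex.I_im, Complex.div_ofNat_im, Complex.one_im,
      mul_zero, sub_zero, mul_one, add_zero, zero_add] at r ⊢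
    unfold wpath0O at r
    rw [abs_le] at r ⊢
    constructor <;> nlinarith [r.1, r.2]
  · have e : ((‖pX (π / 2) s‖ - z * wpath0O (z ^ 2) : ℝ) : ℂ) =
        ((Complex.cosh a - (wpath0E (z ^ 2) + z * wpath0O (z ^ 2))) -
          (Complex.cosh (a * Complex.I) - (wpath0E (z ^ 2) + -(z : ℂ) * wpath0O (z ^ 2)))) / 2 := by
      rw [Complex.ofReal_sub, hN, Complex.ofReal_mul z]
      ring
    have r : |‖pX (π / 2) s‖ - z * wpath0O (z ^ 2)| ≤ 1 / 100000 := by
      rw [← Real.norm_eq_abs, ← Complex.norm_real, e, norm_div, Complex.norm_ofNat]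
      have := norm_sub_le (Complex.cosh a - (wpath0E (z ^ 2) + z * wpath0O (z ^ 2)))
        (Complex.cosh (a * Complex.I) - (wpath0E (z ^ 2) + -(z : ℂ) * wpath0O (z ^ 2)))
      linarith
    have z9 : z ^ 9 ≤ 10 ^ 9 := by gcongr; linarith
    have z9' : 0 ≤ z ^ 9 := by positivity
    unfold wpath0O at r
    rw [abs_le] at r ⊢
    constructor <;> nlinarith [r.1, r.2]

end Pool.Agent.HillD
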