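import Pool.Agent.P.MP_ae2765_an.WR1d
import Pool.Agent.P.MP_ae2765_an.WMom
import Pool.Agent.P.MP_ae2765_an.Real

/-! First region: the numerical criterion. -/

namespace Pool.Agent.HillD
open Real Set Filter Topology Asymptotics Pool.Agent.HillD.Num Pool.Agent.P.MP_4c4e6e_co.Eng

theorem wr1e_g (κ μ : ℝ) (n n1 n2 : ℕ) (h1 : n1 = n + 1) (h2 : n2 = n + 2) (x y z : ℝ)
    (hx : x = 1 / ((n : ℝ) + 2)) (hy : y = (n : ℝ) + 1) (hz : z = (n : ℝ) + 4) :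
    gco κ μ n2 = -(x * ((y * (κ + μ) + (3 / 2 * κ + 5 / 2 * μ)) * gco κ μ n1 +
      z * (κ * μ * gco κ μ n))) := by
  subst h1 h2 hx hy hz
  rw [gco]
  push_cast
  ring

theorem wr1e_g2 (κ μ : ℝ) :
    gco κ μ 2 = -(1 / 2 * ((κ + μ + (3 / 2 * κ + 5 / 2 * μ)) * gco κ μ 1 + 4 * (κ * μ))) := by
  rw [wr1e_g κ μ 0 1 2 rfl rfl (1 / 2) 1 4 (by norm_num) (by norm_num) (by norm_num),
    show gco κ μ 0 = 1 from rfl]
  ring

theorem wr1e_nuc (κ μ : ℝ) :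
    nuc κ μ 0 = 1 + 1 / 2 * gco κ μ 2 + 3 / 8 * gco κ μ 4 + 5 / 16 * gco κ μ 6 +
      35 / 128 * gco κ μ 8 + 63 / 256 * gco κ μ 10 + 231 / 1024 * gco κ μ 12 ∧
    nuc κ μ 1 = 1 / 2 * gco κ μ 1 + 3 / 8 * gco κ μ 3 + 5 / 16 * gco κ μ 5 +
      35 / 128 * gco κ μ 7 + 63 / 256 * gco κ μ 9 + 231 / 1024 * gco κ μ 11 ∧
    nuc κ μ 2 = 1 / 2 + 3 / 8 * gco κ μ 2 + 5 / 16 * gco κ μ 4 + 35 / 128 * gco κ μ 6 +
      63 / 256 * gco κ μ 8 + 231 / 1024 * gco κ μ 10 + 429 / 2048 * gco κ μ 12 ∧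
    nuc κ μ 3 = 3 / 8 * gco κ μ 1 + 5 / 16 * gco κ μ 3 + 35 / 128 * gco κ μ 5 +
      63 / 256 * gco κ μ 7 + 231 / 1024 * gco κ μ 9 + 429 / 2048 * gco κ μ 11 ∧
    nuc κ μ 4 = 3 / 8 + 5 / 16 * gco κ μ 2 + 35 / 128 * gco κ μ 4 + 63 / 256 * gco κ μ 6 +
      231 / 1024 * gco κ μ 8 + 429 / 2048 * gco κ μ 10 + 6435 / 32768 * gco κ μ 12 := by
  have g0 : gco κ μ 0 = 1 := rfl
  have w0 : wal 0 = 1 := by norm_num [wal]
  have w1 : wal 1 = 0 := by norm_num [wal]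
  have w2 : wal 2 = 1 / 2 := by norm_num [wal]
  have w3 : wal 3 = 0 := by norm_num [wal]
  have w4 : wal 4 = 3 / 8 := by norm_num [wal, Nat.choose]
  have w5 : wal 5 = 0 := by norm_num [wal]
  have w6 : wal 6 = 5 / 16 := by norm_num [wal, Nat.choose]
  have w7 : wal 7 = 0 := by norm_num [wal]
  have w8 : wal 8 = 35 / 128 := by norm_num [wal, Nat.choose]
  have w9 : wal 9 = 0 := by norm_num [wal]
  have w10 : wal 10 = 63 / 256 := by norm_num [wal, Nat.choose]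
  have w11 : wal 11 = 0 := by norm_num [wal]
  have w12 : wal 12 = 231 / 1024 := by norm_num [wal, Nat.choose]
  have w13 : wal 13 = 0 := by norm_num [wal]
  have w14 : wal 14 = 429 / 2048 := by norm_num [wal, Nat.choose]
  have w15 : wal 15 = 0 := by norm_num [wal]
  have w16 : wal 16 = 6435 / 32768 := by norm_num [wal, Nat.choose]
  simp only [nuc, Finset.sum_range_succ, Finset.sum_range_zero, Nat.reduceAdd, g0, w0, w1, w2, w3,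
    w4, w5, w6, w7, w8, w9, w10, w11, w12, w13, w14, w15, w16]
  refine ⟨?_, ?_, ?_, ?_, ?_⟩ <;> ring

theorem wr1e_pt {ε t av ae x : ℝ} (hε0 : 0 ≤ ε) (ht0 : 0 ≤ t)
    (hx : |x| ≤ 1) {i k : ℕ} (hi : i ≤ 2) (hk : k ≤ 2) :
    √((3 + ε) * (2 + t)⁻¹) * (√((1 + t * (1 / 2 + x / 2)) / (1 + ε + (1 - ε) * (1 / 2 + x / 2))) *
      ((av * ((1 / 2 + x / 2) / (1 + t * (1 / 2 + x / 2)))) ^ i *
        (ae * ((1 - (1 / 2 + x / 2)) / (1 + ε + (1 - ε) * (1 / 2 + x / 2)))) ^ k)) =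
    (av * (2 * (2 + t)⁻¹)) ^ i * (ae * (2 * (3 + ε)⁻¹)) ^ k *
      ((((1 + x) / 2) ^ i * ((1 - x) / 2) ^ k * (1 + t * (2 + t)⁻¹ * x) ^ (2 - i) *
        (1 + (1 - ε) * (3 + ε)⁻¹ * x) ^ (2 - k)) /
        ((1 + t * (2 + t)⁻¹ * x) * √(1 + t * (2 + t)⁻¹ * x) *
          ((1 + (1 - ε) * (3 + ε)⁻¹ * x) ^ 2 * √(1 + (1 - ε) * (3 + ε)⁻¹ * x)))) := by
  obtain ⟨hx1, hx2⟩ := abs_le.1 hx
  have a0 : 0 < 2 + t := by linarith
  have b0 : 0 < 3 + ε := by linarith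
  have e1 : 1 + t * (1 / 2 + x / 2) = (2 + t) / 2 * (1 + t * (2 + t)⁻¹ * x) := by
    field_simp
    ring
  have e2 : 1 + ε + (1 - ε) * (1 / 2 + x / 2) = (3 + ε) / 2 * (1 + (1 - ε) * (3 + ε)⁻¹ * x) := by
    field_simp
    ring
  have hu : 0 < 1 + t * (2 + t)⁻¹ * x := by
    have : 0 < (2 + t) / 2 * (1 + t * (2 + t)⁻¹ * x) := by rw [← e1]; nlinarith
    exact (mul_pos_iff_of_pos_left (by linarith)).1 this
  have hv : 0 < 1 + (1 - ε) * (3 + ε)⁻¹ * x := by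
    have : 0 < (3 + ε) / 2 * (1 + (1 - ε) * (3 + ε)⁻¹ * x) := by rw [← e2]; nlinarith
    exact (mul_pos_iff_of_pos_left (by linarith)).1 this
  rw [e1, e2]
  generalize 1 + t * (2 + t)⁻¹ * x = u at hu ⊢
  generalize 1 + (1 - ε) * (3 + ε)⁻¹ * x = v at hv ⊢
  have e3 : √((3 + ε) * (2 + t)⁻¹) * √((2 + t) / 2 * u / ((3 + ε) / 2 * v)) = √u / √v := by
    rw [← Real.sqrt_mul (by positivity), ← Real.sqrt_div hu.le]
    congr 1
    field_simp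
  rw [← mul_assoc, e3]
  have hp : 0 < √u := Real.sqrt_pos.2 hu
  have hq : 0 < √v := Real.sqrt_pos.2 hv
  have hp2 : u = √u ^ 2 := (Real.sq_sqrt hu.le).symm
  generalize √u = p at hp hp2 ⊢
  generalize √v = q at hq ⊢
  subst hp2
  have e4 : 1 - (1 / 2 + x / 2) = (1 - x) / 2 := by ring
  have e5 : 1 / 2 + x / 2 = (1 + x) / 2 := by ring
  rw [e4, e5]
  generalize (1 - x) / 2 = Y
  generalize (1 + x) / 2 = X
  generalize 2 + t = a at a0 ⊢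
  generalize 3 + ε = b at b0 ⊢
  interval_cases i <;> interval_cases k <;> simp only [Nat.reduceSub, pow_zero, pow_one] <;>
    field_simp

theorem wr1e_mom {ε t av ae ka mu : ℝ} (hε0 : 0 ≤ ε) (hε1 : ε ≤ 1) (ht0 : 0 ≤ t) (ht1 : t ≤ 1)
    (hka : ka = t * (2 + t)⁻¹) (hmu : mu = (1 - ε) * (3 + ε)⁻¹)
    (h12 : gco ka mu 12 ^ 2 < 1 / 1000000) (h13 : gco ka mu 13 ^ 2 < 1 / 1000000)
    {i k : ℕ} (hi : i ≤ 2) (hk : k ≤ 2) (r a b d f : ℝ)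
    (hw : ∀ x : ℝ, r * ((1 + a * x) * (1 + b * x) * (1 + d * x) * (1 + f * x)) =
      ((1 + x) / 2) ^ i * ((1 - x) / 2) ^ k * (1 + ka * x) ^ (2 - i) * (1 + mu * x) ^ (2 - k)) :
    ∃ x : ℝ, 4989 / 5000 ≤ x ∧ x ≤ 5011 / 5000 ∧ mom ε t av ae i k =
      (av * (2 * (2 + t)⁻¹)) ^ i * (ae * (2 * (3 + ε)⁻¹)) ^ k *
        ((r * nuc ka mu 0 + r * (a + b + d + f) * nuc ka mu 1 +
          r * (a * b + a * d + a * f + b * d + b * f + d * f) * nuc ka mu 2 +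
          r * (a * b * d + a * b * f + a * d * f + b * d * f) * nuc ka mu 3 +
          r * (a * b * d * f) * nuc ka mu 4) * x) := by
  have a0 : 0 < 2 + t := by linarith
  have b0 : 0 < 3 + ε := by linarith
  have k0 : 0 ≤ ka := by rw [hka]; positivity
  have k1 : ka ≤ 1 / 3 := by
    rw [hka, ← div_eq_mul_inv, div_le_iff₀ a0]; linarith
  have m0 : 0 ≤ mu := by rw [hmu]; exact mul_nonneg (by linarith) (by positivity)
  have m1 : mu ≤ 1 / 3 := by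
    rw [hmu, ← div_eq_mul_inv, div_le_iff₀ b0]; linarith
  have hw' : ∀ x : ℝ, r + r * (a + b + d + f) * x +
      r * (a * b + a * d + a * f + b * d + b * f + d * f) * x ^ 2 +
      r * (a * b * d + a * b * f + a * d * f + b * d * f) * x ^ 3 + r * (a * b * d * f) * x ^ 4 =
      ((1 + x) / 2) ^ i * ((1 - x) / 2) ^ k * (1 + ka * x) ^ (2 - i) * (1 + mu * x) ^ (2 - k) :=
    fun x => by rw [← hw]; ring
  obtain ⟨x, hx1, hx2, hx⟩ := mom_rel k0 k1 m0 m1 h12 h13 _ _ _ _ _ (fun x hx => by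
    obtain ⟨h1, h2⟩ := abs_le.1 hx
    rw [hw']
    have p1 : 0 ≤ (1 + x) / 2 := by linarith
    have p2 : 0 ≤ (1 - x) / 2 := by linarith
    have p3 : 0 ≤ 1 + ka * x := by nlinarith
    have p4 : 0 ≤ 1 + mu * x := by nlinarith
    positivity)
  refine ⟨x, hx1, hx2, ?_⟩
  simp only [hw'] at hx
  rw [mom, mul_assoc, ← intervalIntegral.integral_const_mul]
  simp only [Real.cos_sq, wr1e_pt hε0 ht0 (abs_cos_le_one _) hi hk]
  rw [intervalIntegral.integral_const_mul, ← hka, ← hmu, hx]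
  field_simp

theorem wr1e_r {x y z : ℝ} (h0 : 0 ≤ y) (h1 : y ≤ z * x) :
    ∃ r : ℝ, 0 ≤ r ∧ r ≤ 1 ∧ y = r * x * z := by
  rcases (h0.trans h1).eq_or_lt with h | h
  · exact ⟨0, le_rfl, zero_le_one, by linarith⟩
  · refine ⟨y / (z * x), div_nonneg h0 h.le, (div_le_one h).2 h1, ?_⟩
    rw [mul_assoc, mul_comm x, div_mul_cancel₀ _ h.ne']

theorem wr1e_k2 {c pk B e F L : ℝ} (hc : 0 < c) (hB : B ≤ c * pk) (b : |e| ≤ B / (13 / 100) ^ 2)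
    (h : F + e = 0) (hL : 2 * F = c * L) :
    ¬ 0 < L - 20000 / 169 * pk ∧ ¬ 0 < -L - 20000 / 169 * pk := by
  have e2 : B / (13 / 100) ^ 2 = 10000 / 169 * B := by ring
  rw [e2] at b
  obtain ⟨b1, b2⟩ := abs_le.1 b
  constructor
  · intro h0
    have h1 := mul_pos hc h0
    have h2 : c * (L - 20000 / 169 * pk) = c * L - 20000 / 169 * (c * pk) := by ring
    rw [h2, ← hL] at h1
    generalize c * pk = P at h1 hB
    linarith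
  · intro h0
    have h1 := mul_pos hc h0
    have h2 : c * (-L - 20000 / 169 * pk) = -(c * L) - 20000 / 169 * (c * pk) := by ring
    rw [h2, ← hL] at h1
    generalize c * pk = P at h1 hB
    linarith

theorem wr1e_k3 {c pk B e F L : ℝ} (hc : 0 < c) (hB : B ≤ c * pk) (b : |e| ≤ B / (13 / 100) ^ 3)
    (hL : 6 * F = c * L) (h0 : 0 < L - 6000000 / 2197 * pk) : 0 < F + e := by
  have e2 : B / (13 / 100) ^ 3 = 1000000 / 2197 * B := by ring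
  rw [e2] at b
  obtain ⟨b1, b2⟩ := abs_le.1 b
  have h1 := mul_pos hc h0
  have h2 : c * (L - 6000000 / 2197 * pk) = c * L - 6000000 / 2197 * (c * pk) := by ring
  rw [h2, ← hL] at h1
  generalize c * pk = P at h1 hB
  linarith

theorem r1_main {δ0 ω0 ε t n av ae E0 s e1 e2 e3 : ℝ} (hδ : 0 < δ0) (hω : 0 < ω0)
    (hε : ε = 1 / (1 + δ0 ^ 2)) (ht : t = δ0 ^ 2 / ω0) (ht1 : t ≤ 1) (hn : 0 < n)
    (hav : t = n * av) (hae : (1 - ε) * ε = n * ae) (hE : 0 < E0)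
    (hb : ∀ w : ℝ, 0 ≤ w → w ≤ 2 → ∃ tl : List ℝ,
      r1Body.holds (w :: E0 :: ε :: (1 - ε) :: n :: t :: ae :: av :: tl))
    (b1 : |e1| ≤ n * (ω0 * √(2 / (1 + δ0 ^ 2))) * E0 / (13 / 100))
    (b2 : |e2| ≤ n * (ω0 * √(2 / (1 + δ0 ^ 2))) * E0 / (13 / 100) ^ 2)
    (b3 : |e3| ≤ n * (ω0 * √(2 / (1 + δ0 ^ 2))) * E0 / (13 / 100) ^ 3)
    (h1 : F1 (π / 2) ω0 (jj δ0) s + e1 = 0) (h2 : F2 (π / 2) ω0 (jj δ0) s + e2 = 0) :
    0 < F3 (π / 2) ω0 (jj δ0) s + e3 := by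
  have hε0 : 0 ≤ ε := by rw [hε]; positivity
  have hε1 : ε ≤ 1 := by
    rw [hε, div_le_one (by positivity)]; nlinarith [sq_nonneg δ0]
  have ht0 : 0 ≤ t := by rw [ht]; positivity
  have hav0 : 0 ≤ av := nonneg_of_mul_nonneg_right (hav ▸ ht0) hn
  have hae0 : 0 ≤ ae :=
    nonneg_of_mul_nonneg_right (hae ▸ mul_nonneg (sub_nonneg.2 hε1) hε0) hn
  obtain ⟨sg, hsg⟩ : ∃ sg : ℝ, s = 1 - ε - n * sg := ⟨(1 - ε - s) / n, by field_simp; ring⟩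
  obtain ⟨M, hM⟩ : ∃ M, M = mom ε t av ae := ⟨_, rfl⟩
  obtain ⟨k, hk⟩ : ∃ k : ℝ, k = 2 - s := ⟨_, rfl⟩
  obtain ⟨sk, hsk⟩ : ∃ sk : ℝ, sk = 1 - s * k := ⟨_, rfl⟩
  obtain ⟨h, hh⟩ : ∃ h : ℝ, h = 1 / 2 * k := ⟨_, rfl⟩
  obtain ⟨c, hc⟩ : ∃ c : ℝ,
      c = n * (ω0 * √(2 / (1 + δ0 ^ 2))) * (π / 2) / √((3 + ε) * (2 + t)⁻¹) := ⟨_, rfl⟩
  obtain ⟨pk, hpk⟩ : ∃ pk : ℝ, pk = 6367 / 10000 * (E0 * √((3 + ε) * (2 + t)⁻¹)) := ⟨_, rfl⟩
  obtain ⟨f1, f2, f3⟩ := F_mom hδ hω hε rfl ht hn hav hae hsg hk hsk hh hM hc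
  have hR : 0 < √((3 + ε) * (2 + t)⁻¹) := Real.sqrt_pos.2 (by positivity)
  have hS : 0 < n * (ω0 * √(2 / (1 + δ0 ^ 2))) := by positivity
  have hc0 : 0 < c := by rw [hc]; positivity
  have hpk0 : 0 < pk := by rw [hpk]; positivity
  have hB : n * (ω0 * √(2 / (1 + δ0 ^ 2))) * E0 ≤ c * pk := by
    have e : c * pk = n * (ω0 * √(2 / (1 + δ0 ^ 2))) * E0 * (π / 2 * (6367 / 10000)) := by
      rw [hc, hpk]; field_simp
    rw [e]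
    exact le_mul_of_one_le_right (by positivity) (by linarith [Real.pi_gt_d4])
  generalize n * (ω0 * √(2 / (1 + δ0 ^ 2))) * E0 = B at b1 b2 b3 hB
  have hcp : 0 < c * pk := mul_pos hc0 hpk0
  obtain ⟨b11, b12⟩ := abs_le.1 b1
  obtain ⟨w, hw0, hw2, hw⟩ : ∃ w : ℝ, 0 ≤ w ∧ w ≤ 2 ∧ e1 = c * (100 / 13 * ((w - 1) * pk)) := by
    refine ⟨1 + 13 / 100 * e1 / (c * pk), ?_, ?_, by field_simp; ring⟩
    · have : -1 ≤ 13 / 100 * e1 / (c * pk) := by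
        rw [le_div_iff₀ hcp]; linarith
      linarith
    · have : 13 / 100 * e1 / (c * pk) ≤ 1 := by
        rw [div_le_iff₀ hcp]; linarith
      linarith
  have hI := fun i k => mom_ineq hε0 hε1 ht0 hav0 hae0 hn.le hav i k
  simp only [← hM] at hI
  have hden : 0 < M 0 0 - 1 / 2 * (n * M 1 0) := by
    obtain ⟨_, _, _, a, b⟩ := hI 0 0
    linarith
  have hsg' : sg = (M 0 1 + 1 / 2 * ((1 + ε) * M 1 0) + 100 / 13 * ((w - 1) * pk)) *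
      (M 0 0 - 1 / 2 * (n * M 1 0))⁻¹ := by
    rw [eq_mul_inv_iff_mul_eq₀ hden.ne']
    have e : c * (M 0 1 - sg * M 0 0 + h * M 1 0 + 100 / 13 * ((w - 1) * pk)) = 0 := by
      rw [mul_add, ← f1, ← hw, h1]
    have e' := (mul_eq_zero.1 e).resolve_left hc0.ne'
    rw [hh, hk, hsg] at e'
    linear_combination -e'
  obtain ⟨tl, htl⟩ := hb w hw0 hw2
  obtain ⟨ka, hka⟩ : ∃ ka : ℝ, ka = t * (2 + t)⁻¹ := ⟨_, rfl⟩
  obtain ⟨mu, hmu⟩ : ∃ mu : ℝ, mu = (1 - ε) * (3 + ε)⁻¹ := ⟨_, rfl⟩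
  obtain ⟨h12, h13, H⟩ := r1Body_real htl ka hka mu hmu _ rfl _ rfl _ rfl (gco ka mu 1) rfl
    _ (wr1e_g2 ka mu)
    _ (wr1e_g ka mu 1 2 3 rfl rfl (1 / 3) 2 5 (by norm_num) (by norm_num) (by norm_num))
    _ (wr1e_g ka mu 2 3 4 rfl rfl (1 / 4) 3 6 (by norm_num) (by norm_num) (by norm_num))
    _ (wr1e_g ka mu 3 4 5 rfl rfl (1 / 5) 4 7 (by norm_num) (by norm_num) (by norm_num))
    _ (wr1e_g ka mu 4 5 6 rfl rfl (1 / 6) 5 8 (by norm_num) (by norm_num) (by norm_num))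
    _ (wr1e_g ka mu 5 6 7 rfl rfl (1 / 7) 6 9 (by norm_num) (by norm_num) (by norm_num))
    _ (wr1e_g ka mu 6 7 8 rfl rfl (1 / 8) 7 10 (by norm_num) (by norm_num) (by norm_num))
    _ (wr1e_g ka mu 7 8 9 rfl rfl (1 / 9) 8 11 (by norm_num) (by norm_num) (by norm_num))
    _ (wr1e_g ka mu 8 9 10 rfl rfl (1 / 10) 9 12 (by norm_num) (by norm_num) (by norm_num))
    _ (wr1e_g ka mu 9 10 11 rfl rfl (1 / 11) 10 13 (by norm_num) (by norm_num) (by norm_num))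
    _ (wr1e_g ka mu 10 11 12 rfl rfl (1 / 12) 11 14 (by norm_num) (by norm_num) (by norm_num))
    _ (wr1e_g ka mu 11 12 13 rfl rfl (1 / 13) 12 15 (by norm_num) (by norm_num) (by norm_num))
  obtain ⟨n0, n1, n2, n3, n4⟩ := wr1e_nuc ka mu
  have hm := fun i k hi hk => wr1e_mom (av := av) (ae := ae) (i := i) (k := k) hε0 hε1 ht0 ht1
    hka hmu (sub_pos.1 h12) (sub_pos.1 h13) hi hk
  simp only [← hM] at hm
  obtain ⟨x00, l00, u00, m00⟩ := hm 0 0 (by norm_num) (by norm_num) 1 ka ka mu mu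
    fun x => by norm_num; ring
  obtain ⟨x01, l01, u01, m01⟩ := hm 0 1 (by norm_num) (by norm_num) (1 / 2) ka ka mu (-1)
    fun x => by norm_num; ring
  obtain ⟨x02, l02, u02, m02⟩ := hm 0 2 (by norm_num) (by norm_num) (1 / 4) ka ka (-1) (-1)
    fun x => by norm_num; ring
  obtain ⟨x10, l10, u10, m10⟩ := hm 1 0 (by norm_num) (by norm_num) (1 / 2) 1 ka mu mu
    fun x => by norm_num; ring
  obtain ⟨x11, l11, u11, m11⟩ := hm 1 1 (by norm_num) (by norm_num) (1 / 4) 1 ka mu (-1)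
    fun x => by norm_num; ring
  obtain ⟨x20, l20, u20, m20⟩ := hm 2 0 (by norm_num) (by norm_num) (1 / 4) 1 1 mu mu
    fun x => by norm_num; ring
  obtain ⟨a0, ha0⟩ : ∃ a0 : ℝ, a0 = av * (2 * (2 + t)⁻¹) := ⟨_, rfl⟩
  obtain ⟨b0, hb0⟩ : ∃ b0 : ℝ, b0 = ae * (2 * (3 + ε)⁻¹) := ⟨_, rfl⟩
  rw [← ha0, ← hb0] at m00 m01 m02 m10 m11 m20
  have H' := H _ n0 _ n1 _ n2 _ n3 _ n4 _ rfl _ rfl _ rfl _ rfl _ rfl _ rfl _ rfl _ rfl _ rfl _ rfl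
    _ rfl _ rfl _ rfl _ rfl _ rfl _ rfl _ rfl a0 ha0 b0 hb0 _ rfl _ rfl _ rfl _ rfl _ rfl _ rfl _ rfl
    _ rfl _ rfl _ rfl _ rfl _ rfl _ rfl _ rfl
    x00 l00 u00 (M 0 0) (by rw [m00]; ring) x01 l01 u01 (M 0 1) (by rw [m01]; ring)
    x02 l02 u02 (M 0 2) (by rw [m02]; ring) x10 l10 u10 (M 1 0) (by rw [m10]; ring)
    x11 l11 u11 (M 1 1) (by rw [m11]; ring) x20 l20 u20 (M 2 0) (by rw [m20]; ring)
    pk hpk sg hsg' s hsg k hk sk hsk _ rfl _ rfl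
  rcases H' with H' | H' | H'
  · exact absurd H' (wr1e_k2 hc0 hB b2 h2 f2).1
  · exact absurd H' (wr1e_k2 hc0 hB b2 h2 f2).2
  obtain ⟨r0, p0, q0, s0⟩ := wr1e_r (hI 3 0).1 (hI 2 0).2.1
  obtain ⟨r1, p1, q1, s1⟩ := wr1e_r (hI 2 1).1 (hI 1 1).2.1
  obtain ⟨r2, p2, q2, s2⟩ := wr1e_r (hI 1 2).1 (hI 1 1).2.2.1
  obtain ⟨r3, p3, q3, s3⟩ := wr1e_r (hI 0 3).1 (hI 0 2).2.2.1
  exact wr1e_k3 hc0 hB b3 f3 (H' r0 p0 q0 r1 p1 q1 r2 p2 q2 r3 p3 q3 _ s0 _ s1 _ s2 _ s3 h hh _ rfl _ rfl _ rfl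
    _ rfl)

end Pool.Agent.HillD
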