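import Pool.Agent.P.MP_ae2765_an.WR1c
import Pool.Agent.P.MP_ae2765_an.WR1e
import Pool.Agent.P.MP_ae2765_an.WLine

/-! First region: the criterion holds. -/

namespace Pool.Agent.HillD
open Real Set Filter Topology Asymptotics Pool.Agent.HillD.Num Pool.Agent.P.MP_4c4e6e_co.Eng

theorem wr1_sq {δ0 ω0 a : ℝ} (ha : 0 ≤ a) (h : a ≤ ω0 * √(2 / (1 + δ0 ^ 2))) :
    a ^ 2 ≤ ω0 ^ 2 * (2 / (1 + δ0 ^ 2)) := by
  have h1 := pow_le_pow_left₀ ha h 2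
  rwa [mul_pow, Real.sq_sqrt (by positivity)] at h1

theorem wr1_cube {a b : ℝ} (hb : 0 ≤ b) (h : a ^ 3 ≤ b ^ 3) : a ≤ b :=
  le_of_pow_le_pow_left₀ (by norm_num) hb h

theorem wr1_deriv (n p q q' u : ℝ) (hq : q' = 2 * q) :
    HasDerivAt (fun u : ℝ => n * (p + q * (1 - u) ^ 2)) (-(n * (q' * (1 - u)))) u := by
  have h1 : HasDerivAt (fun u : ℝ => 1 - u) (-1) u := by
    simpa using (hasDerivAt_id u).const_sub 1
  have h2 := (((h1.fun_pow 2).const_mul q).const_add p).const_mul n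
  refine h2.congr_deriv ?_
  rw [hq, show (2 - 1 : ℕ) = 1 from rfl]
  push_cast
  ring

theorem r1_good1 (typ : Bool) {δ0 ω0 s : ℝ} (hδ : 0 < δ0) (hω : 0 < ω0)
    (h1 : (1 + δ0 ^ 2) ^ 2 / ω0 ≤ 23 / 5) (h2 : 69 / 2 ≤ ω0 * √(2 / (1 + δ0 ^ 2)))
    (hs0 : 0 ≤ s) (hs1 : s ≤ δ0 ^ 2 / (1 + δ0 ^ 2)) : Good typ δ0 ω0 s := by
  obtain ⟨x, hx⟩ : ∃ x, x = (1 + δ0 ^ 2) ^ 2 / ω0 := ⟨_, rfl⟩
  obtain ⟨y, hy⟩ : ∃ y, y = 1 / (1 + δ0 ^ 2) := ⟨_, rfl⟩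
  obtain ⟨S, hS⟩ : ∃ S, S = ω0 * √(2 / (1 + δ0 ^ 2)) := ⟨_, rfl⟩
  have hE : 0 < 1 + δ0 ^ 2 := by positivity
  have hD : 0 < δ0 ^ 2 := by positivity
  have hx0 : 0 < x := by rw [hx]; positivity
  have hy0 : 0 < y := by rw [hy]; positivity
  have hy1 : y < 1 := by rw [hy, div_lt_one hE]; linarith
  have hn : (1 - y) * y = δ0 ^ 2 / (1 + δ0 ^ 2) ^ 2 := by rw [hy]; field_simp; ring
  have ht : (1 - y) * y * x = δ0 ^ 2 / ω0 := by rw [hn, hx]; field_simp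
  have hn0 : 0 < (1 - y) * y := mul_pos (by linarith) hy0
  have hn1 : (1 - y) * y ≤ 1 / 4 := by nlinarith [sq_nonneg (y - 1 / 2)]
  have hq := wr1_sq (by norm_num) h2
  have hv : 4761 / 4 * (x ^ 2 * y ^ 2 * y) - 2 ≤ 0 := by
    have e : x ^ 2 * y ^ 2 * y * (ω0 ^ 2 * (2 / (1 + δ0 ^ 2))) = 2 := by
      rw [hx, hy]; field_simp
    have h0 : 0 ≤ x ^ 2 * y ^ 2 * y := by positivity
    nlinarith [mul_le_mul_of_nonneg_left hq h0]
  rw [← hx] at h1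
  have ht1 : (1 - y) * y * x ≤ 1 := by
    have h3 : y * x ≤ 1 := by
      refine wr1_cube zero_le_one ?_
      have e : (y * x) ^ 3 = x * (x ^ 2 * y ^ 2 * y) := by ring
      have h0 : 0 ≤ x ^ 2 * y ^ 2 * y := by positivity
      rw [e]
      nlinarith
    have h4 : 0 ≤ y * x := by positivity
    nlinarith
  rw [← hS] at h2
  have hS0 : 0 < S := by linarith
  obtain ⟨ϕ, c0, e1, e2, e3, hR, b1, b2, b3, hJ⟩ := line90 typ (s := s) (r := 13 / 100)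
    (c := 2982 / 10000) (bb := 213 / 1000 * ((1 - y) * y))
    (E := (1 - y) * y * S * (7 / 10000 + 31 / 500000 * (x * ((1 - y) * y * x)))) hδ hω
    (by norm_num) (by norm_num)
    (fun τ hτ => r1_err1 hδ hω hn hS (hx ▸ h1) h2 hs0 hs1 (mem_ball_zero_iff.1 hτ).le)
    (fun u hu => ⟨wr1_deriv _ _ _ _ u (by norm_num), by positivity, by
      have h3 : (1 - u) ^ 2 ≤ 1 := by nlinarith [hu.1, hu.2]
      nlinarith⟩)
    (by norm_num) (by norm_num) (by norm_num) (by norm_num) (by linarith)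
    (by show (1 - y) * y * (23 / 1000 + 19 / 100 * (1 - 1) ^ 2) ≤ 1 / 2; nlinarith)
    (by
      rw [← hx, ← ht]
      generalize (1 - y) * y = n at *
      have h3 : n * (69 / 2) ≤ n * S := mul_le_mul_of_nonneg_left h2 hn0.le
      have h4 : n * n ≤ n * (1 / 4) := mul_le_mul_of_nonneg_left hn1 hn0.le
      have e : n * S * (7 / 10000 + 31 / 500000 * (x * (n * x)))
          = n * S * (7 / 10000) + n * S * (31 / 500000 * (x * (n * x))) := by ring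
      have e' : n * S * (2053 / 10000000) / (2 * (54 / 100) ^ 2) = n * S * (2053 / 5832000) := by
        ring
      have e'' : n * (23 / 1000 + 19 / 100 * (1 - 1) ^ 2) = n * (23 / 1000) := by ring
      rw [e, e', e'']
      nlinarith)
  refine Or.inl ⟨ϕ, c0, _, _, _, hR, hJ, fun h3 h4 => ?_⟩
  rw [hS] at b1 b2 b3
  refine r1_main (av := x) (ae := 1) hδ hω hy ht ht1 hn0 rfl (mul_one _).symm (by positivity)
    (fun w hw0 hw2 => ?_) b1 b2 b3 h3 h4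
  rcases le_total x (13 / 5) with hx1 | hx1
  · exact RA_real x y w hx0.le hx1 hy0.le hy1.le hw0 hw2 hv
  · refine RB_real x y w hx1 h1 hy0.le ?_ hw0 hw2 hv
    refine wr1_cube (by norm_num) ?_
    have h5 : (13 / 5 : ℝ) ^ 2 ≤ x ^ 2 := pow_le_pow_left₀ (by norm_num) hx1 2
    have h6 : 0 ≤ y ^ 3 := by positivity
    nlinarith [mul_le_mul_of_nonneg_right h5 h6]

theorem r1_good2 (typ : Bool) {δ0 ω0 s : ℝ} (hδ : 0 < δ0) (hω : 0 < ω0) (ht : δ0 ^ 2 ≤ ω0)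
    (h1 : 23 / 5 ≤ (1 + δ0 ^ 2) ^ 2 / ω0) (h2 : 154 / 5 ≤ ω0 * √(2 / (1 + δ0 ^ 2)))
    (hs0 : 0 ≤ s) (hs1 : s ≤ δ0 ^ 2 / (1 + δ0 ^ 2)) : Good typ δ0 ω0 s := by
  obtain ⟨x, hx⟩ : ∃ x, x = δ0 ^ 2 / ω0 := ⟨_, rfl⟩
  obtain ⟨y, hy⟩ : ∃ y, y = ω0 / (δ0 ^ 2 * (1 + δ0 ^ 2)) := ⟨_, rfl⟩
  obtain ⟨S, hS⟩ : ∃ S, S = ω0 * √(2 / (1 + δ0 ^ 2)) := ⟨_, rfl⟩
  have hE : 0 < 1 + δ0 ^ 2 := by positivity
  have hD : 0 < δ0 ^ 2 := by positivity
  have hx0 : 0 < x := by rw [hx]; positivity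
  have hy0 : 0 < y := by rw [hy]; positivity
  have hx1 : x ≤ 1 := by rw [hx, div_le_one hω]; exact ht
  have hε : y * x = 1 / (1 + δ0 ^ 2) := by rw [hx, hy]; field_simp
  have hq := wr1_sq (by norm_num) h2
  have hv : 23716 / 25 * (y * x * x ^ 2) - 2 * (1 - y * x) ^ 2 ≤ 0 := by
    have e : y * x * x ^ 2 * (ω0 ^ 2 * (2 / (1 + δ0 ^ 2))) = 2 * (1 - y * x) ^ 2 := by
      rw [hε, hx]; field_simp; ring
    have h0 : 0 ≤ y * x * x ^ 2 := by positivity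
    nlinarith [mul_le_mul_of_nonneg_left hq h0]
  have hy1 : y ≤ 57 / 250 := by
    obtain ⟨th, hth⟩ : ∃ th, th = (1 + δ0 ^ 2) ^ 2 / ω0 := ⟨_, rfl⟩
    obtain ⟨ε, hε'⟩ : ∃ ε, ε = 1 / (1 + δ0 ^ 2) := ⟨_, rfl⟩
    obtain ⟨Q, hQ⟩ : ∃ Q, Q = ω0 ^ 2 * (2 / (1 + δ0 ^ 2)) := ⟨_, rfl⟩
    have e1 : ε ^ 3 * (th ^ 2 * Q) = 2 := by rw [hth, hε', hQ]; field_simp
    have e2 : y * ((1 - ε) * th) = 1 := by rw [hth, hε', hy]; field_simp; ring
    rw [← hth] at h1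
    rw [← hQ] at hq
    have hε0 : 0 < ε := by rw [hε']; positivity
    have h3 : (23 / 5 : ℝ) ^ 2 ≤ th ^ 2 := pow_le_pow_left₀ (by norm_num) h1 2
    have h4 : (23 / 5 : ℝ) ^ 2 * (154 / 5) ^ 2 ≤ th ^ 2 * Q :=
      mul_le_mul h3 hq (by norm_num) (by positivity)
    have h5 : ε ≤ 29 / 625 := by
      refine wr1_cube (by norm_num) ?_
      have h6 : 0 ≤ ε ^ 3 := by positivity
      nlinarith [mul_le_mul_of_nonneg_left h4 h6]
    have h7 : (1 - 29 / 625) * (23 / 5) ≤ (1 - ε) * th :=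
      mul_le_mul (by linarith) h1 (by norm_num) (by linarith)
    nlinarith [mul_le_mul_of_nonneg_left h7 hy0.le]
  rw [← hS] at h2
  have hS0 : 0 < S := by linarith
  obtain ⟨ϕ, c0, e1, e2, e3, hR, b1, b2, b3, hJ⟩ := line90 typ (s := s) (r := 13 / 100)
    (c := 2982 / 10000) (bb := 63 / 1000 * x)
    (E := x * S * (31 / 100000 + 39 / 500000 * x)) hδ hω
    (by norm_num) (by norm_num)
    (fun τ hτ => r1_err2 hδ hω hx hS ht h1 h2 hs0 hs1 (mem_ball_zero_iff.1 hτ).le)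
    (fun u hu => ⟨wr1_deriv _ _ _ _ u (by norm_num), by positivity, by
      have h3 : (1 - u) ^ 2 ≤ 1 := by nlinarith [hu.1, hu.2]
      nlinarith⟩)
    (by norm_num) (by norm_num) (by norm_num) (by norm_num) (by linarith)
    (by show x * (8 / 1000 + 55 / 1000 * (1 - 1) ^ 2) ≤ 1 / 2; nlinarith)
    (by
      have h3 : x * (154 / 5) ≤ x * S := mul_le_mul_of_nonneg_left h2 hx0.le
      have h4 : x * x ≤ x * 1 := mul_le_mul_of_nonneg_left hx1 hx0.le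
      have e : x * S * (31 / 100000 + 39 / 500000 * x)
          = x * S * (31 / 100000) + x * S * (39 / 500000 * x) := by ring
      have e' : x * S * (934 / 10000000) / (2 * (53 / 100) ^ 2) = x * S * (934 / 5618000) := by
        ring
      have e'' : x * (8 / 1000 + 55 / 1000 * (1 - 1) ^ 2) = x * (8 / 1000) := by ring
      rw [e, e', e'']
      nlinarith)
  refine Or.inl ⟨ϕ, c0, _, _, _, hR, hJ, fun h3 h4 => ?_⟩
  rw [hS] at b1 b2 b3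
  exact r1_main (av := 1) (ae := (1 - y * x) * y) hδ hω hε hx hx1 hx0 (mul_one _).symm (by ring)
    (by positivity) (fun w hw0 hw2 => RC_real x y w hx0.le hx1 hy0.le hy1 hw0 hw2 hv)
    b1 b2 b3 h3 h4

end Pool.Agent.HillD
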