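import Pool.Agent.P.MP_ae2765_an.WR1t
import Pool.Agent.P.MP_ae2765_an.WPath
import Pool.Agent.P.MP_ae2765_an.Real

/-! First region: the angle condition along the path. -/

namespace Pool.Agent.HillD
open Real Set Filter Topology Asymptotics Pool.Agent.HillD.Num Pool.Agent.P.MP_4c4e6e_co.Eng

theorem wr1a_key {a c p q m : ℂ} {K A B σ : ℝ} (hK : 0 < K) (hm : Sa m σ) (hσ : 0 ≤ σ)
    (hA : ‖p - a‖ ≤ A) (hB : ‖q - c‖ ≤ B)
    (h : 0 < 231 / 281 * (a * (starRingEnd ℂ) c).re - 160 / 281 * (a * (starRingEnd ℂ) c).im -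
      A * ‖c‖ - ‖a‖ * (2 * σ * ‖c‖ + B)) :
    p ≠ 0 ∧ q ≠ 0 ∧ (K * m ^ 2 * p / q).im ≤ 231 / 281 * ‖K * m ^ 2 * p / q‖ := by
  have hA0 : 0 ≤ A := (norm_nonneg _).trans hA
  have hB0 : 0 ≤ B := (norm_nonneg _).trans hB
  have hz : ‖a * (starRingEnd ℂ) c‖ = ‖a‖ * ‖c‖ := by rw [norm_mul, Complex.norm_conj]
  have hS : 231 / 281 * (a * (starRingEnd ℂ) c).re - 160 / 281 * (a * (starRingEnd ℂ) c).im ≤
      ‖a‖ * ‖c‖ := by
    rw [← hz]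
    generalize a * (starRingEnd ℂ) c = z
    rw [Complex.norm_eq_sqrt_sq_add_sq]
    refine Real.le_sqrt_of_sq_le ?_
    nlinarith [sq_nonneg (160 / 281 * z.re + 231 / 281 * z.im)]
  have na := norm_nonneg a
  have nc := norm_nonneg c
  have p1 : 0 ≤ A * ‖c‖ := by positivity
  have p2 : 0 ≤ ‖a‖ * (2 * σ * ‖c‖ + B) := by positivity
  have hac : 0 < ‖a‖ * ‖c‖ := by linarith
  have ha : 0 < ‖a‖ := na.lt_of_ne' fun e => by simp [e] at hac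
  have hc : 0 < ‖c‖ := nc.lt_of_ne' fun e => by simp [e] at hac
  have ha' : a ≠ 0 := norm_pos_iff.1 ha
  have hc' : c ≠ 0 := norm_pos_iff.1 hc
  have q1 : 0 ≤ A / ‖a‖ := by positivity
  have q2 : 0 ≤ B / ‖c‖ := by positivity
  have e0 : (σ + σ + A / ‖a‖ + B / ‖c‖) * (‖a‖ * ‖c‖) =
      A * ‖c‖ + ‖a‖ * (2 * σ * ‖c‖ + B) := by
    field_simp
    ring
  have h1 : σ + σ + A / ‖a‖ + B / ‖c‖ < 1 := by
    refine lt_of_mul_lt_mul_right ?_ hac.le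
    linarith
  have s1 : Sa (1 + (p - a) / a) (A / ‖a‖) :=
    sa_one_add (by rw [norm_div]; gcongr) (by linarith)
  have s2 : Sa (1 + (q - c) / c) (B / ‖c‖) :=
    sa_one_add (by rw [norm_div]; gcongr) (by linarith)
  have e1 : 1 + (p - a) / a = p / a := by field_simp; ring
  have e2 : 1 + (q - c) / c = q / c := by field_simp; ring
  rw [e1] at s1
  rw [e2] at s2
  have hp : p ≠ 0 := fun e => s1.ne (by simp [e])
  have hq : q ≠ 0 := fun e => s2.ne (by simp [e])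
  refine ⟨hp, hq, ?_⟩
  have s3 := (((hm.mul hm hσ hσ (by linarith)).mul s1 (by linarith) q1 (by linarith)).mul s2.inv
    (by linarith) q2 h1).pos_mul (c := K / ‖c‖ ^ 2) (by positivity)
  have s4 := ang_lemma (z := a * (starRingEnd ℂ) c) (cs := 160 / 281) (sn := 231 / 281)
    (by norm_num) (by norm_num) (by norm_num) s3 (by linarith) (by rw [hz]; linarith)
  have e3 : a * (starRingEnd ℂ) c * (((K / ‖c‖ ^ 2 : ℝ) : ℂ) * (m * m * (p / a) * (q / c)⁻¹)) =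
      K * m ^ 2 * p / q := by
    have hc2 : (starRingEnd ℂ) c ≠ 0 := by simpa using hc'
    push_cast
    rw [← Complex.conj_mul']
    field_simp
  rwa [e3] at s4

theorem r1_ang {δ0 ω0 s u : ℝ} {τ : ℂ} (hδ : 0 < δ0) (hω : 0 < ω0) (ht : δ0 ^ 2 ≤ ω0)
    (hs0 : 0 ≤ s) (hs1 : s ≤ δ0 ^ 2 / (1 + δ0 ^ 2)) (hτ : ‖τ‖ ≤ 13 / 100)
    (hu : u ∈ Icc (0 : ℝ) 1) :
    PP (lΩ ω0 s τ) (lJ δ0 τ) (pX (π / 2) u) ≠ 0 ∧ QQ (lJ δ0 τ) (pX (π / 2) u) ≠ 0 ∧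
      (G2 (π / 2) (lΩ ω0 s τ) (lJ δ0 τ) u).im ≤
        231 / 281 * ‖G2 (π / 2) (lΩ ω0 s τ) (lJ δ0 τ) u‖ := by
  have hE : (0 : ℝ) < 1 + δ0 ^ 2 := by positivity
  have he : δ0 ^ 2 / (1 + δ0 ^ 2) = 1 - 1 / (1 + δ0 ^ 2) := by field_simp; ring
  have hε0 : (0 : ℝ) < 1 / (1 + δ0 ^ 2) := by positivity
  have hε1 : 1 / (1 + δ0 ^ 2) ≤ (1 : ℝ) := by linarith
  have ht0 : 0 ≤ δ0 ^ 2 / ω0 := by positivity
  have ht1 : δ0 ^ 2 / ω0 ≤ 1 := (div_le_one hω).2 ht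
  rw [he] at hs1
  obtain ⟨ρ, -, r1, -, -, r2, hJ, hΩ, -, hP, hQ⟩ :=
    line_par (r := 13 / 100) hδ hω hs0 (by linarith) (by norm_num) hτ
  obtain ⟨ρ0, r3, r4, r5, r6, -⟩ :=
    line_par (s := 0) (r := 13 / 100) hδ hω le_rfl (by norm_num) (by norm_num) hτ
  obtain ⟨z0, z1, -, -, x1, x2, x3⟩ := pX90 hu rfl
  unfold G2
  rw [hP, hQ]
  have hπ : (0 : ℝ) < π ^ 2 * ω0 ^ 2 / (1 + δ0 ^ 2) := by positivity
  have hE' : ((1 + δ0 ^ 2 : ℝ) : ℂ) ≠ 0 := by exact_mod_cast hE.ne'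
  have e4 : ∀ p Q : ℂ, 4 * ((π / 2 : ℝ) : ℂ) ^ 2 * lΩ ω0 s τ * (lJ δ0 τ * lΩ ω0 s τ * p) /
      (lJ δ0 τ * ((1 + δ0 ^ 2 : ℝ) : ℂ) * Q) =
      ((π ^ 2 * ω0 ^ 2 / (1 + δ0 ^ 2) : ℝ) : ℂ) * (1 + s * τ) ^ 2 * p / Q := fun p Q => by
    rw [Complex.ofReal_div _ (1 + δ0 ^ 2)]
    unfold lΩ
    push_cast [- Complex.ofReal_add]
    generalize ((1 + δ0 ^ 2 : ℝ) : ℂ) = E at hE'
    rcases eq_or_ne Q 0 with rfl | hQ0
    · simp
    field_simp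
    ring
  rw [e4]
  generalize π ^ 2 * ω0 ^ 2 / (1 + δ0 ^ 2) = K at hπ
  generalize (π * (1 - u)) ^ 2 = z at z0 z1 x1 x2 x3
  generalize pX (π / 2) u = X at x1 x2 x3 ⊢
  generalize δ0 ^ 2 / ω0 = t at ht0 ht1 ⊢
  generalize 1 / (1 + δ0 ^ 2) = ε at hε0 hε1 hs1 ⊢
  have hρ0 : ρ0 = (1 + τ) ^ 2 := by simpa using r3
  rw [← hρ0]
  have hρ0' : ρ0 ≠ 0 := r5.ne
  rw [abs_le] at x1 x2 x3
  have hc := Ang_real t ε z ht0 ht1 hε0.le hε1 z0 z1 _ rfl _ rfl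
    (X.re - z ^ 2 * (1 / 12 - z ^ 2 * (1 / 5040 - z ^ 2 *
      (1 / 14968800 - 1 / 163459296000 * z ^ 2))) + 1 / 10000) (by linarith) (by linarith)
    (-X.im - z * (1 / 2 - z ^ 2 * (1 / 180 - z ^ 2 * (1 / 226800 - z ^ 2 *
      (1 / 1362160800 - 1 / 25009272288000 * z ^ 2)))) + 1 / 10000) (by linarith) (by linarith)
    (‖X‖ - z * (1 / 2 + z ^ 2 * (1 / 720 + z ^ 2 *
      (1 / 3628800 + 1 / 87178291200 * z ^ 2))) + 1 / 10000) (by linarith) (by linarith)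
    X.re (by ring) (-X.im) (by ring) ‖X‖ (by ring) _ rfl _ rfl ‖1 + t * X‖ (by
      rw [Complex.norm_eq_sqrt_sq_add_sq (1 + t * X), mul_pow, Complex.sq_norm, Complex.normSq_apply]
      simp only [Complex.add_re, Complex.add_im, Complex.one_re, Complex.one_im,
        Complex.re_ofReal_mul, Complex.im_ofReal_mul]
      congr 1
      ring) _ rfl _ rfl ‖((1 + ε : ℝ) : ℂ) + ((1 - ε : ℝ) : ℂ) * X‖ (by
      rw [Complex.norm_eq_sqrt_sq_add_sq]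
      simp only [Complex.add_re, Complex.add_im, Complex.ofReal_re, Complex.ofReal_im,
        Complex.re_ofReal_mul, Complex.im_ofReal_mul]
      congr 1
      ring)
    ((1 + t * X) * (starRingEnd ℂ) (((1 + ε : ℝ) : ℂ) + ((1 - ε : ℝ) : ℂ) * X)).re (by
      simp only [Complex.add_re, Complex.add_im, Complex.ofReal_re, Complex.ofReal_im,
        Complex.mul_re, Complex.mul_im, Complex.conj_re, Complex.conj_im, Complex.one_re,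
        Complex.one_im]
      ring)
    ((1 + t * X) * (starRingEnd ℂ) (((1 + ε : ℝ) : ℂ) + ((1 - ε : ℝ) : ℂ) * X)).im (by
      simp only [Complex.add_re, Complex.add_im, Complex.ofReal_re, Complex.ofReal_im,
        Complex.mul_re, Complex.mul_im, Complex.conj_re, Complex.conj_im, Complex.one_re,
        Complex.one_im]
      ring) _ rfl
  clear x1 x2 x3
  have hA : ‖(1 + t * ρ * X) - (1 + t * X)‖ ≤ 2769 / 10000 * (t * ‖X‖) := by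
    rw [show (1 + t * ρ * X) - (1 + t * X) = (ρ - 1) * (t * X) by ring, norm_mul, norm_mul,
      Complex.norm_real, Real.norm_of_nonneg ht0]
    exact mul_le_mul_of_nonneg_right (by linarith) (by positivity)
  have fin : ∀ {p Q : ℂ} {R : Prop}, p ≠ 0 ∧ Q ≠ 0 ∧ R → lJ δ0 τ * lΩ ω0 s τ * p ≠ 0 ∧
      lJ δ0 τ * ((1 + δ0 ^ 2 : ℝ) : ℂ) * Q ≠ 0 ∧ R := fun h =>
    ⟨mul_ne_zero (mul_ne_zero hJ hΩ) h.1, mul_ne_zero (mul_ne_zero hJ hE') h.2.1, h.2.2⟩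
  refine fin ?_
  rcases hc with hc | hc
  · have hB : ‖(2 * (ε : ℂ) + ((1 - ε : ℝ) : ℂ) * (1 + X) * ρ0) / ρ0 -
        (((1 + ε : ℝ) : ℂ) + ((1 - ε : ℝ) : ℂ) * X)‖ ≤ 803 / 1250 * ε := by
      rw [show (2 * (ε : ℂ) + ((1 - ε : ℝ) : ℂ) * (1 + X) * ρ0) / ρ0 -
        (((1 + ε : ℝ) : ℂ) + ((1 - ε : ℝ) : ℂ) * X) = (ρ0⁻¹ - 1) * ((2 * ε : ℝ) : ℂ) by
          push_cast; field_simp; ring, norm_mul, Complex.norm_real,
        Real.norm_of_nonneg (by linarith)]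
      have : ‖ρ0⁻¹ - 1‖ ≤ 803 / 2500 := r6.trans (by norm_num)
      nlinarith
    obtain ⟨k1, k2, k3⟩ := wr1a_key hπ r2 (by norm_num) hA hB (by linarith)
    have k4 : 2 * (ε : ℂ) + ((1 - ε : ℝ) : ℂ) * (1 + X) * ρ0 ≠ 0 := fun e => k2 (by rw [e]; simp)
    refine ⟨k1, k4, ?_⟩
    have e5 : (K : ℂ) * ((1 + s * τ) / (1 + τ)) ^ 2 * (1 + t * ρ * X) /
        ((2 * (ε : ℂ) + ((1 - ε : ℝ) : ℂ) * (1 + X) * ρ0) / ρ0) =
        K * (1 + s * τ) ^ 2 * (1 + t * ρ * X) /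
          (2 * (ε : ℂ) + ((1 - ε : ℝ) : ℂ) * (1 + X) * ρ0) := by
      rw [div_pow, ← hρ0]
      field_simp
    rwa [e5] at k3
  · have n1 : √(1 + 2 * X.re + ‖X‖ ^ 2) = ‖1 + X‖ := by
      rw [Complex.norm_eq_sqrt_sq_add_sq (1 + X), Complex.sq_norm, Complex.normSq_apply]
      simp only [Complex.add_re, Complex.add_im, Complex.one_re, Complex.one_im]
      congr 1
      ring
    rw [n1] at hc
    have hB : ‖(2 * (ε : ℂ) + ((1 - ε : ℝ) : ℂ) * (1 + X) * ρ0) -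
        (((1 + ε : ℝ) : ℂ) + ((1 - ε : ℝ) : ℂ) * X)‖ ≤ 2769 / 10000 * ((1 - ε) * ‖1 + X‖) := by
      rw [show (2 * (ε : ℂ) + ((1 - ε : ℝ) : ℂ) * (1 + X) * ρ0) -
        (((1 + ε : ℝ) : ℂ) + ((1 - ε : ℝ) : ℂ) * X) = (ρ0 - 1) * (((1 - ε : ℝ) : ℂ) * (1 + X)) by
          push_cast; ring, norm_mul, norm_mul, Complex.norm_real,
        Real.norm_of_nonneg (by linarith)]
      exact mul_le_mul_of_nonneg_right (by linarith) (mul_nonneg (by linarith) (norm_nonneg _))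
    have hm : Sa (1 + s * τ) (13 / 100 * (1 - ε)) := by
      refine sa_one_add ?_ (by linarith)
      rw [norm_mul, Complex.norm_real, Real.norm_of_nonneg hs0]
      nlinarith [norm_nonneg τ]
    exact wr1a_key hπ hm (by linarith) hA hB (by linarith)

end Pool.Agent.HillD
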