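import Pool.Agent.P.MP_ae2765_an.WPath
import Pool.Agent.P.MP_ae2765_an.Real

/-! First region: barrier and weight along the path. -/

namespace Pool.Agent.HillD
open Real Set Filter Topology Asymptotics Pool.Agent.HillD.Num Pool.Agent.P.MP_4c4e6e_co.Eng

theorem wr1b_norm (a b : ℝ) (X : ℂ) :
    ‖(a : ℂ) + b * X‖ = √(a ^ 2 + 2 * a * (b * X.re) + (b * ‖X‖) ^ 2) := by
  rw [← Real.sqrt_sq (norm_nonneg ((a : ℂ) + b * X))]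
  congr 1
  rw [mul_pow, Complex.sq_norm, Complex.sq_norm, Complex.normSq_apply, Complex.normSq_apply]
  simp only [Complex.add_re, Complex.mul_re, Complex.ofReal_re, Complex.ofReal_im, Complex.add_im,
    Complex.mul_im]
  ring

theorem wr1b_id {Ω J X a : ℂ} (hΩ : Ω ≠ 0) (hJ : J ≠ 0) (hp : 1 + a * X ≠ 0)
    (h1 : 1 - 2 * J = J * Ω * a) (hP : PP Ω J X = J * Ω * (1 + a * X)) :
    psi Ω J X * (1 + a * X) ^ 3 =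
      a ^ 2 / (8 * Ω) * (X ^ 2 * (1 + a * X + 5) + (3 * (1 + a * X) - 5)) +
        a / (4 * Ω ^ 2) * ((3 * (1 + a * X) - 5) - X * (1 + a * X - 5)) := by
  have hP0 : PP Ω J X ≠ 0 := by rw [hP]; exact mul_ne_zero (mul_ne_zero hJ hΩ) hp
  have h2 : Ω * a + 2 ≠ 0 := by
    intro h
    have : (1 : ℂ) = J * (Ω * a + 2) := by linear_combination h1
    rw [h, mul_zero] at this
    exact one_ne_zero this
  have hJ' : J = 1 / (Ω * a + 2) := by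
    field_simp
    linear_combination -h1
  rw [psi_eq hΩ hP0, hP, h1]
  have hw : Ω * J / (J * Ω * (1 + a * X)) = 1 / (1 + a * X) := by field_simp
  rw [hw]
  have h3 : J * Ω * a * (3 - 5 * (1 / (1 + a * X))) / (8 * Ω * (J * Ω * (1 + a * X)) ^ 2) =
      (Ω * a + 2) * a * (3 - 5 * (1 / (1 + a * X))) / (8 * Ω ^ 2 * (1 + a * X) ^ 2) := by
    rw [hJ']
    field_simp
  rw [h3]
  field_simp
  ring

theorem wr1b_tri {a b c T R TW K : ℝ} {X w : ℂ} {t : ℝ} (hT : T = t * ‖X‖) (hR : R = t * X.re)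
    (hw : ‖w‖ ≤ TW) (hb : 0 ≤ b) (hK : a ^ 2 + 2 * a * b * R + b ^ 2 * T ^ 2 ≤ K) (hc : c = b * TW) :
    ‖(a : ℂ) + b * (t * X + w)‖ ≤ √K + c := by
  have h1 : (a : ℂ) + b * (t * X + w) = ((a : ℂ) + ((b * t : ℝ) : ℂ) * X) + b * w := by
    push_cast; ring
  rw [h1]
  refine (norm_add_le _ _).trans (add_le_add ?_ ?_)
  · rw [wr1b_norm]
    apply Real.sqrt_le_sqrt
    rw [hT, hR] at hK
    calc _ = a ^ 2 + 2 * a * b * (t * X.re) + b ^ 2 * (t * ‖X‖) ^ 2 := by ring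
      _ ≤ K := hK
  · rw [norm_mul, Complex.norm_real, Real.norm_of_nonneg hb, hc]
    exact mul_le_mul_of_nonneg_left hw hb

theorem wr1b_p {X ρ : ℂ} {t T R TW d : ℝ} (ht : 0 ≤ t) (hρ : ‖ρ - 1‖ ≤ 2769 / 10000)
    (hT : T = t * ‖X‖) (hR : R = t * X.re) (hTW : TW = 2769 / 10000 * T)
    (hd : d = √(1 + 2 * R + T ^ 2)) :
    d - TW ≤ ‖1 + t * ρ * X‖ ∧ ‖1 + t * ρ * X‖ ≤ d + TW ∧
      ‖1 + t * ρ * X + 5‖ ≤ √(36 + 12 * R + T ^ 2) + TW ∧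
      ‖3 * (1 + t * ρ * X) - 5‖ ≤ √(17 / 4 - 12 * R + 9 * T ^ 2) + 3 * TW ∧
      ‖1 + t * ρ * X - 5‖ ≤ √(65 / 4 - 8 * R + T ^ 2) + TW := by
  have hw : ‖(t : ℂ) * (ρ - 1) * X‖ ≤ TW := by
    rw [norm_mul, norm_mul, Complex.norm_real, Real.norm_of_nonneg ht, hTW, hT]
    have := mul_le_mul_of_nonneg_left hρ (mul_nonneg ht (norm_nonneg X))
    linarith
  refine ⟨?_, ?_, ?_, ?_, ?_⟩
  · have h1 : ‖((1 : ℝ) : ℂ) + t * X‖ = d := by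
      rw [wr1b_norm, hd, hT, hR]; congr 1; ring
    have h2 : ((1 : ℝ) : ℂ) + t * X = (1 + t * ρ * X) - t * (ρ - 1) * X := by push_cast; ring
    have h3 := norm_sub_le (1 + t * ρ * X) (t * (ρ - 1) * X)
    rw [← h2, h1] at h3
    linarith
  · have := wr1b_tri (a := 1) (b := 1) (c := TW) (K := 1 + 2 * R + T ^ 2) hT hR hw (by norm_num)
      (by linarith) (by ring)
    rw [hd]
    convert this using 2
    push_cast; ring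
  · have := wr1b_tri (a := 6) (b := 1) (c := TW) (K := 36 + 12 * R + T ^ 2) hT hR hw (by norm_num)
      (by linarith) (by ring)
    convert this using 2
    push_cast; ring
  · have := wr1b_tri (a := -2) (b := 3) (c := 3 * TW) (K := 17 / 4 - 12 * R + 9 * T ^ 2) hT hR hw
      (by norm_num) (by linarith) (by ring)
    convert this using 2
    push_cast; ring
  · have := wr1b_tri (a := -4) (b := 1) (c := TW) (K := 65 / 4 - 8 * R + T ^ 2) hT hR hw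
      (by norm_num) (by linarith) (by ring)
    convert this using 2
    push_cast; ring

theorem wr1b_psi {Ω J X ρ : ℂ} {t ω0 c k1 k2 dm A1 A2 A3 : ℝ} (hω : 0 < ω0) (ht : 0 ≤ t)
    (hΩ : 87 / 100 * ω0 ≤ ‖Ω‖) (hJ : J ≠ 0) (hρ : ‖ρ - 1‖ ≤ 2769 / 10000)
    (h1 : 1 - 2 * J = J * Ω * (t * ρ)) (hP : PP Ω J X = J * Ω * (1 + t * ρ * X))
    (hk1 : t ^ 2 / ω0 ≤ c * k1) (hk2 : t / ω0 ^ 2 ≤ c * k2) (hdm : 0 < dm)
    (hp : dm ≤ ‖1 + t * ρ * X‖) (hA1 : ‖1 + t * ρ * X + 5‖ ≤ A1)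
    (hA2 : ‖3 * (1 + t * ρ * X) - 5‖ ≤ A2) (hA3 : ‖1 + t * ρ * X - 5‖ ≤ A3) :
    ‖psi Ω J X‖ ≤ c * (367 / 2000 * (dm⁻¹ ^ 2 * dm⁻¹) *
      (k1 * (12769 / 10000 * (‖X‖ ^ 2 * A1 + A2)) + k2 * (23 / 10 * (‖X‖ * A3 + A2)))) := by
  have hΩ0 : 0 < ‖Ω‖ := lt_of_lt_of_le (by positivity) hΩ
  have hp0 : 1 + t * ρ * X ≠ 0 := norm_pos_iff.1 (lt_of_lt_of_le hdm hp)
  have hid := wr1b_id (norm_pos_iff.1 hΩ0) hJ hp0 h1 hP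
  have hρ' : ‖ρ‖ ≤ 12769 / 10000 := by
    have := norm_add_le (ρ - 1) 1
    rw [sub_add_cancel, norm_one] at this
    linarith
  have ha : ‖(t : ℂ) * ρ‖ ≤ t * (12769 / 10000) := by
    rw [norm_mul, Complex.norm_real, Real.norm_of_nonneg ht]
    exact mul_le_mul_of_nonneg_left hρ' ht
  generalize (t : ℂ) * ρ = a at *
  generalize 1 + a * X = p at *
  have hc1 : ‖a ^ 2 / (8 * Ω)‖ ≤ 367 / 2000 * (12769 / 10000) * (c * k1) := by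
    rw [norm_div, norm_pow, norm_mul, Complex.norm_ofNat]
    calc ‖a‖ ^ 2 / (8 * ‖Ω‖) ≤ (t * (12769 / 10000)) ^ 2 / (8 * (87 / 100 * ω0)) := by gcongr
      _ = (12769 / 10000) ^ 2 / (8 * (87 / 100)) * (t ^ 2 / ω0) := by field_simp
      _ ≤ 367 / 2000 * (12769 / 10000) * (t ^ 2 / ω0) := by gcongr; norm_num
      _ ≤ _ := by gcongr
  have hc2 : ‖a / (4 * Ω ^ 2)‖ ≤ 367 / 2000 * (23 / 10) * (c * k2) := by
    rw [norm_div, norm_mul, norm_pow, Complex.norm_ofNat]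
    calc ‖a‖ / (4 * ‖Ω‖ ^ 2) ≤ (t * (12769 / 10000)) / (4 * (87 / 100 * ω0) ^ 2) := by gcongr
      _ = (12769 / 10000) / (4 * (87 / 100) ^ 2) * (t / ω0 ^ 2) := by field_simp
      _ ≤ 367 / 2000 * (23 / 10) * (t / ω0 ^ 2) := by gcongr; norm_num
      _ ≤ _ := by gcongr
  have hb1 : ‖X ^ 2 * (p + 5) + (3 * p - 5)‖ ≤ ‖X‖ ^ 2 * A1 + A2 := by
    refine (norm_add_le _ _).trans (add_le_add ?_ hA2)
    rw [norm_mul, norm_pow]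
    gcongr
  have hb2 : ‖(3 * p - 5) - X * (p - 5)‖ ≤ ‖X‖ * A3 + A2 := by
    refine (norm_sub_le _ _).trans ?_
    rw [norm_mul, add_comm]
    gcongr
  have hck1 : 0 ≤ c * k1 := le_trans (by positivity) hk1
  have hck2 : 0 ≤ c * k2 := le_trans (by positivity) hk2
  have hm : ‖psi Ω J X‖ * dm ^ 3 ≤ 367 / 2000 * (12769 / 10000) * (c * k1) * (‖X‖ ^ 2 * A1 + A2) +
      367 / 2000 * (23 / 10) * (c * k2) * (‖X‖ * A3 + A2) := by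
    calc ‖psi Ω J X‖ * dm ^ 3 ≤ ‖psi Ω J X‖ * ‖p‖ ^ 3 := by gcongr
      _ = ‖psi Ω J X * p ^ 3‖ := by rw [norm_mul, norm_pow]
      _ ≤ _ := by
        rw [hid]
        refine (norm_add_le _ _).trans (add_le_add ?_ ?_)
        · rw [norm_mul]; gcongr
        · rw [norm_mul]; gcongr
  rw [← le_div_iff₀ (by positivity)] at hm
  refine hm.trans (le_of_eq ?_)
  field_simp

theorem wr1b_G {Ω J X σ p Q : ℂ} {ω0 E u dm dp Qm Qp : ℝ} (hω : 0 < ω0) (hE : 0 < E)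
    (hX : X = pX (π / 2) u) (hΩ : Ω = ω0 * σ) (hJ : J ≠ 0) (hs1 : 87 / 100 ≤ ‖σ‖)
    (hs2 : ‖σ‖ ≤ 113 / 100) (hP : PP Ω J X = J * Ω * p) (hQ : QQ J X = J * E * Q)
    (hdm : 0 < dm) (hp1 : dm ≤ ‖p‖) (hp2 : ‖p‖ ≤ dp) (hQm : 0 < Qm) (hQ1 : Qm ≤ ‖Q‖)
    (hQ2 : ‖Q‖ ≤ Qp) :
    √(dm * Qp⁻¹) * (2221 / 1000 * (87 / 100) * (ω0 * √(2 / E))) ≤ √‖G2 (π / 2) Ω J u‖ ∧
      √‖G2 (π / 2) Ω J u‖ ≤ 22215 / 10000 * (113 / 100) * (ω0 * √(2 / E)) * √(dp * Qm⁻¹) := by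
  have hQ0 : 0 < ‖Q‖ := lt_of_lt_of_le hQm hQ1
  have hQn : Q ≠ 0 := norm_pos_iff.1 hQ0
  have hE0 : (E : ℂ) ≠ 0 := Complex.ofReal_ne_zero.2 hE.ne'
  have hG : G2 (π / 2) Ω J u = ((π ^ 2 / 2 * ω0 ^ 2 * (2 / E) : ℝ) : ℂ) * σ ^ 2 * (p * Q⁻¹) := by
    unfold G2
    rw [← hX, hP, hQ, hΩ]
    push_cast
    field_simp
    ring
  have hN : ‖G2 (π / 2) Ω J u‖ = π ^ 2 / 2 * ω0 ^ 2 * (2 / E) * ‖σ‖ ^ 2 * (‖p‖ * ‖Q‖⁻¹) := by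
    rw [hG, norm_mul, norm_mul, norm_mul, norm_pow, norm_inv, Complex.norm_real,
      Real.norm_of_nonneg (by positivity)]
  have hπ1 : (2221 / 1000 : ℝ) ^ 2 ≤ π ^ 2 / 2 := by nlinarith [Real.pi_gt_d4]
  have hπ2 : π ^ 2 / 2 ≤ (22215 / 10000 : ℝ) ^ 2 := by nlinarith [Real.pi_lt_d4, Real.pi_pos]
  have hQp : 0 < Qp := lt_of_lt_of_le hQ0 hQ2
  have hdp : 0 < dp := lt_of_lt_of_le hdm (hp1.trans hp2)
  rw [hN]
  constructor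
  · apply Real.le_sqrt_of_sq_le
    rw [mul_pow, mul_pow, mul_pow, mul_pow, Real.sq_sqrt (by positivity),
      Real.sq_sqrt (by positivity)]
    calc _ = (2221 / 1000 : ℝ) ^ 2 * ω0 ^ 2 * (2 / E) * (87 / 100) ^ 2 * (dm * Qp⁻¹) := by ring
      _ ≤ _ := by gcongr
  · apply Real.sqrt_le_iff.2 ⟨by positivity, ?_⟩
    rw [mul_pow, mul_pow, mul_pow, mul_pow, Real.sq_sqrt (by positivity),
      Real.sq_sqrt (by positivity)]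
    calc _ ≤ (22215 / 10000 : ℝ) ^ 2 * ω0 ^ 2 * (2 / E) * (113 / 100) ^ 2 * (dp * Qm⁻¹) := by
          gcongr
      _ = _ := by ring

theorem wr1b_sig {s ω0 : ℝ} {τ : ℂ} (hω : 0 < ω0) (hs0 : 0 ≤ s) (hs1 : s ≤ 1)
    (hτ : ‖τ‖ ≤ 13 / 100) : 87 / 100 ≤ ‖1 + (s : ℂ) * τ‖ ∧ ‖1 + (s : ℂ) * τ‖ ≤ 113 / 100 ∧
      87 / 100 * ω0 ≤ ‖lΩ ω0 s τ‖ := by
  have hσ : ‖(s : ℂ) * τ‖ ≤ 13 / 100 := by
    rw [norm_mul, Complex.norm_real, Real.norm_of_nonneg hs0]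
    nlinarith [norm_nonneg τ]
  have hσ1 : 87 / 100 ≤ ‖1 + (s : ℂ) * τ‖ := by
    have := norm_sub_le (1 + (s : ℂ) * τ) (s * τ)
    rw [add_sub_cancel_right, norm_one] at this
    linarith
  refine ⟨hσ1, ?_, ?_⟩
  · have := norm_add_le (1 : ℂ) (s * τ)
    rw [norm_one] at this
    linarith
  · unfold lΩ
    rw [norm_mul, Complex.norm_real, Real.norm_of_nonneg hω.le]
    nlinarith

theorem wr1b_Q {ε : ℝ} {τ : ℂ} (X : ℂ) (hε1 : 0 ≤ 1 - ε) (hτ : ‖τ‖ ≤ 13 / 100) :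
    √((1 + ε + (1 - ε) * X.re) ^ 2 + ((1 - ε) * -X.im) ^ 2) -
        2769 / 10000 * (1 - ε) * √(1 + 2 * X.re + ‖X‖ ^ 2) ≤
      ‖2 * (ε : ℂ) + ((1 - ε : ℝ) : ℂ) * (1 + X) * (1 + τ) ^ 2‖ ∧
    ‖2 * (ε : ℂ) + ((1 - ε : ℝ) : ℂ) * (1 + X) * (1 + τ) ^ 2‖ ≤
      √((1 + ε + (1 - ε) * X.re) ^ 2 + ((1 - ε) * -X.im) ^ 2) +
        2769 / 10000 * (1 - ε) * √(1 + 2 * X.re + ‖X‖ ^ 2) := by
  have hq0 : ‖((1 + ε : ℝ) : ℂ) + ((1 - ε : ℝ) : ℂ) * X‖ =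
      √((1 + ε + (1 - ε) * X.re) ^ 2 + ((1 - ε) * -X.im) ^ 2) := by
    rw [wr1b_norm, mul_pow, Complex.sq_norm, Complex.normSq_apply]
    congr 1; ring
  have hq1 : ‖((1 - ε : ℝ) : ℂ) * (1 + X) * ((1 + τ) ^ 2 - 1)‖ ≤
      2769 / 10000 * (1 - ε) * √(1 + 2 * X.re + ‖X‖ ^ 2) := by
    have e1 : ‖1 + X‖ = √(1 + 2 * X.re + ‖X‖ ^ 2) := by
      have := wr1b_norm 1 1 X
      simpa using this
    have e2 : ‖(1 + τ) ^ 2 - 1‖ ≤ 2769 / 10000 := by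
      have : (1 + τ) ^ 2 - 1 = τ * (2 + τ) := by ring
      rw [this, norm_mul]
      have h2 := norm_add_le (2 : ℂ) τ
      rw [Complex.norm_ofNat] at h2
      nlinarith [norm_nonneg τ, norm_nonneg (2 + τ)]
    rw [norm_mul, norm_mul, Complex.norm_real, Real.norm_of_nonneg hε1, e1]
    have := mul_le_mul_of_nonneg_left e2
      (mul_nonneg hε1 (Real.sqrt_nonneg (1 + 2 * X.re + ‖X‖ ^ 2)))
    linarith
  have hq2 : (2 * (ε : ℂ) + ((1 - ε : ℝ) : ℂ) * (1 + X) * (1 + τ) ^ 2) =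
      (((1 + ε : ℝ) : ℂ) + ((1 - ε : ℝ) : ℂ) * X) +
        ((1 - ε : ℝ) : ℂ) * (1 + X) * ((1 + τ) ^ 2 - 1) := by
    push_cast; ring
  have hq3 := norm_add_le (((1 + ε : ℝ) : ℂ) + ((1 - ε : ℝ) : ℂ) * X)
    (((1 - ε : ℝ) : ℂ) * (1 + X) * ((1 + τ) ^ 2 - 1))
  have hq4 := norm_sub_le (2 * (ε : ℂ) + ((1 - ε : ℝ) : ℂ) * (1 + X) * (1 + τ) ^ 2)
    (((1 - ε : ℝ) : ℂ) * (1 + X) * ((1 + τ) ^ 2 - 1))
  rw [← hq2, hq0] at hq3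
  rw [hq2, add_sub_cancel_right, ← hq2, hq0] at hq4
  constructor <;> linarith

theorem wr1b_fin {G ψ g A B S n f1 f2 cS U V W : ℝ} (hn : 0 < n) (hψ0 : 0 ≤ ψ)
    (hψ : ψ ≤ n * f1 * g) (hf2 : 113 / 100 * (n * f1 ^ 2) ≤ f2) (hc0 : 0 ≤ cS) (hS : 0 ≤ S)
    (hcS : cS ≤ 2221 / 1000 * (87 / 100) * S) (hv : 0 ≤ V) (hA : 0 ≤ A) (hB : 0 ≤ B) (hG : 0 ≤ G)
    (g1 : A * (2221 / 1000 * (87 / 100) * S) ≤ G) (g2 : G ≤ 22215 / 10000 * (113 / 100) * S * B)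
    (b3 : 0 < A * cS * (U - f1 * g) - V) (b4 : 0 < W - f2 * g ^ 2 * B) :
    G * (ψ - n * U) < -(n * V) ∧ ψ ^ 2 * G ≤ n * S * (22215 / 10000) * W := by
  have h1 : 0 < U - f1 * g := by
    by_contra h
    have := mul_nonpos_of_nonneg_of_nonpos (mul_nonneg hA hc0) (not_lt.1 h)
    linarith
  have h2 : A * cS ≤ G := (mul_le_mul_of_nonneg_left hcS hA).trans g1
  constructor
  · have h3 : G * (ψ - n * U) ≤ G * (-(n * (U - f1 * g))) :=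
      mul_le_mul_of_nonneg_left (by linarith) hG
    have h4 : A * cS * (U - f1 * g) ≤ G * (U - f1 * g) := mul_le_mul_of_nonneg_right h2 h1.le
    have h5 : n * V < n * (G * (U - f1 * g)) := mul_lt_mul_of_pos_left (by linarith) hn
    linarith
  · calc ψ ^ 2 * G ≤ (n * f1 * g) ^ 2 * (22215 / 10000 * (113 / 100) * S * B) := by gcongr
      _ = n * S * (22215 / 10000) * (113 / 100 * (n * f1 ^ 2) * g ^ 2 * B) := by ring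
      _ ≤ n * S * (22215 / 10000) * (f2 * g ^ 2 * B) := by gcongr
      _ ≤ _ := by gcongr; linarith

theorem r1_pt {δ0 ω0 s u z ε t n k1 k2 f1 f2 cS u0 u1 v0 v1 w0 w1 : ℝ} {τ : ℂ} {tl : List ℝ}
    (hδ : 0 < δ0) (hω : 0 < ω0) (hs0 : 0 ≤ s) (hs1 : s ≤ 1) (hτ : ‖τ‖ ≤ 13 / 100)
    (hu : u ∈ Icc (0 : ℝ) 1) (hz : z = (π * (1 - u)) ^ 2) (hε : ε = 1 / (1 + δ0 ^ 2))
    (ht : t = δ0 ^ 2 / ω0) (hn : 0 < n) (hf1 : 0 ≤ f1) (hk1 : t ^ 2 / ω0 ≤ n * f1 * k1)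
    (hk2 : t / ω0 ^ 2 ≤ n * f1 * k2) (hf2 : 113 / 100 * (n * f1 ^ 2) ≤ f2) (hc0 : 0 ≤ cS)
    (hcS : cS ≤ 2221 / 1000 * (87 / 100) * (ω0 * √(2 / (1 + δ0 ^ 2)))) (hv : 0 ≤ v0 + v1 * z)
    (hb : errBody.holds
      (z :: (1 - ε) :: ε :: t :: k1 :: k2 :: f1 :: f2 :: cS :: u0 :: u1 :: v0 :: v1 :: w0 :: w1 :: tl)) :
    √‖G2 (π / 2) (lΩ ω0 s τ) (lJ δ0 τ) u‖ *
        (‖psi (lΩ ω0 s τ) (lJ δ0 τ) (pX (π / 2) u)‖ - n * (u0 + u1 * z)) < -(n * (v0 + v1 * z)) ∧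
      ‖psi (lΩ ω0 s τ) (lJ δ0 τ) (pX (π / 2) u)‖ ^ 2 * √‖G2 (π / 2) (lΩ ω0 s τ) (lJ δ0 τ) u‖ ≤
        n * (ω0 * √(2 / (1 + δ0 ^ 2))) * (22215 / 10000) * (w0 + w1 * z ^ 2) := by
  obtain ⟨ρ, -, hρ, -, -, -, hJ, -, h1, hP, hQ⟩ :=
    line_par (r := 13 / 100) hδ hω hs0 hs1 (by norm_num) hτ
  obtain ⟨hσ1, hσ2, hΩ⟩ := wr1b_sig hω hs0 hs1 hτ
  have hE : 0 < 1 + δ0 ^ 2 := by positivity
  have hε1 : 0 ≤ 1 - ε := by
    rw [hε, sub_nonneg, div_le_one hE]; linarith [sq_nonneg δ0]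
  obtain ⟨-, -, -, -, x1, x2, x3⟩ := pX90 hu hz
  rw [abs_le] at x1 x2 x3
  generalize hX : pX (π / 2) u = X at *
  have ht0 : 0 ≤ t := by rw [ht]; positivity
  rw [← ht] at h1 hP
  rw [← hε] at hQ
  have hρ' : ‖ρ - 1‖ ≤ 2769 / 10000 := by linarith
  obtain ⟨b1, b2, b3, b4⟩ := errBody_real hb _ rfl
    (X.re - z ^ 2 * (1 / 12 - z ^ 2 * (1 / 5040 - z ^ 2 *
      (1 / 14968800 - 1 / 163459296000 * z ^ 2))) + 1 / 10000) (by linarith) (by linarith)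
    (-X.im - z * (1 / 2 - z ^ 2 * (1 / 180 - z ^ 2 * (1 / 226800 - z ^ 2 *
      (1 / 1362160800 - 1 / 25009272288000 * z ^ 2)))) + 1 / 10000) (by linarith) (by linarith)
    (‖X‖ - z * (1 / 2 + z ^ 2 * (1 / 720 + z ^ 2 *
      (1 / 3628800 + 1 / 87178291200 * z ^ 2))) + 1 / 10000) (by linarith) (by linarith)
    X.re (by ring) (-X.im) (by ring) ‖X‖ (by ring)
    _ rfl _ rfl _ rfl _ rfl _ rfl _ rfl _ rfl _ rfl _ rfl _ rfl _ rfl _ rfl _ rfl _ rfl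
  obtain ⟨p1, p2, p3, p4, p5⟩ := wr1b_p (X := X) ht0 hρ' rfl rfl rfl rfl
  have hψ := wr1b_psi hω ht0 hΩ hJ hρ' h1 (hP X) hk1 hk2 b1 p1 p3 p4 p5
  obtain ⟨q1, q2⟩ := wr1b_Q X hε1 hτ
  obtain ⟨g1, g2⟩ := wr1b_G hω hE hX.symm rfl hJ hσ1 hσ2 (hP X) (hQ X) b1 p1 p2 b2 q1 q2
  exact wr1b_fin hn (norm_nonneg _) hψ hf2 hc0 (by positivity) hcS hv (Real.sqrt_nonneg _)
    (Real.sqrt_nonneg _) (Real.sqrt_nonneg _) g1 g2 b3 b4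

end Pool.Agent.HillD
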