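import Pool.Agent.P.MP_ae2765_an.WR1a
import Pool.Agent.P.MP_ae2765_an.WR1b

/-! First region: the estimates on the disc of radius `13 / 100`. -/

namespace Pool.Agent.HillD
open Real Set Filter Topology Asymptotics Pool.Agent.HillD.Num Pool.Agent.P.MP_4c4e6e_co.Eng

theorem wr1c_int : ∫ u in (0 : ℝ)..1, ((π * (1 - u)) ^ 2) ^ 2 = π ^ 4 / 5 := by
  have h : ∀ u : ℝ, ((π * (1 - u)) ^ 2) ^ 2 = π ^ 4 * (1 - u) ^ 4 := fun u => by ring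
  simp only [h]
  rw [intervalIntegral.integral_const_mul,
    intervalIntegral.integral_comp_sub_left (fun x : ℝ => x ^ 4) 1]
  simp only [sub_self, sub_zero, integral_pow]
  norm_num
  ring

theorem wr1c_pi : π ^ 4 / 5 ≤ 194821 / 10000 := by
  have h1 := Real.pi_lt_d4
  have h0 := Real.pi_pos
  have h2 : π ^ 4 ≤ (3.1416 : ℝ) ^ 4 := pow_le_pow_left₀ h0.le h1.le 4
  norm_num at h2 ⊢
  linarith

theorem wr1c_core {δ0 ω0 s n S γ N T b0 b1 c u0 u1 w0 w1 : ℝ} {τ : ℂ} (hδ : 0 < δ0)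
    (hω : 0 < ω0) (hS : S = ω0 * √(2 / (1 + δ0 ^ 2))) (ht : δ0 ^ 2 ≤ ω0)
    (hs0 : 0 ≤ s) (hs1 : s ≤ δ0 ^ 2 / (1 + δ0 ^ 2)) (hτ : ‖τ‖ ≤ 13 / 100) (hn : 0 < n)
    (hS0 : 0 < S) (hu0 : u0 = γ * b0) (hu1 : u1 * (987 / 100) = γ * b1) (hu1' : 0 ≤ u1)
    (hc : 0 ≤ c) (hw1 : 0 ≤ w1)
    (hN : n * S * (22215 / 10000 * (w0 + w1 * (194821 / 10000))) ≤ N)
    (hT : 7352 / 100000 * (δ0 ^ 2 / ω0) ^ 2 / S ≤ T)
    (hpt : ∀ u ∈ Icc (0 : ℝ) 1, ∀ z : ℝ, z = (π * (1 - u)) ^ 2 →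
      √‖G2 (π / 2) (lΩ ω0 s τ) (lJ δ0 τ) u‖ *
        (‖psi (lΩ ω0 s τ) (lJ δ0 τ) (pX (π / 2) u)‖ - n * (u0 + u1 * z)) <
          -(n * (c / 4 + c / (9869 / 1000) * z)) ∧
      ‖psi (lΩ ω0 s τ) (lJ δ0 τ) (pX (π / 2) u)‖ ^ 2 * √‖G2 (π / 2) (lΩ ω0 s τ) (lJ δ0 τ) u‖ ≤
        n * (ω0 * √(2 / (1 + δ0 ^ 2))) * (22215 / 10000) * (w0 + w1 * z ^ 2)) :
    Wk (π / 2) (lΩ ω0 s τ) (lJ δ0 τ) (231 / 281) γ N T
      (fun u => n * (b0 + b1 * (1 - u) ^ 2)) (fun u => -(n * (c * (1 - u)))) := by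
  have hE : 0 < 1 + δ0 ^ 2 := by positivity
  have hs1' : s ≤ 1 := hs1.trans (by rw [div_le_one hE]; linarith)
  obtain ⟨ρ, -, -, -, -, -, -, hΩ, -⟩ := line_par (r := 13 / 100) hδ hω hs0 hs1' (by norm_num) hτ
  have hP : ∀ u ∈ Icc (0 : ℝ) 1, PP (lΩ ω0 s τ) (lJ δ0 τ) (pX (π / 2) u) ≠ 0 :=
    fun u hu => (r1_ang hδ hω ht hs0 hs1 hτ hu).1
  have hQ : ∀ u ∈ Icc (0 : ℝ) 1, QQ (lJ δ0 τ) (pX (π / 2) u) ≠ 0 :=
    fun u hu => (r1_ang hδ hω ht hs0 hs1 hτ hu).2.1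
  obtain ⟨hslit, htt⟩ := r1_tt hδ hω hs0 hs1' hτ
  refine ⟨hΩ, hP, hQ, fun u hu => (r1_ang hδ hω ht hs0 hs1 hτ hu).2.2, fun u hu => ?_, ?_, hslit,
    htt.trans (by rw [← hS]; exact hT)⟩
  · obtain ⟨h1, -⟩ := hpt u hu _ rfl
    obtain ⟨-, -, hz1, hz2, -⟩ := pX90 hu rfl
    set z := (π * (1 - u)) ^ 2 with hz
    have e1 : u0 + u1 * z ≤ γ * (b0 + b1 * (1 - u) ^ 2) := by
      have : u1 * z ≤ u1 * (987 / 100 * (1 - u) ^ 2) :=
        mul_le_mul_of_nonneg_left (by linarith) hu1'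
      calc u0 + u1 * z ≤ u0 + u1 * (987 / 100) * (1 - u) ^ 2 := by linarith
        _ = γ * (b0 + b1 * (1 - u) ^ 2) := by rw [hu0, hu1]; ring
    have e2 : c * (1 - u) ≤ c / 4 + c / (9869 / 1000) * z := by
      have h3 : (1 - u) ≤ 1 / 4 + z / (9869 / 1000) := by nlinarith [sq_nonneg (1 - u - 1 / 2)]
      calc c * (1 - u) ≤ c * (1 / 4 + z / (9869 / 1000)) := mul_le_mul_of_nonneg_left h3 hc
        _ = c / 4 + c / (9869 / 1000) * z := by ring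
    have e3 : n * (u0 + u1 * z) ≤ γ * (n * (b0 + b1 * (1 - u) ^ 2)) := by
      have := mul_le_mul_of_nonneg_left e1 hn.le
      linarith
    have e4 := mul_le_mul_of_nonneg_left e2 hn.le
    have e5 : √‖G2 (π / 2) (lΩ ω0 s τ) (lJ δ0 τ) u‖ *
        (‖psi (lΩ ω0 s τ) (lJ δ0 τ) (pX (π / 2) u)‖ - γ * (n * (b0 + b1 * (1 - u) ^ 2))) ≤
        √‖G2 (π / 2) (lΩ ω0 s τ) (lJ δ0 τ) u‖ *
        (‖psi (lΩ ω0 s τ) (lJ δ0 τ) (pX (π / 2) u)‖ - n * (u0 + u1 * z)) :=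
      mul_le_mul_of_nonneg_left (by linarith) (Real.sqrt_nonneg _)
    change √‖G2 (π / 2) (lΩ ω0 s τ) (lJ δ0 τ) u‖ *
        (‖psi (lΩ ω0 s τ) (lJ δ0 τ) (pX (π / 2) u)‖ - γ * (n * (b0 + b1 * (1 - u) ^ 2))) <
        -(n * (c * (1 - u)))
    linarith
  · have hc1 := wk_cont hΩ hP hQ
    have hi1 : IntervalIntegrable (fun u => ‖psi (lΩ ω0 s τ) (lJ δ0 τ) (pX (π / 2) u)‖ ^ 2 *
        √‖G2 (π / 2) (lΩ ω0 s τ) (lJ δ0 τ) u‖) MeasureTheory.volume 0 1 :=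
      ContinuousOn.intervalIntegrable_of_Icc zero_le_one hc1
    have hi2 : IntervalIntegrable (fun u : ℝ => ((π * (1 - u)) ^ 2) ^ 2)
        MeasureTheory.volume 0 1 := (by fun_prop : Continuous _).intervalIntegrable _ _
    have hi3 : IntervalIntegrable (fun u : ℝ => n * S * (22215 / 10000) *
        (w0 + w1 * ((π * (1 - u)) ^ 2) ^ 2)) MeasureTheory.volume 0 1 :=
      (by fun_prop : Continuous _).intervalIntegrable _ _
    have h1 := intervalIntegral.integral_mono_on zero_le_one hi1 hi3 fun u hu => by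
      have := (hpt u hu _ rfl).2
      rwa [← hS] at this
    refine h1.trans (le_trans ?_ hN)
    rw [intervalIntegral.integral_const_mul, intervalIntegral.integral_add (by simp)
      (hi2.const_mul w1), intervalIntegral.integral_const_mul, wr1c_int]
    simp only [intervalIntegral.integral_const, sub_zero, one_smul]
    have h2 := mul_le_mul_of_nonneg_left wr1c_pi hw1
    have h3 : 0 ≤ n * S * (22215 / 10000) := by positivity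
    calc n * S * (22215 / 10000) * (w0 + w1 * (π ^ 4 / 5))
        ≤ n * S * (22215 / 10000) * (w0 + w1 * (194821 / 10000)) :=
          mul_le_mul_of_nonneg_left (by linarith) h3
      _ = n * S * (22215 / 10000 * (w0 + w1 * (194821 / 10000))) := by ring

theorem wr1c_sq {δ0 ω0 S : ℝ} (hS : S = ω0 * √(2 / (1 + δ0 ^ 2))) :
    S ^ 2 * (1 + δ0 ^ 2) = 2 * ω0 ^ 2 := by
  have hE : 0 < 1 + δ0 ^ 2 := by positivity
  rw [hS, mul_pow, Real.sq_sqrt (by positivity)]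
  field_simp

theorem wr1c_tt {t S a c : ℝ} (hS : 0 < S) (h : c ≤ a * S ^ 2) :
    c * t ^ 2 / S ≤ S * a * t ^ 2 := by
  rw [div_le_iff₀ hS]
  have := mul_le_mul_of_nonneg_right h (sq_nonneg t)
  linarith

theorem r1_err1 {δ0 ω0 s n S : ℝ} {τ : ℂ} (hδ : 0 < δ0) (hω : 0 < ω0)
    (hn : n = δ0 ^ 2 / (1 + δ0 ^ 2) ^ 2) (hS : S = ω0 * √(2 / (1 + δ0 ^ 2)))
    (h1 : (1 + δ0 ^ 2) ^ 2 / ω0 ≤ 23 / 5) (h2 : 69 / 2 ≤ S)
    (hs0 : 0 ≤ s) (hs1 : s ≤ δ0 ^ 2 / (1 + δ0 ^ 2)) (hτ : ‖τ‖ ≤ 13 / 100) :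
    Wk (π / 2) (lΩ ω0 s τ) (lJ δ0 τ) (231 / 281) (54 / 100) (n * S * (2053 / 10000000))
      (n * S * (31 / 500000 * ((1 + δ0 ^ 2) ^ 2 / ω0 * (δ0 ^ 2 / ω0))))
      (fun u => n * (23 / 1000 + 19 / 100 * (1 - u) ^ 2)) (fun u => -(n * (38 / 100 * (1 - u)))) := by
  have hD : 0 < δ0 ^ 2 := by positivity
  have hE : 0 < 1 + δ0 ^ 2 := by positivity
  have hsq := wr1c_sq hS
  have hS0 : 0 < S := by linarith
  have hS2 : 119025 / 100 ≤ S ^ 2 := by nlinarith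
  have hn0 : 0 < n := by rw [hn]; positivity
  have hω2 : 595125 / 1000 * (1 + δ0 ^ 2) ≤ ω0 ^ 2 := by nlinarith
  have hEω : (1 + δ0 ^ 2) / ω0 ^ 2 ≤ 1000 / 595125 := by
    rw [div_le_iff₀ (by positivity)]; linarith
  obtain ⟨x, hx⟩ : ∃ x, x = (1 + δ0 ^ 2) / ω0 := ⟨_, rfl⟩
  obtain ⟨ε, hε⟩ : ∃ ε, ε = 1 / (1 + δ0 ^ 2) := ⟨_, rfl⟩
  have hx0 : 0 ≤ x := by rw [hx]; positivity
  have hε0 : 0 ≤ ε := by rw [hε]; positivity
  have hε1 : ε ≤ 1 := by rw [hε, div_le_one hE]; linarith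
  have hx1 : x ≤ 99 / 500 := by
    have e : x ^ 3 = (1 + δ0 ^ 2) ^ 2 / ω0 * ((1 + δ0 ^ 2) / ω0 ^ 2) := by
      rw [hx]; field_simp
    have h3 : x ^ 3 ≤ 23 / 5 * (1000 / 595125) := by
      rw [e]
      exact mul_le_mul h1 hEω (by positivity) (by norm_num)
    exact le_of_pow_le_pow_left₀ (n := 3) (by norm_num) (by norm_num) (h3.trans (by norm_num))
  have htx : (1 - ε) * x = δ0 ^ 2 / ω0 := by rw [hx, hε]; field_simp; ring
  have ht : δ0 ^ 2 ≤ ω0 := by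
    have : δ0 ^ 2 / ω0 ≤ 1 := by rw [← htx]; nlinarith
    rwa [div_le_one hω] at this
  have hs1' : s ≤ 1 := hs1.trans (by rw [div_le_one hE]; linarith)
  refine wr1c_core (u0 := 621 / 50000) (u1 := 171 / 16450) (w0 := 21 / 2500000)
    (w1 := 1 / 231945) hδ hω hS ht hs0 hs1 hτ hn0 hS0 (by norm_num) (by norm_num) (by norm_num)
    (by norm_num) (by norm_num) (mul_le_mul_of_nonneg_left (by norm_num) (by positivity)) ?_
    fun u hu z hz => ?_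
  · have e : n * S * (31 / 500000 * ((1 + δ0 ^ 2) ^ 2 / ω0 * (δ0 ^ 2 / ω0))) =
        S * (31 / 500000) * (δ0 ^ 2 / ω0) ^ 2 := by rw [hn]; field_simp
    rw [e]
    exact wr1c_tt hS0 (by linarith)
  · obtain ⟨hz0, hz1, -⟩ := pX90 hu hz
    obtain ⟨tl, hb⟩ := E1_real x ε z hx0 hx1 hε0 hε1 hz0 hz1
    have e1 : (38 / 100 : ℝ) / 4 = 19 / 200 := by norm_num
    have e2 : (38 / 100 : ℝ) / (9869 / 1000) = 380 / 9869 := by norm_num
    rw [e1, e2]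
    refine r1_pt hδ hω hs0 hs1' hτ hu hz hε htx hn0 hx0 (le_of_eq ?_) (le_of_eq ?_) ?_
      (by norm_num) ?_ (by positivity) hb
    · rw [hn, hx, hε]; field_simp; ring
    · rw [hn, hx, hε]; field_simp; ring
    · have e : n * x ^ 2 = δ0 ^ 2 / ω0 ^ 2 := by rw [hn, hx]; field_simp
      have h4 : δ0 ^ 2 / ω0 ^ 2 ≤ (1 + δ0 ^ 2) / ω0 ^ 2 := by gcongr; linarith
      rw [e]
      linarith
    · rw [← hS]; linarith

theorem r1_err2 {δ0 ω0 s n S : ℝ} {τ : ℂ} (hδ : 0 < δ0) (hω : 0 < ω0)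
    (hn : n = δ0 ^ 2 / ω0) (hS : S = ω0 * √(2 / (1 + δ0 ^ 2))) (ht : δ0 ^ 2 ≤ ω0)
    (h1 : 23 / 5 ≤ (1 + δ0 ^ 2) ^ 2 / ω0) (h2 : 154 / 5 ≤ S)
    (hs0 : 0 ≤ s) (hs1 : s ≤ δ0 ^ 2 / (1 + δ0 ^ 2)) (hτ : ‖τ‖ ≤ 13 / 100) :
    Wk (π / 2) (lΩ ω0 s τ) (lJ δ0 τ) (231 / 281) (53 / 100) (n * S * (934 / 10000000))
      (n * S * (39 / 500000 * n))
      (fun u => n * (8 / 1000 + 55 / 1000 * (1 - u) ^ 2)) (fun u => -(n * (11 / 100 * (1 - u)))) := by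
  have hD : 0 < δ0 ^ 2 := by positivity
  have hE : 0 < 1 + δ0 ^ 2 := by positivity
  have hsq := wr1c_sq hS
  have hS0 : 0 < S := by linarith
  have hS2 : 94864 / 100 ≤ S ^ 2 := by nlinarith
  have hn0 : 0 < n := by rw [hn]; positivity
  have hn1 : n ≤ 1 := by rw [hn, div_le_one hω]; exact ht
  have hω2 : 47432 / 100 * (1 + δ0 ^ 2) ≤ ω0 ^ 2 := by nlinarith
  have hωE : 23 / 5 * ω0 ≤ (1 + δ0 ^ 2) ^ 2 := by rwa [le_div_iff₀ hω] at h1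
  have hE1 : 625 / 29 ≤ 1 + δ0 ^ 2 := by
    have h3 : (23 / 5 * ω0) ^ 2 ≤ ((1 + δ0 ^ 2) ^ 2) ^ 2 := pow_le_pow_left₀ (by positivity) hωE 2
    have h4 : (625 / 29 : ℝ) ^ 3 * (1 + δ0 ^ 2) ≤ (1 + δ0 ^ 2) ^ 3 * (1 + δ0 ^ 2) := by nlinarith
    exact le_of_pow_le_pow_left₀ (n := 3) (by norm_num) hE.le (le_of_mul_le_mul_right h4 hE)
  obtain ⟨ε, hε⟩ : ∃ ε, ε = 1 / (1 + δ0 ^ 2) := ⟨_, rfl⟩
  have hε0 : 0 ≤ ε := by rw [hε]; positivity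
  have hε1 : ε ≤ 29 / 625 := by rw [hε, div_le_iff₀ hE]; linarith
  have hs1' : s ≤ 1 := hs1.trans (by rw [div_le_one hE]; linarith)
  refine wr1c_core (u0 := 53 / 12500) (u1 := 583 / 197400) (w0 := 3 / 250000)
    (w1 := 1 / 649446) hδ hω hS ht hs0 hs1 hτ hn0 hS0 (by norm_num) (by norm_num) (by norm_num)
    (by norm_num) (by norm_num) (mul_le_mul_of_nonneg_left (by norm_num) (by positivity)) ?_
    fun u hu z hz => ?_
  · have e : n * S * (39 / 500000 * n) = S * (39 / 500000) * (δ0 ^ 2 / ω0) ^ 2 := by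
      rw [hn]; ring
    rw [e]
    exact wr1c_tt hS0 (by linarith)
  · obtain ⟨hz0, hz1, -⟩ := pX90 hu hz
    have e1 : (11 / 100 : ℝ) / 4 = 11 / 400 := by norm_num
    have e2 : (11 / 100 : ℝ) / (9869 / 1000) = 110 / 9869 := by norm_num
    rw [e1, e2]
    have hcS : (14878479 / 250000 : ℝ) ≤
        2221 / 1000 * (87 / 100) * (ω0 * √(2 / (1 + δ0 ^ 2))) := by rw [← hS]; linarith
    rcases le_total n (21 / 100) with h | h
    · obtain ⟨tl, hb⟩ := E2_real n ε z hn0.le h hε0 hε1 hz0 hz1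
      have h5 : 1 / ω0 ≤ 2391 / 10000 * n ^ 2 := by
        have h6 : 596 / 625 * (1 + δ0 ^ 2) ≤ δ0 ^ 2 := by linarith
        have h7 : (596 / 625 * (1 + δ0 ^ 2)) ^ 2 ≤ (δ0 ^ 2) ^ 2 :=
          pow_le_pow_left₀ (by positivity) h6 2
        have h8 : ω0 ≤ 2391 / 10000 * (δ0 ^ 2) ^ 2 := by nlinarith
        have e : 2391 / 10000 * n ^ 2 = 2391 / 10000 * (δ0 ^ 2) ^ 2 / ω0 / ω0 := by
          rw [hn]; field_simp
        rw [e]
        refine div_le_div_of_nonneg_right ?_ hω.le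
        rw [le_div_iff₀ hω]; linarith
      refine r1_pt hδ hω hs0 hs1' hτ hu hz hε hn hn0 zero_le_one ?_ ?_ (le_of_eq (by ring))
        (by norm_num) hcS (by positivity) hb
      · have := mul_le_mul_of_nonneg_left h5 (sq_nonneg n)
        calc n ^ 2 / ω0 = n ^ 2 * (1 / ω0) := by ring
          _ ≤ n ^ 2 * (2391 / 10000 * n ^ 2) := this
          _ = n * 1 * (2391 / 10000 * (n ^ 2 * n)) := by ring
      · have h9 : (1 / ω0) ^ 2 ≤ (2391 / 10000 * n ^ 2) ^ 2 := pow_le_pow_left₀ (by positivity) h5 2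
        have h10 : (1 / ω0) ^ 2 ≤ 143 / 2500 * (n ^ 2) ^ 2 := by nlinarith [sq_nonneg (n ^ 2)]
        calc n / ω0 ^ 2 = n * (1 / ω0) ^ 2 := by ring
          _ ≤ n * (143 / 2500 * (n ^ 2) ^ 2) := mul_le_mul_of_nonneg_left h10 hn0.le
          _ = n * 1 * (143 / 2500 * (n ^ 2) ^ 2) := by ring
    · obtain ⟨tl, hb⟩ := E3_real n ε z h hn1 hε0 hε1 hz0 hz1
      refine r1_pt hδ hω hs0 hs1' hτ hu hz hε hn hn0 zero_le_one ?_ ?_ (le_of_eq (by ring))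
        (by norm_num) hcS (by positivity) hb
      · have h5 : n / ω0 ≤ 211 / 100000 := by
          rw [hn, div_div, div_le_iff₀ (by positivity)]
          nlinarith
        calc n ^ 2 / ω0 = n * (n / ω0) := by ring
          _ ≤ n * (211 / 100000) := mul_le_mul_of_nonneg_left h5 hn0.le
          _ = n * 1 * (211 / 100000) := by ring
      · have h5 : 1 / ω0 ^ 2 ≤ 49 / 500000 := by
          rw [div_le_iff₀ (by positivity)]
          linarith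
        calc n / ω0 ^ 2 = n * (1 / ω0 ^ 2) := by ring
          _ ≤ n * (49 / 500000) := mul_le_mul_of_nonneg_left h5 hn0.le
          _ = n * 1 * (49 / 500000) := by ring

end Pool.Agent.HillD
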