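import Pool.Agent.P.MP_ae2765_an.WSa

/-! First region: the Taylor coefficients of the main term through moments. -/

namespace Pool.Agent.HillD
open Real Set Filter Topology Asymptotics

/-- normalised moments of `A = av X / (1 + t X)` and `B = ae (1 - X) / (1 + ε + (1 - ε) X)` -/
noncomputable def mom (ε t av ae : ℝ) (i k : ℕ) : ℝ :=
  2 / π * √((3 + ε) * (2 + t)⁻¹) * ∫ φ in (0 : ℝ)..π / 2,
    √((1 + t * cos φ ^ 2) / (1 + ε + (1 - ε) * cos φ ^ 2)) *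
      ((av * (cos φ ^ 2 / (1 + t * cos φ ^ 2))) ^ i *
        (ae * ((1 - cos φ ^ 2) / (1 + ε + (1 - ε) * cos φ ^ 2))) ^ k)

noncomputable def wr1d_r (ε t φ : ℝ) : ℝ :=
  √((1 + t * cos φ ^ 2) / (1 + ε + (1 - ε) * cos φ ^ 2))

noncomputable def wr1d_A (t av φ : ℝ) : ℝ := av * (cos φ ^ 2 / (1 + t * cos φ ^ 2))

noncomputable def wr1d_B (ε ae φ : ℝ) : ℝ :=
  ae * ((1 - cos φ ^ 2) / (1 + ε + (1 - ε) * cos φ ^ 2))

noncomputable def wr1d_I (ε t av ae : ℝ) (i k : ℕ) : ℝ :=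
  ∫ φ in (0 : ℝ)..π / 2, wr1d_r ε t φ * (wr1d_A t av φ ^ i * wr1d_B ε ae φ ^ k)

theorem wr1d_mom (ε t av ae : ℝ) (i k : ℕ) :
    mom ε t av ae i k = 2 / π * √((3 + ε) * (2 + t)⁻¹) * wr1d_I ε t av ae i k := rfl

theorem wr1d_d1 {t : ℝ} (ht : 0 ≤ t) (φ : ℝ) : 1 ≤ 1 + t * cos φ ^ 2 :=
  le_add_of_nonneg_right (by positivity)

theorem wr1d_d2 {ε : ℝ} (hε0 : 0 ≤ ε) (hε1 : ε ≤ 1) (φ : ℝ) :
    1 ≤ 1 + ε + (1 - ε) * cos φ ^ 2 := by
  have := mul_nonneg (sub_nonneg.2 hε1) (sq_nonneg (cos φ))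
  linarith

theorem wr1d_cont {ε t : ℝ} (hε0 : 0 ≤ ε) (hε1 : ε ≤ 1) (ht : 0 ≤ t) (av ae : ℝ) (i k : ℕ) :
    Continuous fun φ => wr1d_r ε t φ * (wr1d_A t av φ ^ i * wr1d_B ε ae φ ^ k) := by
  have h1 : ∀ φ, 1 + t * cos φ ^ 2 ≠ 0 := fun φ => by linarith [wr1d_d1 ht φ]
  have h2 : ∀ φ, 1 + ε + (1 - ε) * cos φ ^ 2 ≠ 0 := fun φ => by linarith [wr1d_d2 hε0 hε1 φ]
  have c1 : Continuous (wr1d_r ε t) :=
    (Continuous.div (by fun_prop) (by fun_prop) h2).sqrt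
  have c2 : Continuous (wr1d_A t av) :=
    continuous_const.mul (Continuous.div (by fun_prop) (by fun_prop) h1)
  have c3 : Continuous (wr1d_B ε ae) :=
    continuous_const.mul (Continuous.div (by fun_prop) (by fun_prop) h2)
  exact c1.mul ((c2.pow i).mul (c3.pow k))

theorem wr1d_lin {ε t : ℝ} (hε0 : 0 ≤ ε) (hε1 : ε ≤ 1) (ht : 0 ≤ t) (av ae : ℝ)
    (a00 a01 a10 a02 a11 a20 a03 a12 a21 a30 : ℝ) {f : ℝ → ℝ}
    (hf : ∀ φ, f φ = wr1d_r ε t φ * (a00 + a01 * wr1d_B ε ae φ + a10 * wr1d_A t av φ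
      + a02 * wr1d_B ε ae φ ^ 2 + a11 * (wr1d_A t av φ * wr1d_B ε ae φ) + a20 * wr1d_A t av φ ^ 2
      + a03 * wr1d_B ε ae φ ^ 3 + a12 * (wr1d_A t av φ * wr1d_B ε ae φ ^ 2)
      + a21 * (wr1d_A t av φ ^ 2 * wr1d_B ε ae φ) + a30 * wr1d_A t av φ ^ 3)) :
    ∫ φ in (0 : ℝ)..π / 2, f φ = a00 * wr1d_I ε t av ae 0 0 + a01 * wr1d_I ε t av ae 0 1
      + a10 * wr1d_I ε t av ae 1 0 + a02 * wr1d_I ε t av ae 0 2 + a11 * wr1d_I ε t av ae 1 1
      + a20 * wr1d_I ε t av ae 2 0 + a03 * wr1d_I ε t av ae 0 3 + a12 * wr1d_I ε t av ae 1 2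
      + a21 * wr1d_I ε t av ae 2 1 + a30 * wr1d_I ε t av ae 3 0 := by
  have hc := wr1d_cont hε0 hε1 ht av ae
  unfold wr1d_I
  generalize hg : (fun (i k : ℕ) (φ : ℝ) =>
    wr1d_r ε t φ * (wr1d_A t av φ ^ i * wr1d_B ε ae φ ^ k)) = g
  have hg' : ∀ i k φ, wr1d_r ε t φ * (wr1d_A t av φ ^ i * wr1d_B ε ae φ ^ k) = g i k φ :=
    fun i k φ => by rw [← hg]
  have e : f = fun φ => a00 * g 0 0 φ + a01 * g 0 1 φ + a10 * g 1 0 φ + a02 * g 0 2 φ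
      + a11 * g 1 1 φ + a20 * g 2 0 φ + a03 * g 0 3 φ + a12 * g 1 2 φ + a21 * g 2 1 φ
      + a30 * g 3 0 φ := by
    funext φ
    simp only [← hg']
    rw [hf]; ring
  simp only [hg'] at hc ⊢
  have hc' : ∀ i k, Continuous (g i k) := hc
  have c00 := hc' 0 0
  have c01 := hc' 0 1
  have c10 := hc' 1 0
  have c02 := hc' 0 2
  have c11 := hc' 1 1
  have c20 := hc' 2 0
  have c03 := hc' 0 3
  have c12 := hc' 1 2
  have c21 := hc' 2 1
  have c30 := hc' 3 0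
  rw [e]
  iterate 9
    rw [intervalIntegral.integral_add (Continuous.intervalIntegrable (by fun_prop) _ _)
      (Continuous.intervalIntegrable (by fun_prop) _ _)]
  simp only [intervalIntegral.integral_const_mul]

theorem wr1d_pt {δ0 ω0 ε t n av ae : ℝ} (hδ : 0 < δ0) (hω : 0 < ω0)
    (hε : ε = 1 / (1 + δ0 ^ 2)) (ht : t = δ0 ^ 2 / ω0)
    (hav : t = n * av) (hae : (1 - ε) * ε = n * ae) (φ : ℝ) :
    qr ω0 (jj δ0) φ = ω0 * √(2 / (1 + δ0 ^ 2)) * wr1d_r ε t φ ∧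
      yv ω0 (jj δ0) φ = n * wr1d_A t av φ ∧ bv (jj δ0) φ = 1 - ε - n * wr1d_B ε ae φ := by
  have hX : 0 ≤ cos φ ^ 2 := sq_nonneg _
  unfold qr yv bv wr1d_r wr1d_A wr1d_B Pr Qr jj
  generalize cos φ ^ 2 = X at hX
  have hD : 0 < δ0 ^ 2 := by positivity
  generalize δ0 ^ 2 = D at hD hε ht
  have k1 : 1 - 2 * (1 / (D + 2)) = D / (D + 2) := by field_simp; ring
  have k2 : 1 + ε + (1 - ε) * X = (D + 2 + D * X) / (1 + D) := by rw [hε]; field_simp; ring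
  refine ⟨?_, ?_, ?_⟩
  · rw [mul_assoc ω0, ← Real.sqrt_mul (by positivity), ← Real.sqrt_sq hω.le,
      ← Real.sqrt_mul (by positivity), Real.sqrt_sq hω.le]
    congr 1
    rw [k1, k2, ht]
    field_simp
  · rw [← mul_assoc, ← hav, k1, ht]
    field_simp
  · rw [← mul_assoc, ← hae, k1, k2, hε]
    field_simp
    ring

theorem mom_ineq {ε t av ae n : ℝ} (hε0 : 0 ≤ ε) (hε1 : ε ≤ 1) (ht : 0 ≤ t) (hav : 0 ≤ av)
    (hae : 0 ≤ ae) (hn : 0 ≤ n) (htn : t = n * av) (i k : ℕ) :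
    0 ≤ mom ε t av ae i k ∧ mom ε t av ae (i + 1) k ≤ av * mom ε t av ae i k ∧
      mom ε t av ae i (k + 1) ≤ ae * mom ε t av ae i k ∧ 0 < mom ε t av ae 0 0 ∧
      n * mom ε t av ae 1 0 ≤ mom ε t av ae 0 0 := by
  have hπ : (0 : ℝ) ≤ π / 2 := by positivity
  have hC : 0 < 2 / π * √((3 + ε) * (2 + t)⁻¹) := by positivity
  have hc := wr1d_cont hε0 hε1 ht av ae
  have hr : ∀ φ, 0 < wr1d_r ε t φ := fun φ =>
    Real.sqrt_pos.2 (div_pos (by linarith [wr1d_d1 ht φ]) (by linarith [wr1d_d2 hε0 hε1 φ]))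
  have hA : ∀ φ, 0 ≤ wr1d_A t av φ ∧ wr1d_A t av φ ≤ av ∧ n * wr1d_A t av φ ≤ 1 := by
    intro φ
    have h1 := wr1d_d1 ht φ
    have h2 := cos_sq_le_one φ
    have h3 : (0 : ℝ) < 1 + t * cos φ ^ 2 := by linarith
    unfold wr1d_A
    refine ⟨by positivity, mul_le_of_le_one_right hav ((div_le_one h3).2 (by linarith)), ?_⟩
    rw [← mul_assoc, ← htn, ← mul_div_assoc, div_le_one h3]
    linarith
  have hB : ∀ φ, 0 ≤ wr1d_B ε ae φ ∧ wr1d_B ε ae φ ≤ ae := by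
    intro φ
    have h1 := wr1d_d2 hε0 hε1 φ
    have h2 := cos_sq_le_one φ
    have h3 : (0 : ℝ) < 1 + ε + (1 - ε) * cos φ ^ 2 := by linarith
    have h4 := sq_nonneg (cos φ)
    unfold wr1d_B
    exact ⟨mul_nonneg hae (div_nonneg (by linarith) h3.le),
      mul_le_of_le_one_right hae ((div_le_one h3).2 (by linarith))⟩
  have hg : ∀ i k φ, 0 ≤ wr1d_r ε t φ * (wr1d_A t av φ ^ i * wr1d_B ε ae φ ^ k) := fun i k φ =>
    mul_nonneg (hr φ).le (mul_nonneg (pow_nonneg (hA φ).1 _) (pow_nonneg (hB φ).1 _))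
  have key : ∀ (a b : ℝ) (i k i' k' : ℕ),
      (∀ φ, a * (wr1d_r ε t φ * (wr1d_A t av φ ^ i * wr1d_B ε ae φ ^ k))
        ≤ b * (wr1d_r ε t φ * (wr1d_A t av φ ^ i' * wr1d_B ε ae φ ^ k'))) →
      a * mom ε t av ae i k ≤ b * mom ε t av ae i' k' := by
    intro a b i k i' k' h
    have h1 : a * wr1d_I ε t av ae i k ≤ b * wr1d_I ε t av ae i' k' := by
      unfold wr1d_I
      rw [← intervalIntegral.integral_const_mul, ← intervalIntegral.integral_const_mul]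
      exact intervalIntegral.integral_mono_on hπ
        ((continuous_const.mul (hc i k)).intervalIntegrable _ _)
        ((continuous_const.mul (hc i' k')).intervalIntegrable _ _) (fun φ _ => h φ)
    rw [wr1d_mom, wr1d_mom, mul_left_comm a, mul_left_comm b]
    exact mul_le_mul_of_nonneg_left h1 hC.le
  refine ⟨?_, ?_, ?_, ?_, ?_⟩
  · rw [wr1d_mom]
    exact mul_nonneg hC.le (intervalIntegral.integral_nonneg hπ (fun φ _ => hg i k φ))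
  · have := key 1 av (i + 1) k i k (fun φ => by
      have := mul_le_mul_of_nonneg_right (hA φ).2.1 (hg i k φ)
      rw [pow_succ]; linarith)
    rwa [one_mul] at this
  · have := key 1 ae i (k + 1) i k (fun φ => by
      have := mul_le_mul_of_nonneg_right (hB φ).2 (hg i k φ)
      rw [pow_succ]; linarith)
    rwa [one_mul] at this
  · rw [wr1d_mom]
    refine mul_pos hC (intervalIntegral.intervalIntegral_pos_of_pos
      ((hc 0 0).intervalIntegrable _ _) (fun φ => ?_) (by positivity))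
    simpa using hr φ
  · have := key n 1 1 0 0 0 (fun φ => by
      have := mul_le_mul_of_nonneg_right (hA φ).2.2 (hr φ).le
      simp only [pow_zero, pow_one, mul_one, one_mul] at this ⊢
      linarith)
    rwa [one_mul] at this

theorem F_mom {δ0 ω0 ε e t n av ae sg s k sk h c : ℝ} {M : ℕ → ℕ → ℝ} (hδ : 0 < δ0) (hω : 0 < ω0)
    (hε : ε = 1 / (1 + δ0 ^ 2)) (he : e = 1 - ε) (ht : t = δ0 ^ 2 / ω0) (hn : 0 < n)
    (hav : t = n * av) (hae : e * ε = n * ae) (hs : s = e - n * sg) (hk : k = 2 - s)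
    (hsk : sk = 1 - s * k) (hh : h = 1 / 2 * k) (hM : M = mom ε t av ae)
    (hc : c = n * (ω0 * √(2 / (1 + δ0 ^ 2))) * (π / 2) / √((3 + ε) * (2 + t)⁻¹)) :
    F1 (π / 2) ω0 (jj δ0) s = c * (M 0 1 - sg * M 0 0 + h * M 1 0) ∧
    2 * F2 (π / 2) ω0 (jj δ0) s = c * ((2 * (e * sg) - ae) * M 0 0 + (1 - 4 * e) * M 0 1 +
      sk * M 1 0 + n * (3 * M 0 2 - 1 / 4 * (k ^ 2 * M 2 0) - 2 * (sg * M 0 1) + k * M 1 1 -
        k * sg * M 1 0)) ∧
    6 * F3 (π / 2) ω0 (jj δ0) s = c *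
      (((6 * (e * ae) - 6 * (e ^ 2 * sg)) * M 0 0 + 12 * (e * (2 * e - 1)) * M 0 1 -
          3 * (s * sk) * M 1 0 +
          n * (6 * (e * sg ^ 2) * M 0 0 + (6 - 24 * e) * M 0 2 - 3 * (k * sk) * M 2 0) +
          n ^ 2 * (8 * M 0 3 - 2 * (sg ^ 2 * sg) * M 0 0 + k ^ 2 * k * M 3 0)) +
        3 * (n * ((2 * (e * sg) - ae - n * sg ^ 2) * (M 0 1 - sg * M 0 0 + h * M 1 0) +
          (1 - 4 * e) * (M 0 2 - sg * M 0 1 + h * M 1 1) + sk * (M 1 1 - sg * M 1 0 + h * M 2 0) +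
          n * (2 * (M 0 3 - sg * M 0 2 + h * M 1 2) -
            2 * h ^ 2 * (M 2 1 - sg * M 2 0 + h * M 3 0)))) +
        n ^ 2 * (M 0 3 + 3 * (h * M 1 2) + 3 * (h ^ 2 * M 2 1) + h ^ 2 * h * M 3 0 -
          3 * (sg * (M 0 2 + 2 * (h * M 1 1) + h ^ 2 * M 2 0)) +
          3 * (sg ^ 2 * (M 0 1 + h * M 1 0)) - sg ^ 2 * sg * M 0 0)) := by
  have hε0 : 0 ≤ ε := by rw [hε]; positivity
  have hε1 : ε ≤ 1 := by
    rw [hε, div_le_one (by positivity)]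
    exact le_add_of_nonneg_right (sq_nonneg _)
  have ht0 : 0 ≤ t := by rw [ht]; positivity
  have hpt := wr1d_pt hδ hω hε ht hav (he ▸ hae)
  generalize ω0 * √(2 / (1 + δ0 ^ 2)) = S at hpt hc
  have hcM : ∀ i k, S * n * wr1d_I ε t av ae i k = c * M i k := by
    intro i k
    have h1 : 0 < √((3 + ε) * (2 + t)⁻¹) := by positivity
    rw [hM, wr1d_mom, hc]
    field_simp
  have hε' : ε = 1 - e := by rw [he]; ring
  have hae' : e * (1 - e) = n * ae := by rw [← hε']; exact hae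
  rw [← he] at hpt
  refine ⟨?_, ?_, ?_⟩
  · unfold F1
    rw [wr1d_lin hε0 hε1 ht0 av ae (S * n * (-sg)) (S * n) (S * n * h) 0 0 0 0 0 0 0
      (fun φ => by
        rw [(hpt φ).1, (hpt φ).2.1, (hpt φ).2.2]
        unfold el1
        rw [hh, hk, hs]
        ring)]
    linear_combination (-sg) * hcM 0 0 + hcM 0 1 + h * hcM 1 0
  · unfold F2
    rw [← intervalIntegral.integral_const_mul,
      wr1d_lin hε0 hε1 ht0 av ae (S * n * (2 * (e * sg) - ae)) (S * n * (1 - 4 * e - 2 * n * sg))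
      (S * n * (sk - n * k * sg)) (S * n * (3 * n)) (S * n * (n * k)) (S * n * (-(n * k ^ 2 / 4)))
      0 0 0 0
      (fun φ => by
        rw [(hpt φ).1, (hpt φ).2.1, (hpt φ).2.2]
        unfold el1 el2
        rw [hsk, hk, hs]
        linear_combination (-(S * wr1d_r ε t φ)) * hae')]
    linear_combination (2 * (e * sg) - ae) * hcM 0 0 + (1 - 4 * e - 2 * n * sg) * hcM 0 1
      + (sk - n * k * sg) * hcM 1 0 + (3 * n) * hcM 0 2 + (n * k) * hcM 1 1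
      + (-(n * k ^ 2 / 4)) * hcM 2 0
  · unfold F3
    rw [← intervalIntegral.integral_const_mul,
      wr1d_lin hε0 hε1 ht0 av ae
      (S * n * (6 * e * ae - 6 * e ^ 2 * sg + 6 * n * e * sg ^ 2 - 3 * n ^ 2 * sg ^ 3
        - 3 * n * (2 * e * sg - ae - n * sg ^ 2) * sg))
      (S * n * (12 * e * (2 * e - 1) + 3 * n * (2 * e * sg - ae - n * sg ^ 2 - (1 - 4 * e) * sg)
        + 3 * n ^ 2 * sg ^ 2))
      (S * n * (-3 * s * sk + 3 * n * ((2 * e * sg - ae - n * sg ^ 2) * h - sk * sg)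
        + 3 * n ^ 2 * sg ^ 2 * h))
      (S * n * (n * (6 - 24 * e) + 3 * n * (1 - 4 * e - 2 * n * sg) - 3 * n ^ 2 * sg))
      (S * n * (3 * n * ((1 - 4 * e) * h + sk) - 6 * n ^ 2 * sg * h))
      (S * n * (-3 * n * k * sk + 3 * n * (sk * h + 2 * n * h ^ 2 * sg) - 3 * n ^ 2 * sg * h ^ 2))
      (S * n * (15 * n ^ 2)) (S * n * (9 * n ^ 2 * h)) (S * n * (-3 * n ^ 2 * h ^ 2))
      (S * n * (n ^ 2 * k ^ 3 - 5 * n ^ 2 * h ^ 3))
      (fun φ => by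
        rw [(hpt φ).1, (hpt φ).2.1, (hpt φ).2.2]
        unfold el1 el2 el3
        rw [hsk, hh, hk, hs]
        linear_combination (S * wr1d_r ε t φ * (6 * e - 3 * n * (wr1d_B ε ae φ - sg
          + 1 / 2 * (2 - (e - n * sg)) * wr1d_A t av φ))) * hae')]
    linear_combination (6 * e * ae - 6 * e ^ 2 * sg + 6 * n * e * sg ^ 2 - 3 * n ^ 2 * sg ^ 3
        - 3 * n * (2 * e * sg - ae - n * sg ^ 2) * sg) * hcM 0 0
      + (12 * e * (2 * e - 1) + 3 * n * (2 * e * sg - ae - n * sg ^ 2 - (1 - 4 * e) * sg)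
        + 3 * n ^ 2 * sg ^ 2) * hcM 0 1
      + (-3 * s * sk + 3 * n * ((2 * e * sg - ae - n * sg ^ 2) * h - sk * sg)
        + 3 * n ^ 2 * sg ^ 2 * h) * hcM 1 0
      + (n * (6 - 24 * e) + 3 * n * (1 - 4 * e - 2 * n * sg) - 3 * n ^ 2 * sg) * hcM 0 2
      + (3 * n * ((1 - 4 * e) * h + sk) - 6 * n ^ 2 * sg * h) * hcM 1 1
      + (-3 * n * k * sk + 3 * n * (sk * h + 2 * n * h ^ 2 * sg) - 3 * n ^ 2 * sg * h ^ 2)
        * hcM 2 0
      + (15 * n ^ 2) * hcM 0 3 + (9 * n ^ 2 * h) * hcM 1 2 + (-3 * n ^ 2 * h ^ 2) * hcM 2 1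
      + (n ^ 2 * k ^ 3 - 5 * n ^ 2 * h ^ 3) * hcM 3 0

end Pool.Agent.HillD
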