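import Pool.Agent.P.MP_ae2765_an.WPath

/-! First region: the angle condition along the path. -/

namespace Pool.Agent.HillD
open Real Set Filter Topology Asymptotics

theorem wr1t_sa {z : ℂ} {σ a c : ℝ} (h : Sa z σ) (h0 : 0 ≤ σ) (h1 : σ < 1) (ha : 0 < a)
    (hc : 0 ≤ c) : Sa (a + c * z) σ := by
  rcases hc.eq_or_lt with rfl | hc
  · simpa using sa_real ha h0
  · exact (sa_real ha h0).add (h.pos_mul hc) h0 h1

theorem wr1t_pt {δ0 ω0 s : ℝ} {τ : ℂ} (hδ : 0 < δ0) (hω : 0 < ω0)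
    (hs0 : 0 ≤ s) (hs1 : s ≤ 1) (hτ : ‖τ‖ ≤ 13 / 100) (φ : ℝ) :
    q2 (lΩ ω0 s τ) (lJ δ0 τ) φ ∈ Complex.slitPlane ∧
      ‖eh (lΩ ω0 s τ) (lJ δ0 τ) φ ^ 2 / (2 * qh (lΩ ω0 s τ) (lJ δ0 τ) φ)‖ ≤
        3744 / 10000 * (δ0 ^ 2 / ω0) ^ 2 / (ω0 * √(2 / (1 + δ0 ^ 2))) *
          (sin φ ^ 2 * cos φ ^ 2) := by
  obtain ⟨ρ, -, h2, h3, -, -, hJ, hΩ, hk, hP, hQ⟩ := line_par hδ hω hs0 hs1 (by norm_num) hτ
  have hE : 0 < 1 + δ0 ^ 2 := by positivity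
  have hε : 0 < 1 / (1 + δ0 ^ 2) := by positivity
  have hε1 : 1 / (1 + δ0 ^ 2) ≤ 1 := by rw [div_le_one hE]; nlinarith
  have ht : 0 < δ0 ^ 2 / ω0 := by positivity
  have hX : Complex.cos φ ^ 2 = ((cos φ ^ 2 : ℝ) : ℂ) := by push_cast; rfl
  have hX0 : 0 ≤ cos φ ^ 2 := sq_nonneg _
  have hX1 : cos φ ^ 2 ≤ 1 := cos_sq_le_one φ
  have hS : (ω0 * √(2 / (1 + δ0 ^ 2))) ^ 2 = 2 * ω0 ^ 2 * (1 / (1 + δ0 ^ 2)) := by
    rw [mul_pow, sq_sqrt (by positivity)]; ring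
  have hS0 : 0 < ω0 * √(2 / (1 + δ0 ^ 2)) := by positivity
  have hEε : ((1 + δ0 ^ 2 : ℝ) : ℂ) * ((1 / (1 + δ0 ^ 2) : ℝ) : ℂ) = 1 := by
    rw [← Complex.ofReal_mul, mul_one_div_cancel hE.ne', Complex.ofReal_one]
  generalize ω0 * √(2 / (1 + δ0 ^ 2)) = S at hS hS0 ⊢
  generalize 1 / (1 + δ0 ^ 2) = ε at *
  generalize δ0 ^ 2 / ω0 = t at *
  generalize 1 + δ0 ^ 2 = E at *
  have hsτ : ‖(s : ℂ) * τ‖ ≤ 13 / 100 := by
    rw [norm_mul, Complex.norm_real, Real.norm_of_nonneg hs0]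
    nlinarith [norm_nonneg τ]
  have a1 : Sa (1 + s * τ) (13 / 100) := sa_one_add hsτ (by norm_num)
  have a2 : Sa (1 + τ) (13 / 100) := sa_one_add hτ (by norm_num)
  have a3 := a1.mul a1 (by norm_num) (by norm_num) (by norm_num)
  have a4 := a2.mul a2 (by norm_num) (by norm_num) (by norm_num)
  have a5 := wr1t_sa h3 (by norm_num) (by norm_num) one_pos (mul_nonneg ht.le hX0)
  have a6 := wr1t_sa a4 (by norm_num) (by norm_num) (a := 2 * ε) (by positivity)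
    (c := (1 - ε) * (1 + cos φ ^ 2)) (mul_nonneg (by linarith) (by positivity))
  set p : ℂ := (1 : ℝ) + ((t * cos φ ^ 2 : ℝ) : ℂ) * ρ with hp
  set Q : ℂ := ((2 * ε : ℝ) : ℂ) + (((1 - ε) * (1 + cos φ ^ 2) : ℝ) : ℂ) * ((1 + τ) * (1 + τ))
    with hQd
  have eP : PP (lΩ ω0 s τ) (lJ δ0 τ) (Complex.cos φ ^ 2) = lJ δ0 τ * lΩ ω0 s τ * p := by
    rw [hP, hp]; push_cast; ring
  have eQ : QQ (lJ δ0 τ) (Complex.cos φ ^ 2) = lJ δ0 τ * E * Q := by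
    rw [hQ, hQd]; push_cast; ring
  have hE' : (E : ℂ) ≠ 0 := left_ne_zero_of_mul_eq_one hEε
  have eq2 : q2 (lΩ ω0 s τ) (lJ δ0 τ) φ =
      ((S ^ 2 : ℝ) : ℂ) * ((1 + s * τ) * (1 + s * τ) * p * Q⁻¹) := by
    have := a6.ne
    rw [q2, eP, eQ, hS, show ((2 * ω0 ^ 2 * ε : ℝ) : ℂ) = 2 * ω0 ^ 2 * (E : ℂ)⁻¹ by
      rw [← eq_inv_of_mul_eq_one_right hEε]; push_cast; ring]
    unfold lΩ
    field_simp
  have eeh : eh (lΩ ω0 s τ) (lJ δ0 τ) φ = ((t * cos φ * sin φ / 2 : ℝ) : ℂ) * ρ / p := by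
    have := a5.ne
    rw [eh, eP, hk]
    push_cast
    field_simp
  refine ⟨?_, ?_⟩
  · rw [eq2]
    exact (((a3.mul a5 (by norm_num) (by norm_num) (by norm_num)).mul a6.inv (by norm_num)
      (by norm_num) (by norm_num)).pos_mul (by positivity)).slit
  have n1 : 1 ≤ ‖p‖ := by
    refine le_trans ?_ (Complex.re_le_norm p)
    rw [hp, Complex.add_re, Complex.ofReal_re, Complex.re_ofReal_mul]
    nlinarith [mul_nonneg (mul_nonneg ht.le hX0) h3.1.le]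
  have n2 : ‖ρ‖ ≤ 12769 / 10000 := by
    have := norm_add_le (ρ - 1) 1
    rw [sub_add_cancel, norm_one] at this
    linarith
  have n3 : 87 / 100 ≤ ‖1 + (s : ℂ) * τ‖ := by
    have := norm_sub_le (1 + (s : ℂ) * τ) (s * τ)
    rw [add_sub_cancel_right, norm_one] at this
    linarith
  have n4 : ‖1 + τ‖ ≤ 113 / 100 := by
    have := norm_add_le 1 τ
    rw [norm_one] at this
    linarith
  have n5 : ‖Q‖ ≤ 2 * (113 / 100) ^ 2 := by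
    refine (norm_add_le _ _).trans ?_
    rw [norm_mul, norm_mul, Complex.norm_real, Complex.norm_real, Real.norm_of_nonneg (by positivity),
      Real.norm_of_nonneg (mul_nonneg (by linarith) (by positivity))]
    have b1 : ‖1 + τ‖ * ‖1 + τ‖ ≤ (113 / 100) ^ 2 := by nlinarith [norm_nonneg (1 + τ)]
    have b2 : (1 - ε) * (1 + cos φ ^ 2) ≤ (1 - ε) * 2 :=
      mul_le_mul_of_nonneg_left (by linarith) (by linarith)
    have b3 := mul_le_mul b2 b1 (by positivity) (by linarith)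
    nlinarith
  have n6 : 0 < ‖Q‖ := norm_pos_iff.2 a6.ne
  have n7 : 5444 / 10000 * S ≤ ‖qh (lΩ ω0 s τ) (lJ δ0 τ) φ‖ := by
    rw [qh, norm_csqrt, eq2]
    refine le_sqrt_of_sq_le ?_
    rw [norm_mul, norm_mul, norm_mul, norm_mul, norm_inv, Complex.norm_real,
      Real.norm_of_nonneg (by positivity), mul_pow, mul_comm, ← div_eq_mul_inv]
    refine mul_le_mul_of_nonneg_left ?_ (by positivity)
    rw [le_div_iff₀ n6]
    have b1 : (87 / 100) ^ 2 ≤ ‖1 + (s : ℂ) * τ‖ * ‖1 + (s : ℂ) * τ‖ := by nlinarith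
    have b2 := mul_le_mul b1 n1 zero_le_one (by positivity)
    nlinarith
  have n8 : ‖eh (lΩ ω0 s τ) (lJ δ0 τ) φ‖ ≤ |t * cos φ * sin φ / 2| * (12769 / 10000) := by
    rw [eeh, norm_div, norm_mul, Complex.norm_real, Real.norm_eq_abs]
    exact (div_le_self (by positivity) n1).trans (by gcongr)
  rw [norm_div, norm_pow, norm_mul, Complex.norm_ofNat]
  calc _ ≤ (|t * cos φ * sin φ / 2| * (12769 / 10000)) ^ 2 / (2 * (5444 / 10000 * S)) := by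
        gcongr
    _ = (12769 / 10000) ^ 2 / (8 * (5444 / 10000)) * (t ^ 2 / S * (sin φ ^ 2 * cos φ ^ 2)) := by
        rw [mul_pow, sq_abs]; field_simp; ring
    _ ≤ 3744 / 10000 * (t ^ 2 / S * (sin φ ^ 2 * cos φ ^ 2)) := by
        exact mul_le_mul_of_nonneg_right (by norm_num) (by positivity)
    _ = _ := by ring

/-- the real axis -/
theorem r1_tt {δ0 ω0 s : ℝ} {τ : ℂ} (hδ : 0 < δ0) (hω : 0 < ω0)
    (hs0 : 0 ≤ s) (hs1 : s ≤ 1) (hτ : ‖τ‖ ≤ 13 / 100) :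
    (∀ φ ∈ Icc (0 : ℝ) (π / 2), q2 (lΩ ω0 s τ) (lJ δ0 τ) φ ∈ Complex.slitPlane) ∧
      ‖Tt (π / 2) (lΩ ω0 s τ) (lJ δ0 τ)‖ ≤
        7352 / 100000 * (δ0 ^ 2 / ω0) ^ 2 / (ω0 * √(2 / (1 + δ0 ^ 2))) := by
  refine ⟨fun φ _ => (wr1t_pt hδ hω hs0 hs1 hτ φ).1, ?_⟩
  rw [Tt, norm_neg]
  refine (intervalIntegral.norm_integral_le_of_norm_le (by positivity)
    (Eventually.of_forall fun φ _ => (wr1t_pt hδ hω hs0 hs1 hτ φ).2)
    (Continuous.intervalIntegrable (by fun_prop) _ _)).trans ?_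
  rw [intervalIntegral.integral_const_mul, integral_sin_sq_mul_cos_sq,
    show 4 * (π / 2) = 2 * π by ring, sin_two_pi, mul_zero, sin_zero, mul_div_assoc, mul_div_assoc]
  have h0 : 0 ≤ (δ0 ^ 2 / ω0) ^ 2 / (ω0 * √(2 / (1 + δ0 ^ 2))) := by positivity
  nlinarith [mul_le_mul_of_nonneg_left pi_lt_d4.le h0]

end Pool.Agent.HillD
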