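import Pool.Agent.P.MP_ae2765_an.WLoc

/-! An upper bound for the rotation, and the slope of the branches. -/

namespace Pool.Agent.HillD
open Real Set Filter Topology Asymptotics

variable {θ0 δ : ℝ} {l : ℕ}

theorem wreg0_pos {a x : ℝ} (ha : 0 < a) : 0 < a * cos x ^ 2 + sin x ^ 2 := by
  have h := sin_sq_add_cos_sq x
  have h1 := sq_nonneg (sin x)
  have h2 := sq_nonneg (cos x)
  rcases h1.eq_or_lt with h3 | h3
  · have : cos x ^ 2 = 1 := by linarith
    rw [this]; linarith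
  · have := mul_nonneg ha.le h2
    linarith

theorem wreg0_gauge {θ lam : ℝ → ℝ} {p d t : ℝ} (h0 : 0 < lam t)
    (hθ : HasDerivAt θ (p * (lam t ^ 2 * cos (θ t) ^ 2 + sin (θ t) ^ 2)) t)
    (hl : HasDerivAt lam d t) :
    HasDerivAt (fun t => θ t + arctan ((1 - lam t) * (sin (θ t) * cos (θ t)) /
        (lam t * cos (θ t) ^ 2 + sin (θ t) ^ 2)))
      (p * lam t - d * (sin (θ t) * cos (θ t)) / (lam t ^ 2 * cos (θ t) ^ 2 + sin (θ t) ^ 2)) t := by
  have hv := wreg0_pos (x := θ t) h0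
  have hW := wreg0_pos (x := θ t) (pow_pos h0 2)
  have hu := (hl.const_sub 1).fun_mul (hθ.sin.fun_mul hθ.cos)
  have hv' := (hl.fun_mul (hθ.cos.fun_pow 2)).fun_add (hθ.sin.fun_pow 2)
  refine (hθ.fun_add (hu.fun_div hv' hv.ne').arctan).congr_deriv ?_
  have h := sin_sq_add_cos_sq (θ t)
  generalize sin (θ t) = s at *
  generalize cos (θ t) = c at *
  generalize lam t = a at *
  have e : 1 + ((1 - a) * (s * c) / (a * c ^ 2 + s ^ 2)) ^ 2
      = (a ^ 2 * c ^ 2 + s ^ 2) / (a * c ^ 2 + s ^ 2) ^ 2 := by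
    field_simp
    linear_combination (a ^ 2 * c ^ 2 + s ^ 2) * h
  rw [e]
  generalize hW' : a ^ 2 * c ^ 2 + s ^ 2 = W at *
  have e2 : ∀ X : ℝ, 1 / (W / (a * c ^ 2 + s ^ 2) ^ 2) * (X / (a * c ^ 2 + s ^ 2) ^ 2) = X / W := by
    intro X
    field_simp
  rw [e2]
  field_simp
  subst hW'
  simp only [Nat.cast_ofNat, Nat.add_one_sub_one, pow_one]
  linear_combination (p * (a ^ 2 * c ^ 2 + s ^ 2) *
    (a * (s ^ 2 + c ^ 2 + 1) - (a ^ 2 * c ^ 2 + s ^ 2)) - d * s * c) * h

theorem wreg0_sc (hθ : θ0 = 0 ∨ θ0 = π / 2) (n : ℕ) :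
    sin (θ0 + n * (π / 2)) * cos (θ0 + n * (π / 2)) = 0 := by
  have h := sin_two_mul (θ0 + n * (π / 2))
  have h1 : sin (2 * (θ0 + n * (π / 2))) = 0 := by
    rcases hθ with rfl | rfl
    · rw [show 2 * (0 + n * (π / 2)) = n * π by ring, sin_nat_mul_pi]
    · rw [show 2 * (π / 2 + n * (π / 2)) = (n + 1 : ℕ) * π by push_cast; ring, sin_nat_mul_pi]
  linarith

theorem gauge_bound (hθ : θ0 = 0 ∨ θ0 = π / 2) (hl : 1 ≤ l) (hδ : 0 < δ) :
    l * π ≤ 2 * Mn (π / 2) (cur θ0 l (mm δ)) (jj δ) +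
      log (1 + δ ^ 2 / cur θ0 l (mm δ)) / 2 := by
  have hm0 := mm_pos hδ
  have hm := mm_lt δ
  have hm1 := mm_lt_one δ
  have hω := (cur_spec hθ hl hm0.le hm).1
  have hhalf := th_half hθ hl hm0.le hm
  have hme := mm_eq δ
  set ω := cur θ0 l (mm δ) with hωdef
  obtain ⟨hang, hzero⟩ := th_spec hm1 ω θ0
  have hj : 0 < jj δ := by unfold jj; positivity
  have hj2 : jj δ < 1 / 2 := by
    unfold jj
    exact one_div_lt_one_div_of_lt (by norm_num) (by nlinarith)
  have hq := (qr_cont hω hj hj2).1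
  have hab := fun t => (cA_cB hδ hω t).2.1
  set m := mm δ with hmdef
  set θ := th m ω θ0 with hθdef
  set N : ℝ → ℝ := fun t => ω * (1 - 2 * m) + 2 * m * cos t ^ 2 with hN
  have hNpos : ∀ t, 0 < N t := fun t => by
    have h1 : 0 < ω * (1 - 2 * m) := mul_pos hω (by linarith)
    have h2 : 0 ≤ 2 * m * cos t ^ 2 := by positivity
    simp only [hN]; linarith
  set g : ℝ → ℝ := fun t => (log ω - log (N t)) / 2 with hg
  have hgd : ∀ t, HasDerivAt g (2 * m * (sin t * cos t) / N t) t := fun t => by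
    have h1 : HasDerivAt N (-(4 * m * (sin t * cos t))) t :=
      ((((hasDerivAt_cos t).fun_pow 2).const_mul (2 * m)).const_add _).congr_deriv (by simp; ring)
    refine (((h1.log (hNpos t).ne').const_sub (log ω)).div_const 2).congr_deriv ?_
    ring
  have hsq : ∀ t, exp (g t) ^ 2 = ω / N t := fun t => by
    rw [← exp_nat_mul, ← exp_log (div_pos hω (hNpos t)), log_div hω.ne' (hNpos t).ne']
    congr 1
    simp only [hg]; push_cast; ring
  have hb : ∀ t, 0 < cB m ω t := fun t => div_pos (hNpos t) (pm_pos hm1 t)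
  have ha : ∀ t, cA m ω t = cB m ω t * exp (g t) ^ 2 := fun t => by
    have h1 := (hNpos t).ne'
    have h2 := (pm_pos hm1 t).ne'
    rw [hsq]
    show ω / pm m t = N t / pm m t * (ω / N t)
    field_simp
  have hqe : ∀ t, cB m ω t * exp (g t) = qr ω (jj δ) t := fun t => by
    have h1 : 0 ≤ qr ω (jj δ) t := sqrt_nonneg _
    refine (sq_eq_sq₀ (mul_pos (hb t) (exp_pos _)).le h1).1 ?_
    rw [← hab t, ha t]; ring
  set F : ℝ → ℝ := fun t => θ t + arctan ((1 - exp (g t)) * (sin (θ t) * cos (θ t)) /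
      (exp (g t) * cos (θ t) ^ 2 + sin (θ t) ^ 2)) - (∫ s in (0 : ℝ)..t, qr ω (jj δ) s) - g t / 2
    with hF
  have hFd : ∀ t, HasDerivAt F (-(2 * m * (sin t * cos t) / N t *
      ((exp (g t) * cos (θ t) + sin (θ t)) ^ 2 /
        (2 * (exp (g t) ^ 2 * cos (θ t) ^ 2 + sin (θ t) ^ 2))))) t := fun t => by
    have h1 : HasDerivAt θ (cB m ω t * (exp (g t) ^ 2 * cos (θ t) ^ 2 + sin (θ t) ^ 2)) t :=
      (hang t).congr_deriv (by rw [ha]; ring)
    have h2 := wreg0_gauge (lam := fun t => exp (g t)) (exp_pos _) h1 (hgd t).exp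
    refine ((h2.fun_sub (hasDerivAt_int hq t)).fun_sub ((hgd t).div_const 2)).congr_deriv ?_
    have h3 := (wreg0_pos (x := θ t) (pow_pos (exp_pos (g t)) 2)).ne'
    rw [hqe]
    generalize 2 * m * (sin t * cos t) / N t = d
    field_simp
    ring
  have hanti : AntitoneOn F (Icc 0 (π / 2)) := by
    refine antitoneOn_of_deriv_nonpos (convex_Icc _ _)
      (fun t _ => (hFd t).continuousAt.continuousWithinAt)
      (fun t _ => (hFd t).differentiableAt.differentiableWithinAt) (fun t ht => ?_)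
    rw [interior_Icc] at ht
    rw [(hFd t).deriv, neg_nonpos]
    have h1 : 0 ≤ sin t := sin_nonneg_of_nonneg_of_le_pi ht.1.le (by linarith [ht.2, pi_pos])
    have h2 : 0 ≤ cos t := cos_nonneg_of_mem_Icc ⟨by linarith [ht.1, pi_pos], ht.2.le⟩
    have h3 := hNpos t
    positivity
  have hp : (0 : ℝ) ≤ π / 2 := by positivity
  have key := hanti (left_mem_Icc.2 hp) (right_mem_Icc.2 hp) hp
  have z0 : sin θ0 * cos θ0 = 0 := by simpa using wreg0_sc hθ 0
  have z1 := wreg0_sc hθ l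
  simp only [hF, hhalf, hzero, z0, z1, mul_zero, zero_div, arctan_zero, add_zero,
    intervalIntegral.integral_same, sub_zero] at key
  have e1 : log (1 + δ ^ 2 / ω) = log (N 0) - log (N (π / 2)) := by
    rw [← log_div (hNpos _).ne' (hNpos _).ne']
    congr 1
    have h1 : (1 - 2 * m) ≠ 0 := by linarith
    simp only [hN, cos_zero, cos_pi_div_two]
    field_simp
    linear_combination ω * hme
  rw [e1]
  unfold Mn
  simp only [hg] at key
  linarith

end Pool.Agent.HillD
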