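import Pool.Agent.P.MP_ae2765_an.WReg0

/-! An upper bound for the rotation, and the slope of the branches. -/

namespace Pool.Agent.HillD
open Real Set Filter Topology Asymptotics

variable {θ0 δ : ℝ} {l : ℕ}

/-- A constant diagonal gauge keeps the multiples of a right angle. -/
theorem wreg1_gauge {a b θ v : ℝ → ℝ} {μ T : ℝ} (ha : Continuous a) (hb : Continuous b)
    (hμ : 0 < μ) (h : IsAng a b θ) (hv : IsAng (fun t => a t * μ) (fun t => b t / μ) v)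
    (h0 : v 0 = θ 0) (e0 : sin (θ 0) = 0 ∨ cos (θ 0) = 0) (e1 : sin (θ T) = 0 ∨ cos (θ T) = 0) :
    v T = θ T := by
  have l1 := lin_of_ang ha hb h
  have ha' : Continuous fun t => a t * μ := by fun_prop
  have hb' : Continuous fun t => b t / μ := by fun_prop
  have l2 : IsLin (fun t => a t * μ) (fun t => b t / μ) (fun t => rad a b θ t * sin (θ t))
      (fun t => rad a b θ t * cos (θ t) / μ) := fun t =>
    ⟨(l1 t).1.congr_deriv (by field_simp), ((l1 t).2.div_const μ).congr_deriv (by ring)⟩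
  obtain ⟨ρ, hρ, hx, hy⟩ : ∃ ρ : ℝ, 0 < ρ ∧ rad a b θ 0 * sin (θ 0) = ρ * sin (v 0) ∧
      rad a b θ 0 * cos (θ 0) / μ = ρ * cos (v 0) := by
    rw [rad_zero, h0]
    rcases e0 with e | e
    · exact ⟨1 / μ, by positivity, by simp [e], by ring⟩
    · exact ⟨1, one_pos, rfl, by simp [e]⟩
  have hr := rad_pos a b θ
  have k := gauge_lin ha' hb' hv l2 h.cont h0 hρ hx hy
    (fun t => ⟨_, hr t, rad a b θ t / μ, div_pos (hr t) hμ, 0, rfl, by ring⟩) T
  obtain ⟨r1, r2⟩ := repr ha' hb' hv l2 hx hy T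
  have hp := rad_pos (fun t => a t * μ) (fun t => b t / μ) v T
  generalize rad (fun t => a t * μ) (fun t => b t / μ) v T = R at r1 r2 hp
  refine gauge_end (α := rad a b θ T / (ρ * R)) (γ := rad a b θ T / μ / (ρ * R)) k ?_ ?_ e1
  · rw [div_mul_eq_mul_div, r1]; field_simp
  · rw [div_mul_eq_mul_div, div_mul_eq_mul_div, r2]; field_simp

theorem wreg1_cB (δ ω t : ℝ) :
    cB (mm δ) ω t = (ω + δ ^ 2 * cos t ^ 2) / (1 + δ ^ 2) / pm (mm δ) t := by
  unfold cB mm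
  congr 1
  field_simp
  ring

theorem cur_div_anti (hθ : θ0 = 0 ∨ θ0 = π / 2) (hl : 1 ≤ l) :
    AntitoneOn (fun δ => cur θ0 l (mm δ) / √(1 + δ ^ 2)) (Ioi 0) := by
  intro x hx y hy hxy
  rw [mem_Ioi] at hx hy
  obtain ⟨c0, c1⟩ := cur_spec hθ hl (mm_nonneg x) (mm_lt x)
  generalize hω : cur θ0 l (mm x) = ω at c0 c1
  have hs : x ^ 2 ≤ y ^ 2 := by gcongr
  obtain ⟨p, p1, p2, p3⟩ : ∃ p, 1 ≤ p ∧ p ^ 2 = 1 + x ^ 2 ∧ √(1 + x ^ 2) = p :=
    ⟨_, one_le_sqrt.2 (by nlinarith), sq_sqrt (by positivity), rfl⟩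
  obtain ⟨q, q1, q2, q3⟩ : ∃ q, p ≤ q ∧ q ^ 2 = 1 + y ^ 2 ∧ √(1 + y ^ 2) = q :=
    ⟨√(1 + y ^ 2), p3.symm.trans_le (sqrt_le_sqrt (by linarith)), sq_sqrt (by positivity), rfl⟩
  have p0 : 0 < p := by linarith
  have q0 : 0 < q := by linarith
  have hμ : 0 < q / p := by positivity
  have ha := cA_cont (mm_lt_one x) ω
  have hb := cB_cont (mm_lt_one x) ω
  obtain ⟨t1, t2⟩ := th_spec (mm_lt_one x) ω θ0
  obtain ⟨v, hv, v0⟩ := exists_ang (a := fun t => cA (mm x) ω t * (q / p))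
    (b := fun t => cB (mm x) ω t / (q / p)) (by fun_prop) (by fun_prop) θ0
  have k := wreg1_gauge (T := π) ha hb hμ t1 hv (v0.trans t2.symm)
    (by rw [t2]; rcases hθ with rfl | rfl <;> simp)
    (by rw [c1, sin_add_nat_mul_pi, cos_add_nat_mul_pi]; rcases hθ with rfl | rfl <;> simp)
  obtain ⟨s1, s2⟩ := th_spec (mm_lt_one y) (ω * (q / p)) θ0
  have hpm : ∀ t, pm (mm y) t ≤ pm (mm x) t := fun t => by
    have : mm x ≤ mm y := by
      rcases hxy.eq_or_lt with rfl | h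
      · exact le_rfl
      · exact (mm_strictMono hx.le h).le
    unfold pm Dm
    gcongr
  have k2 := cmp_le (by fun_prop) (by fun_prop) s1 hv pi_pos.le (fun t _ => by
      have := pm_pos (mm_lt_one y) t
      unfold cA
      rw [div_mul_eq_mul_div]
      gcongr
      exact hpm t)
    (fun t _ => by
      have := pm_pos (mm_lt_one y) t
      rw [wreg1_cB, wreg1_cB, div_right_comm]
      refine div_le_div₀ (by positivity) ?_ this (hpm t)
      rw [← p2, ← q2, show x ^ 2 = p ^ 2 - 1 by linarith, show y ^ 2 = q ^ 2 - 1 by linarith,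
        ← sub_nonneg, show (ω * (q / p) + (q ^ 2 - 1) * cos t ^ 2) / q ^ 2 -
          (ω + (p ^ 2 - 1) * cos t ^ 2) / p ^ 2 / (q / p) =
          (q - p) * (p * q + 1) * cos t ^ 2 / (p * q ^ 2) by field_simp; ring]
      have : 0 ≤ q - p := by linarith
      positivity) (by rw [v0, s2])
  rw [k, c1] at k2
  have k3 := mt (lt_cur_iff hθ hl (mm_nonneg y) (mm_lt y) (ω := ω * (q / p)) (by positivity)).1
    (not_lt.2 k2)
  show cur θ0 l (mm y) / √(1 + y ^ 2) ≤ cur θ0 l (mm x) / √(1 + x ^ 2)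
  rw [hω, p3, q3, div_le_iff₀ q0]
  exact (not_lt.1 k3).trans_eq (by ring)

theorem slope_bd (hθ : θ0 = 0 ∨ θ0 = π / 2) (hl : 2 ≤ l) (hδ : 0 < δ) :
    0 ≤ δ * deriv (fun δ => cur θ0 l (mm δ)) δ / cur θ0 l (mm δ) ∧
    δ * deriv (fun δ => cur θ0 l (mm δ)) δ / cur θ0 l (mm δ) ≤ δ ^ 2 / (1 + δ ^ 2) := by
  obtain ⟨h1, -, h2, -⟩ := isLine hθ (.inl hl)
  have c0 := (cur_spec hθ (show 1 ≤ l by omega) (mm_nonneg δ) (mm_lt δ)).1
  have hd := (h1 δ hδ).differentiableAt.hasDerivAt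
  have hacc : AccPt δ (𝓟 (Ioi 0)) := (uniqueDiffOn_Ioi 0 δ hδ).accPt
  have a1 := hd.hasDerivWithinAt.nonneg_of_monotoneOn hacc h2.monotoneOn
  have E0 : 0 < 1 + δ ^ 2 := by positivity
  have hs : HasDerivAt (fun x : ℝ => √(1 + x ^ 2)) (2 * δ / (2 * √(1 + δ ^ 2))) δ :=
    (((hasDerivAt_pow 2 δ).const_add 1).sqrt E0.ne').congr_deriv (by simp)
  have s0 := sqrt_pos.2 E0
  have a2 := (hd.fun_div hs s0.ne').hasDerivWithinAt.nonpos_of_antitoneOn hacc
    (cur_div_anti hθ (by omega))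
  refine ⟨by positivity, ?_⟩
  have s1 := sq_sqrt E0.le
  generalize √(1 + δ ^ 2) = s at a2 s0 s1
  generalize deriv (fun δ => cur θ0 l (mm δ)) δ = f' at a1 a2
  generalize cur θ0 l (mm δ) = f at a2 c0
  rw [← s1, div_le_div_iff₀ c0 (by positivity)]
  rw [show (f' * s - f * (2 * δ / (2 * s))) / s ^ 2 = (f' * s ^ 2 - δ * f) / s ^ 3 by field_simp,
    div_nonpos_iff] at a2
  have a3 : f' * s ^ 2 - δ * f ≤ 0 := by
    rcases a2 with h | h
    · exact absurd h.2 (not_le.2 (by positivity))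
    · exact h.1
  nlinarith [mul_le_mul_of_nonneg_left a3 hδ.le]

end Pool.Agent.HillD
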