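import Pool.Agent.P.MP_ae2765_an.WReg1

/-! Lower bounds for the branches with index at least 31. -/

namespace Pool.Agent.HillD
open Real Set Filter Topology Asymptotics

variable {θ0 δ ω : ℝ} {l : ℕ}

theorem wreg2a_sq (hδ : 0 < δ) (φ : ℝ) :
    2 * ω * Pr ω (jj δ) φ / Qr (jj δ) φ =
      2 * ω * (ω + δ ^ 2 * cos φ ^ 2) / (δ ^ 2 + 2 + δ ^ 2 * cos φ ^ 2) := by
  have h1 : 0 < δ ^ 2 + 2 := by positivity
  have h2 : 0 < δ ^ 2 + 2 + δ ^ 2 * cos φ ^ 2 := by positivity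
  have e1 : Pr ω (jj δ) φ = (ω + δ ^ 2 * cos φ ^ 2) / (δ ^ 2 + 2) := by
    unfold Pr jj
    field_simp
    ring
  have e2 : Qr (jj δ) φ = (δ ^ 2 + 2 + δ ^ 2 * cos φ ^ 2) / (δ ^ 2 + 2) := by
    unfold Qr jj
    field_simp
    ring
  rw [e1, e2]
  field_simp

theorem wreg2a_cont (hδ : 0 < δ) : Continuous (qr ω (jj δ)) := by
  have e : qr ω (jj δ) = fun φ =>
      √(2 * ω * (ω + δ ^ 2 * cos φ ^ 2) / (δ ^ 2 + 2 + δ ^ 2 * cos φ ^ 2)) := by
    funext φ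
    rw [qr, wreg2a_sq hδ]
  rw [e]
  refine Continuous.sqrt (Continuous.div (by fun_prop) (by fun_prop) fun φ => ?_)
  positivity

/-- the pointwise bound `q ≤ S √R` -/
theorem wreg2a_le (hδ : 0 < δ) (hω : 0 < ω) (φ : ℝ) {g : ℝ} (hg : 0 ≤ g)
    (h : 1 + δ ^ 2 / ω * cos φ ^ 2 ≤ g ^ 2 * (1 + cos φ ^ 2)) :
    qr ω (jj δ) φ ≤ ω * √(2 / (1 + δ ^ 2)) * g := by
  rw [qr, wreg2a_sq hδ]
  refine sqrt_le_iff.2 ⟨by positivity, ?_⟩
  have hX : cos φ ^ 2 ≤ 1 := cos_sq_le_one φ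
  have hX0 : 0 ≤ cos φ ^ 2 := sq_nonneg _
  generalize cos φ ^ 2 = X at *
  have hD : 0 < δ ^ 2 := by positivity
  generalize δ ^ 2 = D at *
  rw [mul_pow, mul_pow, sq_sqrt (by positivity), div_le_iff₀ (by positivity)]
  have h' : ω + D * X ≤ ω * (g ^ 2 * (1 + X)) := by
    have := mul_le_mul_of_nonneg_left h hω.le
    have e : ω * (1 + D / ω * X) = ω + D * X := by field_simp
    rwa [e] at this
  have h2 : 1 + X ≤ (D + 2 + D * X) / (1 + D) := by
    rw [le_div_iff₀ (by positivity)]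
    nlinarith
  calc 2 * ω * (ω + D * X) ≤ 2 * ω * (ω * (g ^ 2 * (1 + X))) := by gcongr
    _ ≤ 2 * ω * (ω * (g ^ 2 * ((D + 2 + D * X) / (1 + D)))) := by gcongr
    _ = ω ^ 2 * (2 / (1 + D)) * g ^ 2 * (D + 2 + D * X) := by
      field_simp

theorem wreg2a_int (A B C : ℝ) :
    ∫ φ in (0 : ℝ)..π / 2, (A + B * cos (2 * φ) + C * cos (2 * φ) ^ 2) = π / 2 * (A + C / 2) := by
  have hd : ∀ φ ∈ uIcc (0 : ℝ) (π / 2), HasDerivAt
      (fun φ => (A + C / 2) * φ + B / 2 * sin (2 * φ) + C / 4 * (sin (2 * φ) * cos (2 * φ)))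
      (A + B * cos (2 * φ) + C * cos (2 * φ) ^ 2) φ := by
    intro φ _
    have h2 : HasDerivAt (fun φ : ℝ => 2 * φ) 2 φ := by
      simpa using (hasDerivAt_id φ).const_mul (2 : ℝ)
    have h := (((hasDerivAt_id φ).const_mul (A + C / 2)).add (h2.sin.const_mul (B / 2))).add
      ((h2.sin.mul h2.cos).const_mul (C / 4))
    refine h.congr_deriv ?_
    have := sin_sq_add_cos_sq (2 * φ)
    linear_combination (-(C / 2)) * this
  rw [intervalIntegral.integral_eq_sub_of_hasDerivAt hd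
    (Continuous.intervalIntegrable (by fun_prop) _ _)]
  rw [show 2 * (π / 2) = π by ring]
  simp
  ring

theorem wreg2a_Mn (hδ : 0 < δ) {S A B C : ℝ}
    (h : ∀ φ, qr ω (jj δ) φ ≤ S * (A + B * cos (2 * φ) + C * cos (2 * φ) ^ 2)) :
    Mn (π / 2) ω (jj δ) ≤ S * (π / 2 * (A + C / 2)) := by
  rw [← wreg2a_int A B C, ← intervalIntegral.integral_const_mul, Mn]
  exact intervalIntegral.integral_mono_on (by positivity)
    ((wreg2a_cont hδ).intervalIntegrable _ _)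
    (Continuous.intervalIntegrable (by fun_prop) _ _) fun φ _ => h φ

theorem reg_a (hθ : θ0 = 0 ∨ θ0 = π / 2) (hl : 31 ≤ l) (hδ : 0 < δ) (hω : ω = cur θ0 l (mm δ))
    (ht : δ ^ 2 ≤ ω) : 154 / 5 ≤ ω * √(2 / (1 + δ ^ 2)) := by
  have hω0 : 0 < ω := lt_of_lt_of_le (by positivity) ht
  have hg := gauge_bound hθ (show 1 ≤ l by omega) hδ
  rw [← hω] at hg
  have ht1 : δ ^ 2 / ω ≤ 1 := (div_le_one hω0).2 ht
  have ht0 : 0 ≤ δ ^ 2 / ω := by positivity
  have hM := wreg2a_Mn (ω := ω) (S := ω * √(2 / (1 + δ ^ 2))) (A := 1) (B := 0) (C := 0) hδ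
    fun φ => by
      refine wreg2a_le hδ hω0 φ (by norm_num) ?_
      nlinarith [sq_nonneg (cos φ)]
  have hlog : log (1 + δ ^ 2 / ω) ≤ δ ^ 2 / ω := by
    have := log_le_sub_one_of_pos (show 0 < 1 + δ ^ 2 / ω by positivity)
    linarith
  have hl' : (31 : ℝ) ≤ l := by exact_mod_cast hl
  have hpi := pi_gt_three
  generalize ω * √(2 / (1 + δ ^ 2)) = S at *
  have h1 : 31 * π ≤ π * S + 1 / 2 := by nlinarith
  by_contra hc
  push Not at hc
  nlinarith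

theorem reg_b (hθ : θ0 = 0 ∨ θ0 = π / 2) (hl : 31 ≤ l) (hδ : 0 < δ) (hω : ω = cur θ0 l (mm δ))
    (ht : δ ^ 2 ≤ ω) (h : (1 + δ ^ 2) ^ 2 / ω ≤ 23 / 5) : 69 / 2 ≤ ω * √(2 / (1 + δ ^ 2)) := by
  have hω0 : 0 < ω := lt_of_lt_of_le (by positivity) ht
  have ha := reg_a hθ hl hδ hω ht
  have hg := gauge_bound hθ (show 1 ≤ l by omega) hδ
  rw [← hω] at hg
  have ht0 : 0 ≤ δ ^ 2 / ω := by positivity
  have hE : 0 < 1 + δ ^ 2 := by positivity
  have hS : (154 / 5 : ℝ) ^ 2 ≤ ω ^ 2 * (2 / (1 + δ ^ 2)) := by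
    have := pow_le_pow_left₀ (by norm_num) ha 2
    rwa [mul_pow, sq_sqrt (by positivity)] at this
  have hu : (1 + δ ^ 2) / ω ≤ 214 / 1000 := by
    have e1 : (1 + δ ^ 2) / ω ^ 2 ≤ 2 / (154 / 5) ^ 2 := by
      rw [div_le_div_iff₀ (by positivity) (by positivity)]
      rw [← mul_div_assoc, le_div_iff₀ hE] at hS
      linarith
    have e2 : ((1 + δ ^ 2) / ω) ^ 3 = (1 + δ ^ 2) ^ 2 / ω * ((1 + δ ^ 2) / ω ^ 2) := by
      field_simp
    have e3 : ((1 + δ ^ 2) / ω) ^ 3 ≤ (214 / 1000 : ℝ) ^ 3 := by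
      rw [e2]
      refine (mul_le_mul h e1 (by positivity) (by norm_num)).trans (by norm_num)
    exact (pow_le_pow_iff_left₀ (by positivity) (by norm_num) (by norm_num)).1 e3
  have ht1 : δ ^ 2 / ω ≤ 214 / 1000 := by
    refine le_trans ?_ hu
    gcongr
    linarith
  have hM := wreg2a_Mn (ω := ω) (S := ω * √(2 / (1 + δ ^ 2)))
    (A := 885 / 2000 + 738 / 1770) (B := -(524 / 5310)) (C := 524 / 10620) hδ
    fun φ => by
      have hc := cos_sq φ
      have c1 := cos_le_one (2 * φ)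
      have c2 := neg_one_le_cos (2 * φ)
      generalize cos (2 * φ) = c at *
      refine wreg2a_le hδ hω0 φ (by nlinarith [sq_nonneg c]) ?_
      rw [hc]
      set R : ℝ := 738 / 1000 - 524 / 3000 * c + 524 / 6000 * c ^ 2 with hR
      have e : 885 / 2000 + 738 / 1770 + -(524 / 5310) * c + 524 / 10620 * c ^ 2 =
          (885 / 1000 + R / (885 / 1000)) / 2 := by
        rw [hR]
        ring
      have h1 : R ≤ ((885 / 1000 + R / (885 / 1000)) / 2) ^ 2 := by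
        nlinarith [sq_nonneg (885 / 1000 - R / (885 / 1000))]
      have h2 : 1 + 214 / 1000 * (1 / 2 + c / 2) ≤ R * (1 + (1 / 2 + c / 2)) := by
        rw [hR]
        nlinarith [mul_nonneg (sq_nonneg c) (show 0 ≤ 1 + c by linarith)]
      rw [e]
      calc 1 + δ ^ 2 / ω * (1 / 2 + c / 2) ≤ 1 + 214 / 1000 * (1 / 2 + c / 2) := by
            gcongr
            linarith
        _ ≤ R * (1 + (1 / 2 + c / 2)) := h2
        _ ≤ _ := by
            gcongr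
            linarith
  have hlog : log (1 + δ ^ 2 / ω) ≤ δ ^ 2 / ω := by
    have := log_le_sub_one_of_pos (show 0 < 1 + δ ^ 2 / ω by positivity)
    linarith
  have hl' : (31 : ℝ) ≤ l := by exact_mod_cast hl
  have hpi := pi_gt_three
  generalize ω * √(2 / (1 + δ ^ 2)) = S at *
  have h1 : 31 * π ≤ π * S * (885 / 1000) + 107 / 1000 := by nlinarith
  by_contra hc
  push Not at hc
  nlinarith

end Pool.Agent.HillD
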