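import Pool.Agent.P.MP_ae2765_an.WDef

/-! Continuity of the solutions in the parameters, and phase functions. -/

namespace Pool.Agent.HillD
open Real Set Filter Topology Asymptotics

theorem wrp0_cA {m ω : ℝ} (hm : m < 1) (t : ℝ) :
    ContinuousAt (fun w : (ℝ × ℝ) × ℝ => cA w.1.1 w.1.2 w.2) ((m, ω), t) := by
  have cp : Continuous fun w : (ℝ × ℝ) × ℝ => pm w.1.1 w.2 := by unfold pm Dm; fun_prop
  exact ContinuousAt.div (by fun_prop) cp.continuousAt (pm_pos hm t).ne'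

theorem wrp0_cB {m ω : ℝ} (hm : m < 1) (t : ℝ) :
    ContinuousAt (fun w : (ℝ × ℝ) × ℝ => cB w.1.1 w.1.2 w.2) ((m, ω), t) := by
  have cp : Continuous fun w : (ℝ × ℝ) × ℝ => pm w.1.1 w.2 := by unfold pm Dm; fun_prop
  exact ContinuousAt.div (by fun_prop) cp.continuousAt (pm_pos hm t).ne'

theorem wrp0_key {m ω η : ℝ} (hm : m < 1) (hη0 : 0 < η) :
    ∀ᶠ z : ℝ × ℝ in 𝓝 (m, ω), ∀ t ∈ Icc 0 π,
      |cA z.1 z.2 t - cA m ω t| < η ∧ |cB z.1 z.2 t - cB m ω t| < η := by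
  refine isCompact_Icc.eventually_forall_of_forall_eventually fun t _ => ?_
  have a1 := wrp0_cA (ω := ω) hm t
  have b1 := wrp0_cB (ω := ω) hm t
  have a2 : ContinuousAt (fun w : (ℝ × ℝ) × ℝ => cA m ω w.2) ((m, ω), t) :=
    ((cA_cont hm ω).comp continuous_snd).continuousAt
  have b2 : ContinuousAt (fun w : (ℝ × ℝ) × ℝ => cB m ω w.2) ((m, ω), t) :=
    ((cB_cont hm ω).comp continuous_snd).continuousAt
  have a3 := (a1.sub a2).abs.eventually_lt (continuousAt_const (y := η)) (by simpa using hη0)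
  have b3 := (b1.sub b2).abs.eventually_lt (continuousAt_const (y := η)) (by simpa using hη0)
  exact a3.and b3

theorem wrp0_th {m ω : ℝ} (hm : m < 1) (θ0 : ℝ) {t : ℝ} (ht : t ∈ Icc 0 π) :
    ContinuousAt (fun z : ℝ × ℝ => th z.1 z.2 θ0 t) (m, ω) := by
  obtain ⟨K, hK⟩ := exists_bound (cA_cont hm ω) (cB_cont hm ω) π
  have hK' : ∀ x ∈ Icc 0 t, |cB m ω x - cA m ω x| ≤ K := fun x hx => by
    have := hK x ⟨by linarith [hx.1, pi_pos], hx.2.trans ht.2⟩
    have h2 := abs_sub (cB m ω x) (cA m ω x)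
    linarith
  rw [ContinuousAt, Metric.tendsto_nhds]
  intro ε hε
  set C := exp (K * t) * π * exp (K * t) with hC
  have hC0 : 0 < C := by have := pi_pos; positivity
  set η := ε / (2 * C) with hη
  have hη0 : 0 < η := by positivity
  have key := wrp0_key (ω := ω) hm hη0
  have hlt : ∀ᶠ z : ℝ × ℝ in 𝓝 (m, ω), z.1 < 1 :=
    continuousAt_fst.eventually_lt continuousAt_const hm
  filter_upwards [key, hlt] with z hz hz1
  have s1 := th_spec hz1 z.2 θ0
  have s2 := th_spec hm ω θ0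
  have := cmp_near (cA_cont hm ω) (cB_cont hm ω) s1.1 s2.1 ht.1
    (fun x hx => (hz x ⟨hx.1, hx.2.trans ht.2⟩).1.le)
    (fun x hx => (hz x ⟨hx.1, hx.2.trans ht.2⟩).2.le) hK' (by rw [s1.2, s2.2])
  rw [Real.dist_eq]
  have e : exp (K * t) * η * π * exp (K * t) = ε / 2 := by
    have : exp (K * t) * η * π * exp (K * t) = η * C := by rw [hC]; ring
    rw [this, hη]; field_simp
  have e2 : exp (K * t) * η * t * exp (K * t) ≤ exp (K * t) * η * π * exp (K * t) := by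
    have := ht.2
    gcongr
  linarith

theorem wrp0_rad {m ω : ℝ} (hm : m < 1) (θ0 : ℝ) {t : ℝ} (ht : t ∈ Icc 0 π) :
    ContinuousAt (fun z : ℝ × ℝ => rad (cA z.1 z.2) (cB z.1 z.2) (th z.1 z.2 θ0) t) (m, ω) := by
  unfold rad
  refine ContinuousAt.rexp ?_
  obtain ⟨K, hK⟩ := exists_bound (cA_cont hm ω) (cB_cont hm ω) π
  have hlt : ∀ᶠ z : ℝ × ℝ in 𝓝 (m, ω), z.1 < 1 :=
    continuousAt_fst.eventually_lt continuousAt_const hm
  have hsub : ∀ s ∈ uIoc (0 : ℝ) t, s ∈ Icc 0 π := fun s hs => by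
    rw [uIoc_of_le ht.1] at hs
    exact ⟨hs.1.le, hs.2.trans ht.2⟩
  refine intervalIntegral.continuousAt_of_dominated_interval (bound := fun _ => (K : ℝ) + 2)
    ?_ ?_ intervalIntegrable_const ?_
  · filter_upwards [hlt] with z hz
    have h1 := cA_cont hz z.2
    have h2 := cB_cont hz z.2
    have h3 := (th_spec hz z.2 θ0).1.cont
    exact Continuous.aestronglyMeasurable (by fun_prop)
  · filter_upwards [wrp0_key (ω := ω) hm one_pos] with z hz
    refine Eventually.of_forall fun s hs => ?_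
    have hs' := hsub s hs
    obtain ⟨k1, k2⟩ := hz s hs'
    have k3 := hK s ⟨by linarith [hs'.1, pi_pos], hs'.2⟩
    have k4 : |cA z.1 z.2 s - cB z.1 z.2 s| ≤ K + 2 := by
      have e1 := abs_sub (cA z.1 z.2 s) (cB z.1 z.2 s)
      have e2 := abs_sub_abs_le_abs_sub (cA z.1 z.2 s) (cA m ω s)
      have e3 := abs_sub_abs_le_abs_sub (cB z.1 z.2 s) (cB m ω s)
      linarith
    rw [Real.norm_eq_abs, abs_mul, abs_mul]
    have h1 := abs_sin_le_one (th z.1 z.2 θ0 s)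
    have h2 := abs_cos_le_one (th z.1 z.2 θ0 s)
    calc _ ≤ ((K : ℝ) + 2) * 1 * 1 := by gcongr
      _ = K + 2 := by ring
  · refine Eventually.of_forall fun s hs => ?_
    have hs' := hsub s hs
    have a1 : ContinuousAt (fun z : ℝ × ℝ => cA z.1 z.2 s) (m, ω) :=
      (wrp0_cA (ω := ω) hm s).comp (f := fun z : ℝ × ℝ => (z, s)) (by fun_prop)
    have b1 : ContinuousAt (fun z : ℝ × ℝ => cB z.1 z.2 s) (m, ω) :=
      (wrp0_cB (ω := ω) hm s).comp (f := fun z : ℝ × ℝ => (z, s)) (by fun_prop)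
    have c1 := wrp0_th (ω := ω) hm θ0 hs'
    exact ((a1.sub b1).mul (continuous_sin.continuousAt.comp c1)).mul
      (continuous_cos.continuousAt.comp c1)

theorem s_cont {m ω : ℝ} (hm : m < 1) (θ0 : ℝ) {t : ℝ} (ht : t ∈ Icc 0 π) :
    ContinuousAt (fun p : ℝ × ℝ => th p.1 p.2 θ0 t) (m, ω) ∧
    ContinuousAt (fun p : ℝ × ℝ => sx p.1 p.2 θ0 t) (m, ω) ∧
    ContinuousAt (fun p : ℝ × ℝ => sy p.1 p.2 θ0 t) (m, ω) := by
  have c1 := wrp0_th (ω := ω) hm θ0 ht
  have c2 := wrp0_rad (ω := ω) hm θ0 ht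
  exact ⟨c1, c2.mul (continuous_sin.continuousAt.comp c1),
    c2.mul (continuous_cos.continuousAt.comp c1)⟩

end Pool.Agent.HillD
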