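import Pool.Agent.P.MP_ae2765_an.WDef

/-! The angle predicate. -/

namespace Pool.Agent.HillD
open Real Set Filter Topology Asymptotics

variable {z w : ℂ} {σ σ' : ℝ}

theorem wsa0_sq (z : ℂ) : ‖z‖ ^ 2 = z.re ^ 2 + z.im ^ 2 := by
  rw [Complex.sq_norm, Complex.normSq_apply]; ring

theorem wsa0_im_sq (h : Sa z σ) : z.im ^ 2 ≤ σ ^ 2 * ‖z‖ ^ 2 := by
  rw [← sq_abs, ← mul_pow]
  exact pow_le_pow_left₀ (abs_nonneg _) h.2 2

theorem wsa0_of_sq (hre : 0 < z.re) (h0 : 0 ≤ σ) (h : z.im ^ 2 ≤ σ ^ 2 * ‖z‖ ^ 2) : Sa z σ := by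
  refine ⟨hre, ?_⟩
  rw [← sq_abs, ← mul_pow] at h
  exact (sq_le_sq₀ (abs_nonneg _) (mul_nonneg h0 (norm_nonneg _))).1 h

theorem wsa0_re_ge (h : Sa z σ) : √(1 - σ ^ 2) * ‖z‖ ≤ z.re := by
  rcases le_total (1 - σ ^ 2) 0 with h1 | h1
  · rw [Real.sqrt_eq_zero'.2 h1, zero_mul]; exact h.1.le
  · refine (sq_le_sq₀ (by positivity) h.1.le).1 ?_
    rw [mul_pow, Real.sq_sqrt h1]
    nlinarith [wsa0_sq z, wsa0_im_sq h]

theorem Sa.ne (h : Sa z σ) : z ≠ 0 := by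
  rintro rfl
  exact lt_irrefl _ h.1

theorem Sa.mono (h : Sa z σ) (hσ : σ ≤ σ') : Sa z σ' :=
  ⟨h.1, h.2.trans (mul_le_mul_of_nonneg_right hσ (norm_nonneg _))⟩

theorem Sa.inv (h : Sa z σ) : Sa z⁻¹ σ := by
  have h1 : 0 < ‖z‖ := norm_pos_iff.2 h.ne
  refine ⟨?_, ?_⟩
  · rw [Complex.inv_re]
    exact div_pos h.1 (Complex.normSq_pos.2 h.ne)
  · rw [Complex.inv_im, norm_inv, abs_div, abs_neg, ← Complex.sq_norm,
      abs_of_pos (pow_pos h1 2), div_le_iff₀ (pow_pos h1 2)]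
    refine h.2.trans (le_of_eq ?_)
    field_simp

theorem Sa.mul (h : Sa z σ) (h' : Sa w σ') (h0 : 0 ≤ σ) (h0' : 0 ≤ σ') (h1 : σ + σ' < 1) :
    Sa (z * w) (σ + σ') := by
  have hz : 0 < ‖z‖ := norm_pos_iff.2 h.ne
  have hw : 0 < ‖w‖ := norm_pos_iff.2 h'.ne
  have h2 : σ ^ 2 + σ' ^ 2 < 1 := by nlinarith [mul_nonneg h0 h0']
  refine ⟨?_, ?_⟩
  · have a1 : σ' < √(1 - σ ^ 2) := Real.lt_sqrt_of_sq_lt (by linarith)
    have a2 : σ < √(1 - σ' ^ 2) := Real.lt_sqrt_of_sq_lt (by linarith)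
    have b1 : σ' * ‖z‖ < z.re := (mul_lt_mul_of_pos_right a1 hz).trans_le (wsa0_re_ge h)
    have b2 : σ * ‖w‖ < w.re := (mul_lt_mul_of_pos_right a2 hw).trans_le (wsa0_re_ge h')
    have c1 : σ' * ‖z‖ * (σ * ‖w‖) < z.re * w.re :=
      mul_lt_mul'' b1 b2 (by positivity) (by positivity)
    have c2 : z.im * w.im ≤ σ * ‖z‖ * (σ' * ‖w‖) := by
      refine (le_abs_self _).trans ?_
      rw [abs_mul]
      exact mul_le_mul h.2 h'.2 (abs_nonneg _) (by positivity)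
    rw [Complex.mul_re]
    nlinarith
  · rw [Complex.mul_im, norm_mul]
    refine (abs_add_le _ _).trans ?_
    rw [abs_mul, abs_mul]
    have c1 : |z.re| * |w.im| ≤ ‖z‖ * (σ' * ‖w‖) :=
      mul_le_mul (Complex.abs_re_le_norm z) h'.2 (abs_nonneg _) hz.le
    have c2 : |z.im| * |w.re| ≤ σ * ‖z‖ * ‖w‖ :=
      mul_le_mul h.2 (Complex.abs_re_le_norm w) (abs_nonneg _) (by positivity)
    nlinarith

theorem Sa.pos_mul (h : Sa z σ) {c : ℝ} (hc : 0 < c) : Sa (c * z) σ := by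
  refine ⟨?_, ?_⟩
  · rw [Complex.re_ofReal_mul]; exact mul_pos hc h.1
  · rw [Complex.im_ofReal_mul, norm_mul, Complex.norm_real, Real.norm_eq_abs, abs_mul,
      mul_left_comm]
    exact mul_le_mul_of_nonneg_left h.2 (abs_nonneg _)

theorem sa_one_add (h : ‖z‖ ≤ σ) (h1 : σ < 1) : Sa (1 + z) σ := by
  have h0 : 0 ≤ σ := (norm_nonneg _).trans h
  have h2 := Complex.abs_re_le_norm z
  have h3 : ‖z‖ ^ 2 ≤ σ ^ 2 := pow_le_pow_left₀ (norm_nonneg _) h 2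
  have h4 : 0 ≤ 1 - σ ^ 2 := by nlinarith
  rw [wsa0_sq] at h3
  refine wsa0_of_sq ?_ h0 ?_
  · simp only [Complex.add_re, Complex.one_re]
    linarith [neg_abs_le z.re]
  · rw [wsa0_sq]
    simp only [Complex.add_re, Complex.one_re, Complex.add_im, Complex.one_im, zero_add]
    nlinarith [sq_nonneg (σ ^ 2 + z.re), mul_nonneg h4 (sub_nonneg.2 h3)]

/-- the set `Sa · σ` is a convex cone -/
theorem Sa.add (h : Sa z σ) (h' : Sa w σ) (h0 : 0 ≤ σ) (h1 : σ < 1) : Sa (z + w) σ := by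
  have h4 : 0 ≤ 1 - σ ^ 2 := by nlinarith
  have hre : 0 < (z + w).re := by rw [Complex.add_re]; exact add_pos h.1 h'.1
  have h2 : √(1 - σ ^ 2) * ‖z + w‖ ≤ (z + w).re := by
    rw [Complex.add_re]
    have := mul_le_mul_of_nonneg_left (norm_add_le z w) (Real.sqrt_nonneg (1 - σ ^ 2))
    linarith [wsa0_re_ge h, wsa0_re_ge h']
  have h3 := pow_le_pow_left₀ (by positivity) h2 2
  rw [mul_pow, Real.sq_sqrt h4] at h3
  refine wsa0_of_sq hre h0 ?_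
  nlinarith [wsa0_sq (z + w)]

theorem sa_real {c : ℝ} (hc : 0 < c) (h0 : 0 ≤ σ) : Sa (c : ℂ) σ := by
  refine ⟨by simpa using hc, ?_⟩
  rw [Complex.ofReal_im, abs_zero]
  positivity

theorem Sa.re_ge (h : Sa z σ) : √(1 - σ ^ 2) * ‖z‖ ≤ z.re := wsa0_re_ge h

theorem Sa.slit (h : Sa z σ) : z ∈ Complex.slitPlane := Or.inl h.1

/-- If the sine of `θ0 - arg z` is at least `σ`, then `arg (z w) ∈ [θ0 - π, θ0]`. -/
theorem ang_lemma {cs sn : ℝ} (h1 : cs ^ 2 + sn ^ 2 = 1) (hcs : 0 < cs) (hsn : 0 < sn)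
    (hw : Sa w σ) (h0 : 0 ≤ σ) (hz : σ * ‖z‖ ≤ sn * z.re - cs * z.im) :
    (z * w).im ≤ sn * ‖z * w‖ := by
  have key : 0 ≤ sn * (z * w).re - cs * (z * w).im := by
    obtain ⟨p, hp⟩ : ∃ p, p = sn * z.re - cs * z.im := ⟨_, rfl⟩
    obtain ⟨a, ha⟩ : ∃ a, a = cs * z.re + sn * z.im := ⟨_, rfl⟩
    have e1 : sn * (z * w).re - cs * (z * w).im = w.re * p - w.im * a := by
      rw [Complex.mul_re, Complex.mul_im, hp, ha]; ring
    have e2 : a ^ 2 + p ^ 2 = ‖z‖ ^ 2 := by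
      rw [wsa0_sq, hp, ha]; linear_combination (z.re ^ 2 + z.im ^ 2) * h1
    rw [← hp] at hz
    have hp0 : 0 ≤ p := le_trans (by positivity) hz
    have e3 : σ ^ 2 * ‖z‖ ^ 2 ≤ p ^ 2 := by
      rw [← mul_pow]; exact pow_le_pow_left₀ (by positivity) hz 2
    have e4 := wsa0_im_sq hw
    have e5 := wsa0_sq w
    have e6 : w.im ^ 2 * ‖z‖ ^ 2 ≤ ‖w‖ ^ 2 * p ^ 2 := by
      have t1 := mul_le_mul_of_nonneg_right e4 (sq_nonneg ‖z‖)
      have t2 := mul_le_mul_of_nonneg_left e3 (sq_nonneg ‖w‖)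
      linarith
    have e7 : (w.im * a) ^ 2 ≤ (w.re * p) ^ 2 := by
      rw [← e2, e5] at e6
      linarith [mul_pow w.im a 2, mul_pow w.re p 2]
    have e8 := abs_le_of_sq_le_sq' e7 (mul_nonneg hw.1.le hp0)
    rw [e1]
    linarith [e8.2]
  generalize z * w = G at key ⊢
  rcases le_total G.im 0 with h2 | h2
  · exact h2.trans (by positivity)
  · refine (sq_le_sq₀ h2 (by positivity)).1 ?_
    have h3 : (cs * G.im) ^ 2 ≤ (sn * G.re) ^ 2 :=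
      pow_le_pow_left₀ (by positivity) (by linarith) 2
    have h4 : G.im ^ 2 = (cs * G.im) ^ 2 + sn ^ 2 * G.im ^ 2 := by
      linear_combination (-G.im ^ 2) * h1
    rw [mul_pow sn, wsa0_sq]
    rw [mul_pow sn] at h3
    linarith

/-- `z` in the closed fourth quadrant -/
theorem ang_quad (hw : Sa w σ) (h0 : 0 ≤ σ) (hre : 0 ≤ z.re) (him : z.im ≤ 0) :
    (z * w).im ≤ σ * ‖z * w‖ ∧ -(σ * ‖z * w‖) ≤ (z * w).re := by
  have c1 : |z.re * w.im| ≤ ‖z‖ * (σ * ‖w‖) := by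
    rw [abs_mul]
    exact mul_le_mul (Complex.abs_re_le_norm z) hw.2 (abs_nonneg _) (norm_nonneg _)
  have c2 : |z.im * w.im| ≤ ‖z‖ * (σ * ‖w‖) := by
    rw [abs_mul]
    exact mul_le_mul (Complex.abs_im_le_norm z) hw.2 (abs_nonneg _) (norm_nonneg _)
  have c3 : z.im * w.re ≤ 0 := mul_nonpos_of_nonpos_of_nonneg him hw.1.le
  have c4 : 0 ≤ z.re * w.re := mul_nonneg hre hw.1.le
  rw [Complex.mul_im, Complex.mul_re, norm_mul]
  constructor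
  · linarith [le_abs_self (z.re * w.im)]
  · linarith [le_abs_self (z.im * w.im)]

end Pool.Agent.HillD
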