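import Pool.Agent.P.MP_ae2765_an.WDef

/-! The power series at the turning point: bounds and holomorphy. -/

namespace Pool.Agent.HillD
open Real Set Filter Topology Asymptotics

theorem tco_ofReal (A B Z J : ℝ) (k0 n : ℕ) :
    (tco (A : ℂ) B Z J k0 n).1 = ((tco A B Z J k0 n).1 : ℝ) ∧
      (tco (A : ℂ) B Z J k0 n).2 = ((tco A B Z J k0 n).2 : ℝ) := by
  induction n with
  | zero => simp [tco]
  | succ n ih =>
    refine ⟨?_, ?_⟩
    · simp only [tco]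
      rw [ih.1, ih.2]
      simp only [Complex.ofReal_div, Complex.ofReal_add, Complex.ofReal_mul, Complex.ofReal_sub,
        Complex.ofReal_natCast]
    · simp only [tco]
      exact ih.1

theorem wser0_step {A B Z J : ℂ} {k0 : ℕ} (hA : ‖A‖ ≤ 47 / 2) (hB : ‖B‖ ≤ 29)
    (hZ : ‖Z‖ ≤ 51 / 5000) (hJ : ‖J‖ ≤ 3 / 250000) (hk : k0 ≤ 1) (n : ℕ) {a b c : ℝ}
    (ha : ‖(tco A B Z J k0 n).1‖ ≤ a) (hb : ‖(tco A B Z J k0 n).2‖ ≤ b)
    (hc : ((2 * n + 1) * (2 * n + 1) * (3 / 250000) + 47 / 2) * a +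
      ((2 * n) * (2 * n) * (51 / 5000) + 29) * b ≤ c * ((2 * n + 1) * (2 * n + 2))) :
    ‖(tco A B Z J k0 (n + 1)).1‖ ≤ c := by
  have h1 : ‖(((k0 + 2 * n) * (k0 + 2 * n) : ℕ) : ℂ) * J - A‖ ≤
      (2 * n + 1) * (2 * n + 1) * (3 / 250000) + 47 / 2 := by
    refine (norm_sub_le _ _).trans (add_le_add ?_ hA)
    rw [norm_mul, Complex.norm_natCast]
    refine mul_le_mul ?_ hJ (norm_nonneg _) (by positivity)
    have : (k0 + 2 * n) * (k0 + 2 * n) ≤ (2 * n + 1) * (2 * n + 1) :=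
      Nat.mul_le_mul (by omega) (by omega)
    exact_mod_cast this
  have h2 : ‖(((k0 + 2 * n - 1) * (k0 + 2 * n - 2) : ℕ) : ℂ) * Z - B‖ ≤
      (2 * n) * (2 * n) * (51 / 5000) + 29 := by
    refine (norm_sub_le _ _).trans (add_le_add ?_ hB)
    rw [norm_mul, Complex.norm_natCast]
    refine mul_le_mul ?_ hZ (norm_nonneg _) (by positivity)
    have : (k0 + 2 * n - 1) * (k0 + 2 * n - 2) ≤ (2 * n) * (2 * n) :=
      Nat.mul_le_mul (by omega) (by omega)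
    exact_mod_cast this
  have h3 : ((2 * n + 1) * (2 * n + 2) : ℝ) ≤ (((k0 + 2 * n + 1) * (k0 + 2 * n + 2) : ℕ) : ℝ) := by
    have : (2 * n + 1) * (2 * n + 2) ≤ (k0 + 2 * n + 1) * (k0 + 2 * n + 2) :=
      Nat.mul_le_mul (by omega) (by omega)
    exact_mod_cast this
  have h4 : (0 : ℝ) < (2 * n + 1) * (2 * n + 2) := by positivity
  have ha0 : 0 ≤ a := (norm_nonneg _).trans ha
  have hb0 : 0 ≤ b := (norm_nonneg _).trans hb
  have hc0 : 0 ≤ c := by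
    refine le_of_mul_le_mul_right ?_ h4
    rw [zero_mul]
    exact le_trans (by positivity) hc
  simp only [tco]
  rw [norm_div, Complex.norm_natCast, div_le_iff₀ (h4.trans_le h3)]
  refine (norm_add_le _ _).trans ?_
  rw [norm_mul, norm_mul]
  refine le_trans (add_le_add (mul_le_mul h1 ha (norm_nonneg _) (by positivity))
    (mul_le_mul h2 hb (norm_nonneg _) (by positivity))) (hc.trans ?_)
  exact mul_le_mul_of_nonneg_left h3 hc0

theorem tco_bound {A B Z J : ℂ} {k0 : ℕ} (hA : ‖A‖ ≤ 47 / 2) (hB : ‖B‖ ≤ 29) (hZ : ‖Z‖ ≤ 51 / 5000)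
    (hJ : ‖J‖ ≤ 3 / 250000) (hk : k0 ≤ 1) :
    (∀ n, ‖(tco A B Z J k0 n).1‖ ≤ 1000000 / 4 ^ n) ∧
      ∀ i, ‖(tco A B Z J k0 (15 + i)).1‖ ≤ 16 / 100000 / 4 ^ i := by
  have h0 : ‖(tco A B Z J k0 0).1‖ ≤ 1 := by simp [tco]
  have hz : ‖(tco A B Z J k0 0).2‖ ≤ 0 := by simp [tco]
  have h1 : ‖(tco A B Z J k0 1).1‖ ≤ 294 / 25 :=
    wser0_step hA hB hZ hJ hk 0 h0 hz (by norm_num)
  have h2 : ‖(tco A B Z J k0 2).1‖ ≤ 1273 / 50 :=
    wser0_step hA hB hZ hJ hk 1 h1 h0 (by norm_num)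
  have h3 : ‖(tco A B Z J k0 3).1‖ ≤ 1569 / 50 :=
    wser0_step hA hB hZ hJ hk 2 h2 h1 (by norm_num)
  have h4 : ‖(tco A B Z J k0 4).1‖ ≤ 2653 / 100 :=
    wser0_step hA hB hZ hJ hk 3 h3 h2 (by norm_num)
  have h5 : ‖(tco A B Z J k0 5).1‖ ≤ 1727 / 100 :=
    wser0_step hA hB hZ hJ hk 4 h4 h3 (by norm_num)
  have h6 : ‖(tco A B Z J k0 6).1‖ ≤ 9109 / 1000 :=
    wser0_step hA hB hZ hJ hk 5 h5 h4 (by norm_num)
  have h7 : ‖(tco A B Z J k0 7).1‖ ≤ 1017 / 250 :=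
    wser0_step hA hB hZ hJ hk 6 h6 h5 (by norm_num)
  have h8 : ‖(tco A B Z J k0 8).1‖ ≤ 63 / 40 :=
    wser0_step hA hB hZ hJ hk 7 h7 h6 (by norm_num)
  have h9 : ‖(tco A B Z J k0 9).1‖ ≤ 5413 / 10000 :=
    wser0_step hA hB hZ hJ hk 8 h8 h7 (by norm_num)
  have h10 : ‖(tco A B Z J k0 10).1‖ ≤ 837 / 5000 :=
    wser0_step hA hB hZ hJ hk 9 h9 h8 (by norm_num)
  have h11 : ‖(tco A B Z J k0 11).1‖ ≤ 591 / 12500 :=
    wser0_step hA hB hZ hJ hk 10 h10 h9 (by norm_num)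
  have h12 : ‖(tco A B Z J k0 12).1‖ ≤ 1231 / 100000 :=
    wser0_step hA hB hZ hJ hk 11 h11 h10 (by norm_num)
  have h13 : ‖(tco A B Z J k0 13).1‖ ≤ 1491 / 500000 :=
    wser0_step hA hB hZ hJ hk 12 h12 h11 (by norm_num)
  have h14 : ‖(tco A B Z J k0 14).1‖ ≤ 6773 / 10000000 :=
    wser0_step hA hB hZ hJ hk 13 h13 h12 (by norm_num)
  have h15 : ‖(tco A B Z J k0 15).1‖ ≤ 363 / 2500000 :=
    wser0_step hA hB hZ hJ hk 14 h14 h13 (by norm_num)
  have h16 : ‖(tco A B Z J k0 16).1‖ ≤ 2951 / 100000000 :=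
    wser0_step hA hB hZ hJ hk 15 h15 h14 (by norm_num)
  have key : ∀ i, ‖(tco A B Z J k0 (15 + i)).1‖ ≤ 16 / 100000 / 4 ^ i ∧
      ‖(tco A B Z J k0 (15 + i + 1)).1‖ ≤ 16 / 100000 / 4 ^ i / 4 := by
    intro i
    induction i with
    | zero => exact ⟨h15.trans (by norm_num), h16.trans (by norm_num)⟩
    | succ i ih =>
      have e : (16 / 100000 / 4 ^ (i + 1) : ℝ) = 16 / 100000 / 4 ^ i / 4 := by
        rw [pow_succ, div_div (16 / 100000 : ℝ)]
      rw [e]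
      refine ⟨ih.2, wser0_step hA hB hZ hJ hk (15 + i + 1) ih.2 ih.1 ?_⟩
      have hp : (0 : ℝ) < 16 / 100000 / 4 ^ i := by positivity
      generalize (16 / 100000 / 4 ^ i : ℝ) = C at hp
      have hx : (16 : ℝ) ≤ ((15 + i + 1 : ℕ) : ℝ) := by
        have : 16 ≤ 15 + i + 1 := by omega
        exact_mod_cast this
      generalize ((15 + i + 1 : ℕ) : ℝ) = x at hx
      have : ((2 * x + 1) * (2 * x + 1) * (3 / 250000) + 47 / 2) / 4 +
          ((2 * x) * (2 * x) * (51 / 5000) + 29) ≤ ((2 * x + 1) * (2 * x + 2)) / 16 := by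
        nlinarith
      nlinarith [mul_le_mul_of_nonneg_left this hp.le]
  refine ⟨fun n => ?_, fun i => (key i).1⟩
  rcases le_or_gt 15 n with h | h
  · obtain ⟨i, rfl⟩ := Nat.exists_eq_add_of_le h
    refine (key i).1.trans ?_
    rw [pow_add, ← div_div]
    exact div_le_div_of_nonneg_right (by norm_num) (by positivity)
  · interval_cases n
    · exact h0.trans (by norm_num)
    · exact h1.trans (by norm_num)
    · exact h2.trans (by norm_num)
    · exact h3.trans (by norm_num)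
    · exact h4.trans (by norm_num)
    · exact h5.trans (by norm_num)
    · exact h6.trans (by norm_num)
    · exact h7.trans (by norm_num)
    · exact h8.trans (by norm_num)
    · exact h9.trans (by norm_num)
    · exact h10.trans (by norm_num)
    · exact h11.trans (by norm_num)
    · exact h12.trans (by norm_num)
    · exact h13.trans (by norm_num)
    · exact h14.trans (by norm_num)

theorem ser_tail {A B Z J : ℂ} {k0 : ℕ} (hA : ‖A‖ ≤ 47 / 2) (hB : ‖B‖ ≤ 29) (hZ : ‖Z‖ ≤ 51 / 5000)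
    (hJ : ‖J‖ ≤ 3 / 250000) (hk : k0 ≤ 1) :
    ‖yS A B Z J k0 - yN A B Z J k0‖ ≤ 3 / 50000 ∧ ‖hS A B Z J k0 - hN A B Z J k0‖ ≤ 1 / 500 := by
  have hb := (tco_bound hA hB hZ hJ hk).2
  have h1 : ∀ i, ‖(tco A B Z J k0 (i + 16)).1‖ ≤ 4 / 100000 * (1 / 4) ^ i := by
    intro i
    have := hb (i + 1)
    rw [show 15 + (i + 1) = i + 16 by omega] at this
    refine this.trans (le_of_eq ?_)
    rw [one_div, inv_pow, pow_succ]
    field_simp
    norm_num
  have h2 : ∀ i, ‖((k0 + 2 * (i + 16) : ℕ) : ℂ) * (tco A B Z J k0 (i + 16)).1‖ ≤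
      33 * (4 / 100000) * (1 / 4) ^ i + 2 * (4 / 100000) * ((i : ℝ) * (1 / 4) ^ i) := by
    intro i
    rw [norm_mul, Complex.norm_natCast]
    have : ((k0 + 2 * (i + 16) : ℕ) : ℝ) ≤ 33 + 2 * i := by
      have : k0 + 2 * (i + 16) ≤ 33 + 2 * i := by omega
      exact_mod_cast this
    refine (mul_le_mul this (h1 i) (norm_nonneg _) (by positivity)).trans (le_of_eq ?_)
    ring
  have g0 : HasSum (fun i : ℕ => (1 / 4 : ℝ) ^ i) (1 - 1 / 4)⁻¹ :=
    hasSum_geometric_of_lt_one (by norm_num) (by norm_num)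
  have g1 : HasSum (fun i : ℕ => (i : ℝ) * (1 / 4 : ℝ) ^ i) (1 / 4 / (1 - 1 / 4) ^ 2) :=
    hasSum_coe_mul_geometric_of_norm_lt_one (by norm_num)
  have s1 := g0.mul_left (4 / 100000)
  have s2 := (g0.mul_left (33 * (4 / 100000))).add (g1.mul_left (2 * (4 / 100000)))
  have u1 : Summable fun n => (tco A B Z J k0 n).1 :=
    (summable_nat_add_iff 16).1 (Summable.of_norm_bounded s1.summable h1)
  have u2 : Summable fun n => ((k0 + 2 * n : ℕ) : ℂ) * (tco A B Z J k0 n).1 :=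
    (summable_nat_add_iff 16).1 (Summable.of_norm_bounded s2.summable h2)
  refine ⟨?_, ?_⟩
  · rw [yS, yN, ← u1.sum_add_tsum_nat_add 16, add_sub_cancel_left]
    exact (tsum_of_norm_bounded s1 h1).trans (by norm_num)
  · rw [hS, hN, ← u2.sum_add_tsum_nat_add 16, add_sub_cancel_left]
    exact (tsum_of_norm_bounded s2 h2).trans (by norm_num)

end Pool.Agent.HillD
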