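import Pool.Agent.P.MP_ae2765_an.WHol

/-! Holomorphic solutions of a linear system on a disc. -/

namespace Pool.Agent.HillD
open Real Set Filter Topology Asymptotics

theorem wsol0_path (t s : ℝ) :
    HasDerivAt (fun s : ℝ => Complex.I * ((t * (1 - s) : ℝ) : ℂ)) (-(Complex.I * t)) s := by
  have h1 : HasDerivAt (fun s : ℝ => t * (1 - s)) (-t) s := by
    simpa using ((hasDerivAt_id s).const_sub 1).const_mul t
  have h2 := h1.ofReal_comp.const_mul Complex.I
  rwa [Complex.ofReal_neg, mul_neg] at h2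

/-- reality on the imaginary axis -/
theorem imag_axis {R t : ℝ} {f1 f2 u y : ℂ → ℂ} (ht : 0 ≤ t) (htR : t < R)
    (h1 : DifferentiableOn ℂ f1 (Metric.ball 0 R)) (h2 : DifferentiableOn ℂ f2 (Metric.ball 0 R))
    (h : ∀ z ∈ Metric.ball (0 : ℂ) R,
      HasDerivAt u (f1 z * y z) z ∧ HasDerivAt y (f2 z * u z) z)
    (r1 : ∀ s ∈ Icc (0 : ℝ) t, (f1 (Complex.I * s)).im = 0)
    (r2 : ∀ s ∈ Icc (0 : ℝ) t, (f2 (Complex.I * s)).im = 0)
    (hu : (u (Complex.I * t)).im = 0) (hy : (y (Complex.I * t)).re = 0) :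
    (u 0).im = 0 ∧ (y 0).re = 0 := by
  obtain ⟨z, hz⟩ : ∃ z : ℝ → ℂ, z = fun s : ℝ => Complex.I * ((t * (1 - s) : ℝ) : ℂ) := ⟨_, rfl⟩
  have hd : ∀ s, HasDerivAt z (-(Complex.I * t)) s := fun s => hz ▸ wsol0_path t s
  have hI : ∀ s ∈ Icc (0 : ℝ) 1, t * (1 - s) ∈ Icc (0 : ℝ) t := fun s hs =>
    ⟨mul_nonneg ht (by linarith [hs.2]), by nlinarith [hs.1]⟩
  have hm : ∀ s ∈ Icc (0 : ℝ) 1, z s ∈ Metric.ball (0 : ℂ) R := by
    intro s hs
    rw [hz, mem_ball_zero_iff, norm_mul, Complex.norm_I, one_mul, Complex.norm_real,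
      Real.norm_of_nonneg (hI s hs).1]
    exact (hI s hs).2.trans_lt htR
  have hc : ContinuousOn z (Icc 0 1) := fun s _ => (hd s).continuousAt.continuousWithinAt
  have c1 : ContinuousOn (fun s => f1 (z s) * -(Complex.I * t)) (Icc 0 1) :=
    (h1.continuousOn.comp hc hm).mul continuousOn_const
  have c2 : ContinuousOn (fun s => f2 (z s) * -(Complex.I * t)) (Icc 0 1) :=
    (h2.continuousOn.comp hc hm).mul continuousOn_const
  have d1 : ∀ s ∈ Icc (0 : ℝ) 1,
      HasDerivAt (fun s => u (z s)) (f1 (z s) * y (z s) * -(Complex.I * t)) s := fun s hs =>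
    ((h _ (hm s hs)).1.hasFDerivAt.restrictScalars ℝ).comp_hasDerivAt s (hd s) |>.congr_deriv (by
      simp [mul_comm])
  have d2 : ∀ s ∈ Icc (0 : ℝ) 1,
      HasDerivAt (fun s => y (z s)) (f2 (z s) * u (z s) * -(Complex.I * t)) s := fun s hs =>
    ((h _ (hm s hs)).2.hasFDerivAt.restrictScalars ℝ).comp_hasDerivAt s (hd s) |>.congr_deriv (by
      simp [mul_comm])
  have e1 : ∀ s ∈ Icc (0 : ℝ) 1, star (f1 (z s)) = f1 (z s) := fun s hs =>
    Complex.conj_eq_iff_im.2 (by rw [hz]; exact r1 _ (hI s hs))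
  have e2 : ∀ s ∈ Icc (0 : ℝ) 1, star (f2 (z s)) = f2 (z s) := fun s hs =>
    Complex.conj_eq_iff_im.2 (by rw [hz]; exact r2 _ (hI s hs))
  have e3 : star (-(Complex.I * t) : ℂ) = Complex.I * t := by simp
  have z0 : z 0 = Complex.I * t := by simp [hz]
  have z1 : z 1 = 0 := by simp [hz]
  have key := ode_uniq (a11 := fun _ => 0) (a22 := fun _ => 0)
    (x := fun s => u (z s)) (y := fun s => y (z s))
    (x' := fun s => star (u (z s))) (y' := fun s => -star (y (z s)))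
    continuousOn_const c1 c2 continuousOn_const
    (fun s hs => ⟨((d1 s hs).congr_deriv (by ring)).hasDerivWithinAt,
      ((d2 s hs).congr_deriv (by ring)).hasDerivWithinAt⟩)
    (fun s hs => ⟨((d1 s hs).star.congr_deriv (by
        rw [star_mul', star_mul', e1 s hs, e3]; ring)).hasDerivWithinAt,
      ((d2 s hs).star.neg.congr_deriv (by
        rw [star_mul', star_mul', e2 s hs, e3]; ring)).hasDerivWithinAt⟩)
    (by rw [z0]; exact (Complex.conj_eq_iff_im.2 hu).symm)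
    (by
      rw [z0]
      apply Complex.ext <;> simp [hy]) 1 ⟨zero_le_one, le_rfl⟩
  rw [z1] at key
  refine ⟨Complex.conj_eq_iff_im.1 key.1.symm, ?_⟩
  have := congrArg Complex.re key.2
  simp at this
  linarith

end Pool.Agent.HillD
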