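import Pool.Agent.P.MP_ae2765_an.WDef

/-! The tangent line criterion and uniqueness of the inflection point. -/

namespace Pool.Agent.HillD
open Real Set Filter Topology Asymptotics

theorem wtop0_left {g : ℝ → ℝ} {x : ℝ} (h0 : g x = 0) (h1 : deriv g x < 0) :
    ∀ᶠ y in 𝓝[<] x, 0 < g y := by
  filter_upwards [(eventually_nhdsWithin_sign_eq_of_deriv_neg h1 h0).filter_mono
    nhdsWithin_le_nhds, self_mem_nhdsWithin] with y hy hyx
  rw [sign_pos (sub_pos.2 (mem_Iio.1 hyx))] at hy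
  exact sign_eq_one_iff.1 hy

theorem wtop0_right {g : ℝ → ℝ} {x : ℝ} (h0 : g x = 0) (h1 : deriv g x < 0) :
    ∀ᶠ y in 𝓝[>] x, g y < 0 := by
  filter_upwards [(eventually_nhdsWithin_sign_eq_of_deriv_neg h1 h0).filter_mono
    nhdsWithin_le_nhds, self_mem_nhdsWithin] with y hy hyx
  rw [sign_neg (sub_neg.2 (mem_Ioi.1 hyx))] at hy
  exact sign_eq_neg_one_iff.1 hy

/-- once negative, always negative -/
theorem wtop0_cross {g : ℝ → ℝ} (hg : ∀ x > 0, ContinuousAt g x)
    (h : ∀ x > 0, g x = 0 → deriv g x < 0) {a b : ℝ} (ha : 0 < a) (hab : a < b) (ga : g a < 0) :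
    g b < 0 := by
  by_contra gb
  have hc : ContinuousOn g (Icc a b) := fun x hx => (hg x (ha.trans_le hx.1)).continuousWithinAt
  have hS : IsClosed (Icc a b ∩ g ⁻¹' Ici 0) :=
    hc.preimage_isClosed_of_isClosed isClosed_Icc isClosed_Ici
  have hK : IsCompact (Icc a b ∩ g ⁻¹' Ici 0) :=
    isCompact_Icc.of_isClosed_subset hS inter_subset_left
  obtain ⟨t, ⟨ht, gt⟩, hl⟩ := hK.exists_isLeast ⟨b, ⟨hab.le, le_rfl⟩, not_lt.1 gb⟩
  have gt' : 0 ≤ g t := gt
  have hat : a < t := by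
    refine lt_of_le_of_ne ht.1 ?_
    rintro rfl
    exact absurd ga (not_lt.2 gt')
  have t0 : 0 < t := ha.trans hat
  have e1 : ∀ᶠ y in 𝓝[<] t, 0 < g y := by
    rcases gt'.eq_or_lt with e | e
    · exact wtop0_left e.symm (h t t0 e.symm)
    · exact ((hg t t0).eventually (lt_mem_nhds e)).filter_mono nhdsWithin_le_nhds
  obtain ⟨y, y1, y2⟩ := (e1.and (Ioo_mem_nhdsLT hat)).exists
  exact absurd (hl ⟨⟨y2.1.le, y2.2.le.trans ht.2⟩, y1.le⟩) (not_le.2 y2.2)

theorem wtop0_neg {g : ℝ → ℝ} (hg : ∀ x > 0, ContinuousAt g x)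
    (h : ∀ x > 0, g x = 0 → deriv g x < 0) {x y : ℝ} (hx : 0 < x) (gx : g x = 0) (hy : x < y) :
    g y < 0 := by
  obtain ⟨a, a1, a2⟩ := ((wtop0_right gx (h x hx gx)).and (Ioo_mem_nhdsGT hy)).exists
  exact wtop0_cross hg h (hx.trans a2.1) a2.2 a1

theorem wtop0_pos {g : ℝ → ℝ} (hg : ∀ x > 0, ContinuousAt g x)
    (h : ∀ x > 0, g x = 0 → deriv g x < 0) {x y : ℝ} (hy : 0 < y) (gx : g x = 0) (hyx : y < x) :
    0 < g y := by
  rcases lt_trichotomy (g y) 0 with e | e | e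
  · exact absurd gx (wtop0_cross hg h hy hyx e).ne
  · exact absurd gx (wtop0_neg hg h hy e hyx).ne
  · exact e

theorem wtop0_both {f : ℝ → ℝ} {u v : ℝ} (huv : u < v) (h1 : StrictConvexOn ℝ (Icc u v) f)
    (h2 : StrictConcaveOn ℝ (Icc u v) f) : False := by
  have a := h1.2 (left_mem_Icc.2 huv.le) (right_mem_Icc.2 huv.le) huv.ne
    (one_half_pos) (one_half_pos) (add_halves 1)
  have b := h2.2 (left_mem_Icc.2 huv.le) (right_mem_Icc.2 huv.le) huv.ne
    (one_half_pos) (one_half_pos) (add_halves 1)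
  exact lt_asymm a b

theorem wtop0_zero {f : ℝ → ℝ} (hf : AnalyticOnNhd ℝ f (Ioi 0)) {y : ℝ} (hy : IsInflection f y) :
    0 < y ∧ deriv^[2] f y = 0 := by
  obtain ⟨ε, e0, e1, hy⟩ := hy
  have y0 : 0 < y := e0.trans e1
  have hg : ContinuousAt (deriv^[2] f) y := (hf.iterated_deriv 2 y y0).continuousAt
  refine ⟨y0, ?_⟩
  have loc : ∀ p : ℝ → Prop, (∀ᶠ t in 𝓝 y, p t) →
      ∃ δ, 0 < δ ∧ δ ≤ ε ∧ ∀ t ∈ Ioo (y - δ) (y + δ), p t := by
    intro p hp
    obtain ⟨r, r0, hr⟩ := Metric.eventually_nhds_iff.1 hp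
    refine ⟨min r ε, lt_min r0 e0, min_le_right _ _, fun t ht => hr ?_⟩
    rw [Real.dist_eq, abs_lt]
    have := min_le_left r ε
    constructor <;> linarith [ht.1, ht.2]
  have co : ∀ δ, δ ≤ ε → ContinuousOn f (Icc (y - δ) (y + δ)) := fun δ hδ =>
    hf.continuousOn.mono fun t ht => by
      have := ht.1
      show 0 < t
      linarith
  rcases lt_trichotomy (deriv^[2] f y) 0 with e | e | e
  · exfalso
    obtain ⟨δ, d0, d1, hd⟩ := loc _ (hg.eventually (gt_mem_nhds e))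
    have c := strictConcaveOn_of_deriv2_neg (convex_Icc _ _) (co δ d1)
      (by rwa [interior_Icc])
    rcases hy with ⟨k, _⟩ | ⟨_, k⟩
    · exact wtop0_both (u := y - δ) (v := y) (by linarith)
        (k.subset (Icc_subset_Icc (by linarith) le_rfl) (convex_Icc _ _))
        (c.subset (Icc_subset_Icc le_rfl (by linarith)) (convex_Icc _ _))
    · exact wtop0_both (u := y) (v := y + δ) (by linarith)
        (k.subset (Icc_subset_Icc le_rfl (by linarith)) (convex_Icc _ _))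
        (c.subset (Icc_subset_Icc (by linarith) le_rfl) (convex_Icc _ _))
  · exact e
  · exfalso
    obtain ⟨δ, d0, d1, hd⟩ := loc _ (hg.eventually (lt_mem_nhds e))
    have c := strictConvexOn_of_deriv2_pos (convex_Icc _ _) (co δ d1)
      (by rwa [interior_Icc])
    rcases hy with ⟨_, k⟩ | ⟨k, _⟩
    · exact wtop0_both (u := y) (v := y + δ) (by linarith)
        (c.subset (Icc_subset_Icc (by linarith) le_rfl) (convex_Icc _ _))
        (k.subset (Icc_subset_Icc le_rfl (by linarith)) (convex_Icc _ _))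
    · exact wtop0_both (u := y - δ) (v := y) (by linarith)
        (c.subset (Icc_subset_Icc le_rfl (by linarith)) (convex_Icc _ _))
        (k.subset (Icc_subset_Icc (by linarith) le_rfl) (convex_Icc _ _))

theorem unique_inflection {f : ℝ → ℝ} (hf : AnalyticOnNhd ℝ f (Ioi 0))
    (h : ∀ x > 0, deriv^[2] f x = 0 → deriv^[3] f x < 0) (hx : ∃ x, IsInflection f x) :
    ∃ x > 0, (∀ y, IsInflection f y ↔ y = x) ∧ StrictConvexOn ℝ (Ioc 0 x) f ∧
      StrictConcaveOn ℝ (Ici x) f := by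
  obtain ⟨x, hx⟩ := hx
  obtain ⟨x0, gx⟩ := wtop0_zero hf hx
  have hg : ∀ y > 0, ContinuousAt (deriv^[2] f) y := fun y hy =>
    (hf.iterated_deriv 2 y hy).continuousAt
  have h' : ∀ y > 0, deriv^[2] f y = 0 → deriv (deriv^[2] f) y < 0 := fun y hy e => by
    have := h y hy e
    rwa [Function.iterate_succ_apply'] at this
  refine ⟨x, x0, fun y => ⟨fun hy => ?_, fun e => e ▸ hx⟩, ?_, ?_⟩
  · obtain ⟨y0, gy⟩ := wtop0_zero hf hy
    rcases lt_trichotomy y x with e | e | e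
    · exact absurd gy (wtop0_pos hg h' y0 gx e).ne'
    · exact e
    · exact absurd gy (wtop0_neg hg h' x0 gx e).ne
  · refine strictConvexOn_of_deriv2_pos (convex_Ioc _ _)
      (hf.continuousOn.mono fun t ht => ht.1) ?_
    rw [interior_Ioc]
    exact fun y hy => wtop0_pos hg h' hy.1 gx hy.2
  · refine strictConcaveOn_of_deriv2_neg (convex_Ici _)
      (hf.continuousOn.mono fun t ht => x0.trans_le ht) ?_
    rw [interior_Ici]
    exact fun y hy => wtop0_neg hg h' x0 gx hy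

end Pool.Agent.HillD
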